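import Pool.Agent.TWC.TZB

/-!
# TWC TOU: consequences of the tangency

`S = Po φ`, `TT S P0 = Hs ν` (`tan_cone`).

* `tan`: the definition of `TT`.
* `tan_unif`: for `0 < δ ≤ 1` the set `C = {h | |h| = 1, δ ≤ <h,ν>}` is compact and contained in `Hs ν = TT S P0`:
  `tt_compact`.
* `tgf`: let `ε > 0` (if `ε > 1` use `ε = 1`: `dw x ≤ |x - P0|`; or simply use `min ε 1`), `s` from `tan_unif` for
  `δ = min ε 1`, `r = s`. Let `x ∈ Ω`, `|x - P0| < r`, `φ x = 0`. If `dw x > δ |x - P0|` then (`dw_le_half`)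
  `<x - P0, ν> ≥ dw x > δ |x - P0|`, `x ≠ P0`, `h = (x - P0)/|x - P0| ∈ C`, so `x = P0 + |x - P0| h ∈ S`, contradiction.
* `ncv`: let `0 < δ ≤ 1/2`, `s` from `tan_unif`, `|x - P0| ≤ δ s`, `|μ| = 1`, `<y - x, μ> ≥ 0` for `y ∈ S`. For `h ∈ C`,
  `y = P0 + s h ∈ S`: `s <h,μ> ≥ <x - P0, μ> ≥ -δ s`, so `<h,μ> ≥ -δ`. Let `μ = a ν + w`, `w ⊥ ν`, `a² + |w|² = 1`. `h = ν`:
  `a ≥ -δ`. If `w ≠ 0`: `h = δ ν - √(1-δ²) w/|w| ∈ C`: `δ a - √(1-δ²)|w| ≥ -δ`, so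
  `|w| ≤ δ (1+a)/√(1-δ²) ≤ 4 δ`. So `a² ≥ 1 - 16 δ²`, and for `δ ≤ 1/8`: `a² ≥ 3/4`, `a ≥ -1/8` give `a > 0`,
  `a ≥ 1 - 16 δ²` (as `a ≥ a²`), `|μ - ν|² = 2 - 2 a ≤ 32 δ²`. Choose `δ` with `6 δ ≤ ε`.
-/

open Set Metric Filter Topology
open scoped RealInnerProductSpace

noncomputable section

namespace Pool.Agent.TWC

variable {n : ℕ} {p c : ℝ} {e : E n} {r0 : ℝ} {Ω : Set (E n)} {φ : E n → ℝ} {P0 ν : E n}

theorem tan (h : Ctx p c e r0 Ω φ P0 ν) {d : E n} (hd : 0 < ⟪d, ν⟫) :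
    ∃ s : ℝ, 0 < s ∧ P0 + s • d ∈ Po φ := by
  have h1 : d ∈ TT (Po φ) P0 := by
    rw [tan_cone h]
    exact hd
  exact h1

theorem tan_unif (h : Ctx p c e r0 Ω φ P0 ν) {δ : ℝ} (hδ : 0 < δ) :
    ∃ s : ℝ, 0 < s ∧ ∀ s' : ℝ, 0 < s' → s' ≤ s → ∀ d : E n, ‖d‖ = 1 → δ ≤ ⟪d, ν⟫ →
      P0 + s' • d ∈ Po φ := by
  have hC : IsCompact (sphere (0 : E n) 1 ∩ {d : E n | δ ≤ ⟪d, ν⟫}) := by
    apply (isCompact_sphere (0 : E n) 1).inter_right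
    exact isClosed_le continuous_const (continuous_id.inner continuous_const)
  have hCT : sphere (0 : E n) 1 ∩ {d : E n | δ ≤ ⟪d, ν⟫} ⊆ TT (Po φ) P0 := by
    rw [tan_cone h]
    intro d hd
    exact lt_of_lt_of_le hδ hd.2
  obtain ⟨s, hs, hs'⟩ := tt_compact h.tw.qs.isOpen h.tw.qs.convex h.cl hC hCT
  refine ⟨s, hs, fun s' h1 h2 d hd1 hd2 => hs' s' h1 h2 d ⟨?_, hd2⟩⟩
  rw [mem_sphere_zero_iff_norm]
  exact hd1

theorem tgf (h : Ctx p c e r0 Ω φ P0 ν) {ε : ℝ} (hε : 0 < ε) :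
    ∃ r > 0, ∀ x ∈ Ω, ‖x - P0‖ < r → φ x = 0 → dw Ω x ≤ ε * ‖x - P0‖ := by
  obtain ⟨s, hs, hs'⟩ := tan_unif h hε
  refine ⟨s, hs, ?_⟩
  intro x hx hxr hx0
  by_contra hcon
  push Not at hcon
  have h1 := dw_le_half h.tube h.fr h.nu h.ib hx
  have h2 : x - P0 ≠ 0 := by
    intro h0
    rw [h0, inner_zero_left] at h1
    rw [h0, norm_zero, mul_zero] at hcon
    linarith
  have h3 : 0 < ‖x - P0‖ := norm_pos_iff.2 h2
  have h4 : ‖(‖x - P0‖)⁻¹ • (x - P0)‖ = 1 := by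
    rw [norm_smul, norm_inv, norm_norm, inv_mul_cancel₀ h3.ne']
  have h5 : ε ≤ ⟪(‖x - P0‖)⁻¹ • (x - P0), ν⟫ := by
    rw [real_inner_smul_left, ← div_eq_inv_mul, le_div_iff₀ h3]
    linarith
  have h6 := hs' ‖x - P0‖ h3 hxr.le _ h4 h5
  rw [smul_smul, mul_inv_cancel₀ h3.ne', one_smul, add_sub_cancel] at h6
  have h7 : 0 < φ x := h6
  linarith

theorem ncv (h : Ctx p c e r0 Ω φ P0 ν) {ε : ℝ} (hε : 0 < ε) :
    ∃ r > 0, ∀ x, ‖x - P0‖ < r → ∀ μ : E n, ‖μ‖ = 1 → (∀ y ∈ Po φ, 0 ≤ ⟪y - x, μ⟫) →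
      ‖μ - ν‖ ≤ ε := by
  obtain ⟨δ, hδ, hδ1, hδ2⟩ : ∃ δ : ℝ, 0 < δ ∧ δ ≤ 1 / 8 ∧ δ ≤ ε / 6 :=
    ⟨min (1 / 8) (ε / 6), lt_min (by norm_num) (by positivity), min_le_left _ _, min_le_right _ _⟩
  obtain ⟨s, hs, hs'⟩ := tan_unif h hδ
  refine ⟨δ * s, mul_pos hδ hs, ?_⟩
  intro x hx μ hμ hy
  have key : ∀ d : E n, ‖d‖ = 1 → δ ≤ ⟪d, ν⟫ → -δ ≤ ⟪d, μ⟫ := by
    intro d hd1 hd2
    have h1 := hy _ (hs' s hs le_rfl d hd1 hd2)
    have h2 : P0 + s • d - x = s • d - (x - P0) := by abel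
    rw [h2, inner_sub_left, real_inner_smul_left] at h1
    have h3 : -(‖x - P0‖) ≤ ⟪x - P0, μ⟫ := by
      have h4 := abs_real_inner_le_norm (x - P0) μ
      rw [hμ, mul_one] at h4
      exact (abs_le.1 h4).1
    have h5 : -(δ * s) ≤ s * ⟪d, μ⟫ := by linarith
    have h6 : s * (-δ) ≤ s * ⟪d, μ⟫ := by linarith [mul_comm δ s]
    exact le_of_mul_le_mul_left h6 hs
  have hν : ‖ν‖ = 1 := h.nu
  have hνν : ⟪ν, ν⟫ = (1 : ℝ) := by rw [real_inner_self_eq_norm_sq, hν]; norm_num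
  have hμμ : ⟪μ, μ⟫ = (1 : ℝ) := by rw [real_inner_self_eq_norm_sq, hμ]; norm_num
  set a : ℝ := ⟪μ, ν⟫ with ha
  set w : E n := μ - a • ν with hw
  have hwν : ⟪w, ν⟫ = 0 := by
    rw [hw, inner_sub_left, real_inner_smul_left, hνν, ← ha]
    ring
  have hνw : ⟪ν, w⟫ = 0 := by
    rw [real_inner_comm]
    exact hwν
  have hμw : ⟪μ, w⟫ = ‖w‖ ^ 2 := by
    rw [← real_inner_self_eq_norm_sq]
    have h1 : μ = w + a • ν := by
      rw [hw]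
      abel
    nth_rewrite 1 [h1]
    rw [inner_add_left, real_inner_smul_left, hνw, mul_zero, add_zero]
  have hww : ‖w‖ ^ 2 = 1 - a ^ 2 := by
    rw [← hμw, hw, inner_sub_right, real_inner_smul_right, hμμ, ← ha]
    ring
  have ha1 : -δ ≤ a := by
    have h1 := key ν hν (by rw [hνν]; linarith)
    rw [real_inner_comm] at h1
    exact h1
  have ha2 : a ≤ 1 := by
    have h1 := real_inner_le_norm μ ν
    rw [hμ, hν, mul_one] at h1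
    exact h1
  have hmn : ‖μ - ν‖ ^ 2 = 2 - 2 * a := by
    have h1 : ⟪ν, μ⟫ = a := by
      rw [real_inner_comm]
    rw [← real_inner_self_eq_norm_sq, inner_sub_left, inner_sub_right, inner_sub_right, hνν, hμμ,
      h1, ← ha]
    ring
  have hw4 : ‖w‖ ≤ 4 * δ := by
    rcases eq_or_ne w 0 with h0 | h0
    · rw [h0, norm_zero]
      positivity
    · have hwp : 0 < ‖w‖ := norm_pos_iff.2 h0
      have hsq0 : (0 : ℝ) ≤ 1 - δ ^ 2 := by nlinarith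
      have hsq : √(1 - δ ^ 2) ^ 2 = 1 - δ ^ 2 := Real.sq_sqrt hsq0
      have hsq1 : 1 / 2 ≤ √(1 - δ ^ 2) := by
        apply Real.le_sqrt_of_sq_le
        nlinarith
      set q : ℝ := √(1 - δ ^ 2) with hq
      have h1 : ‖δ • ν - (q / ‖w‖) • w‖ = 1 := by
        have h2 : ‖δ • ν - (q / ‖w‖) • w‖ ^ 2 = 1 := by
          rw [← real_inner_self_eq_norm_sq, inner_sub_left, inner_sub_right, inner_sub_right]
          simp only [real_inner_smul_left, real_inner_smul_right]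
          rw [hνν, hνw, hwν, real_inner_self_eq_norm_sq]
          have h3 : δ * (δ * 1) - δ * (q / ‖w‖ * 0) - (q / ‖w‖ * (δ * 0) - q / ‖w‖ * (q / ‖w‖ * ‖w‖ ^ 2))
              = δ ^ 2 + q ^ 2 := by
            field_simp
            ring
          linarith [h3, hsq]
        have h4 : (0 : ℝ) ≤ ‖δ • ν - (q / ‖w‖) • w‖ := norm_nonneg _
        nlinarith
      have h2 : ⟪δ • ν - (q / ‖w‖) • w, ν⟫ = δ := by
        rw [inner_sub_left, real_inner_smul_left, real_inner_smul_left, hνν, hwν]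
        ring
      have h3 := key _ h1 h2.ge
      have h4 : ⟪δ • ν - (q / ‖w‖) • w, μ⟫ = δ * a - q * ‖w‖ := by
        rw [inner_sub_left, real_inner_smul_left, real_inner_smul_left, real_inner_comm μ ν,
          real_inner_comm μ w, hμw, ← ha]
        field_simp
      rw [h4] at h3
      have h5 : q * ‖w‖ ≤ 2 * δ := by nlinarith
      have h6 : 1 / 2 * ‖w‖ ≤ q * ‖w‖ := mul_le_mul_of_nonneg_right hsq1 hwp.le
      linarith
  have h16 : ‖w‖ ^ 2 ≤ 16 * δ ^ 2 := by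
    have := norm_nonneg w
    nlinarith
  have hapos : 0 < a := by
    by_contra hcon
    push Not at hcon
    nlinarith
  have ha3 : 1 - 16 * δ ^ 2 ≤ a := by nlinarith
  have h7 : ‖μ - ν‖ ^ 2 ≤ ε ^ 2 := by
    rw [hmn]
    nlinarith
  exact (sq_le_sq₀ (norm_nonneg _) hε.le).1 h7

end Pool.Agent.TWC
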