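import Pool.Agent.TWC.Defs
import Pool.Agent.PP.Defs

/-!
# TWC AC1: the flux `A p ξ = |ξ|^(p-2) ξ` is continuously differentiable (`p > 2`)

The proof is already in the library: `Pool.Agent.PP.BAR2` (private lemmas `bar2_W`, `bar2_DW`,
`bar2_W_hasFDeriv`, `bar2_W_contDiff` with `s = p - 2 > 0`): copy them.
`fderiv (A p) ξ v = |ξ|^(p-2) v + (p-2) |ξ|^(p-4) <ξ,v> ξ` (at `ξ = 0` both sides are `0`).
`ac1_div`: chain rule: `fderiv (A p ∘ gradient f) x v = fderiv (A p) (∇f) (D(∇f) v)`, and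
`⟪D(∇f) v, w⟫ = (fderiv (fderiv f) x v) w`; take `v = e_i`, the `i`-th component, and sum:
`Σ |P|^(p-2) X(e_i,e_i) + (p-2)|P|^(p-4) Σ X(e_i,P) P_i = pA p P X`.
-/

open Set Metric Filter Topology
open scoped RealInnerProductSpace ContDiff

noncomputable section

namespace Pool.Agent.TWC

variable {n : ℕ} {p : ℝ}

/-- the vector field `|y|^s y` -/
private def AC1_W (s : ℝ) (y : E n) : E n := ‖y‖ ^ s • y

/-- its derivative -/
private def AC1_DW (s : ℝ) (y : E n) : E n →L[ℝ] E n :=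
  ‖y‖ ^ s • ContinuousLinearMap.id ℝ (E n) +
    (s * ‖y‖ ^ (s - 2)) • (innerSL ℝ y).smulRight y

private theorem AC1_norm_hasFDeriv (s : ℝ) {y : E n} (hy : y ≠ 0) :
    HasFDerivAt (fun y : E n => ‖y‖ ^ s) ((s * ‖y‖ ^ (s - 2)) • innerSL ℝ y) y := by
  have h0 : 0 < ‖y‖ := norm_pos_iff.2 hy
  have h1 : HasFDerivAt (fun y : E n => ‖y‖ ^ 2) (2 • innerSL ℝ y) y := by
    have := (hasStrictFDerivAt_norm_sq y).hasFDerivAt
    simpa using this
  have h2 := h1.rpow_const (p := s / 2) (Or.inl (by positivity))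
  have e1 : (fun y : E n => (‖y‖ ^ 2) ^ (s / 2)) = fun y : E n => ‖y‖ ^ s := by
    funext x
    rw [← Real.rpow_natCast, ← Real.rpow_mul (norm_nonneg _)]
    congr 1
    push_cast
    ring
  rw [e1] at h2
  have e2 : (s / 2 * (‖y‖ ^ 2) ^ (s / 2 - 1)) • (2 • innerSL ℝ y) =
      (s * ‖y‖ ^ (s - 2)) • innerSL ℝ y := by
    have : (‖y‖ ^ 2) ^ (s / 2 - 1) = ‖y‖ ^ (s - 2) := by
      rw [← Real.rpow_natCast, ← Real.rpow_mul (norm_nonneg _)]
      congr 1
      push_cast
      ring
    rw [this, two_smul, ← two_smul ℝ, smul_smul]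
    congr 1
    ring
  rw [e2] at h2
  exact h2

private theorem AC1_W_hasFDeriv {s : ℝ} (hs : 0 ≤ s) (y : E n) :
    HasFDerivAt (AC1_W s) (AC1_DW s y) y := by
  by_cases hy : y = 0
  · subst hy
    rcases hs.eq_or_lt with h | h
    · subst h
      have e1 : (AC1_W 0 : E n → E n) = id := by
        funext x
        simp [AC1_W]
      have e2 : (AC1_DW 0 (0 : E n)) = ContinuousLinearMap.id ℝ (E n) := by
        unfold AC1_DW
        simp
      rw [e1, e2]
      exact hasFDerivAt_id 0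
    · have e2 : (AC1_DW s (0 : E n)) = 0 := by
        unfold AC1_DW
        ext v
        simp [Real.zero_rpow h.ne']
      rw [e2, hasFDerivAt_iff_isLittleO_nhds_zero]
      have h3 : (fun x : E n => AC1_W s (0 + x) - AC1_W s 0 - (0 : E n →L[ℝ] E n) x) =
          fun x => ‖x‖ ^ s • x := by
        funext x
        simp [AC1_W]
      rw [h3]
      have h4 : (fun x : E n => ‖x‖ ^ s) =o[𝓝 0] (fun _ : E n => (1 : ℝ)) := by
        rw [Asymptotics.isLittleO_one_iff]
        have : ContinuousAt (fun x : E n => ‖x‖ ^ s) 0 :=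
          (continuous_norm.continuousAt).rpow_const (Or.inr hs)
        simpa [ContinuousAt, Real.zero_rpow h.ne'] using this
      have h5 := h4.smul_isBigO (Asymptotics.isBigO_refl (fun x : E n => x) (𝓝 0))
      simpa using h5
  · have h1 := (AC1_norm_hasFDeriv s hy).smul (hasFDerivAt_id y)
    refine h1.congr_fderiv ?_
    unfold AC1_DW
    ext v
    simp
    ring

private theorem AC1_W_contDiff {s : ℝ} (hs : 0 ≤ s) :
    ContDiff ℝ 1 (AC1_W s : E n → E n) := by
  rw [contDiff_one_iff_hasFDerivAt]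
  refine ⟨AC1_DW s, ?_, AC1_W_hasFDeriv hs⟩
  unfold AC1_DW
  have h1 : Continuous (fun y : E n => ‖y‖ ^ s • ContinuousLinearMap.id ℝ (E n)) :=
    (continuous_norm.rpow_const fun _ => Or.inr hs).smul continuous_const
  refine h1.add ?_
  rw [continuous_iff_continuousAt]
  intro y
  by_cases hy : y = 0
  · subst hy
    rcases hs.eq_or_lt with h | h
    · subst h
      simp only [zero_mul, zero_smul]
      exact continuousAt_const
    · unfold ContinuousAt
      have e0 : (s * ‖(0 : E n)‖ ^ (s - 2)) • (innerSL ℝ (0 : E n)).smulRight (0 : E n) = 0 := by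
        simp
      change Tendsto _ _ (𝓝 ((s * ‖(0 : E n)‖ ^ (s - 2)) •
        (innerSL ℝ (0 : E n)).smulRight (0 : E n)))
      rw [e0]
      have hlim : Tendsto (fun y : E n => s * ‖y‖ ^ s) (𝓝 0) (𝓝 0) := by
        have : ContinuousAt (fun x : E n => s * ‖x‖ ^ s) 0 :=
          continuousAt_const.mul ((continuous_norm.continuousAt).rpow_const (Or.inr hs))
        simpa [ContinuousAt, Real.zero_rpow h.ne'] using this
      refine squeeze_zero_norm (fun y => ?_) hlim
      rw [norm_smul, Real.norm_eq_abs, abs_of_nonneg (by positivity),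
        ContinuousLinearMap.norm_smulRight_apply, innerSL_apply_norm, mul_assoc]
      by_cases hy : y = 0
      · subst hy
        simp [Real.zero_rpow h.ne']
      · have h0 : 0 < ‖y‖ := norm_pos_iff.2 hy
        refine mul_le_mul_of_nonneg_left (le_of_eq ?_) hs
        have : ‖y‖ ^ s = ‖y‖ ^ (s - 2) * ‖y‖ ^ (2 : ℝ) := by
          rw [← Real.rpow_add h0]
          congr 1
          ring
        rw [this]
        congr 1
        rw [show (2 : ℝ) = ((2 : ℕ) : ℝ) by norm_num, Real.rpow_natCast]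
        ring
  · have h0 : ‖y‖ ≠ 0 := norm_ne_zero_iff.2 hy
    have h2 : ContinuousAt (fun y : E n => s * ‖y‖ ^ (s - 2)) y :=
      continuousAt_const.mul ((continuous_norm.continuousAt).rpow_const (Or.inl h0))
    have h3 : Continuous (fun y : E n => (innerSL ℝ y).smulRight y) := by
      have : Continuous fun y : E n => (innerSL ℝ y : E n →L[ℝ] ℝ) := (innerSL ℝ).continuous
      exact (ContinuousLinearMap.smulRightL ℝ (E n) (E n)).continuous₂.comp
        (this.prodMk continuous_id)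
    exact h2.smul h3.continuousAt

theorem ac1 (hp : 2 < p) : ContDiff ℝ 1 (PP.A p : E n → E n) :=
  AC1_W_contDiff (s := p - 2) (by linarith)

private theorem AC1_has (hp : 2 < p) (ξ : E n) :
    HasFDerivAt (PP.A p : E n → E n) (AC1_DW (p - 2) ξ) ξ :=
  AC1_W_hasFDeriv (s := p - 2) (by linarith) ξ

private theorem AC1_DW_apply (p : ℝ) (ξ v : E n) :
    AC1_DW (p - 2) ξ v = ‖ξ‖ ^ (p - 2) • v + ((p - 2) * ‖ξ‖ ^ (p - 4) * ⟪ξ, v⟫) • ξ := by
  have h1 : p - 2 - 2 = p - 4 := by ring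
  have h2 : AC1_DW (p - 2) ξ v =
      ‖ξ‖ ^ (p - 2) • v + ((p - 2) * ‖ξ‖ ^ (p - 2 - 2)) • (⟪ξ, v⟫ • ξ) := rfl
  rw [h2, h1, smul_smul]

theorem ac1_fderiv (hp : 2 < p) (ξ v : E n) :
    fderiv ℝ (PP.A p : E n → E n) ξ v =
      ‖ξ‖ ^ (p - 2) • v + ((p - 2) * ‖ξ‖ ^ (p - 4) * ⟪ξ, v⟫) • ξ := by
  rw [(AC1_has hp ξ).fderiv, AC1_DW_apply]

theorem ac1_div (hp : 2 < p) {f : E n → ℝ} {x : E n} (hf : ContDiffAt ℝ 2 f x) :
    ∑ i, (fderiv ℝ (fun y => PP.A p (gradient f y)) x (EuclideanSpace.single i 1)) i =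
      pA p (gradient f x) (fderiv ℝ (fderiv ℝ f) x) := by
  set X : Bil n := fderiv ℝ (fderiv ℝ f) x with hX
  set P : E n := gradient f x with hP
  have h1 : HasFDerivAt (fderiv ℝ f) X x := by
    have h2 : ContDiffAt ℝ 1 (fderiv ℝ f) x := hf.fderiv_right (by norm_num)
    exact (h2.differentiableAt (by norm_num)).hasFDerivAt
  set T : (E n →L[ℝ] ℝ) →L[ℝ] E n :=
    LinearMap.toContinuousLinearMap
      { toFun := fun φ : E n →L[ℝ] ℝ => (InnerProductSpace.toDual ℝ (E n)).symm φ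
        map_add' := fun a b => by simp
        map_smul' := fun c a => by simp } with hT
  have hTa : ∀ φ : E n →L[ℝ] ℝ, T φ = (InnerProductSpace.toDual ℝ (E n)).symm φ := fun φ => rfl
  have h3 : HasFDerivAt (gradient f) (T.comp X) x := T.hasFDerivAt.comp x h1
  have h4 : HasFDerivAt (fun y => PP.A p (gradient f y)) ((AC1_DW (p - 2) P).comp (T.comp X)) x :=
    HasFDerivAt.comp (g := (PP.A p : E n → E n)) (f := gradient f) x (AC1_has hp P) h3
  have h5 : ∀ v w : E n, ⟪T (X v), w⟫ = X v w := fun v w => by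
    rw [hTa, InnerProductSpace.toDual_symm_apply]
  have h6 : ∀ (w : E n) (i : Fin n), w i = ⟪w, EuclideanSpace.single i 1⟫ := fun w i => by
    rw [EuclideanSpace.inner_single_right]
    simp
  rw [h4.fderiv]
  have h7 : ∀ i : Fin n, (((AC1_DW (p - 2) P).comp (T.comp X)) (EuclideanSpace.single i 1)) i =
      ‖P‖ ^ (p - 2) * X (EuclideanSpace.single i 1) (EuclideanSpace.single i 1) +
        (p - 2) * ‖P‖ ^ (p - 4) * (P i * X (EuclideanSpace.single i 1) P) := by
    intro i
    have h8 : ((AC1_DW (p - 2) P).comp (T.comp X)) (EuclideanSpace.single i 1) =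
        AC1_DW (p - 2) P (T (X (EuclideanSpace.single i 1))) := rfl
    rw [h8, AC1_DW_apply, PiLp.add_apply, PiLp.smul_apply, PiLp.smul_apply, smul_eq_mul,
      smul_eq_mul, h6 (T _), h5, real_inner_comm, h5]
    ring
  rw [Finset.sum_congr rfl fun i _ => h7 i, Finset.sum_add_distrib, ← Finset.mul_sum,
    ← Finset.mul_sum]
  unfold pA tr
  congr 2
  have h9 : P = ∑ i, P i • (EuclideanSpace.single i (1 : ℝ) : E n) := by
    conv_lhs => rw [← (EuclideanSpace.basisFun (Fin n) ℝ).sum_repr P]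
    refine Finset.sum_congr rfl fun i _ => ?_
    rw [EuclideanSpace.basisFun_apply, EuclideanSpace.basisFun_repr]
  have h10 : X P = ∑ i, P i • X (EuclideanSpace.single i (1 : ℝ)) := by
    conv_lhs => rw [h9]
    rw [map_sum]
    exact Finset.sum_congr rfl fun i _ => map_smul _ _ _
  rw [h10, _root_.sum_apply]
  exact Finset.sum_congr rfl fun i _ => rfl

end Pool.Agent.TWC
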