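import Pool.Agent.TWC.Defs
import Pool.Agent.VSC.LPT

/-!
# TWC JTB: second order expansions of explicit functions and the chain rule

* `t2_of_contDiffAt`: Taylor's theorem of order two. `Pool.Agent.VSC.LPT` contains a general
  `taylor2` (it may be imported); the form is `fderiv ℝ (fderiv ℝ f) x`.
* `t2_add`, `t2_smul`, `t2_const`, `t2_quad`: direct. For `t2_quad`:
  `w y = c + <P0, y - x0> + 1/2 X (y - x0) (y - x0)` with `X` symmetric has at `x` the gradient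
  `P0 + X (x - x0)` (as a vector: the Riesz representative) and the form `X`.
* `uj_comp` (chain rule for upper jets): let `F` be monotone on `I`, `u` with values in `I`, and let
  `F` have at `u x` the expansion `F t ≤ F (u x) + F1 (t - u x) + F2/2 (t - u x)^2 + ε (t - u x)^2`
  for `t ∈ I` near `u x`, `F1 > 0`, and suppose that `I` contains a neighbourhood of `u x`.
  With `Qy = <P,y-x> + X/2 + ε |y-x|^2` we have `u y ≤ u x + Qy`, so
  `F (u y) ≤ F (u x + Qy) ≤ F (u x) + F1 Qy + F2/2 Qy^2 + ε Qy^2` and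
  `Qy^2 = <P,y-x>^2 + O(|y-x|^3)`. The form is `F1 X + F2 P ⊗ P`.
* `uj_pow`: the case `F t = t ^ s` (`s > 0`) on `I = [0, ∞)`, `u ≥ 0`, `u x > 0`:
  `F1 = s u^(s-1)`, `F2 = s (s-1) u^(s-2)`.
* `t2_rad`: functions `w y = f (|y - x0|)` at `x ≠ x0` with `f` twice differentiable near
  `|x - x0|`: `P = (f'/R) (x - x0)`, `X = (f'/R) ip + (f''/R^2 - f'/R^3) rk (x - x0)`, `R = |x - x0|`.
  (`|y - x0|` has the expansion with gradient `(x-x0)/R` and form `(ip - rk((x-x0)/R))/R`.)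
-/

open Set Metric Filter Topology
open scoped RealInnerProductSpace ContDiff

noncomputable section

namespace Pool.Agent.TWC

variable {n : ℕ} {u v w : E n → ℝ} {x P Q : E n} {X Y : Bil n}

theorem rk_apply (a v w : E n) : rk a v w = ⟪a, v⟫ * ⟪a, w⟫ := by
  simp [rk, innerSL_apply_apply]

theorem ip_apply (v w : E n) : (ip : Bil n) v w = ⟪v, w⟫ := by
  rfl

/-- two sided form of `T2` -/
theorem jtb_iff : T2 u x P X ↔ ∀ ε > 0, ∃ r > 0, ∀ y, ‖y - x‖ < r →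
    |u y - u x - ⟪P, y - x⟫ - 1 / 2 * X (y - x) (y - x)| ≤ ε * ‖y - x‖ ^ 2 := by
  constructor
  · rintro ⟨h1, h2⟩ ε hε
    obtain ⟨r1, hr1, H1⟩ := h1 ε hε
    obtain ⟨r2, hr2, H2⟩ := h2 ε hε
    refine ⟨min r1 r2, lt_min hr1 hr2, fun y hy => ?_⟩
    have e1 := H1 y (hy.trans_le (min_le_left _ _))
    have e2 := H2 y (hy.trans_le (min_le_right _ _))
    rw [abs_le]
    constructor <;> linarith
  · intro h
    constructor
    · intro ε hε
      obtain ⟨r, hr, H⟩ := h ε hε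
      refine ⟨r, hr, fun y hy => ?_⟩
      have := (abs_le.1 (H y hy)).2
      linarith
    · intro ε hε
      obtain ⟨r, hr, H⟩ := h ε hε
      refine ⟨r, hr, fun y hy => ?_⟩
      have := (abs_le.1 (H y hy)).1
      linarith

/-- The gradient vector of a continuous linear functional. -/
theorem t2_of_contDiffAt {f : E n → ℝ} (hf : ContDiffAt ℝ 2 f x) :
    T2 f x (gradient f x) (fderiv ℝ (fderiv ℝ f) x) := by
  rw [jtb_iff]
  intro ε hε
  obtain ⟨r, hr, H⟩ := Metric.eventually_nhds_iff.1 (Pool.Agent.VSC.taylor2 hf hε)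
  refine ⟨r, hr, fun y hy => ?_⟩
  have h1 := @H (y - x) (by rwa [dist_zero_right])
  rw [add_sub_cancel] at h1
  have h2 : ⟪gradient f x, y - x⟫ = fderiv ℝ f x (y - x) := by
    rw [gradient, InnerProductSpace.toDual_symm_apply]
  rw [h2]
  exact h1

theorem t2_add (hu : T2 u x P X) (hw : T2 w x Q Y) : T2 (fun y => u y + w y) x (P + Q) (X + Y) := by
  rw [jtb_iff] at *
  intro ε hε
  obtain ⟨r1, hr1, H1⟩ := hu (ε / 2) (by positivity)
  obtain ⟨r2, hr2, H2⟩ := hw (ε / 2) (by positivity)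
  refine ⟨min r1 r2, lt_min hr1 hr2, fun y hy => ?_⟩
  have e1 := H1 y (hy.trans_le (min_le_left _ _))
  have e2 := H2 y (hy.trans_le (min_le_right _ _))
  rw [inner_add_left, add_apply, add_apply]
  have e3 : u y + w y - (u x + w x) - (⟪P, y - x⟫ + ⟪Q, y - x⟫) -
      1 / 2 * (X (y - x) (y - x) + Y (y - x) (y - x)) =
      (u y - u x - ⟪P, y - x⟫ - 1 / 2 * X (y - x) (y - x)) +
      (w y - w x - ⟪Q, y - x⟫ - 1 / 2 * Y (y - x) (y - x)) := by ring
  rw [e3]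
  refine (abs_add_le _ _).trans ?_
  linarith

theorem t2_const (c : ℝ) : T2 (fun _ : E n => c) x 0 0 := by
  rw [jtb_iff]
  intro ε hε
  refine ⟨1, one_pos, fun y _ => ?_⟩
  simp only [sub_self, inner_zero_left, zero_apply, mul_zero, abs_zero]
  positivity

theorem t2_smul (c : ℝ) (hu : T2 u x P X) : T2 (fun y => c * u y) x (c • P) (c • X) := by
  rw [jtb_iff] at *
  intro ε hε
  obtain ⟨r1, hr1, H1⟩ := hu (ε / (|c| + 1)) (by positivity)
  refine ⟨r1, hr1, fun y hy => ?_⟩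
  have e1 := H1 y hy
  rw [real_inner_smul_left, smul_apply, smul_apply,
    smul_eq_mul]
  have e3 : c * u y - c * u x - c * ⟪P, y - x⟫ - 1 / 2 * (c * X (y - x) (y - x)) =
      c * (u y - u x - ⟪P, y - x⟫ - 1 / 2 * X (y - x) (y - x)) := by ring
  rw [e3, abs_mul]
  calc |c| * |u y - u x - ⟪P, y - x⟫ - 1 / 2 * X (y - x) (y - x)|
      ≤ (|c| + 1) * (ε / (|c| + 1) * ‖y - x‖ ^ 2) := by
        gcongr
        linarith
    _ = ε * ‖y - x‖ ^ 2 := by field_simp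

/-- Quadratic polynomials centred at the point. -/
theorem t2_quad_self (c : ℝ) (P : E n) (X : Bil n) :
    T2 (fun y => c + ⟪P, y - x⟫ + 1 / 2 * X (y - x) (y - x)) x P X := by
  rw [jtb_iff]
  intro ε hε
  refine ⟨1, one_pos, fun y _ => ?_⟩
  have e : c + ⟪P, y - x⟫ + 1 / 2 * X (y - x) (y - x) - (c + ⟪P, x - x⟫ +
      1 / 2 * X (x - x) (x - x)) - ⟪P, y - x⟫ - 1 / 2 * X (y - x) (y - x) = 0 := by
    rw [sub_self, inner_zero_right, map_zero]
    ring
  rw [e, abs_zero]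
  positivity

/-- Affine functions. -/
theorem t2_lin (c : ℝ) (P x0 : E n) : T2 (fun y => c + ⟪P, y - x0⟫) x P 0 := by
  rw [jtb_iff]
  intro ε hε
  refine ⟨1, one_pos, fun y _ => ?_⟩
  have e : c + ⟪P, y - x0⟫ - (c + ⟪P, x - x0⟫) - ⟪P, y - x⟫ -
      1 / 2 * (0 : Bil n) (y - x) (y - x) = 0 := by
    rw [zero_apply, zero_apply, inner_sub_right,
      inner_sub_right, inner_sub_right]
    ring
  rw [e, abs_zero]
  positivity

/-- `|y - x0|^2`. -/
theorem t2_normSq (x0 : E n) : T2 (fun y => ‖y - x0‖ ^ 2) x ((2 : ℝ) • (x - x0)) ((2 : ℝ) • ip) := by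
  rw [jtb_iff]
  intro ε hε
  refine ⟨1, one_pos, fun y _ => ?_⟩
  have e : ‖y - x0‖ ^ 2 - ‖x - x0‖ ^ 2 - ⟪(2 : ℝ) • (x - x0), y - x⟫ -
      1 / 2 * ((2 : ℝ) • (ip : Bil n)) (y - x) (y - x) = 0 := by
    rw [real_inner_smul_left, smul_apply, smul_apply,
      ip_apply, smul_eq_mul, real_inner_self_eq_norm_sq]
    have h1 : y - x0 = (x - x0) + (y - x) := by abel
    rw [h1, norm_add_sq_real]
    ring
  rw [e, abs_zero]
  positivity

/-- Squares of affine functions. -/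
theorem t2_sq (x0 a : E n) :
    T2 (fun y => ⟪a, y - x0⟫ ^ 2) x ((2 * ⟪a, x - x0⟫) • a) ((2 : ℝ) • rk a) := by
  rw [jtb_iff]
  intro ε hε
  refine ⟨1, one_pos, fun y _ => ?_⟩
  have e : ⟪a, y - x0⟫ ^ 2 - ⟪a, x - x0⟫ ^ 2 - ⟪(2 * ⟪a, x - x0⟫) • a, y - x⟫ -
      1 / 2 * ((2 : ℝ) • rk a) (y - x) (y - x) = 0 := by
    rw [real_inner_smul_left, smul_apply, smul_apply,
      rk_apply, smul_eq_mul]
    have h1 : y - x0 = (x - x0) + (y - x) := by abel
    rw [h1, inner_add_right]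
    ring
  rw [e, abs_zero]
  positivity

/-- One sided expansion of `F` at `t0` inside `I`. -/
def E1 (F : ℝ → ℝ) (I : Set ℝ) (t0 F1 F2 : ℝ) : Prop :=
  ∀ ε > 0, ∃ r > 0, ∀ t ∈ I, |t - t0| < r →
    F t ≤ F t0 + F1 * (t - t0) + 1 / 2 * F2 * (t - t0) ^ 2 + ε * (t - t0) ^ 2

theorem jtb_form_bound (X : Bil n) (v : E n) : |X v v| ≤ ‖X‖ * ‖v‖ ^ 2 := by
  have h := X.le_opNorm₂ v v
  rw [Real.norm_eq_abs] at h
  calc |X v v| ≤ ‖X‖ * ‖v‖ * ‖v‖ := h
    _ = ‖X‖ * ‖v‖ ^ 2 := by ring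

/-- the elementary estimate behind the chain rules -/
theorem jtb_arith {L A s δ d F1 F2 ε1 ε2 ε : ℝ} (hL : 0 ≤ L) (hA : 0 ≤ A) (hs : 0 ≤ s)
    (hd : |d| ≤ L * s) (hδ : |δ| ≤ A * s ^ 2) (hs1 : s ≤ 1)
    (hsF : |F2| * A * (2 * L + A) * s ≤ ε) (hε1 : |F1| * ε1 ≤ ε / 4)
    (hε2 : ε2 * (L + A) ^ 2 ≤ ε / 4) (hε20 : 0 ≤ ε2) {η : ℝ} (hη : |η| ≤ ε1 * s ^ 2)
    (hδd : δ = (δ - η) + η) :
    |F1 * η + 1 / 2 * F2 * ((d + δ) ^ 2 - d ^ 2)| + ε2 * (d + δ) ^ 2 ≤ ε * s ^ 2 := by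
  have hAs : A * s ^ 2 ≤ A * s := by
    have : s ^ 2 ≤ s := by nlinarith
    exact mul_le_mul_of_nonneg_left this hA
  have h1 : |(d + δ) ^ 2 - d ^ 2| ≤ A * s ^ 2 * ((2 * L + A) * s) := by
    have e : (d + δ) ^ 2 - d ^ 2 = δ * (2 * d + δ) := by ring
    rw [e, abs_mul]
    have h2 : |2 * d + δ| ≤ (2 * L + A) * s := by
      refine (abs_add_le _ _).trans ?_
      rw [abs_mul, abs_two]
      nlinarith
    gcongr
  have h3 : (d + δ) ^ 2 ≤ (L + A) ^ 2 * s ^ 2 := by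
    have h4 : |d + δ| ≤ (L + A) * s := by
      refine (abs_add_le _ _).trans ?_
      nlinarith
    calc (d + δ) ^ 2 = |d + δ| ^ 2 := (sq_abs _).symm
      _ ≤ ((L + A) * s) ^ 2 := by gcongr
      _ = _ := by ring
  have h5 : |F1 * η| ≤ ε / 4 * s ^ 2 := by
    rw [abs_mul]
    calc |F1| * |η| ≤ |F1| * (ε1 * s ^ 2) := by gcongr
      _ = |F1| * ε1 * s ^ 2 := by ring
      _ ≤ ε / 4 * s ^ 2 := by gcongr
  have h6 : |1 / 2 * F2 * ((d + δ) ^ 2 - d ^ 2)| ≤ ε / 2 * s ^ 2 := by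
    rw [abs_mul, abs_mul]
    have : |(1 / 2 : ℝ)| = 1 / 2 := by norm_num
    rw [this]
    calc 1 / 2 * |F2| * |(d + δ) ^ 2 - d ^ 2| ≤ 1 / 2 * |F2| * (A * s ^ 2 * ((2 * L + A) * s)) := by
          gcongr
      _ = 1 / 2 * (|F2| * A * (2 * L + A) * s) * s ^ 2 := by ring
      _ ≤ 1 / 2 * ε * s ^ 2 := by gcongr
      _ = ε / 2 * s ^ 2 := by ring
  have h7 : ε2 * (d + δ) ^ 2 ≤ ε / 4 * s ^ 2 := by
    calc ε2 * (d + δ) ^ 2 ≤ ε2 * ((L + A) ^ 2 * s ^ 2) := by gcongr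
      _ = ε2 * (L + A) ^ 2 * s ^ 2 := by ring
      _ ≤ ε / 4 * s ^ 2 := by gcongr
  have h8 := abs_add_le (F1 * η) (1 / 2 * F2 * ((d + δ) ^ 2 - d ^ 2))
  linarith

/-- choice of the constants -/
theorem jtb_const {L A0 F1 F2 ε : ℝ} (hL : 0 ≤ L) (hA : 0 ≤ A0) (hε : 0 < ε) :
    ∃ ε1 > 0, ∃ ε2 > 0, ∃ r > 0, r ≤ 1 ∧ |F1| * ε1 ≤ ε / 4 ∧ ε1 ≤ 1 ∧
      ε2 * (L + (A0 + 1)) ^ 2 ≤ ε / 4 ∧
      ∀ s, 0 ≤ s → s < r → |F2| * (A0 + 1) * (2 * L + (A0 + 1)) * s ≤ ε := by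
  refine ⟨min 1 (ε / (4 * (|F1| + 1))), lt_min one_pos (by positivity),
    ε / (4 * (L + (A0 + 1)) ^ 2), by positivity,
    min 1 (ε / (|F2| * (A0 + 1) * (2 * L + (A0 + 1)) + 1)), lt_min one_pos (by positivity),
    min_le_left _ _, ?_, min_le_left _ _, ?_, ?_⟩
  · calc |F1| * min 1 (ε / (4 * (|F1| + 1))) ≤ (|F1| + 1) * (ε / (4 * (|F1| + 1))) := by
          gcongr
          · linarith
          · exact min_le_right _ _
      _ = ε / 4 := by field_simp
  · apply le_of_eq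
    field_simp
  · intro s hs hsr
    have h1 : s ≤ ε / (|F2| * (A0 + 1) * (2 * L + (A0 + 1)) + 1) :=
      (hsr.trans_le (min_le_right _ _)).le
    calc |F2| * (A0 + 1) * (2 * L + (A0 + 1)) * s
        ≤ (|F2| * (A0 + 1) * (2 * L + (A0 + 1)) + 1) *
          (ε / (|F2| * (A0 + 1) * (2 * L + (A0 + 1)) + 1)) := by
          gcongr
          linarith
      _ = ε := by field_simp

theorem uj_comp {F : ℝ → ℝ} {I : Set ℝ} (hF : MonotoneOn F I) (hu : ∀ y, u y ∈ I)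
    (hI : I ∈ 𝓝 (u x)) {F1 F2 : ℝ} (h1 : 0 < F1) (hE : E1 F I (u x) F1 F2) (h : UJ u x P X) :
    UJ (fun y => F (u y)) x (F1 • P) (F1 • X + F2 • rk P) := by
  intro ε hε
  obtain ⟨ε1, hε1, ε2, hε2, r0, hr0, hr01, hc1, hc11, hc2, hc3⟩ :=
    jtb_const (L := ‖P‖) (A0 := ‖X‖ / 2) (F1 := F1) (F2 := F2) (norm_nonneg _)
      (by positivity) hε
  obtain ⟨r1, hr1, H1⟩ := h ε1 hε1
  obtain ⟨r2, hr2, H2⟩ := hE ε2 hε2
  obtain ⟨r3, hr3, H3⟩ := Metric.mem_nhds_iff.1 hI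
  set A : ℝ := ‖X‖ / 2 + 1 with hA
  have hA0 : 0 ≤ A := by positivity
  set r : ℝ := min (min r0 r1) (min r2 r3 / (‖P‖ + A + 1)) with hr
  have hrpos : 0 < r := lt_min (lt_min hr0 hr1) (div_pos (lt_min hr2 hr3) (by positivity))
  refine ⟨r, hrpos, fun y hy => ?_⟩
  set v := y - x with hv
  set s := ‖v‖ with hs
  have hs0 : 0 ≤ s := norm_nonneg _
  have hsr0 : s < r0 := hy.trans_le ((min_le_left _ _).trans (min_le_left _ _))
  have hsr1 : s < r1 := hy.trans_le ((min_le_left _ _).trans (min_le_right _ _))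
  have hs1 : s ≤ 1 := hsr0.le.trans hr01
  have hsr2 : (‖P‖ + A + 1) * s < min r2 r3 := by
    have h5 : s < min r2 r3 / (‖P‖ + A + 1) := hy.trans_le (min_le_right _ _)
    rw [lt_div_iff₀ (by positivity)] at h5
    linarith
  have e1 := H1 y hsr1
  rw [← hv] at e1
  set d : ℝ := ⟪P, v⟫ with hd
  set δ : ℝ := 1 / 2 * X v v + ε1 * s ^ 2 with hδ
  have hdb : |d| ≤ ‖P‖ * s := abs_real_inner_le_norm _ _
  have hXb := jtb_form_bound X v
  have hδb : |δ| ≤ A * s ^ 2 := by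
    rw [abs_le] at hXb ⊢
    have : 0 ≤ s ^ 2 := by positivity
    constructor <;> nlinarith
  have hsmall : |d + δ| ≤ (‖P‖ + A) * s := by
    refine (abs_add_le _ _).trans ?_
    have : s ^ 2 ≤ s := by nlinarith
    nlinarith
  have hlt : |d + δ| < min r2 r3 := by
    refine lt_of_le_of_lt hsmall (lt_of_le_of_lt ?_ hsr2)
    nlinarith
  have hin : u x + (d + δ) ∈ I := H3 (by
    rw [Metric.mem_ball, Real.dist_eq, add_sub_cancel_left]
    exact hlt.trans_le (min_le_right _ _))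
  have e2 : F (u y) ≤ F (u x + (d + δ)) := by
    refine hF (hu y) hin ?_
    linarith
  have e3 := H2 _ hin (by
    rw [add_sub_cancel_left]
    exact hlt.trans_le (min_le_left _ _))
  rw [add_sub_cancel_left] at e3
  have harith := jtb_arith (L := ‖P‖) (A := A) (s := s) (δ := δ) (d := d) (F1 := F1) (F2 := F2)
    (ε1 := ε1) (ε2 := ε2) (ε := ε) (η := ε1 * s ^ 2) (norm_nonneg _) hA0 hs0 hdb hδb hs1
    (hc3 s hs0 hsr0) hc1 hc2 hε2.le (by rw [abs_of_nonneg (by positivity)]) (by ring)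
  have e4 := le_abs_self (F1 * (ε1 * s ^ 2) + 1 / 2 * F2 * ((d + δ) ^ 2 - d ^ 2))
  rw [real_inner_smul_left, add_apply, add_apply,
    smul_apply, smul_apply,
    smul_apply, smul_apply, rk_apply, smul_eq_mul,
    smul_eq_mul]
  show F (u y) ≤ F (u x) + F1 * d + 1 / 2 * (F1 * X v v + F2 * (d * d)) + ε * s ^ 2
  have e5 : F1 * (d + δ) = F1 * d + F1 * (1 / 2 * X v v) + F1 * (ε1 * s ^ 2) := by
    rw [hδ]; ring
  nlinarith

/-- two sided expansion of a `C^2` function of one variable -/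
theorem jtb_taylor1 {F : ℝ → ℝ} {t0 : ℝ} (hF : ContDiffAt ℝ 2 F t0) {ε : ℝ} (hε : 0 < ε) :
    ∃ r > 0, ∀ t, |t - t0| < r →
      |F t - F t0 - deriv F t0 * (t - t0) - 1 / 2 * deriv (deriv F) t0 * (t - t0) ^ 2| ≤
        ε * (t - t0) ^ 2 := by
  obtain ⟨r, hr, H⟩ := Metric.eventually_nhds_iff.1 (Pool.Agent.VSC.taylor2 hF hε)
  refine ⟨r, hr, fun t ht => ?_⟩
  have h1 := @H (t - t0) (by rwa [dist_zero_right, Real.norm_eq_abs])
  rw [add_sub_cancel, Real.norm_eq_abs, sq_abs] at h1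
  have h2 : fderiv ℝ F t0 (t - t0) = deriv F t0 * (t - t0) := by
    rw [fderiv_eq_smul_deriv, smul_eq_mul, mul_comm]
  have hd1 : ContDiffAt ℝ 1 (fderiv ℝ F) t0 := hF.fderiv_right (by norm_num)
  have h3 : fderiv ℝ (fderiv ℝ F) t0 (t - t0) (t - t0) =
      deriv (deriv F) t0 * (t - t0) ^ 2 := by
    have h4 : deriv (deriv F) t0 = fderiv ℝ (fderiv ℝ F) t0 1 1 := by
      have h5 : deriv F = fun t => fderiv ℝ F t 1 := by
        funext t
        exact fderiv_apply_one_eq_deriv.symm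
      rw [h5]
      have h6 : HasFDerivAt (fun t => fderiv ℝ F t 1)
          ((fderiv ℝ (fderiv ℝ F) t0).flip 1) t0 :=
        ((hd1.differentiableAt (by norm_num)).hasFDerivAt.clm_apply
          (hasFDerivAt_const (1 : ℝ) t0)).congr_fderiv (by ext; simp)
      have h7 := h6.hasDerivAt.deriv
      rw [h7]
      simp
    have h8 : ∀ c : ℝ, fderiv ℝ (fderiv ℝ F) t0 c c =
        c * (c * fderiv ℝ (fderiv ℝ F) t0 1 1) := by
      intro c
      have h9 : fderiv ℝ (fderiv ℝ F) t0 c = c • fderiv ℝ (fderiv ℝ F) t0 1 := by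
        rw [← map_smul]; simp
      have h10 : ∀ L : ℝ →L[ℝ] ℝ, L c = c * L 1 := fun L => by
        have := L.map_smul c 1
        simpa using this
      rw [h9, smul_apply, h10, smul_eq_mul]
    rw [h8, h4]
    ring
  rw [h2, h3] at h1
  have h10 : 1 / 2 * deriv (deriv F) t0 * (t - t0) ^ 2 =
      1 / 2 * (deriv (deriv F) t0 * (t - t0) ^ 2) := by ring
  rw [h10]
  exact h1

/-- Two sided chain rule, no monotonicity: `F` twice continuously differentiable at `u x`. -/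
theorem t2_comp {F : ℝ → ℝ} (hF : ContDiffAt ℝ 2 F (u x)) (h : T2 u x P X) :
    T2 (fun y => F (u y)) x ((deriv F (u x)) • P)
      ((deriv F (u x)) • X + (deriv (deriv F) (u x)) • rk P) := by
  rw [jtb_iff] at *
  intro ε hε
  set F1 := deriv F (u x) with hF1
  set F2 := deriv (deriv F) (u x) with hF2
  obtain ⟨ε1, hε1, ε2, hε2, r0, hr0, hr01, hc1, hc11, hc2, hc3⟩ :=
    jtb_const (L := ‖P‖) (A0 := ‖X‖ / 2) (F1 := F1) (F2 := F2) (norm_nonneg _)
      (by positivity) hε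
  obtain ⟨r1, hr1, H1⟩ := h ε1 hε1
  obtain ⟨r2, hr2, H2⟩ := jtb_taylor1 hF hε2
  set A : ℝ := ‖X‖ / 2 + 1 with hA
  have hA0 : 0 ≤ A := by positivity
  set r : ℝ := min (min r0 r1) (r2 / (‖P‖ + A + 1)) with hr
  have hrpos : 0 < r := lt_min (lt_min hr0 hr1) (div_pos hr2 (by positivity))
  refine ⟨r, hrpos, fun y hy => ?_⟩
  set v := y - x with hv
  set s := ‖v‖ with hs
  have hs0 : 0 ≤ s := norm_nonneg _
  have hsr0 : s < r0 := hy.trans_le ((min_le_left _ _).trans (min_le_left _ _))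
  have hsr1 : s < r1 := hy.trans_le ((min_le_left _ _).trans (min_le_right _ _))
  have hs1 : s ≤ 1 := hsr0.le.trans hr01
  have hsr2 : (‖P‖ + A + 1) * s < r2 := by
    have h5 : s < r2 / (‖P‖ + A + 1) := hy.trans_le (min_le_right _ _)
    rw [lt_div_iff₀ (by positivity)] at h5
    linarith
  have e1 := H1 y hsr1
  rw [← hv] at e1
  set d : ℝ := ⟪P, v⟫ with hd
  set δ : ℝ := u y - u x - d with hδ
  set η : ℝ := u y - u x - d - 1 / 2 * X v v with hη
  have hdb : |d| ≤ ‖P‖ * s := abs_real_inner_le_norm _ _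
  have hXb := jtb_form_bound X v
  have hδη : δ = 1 / 2 * X v v + η := by rw [hδ, hη]; ring
  have hδb : |δ| ≤ A * s ^ 2 := by
    rw [hδη]
    rw [abs_le] at hXb e1 ⊢
    have : 0 ≤ s ^ 2 := by positivity
    constructor <;> nlinarith
  have hsum : u y - u x = d + δ := by rw [hδ]; ring
  have hsmall : |d + δ| ≤ (‖P‖ + A) * s := by
    refine (abs_add_le _ _).trans ?_
    have : s ^ 2 ≤ s := by nlinarith
    nlinarith
  have hlt : |d + δ| < r2 := by
    refine lt_of_le_of_lt hsmall (lt_of_le_of_lt ?_ hsr2)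
    nlinarith
  have e3 := H2 (u y) (by rw [hsum]; exact hlt)
  rw [hsum] at e3
  have harith := jtb_arith (L := ‖P‖) (A := A) (s := s) (δ := δ) (d := d) (F1 := F1) (F2 := F2)
    (ε1 := ε1) (ε2 := ε2) (ε := ε) (η := η) (norm_nonneg _) hA0 hs0 hdb hδb hs1
    (hc3 s hs0 hsr0) hc1 hc2 hε2.le e1 (by ring)
  rw [real_inner_smul_left, add_apply, add_apply,
    smul_apply, smul_apply,
    smul_apply, smul_apply, rk_apply, smul_eq_mul,
    smul_eq_mul]
  show |F (u y) - F (u x) - F1 * d - 1 / 2 * (F1 * X v v + F2 * (d * d))| ≤ ε * s ^ 2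
  have e5 : F (u y) - F (u x) - F1 * d - 1 / 2 * (F1 * X v v + F2 * (d * d)) =
      (F (u y) - F (u x) - F1 * (d + δ) - 1 / 2 * F2 * (d + δ) ^ 2) +
      (F1 * η + 1 / 2 * F2 * ((d + δ) ^ 2 - d ^ 2)) := by
    rw [hδη]; ring
  rw [e5]
  refine (abs_add_le _ _).trans ?_
  linarith

theorem uj_pow {s : ℝ} (hs : 0 < s) (hu : ∀ y, 0 ≤ u y) (hx : 0 < u x) (h : UJ u x P X) :
    UJ (fun y => u y ^ s) x ((s * u x ^ (s - 1)) • P)
      ((s * u x ^ (s - 1)) • X + (s * (s - 1) * u x ^ (s - 2)) • rk P) := by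
  have hF : ContDiffAt ℝ 2 (fun t : ℝ => t ^ s) (u x) := Real.contDiffAt_rpow_const_of_ne hx.ne'
  have hd1 : ∀ t : ℝ, 0 < t → deriv (fun t : ℝ => t ^ s) t = s * t ^ (s - 1) := fun t ht =>
    (Real.hasDerivAt_rpow_const (Or.inl ht.ne')).deriv
  have hd2 : deriv (deriv (fun t : ℝ => t ^ s)) (u x) = s * (s - 1) * u x ^ (s - 2) := by
    have h1 : deriv (fun t : ℝ => t ^ s) =ᶠ[𝓝 (u x)] fun t => s * t ^ (s - 1) := by
      filter_upwards [lt_mem_nhds hx] with t ht using hd1 t ht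
    rw [h1.deriv_eq]
    have h2 : HasDerivAt (fun t : ℝ => s * t ^ (s - 1)) (s * ((s - 1) * u x ^ (s - 1 - 1))) (u x) :=
      (Real.hasDerivAt_rpow_const (Or.inl hx.ne')).const_mul s
    rw [h2.deriv]
    have h3 : s - 1 - 1 = s - 2 := by ring
    rw [h3]
    ring
  refine uj_comp (F := fun t : ℝ => t ^ s) (I := Ici 0) ?_ hu (Ici_mem_nhds hx) (by positivity)
    ?_ h
  · intro a ha b _ hab
    exact Real.rpow_le_rpow ha hab hs.le
  · intro ε hε
    obtain ⟨r, hr, H⟩ := jtb_taylor1 hF hε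
    refine ⟨r, hr, fun t _ ht => ?_⟩
    have h1 := (abs_le.1 (H t ht)).2
    rw [hd1 _ hx, hd2] at h1
    show t ^ s ≤ _
    linarith

theorem jtb_rk_smul (c : ℝ) (a : E n) : rk (c • a) = (c ^ 2) • rk a := by
  ext v w
  rw [rk_apply, smul_apply, smul_apply, rk_apply,
    real_inner_smul_left, real_inner_smul_left, smul_eq_mul]
  ring

/-- Radial functions. -/
theorem t2_rad {f : ℝ → ℝ} {x0 : E n} (hx : x ≠ x0) (hf : ContDiffAt ℝ 2 f ‖x - x0‖) :
    T2 (fun y => f ‖y - x0‖) x ((deriv f ‖x - x0‖ / ‖x - x0‖) • (x - x0))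
      ((deriv f ‖x - x0‖ / ‖x - x0‖) • ip +
        (deriv (deriv f) ‖x - x0‖ / ‖x - x0‖ ^ 2 - deriv f ‖x - x0‖ / ‖x - x0‖ ^ 3) •
          rk (x - x0)) := by
  set R := ‖x - x0‖ with hR
  have hRpos : 0 < R := norm_pos_iff.2 (sub_ne_zero.2 hx)
  set F : ℝ → ℝ := fun t => f (√t) with hF
  have hsq : √(R ^ 2) = R := Real.sqrt_sq hRpos.le
  have hR2 : 0 < R ^ 2 := by positivity
  have hFc : ContDiffAt ℝ 2 F (R ^ 2) := by
    have h1 : ContDiffAt ℝ 2 (fun t : ℝ => √t) (R ^ 2) := Real.contDiffAt_sqrt hR2.ne'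
    exact ContDiffAt.comp (R ^ 2) (by rw [hsq]; exact hf) h1
  have hfev : ∀ᶠ t in 𝓝 (R ^ 2), DifferentiableAt ℝ f (√t) := by
    have h1 : ∀ᶠ s in 𝓝 R, DifferentiableAt ℝ f s := by
      filter_upwards [hf.eventually (by simp)] with w hw using hw.differentiableAt (by norm_num)
    have h2 : Tendsto (fun t : ℝ => √t) (𝓝 (R ^ 2)) (𝓝 R) := by
      have := (Real.continuous_sqrt.continuousAt (x := R ^ 2)).tendsto
      rwa [hsq] at this
    exact h2.eventually h1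
  have hd1 : ∀ t : ℝ, 0 < t → DifferentiableAt ℝ f (√t) →
      HasDerivAt F (deriv f (√t) * (1 / (2 * √t))) t := by
    intro t ht hft
    exact hft.hasDerivAt.comp t (Real.hasDerivAt_sqrt ht.ne')
  have hdF : deriv F (R ^ 2) = deriv f R * (1 / (2 * R)) := by
    have h1 := (hd1 (R ^ 2) hR2 (by rw [hsq]; exact hf.differentiableAt (by norm_num))).deriv
    rw [hsq] at h1
    exact h1
  have hdF2 : deriv (deriv F) (R ^ 2) =
      deriv (deriv f) R / (4 * R ^ 2) - deriv f R / (4 * R ^ 3) := by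
    have h1 : deriv F =ᶠ[𝓝 (R ^ 2)] fun t => deriv f (√t) * (1 / (2 * √t)) := by
      filter_upwards [lt_mem_nhds hR2, hfev] with t ht hft using (hd1 t ht hft).deriv
    rw [h1.deriv_eq]
    have h2 : DifferentiableAt ℝ (deriv f) R := by
      have h3 : ContDiffAt ℝ 1 (deriv f) R := by
        have h4 : ContDiffAt ℝ 1 (fderiv ℝ f) R := hf.fderiv_right (by norm_num)
        have h5 : deriv f = fun t => fderiv ℝ f t 1 := by
          funext t
          exact fderiv_apply_one_eq_deriv.symm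
        rw [h5]
        exact h4.clm_apply contDiffAt_const
      exact h3.differentiableAt (by norm_num)
    have h6 : HasDerivAt (fun t : ℝ => deriv f (√t))
        (deriv (deriv f) R * (1 / (2 * R))) (R ^ 2) := by
      have h7 := Real.hasDerivAt_sqrt hR2.ne'
      rw [hsq] at h7
      exact HasDerivAt.comp (R ^ 2) (by rw [hsq]; exact h2.hasDerivAt) h7
    have h8 : HasDerivAt (fun t : ℝ => 1 / (2 * √t)) (-(1 / (4 * R ^ 3))) (R ^ 2) := by
      have h7 := Real.hasDerivAt_sqrt hR2.ne'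
      rw [hsq] at h7
      have h9 : HasDerivAt (fun t : ℝ => 2 * √t) (2 * (1 / (2 * R))) (R ^ 2) := h7.const_mul 2
      have h10 := h9.inv (by rw [hsq]; positivity)
      rw [hsq] at h10
      have h11 : (fun t : ℝ => 1 / (2 * √t)) = (fun t : ℝ => (2 * √t))⁻¹ := by
        funext t
        simp [one_div]
      rw [h11]
      refine h10.congr_deriv ?_
      field_simp
      ring
    have h12 := (h6.mul h8).deriv
    rw [hsq] at h12
    have h13 : (fun t : ℝ => deriv f (√t)) * (fun t : ℝ => 1 / (2 * √t)) =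
        fun t => deriv f (√t) * (1 / (2 * √t)) := rfl
    rw [h13] at h12
    rw [h12]
    field_simp
    ring
  have key := t2_comp (u := fun y => ‖y - x0‖ ^ 2) (x := x) (F := F) hFc (t2_normSq x0)
  have e1 : (fun y => F (‖y - x0‖ ^ 2)) = fun y => f ‖y - x0‖ := by
    funext y
    simp only [hF]
    rw [Real.sqrt_sq (norm_nonneg _)]
  rw [e1] at key
  simp only [← hR] at key
  rw [hdF, hdF2, jtb_rk_smul] at key
  have e2 : (deriv f R * (1 / (2 * R))) • ((2 : ℝ) • (x - x0)) = (deriv f R / R) • (x - x0) := by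
    rw [smul_smul]
    congr 1
    field_simp
  have e3 : (deriv f R * (1 / (2 * R))) • ((2 : ℝ) • (ip : Bil n)) +
      (deriv (deriv f) R / (4 * R ^ 2) - deriv f R / (4 * R ^ 3)) •
        ((2 : ℝ) ^ 2 • rk (x - x0)) = (deriv f R / R) • ip +
        (deriv (deriv f) R / R ^ 2 - deriv f R / R ^ 3) • rk (x - x0) := by
    rw [smul_smul, smul_smul]
    congr 2
    · field_simp
    · field_simp
      ring
  rw [e2, e3] at key
  exact key

end Pool.Agent.TWC
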