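import Pool.Agent.TWC.Defs

/-!
# TWC PAL: algebra of the operator `pA`

Write `P^ = P/|P|`; for `P ≠ 0`: `pA p P X = |P|^(p-2) (tr X + (p-2) X(P^,P^))`. For `P = 0` it is `0`
(`p > 2`, and `X 0 0 = 0`).

* `tr_nonneg`, `tr_mono`: coordinates. `le_tr`: if `Y ≥ 0` (as a quadratic form) then
  `Y v v ≤ |v|^2 tr Y`: with `S_ij = (Y_ij + Y_ji)/2`, positive semidefiniteness on the span of
  `e_i, e_j` gives `|S_ij| ≤ sqrt (Y_ii Y_jj)` and
  `Y v v = Σ v_i v_j S_ij ≤ (Σ |v_i| sqrt Y_ii)^2 ≤ |v|^2 Σ Y_ii` (Cauchy-Schwarz).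
* `pA_hom`: `|cP|^(p-2) = c^(p-2) |P|^(p-2)`, `|cP|^(p-4) (cX)(cP,cP) = c^(p-4+3) ...`.
* `pA_cont`: at points with `P ≠ 0` clear; at `P = 0`: `|pA p P X| ≤ (n + p - 2) |P|^(p-2) |X| → 0`.
* `pA_lip`: on `c0 ≤ |P| ≤ C0` the maps `P ↦ |P|^(p-2)` and `P ↦ |P|^(p-4) P ⊗ P` are Lipschitz
  (mean value on the interval `[c0, C0]` for the powers of the norm, which is 1-Lipschitz).
* `pA_lower`: let `X ≤ L` (`L ≥ 0`) and `pA p P X ≥ -C` with `|P| ≥ c0 > 0`. For a unit vector `v`: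
  `Y = L ip - X ≥ 0`, so `L - X v v = Y v v ≤ tr Y = n L - tr X`, and
  `tr X = pA/|P|^(p-2) - (p-2) X(P^,P^) ≥ -C/c0^(p-2) - (p-2) L`. So
  `X v v ≥ -(n + p - 2) L - C/c0^(p-2)` (crude constants are fine).
* `opNorm_le_of_quad`: polarisation.
* `pA_chain`: `pA p (a P) (a X + b rk P) = a^(p-2) (a pA p P X + (p-1) b |P|^p)`, `a > 0`; uses
  `tr (rk P) = |P|^2`.
-/

open Set Metric Filter Topology
open scoped RealInnerProductSpace

noncomputable section

namespace Pool.Agent.TWC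

variable {n : ℕ} {p : ℝ}

theorem tr_add (X Y : Bil n) : tr (X + Y) = tr X + tr Y := by
  simp [tr, Finset.sum_add_distrib]

theorem tr_smul (c : ℝ) (X : Bil n) : tr (c • X) = c * tr X := by
  simp [tr, Finset.mul_sum]

theorem tr_neg (X : Bil n) : tr (-X) = -tr X := by
  simp [tr]

private theorem PAL_ip (v w : E n) : (ip : Bil n) v w = ⟪v, w⟫ := rfl

theorem tr_ip : tr (ip : Bil n) = n := by
  simp [tr, PAL_ip]

theorem tr_rk (a : E n) : tr (rk a) = ‖a‖ ^ 2 := by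
  rw [EuclideanSpace.norm_sq_eq]
  simp only [tr, rk, ContinuousLinearMap.smulRight_apply, _root_.smul_apply,
    innerSL_apply_apply, smul_eq_mul, Real.norm_eq_abs, sq_abs]
  refine Finset.sum_congr rfl fun i _ => ?_
  rw [EuclideanSpace.inner_single_right]
  simp [sq]

theorem tr_mono {X Y : Bil n} (h : ∀ v, X v v ≤ Y v v) : tr X ≤ tr Y :=
  Finset.sum_le_sum fun i _ => h _

private theorem PAL_expand (Y : Bil n) (v : E n) :
    Y v v = ∑ i, ∑ j, v i * v j * Y (EuclideanSpace.single i 1) (EuclideanSpace.single j 1) := by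
  have hv : v = ∑ i, v i • (EuclideanSpace.single i (1 : ℝ) : E n) := by
    have := (EuclideanSpace.basisFun (Fin n) ℝ).sum_repr v
    simpa using this.symm
  conv_lhs => rw [hv]
  simp only [map_sum, map_smul, _root_.sum_apply, _root_.smul_apply,
    smul_eq_mul, Finset.mul_sum]
  rw [Finset.sum_comm]
  refine Finset.sum_congr rfl fun i _ => Finset.sum_congr rfl fun j _ => ?_
  ring

private theorem PAL_quad {a b c : ℝ} (ha : 0 ≤ a) (h : ∀ t : ℝ, 0 ≤ a * t ^ 2 + 2 * b * t + c) :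
    |b| ≤ Real.sqrt a * Real.sqrt c := by
  have hc : 0 ≤ c := by simpa using h 0
  have hb : b ^ 2 ≤ a * c := by
    by_cases ha0 : a = 0
    · subst ha0
      have hb0 : b = 0 := by
        by_contra hb
        have := h (-(c + 1) / (2 * b))
        have h2 : 2 * b * (-(c + 1) / (2 * b)) = -(c + 1) := by field_simp
        rw [h2] at this
        linarith
      simp [hb0]
    · have hap : 0 < a := lt_of_le_of_ne ha (Ne.symm ha0)
      have := h (-b / a)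
      have h2 : a * (-b / a) ^ 2 + 2 * b * (-b / a) + c = (a * c - b ^ 2) / a := by
        field_simp; ring
      rw [h2] at this
      have h3 := (div_nonneg_iff.1 this)
      rcases h3 with h3 | h3
      · linarith [h3.1]
      · linarith [h3.2]
  rw [← Real.sqrt_mul ha, ← Real.sqrt_sq_eq_abs]
  exact Real.sqrt_le_sqrt hb

theorem le_tr {Y : Bil n} (h : ∀ v, 0 ≤ Y v v) (v : E n) : Y v v ≤ ‖v‖ ^ 2 * tr Y := by
  set e : Fin n → E n := fun i => EuclideanSpace.single i 1 with he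
  have hd : ∀ i, 0 ≤ Y (e i) (e i) := fun i => h _
  have hij : ∀ i j, |(Y (e i) (e j) + Y (e j) (e i)) / 2| ≤
      Real.sqrt (Y (e i) (e i)) * Real.sqrt (Y (e j) (e j)) := by
    intro i j
    refine PAL_quad (hd i) fun t => ?_
    have := h (t • e i + e j)
    simp only [map_add, map_smul, _root_.add_apply, _root_.smul_apply,
      smul_eq_mul] at this
    nlinarith [this]
  have h1 : Y v v = ∑ i, ∑ j, v i * v j * ((Y (e i) (e j) + Y (e j) (e i)) / 2) := by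
    have h2 := PAL_expand Y v
    have h3 : Y v v = ∑ i, ∑ j, v i * v j * Y (e j) (e i) := by
      rw [h2, Finset.sum_comm]
      refine Finset.sum_congr rfl fun i _ => Finset.sum_congr rfl fun j _ => ?_
      simp only [he]; ring
    have h4 : Y v v = (Y v v + Y v v) / 2 := by ring
    rw [h4]
    nth_rewrite 1 [h2]
    rw [h3, ← Finset.sum_add_distrib, Finset.sum_div]
    refine Finset.sum_congr rfl fun i _ => ?_
    rw [← Finset.sum_add_distrib, Finset.sum_div]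
    refine Finset.sum_congr rfl fun j _ => ?_
    simp only [he]; ring
  have h2 : Y v v ≤ (∑ i, |v i| * Real.sqrt (Y (e i) (e i))) ^ 2 := by
    rw [h1, sq, Finset.sum_mul_sum]
    refine Finset.sum_le_sum fun i _ => Finset.sum_le_sum fun j _ => ?_
    calc v i * v j * ((Y (e i) (e j) + Y (e j) (e i)) / 2)
        ≤ |v i * v j * ((Y (e i) (e j) + Y (e j) (e i)) / 2)| := le_abs_self _
      _ = |v i| * |v j| * |(Y (e i) (e j) + Y (e j) (e i)) / 2| := by rw [abs_mul, abs_mul]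
      _ ≤ |v i| * |v j| * (Real.sqrt (Y (e i) (e i)) * Real.sqrt (Y (e j) (e j))) :=
          mul_le_mul_of_nonneg_left (hij i j) (by positivity)
      _ = _ := by ring
  refine h2.trans ?_
  have h3 := Finset.sum_mul_sq_le_sq_mul_sq Finset.univ (fun i => |v i|)
    (fun i => Real.sqrt (Y (e i) (e i)))
  refine h3.trans (le_of_eq ?_)
  rw [EuclideanSpace.norm_sq_eq]
  congr 1
  refine Finset.sum_congr rfl fun i _ => ?_
  rw [Real.sq_sqrt (hd i)]

theorem abs_tr_le (X : Bil n) : |tr X| ≤ n * ‖X‖ := by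
  unfold tr
  refine (Finset.abs_sum_le_sum_abs _ _).trans ?_
  have : ∀ i ∈ (Finset.univ : Finset (Fin n)),
      |X (EuclideanSpace.single i 1) (EuclideanSpace.single i 1)| ≤ ‖X‖ := by
    intro i _
    have := X.le_opNorm₂ (EuclideanSpace.single i 1) (EuclideanSpace.single i 1)
    simpa using this
  refine (Finset.sum_le_sum this).trans ?_
  simp

theorem pA_zero (hp : 2 < p) (X : Bil n) : pA p 0 X = 0 := by
  have : p - 2 ≠ 0 := by linarith
  simp [pA, Real.zero_rpow this]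

theorem pA_neg (P : E n) (X : Bil n) : pA p (-P) X = pA p P X := by
  simp [pA]

theorem pA_form_add (P : E n) (X Y : Bil n) : pA p P (X + Y) = pA p P X + pA p P Y := by
  simp only [pA, tr_add, _root_.add_apply]; ring

theorem pA_form_smul (P : E n) (c : ℝ) (X : Bil n) : pA p P (c • X) = c * pA p P X := by
  simp only [pA, tr_smul, _root_.smul_apply, smul_eq_mul]; ring

theorem pA_form_neg (P : E n) (X : Bil n) : pA p P (-X) = -pA p P X := by
  simp only [pA, tr_neg, _root_.neg_apply]; ring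

theorem pA_scale (hp : 2 < p) {c : ℝ} (hc : 0 < c) (P : E n) (X : Bil n) :
    pA p (c • P) X = c ^ (p - 2) * pA p P X := by
  unfold pA
  rw [norm_smul, Real.norm_eq_abs, abs_of_pos hc, Real.mul_rpow hc.le (norm_nonneg _),
    Real.mul_rpow hc.le (norm_nonneg _)]
  simp only [map_smul, _root_.smul_apply, smul_eq_mul]
  have : c ^ (p - 2) = c ^ (p - 4) * (c * c) := by
    rw [show p - 2 = (p - 4) + 2 by ring, Real.rpow_add hc]
    norm_num [sq]
  rw [this]; ring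

private theorem PAL_rk_apply (a v w : E n) : rk a v w = ⟪a, v⟫ * ⟪a, w⟫ := by
  simp [rk]

private theorem PAL_pow {P : E n} (hP : P ≠ 0) : ‖P‖ ^ (p - 2) = ‖P‖ ^ (p - 4) * ‖P‖ ^ 2 := by
  have : 0 < ‖P‖ := norm_pos_iff.2 hP
  rw [show p - 2 = (p - 4) + (2 : ℕ) by push_cast; ring, Real.rpow_add this, Real.rpow_natCast]

theorem pA_mono (hp : 2 < p) {P : E n} {X Y : Bil n} (h : ∀ v, X v v ≤ Y v v) :
    pA p P X ≤ pA p P Y := by
  unfold pA
  have h1 := tr_mono h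
  have h2 := h P
  have h3 : 0 ≤ ‖P‖ ^ (p - 2) := by positivity
  have h4 : 0 ≤ (p - 2) * ‖P‖ ^ (p - 4) := mul_nonneg (by linarith) (by positivity)
  exact add_le_add (mul_le_mul_of_nonneg_left h1 h3) (mul_le_mul_of_nonneg_left h2 h4)

theorem pA_ip (hp : 2 < p) (P : E n) : pA p P (ip : Bil n) = (n + p - 2) * ‖P‖ ^ (p - 2) := by
  by_cases hP : P = 0
  · subst hP
    have : p - 2 ≠ 0 := by linarith
    rw [pA_zero hp]; simp [Real.zero_rpow this]
  · unfold pA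
    rw [tr_ip]
    have : (ip : Bil n) P P = ‖P‖ ^ 2 := by rw [PAL_ip, real_inner_self_eq_norm_sq]
    rw [this, mul_assoc, ← PAL_pow hP]; ring

theorem pA_rk (hp : 2 < p) (P a : E n) :
    pA p P (rk a) = ‖P‖ ^ (p - 2) * ‖a‖ ^ 2 + (p - 2) * ‖P‖ ^ (p - 4) * ⟪a, P⟫ ^ 2 := by
  unfold pA
  rw [tr_rk, PAL_rk_apply]; ring

/-- Rank one forms: two sided bounds. -/
theorem pA_rk_ge (hp : 2 < p) (P a : E n) : ‖P‖ ^ (p - 2) * ‖a‖ ^ 2 ≤ pA p P (rk a) := by
  rw [pA_rk hp]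
  have : 0 ≤ (p - 2) * ‖P‖ ^ (p - 4) * ⟪a, P⟫ ^ 2 :=
    mul_nonneg (mul_nonneg (by linarith) (by positivity)) (by positivity)
  linarith

theorem pA_rk_le (hp : 2 < p) (P a : E n) : pA p P (rk a) ≤ (p - 1) * ‖P‖ ^ (p - 2) * ‖a‖ ^ 2 := by
  by_cases hP : P = 0
  · subst hP
    have : p - 2 ≠ 0 := by linarith
    rw [pA_zero hp]; simp [Real.zero_rpow this]
  · rw [pA_rk hp]
    have h1 : ⟪a, P⟫ ^ 2 ≤ ‖a‖ ^ 2 * ‖P‖ ^ 2 := by
      have := abs_real_inner_le_norm a P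
      rw [← mul_pow, ← sq_abs]
      exact pow_le_pow_left₀ (abs_nonneg _) this 2
    have h2 : 0 ≤ (p - 2) * ‖P‖ ^ (p - 4) := mul_nonneg (by linarith) (by positivity)
    have h3 := mul_le_mul_of_nonneg_left h1 h2
    have h4 : (p - 2) * ‖P‖ ^ (p - 4) * (‖a‖ ^ 2 * ‖P‖ ^ 2) = (p - 2) * ‖P‖ ^ (p - 2) * ‖a‖ ^ 2 := by
      rw [PAL_pow hP]; ring
    rw [h4] at h3
    nlinarith [h3]

theorem pA_rk_self (hp : 2 < p) (P : E n) : pA p P (rk P) = (p - 1) * ‖P‖ ^ p := by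
  by_cases hP : P = 0
  · subst hP
    have : p ≠ 0 := by linarith
    rw [pA_zero hp]; simp [Real.zero_rpow this]
  · rw [pA_rk hp, real_inner_self_eq_norm_sq]
    have h0 : 0 < ‖P‖ := norm_pos_iff.2 hP
    have h1 : ‖P‖ ^ p = ‖P‖ ^ (p - 4) * ‖P‖ ^ 4 := by
      rw [show (p : ℝ) = (p - 4) + (4 : ℕ) by push_cast; ring, Real.rpow_add h0, Real.rpow_natCast]
      ring_nf
    rw [h1, PAL_pow hP]; ring

/-- Upper bound from an upper bound of the quadratic form. -/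
theorem pA_le_of_quad (hp : 2 < p) {P : E n} {X : Bil n} {L : ℝ} (h : ∀ v, X v v ≤ L * ‖v‖ ^ 2) :
    pA p P X ≤ (n + p - 2) * ‖P‖ ^ (p - 2) * L := by
  have h1 : ∀ v, X v v ≤ (L • (ip : Bil n)) v v := by
    intro v
    have : (L • (ip : Bil n)) v v = L * ‖v‖ ^ 2 := by
      rw [← real_inner_self_eq_norm_sq, ← PAL_ip]; rfl
    rw [this]; exact h v
  refine (pA_mono hp h1).trans (le_of_eq ?_)
  rw [pA_form_smul, pA_ip hp]; ring

theorem abs_pA_le (hp : 2 < p) (P : E n) (X : Bil n) :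
    |pA p P X| ≤ (n + p - 2) * ‖P‖ ^ (p - 2) * ‖X‖ := by
  have h1 : ∀ (Z : Bil n) (v : E n), Z v v ≤ ‖Z‖ * ‖v‖ ^ 2 := by
    intro Z v
    have := Z.le_opNorm₂ v v
    have h2 := le_abs_self (Z v v)
    rw [Real.norm_eq_abs] at this
    nlinarith
  rw [abs_le]
  constructor
  · have h2 : ∀ v, (-X) v v ≤ ‖X‖ * ‖v‖ ^ 2 := by
      intro v
      have h3 := h1 (-X) v
      have h4 : ‖-X‖ = ‖X‖ := norm_neg X
      rwa [h4] at h3
    have := pA_le_of_quad hp (P := P) h2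
    rw [pA_form_neg] at this
    linarith
  · exact pA_le_of_quad hp (P := P) (h1 X)

theorem pA_cont (hp : 2 < p) : Continuous fun z : E n × Bil n => pA p z.1 z.2 := by
  unfold pA
  have htr : Continuous fun X : Bil n => tr X := by
    unfold tr; fun_prop
  refine Continuous.add ?_ ?_
  · refine Continuous.mul ?_ (htr.comp continuous_snd)
    exact (continuous_fst.norm).rpow_const fun _ => Or.inr (by linarith)
  · have h0 : ∀ z : E n × Bil n, (p - 2) * ‖z.1‖ ^ (p - 4) * z.2 z.1 z.1 =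
        (p - 2) * (‖z.1‖ ^ (p - 4) * z.2 z.1 z.1) := fun z => by ring
    simp_rw [h0]
    refine continuous_const.mul ?_
    rw [continuous_iff_continuousAt]
    rintro ⟨P, X⟩
    by_cases hP : P = 0
    · subst hP
      have hb : ∀ z : E n × Bil n, ‖‖z.1‖ ^ (p - 4) * z.2 z.1 z.1‖ ≤ ‖z.2‖ * ‖z.1‖ ^ (p - 2) := by
        rintro ⟨Q, Y⟩
        by_cases hQ : Q = 0
        · subst hQ
          simp only [map_zero, mul_zero, norm_zero]
          positivity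
        · have h1 := Y.le_opNorm₂ Q Q
          simp only [norm_mul, Real.norm_eq_abs] at h1 ⊢
          rw [PAL_pow hQ, abs_of_nonneg (by positivity : (0 : ℝ) ≤ ‖Q‖ ^ (p - 4))]
          calc ‖Q‖ ^ (p - 4) * |Y Q Q| ≤ ‖Q‖ ^ (p - 4) * (‖Y‖ * ‖Q‖ * ‖Q‖) :=
                mul_le_mul_of_nonneg_left h1 (by positivity)
            _ = _ := by ring
      have hlim : Tendsto (fun z : E n × Bil n => ‖z.2‖ * ‖z.1‖ ^ (p - 2)) (𝓝 (0, X)) (𝓝 0) := by
        have hc1 : Continuous fun z : E n × Bil n => ‖z.1‖ ^ (p - 2) :=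
          (continuous_fst.norm).rpow_const fun _ => Or.inr (by linarith)
        have hc2 : Continuous fun z : E n × Bil n => ‖z.2‖ :=
          (continuous_norm (E := Bil n)).comp continuous_snd
        have hc : Continuous fun z : E n × Bil n => ‖z.2‖ * ‖z.1‖ ^ (p - 2) := hc2.mul hc1
        have := hc.tendsto (0, X)
        have h2 : p - 2 ≠ 0 := by linarith
        simpa [Real.zero_rpow h2] using this
      have := squeeze_zero_norm hb hlim
      simpa [ContinuousAt] using this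
    · have h1 : ContinuousAt (fun z : E n × Bil n => ‖z.1‖ ^ (p - 4)) (P, X) :=
        (continuous_fst.norm.continuousAt).rpow_const (Or.inl (norm_ne_zero_iff.2 hP))
      have h2 : ContinuousAt (fun z : E n × Bil n => z.2 z.1 z.1) (P, X) := by fun_prop
      exact h1.mul h2

private theorem PAL_rpow_lip (r c0 C0 : ℝ) (hc : 0 < c0) :
    ∃ M, 0 ≤ M ∧ ∀ s ∈ Icc c0 C0, ∀ t ∈ Icc c0 C0, |s ^ r - t ^ r| ≤ M * |s - t| ∧ s ^ r ≤ M := by
  have h1 : ContinuousOn (fun t : ℝ => r * t ^ (r - 1)) (Icc c0 C0) :=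
    continuousOn_const.mul (continuousOn_id.rpow_const fun t ht =>
      Or.inl (by have := ht.1; simp only [id]; linarith [hc]))
  have h2 : ContinuousOn (fun t : ℝ => t ^ r) (Icc c0 C0) :=
    continuousOn_id.rpow_const fun t ht => Or.inl (by have := ht.1; simp only [id]; linarith [hc])
  obtain ⟨M1, hM1⟩ := isCompact_Icc.exists_bound_of_continuousOn h1
  obtain ⟨M2, hM2⟩ := isCompact_Icc.exists_bound_of_continuousOn h2
  refine ⟨max 0 (max M1 M2), le_max_left _ _, fun s hs t ht => ⟨?_, ?_⟩⟩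
  · have := (convex_Icc c0 C0).norm_image_sub_le_of_norm_hasDerivWithin_le
      (f := fun t : ℝ => t ^ r) (f' := fun t => r * t ^ (r - 1)) (C := max 0 (max M1 M2))
      (fun x hx => (Real.hasDerivAt_rpow_const
        (Or.inl (by have := hx.1; linarith [hc]))).hasDerivWithinAt)
      (fun x hx => (hM1 x hx).trans ((le_max_left _ _).trans (le_max_right _ _))) ht hs
    simpa [Real.norm_eq_abs] using this
  · have := hM2 s hs
    rw [Real.norm_eq_abs] at this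
    exact (le_abs_self _).trans (this.trans ((le_max_right _ _).trans (le_max_right _ _)))

theorem pA_lip (hp : 2 < p) {c0 C0 : ℝ} (hc : 0 < c0) :
    ∃ C > 0, ∀ P Q : E n, ∀ X : Bil n, c0 ≤ ‖P‖ → ‖P‖ ≤ C0 → c0 ≤ ‖Q‖ → ‖Q‖ ≤ C0 →
      |pA p P X - pA p Q X| ≤ C * ‖P - Q‖ * ‖X‖ := by
  obtain ⟨M1, hM1, H1⟩ := PAL_rpow_lip (p - 2) c0 C0 hc
  obtain ⟨M2, hM2, H2⟩ := PAL_rpow_lip (p - 4) c0 C0 hc
  refine ⟨M1 * n + (p - 2) * (M2 * C0 ^ 2 + M2 * (2 * |C0|)) + 1, ?_, ?_⟩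
  · have : 0 ≤ (p - 2) * (M2 * C0 ^ 2 + M2 * (2 * |C0|)) :=
      mul_nonneg (by linarith) (by positivity)
    positivity
  · intro P Q X hP hP' hQ hQ'
    have hC0 : 0 ≤ C0 := (norm_nonneg _).trans hP'
    rw [abs_of_nonneg hC0]
    have hPQ : |‖P‖ - ‖Q‖| ≤ ‖P - Q‖ := abs_norm_sub_norm_le P Q
    have e1 := (H1 ‖P‖ ⟨hP, hP'⟩ ‖Q‖ ⟨hQ, hQ'⟩).1
    have e2 := (H2 ‖P‖ ⟨hP, hP'⟩ ‖Q‖ ⟨hQ, hQ'⟩).1
    have e3 := (H2 ‖Q‖ ⟨hQ, hQ'⟩ ‖P‖ ⟨hP, hP'⟩).2
    have e4 : 0 ≤ ‖Q‖ ^ (p - 4) := by positivity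
    have k1 : |(‖P‖ ^ (p - 2) - ‖Q‖ ^ (p - 2)) * tr X| ≤ M1 * n * ‖P - Q‖ * ‖X‖ := by
      rw [abs_mul]
      calc _ ≤ (M1 * ‖P - Q‖) * (n * ‖X‖) :=
            mul_le_mul (e1.trans (mul_le_mul_of_nonneg_left hPQ hM1)) (abs_tr_le X)
              (abs_nonneg _) (by positivity)
        _ = _ := by ring
    have k2 : |(‖P‖ ^ (p - 4) - ‖Q‖ ^ (p - 4)) * X P P| ≤ M2 * C0 ^ 2 * ‖P - Q‖ * ‖X‖ := by
      rw [abs_mul]
      have h1 : |X P P| ≤ ‖X‖ * C0 ^ 2 := by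
        have := X.le_opNorm₂ P P
        rw [Real.norm_eq_abs] at this
        refine this.trans ?_
        have : ‖P‖ * ‖P‖ ≤ C0 ^ 2 := by nlinarith [norm_nonneg P]
        calc ‖X‖ * ‖P‖ * ‖P‖ = ‖X‖ * (‖P‖ * ‖P‖) := by ring
          _ ≤ _ := mul_le_mul_of_nonneg_left this (norm_nonneg X)
      calc _ ≤ (M2 * ‖P - Q‖) * (‖X‖ * C0 ^ 2) :=
            mul_le_mul (e2.trans (mul_le_mul_of_nonneg_left hPQ hM2)) h1
              (abs_nonneg _) (by positivity)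
        _ = _ := by ring
    have k3 : |‖Q‖ ^ (p - 4) * (X P P - X Q Q)| ≤ M2 * (2 * C0) * ‖P - Q‖ * ‖X‖ := by
      rw [abs_mul, abs_of_nonneg e4]
      have h1 : X P P - X Q Q = X (P - Q) P + X Q (P - Q) := by
        simp only [map_sub, _root_.sub_apply]; ring
      have h2 : |X (P - Q) P| ≤ ‖X‖ * ‖P - Q‖ * C0 := by
        have := X.le_opNorm₂ (P - Q) P
        rw [Real.norm_eq_abs] at this
        exact this.trans (mul_le_mul_of_nonneg_left hP' (by positivity))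
      have h3 : |X Q (P - Q)| ≤ ‖X‖ * C0 * ‖P - Q‖ := by
        have := X.le_opNorm₂ Q (P - Q)
        rw [Real.norm_eq_abs] at this
        exact this.trans (mul_le_mul_of_nonneg_right
          (mul_le_mul_of_nonneg_left hQ' (norm_nonneg X)) (norm_nonneg _))
      have h4 : |X P P - X Q Q| ≤ 2 * C0 * ‖P - Q‖ * ‖X‖ := by
        rw [h1]
        refine (abs_add_le _ _).trans ?_
        linarith
      calc _ ≤ M2 * (2 * C0 * ‖P - Q‖ * ‖X‖) := mul_le_mul e3 h4 (abs_nonneg _) hM2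
        _ = _ := by ring
    have hd : pA p P X - pA p Q X = (‖P‖ ^ (p - 2) - ‖Q‖ ^ (p - 2)) * tr X +
        (p - 2) * ((‖P‖ ^ (p - 4) - ‖Q‖ ^ (p - 4)) * X P P + ‖Q‖ ^ (p - 4) * (X P P - X Q Q)) := by
      unfold pA; ring
    rw [hd]
    refine (abs_add_le _ _).trans ?_
    rw [abs_mul (p - 2), abs_of_nonneg (by linarith : (0 : ℝ) ≤ p - 2)]
    have k4 := (abs_add_le ((‖P‖ ^ (p - 4) - ‖Q‖ ^ (p - 4)) * X P P)
      (‖Q‖ ^ (p - 4) * (X P P - X Q Q))).trans (add_le_add k2 k3)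
    have k5 := mul_le_mul_of_nonneg_left k4 (by linarith : (0 : ℝ) ≤ p - 2)
    have k6 : 0 ≤ ‖P - Q‖ * ‖X‖ := by positivity
    calc _ ≤ M1 * n * ‖P - Q‖ * ‖X‖ +
          (p - 2) * (M2 * C0 ^ 2 * ‖P - Q‖ * ‖X‖ + M2 * (2 * C0) * ‖P - Q‖ * ‖X‖) :=
          add_le_add k1 k5
      _ = (M1 * n + (p - 2) * (M2 * C0 ^ 2 + M2 * (2 * C0))) * (‖P - Q‖ * ‖X‖) := by ring
      _ ≤ (M1 * n + (p - 2) * (M2 * C0 ^ 2 + M2 * (2 * C0)) + 1) * (‖P - Q‖ * ‖X‖) :=
          mul_le_mul_of_nonneg_right (by linarith) k6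
      _ = _ := by ring

theorem pA_lower (hp : 2 < p) {c0 C L : ℝ} (hc : 0 < c0) (hC : 0 ≤ C) (hL : 0 ≤ L) {P : E n}
    (hP : c0 ≤ ‖P‖) {X : Bil n} (hX : ∀ v, X v v ≤ L * ‖v‖ ^ 2) (h : -C ≤ pA p P X) (v : E n) :
    -((n + p) * L + C / c0 ^ (p - 2)) * ‖v‖ ^ 2 ≤ X v v := by
  have hPpos : 0 < ‖P‖ := hc.trans_le hP
  have hP0 : P ≠ 0 := norm_pos_iff.1 hPpos
  have hY : ∀ w, 0 ≤ (L • (ip : Bil n) + -X) w w := by
    intro w
    have : (L • (ip : Bil n) + -X) w w = L * ‖w‖ ^ 2 - X w w := by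
      rw [← real_inner_self_eq_norm_sq, ← PAL_ip]
      simp [sub_eq_add_neg]
    rw [this]; linarith [hX w]
  have h1 := le_tr hY v
  rw [tr_add, tr_smul, tr_neg, tr_ip] at h1
  have h1' : (L • (ip : Bil n) + -X) v v = L * ‖v‖ ^ 2 - X v v := by
    rw [← real_inner_self_eq_norm_sq, ← PAL_ip]
    simp [sub_eq_add_neg]
  rw [h1'] at h1
  have hpow : 0 < ‖P‖ ^ (p - 2) := by positivity
  have hcpow : 0 < c0 ^ (p - 2) := by positivity
  have hle : c0 ^ (p - 2) ≤ ‖P‖ ^ (p - 2) :=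
    Real.rpow_le_rpow hc.le hP (by linarith)
  have h2 : pA p P X ≤ ‖P‖ ^ (p - 2) * (tr X + (p - 2) * L) := by
    unfold pA
    have := hX P
    have h3 : 0 ≤ (p - 2) * ‖P‖ ^ (p - 4) := mul_nonneg (by linarith) (by positivity)
    have h4 := mul_le_mul_of_nonneg_left this h3
    have h5 : (p - 2) * ‖P‖ ^ (p - 4) * (L * ‖P‖ ^ 2) = ‖P‖ ^ (p - 2) * ((p - 2) * L) := by
      rw [PAL_pow hP0]; ring
    rw [h5] at h4
    linarith
  have h3 : -(C / c0 ^ (p - 2)) ≤ tr X + (p - 2) * L := by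
    by_contra hcon
    push Not at hcon
    have hneg : tr X + (p - 2) * L < 0 := lt_of_lt_of_le hcon (neg_nonpos.2 (by positivity))
    have h6 : ‖P‖ ^ (p - 2) * (tr X + (p - 2) * L) ≤ c0 ^ (p - 2) * (tr X + (p - 2) * L) :=
      mul_le_mul_of_nonpos_right hle hneg.le
    have h7 : c0 ^ (p - 2) * (tr X + (p - 2) * L) < c0 ^ (p - 2) * -(C / c0 ^ (p - 2)) :=
      mul_lt_mul_of_pos_left hcon hcpow
    have h8 : c0 ^ (p - 2) * -(C / c0 ^ (p - 2)) = -C := by field_simp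
    linarith
  have hv : 0 ≤ ‖v‖ ^ 2 := by positivity
  have h9 : ‖v‖ ^ 2 * (L * n + -tr X) ≤ ‖v‖ ^ 2 * (L * n + (C / c0 ^ (p - 2) + (p - 2) * L)) :=
    mul_le_mul_of_nonneg_left (by linarith) hv
  have h10 : 0 ≤ L * ‖v‖ ^ 2 := by positivity
  nlinarith [h9, h1, h10]

theorem opNorm_le_of_quad {X : Bil n} (hs : ∀ v w, X v w = X w v) {C : ℝ} (hC : 0 ≤ C)
    (h : ∀ v, |X v v| ≤ C * ‖v‖ ^ 2) : ‖X‖ ≤ C := by
  have key : ∀ v w : E n, |X v w| ≤ C * (‖v‖ ^ 2 + ‖w‖ ^ 2) / 2 := by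
    intro v w
    have h1 := h (v + w)
    have h2 := h (v - w)
    have h3 : X (v + w) (v + w) - X (v - w) (v - w) = 4 * X v w := by
      simp only [map_add, map_sub, _root_.add_apply, _root_.sub_apply]
      rw [hs w v]; ring
    have h4 := parallelogram_law_with_norm ℝ v w
    have h5 : |4 * X v w| ≤ C * ‖v + w‖ ^ 2 + C * ‖v - w‖ ^ 2 := by
      rw [← h3]
      exact (abs_sub _ _).trans (add_le_add h1 h2)
    rw [abs_mul, abs_of_pos (by norm_num : (0 : ℝ) < 4)] at h5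
    have h6 : C * ‖v + w‖ ^ 2 + C * ‖v - w‖ ^ 2 = 2 * C * (‖v‖ ^ 2 + ‖w‖ ^ 2) := by
      have : ‖v + w‖ ^ 2 + ‖v - w‖ ^ 2 = 2 * (‖v‖ ^ 2 + ‖w‖ ^ 2) := by
        simp only [sq]; linarith
      calc _ = C * (‖v + w‖ ^ 2 + ‖v - w‖ ^ 2) := by ring
        _ = _ := by rw [this]; ring
    linarith
  refine ContinuousLinearMap.opNorm_le_bound₂ X hC fun v w => ?_
  by_cases hv : v = 0
  · subst hv; simp
  by_cases hw : w = 0
  · subst hw; simp
  have hv' : 0 < ‖v‖ := norm_pos_iff.2 hv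
  have hw' : 0 < ‖w‖ := norm_pos_iff.2 hw
  have h1 := key (‖w‖ • v) (‖v‖ • w)
  simp only [map_smul, _root_.smul_apply, smul_eq_mul, norm_smul, norm_norm,
    abs_mul, abs_norm] at h1
  rw [Real.norm_eq_abs]
  have h2 : ‖v‖ * ‖w‖ * |X v w| ≤ ‖v‖ * ‖w‖ * (C * ‖v‖ * ‖w‖) := by
    nlinarith [h1]
  exact le_of_mul_le_mul_left h2 (by positivity)

theorem pA_chain (hp : 2 < p) {a : ℝ} (ha : 0 < a) (b : ℝ) (P : E n) (X : Bil n) :
    pA p (a • P) (a • X + b • rk P) = a ^ (p - 2) * (a * pA p P X + (p - 1) * b * ‖P‖ ^ p) := by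
  rw [pA_scale hp ha, pA_form_add, pA_form_smul, pA_form_smul, pA_rk_self hp]; ring

/-- The difference of two forms, `X + Y ≤ δ`. -/
theorem pA_sum_le (hp : 2 < p) {P : E n} {X Y : Bil n} {δ : ℝ}
    (h : ∀ v, X v v + Y v v ≤ δ * ‖v‖ ^ 2) :
    pA p P X + pA p P Y ≤ (n + p - 2) * ‖P‖ ^ (p - 2) * δ := by
  rw [← pA_form_add]
  exact pA_le_of_quad hp fun v => by simpa using h v

end Pool.Agent.TWC
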