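import Pool.Agent.TWC.CST
import Pool.Agent.TWC.PAL
import Pool.Agent.TWC.JTB

/-!
# TWC BUMP: expansion of positivity and persistence (Barenblatt type bumps)

`β = be p = (p-1)/(p-2) > 1`, `(β-1)(p-2) = 1`, `(β-1)(p-1) = β`. Moving frame `y(τ) = y0 - cτ e`,
`z = x - y(τ)`, `s = R^2 - |z|^2`; for `s > 0` and `h = a s^β` (`a, R` functions of `τ`):
`P = -2 a β s^(β-1) z`, `X = a (4β(β-1) s^(β-2) rk z - 2β s^(β-1) ip)`,
`pA p P X = (2aβ)^(p-1) |z|^(p-2) s^(β-1) (2β|z|^2 - (n+p-2) s)`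
(from `|P|^(p-2) = (2aβ)^(p-2) s |z|^(p-2)`, `pA_rk` with `P ∥ z`, `pA_ip`, and `(β-1)(p-1) = β`).
Also `∂_τ h = <c e, P> + a' s^β + 2 a β R R' s^(β-1)`.
So `∂_τ h ≤ pA + <c e,P> + κ h` follows from
`(*) a' s + 2 a β R R' ≤ (2aβ)^(p-1) |z|^(p-2) (2β|z|^2 - (n+p-2)s)`.

`bump`: `R' = γ a^(p-2) R^(p-1)`, `a' = -k a R'/R`. Then (*) is, with `θ = |z|^2/R^2`, divided by
`a^(p-1) R^p`: `γ (2β - k (1-θ)) ≤ (2β)^(p-1) θ^((p-2)/2) (2βθ - (n+p-2)(1-θ))`.
Choose `θ0 ∈ (1/2,1)` with `2βθ - (n+p-2)(1-θ) ≥ β` for `θ ≥ θ0` (`θ0 = 1 - β/(2β+n+p)`: then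
`2βθ0 - (n+p)(1-θ0) = 2β - (2β+n+p)(1-θ0) = β`); `γ` with `2βγ ≤ (2β)^(p-1) θ0^((p-2)/2) β`; and `k`
with `γ (k (1-θ0) - 2β) ≥ (2β)^(p-1) (n+p-2)` (for `θ < θ0` use `RHS ≥ -(2β)^(p-1)(n+p-2)`).
Explicit solution with `R(0) = ρ`, `a(0) = μ ρ^(-2β)`: `a = a0 (R/ρ)^(-k)`,
`R = (ρ^Λ + Λ A τ)^(1/Λ)`, `Λ = (k-1)(p-2)` (take `k > 1`), `A = γ a0^(p-2) ρ^(k(p-2))`. `R` reaches `4ρ`
at `T = (4^Λ - 1) ρ^Λ/(Λ A) = C ρ^p/μ^(p-2)` (`2β(p-2) - (p-2) = p`).
Comparison `cs'` with `B x τ = a(τ) (max (R(τ)^2 - |x-y(τ)|^2) 0)^β` on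
`K = {(x,τ) : 0 ≤ τ ≤ T, |x - y(τ)| ≤ 5 ρ}`: a violation `v x < B x τ` has `B > 0`, so
`|x - y(τ)| < R(τ) ≤ 4ρ`, `x ∈ O`, interior of the slice; `τ = 0` is impossible because at `τ = 0`
`B ≤ a0 ρ^(2β) = μ ≤ v` on `closedBall y0 ρ` and `B = 0` outside. At `τ = T` and `|z| ≤ 3ρ`:
`B ≥ a0 4^(-k) (16ρ^2 - 9ρ^2)^β = μ 4^(-k) 7^β =: c1 μ` (take `c1 = min 1 (4^(-k) 7^β)` if needed).

`persist`: `R = ρ` fixed, `a' = -C a^(p-1)` with `C = (2β)^(p-1) ρ^(p-2) (n+p-2)`, i.e.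
`a(τ) = (a0^(-(p-2)) + (p-2) C τ)^(-1/(p-2))`; (*) holds since the right side of (*) is
`≥ -(2aβ)^(p-1) ρ^(p-2)(n+p-2) s`. Here `v` is continuous and positive on `closedBall y0 ρ`, so `v ≥ μ > 0`
there; `a0 = μ ρ^(-2β)`. Conclusion: `v > 0` on `ball (y0 - cT e) ρ` for every `T ≥ 0` such that the
moving balls stay in `O`. (In `cs'` use `K = {(x,τ) : 0 ≤ τ ≤ T, |x-y(τ)| ≤ 2ρ}`.)
-/

open Set Metric Filter Topology
open scoped RealInnerProductSpace

noncomputable section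

namespace Pool.Agent.TWC

variable {p : ℝ}

private theorem BUMP51_dtl {f : ℝ → ℝ} {τ a : ℝ} (h : HasDerivAt f a τ) : DtL f τ a := by
  intro ε hε
  have h1 := h.isLittleO.def hε
  obtain ⟨r, hr, h2⟩ := Metric.eventually_nhds_iff.1 h1
  refine ⟨r, hr, fun s hs hsr => ?_⟩
  have h4 : |τ - s - τ| = s := by rw [show τ - s - τ = -s by ring, abs_neg, abs_of_pos hs]
  have h3 := h2 (y := τ - s) (by rw [Real.dist_eq, h4]; exact hsr)
  rw [Real.norm_eq_abs, Real.norm_eq_abs, smul_eq_mul, h4] at h3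
  have h5 := (abs_le.1 h3).1
  linarith

private theorem BUMP51_be (hp : 2 < p) : 1 < be p ∧ (be p - 1) * (p - 2) = 1 ∧
    (be p - 1) * (p - 1) = be p := by
  have h : 0 < p - 2 := by linarith
  have h' : p - 2 ≠ 0 := h.ne'
  have h1 : be p - 1 = 1 / (p - 2) := by
    unfold be
    field_simp
    ring
  refine ⟨?_, ?_, ?_⟩
  · have : 0 < 1 / (p - 2) := by positivity
    linarith
  · rw [h1]
    field_simp
  · rw [h1]
    unfold be
    field_simp

private theorem BUMP51_d1 {a s b : ℝ} (hs : 0 < s) :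
    HasDerivAt (fun t => a * (max t 0) ^ b) (a * (b * s ^ (b - 1))) s := by
  have h1 : HasDerivAt (fun t : ℝ => a * t ^ b) (a * (b * s ^ (b - 1))) s :=
    (Real.hasDerivAt_rpow_const (Or.inl hs.ne')).const_mul a
  apply h1.congr_of_eventuallyEq
  filter_upwards [lt_mem_nhds hs] with t ht
  rw [max_eq_left ht.le]

private theorem BUMP51_t2 {n : ℕ} (a R : ℝ) (y0 x : E n)
    (hs : 0 < R ^ 2 - ‖x - y0‖ ^ 2) :
    T2 (fun y => a * (max (R ^ 2 - ‖y - y0‖ ^ 2) 0) ^ be p) x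
      ((a * (be p * (R ^ 2 - ‖x - y0‖ ^ 2) ^ (be p - 1))) • ((-2 : ℝ) • (x - y0)))
      ((a * (be p * (R ^ 2 - ‖x - y0‖ ^ 2) ^ (be p - 1))) • ((-2 : ℝ) • ip) +
        (a * (be p * ((be p - 1) * (R ^ 2 - ‖x - y0‖ ^ 2) ^ (be p - 2)))) •
          rk ((-2 : ℝ) • (x - y0))) := by
  set s := R ^ 2 - ‖x - y0‖ ^ 2 with hsdef
  set F : ℝ → ℝ := fun t => a * (max t 0) ^ be p with hFdef
  have hF : ContDiffAt ℝ 2 F s := by
    have h1 : ContDiffAt ℝ 2 (fun t : ℝ => a * t ^ be p) s :=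
      contDiffAt_const.mul (Real.contDiffAt_rpow_const (Or.inl hs.ne'))
    apply h1.congr_of_eventuallyEq
    filter_upwards [lt_mem_nhds hs] with t ht
    simp only [hFdef]
    rw [max_eq_left ht.le]
  have hd1 : ∀ t, 0 < t → deriv F t = a * (be p * t ^ (be p - 1)) := fun t ht =>
    (BUMP51_d1 ht).deriv
  have hd2 : deriv (deriv F) s = a * (be p * ((be p - 1) * s ^ (be p - 2))) := by
    have h1 : deriv F =ᶠ[𝓝 s] fun t => a * (be p * t ^ (be p - 1)) := by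
      filter_upwards [lt_mem_nhds hs] with t ht
      exact hd1 t ht
    rw [h1.deriv_eq]
    have h2 : HasDerivAt (fun t : ℝ => a * (be p * t ^ (be p - 1)))
        (a * (be p * ((be p - 1) * s ^ (be p - 1 - 1)))) s :=
      ((Real.hasDerivAt_rpow_const (Or.inl hs.ne')).const_mul (be p)).const_mul a
    rw [h2.deriv]
    congr 4
    ring
  have h1 : T2 (fun y => R ^ 2 - ‖y - y0‖ ^ 2) x ((-2 : ℝ) • (x - y0)) ((-2 : ℝ) • ip) := by
    have h2 := t2_add (t2_const (x := x) (R ^ 2)) (t2_smul (-1) (t2_normSq (x := x) y0))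
    have e1 : (fun y : E n => R ^ 2 + (-1) * ‖y - y0‖ ^ 2) = fun y => R ^ 2 - ‖y - y0‖ ^ 2 := by
      funext y
      ring
    rw [e1] at h2
    convert h2 using 1
    · rw [zero_add, smul_smul]
      norm_num
    · refine ContinuousLinearMap.ext fun v => ContinuousLinearMap.ext fun w => ?_
      change (-2 : ℝ) * (ip : Bil n) v w = 0 + (-1) * (2 * (ip : Bil n) v w)
      ring
  have h3 := t2_comp (F := F) (u := fun y => R ^ 2 - ‖y - y0‖ ^ 2) hF h1
  rw [show deriv F (R ^ 2 - ‖x - y0‖ ^ 2) = a * (be p * s ^ (be p - 1)) from hd1 s hs,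
    show deriv (deriv F) (R ^ 2 - ‖x - y0‖ ^ 2) = a * (be p * ((be p - 1) * s ^ (be p - 2))) from
      hd2] at h3
  exact h3

private theorem BUMP51_pA (hp : 2 < p) {n : ℕ} {a s : ℝ} (ha : 0 < a) (hs : 0 < s) (z : E n) :
    pA p ((a * (be p * s ^ (be p - 1))) • ((-2 : ℝ) • z))
      ((a * (be p * s ^ (be p - 1))) • ((-2 : ℝ) • (ip : Bil n)) +
        (a * (be p * ((be p - 1) * s ^ (be p - 2)))) • rk ((-2 : ℝ) • z)) =
      s ^ (be p - 1) * ((2 * be p * a) ^ (p - 1) * ‖z‖ ^ (p - 2) *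
        (2 * be p * ‖z‖ ^ 2 - (n + p - 2) * s)) := by
  obtain ⟨hb1, hb2, hb3⟩ := BUMP51_be hp
  have hb0 : 0 < be p := by linarith
  set F1 := a * (be p * s ^ (be p - 1)) with hF1
  have hs1 : 0 < s ^ (be p - 1) := Real.rpow_pos_of_pos hs _
  have hF1p : 0 < F1 := by positivity
  have hF2 : a * (be p * ((be p - 1) * s ^ (be p - 2))) = F1 * (be p - 1) / s := by
    rw [hF1, show be p - 2 = (be p - 1) - 1 by ring, Real.rpow_sub_one hs.ne']
    ring
  rw [hF2, pA_chain hp hF1p, pA_form_smul, pA_ip hp]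
  have e2 : ‖(-2 : ℝ) • z‖ = 2 * ‖z‖ := by
    rw [norm_smul]
    norm_num
  rw [e2]
  rcases eq_or_lt_of_le (norm_nonneg z) with h0 | hz
  · rw [← h0]
    have e3 : (0 : ℝ) ^ (p - 2) = 0 := Real.zero_rpow (by linarith)
    have e4 : (0 : ℝ) ^ p = 0 := Real.zero_rpow (by linarith)
    simp [e3, e4]
  have h2z : 0 < 2 * ‖z‖ := by positivity
  have e5 : (2 * ‖z‖) ^ p = (2 * ‖z‖) ^ (p - 2) * (2 * ‖z‖) ^ 2 := by
    rw [← Real.rpow_natCast (2 * ‖z‖) 2, ← Real.rpow_add h2z]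
    congr 1
    push_cast
    ring
  have e6 : (2 * ‖z‖) ^ (p - 2) = 2 ^ (p - 2) * ‖z‖ ^ (p - 2) :=
    Real.mul_rpow (by norm_num) hz.le
  have e7 : F1 ^ (p - 2) * F1 = F1 ^ (p - 1) := by
    rw [← Real.rpow_add_one hF1p.ne']
    congr 1
    ring
  have e8 : F1 ^ (p - 1) = (a * be p) ^ (p - 1) * (s ^ (be p - 1) * s) := by
    rw [hF1, ← mul_assoc, Real.mul_rpow (by positivity) hs1.le, ← Real.rpow_mul hs.le, hb3,
      ← Real.rpow_add_one hs.ne']
    congr 2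
    ring
  have e9 : (2 * be p * a) ^ (p - 1) = 2 * 2 ^ (p - 2) * (a * be p) ^ (p - 1) := by
    rw [show 2 * be p * a = 2 * (a * be p) by ring, Real.mul_rpow (by norm_num) (by positivity),
      show p - 1 = (p - 2) + 1 by ring, Real.rpow_add_one (by norm_num : (2 : ℝ) ≠ 0)]
    ring
  have e10 : F1 ^ (p - 2) * (F1 * ((-2) * ((n + p - 2) * (2 * ‖z‖) ^ (p - 2))) +
      (p - 1) * (F1 * (be p - 1) / s) * (2 * ‖z‖) ^ p) =
      (F1 ^ (p - 2) * F1) * (2 * ‖z‖) ^ (p - 2) * ((-2) * (n + p - 2) +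
        ((be p - 1) * (p - 1)) / s * (2 * ‖z‖) ^ 2) := by
    rw [e5]
    ring
  rw [e10, e7, e8, hb3, e9, e6]
  field_simp
  ring

private theorem BUMP51_core {n : ℕ} (hp : 2 < p) {c κ : ℝ} (hκ : 0 ≤ κ) {e : E n} {O : Set (E n)}
    {v : E n → ℝ} (hv : Sup p (c • e) κ O v) {y0 : E n} {T M : ℝ} {a R a' R' : ℝ → ℝ}
    (ha : ∀ τ ∈ Icc 0 T, 0 < a τ) (hR : ∀ τ ∈ Icc 0 T, 0 < R τ ∧ R τ ≤ M)
    (ha' : ∀ τ ∈ Icc 0 T, HasDerivAt a (a' τ) τ) (hR' : ∀ τ ∈ Icc 0 T, HasDerivAt R (R' τ) τ)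
    (hstar : ∀ τ ∈ Icc 0 T, ∀ q, 0 ≤ q → q < R τ →
      a' τ * (R τ ^ 2 - q ^ 2) + 2 * a τ * be p * R τ * R' τ ≤
      (2 * be p * a τ) ^ (p - 1) * q ^ (p - 2) *
        (2 * be p * q ^ 2 - (n + p - 2) * (R τ ^ 2 - q ^ 2)))
    (h0 : ∀ x, ‖x - y0‖ < R 0 → a 0 * (R 0 ^ 2 - ‖x - y0‖ ^ 2) ^ be p ≤ v x)
    (hO : ∀ τ ∈ Icc 0 T, ball (y0 - (c * τ) • e) (R τ) ⊆ O) :
    ∀ τ ∈ Icc 0 T, ∀ x, ‖x - (y0 - (c * τ) • e)‖ < R τ →
      a τ * (R τ ^ 2 - ‖x - (y0 - (c * τ) • e)‖ ^ 2) ^ be p ≤ v x := by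
  obtain ⟨hb1, hb2, hb3⟩ := BUMP51_be hp
  have hb0 : 0 < be p := by linarith
  set y : ℝ → E n := fun τ => y0 - (c * τ) • e with hy
  have hyc : Continuous y := by
    rw [hy]
    fun_prop
  set B : E n → ℝ → ℝ := fun x τ => a τ * (max (R τ ^ 2 - ‖x - y τ‖ ^ 2) 0) ^ be p with hB
  set K : Set (E n × ℝ) := {z | z.2 ∈ Icc 0 T ∧ ‖z.1 - y z.2‖ ≤ M + 1} with hK
  have hKc : IsCompact K := by
    have h1 : K = (fun w : E n × ℝ => (w.1 + y w.2, w.2)) ''
        (closedBall (0 : E n) (M + 1) ×ˢ Icc (0 : ℝ) T) := by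
      ext ⟨x, τ⟩
      simp only [hK, mem_ofPred_eq, mem_image, mem_prod, Prod.exists, Prod.mk.injEq,
        mem_closedBall_zero_iff]
      constructor
      · rintro ⟨h1, h2⟩
        exact ⟨x - y τ, τ, ⟨h2, h1⟩, by simp, rfl⟩
      · rintro ⟨w, t, ⟨h1, h2⟩, h3, rfl⟩
        refine ⟨h2, ?_⟩
        rw [← h3]
        simpa using h1
    rw [h1]
    exact ((isCompact_closedBall _ _).prod isCompact_Icc).image (by fun_prop)
  have hac : ContinuousOn a (Icc 0 T) := fun τ hτ => (ha' τ hτ).continuousAt.continuousWithinAt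
  have hRc : ContinuousOn R (Icc 0 T) := fun τ hτ => (hR' τ hτ).continuousAt.continuousWithinAt
  have hmaps : MapsTo (fun z : E n × ℝ => z.2) K (Icc 0 T) := fun z hz => hz.1
  have hBc : ContinuousOn (fun z : E n × ℝ => B z.1 z.2) K := by
    have h1 : ContinuousOn (fun z : E n × ℝ => a z.2) K := hac.comp continuousOn_snd hmaps
    have h2 : ContinuousOn (fun z : E n × ℝ => R z.2) K := hRc.comp continuousOn_snd hmaps
    have h3 : ContinuousOn (fun z : E n × ℝ => ‖z.1 - y z.2‖) K := by fun_prop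
    have h4 : ContinuousOn (fun z : E n × ℝ => max (R z.2 ^ 2 - ‖z.1 - y z.2‖ ^ 2) 0) K :=
      ((h2.pow 2).sub (h3.pow 2)).sup continuousOn_const
    exact h1.mul (h4.rpow_const fun z _ => Or.inr hb0.le)
  have hpos : ∀ x τ, 0 < B x τ → 0 < R τ ^ 2 - ‖x - y τ‖ ^ 2 := by
    intro x τ h
    by_contra hn
    push Not at hn
    have : B x τ = 0 := by
      simp only [hB]
      rw [max_eq_right hn, Real.zero_rpow hb0.ne', mul_zero]
    linarith
  have hcmp := cs' (p := p) (b := c • e) hκ (O := O) (v := v)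
    (hv.cont.lowerSemicontinuous) hv.sp (B := B) hKc hBc.upperSemicontinuousOn ?_
  · intro τ hτ x hx
    have hx' : ‖x - y τ‖ < R τ := hx
    have h1 := hcmp x τ ⟨hτ, by linarith [(hR τ hτ).2]⟩
    have h2 : 0 ≤ R τ ^ 2 - ‖x - y τ‖ ^ 2 := by
      nlinarith [norm_nonneg (x - y τ)]
    simp only [hB] at h1
    rw [max_eq_left h2] at h1
    exact h1
  · intro x τ hxτ hlt
    obtain ⟨hτ, hzM⟩ := hxτ
    simp only at hτ hzM
    have hs : 0 < R τ ^ 2 - ‖x - y τ‖ ^ 2 := hpos x τ (lt_of_le_of_lt (hv.nn x) hlt)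
    set z := x - y τ with hz
    have haτ := ha τ hτ
    obtain ⟨hRτ, hRM⟩ := hR τ hτ
    have hzR : ‖z‖ < R τ := by
      by_contra hn
      push Not at hn
      nlinarith [norm_nonneg z]
    have hτ0 : 0 < τ := by
      rcases eq_or_lt_of_le hτ.1 with h | h
      · exfalso
        subst h
        have h1 : y 0 = y0 := by simp [hy]
        rw [hz, h1] at hzR hs
        have h2 := h0 x hzR
        simp only [hB] at hlt
        rw [h1, max_eq_left hs.le] at hlt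
        linarith
      · exact h
    set s := R τ ^ 2 - ‖z‖ ^ 2 with hsdef
    have hs1 : 0 < s ^ (be p - 1) := Real.rpow_pos_of_pos hs _
    refine ⟨?_, ?_, ⟨1, one_pos, ?_⟩, ?_⟩
    · refine ⟨min τ (1 / (|c| * ‖e‖ + 1)), lt_min hτ0 (by positivity), fun t ht htr => ?_⟩
      have h1 : t < τ := lt_of_lt_of_le htr (min_le_left _ _)
      have h2 : t < 1 / (|c| * ‖e‖ + 1) := lt_of_lt_of_le htr (min_le_right _ _)
      refine ⟨⟨by simpa using h1.le, ?_⟩, ?_⟩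
      · simp only
        linarith [hτ.2]
      · simp only
        have h3 : x - y (τ - t) = z - (c * t) • e := by
          simp only [hz, hy]
          module
        rw [h3]
        have h4 : ‖(c * t) • e‖ ≤ 1 := by
          rw [norm_smul, norm_mul, Real.norm_eq_abs, Real.norm_eq_abs, abs_of_nonneg ht]
          have h5 : t * (|c| * ‖e‖ + 1) < 1 := by
            rwa [lt_div_iff₀ (by positivity)] at h2
          nlinarith
        calc ‖z - (c * t) • e‖ ≤ ‖z‖ + ‖(c * t) • e‖ := norm_sub_le _ _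
          _ ≤ M + 1 := by linarith
    · apply hO τ hτ
      rw [mem_ball, dist_eq_norm]
      exact hzR
    · intro w hw
      refine ⟨hτ, ?_⟩
      simp only
      have h1 : w - y τ = (w - x) + z := by
        rw [hz]
        abel
      rw [h1]
      calc ‖(w - x) + z‖ ≤ ‖w - x‖ + ‖z‖ := norm_add_le _ _
        _ ≤ M + 1 := by linarith
    · have hT2 := BUMP51_t2 (p := p) (a τ) (R τ) (y τ) x hs
      have hpA := BUMP51_pA hp haτ hs z
      refine ⟨_, _, _, BUMP51_dtl (?_ : HasDerivAt (B x) (a' τ * s ^ be p +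
        a τ * (be p * s ^ (be p - 1)) * (2 * R τ * R' τ - 2 * (c * ⟪z, e⟫))) τ), hT2.2, ?_⟩
      · have hdy : HasDerivAt (fun t => x - y t) (c • e) τ := by
          have h1 : HasDerivAt (fun t : ℝ => (c * t) • e) (c • e) τ := by
            have := ((hasDerivAt_id τ).const_mul c).smul_const e
            simpa using this
          have h2 : (fun t => x - y t) = fun t => (x - y0) + (c * t) • e := by
            funext t
            simp only [hy]
            abel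
          rw [h2]
          exact h1.const_add _
        have hdn : HasDerivAt (fun t => ‖x - y t‖ ^ 2) (2 * (c * ⟪z, e⟫)) τ := by
          have h1 := hdy.norm_sq
          convert h1 using 1
          rw [inner_smul_right]
        have hds : HasDerivAt (fun t => R t ^ 2 - ‖x - y t‖ ^ 2)
            (2 * R τ * R' τ - 2 * (c * ⟪z, e⟫)) τ := by
          have h1 := ((hR' τ hτ).pow 2).sub hdn
          exact h1.congr_deriv (by norm_num)
        have h3 : HasDerivAt (fun t : ℝ => (max t 0) ^ be p) (be p * s ^ (be p - 1)) s := by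
          have := BUMP51_d1 (a := 1) (b := be p) hs
          simpa using this
        have h4 : HasDerivAt (fun t => (max (R t ^ 2 - ‖x - y t‖ ^ 2) 0) ^ be p)
            (be p * s ^ (be p - 1) * (2 * R τ * R' τ - 2 * (c * ⟪z, e⟫))) τ :=
          HasDerivAt.comp τ (h₂ := fun t : ℝ => (max t 0) ^ be p) h3 hds
        have h5 := (ha' τ hτ).mul h4
        refine h5.congr_deriv ?_
        rw [max_eq_left hs.le]
        ring
      · rw [hpA]
        have h6 : 0 ≤ κ * B x τ := by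
          apply mul_nonneg hκ
          exact (le_trans (hv.nn x) hlt.le)
        have h7 := hstar τ hτ ‖z‖ (norm_nonneg z) hzR
        have h8 : s ^ be p = s ^ (be p - 1) * s := by
          rw [← Real.rpow_add_one hs.ne']
          congr 1
          ring
        have h9 : (⟪c • e, (a τ * (be p * s ^ (be p - 1))) • ((-2 : ℝ) • z)⟫ : ℝ) =
            a τ * (be p * s ^ (be p - 1)) * (- 2 * (c * ⟪z, e⟫)) := by
          rw [inner_smul_left, inner_smul_right, inner_smul_right, real_inner_comm]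
          simp
          ring
        rw [h9, h8]
        have h10 := mul_le_mul_of_nonneg_left h7 hs1.le
        rw [← hsdef] at h10
        linarith

private theorem BUMP51_ineq (hp : 2 < p) (n : ℕ) :
    ∃ γ k : ℝ, 0 < γ ∧ 1 < k ∧ ∀ a R q : ℝ, 0 < a → 0 < R → 0 ≤ q → q < R →
      -(k * a * (γ * a ^ (p - 2) * R ^ (p - 1)) / R) * (R ^ 2 - q ^ 2) +
        2 * a * be p * R * (γ * a ^ (p - 2) * R ^ (p - 1)) ≤
      (2 * be p * a) ^ (p - 1) * q ^ (p - 2) *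
        (2 * be p * q ^ 2 - (n + p - 2) * (R ^ 2 - q ^ 2)) := by
  obtain ⟨hb1, hb2, hb3⟩ := BUMP51_be hp
  have hb0 : 0 < be p := by linarith
  have hn : (0 : ℝ) ≤ n := Nat.cast_nonneg n
  set β := be p with hβ
  set N : ℝ := n + p - 2 with hN
  have hN0 : 0 < N := by linarith
  set D : ℝ := 2 * β + N with hD
  have hD0 : 0 < D := by positivity
  set θ : ℝ := 1 - β / D with hθ
  have hθ1 : 1 - θ = β / D := by ring
  have hθ0 : 0 < θ := by
    have : β / D < 1 := by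
      rw [div_lt_one hD0]
      linarith
    linarith
  have hθ2 : 0 < 1 - θ := by
    rw [hθ1]
    positivity
  have hθ3 : 2 * β * θ - N * (1 - θ) = β := by
    have h1 : D * (1 - θ) = β := by
      rw [hθ1]
      field_simp
    have h2 : 2 * β * θ - N * (1 - θ) = 2 * β - D * (1 - θ) := by
      rw [hD]
      ring
    rw [h2, h1]
    ring
  set w := Real.sqrt θ with hw
  have hw0 : 0 < w := Real.sqrt_pos.2 hθ0
  have hww : w ^ 2 = θ := Real.sq_sqrt hθ0.le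
  set A : ℝ := (2 * β) ^ (p - 1) with hA
  have hA0 : 0 < A := Real.rpow_pos_of_pos (by positivity) _
  have hwp : 0 < w ^ (p - 2) := Real.rpow_pos_of_pos hw0 _
  set γ : ℝ := A * w ^ (p - 2) / 2 with hγ
  have hγ0 : 0 < γ := by positivity
  refine ⟨γ, 2 * β / (1 - θ) + A * N / γ, hγ0, ?_, ?_⟩
  · have h1 : 1 < 2 * β / (1 - θ) := by
      rw [lt_div_iff₀ hθ2]
      linarith
    have h2 : 0 < A * N / γ := by positivity
    linarith
  · intro a R q ha hR hq hqR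
    set k := 2 * β / (1 - θ) + A * N / γ with hk
    set s := R ^ 2 - q ^ 2 with hs
    have hs0 : 0 < s := by
      rw [hs]
      nlinarith
    have hk0 : 0 < k := by positivity
    have hRp : 0 < R ^ (p - 2) := Real.rpow_pos_of_pos hR _
    have hap : 0 < a ^ (p - 1) := Real.rpow_pos_of_pos ha _
    have hqp : 0 ≤ q ^ (p - 2) := Real.rpow_nonneg hq _
    have e1 : a ^ (p - 1) = a ^ (p - 2) * a := by
      rw [← Real.rpow_add_one ha.ne']
      congr 1
      ring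
    have e2 : R ^ (p - 1) = R ^ (p - 2) * R := by
      rw [← Real.rpow_add_one hR.ne']
      congr 1
      ring
    have e3 : (2 * β * a) ^ (p - 1) = A * a ^ (p - 1) := Real.mul_rpow (by positivity) ha.le
    have e4 : -(k * a * (γ * a ^ (p - 2) * R ^ (p - 1)) / R) * s +
        2 * a * β * R * (γ * a ^ (p - 2) * R ^ (p - 1)) =
        a ^ (p - 1) * (γ * R ^ (p - 2) * (2 * β * R ^ 2 - k * s)) := by
      rw [e1, e2]
      field_simp
      ring
    rw [e4, e3]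
    have e5 : A * a ^ (p - 1) * q ^ (p - 2) * (2 * β * q ^ 2 - N * s) =
        a ^ (p - 1) * (A * q ^ (p - 2) * (2 * β * q ^ 2 - N * s)) := by ring
    rw [e5]
    apply mul_le_mul_of_nonneg_left _ hap.le
    rcases le_or_gt (θ * R ^ 2) (q ^ 2) with h | h
    · have h1 : s ≤ (1 - θ) * R ^ 2 := by
        rw [hs]
        linarith
      have h2 : β * R ^ 2 ≤ 2 * β * q ^ 2 - N * s := by
        have h3 : N * s ≤ N * ((1 - θ) * R ^ 2) := mul_le_mul_of_nonneg_left h1 hN0.le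
        have h4 : 2 * β * (θ * R ^ 2) ≤ 2 * β * q ^ 2 := mul_le_mul_of_nonneg_left h (by positivity)
        have h5 : (2 * β * θ - N * (1 - θ)) * R ^ 2 = β * R ^ 2 := by rw [hθ3]
        nlinarith
      have h3 : w * R ≤ q := by
        apply le_of_sq_le_sq _ hq
        rw [mul_pow, hww]
        exact h
      have h4 : w ^ (p - 2) * R ^ (p - 2) ≤ q ^ (p - 2) := by
        rw [← Real.mul_rpow hw0.le hR.le]
        exact Real.rpow_le_rpow (by positivity) h3 (by linarith)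
      have h5 : γ * R ^ (p - 2) * (2 * β * R ^ 2 - k * s) ≤ γ * R ^ (p - 2) * (2 * β * R ^ 2) := by
        apply mul_le_mul_of_nonneg_left _ (by positivity)
        have : 0 ≤ k * s := by positivity
        linarith
      have h6 : γ * R ^ (p - 2) * (2 * β * R ^ 2) =
          A * (w ^ (p - 2) * R ^ (p - 2)) * (β * R ^ 2) := by
        rw [hγ]
        ring
      have h7 : A * (w ^ (p - 2) * R ^ (p - 2)) * (β * R ^ 2) ≤
          A * q ^ (p - 2) * (2 * β * q ^ 2 - N * s) := by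
        apply mul_le_mul _ h2 (by positivity) (by positivity)
        exact mul_le_mul_of_nonneg_left h4 hA0.le
      linarith
    · have h1 : (1 - θ) * R ^ 2 < s := by
        rw [hs]
        linarith
      have h2 : R ^ 2 < s / (1 - θ) := by
        rw [lt_div_iff₀ hθ2]
        linarith
      have h3 : 2 * β * R ^ 2 - k * s ≤ -(A * N / γ) * s := by
        have h4 : 2 * β * R ^ 2 ≤ 2 * β * (s / (1 - θ)) :=
          mul_le_mul_of_nonneg_left h2.le (by positivity)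
        have h5 : k * s = 2 * β * (s / (1 - θ)) + A * N / γ * s := by
          rw [hk]
          ring
        linarith
      have h4 : γ * R ^ (p - 2) * (2 * β * R ^ 2 - k * s) ≤
          γ * R ^ (p - 2) * (-(A * N / γ) * s) := mul_le_mul_of_nonneg_left h3 (by positivity)
      have h5 : γ * R ^ (p - 2) * (-(A * N / γ) * s) = -(A * N * s * R ^ (p - 2)) := by
        field_simp
      have h6 : q ^ (p - 2) ≤ R ^ (p - 2) := Real.rpow_le_rpow hq hqR.le (by linarith)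
      have h7 : A * N * s * q ^ (p - 2) ≤ A * N * s * R ^ (p - 2) :=
        mul_le_mul_of_nonneg_left h6 (by positivity)
      have h8 : 0 ≤ A * q ^ (p - 2) * (2 * β * q ^ 2) := by positivity
      have h9 : A * q ^ (p - 2) * (2 * β * q ^ 2 - N * s) =
          A * q ^ (p - 2) * (2 * β * q ^ 2) - A * N * s * q ^ (p - 2) := by ring
      rw [h9]
      linarith

theorem bump (hp : 2 < p) (n : ℕ) :
    ∃ C c1 : ℝ, 0 < C ∧ 0 < c1 ∧ c1 ≤ 1 ∧ ∀ (c : ℝ) (e : E n) (κ : ℝ), 0 ≤ κ → ∀ (O : Set (E n))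
      (v : E n → ℝ), Sup p (c • e) κ O v → ∀ (y0 : E n) (ρ μ : ℝ), 0 < ρ → 0 < μ →
      (∀ x, ‖x - y0‖ ≤ ρ → μ ≤ v x) →
      (∀ τ, 0 ≤ τ → τ ≤ C * ρ ^ p / μ ^ (p - 2) → ball (y0 - (c * τ) • e) (4 * ρ) ⊆ O) →
      ∀ x, ‖x - (y0 - (c * (C * ρ ^ p / μ ^ (p - 2))) • e)‖ ≤ 3 * ρ → c1 * μ ≤ v x := by
  obtain ⟨γ, k, hγ, hk, hineq⟩ := BUMP51_ineq hp n
  obtain ⟨hb1, hb2, hb3⟩ := BUMP51_be hp
  have hb0 : 0 < be p := by linarith
  have hp2 : 0 < p - 2 := by linarith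
  set Λ : ℝ := (k - 1) * (p - 2) with hΛ
  have hΛ0 : 0 < Λ := mul_pos (by linarith) hp2
  set W : ℝ := 4 ^ Λ - 1 with hW
  have hW0 : 0 < W := by
    have := Real.one_lt_rpow (by norm_num : (1 : ℝ) < 4) hΛ0
    linarith
  refine ⟨W / (Λ * γ), min 1 (4 ^ (-k) * 7 ^ be p), by positivity, by positivity, min_le_left _ _, ?_⟩
  intro c e κ hκ O v hv y0 ρ μ hρ hμ h0 hO x hx
  set T : ℝ := W / (Λ * γ) * ρ ^ p / μ ^ (p - 2) with hT
  have hρp : 0 < ρ ^ p := Real.rpow_pos_of_pos hρ _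
  have hμp : 0 < μ ^ (p - 2) := Real.rpow_pos_of_pos hμ _
  have hT0 : 0 < T := by positivity
  have hρβ : 0 < (ρ ^ 2) ^ be p := Real.rpow_pos_of_pos (by positivity) _
  set a0 : ℝ := μ / (ρ ^ 2) ^ be p with ha0
  have ha00 : 0 < a0 := by positivity
  set w : ℝ → ℝ := fun τ => 1 + W / T * τ with hw
  have hw1 : ∀ τ ∈ Icc 0 T, 1 ≤ w τ ∧ w τ ≤ 4 ^ Λ := by
    intro τ hτ
    have h1 : 0 ≤ W / T * τ := mul_nonneg (by positivity) hτ.1
    have h2 : W / T * τ ≤ W := by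
      rw [div_mul_eq_mul_div, div_le_iff₀ hT0]
      exact mul_le_mul_of_nonneg_left hτ.2 hW0.le
    refine ⟨by simp only [hw]; linarith, ?_⟩
    simp only [hw]
    linarith
  have hwd : ∀ τ, HasDerivAt w (W / T) τ := by
    intro τ
    have := ((hasDerivAt_id τ).const_mul (W / T)).const_add 1
    simpa [hw] using this
  have hkey : W / T * (1 / Λ) = γ * a0 ^ (p - 2) * ρ ^ (p - 2) := by
    have e1 : a0 ^ (p - 2) = μ ^ (p - 2) / (ρ ^ p * ρ ^ (p - 2)) := by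
      rw [ha0, Real.div_rpow hμ.le hρβ.le, ← Real.rpow_mul (by positivity), ← Real.rpow_natCast ρ 2,
        ← Real.rpow_mul hρ.le, ← Real.rpow_add hρ]
      congr 2
      have : be p * (p - 2) = p - 1 := by linarith
      rw [this]
      push_cast
      ring
    have h3 : 0 < ρ ^ (p - 2) := Real.rpow_pos_of_pos hρ _
    rw [e1, hT]
    field_simp
  have hwr : ∀ τ ∈ Icc 0 T, 0 < w τ := fun τ hτ => by linarith [(hw1 τ hτ).1]
  set a : ℝ → ℝ := fun τ => a0 * w τ ^ (-k / Λ) with ha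
  set R : ℝ → ℝ := fun τ => ρ * w τ ^ (1 / Λ) with hR
  have hapos : ∀ τ ∈ Icc 0 T, 0 < a τ := fun τ hτ =>
    mul_pos ha00 (Real.rpow_pos_of_pos (hwr τ hτ) _)
  have hRpos : ∀ τ ∈ Icc 0 T, 0 < R τ := fun τ hτ =>
    mul_pos hρ (Real.rpow_pos_of_pos (hwr τ hτ) _)
  have h4 : ((4 : ℝ) ^ Λ) ^ (1 / Λ) = 4 := by
    rw [← Real.rpow_mul (by norm_num)]
    rw [mul_one_div_cancel hΛ0.ne', Real.rpow_one]
  have hRle : ∀ τ ∈ Icc 0 T, R τ ≤ 4 * ρ := by
    intro τ hτ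
    have h1 : w τ ^ (1 / Λ) ≤ ((4 : ℝ) ^ Λ) ^ (1 / Λ) :=
      Real.rpow_le_rpow (hwr τ hτ).le (hw1 τ hτ).2 (by positivity)
    rw [h4] at h1
    simp only [hR]
    nlinarith
  have hRd : ∀ τ ∈ Icc 0 T, HasDerivAt R (γ * a τ ^ (p - 2) * R τ ^ (p - 1)) τ := by
    intro τ hτ
    have hwτ := hwr τ hτ
    have h1 := (((hwd τ).rpow_const (p := 1 / Λ) (Or.inl hwτ.ne')).const_mul ρ)
    refine h1.congr_deriv ?_
    have e1 : a τ ^ (p - 2) = a0 ^ (p - 2) * w τ ^ (-k / Λ * (p - 2)) := by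
      simp only [ha]
      rw [Real.mul_rpow ha00.le (by positivity), ← Real.rpow_mul hwτ.le]
    have e2 : R τ ^ (p - 1) = ρ ^ (p - 2) * ρ * w τ ^ (1 / Λ * (p - 1)) := by
      simp only [hR]
      rw [Real.mul_rpow hρ.le (by positivity), ← Real.rpow_mul hwτ.le,
        show p - 1 = (p - 2) + 1 by ring, Real.rpow_add_one hρ.ne']
    have e3 : w τ ^ (-k / Λ * (p - 2)) * w τ ^ (1 / Λ * (p - 1)) = w τ ^ (1 / Λ - 1) := by
      rw [← Real.rpow_add hwτ]
      congr 1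
      rw [hΛ]
      have : k - 1 ≠ 0 := by linarith
      field_simp
      ring
    rw [e1, e2, ← e3] 
    calc ρ * (W / T * (1 / Λ) * (w τ ^ (-k / Λ * (p - 2)) * w τ ^ (1 / Λ * (p - 1))))
        = ρ * ((γ * a0 ^ (p - 2) * ρ ^ (p - 2)) *
          (w τ ^ (-k / Λ * (p - 2)) * w τ ^ (1 / Λ * (p - 1)))) := by rw [hkey]
      _ = _ := by ring
  have had : ∀ τ ∈ Icc 0 T, HasDerivAt a
      (-(k * a τ * (γ * a τ ^ (p - 2) * R τ ^ (p - 1)) / R τ)) τ := by
    intro τ hτ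
    have hwτ := hwr τ hτ
    have h1 := (((hwd τ).rpow_const (p := -k / Λ) (Or.inl hwτ.ne')).const_mul a0)
    refine h1.congr_deriv ?_
    have h2 := ((((hwd τ).rpow_const (p := 1 / Λ) (Or.inl hwτ.ne')).const_mul ρ).unique
      (hRd τ hτ))
    rw [← h2]
    have h3 : w τ ^ (1 / Λ - 1) = w τ ^ (1 / Λ) / w τ := Real.rpow_sub_one hwτ.ne' _
    have h4 : w τ ^ (-k / Λ - 1) = w τ ^ (-k / Λ) / w τ := Real.rpow_sub_one hwτ.ne' _
    have h5 : 0 < w τ ^ (1 / Λ) := Real.rpow_pos_of_pos hwτ _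
    rw [h3, h4]
    simp only [ha, hR]
    field_simp
  have hmain := BUMP51_core hp hκ hv (y0 := y0) (T := T) (M := 4 * ρ) (a := a) (R := R)
    (a' := fun τ => -(k * a τ * (γ * a τ ^ (p - 2) * R τ ^ (p - 1)) / R τ))
    (R' := fun τ => γ * a τ ^ (p - 2) * R τ ^ (p - 1)) hapos
    (fun τ hτ => ⟨hRpos τ hτ, hRle τ hτ⟩) had hRd
    (fun τ hτ q hq hqR => hineq (a τ) (R τ) q (hapos τ hτ) (hRpos τ hτ) hq hqR) ?_ ?_
    T ⟨hT0.le, le_rfl⟩ x ?_
  · have hwT : w T = 4 ^ Λ := by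
      simp only [hw]
      rw [div_mul_cancel₀ _ hT0.ne']
      ring
    have hRT : R T = 4 * ρ := by
      simp only [hR]
      rw [hwT, h4]
      ring
    have haT : a T = a0 * 4 ^ (-k) := by
      simp only [ha]
      rw [hwT, ← Real.rpow_mul (by norm_num)]
      congr 2
      field_simp
    rw [hRT, haT] at hmain
    have h5 : 7 * ρ ^ 2 ≤ (4 * ρ) ^ 2 - ‖x - (y0 - (c * T) • e)‖ ^ 2 := by
      have := pow_le_pow_left₀ (norm_nonneg _) hx 2
      nlinarith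
    have h6 : (7 * ρ ^ 2) ^ be p ≤ ((4 * ρ) ^ 2 - ‖x - (y0 - (c * T) • e)‖ ^ 2) ^ be p :=
      Real.rpow_le_rpow (by positivity) h5 hb0.le
    have h7 : a0 * 4 ^ (-k) * (7 * ρ ^ 2) ^ be p ≤ v x :=
      le_trans (mul_le_mul_of_nonneg_left h6 (by positivity)) hmain
    have h8 : a0 * 4 ^ (-k) * (7 * ρ ^ 2) ^ be p = (4 ^ (-k) * 7 ^ be p) * μ := by
      rw [Real.mul_rpow (by norm_num) (by positivity), ha0]
      field_simp
    rw [h8] at h7
    exact le_trans (mul_le_mul_of_nonneg_right (min_le_right _ _) hμ.le) h7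
  · intro x hx
    have hw0 : w 0 = 1 := by simp [hw]
    have e1 : R 0 = ρ := by
      simp only [hR]
      rw [hw0, Real.one_rpow, mul_one]
    have e2 : a 0 = a0 := by
      simp only [ha]
      rw [hw0, Real.one_rpow, mul_one]
    rw [e1] at hx
    rw [e1, e2]
    refine le_trans ?_ (h0 x hx.le)
    have h5 : (ρ ^ 2 - ‖x - y0‖ ^ 2) ^ be p ≤ (ρ ^ 2) ^ be p := by
      apply Real.rpow_le_rpow _ _ hb0.le
      · nlinarith [norm_nonneg (x - y0)]
      · nlinarith [norm_nonneg (x - y0)]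
    calc a0 * (ρ ^ 2 - ‖x - y0‖ ^ 2) ^ be p ≤ a0 * (ρ ^ 2) ^ be p :=
          mul_le_mul_of_nonneg_left h5 ha00.le
      _ = μ := by
          rw [ha0]
          field_simp
  · intro τ hτ
    exact (ball_subset_ball (hRle τ hτ)).trans (hO τ hτ.1 hτ.2)
  · have hwT : w T = 4 ^ Λ := by
      simp only [hw]
      rw [div_mul_cancel₀ _ hT0.ne']
      ring
    have hRT : R T = 4 * ρ := by
      simp only [hR]
      rw [hwT, h4]
      ring
    rw [hRT]
    linarith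

theorem persist {n : ℕ} (hp : 2 < p) {c κ : ℝ} (hκ : 0 ≤ κ) {e : E n} {O : Set (E n)} {v : E n → ℝ}
    (hv : Sup p (c • e) κ O v) {y0 : E n} {ρ T : ℝ} (hρ : 0 < ρ) (hT : 0 ≤ T)
    (h0 : ∀ x, ‖x - y0‖ ≤ ρ → 0 < v x)
    (hO : ∀ τ, 0 ≤ τ → τ ≤ T → ball (y0 - (c * τ) • e) ρ ⊆ O) :
    ∀ x, ‖x - (y0 - (c * T) • e)‖ < ρ → 0 < v x := by
  obtain ⟨hb1, hb2, hb3⟩ := BUMP51_be hp
  have hb0 : 0 < be p := by linarith
  have hp2 : 0 < p - 2 := by linarith
  obtain ⟨x1, hx1, hmin⟩ := (isCompact_closedBall y0 ρ).exists_isMinOn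
    ⟨y0, mem_closedBall_self hρ.le⟩ hv.cont.continuousOn
  have hμ : 0 < v x1 := h0 x1 (by simpa [dist_eq_norm] using hx1)
  have hμv : ∀ x, ‖x - y0‖ ≤ ρ → v x1 ≤ v x := fun x hx =>
    hmin (by simpa [mem_closedBall, dist_eq_norm] using hx)
  set μ := v x1 with hμdef
  have hρβ : 0 < (ρ ^ 2) ^ be p := Real.rpow_pos_of_pos (by positivity) _
  set a0 : ℝ := μ / (ρ ^ 2) ^ be p with ha0
  have ha00 : 0 < a0 := by positivity
  have hn : (0 : ℝ) ≤ n := Nat.cast_nonneg n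
  set N : ℝ := n + p - 2 with hN
  have hN0 : 0 < N := by linarith
  have hρp : 0 < ρ ^ (p - 2) := Real.rpow_pos_of_pos hρ _
  set A : ℝ := (2 * be p) ^ (p - 1) with hA
  have hA0 : 0 < A := Real.rpow_pos_of_pos (by positivity) _
  have ha0p : 0 < a0 ^ (p - 2) := Real.rpow_pos_of_pos ha00 _
  set lam : ℝ := A * ρ ^ (p - 2) * N * a0 ^ (p - 2) with hlam
  have hlam0 : 0 < lam := by positivity
  have hmain := BUMP51_core hp hκ hv (y0 := y0) (T := T) (M := ρ)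
    (a := fun τ => a0 * Real.exp (-lam * τ)) (R := fun _ => ρ)
    (a' := fun τ => a0 * (Real.exp (-lam * τ) * (-lam))) (R' := fun _ => 0)
    (fun τ _ => by positivity) (fun τ _ => ⟨hρ, le_rfl⟩) ?_ (fun τ _ => hasDerivAt_const _ _)
    ?_ ?_ (fun τ hτ => hO τ hτ.1 hτ.2) T ⟨hT, le_rfl⟩
  · intro x hx
    refine lt_of_lt_of_le ?_ (hmain x hx)
    have h1 : 0 < ρ ^ 2 - ‖x - (y0 - (c * T) • e)‖ ^ 2 := by
      nlinarith [norm_nonneg (x - (y0 - (c * T) • e))]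
    have h2 := Real.rpow_pos_of_pos h1 (be p)
    positivity
  · intro τ _
    have h1 := ((((hasDerivAt_id τ).const_mul (-lam)).exp).const_mul a0)
    simpa using h1
  · intro τ hτ q hq hqR
    set a := a0 * Real.exp (-lam * τ) with ha
    have hapos : 0 < a := by positivity
    have hale : a ≤ a0 := by
      have h1 : Real.exp (-lam * τ) ≤ 1 := by
        rw [Real.exp_le_one_iff]
        nlinarith [hτ.1]
      rw [ha]
      nlinarith
    have hs : 0 < ρ ^ 2 - q ^ 2 := by nlinarith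
    set s := ρ ^ 2 - q ^ 2 with hsdef
    have e1 : a ^ (p - 1) = a ^ (p - 2) * a := by
      rw [← Real.rpow_add_one hapos.ne']
      congr 1
      ring
    have e3 : (2 * be p * a) ^ (p - 1) = A * (a ^ (p - 2) * a) := by
      rw [← e1]
      exact Real.mul_rpow (by positivity) hapos.le
    rw [e3]
    have h1 : a ^ (p - 2) ≤ a0 ^ (p - 2) := Real.rpow_le_rpow hapos.le hale hp2.le
    have h2 : q ^ (p - 2) ≤ ρ ^ (p - 2) := Real.rpow_le_rpow hq hqR.le hp2.le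
    have h3 : 0 ≤ q ^ (p - 2) := Real.rpow_nonneg hq _
    have h4 : 0 ≤ a ^ (p - 2) := Real.rpow_nonneg hapos.le _
    have h5 : a ^ (p - 2) * q ^ (p - 2) ≤ a0 ^ (p - 2) * ρ ^ (p - 2) :=
      mul_le_mul h1 h2 h3 ha0p.le
    have h6 : A * a * N * s * (a ^ (p - 2) * q ^ (p - 2)) ≤
        A * a * N * s * (a0 ^ (p - 2) * ρ ^ (p - 2)) :=
      mul_le_mul_of_nonneg_left h5 (by positivity)
    have h7 : 0 ≤ A * (a ^ (p - 2) * a) * q ^ (p - 2) * (2 * be p * q ^ 2) := by positivity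
    have h8 : a0 * (Real.exp (-lam * τ) * -lam) * s + 2 * a * be p * ρ * 0 =
        -(A * a * N * s * (a0 ^ (p - 2) * ρ ^ (p - 2))) := by
      rw [ha, hlam]
      ring
    rw [h8]
    have h9 : A * (a ^ (p - 2) * a) * q ^ (p - 2) * (2 * be p * q ^ 2 - N * s) =
        A * (a ^ (p - 2) * a) * q ^ (p - 2) * (2 * be p * q ^ 2) -
          A * a * N * s * (a ^ (p - 2) * q ^ (p - 2)) := by ring
    rw [h9]
    linarith
  · intro x hx
    simp only [mul_zero, Real.exp_zero, mul_one]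
    refine le_trans ?_ (hμv x hx.le)
    have h5 : (ρ ^ 2 - ‖x - y0‖ ^ 2) ^ be p ≤ (ρ ^ 2) ^ be p := by
      apply Real.rpow_le_rpow _ _ hb0.le
      · nlinarith [norm_nonneg (x - y0)]
      · nlinarith [norm_nonneg (x - y0)]
    calc a0 * (ρ ^ 2 - ‖x - y0‖ ^ 2) ^ be p ≤ a0 * (ρ ^ 2) ^ be p :=
          mul_le_mul_of_nonneg_left h5 ha00.le
      _ = μ := by
          rw [ha0]
          field_simp

end Pool.Agent.TWC
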