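import Pool.Agent.TWC.Defs

/-!
# TWC JTA: operations on upper jets

All proofs are direct from the definitions (an `ε` of room, take the minimum of the radii).

* `uj_neg`, `lj_neg`: put a minus sign in the inequality.
* `uj_add`: add the two inequalities with `ε/2`.
* `uj_of_max`: `u y ≤ u x + (w y - w x)` near `x`, then use the expansion of `w`.
* `uj_mono`: `X ≤ X'` as quadratic forms.
* `uj_local`: `v ≤ u` near `x`, `v x = u x`.
* `uj_shift`: substitute `y ↦ y - a`.  `uj_scale`: for `s, r > 0` and `v y = s * u (P0 + r y)`: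
  `v y ≤ s u(x') + s <P, r (y - x)> + s/2 X (r(y-x)) (r(y-x)) + s ε r^2 |y-x|^2`, `x' = P0 + r x`.
* `uj_zero`: if `u ≥ 0`, `u x = 0` then for every `h`, `t > 0` small:
  `0 ≤ t <P,h> + t^2 (X h h / 2 + ε |h|^2)`; divide by `t`, let `t → 0`: `0 ≤ <P,h>` for all `h`, so
  `P = 0` (take `h = -P`); then divide by `t^2`: `0 ≤ X h h / 2 + ε |h|^2`, `ε → 0`.
* `uj_inv`: if `u (x + t e) = u x` for all `t` then as before `0 ≤ t <P,e> + C t^2` for `t` of both
  signs, so `<P,e> = 0`, and then `0 ≤ X e e`.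
* `uj_plus`: `UJ u x P X` implies `UJ u x P (X + c ip)` type statements are special cases of
  `uj_mono`.
-/

open Set Metric Filter Topology
open scoped RealInnerProductSpace

noncomputable section

namespace Pool.Agent.TWC

variable {n : ℕ} {u v w : E n → ℝ} {x P Q : E n} {X Y : Bil n}

theorem jta_forms (c d : ℝ) (X Y : Bil n) (v w : E n) :
    (c • X + d • Y) v w = c * X v w + d * Y v w := by
  simp [smul_eq_mul]

theorem uj_neg : UJ (fun y => -u y) x (-P) (-X) ↔ LJ u x P X := by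
  have e : ∀ y, (-X) (y - x) (y - x) = -(X (y - x) (y - x)) := fun y => by simp
  constructor
  · intro h ε hε
    obtain ⟨r, hr, H⟩ := h ε hε
    refine ⟨r, hr, fun y hy => ?_⟩
    have h1 := H y hy
    simp only [e, inner_neg_left] at h1
    linarith
  · intro h ε hε
    obtain ⟨r, hr, H⟩ := h ε hε
    refine ⟨r, hr, fun y hy => ?_⟩
    have h1 := H y hy
    simp only [e, inner_neg_left]
    linarith

theorem lj_neg : LJ (fun y => -u y) x (-P) (-X) ↔ UJ u x P X := by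
  have h := uj_neg (u := fun y => -u y) (x := x) (P := -P) (X := -X)
  have e : - -X = X := neg_neg X
  simp only [neg_neg] at h
  rw [e] at h
  exact h.symm

theorem uj_add (hu : UJ u x P X) (hw : UJ w x Q Y) : UJ (fun y => u y + w y) x (P + Q) (X + Y) := by
  intro ε hε
  obtain ⟨r1, hr1, H1⟩ := hu (ε / 2) (by positivity)
  obtain ⟨r2, hr2, H2⟩ := hw (ε / 2) (by positivity)
  refine ⟨min r1 r2, lt_min hr1 hr2, fun y hy => ?_⟩
  have e1 := H1 y (hy.trans_le (min_le_left _ _))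
  have e2 := H2 y (hy.trans_le (min_le_right _ _))
  have e3 : (X + Y) (y - x) (y - x) = X (y - x) (y - x) + Y (y - x) (y - x) := rfl
  rw [inner_add_left, e3]
  linarith

theorem uj_of_max (hw : UJ w x Q Y) (h : ∃ r > 0, ∀ y, ‖y - x‖ < r → u y - w y ≤ u x - w x) :
    UJ u x Q Y := by
  obtain ⟨r0, hr0, H0⟩ := h
  intro ε hε
  obtain ⟨r1, hr1, H1⟩ := hw ε hε
  refine ⟨min r0 r1, lt_min hr0 hr1, fun y hy => ?_⟩
  have e1 := H0 y (hy.trans_le (min_le_left _ _))
  have e2 := H1 y (hy.trans_le (min_le_right _ _))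
  linarith

theorem uj_mono (h : UJ u x P X) (hXY : ∀ v, X v v ≤ Y v v) : UJ u x P Y := by
  intro ε hε
  obtain ⟨r, hr, H⟩ := h ε hε
  refine ⟨r, hr, fun y hy => ?_⟩
  have e1 := H y hy
  have e2 := hXY (y - x)
  linarith

theorem uj_local (h : UJ u x P X) (hv : ∃ r > 0, ∀ y, ‖y - x‖ < r → v y ≤ u y) (hx : v x = u x) :
    UJ v x P X := by
  obtain ⟨r0, hr0, H0⟩ := hv
  intro ε hε
  obtain ⟨r1, hr1, H1⟩ := h ε hε
  refine ⟨min r0 r1, lt_min hr0 hr1, fun y hy => ?_⟩
  have e1 := H0 y (hy.trans_le (min_le_left _ _))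
  have e2 := H1 y (hy.trans_le (min_le_right _ _))
  rw [hx]
  linarith

theorem uj_smul {c : ℝ} (hc : 0 < c) (h : UJ u x P X) : UJ (fun y => c * u y) x (c • P) (c • X) := by
  intro ε hε
  obtain ⟨r, hr, H⟩ := h (ε / c) (by positivity)
  refine ⟨r, hr, fun y hy => ?_⟩
  have e1 := mul_le_mul_of_nonneg_left (H y hy) hc.le
  have e3 : (c • X) (y - x) (y - x) = c * X (y - x) (y - x) := rfl
  have e4 : c * (ε / c) = ε := by field_simp
  rw [real_inner_smul_left, e3]
  show c * u y ≤ _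
  have e5 : c * (u x + ⟪P, y - x⟫ + 1 / 2 * X (y - x) (y - x) + ε / c * ‖y - x‖ ^ 2) =
      c * u x + c * ⟪P, y - x⟫ + 1 / 2 * (c * X (y - x) (y - x)) +
        (c * (ε / c)) * ‖y - x‖ ^ 2 := by ring
  rw [e5, e4] at e1
  exact e1

theorem uj_shift (a : E n) : UJ (fun y => u (y - a)) x P X ↔ UJ u (x - a) P X := by
  constructor
  · intro h ε hε
    obtain ⟨r, hr, H⟩ := h ε hε
    refine ⟨r, hr, fun y hy => ?_⟩
    have e : y + a - x = y - (x - a) := by abel
    have h1 := H (y + a) (by rw [e]; exact hy)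
    rw [e] at h1
    simpa using h1
  · intro h ε hε
    obtain ⟨r, hr, H⟩ := h ε hε
    refine ⟨r, hr, fun y hy => ?_⟩
    have e : y - a - (x - a) = y - x := by abel
    have h1 := H (y - a) (by rw [e]; exact hy)
    rw [e] at h1
    exact h1

theorem uj_scale {s r : ℝ} (hs : 0 < s) (hr : 0 < r) (P0 : E n) :
    UJ (fun y => s * u (P0 + r • y)) x ((s * r) • P) ((s * r ^ 2) • X) ↔ UJ u (P0 + r • x) P X := by
  have e0 : ∀ y, P0 + r • y - (P0 + r • x) = r • (y - x) := fun y => by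
    rw [smul_sub]; abel
  have e3 : ∀ v : E n, ((s * r ^ 2) • X) v v = s * r ^ 2 * X v v := fun v => rfl
  have e4 : ∀ v : E n, X (r • v) (r • v) = r ^ 2 * X v v := fun v => by
    rw [map_smul, map_smul, smul_eq_mul]
    show r * (r * X v v) = _
    ring
  constructor
  · intro h ε hε
    obtain ⟨ρ, hρ, H⟩ := h (ε * (s * r ^ 2)) (by positivity)
    refine ⟨ρ * r, by positivity, fun z hz => ?_⟩
    -- write z = P0 + r • y
    obtain ⟨y, rfl⟩ : ∃ y, z = P0 + r • y := ⟨r⁻¹ • (z - P0), by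
      rw [smul_smul, mul_inv_cancel₀ hr.ne', one_smul]; abel⟩
    rw [e0] at hz ⊢
    rw [norm_smul, Real.norm_eq_abs, abs_of_pos hr] at hz ⊢
    have hy : ‖y - x‖ < ρ := by
      by_contra hcon
      push Not at hcon
      nlinarith
    have h1 := H y hy
    simp only [e3, real_inner_smul_left] at h1
    rw [real_inner_smul_right, e4]
    have h2 : s * u (P0 + r • y) ≤ s * (u (P0 + r • x) + r * ⟪P, y - x⟫ +
        1 / 2 * (r ^ 2 * X (y - x) (y - x)) + ε * (r * ‖y - x‖) ^ 2) := by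
      refine h1.trans (le_of_eq ?_)
      ring
    exact le_of_mul_le_mul_left h2 hs
  · intro h ε hε
    obtain ⟨ρ, hρ, H⟩ := h (ε / (s * r ^ 2)) (by positivity)
    refine ⟨ρ / r, by positivity, fun y hy => ?_⟩
    rw [lt_div_iff₀ hr] at hy
    have h1 := H (P0 + r • y) (by
      rw [e0, norm_smul, Real.norm_eq_abs, abs_of_pos hr]
      linarith)
    rw [e0, norm_smul, Real.norm_eq_abs, abs_of_pos hr, real_inner_smul_right, e4] at h1
    have h2 := mul_le_mul_of_nonneg_left h1 hs.le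
    simp only [e3, real_inner_smul_left]
    refine h2.trans (le_of_eq ?_)
    field_simp

/-- the limit of a linear inequality -/
private theorem jta_lim {a C r : ℝ} (hr : 0 < r) (h : ∀ t, 0 < t → t < r → 0 ≤ t * a + t ^ 2 * C) :
    0 ≤ a := by
  by_contra hcon
  push Not at hcon
  set t := min (r / 2) (-a / (2 * (|C| + 1))) with ht
  have htp : 0 < t := lt_min (by linarith) (div_pos (by linarith) (by positivity))
  have htr : t < r := (min_le_left _ _).trans_lt (by linarith)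
  have h1 := h t htp htr
  have h2 : t * (|C| + 1) ≤ -a / 2 := by
    have h3 : t ≤ -a / (2 * (|C| + 1)) := min_le_right _ _
    rw [le_div_iff₀ (by positivity)] at h3
    linarith
  have h4 : t * C ≤ t * (|C| + 1) := by
    apply mul_le_mul_of_nonneg_left _ htp.le
    linarith [le_abs_self C]
  have h5 : 0 ≤ t * (a + t * C) := by nlinarith
  have h6 : 0 ≤ a + t * C := by
    by_contra h7
    push Not at h7
    nlinarith
  linarith

/-- directional form of an upper jet -/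
private theorem jta_dir {u : E n → ℝ} {x P : E n} {X : Bil n} (h : UJ u x P X) (w : E n) {ε : ℝ}
    (hε : 0 < ε) : ∃ r > 0, ∀ t : ℝ, |t| < r →
      u (x + t • w) ≤ u x + t * ⟪P, w⟫ + t ^ 2 * (1 / 2 * X w w + ε * ‖w‖ ^ 2) := by
  obtain ⟨ρ, hρ, H⟩ := h ε hε
  refine ⟨ρ / (‖w‖ + 1), by positivity, fun t ht => ?_⟩
  rw [lt_div_iff₀ (by positivity)] at ht
  have h1 := H (x + t • w) (by
    rw [add_sub_cancel_left, norm_smul, Real.norm_eq_abs]
    have : 0 ≤ |t| := abs_nonneg t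
    nlinarith)
  rw [add_sub_cancel_left, real_inner_smul_right, norm_smul, Real.norm_eq_abs] at h1
  have e4 : X (t • w) (t • w) = t ^ 2 * X w w := by
    rw [map_smul, map_smul, smul_eq_mul]
    show t * (t * X w w) = _
    ring
  rw [e4] at h1
  have e5 : (|t| * ‖w‖) ^ 2 = t ^ 2 * ‖w‖ ^ 2 := by rw [mul_pow, sq_abs]
  rw [e5] at h1
  linarith

/-- the basic comparison of an upper with a lower jet -/
theorem uj_touch (h : UJ u x P X) (hw : LJ w x Q Y) (hle : ∃ r > 0, ∀ y, ‖y - x‖ < r → w y ≤ u y)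
    (hx : w x = u x) : P = Q ∧ ∀ v, Y v v ≤ X v v := by
  obtain ⟨r0, hr0, H0⟩ := hle
  have hw' : UJ (fun y => -w y) x (-Q) (-Y) := uj_neg.2 hw
  -- both in one direction
  have key : ∀ (v : E n) (ε : ℝ), 0 < ε → ∃ r > 0, ∀ t : ℝ, |t| < r →
      0 ≤ t * (⟪P, v⟫ - ⟪Q, v⟫) + t ^ 2 * (1 / 2 * (X v v - Y v v) + 2 * ε * ‖v‖ ^ 2) := by
    intro v ε hε
    obtain ⟨r1, hr1, H1⟩ := jta_dir h v hε
    obtain ⟨r2, hr2, H2⟩ := jta_dir hw' v hε
    refine ⟨min (min r1 r2) (r0 / (‖v‖ + 1)), lt_min (lt_min hr1 hr2) (by positivity),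
      fun t ht => ?_⟩
    have e1 := H1 t (ht.trans_le ((min_le_left _ _).trans (min_le_left _ _)))
    have e2 := H2 t (ht.trans_le ((min_le_left _ _).trans (min_le_right _ _)))
    have e3 := H0 (x + t • v) (by
      have h5 : |t| < r0 / (‖v‖ + 1) := ht.trans_le (min_le_right _ _)
      rw [lt_div_iff₀ (by positivity)] at h5
      rw [add_sub_cancel_left, norm_smul, Real.norm_eq_abs]
      have : 0 ≤ |t| := abs_nonneg t
      nlinarith)
    have e4 : (-Y) v v = -(Y v v) := rfl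
    rw [inner_neg_left, e4] at e2
    nlinarith
  have hin : ∀ v : E n, ⟪P, v⟫ - ⟪Q, v⟫ = 0 := by
    intro v
    obtain ⟨r, hr, H⟩ := key v 1 one_pos
    apply le_antisymm
    · have h1 : 0 ≤ -(⟪P, v⟫ - ⟪Q, v⟫) := by
        refine jta_lim hr (C := 1 / 2 * (X v v - Y v v) + 2 * 1 * ‖v‖ ^ 2) fun t ht htr => ?_
        have h2 := H (-t) (by rw [abs_neg, abs_of_pos ht]; exact htr)
        nlinarith
      linarith
    · refine jta_lim hr (C := 1 / 2 * (X v v - Y v v) + 2 * 1 * ‖v‖ ^ 2) fun t ht htr => ?_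
      exact H t (by rw [abs_of_pos ht]; exact htr)
  constructor
  · have h1 := hin (P - Q)
    rw [← inner_sub_left] at h1
    exact sub_eq_zero.1 (inner_self_eq_zero.1 h1)
  · intro v
    by_contra hcon
    push Not at hcon
    set ε := (Y v v - X v v) / (8 * (‖v‖ ^ 2 + 1)) with hεd
    have hε : 0 < ε := div_pos (by linarith) (by positivity)
    obtain ⟨r, hr, H⟩ := key v ε hε
    have h1 := H (r / 2) (by rw [abs_of_pos (by positivity)]; linarith)
    rw [hin v, mul_zero, zero_add] at h1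
    have h2 : 0 ≤ 1 / 2 * (X v v - Y v v) + 2 * ε * ‖v‖ ^ 2 := by
      by_contra h3
      push Not at h3
      have : 0 < (r / 2) ^ 2 := by positivity
      nlinarith
    have h3 : 2 * ε * ‖v‖ ^ 2 ≤ (Y v v - X v v) / 4 := by
      rw [hεd]
      have h4 : 2 * ((Y v v - X v v) / (8 * (‖v‖ ^ 2 + 1))) * ‖v‖ ^ 2 =
          (Y v v - X v v) / 4 * (‖v‖ ^ 2 / (‖v‖ ^ 2 + 1)) := by
        field_simp
        ring
      rw [h4]
      have h5 : ‖v‖ ^ 2 / (‖v‖ ^ 2 + 1) ≤ 1 := by
        rw [div_le_one (by positivity)]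
        linarith
      have h6 : 0 ≤ (Y v v - X v v) / 4 := by linarith
      nlinarith
    linarith

/-- Two sided version: a function with a lower expansion below `u` and an upper jet. -/
theorem uj_lj (h : UJ u x P X) (h' : LJ u x Q Y) : P = Q ∧ ∀ v, Y v v ≤ X v v :=
  uj_touch h h' ⟨1, one_pos, fun _ _ => le_refl _⟩ rfl

theorem uj_zero (hu : ∀ y, 0 ≤ u y) (hx : u x = 0) (h : UJ u x P X) : P = 0 ∧ ∀ v, 0 ≤ X v v := by
  have h0 : LJ (fun _ : E n => (0 : ℝ)) x 0 0 := by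
    intro ε hε
    refine ⟨1, one_pos, fun y _ => ?_⟩
    have e : (0 : Bil n) (y - x) (y - x) = 0 := rfl
    rw [inner_zero_left, e]
    have : 0 ≤ ε * ‖y - x‖ ^ 2 := by positivity
    linarith
  have h1 := uj_touch h h0 ⟨1, one_pos, fun y _ => hu y⟩ hx.symm
  exact ⟨h1.1, fun v => h1.2 v⟩

theorem uj_inv {e : E n} (hu : ∀ t : ℝ, u (x + t • e) = u x) (h : UJ u x P X) :
    ⟪P, e⟫ = 0 ∧ 0 ≤ X e e := by
  have key : ∀ ε : ℝ, 0 < ε → ∃ r > 0, ∀ t : ℝ, |t| < r →
      0 ≤ t * ⟪P, e⟫ + t ^ 2 * (1 / 2 * X e e + ε * ‖e‖ ^ 2) := by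
    intro ε hε
    obtain ⟨r, hr, H⟩ := jta_dir h e hε
    refine ⟨r, hr, fun t ht => ?_⟩
    have h1 := H t ht
    rw [hu] at h1
    linarith
  have hin : ⟪P, e⟫ = 0 := by
    obtain ⟨r, hr, H⟩ := key 1 one_pos
    apply le_antisymm
    · have h1 : 0 ≤ -⟪P, e⟫ := by
        refine jta_lim hr (C := 1 / 2 * X e e + 1 * ‖e‖ ^ 2) fun t ht htr => ?_
        have h2 := H (-t) (by rw [abs_neg, abs_of_pos ht]; exact htr)
        nlinarith
      linarith
    · refine jta_lim hr (C := 1 / 2 * X e e + 1 * ‖e‖ ^ 2) fun t ht htr => ?_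
      exact H t (by rw [abs_of_pos ht]; exact htr)
  refine ⟨hin, ?_⟩
  by_contra hcon
  push Not at hcon
  set ε := -X e e / (4 * (‖e‖ ^ 2 + 1)) with hεd
  have hε : 0 < ε := div_pos (by linarith) (by positivity)
  obtain ⟨r, hr, H⟩ := key ε hε
  have h1 := H (r / 2) (by rw [abs_of_pos (by positivity)]; linarith)
  rw [hin, mul_zero, zero_add] at h1
  have h2 : 0 ≤ 1 / 2 * X e e + ε * ‖e‖ ^ 2 := by
    by_contra h3
    push Not at h3
    have : 0 < (r / 2) ^ 2 := by positivity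
    nlinarith
  have h3 : ε * ‖e‖ ^ 2 ≤ -X e e / 4 := by
    rw [hεd]
    have h4 : -X e e / (4 * (‖e‖ ^ 2 + 1)) * ‖e‖ ^ 2 =
        -X e e / 4 * (‖e‖ ^ 2 / (‖e‖ ^ 2 + 1)) := by
      field_simp
    rw [h4]
    have h5 : ‖e‖ ^ 2 / (‖e‖ ^ 2 + 1) ≤ 1 := by
      rw [div_le_one (by positivity)]
      linarith
    have h6 : 0 ≤ -X e e / 4 := by linarith
    nlinarith
  linarith

end Pool.Agent.TWC
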