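import Pool.Agent.TWC.SUML
import Pool.Agent.TWC.JTA

/-!
# TWC C1: comparison of a subsolution with the exact family `M(τ) ψ(x - σ(τ) e)`

`u` subsolution, `ψ ≥ 0` continuous supersolution, both with drift `b = c e` and the same `κ`;
`M' = κ M (1 - M^(p-2))`, `σ' = -c (1 - M^(p-2))`, `M > 0`.
Claim: `u x ≤ M τ ψ(x - σ τ e) + η e^(lam τ)` on the compact set `K` (`lam > κ`, `η ≥ 0`).

Proof. Let `F(x,τ) = e^(-lam τ) (u x - M τ ψ(x - σ τ e))`, usc on `K`. Suppose `m0 = max F > η`.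
Let `A = {z ∈ K : F z ≥ (m0+η)/2}`: compact, nonempty; for `z = (x,τ) ∈ A`:
`u x - M ψ(x - σ e) ≥ e^(lam τ) (m0+η)/2 > η` (`τ ≥ 0`), a violation; so `x ∈ O₁`,
`x - σ τ e ∈ O₂`. By compactness of the image of `A` under `(x,τ) ↦ x - σ τ e` (`σ` continuous on
`[0,∞)`), there is `ρ ∈ (0,1)` with `ball (x - σ τ e) ρ ⊆ O₂` for all `(x,τ) ∈ A`.
For `δ > 0` maximise on the compact set `{(x,y,τ) : (x,τ) ∈ K, |x - σ τ e - y| ≤ 1}`
  `Ψ = e^(-lam τ) (u x - M τ ψ y) - |x - y - σ τ e|^2/(2δ)`.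
`max Ψ ≥ m0`. At a maximum point `(x,y,τ)`: `|x-y-σe|^2/(2δ) ≤ C` (`u` bounded above on the compact
projection, `M ψ ≥ 0`), so `|x-y-σe| ≤ sqrt(2Cδ)`; by uniform continuity of `ψ` on compact sets
`F(x,τ) ≥ m0 - o(1)` as `δ → 0`, so `(x,τ) ∈ A` for small `δ`, `y ∈ O₂`, `|x-y-σe| < 1`, and `(x,τ)`
has a full past neighbourhood in `K` (in particular `τ > 0` since `K ⊆ {τ ≥ 0}`). Fix such `δ`. Put
`d = x - y - σ τ e`, `P = (e^(lam τ)/δ) d`, `μ = u x - M τ ψ y ≥ e^(lam τ) m0 > 0`.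
(time) `t ↦ Ψ(x,y,t)` is differentiable at `τ` (`τ > 0`) and `≤ Ψ(x,y,τ)` for `t` in a left
neighbourhood, so its derivative at `τ` is `≥ 0`:
  `-lam e^(-lam τ) μ - e^(-lam τ) M' ψ y + σ' <d,e>/δ ≥ 0`, i.e. `-lam μ - M' ψ y + σ' <P,e> ≥ 0`.
(space) at fixed `τ`, `(x',y') ↦ u x' - M ψ y' - e^(lam τ)|x'-y'-σe|^2/(2δ)` has a local max at
`(x,y)`: with `w = -M ψ`, this is the majorant inequality of `sumL` with gradients `P`, `Q = -P` and
`B ((a,b),(a',b')) = (e^(lam τ)/δ) <a-b, a'-b'>`.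
`w` satisfies `VS p (M^(-(p-1))) (fun r Q => M^(-1) (<ce,Q> + κ r)) O₂ w`: if `UJ w y Q Y` then
`LJ ψ y (-Q/M) (-Y/M)`, `pA(-Q/M,-Y/M) = -M^(-(p-1)) pA(Q,Y)`, and `Sp` for `ψ`.
Case `P ≠ 0`: `X, Y` with `X a a + Y a a ≤ 0`, so `pA p P X + pA p Q Y ≤ 0` (`pA_neg`), and
`pA P X ≥ -(<ce,P> + κ u x)`, `pA Q Y ≥ -M^(p-2)(<ce,Q> + κ w)`. Add:
`0 ≥ -<ce,P> - κ u x + M^(p-2) <ce,P> + κ M^(p-1) ψ`, i.e. (with `M', σ'`)
`κ μ + M' ψ y - σ' <P,e> ≥ 0`. Adding (time): `(κ - lam) μ ≥ 0`, a contradiction.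
Case `P = 0`: `sumL0` gives `0 ≤ M^(-1) κ w = -κ ψ y`, so `κ ψ y = 0` and `M' ψ y = 0`; (time) gives
`-lam μ ≥ 0`, a contradiction (`lam > κ ≥ 0`).
-/

open Set Metric Filter Topology
open scoped RealInnerProductSpace

noncomputable section

namespace Pool.Agent.TWC

variable {n : ℕ} {p : ℝ} {κ : ℝ}

private theorem C151_usc_sub {α : Type*} [TopologicalSpace α] {u B : α → ℝ} {K : Set α}
    (hu : UpperSemicontinuousOn u K) (hB : ContinuousOn B K) :
    UpperSemicontinuousOn (fun x => u x - B x) K := by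
  intro x hx y hy
  have hd : u x + (y - (u x - B x)) / 2 > u x := by linarith [show u x - B x < y from hy]
  have hd2 : B x - (y - (u x - B x)) / 2 < B x := by linarith [show u x - B x < y from hy]
  filter_upwards [hu x hx _ hd, (hB x hx).eventually_const_lt hd2] with z h1 h2
  show u z - B z < y
  linarith

private theorem C151_usc_mul {α : Type*} [TopologicalSpace α] {K : Set α} {g w : α → ℝ}
    (hg : Continuous g) (hg0 : ∀ x, 0 < g x) (hw : UpperSemicontinuousOn w K) :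
    UpperSemicontinuousOn (fun x => g x * w x) K := by
  intro x hx y hy
  have h0 : w x < y / g x := by rw [lt_div_iff₀ (hg0 x)]; rw [mul_comm]; exact hy
  obtain ⟨a, ha1, ha2⟩ := exists_between h0
  have h1 : g x * a < y := by rw [lt_div_iff₀ (hg0 x)] at ha2; linarith
  have h2 : ∀ᶠ z in 𝓝[K] x, g z * a < y :=
    ((hg.mul continuous_const).tendsto x).mono_left nhdsWithin_le_nhds |>.eventually_lt_const h1
  filter_upwards [hw x hx a ha1, h2] with z h3 h4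
  exact (mul_lt_mul_of_pos_left h3 (hg0 z)).trans h4

private theorem C151_nonneg {g : ℝ → ℝ} {τ a : ℝ} (hg : HasDerivAt g a τ)
    (h : ∀ᶠ t in 𝓝[<] τ, g t ≤ g τ) : 0 ≤ a := by
  by_contra hcon
  push Not at hcon
  have h1 := (hasDerivAt_iff_tendsto_slope.1 hg).eventually_lt_const hcon
  have h2 : ∀ᶠ t in 𝓝[<] τ, slope g τ t < 0 :=
    h1.filter_mono (nhdsWithin_mono _ (fun t ht => ne_of_lt ht))
  obtain ⟨t, h3, h4, h5⟩ := (h.and (h2.and self_mem_nhdsWithin)).exists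
  have h6 : t - τ < 0 := sub_neg.2 h5
  rw [slope_def_field, div_neg_iff] at h4
  rcases h4 with ⟨h7, h8⟩ | ⟨h7, h8⟩
  · linarith
  · linarith

private theorem C151_local (hp : 2 < p) (hκ : 0 ≤ κ) {lam : ℝ} (hlam : κ < lam) {e : E n} {c : ℝ}
    {u ψ : E n → ℝ} (hu : UpperSemicontinuous u) {O₁ O₂ : Set (E n)} (hO₁ : IsOpen O₁)
    (hO₂ : IsOpen O₂) (hS : Sb p (c • e) κ O₁ u) (hψ : Sup p (c • e) κ O₂ ψ) {M σ : ℝ → ℝ}
    {τ : ℝ} (hMτ : 0 < M τ) (hM' : HasDerivAt M (κ * M τ * (1 - M τ ^ (p - 2))) τ)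
    (hσ' : HasDerivAt σ (-c * (1 - M τ ^ (p - 2))) τ)
    {x y : E n} (hx : x ∈ O₁) (hy : y ∈ O₂) {δ : ℝ} (hδ : 0 < δ)
    (hμ : 0 < u x - M τ * ψ y)
    (htime : ∀ᶠ t in 𝓝[<] τ, Real.exp (-(lam * t)) * (u x - M t * ψ y) -
        ‖x - y - σ t • e‖ ^ 2 / (2 * δ) ≤
      Real.exp (-(lam * τ)) * (u x - M τ * ψ y) - ‖x - y - σ τ • e‖ ^ 2 / (2 * δ))
    (hspace : ∃ r > 0, ∀ x' y', ‖x' - x‖ < r → ‖y' - y‖ < r →
      Real.exp (-(lam * τ)) * (u x' - M τ * ψ y') - ‖x' - y' - σ τ • e‖ ^ 2 / (2 * δ) ≤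
      Real.exp (-(lam * τ)) * (u x - M τ * ψ y) - ‖x - y - σ τ • e‖ ^ 2 / (2 * δ)) : False := by
  set d := x - y - σ τ • e with hd
  set Ex := Real.exp (lam * τ) with hEx
  have hEx0 : 0 < Ex := Real.exp_pos _
  have hEn : Real.exp (-(lam * τ)) = Ex⁻¹ := Real.exp_neg _
  set P : E n := (Ex / δ) • d with hP
  set μ := u x - M τ * ψ y with hμd
  set m := M τ with hm
  set A := m ^ (p - 2) with hA
  have hA0 : 0 < A := Real.rpow_pos_of_pos hMτ _
  -- time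
  have hg : HasDerivAt (fun t => Real.exp (-(lam * t)) * (u x - M t * ψ y) -
      ‖x - y - σ t • e‖ ^ 2 / (2 * δ))
      (Real.exp (-(lam * τ)) * (-lam) * μ + Real.exp (-(lam * τ)) *
        (-(κ * m * (1 - A) * ψ y)) - (2 * ⟪d, -((-c * (1 - A)) • e)⟫) / (2 * δ)) τ := by
    have h1 : HasDerivAt (fun t : ℝ => Real.exp (-(lam * t))) (Real.exp (-(lam * τ)) * (-lam)) τ := by
      have h2 : HasDerivAt (fun t : ℝ => -(lam * t)) (-lam) τ := by
        have := ((hasDerivAt_id τ).const_mul lam).neg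
        exact this.congr_deriv (by rw [mul_one])
      exact h2.exp
    have h2 : HasDerivAt (fun t => u x - M t * ψ y) (-(κ * m * (1 - A) * ψ y)) τ :=
      (hM'.mul_const (ψ y)).const_sub (u x)
    have h3 : HasDerivAt (fun t => x - y - σ t • e) (-((-c * (1 - A)) • e)) τ :=
      (hσ'.smul_const e).const_sub (x - y)
    have h4 := (h3.norm_sq).div_const (2 * δ)
    exact (h1.mul h2).sub h4
  have ht := C151_nonneg hg htime
  have ht' : 0 ≤ -(lam * μ) - κ * m * (1 - A) * ψ y - c * (1 - A) * ⟪P, e⟫ := by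
    have h1 : Ex * (Real.exp (-(lam * τ)) * (-lam) * μ + Real.exp (-(lam * τ)) *
        (-(κ * m * (1 - A) * ψ y)) - (2 * ⟪d, -((-c * (1 - A)) • e)⟫) / (2 * δ)) =
        -(lam * μ) - κ * m * (1 - A) * ψ y - c * (1 - A) * ⟪P, e⟫ := by
      rw [hEn, hP, inner_neg_right, real_inner_smul_right, real_inner_smul_left]
      field_simp
      ring
    rw [← h1]
    exact mul_nonneg hEx0.le ht
  -- space
  set w : E n → ℝ := fun z => -(m * ψ z) with hw
  set B : (E n × E n) →L[ℝ] (E n × E n) →L[ℝ] ℝ :=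
    (Ex / δ) • ((innerSL ℝ : E n →L[ℝ] E n →L[ℝ] ℝ).bilinearComp
      (ContinuousLinearMap.fst ℝ (E n) (E n) - ContinuousLinearMap.snd ℝ (E n) (E n))
      (ContinuousLinearMap.fst ℝ (E n) (E n) - ContinuousLinearMap.snd ℝ (E n) (E n))) with hB
  have hBab : ∀ a b : E n, B (a, b) (a, b) = (Ex / δ) * ‖a - b‖ ^ 2 := by
    intro a b
    rw [← real_inner_self_eq_norm_sq]
    rfl
  have hmaj : ∃ r > 0, ∀ x' y', ‖x' - x‖ < r → ‖y' - y‖ < r →
      u x' + w y' ≤ u x + w y + ⟪P, x' - x⟫ + ⟪-P, y' - y⟫ +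
        1 / 2 * B (x' - x, y' - y) (x' - x, y' - y) := by
    obtain ⟨r, hr, h⟩ := hspace
    refine ⟨r, hr, fun x' y' hx' hy' => ?_⟩
    have h1 := mul_le_mul_of_nonneg_left (h x' y' hx' hy') hEx0.le
    have h2 : x' - y' - σ τ • e = d + ((x' - x) - (y' - y)) := by
      rw [hd]
      abel
    rw [h2, norm_add_sq_real] at h1
    rw [hBab, hP, inner_neg_left, real_inner_smul_left, real_inner_smul_left]
    rw [inner_sub_right] at h1
    set a := x' - x with ha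
    set b := y' - y with hb
    have e1 : Ex * (Real.exp (-(lam * τ)) * (u x' - m * ψ y') -
        (‖d‖ ^ 2 + 2 * (⟪d, a⟫ - ⟪d, b⟫) + ‖a - b‖ ^ 2) / (2 * δ)) =
        (u x' - m * ψ y') - Ex / δ * (‖d‖ ^ 2 / 2 + (⟪d, a⟫ - ⟪d, b⟫) + ‖a - b‖ ^ 2 / 2) := by
      rw [hEn]
      field_simp
    have e2 : Ex * (Real.exp (-(lam * τ)) * μ - ‖d‖ ^ 2 / (2 * δ)) =
        μ - Ex / δ * (‖d‖ ^ 2 / 2) := by
      rw [hEn]
      field_simp
    rw [e1, e2, hμd] at h1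
    simp only [hw]
    linarith
  have hmaj' : ∀ ε > 0, ∃ r > 0, ∀ x' y', ‖x' - x‖ < r → ‖y' - y‖ < r →
      u x' + w y' ≤ u x + w y + ⟪P, x' - x⟫ + ⟪-P, y' - y⟫ +
        1 / 2 * B (x' - x, y' - y) (x' - x, y' - y) + ε * (‖x' - x‖ ^ 2 + ‖y' - y‖ ^ 2) := by
    intro ε hε
    obtain ⟨r, hr, h⟩ := hmaj
    refine ⟨r, hr, fun x' y' hx' hy' => (h x' y' hx' hy').trans ?_⟩
    have : 0 ≤ ε * (‖x' - x‖ ^ 2 + ‖y' - y‖ ^ 2) := by positivity
    linarith
  have hV1 : VS p (fun _ => 1) (fun r Q => ⟪c • e, Q⟫ + κ * r) O₁ u := by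
    intro z hz Q Y hU
    have := hS z hz Q Y hU
    simp only [one_mul]
    linarith
  have hmi : 0 < m⁻¹ := inv_pos.2 hMτ
  have hV2 : VS p (fun _ => m⁻¹ * m⁻¹ ^ (p - 2)) (fun r Q => m⁻¹ * (⟪c • e, Q⟫ + κ * r)) O₂ w := by
    intro z hz Q Y hU
    have h1 := uj_smul hmi hU
    have h2 : (fun z => m⁻¹ * w z) = fun z => -ψ z := by
      funext z
      simp only [hw]
      field_simp
    rw [h2] at h1
    have h3 : LJ ψ z (-(m⁻¹ • Q)) (-(m⁻¹ • Y)) := by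
      rw [← uj_neg]
      have e1 : -(-(m⁻¹ • Q)) = m⁻¹ • Q := neg_neg _
      have e2 : -(-(m⁻¹ • Y)) = m⁻¹ • Y :=
        ContinuousLinearMap.ext fun v => ContinuousLinearMap.ext fun w => neg_neg (m⁻¹ * Y v w)
      rw [e1, e2]
      exact h1
    have h4 := hψ.sp z hz _ _ h3
    rw [pA_neg, pA_form_neg, pA_form_smul, pA_scale hp hmi, inner_neg_right,
      real_inner_smul_right] at h4
    have h5 : ψ z = -(m⁻¹ * w z) := by
      simp only [hw]
      field_simp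
    rw [h5] at h4
    simp only
    linarith
  have hu1 : UpperSemicontinuousOn u (closedBall x 1) := hu.upperSemicontinuousOn _
  have hw1 : UpperSemicontinuousOn w (closedBall y 1) := by
    have : Continuous w := (continuous_const.mul hψ.cont).neg
    exact this.upperSemicontinuous.upperSemicontinuousOn _
  have hα : 0 < m⁻¹ * m⁻¹ ^ (p - 2) := mul_pos hmi (Real.rpow_pos_of_pos hmi _)
  have hwy : w y = -(m * ψ y) := rfl
  have hψy := hψ.nn y
  by_cases hP0 : P = 0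
  · have h1 := sumL0 hp (P := P) (B := B) hu1 hw1 (by
      intro ε hε
      obtain ⟨r, hr, h⟩ := hmaj' ε hε
      refine ⟨r, hr, fun x' y' hx' hy' => ?_⟩
      have h2 := h x' y' hx' hy'
      rw [hP0, neg_zero, inner_zero_left, inner_zero_left] at h2
      rw [hP0, inner_zero_left]
      linarith) (hO₂.mem_nhds hy) hV2 continuousAt_const hα (by fun_prop)
    simp only [inner_zero_right, zero_add] at h1
    have h2 : 0 ≤ κ * w y := (mul_nonneg_iff_of_pos_left hmi).1 h1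
    rw [hwy] at h2
    have h3 : 0 ≤ m * (κ * ψ y) := by positivity
    have h4 : κ * (m * ψ y) = 0 := by linarith
    rw [hP0, inner_zero_left] at ht'
    have h5 : κ * m * (1 - A) * ψ y = (κ * (m * ψ y)) * (1 - A) := by ring
    rw [h5, h4] at ht'
    have h6 : 0 < lam * μ := mul_pos (lt_of_le_of_lt hκ hlam) hμ
    linarith
  · obtain ⟨X, Y, hXs, hYs, hXY, h1, h2⟩ := sumL hp (P := P) (Q := -P) (B := B) hu1 hw1 hmaj'
      (hO₁.mem_nhds hx) (hO₂.mem_nhds hy) hV1 hV2 continuousAt_const continuousAt_const one_pos hα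
      (by fun_prop) (by fun_prop) hP0 (neg_ne_zero.2 hP0)
    have h3 : pA p P X + pA p P Y ≤ (n + p - 2) * ‖P‖ ^ (p - 2) * 0 := by
      apply pA_sum_le hp
      intro v
      have := hXY v v
      rw [hBab, sub_self, norm_zero] at this
      linarith
    rw [mul_zero] at h3
    rw [pA_neg, inner_neg_right, hwy] at h2
    simp only [one_mul] at h1
    have hmA : m * A * (m⁻¹ * m⁻¹ ^ (p - 2)) = 1 := by
      rw [Real.inv_rpow hMτ.le, ← hA]
      field_simp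
    have h4 : 0 ≤ pA p P Y + A * (-⟪c • e, P⟫ + κ * -(m * ψ y)) := by
      have h5 := mul_nonneg (mul_nonneg hMτ.le hA0.le) h2
      have h6 : m * A * (m⁻¹ * m⁻¹ ^ (p - 2) * pA p P Y +
          m⁻¹ * (-⟪c • e, P⟫ + κ * -(m * ψ y))) =
          (m * A * (m⁻¹ * m⁻¹ ^ (p - 2))) * pA p P Y +
          (m * m⁻¹) * (A * (-⟪c • e, P⟫ + κ * -(m * ψ y))) := by ring
      rw [h6, hmA, mul_inv_cancel₀ hMτ.ne', one_mul, one_mul] at h5
      exact h5
    have h7 : (⟪c • e, P⟫ : ℝ) = c * ⟪P, e⟫ := by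
      rw [real_inner_smul_left, real_inner_comm]
    rw [h7] at h1 h4
    have h8 : u x = μ + m * ψ y := by
      rw [hμd]
      ring
    rw [h8] at h1
    have h9 : 0 < (lam - κ) * μ := mul_pos (by linarith) hμ
    nlinarith

theorem c1 (hp : 2 < p) (hκ : 0 ≤ κ) {lam : ℝ} (hlam : κ < lam) {e : E n} {c : ℝ} {u ψ : E n → ℝ}
    (hu : UpperSemicontinuous u) {O₁ O₂ : Set (E n)} (hO₁ : IsOpen O₁) (hO₂ : IsOpen O₂)
    (hS : Sb p (c • e) κ O₁ u) (hψ : Sup p (c • e) κ O₂ ψ) {M σ : ℝ → ℝ}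
    (hM : ∀ τ, 0 ≤ τ → 0 < M τ) (hMc : ContinuousOn M (Ici 0)) (hσc : ContinuousOn σ (Ici 0))
    (hM' : ∀ τ, 0 < τ → HasDerivAt M (κ * M τ * (1 - M τ ^ (p - 2))) τ)
    (hσ' : ∀ τ, 0 < τ → HasDerivAt σ (-c * (1 - M τ ^ (p - 2))) τ)
    {K : Set (E n × ℝ)} (hK : IsCompact K) (hK0 : ∀ z ∈ K, 0 ≤ z.2) {η : ℝ} (hη : 0 ≤ η)
    (h : ∀ x τ, (x, τ) ∈ K → M τ * ψ (x - σ τ • e) + η < u x →
      x ∈ O₁ ∧ x - σ τ • e ∈ O₂ ∧ ∃ r > 0, ∀ y t, ‖y - x‖ < r → τ - r < t → t ≤ τ → (y, t) ∈ K) :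
    ∀ x τ, (x, τ) ∈ K → u x ≤ M τ * ψ (x - σ τ • e) + η * Real.exp (lam * τ) := by
  intro xs τs hxs
  by_contra hcon
  push Not at hcon
  have hlam0 : 0 < lam := lt_of_le_of_lt hκ hlam
  -- the point of violation
  set m1 := Real.exp (-(lam * τs)) * (u xs - M τs * ψ (xs - σ τs • e)) with hm1
  have hm1η : η < m1 := by
    have h1 : η * Real.exp (lam * τs) < u xs - M τs * ψ (xs - σ τs • e) := by linarith
    have h2 := mul_lt_mul_of_pos_left h1 (Real.exp_pos (-(lam * τs)))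
    have h3 : Real.exp (-(lam * τs)) * (η * Real.exp (lam * τs)) = η := by
      rw [mul_left_comm, ← Real.exp_add]
      simp
    rw [h3] at h2
    exact h2
  set D : Set ((E n × ℝ) × E n) := K ×ˢ closedBall 0 1 with hD
  have hDc : IsCompact D := hK.prod (isCompact_closedBall _ _)
  have hD0 : ∀ z ∈ D, z.1.2 ∈ Ici (0 : ℝ) := fun z hz => hK0 z.1 hz.1
  have hMD : ContinuousOn (fun z : (E n × ℝ) × E n => M z.1.2) D :=
    hMc.comp (by fun_prop) hD0
  have hσD : ContinuousOn (fun z : (E n × ℝ) × E n => σ z.1.2) D :=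
    hσc.comp (by fun_prop) hD0
  have hyD' : ContinuousOn (fun z : (E n × ℝ) × E n => z.1.1 - σ z.1.2 • e) D :=
    (by fun_prop : Continuous (fun z : (E n × ℝ) × E n => z.1.1)).continuousOn.sub
      (hσD.smul continuousOn_const)
  have hyD : ContinuousOn (fun z : (E n × ℝ) × E n => z.1.1 - σ z.1.2 • e - z.2) D :=
    hyD'.sub continuousOn_snd
  have hψD : ContinuousOn (fun z : (E n × ℝ) × E n => ψ (z.1.1 - σ z.1.2 • e - z.2)) D :=
    hψ.cont.comp_continuousOn hyD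
  have hψD' : ContinuousOn (fun z : (E n × ℝ) × E n => ψ (z.1.1 - σ z.1.2 • e)) D :=
    hψ.cont.comp_continuousOn hyD'
  set H : (E n × ℝ) × E n → ℝ := fun z =>
    Real.exp (-(lam * z.1.2)) * (u z.1.1 - M z.1.2 * ψ (z.1.1 - σ z.1.2 • e - z.2)) with hH
  have hHusc : UpperSemicontinuousOn H D := by
    refine C151_usc_mul (by fun_prop) (fun z => Real.exp_pos _) (C151_usc_sub ?_ (hMD.mul hψD))
    exact (hu.comp (by fun_prop : Continuous (fun z : (E n × ℝ) × E n => z.1.1))).upperSemicontinuousOn _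
  have hs0 : ((xs, τs), (0 : E n)) ∈ D := ⟨hxs, mem_closedBall_self zero_le_one⟩
  have hHs : H ((xs, τs), 0) = m1 := by
    simp only [hH, hm1, sub_zero]
  obtain ⟨zm, hzm, hHmax⟩ := hHusc.exists_isMaxOn ⟨_, hs0⟩ hDc
  set C := H zm with hC
  have hHC : ∀ z ∈ D, H z ≤ C := fun z hz => hHmax hz
  have hmax : ∀ k : ℕ, ∃ z ∈ D, ∀ z' ∈ D, H z' - ((k : ℝ) + 1) * (‖z'.2‖ ^ 2 / 2) ≤
      H z - ((k : ℝ) + 1) * (‖z.2‖ ^ 2 / 2) := by
    intro k
    have h1 : UpperSemicontinuousOn (fun z : (E n × ℝ) × E n =>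
        H z - ((k : ℝ) + 1) * (‖z.2‖ ^ 2 / 2)) D := C151_usc_sub hHusc (by fun_prop)
    obtain ⟨z, hz, h2⟩ := h1.exists_isMaxOn ⟨_, hs0⟩ hDc
    exact ⟨z, hz, fun z' hz' => h2 hz'⟩
  choose z hzD hzmax using hmax
  have hzm1 : ∀ k, m1 ≤ H (z k) - ((k : ℝ) + 1) * (‖(z k).2‖ ^ 2 / 2) := by
    intro k
    have := hzmax k _ hs0
    rw [hHs] at this
    simpa using this
  have hzm1' : ∀ k, m1 ≤ H (z k) := by
    intro k
    have h1 := hzm1 k
    have h2 : 0 ≤ ((k : ℝ) + 1) * (‖(z k).2‖ ^ 2 / 2) := by positivity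
    linarith
  obtain ⟨a, haD, φ, hφ, hlim⟩ := hDc.tendsto_subseq hzD
  have hlimD : Tendsto (z ∘ φ) atTop (𝓝[D] a) :=
    tendsto_nhdsWithin_iff.2 ⟨hlim, Eventually.of_forall fun k => hzD _⟩
  have ha2 : a.2 = 0 := by
    have h1 : Tendsto (fun k => ‖(z (φ k)).2‖ ^ 2) atTop (𝓝 (‖a.2‖ ^ 2)) :=
      (((continuous_snd.tendsto a).comp hlim).norm).pow 2
    have h2 : Tendsto (fun k : ℕ => 2 * (C - m1) * (1 / ((φ k : ℝ) + 1))) atTop (𝓝 (2 * (C - m1) * 0)) :=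
      (tendsto_one_div_add_atTop_nhds_zero_nat.comp hφ.tendsto_atTop).const_mul _
    rw [mul_zero] at h2
    have h3 : ‖a.2‖ ^ 2 ≤ 0 := by
      refine le_of_tendsto_of_tendsto' h1 h2 fun k => ?_
      have h4 := hzm1 (φ k)
      have h5 := hHC _ (hzD (φ k))
      have h6 : 0 < (φ k : ℝ) + 1 := by positivity
      rw [mul_one_div, le_div_iff₀ h6]
      linarith
    have h4 : ‖a.2‖ = 0 := by nlinarith [norm_nonneg a.2]
    exact norm_eq_zero.1 h4
  have hHa : m1 ≤ H a := by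
    by_contra hlt
    push Not at hlt
    have h1 : ∀ᶠ w in 𝓝[D] a, H w < m1 := hHusc a haD m1 hlt
    obtain ⟨k, hk⟩ := (hlimD.eventually h1).exists
    exact absurd (hzm1' (φ k)) (not_le.2 hk)
  have hviol : ∀ x τ m2, (x, τ) ∈ K → η < m2 →
      m2 ≤ Real.exp (-(lam * τ)) * (u x - M τ * ψ (x - σ τ • e)) →
      M τ * ψ (x - σ τ • e) + η < u x := by
    intro x τ m2 hxτ hm2 hle
    have hτ : 0 ≤ τ := hK0 _ hxτ
    have h1 := mul_le_mul_of_nonneg_left hle (Real.exp_pos (lam * τ)).le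
    rw [← mul_assoc, ← Real.exp_add] at h1
    simp only [add_neg_cancel, Real.exp_zero, one_mul] at h1
    have h2 : 1 ≤ Real.exp (lam * τ) := Real.one_le_exp (by positivity)
    have h3 : m2 ≤ Real.exp (lam * τ) * m2 := le_mul_of_one_le_left (by linarith) h2
    linarith
  have hva := hviol a.1.1 a.1.2 m1 haD.1 hm1η (by
    have h1 := hHa
    simp only [hH, ha2, sub_zero] at h1
    exact h1)
  obtain ⟨haO1, haO2, -⟩ := h a.1.1 a.1.2 haD.1 hva
  -- the difference between the two functionals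
  set G : (E n × ℝ) × E n → ℝ := fun w => Real.exp (-(lam * w.1.2)) * (M w.1.2 *
    (ψ (w.1.1 - σ w.1.2 • e - w.2) - ψ (w.1.1 - σ w.1.2 • e))) with hG
  have hGc : ContinuousOn G D := by
    have h1 : ContinuousOn (fun w : (E n × ℝ) × E n => Real.exp (-(lam * w.1.2))) D := by fun_prop
    exact h1.mul (hMD.mul (hψD.sub hψD'))
  have hGa : G a = 0 := by
    simp only [hG, ha2, sub_zero, sub_self, mul_zero]
  have e1 : ∀ᶠ k in atTop, -((m1 - η) / 2) < G (z (φ k)) := by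
    have h1 : Tendsto (fun k => G (z (φ k))) atTop (𝓝 (G a)) := (hGc a haD).tendsto.comp hlimD
    rw [hGa] at h1
    exact h1.eventually_const_lt (by linarith)
  have e2 : ∀ᶠ k in atTop, (z (φ k)).1.1 - σ (z (φ k)).1.2 • e - (z (φ k)).2 ∈ O₂ := by
    have h1 : Tendsto (fun k => (z (φ k)).1.1 - σ (z (φ k)).1.2 • e - (z (φ k)).2) atTop
        (𝓝 (a.1.1 - σ a.1.2 • e - a.2)) := (hyD a haD).tendsto.comp hlimD
    rw [ha2, sub_zero] at h1
    exact h1.eventually (hO₂.mem_nhds haO2)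
  have e3 : ∀ᶠ k in atTop, ‖(z (φ k)).2‖ < 1 := by
    have h1 : Tendsto (fun k => ‖(z (φ k)).2‖) atTop (𝓝 ‖a.2‖) :=
      ((continuous_snd.tendsto a).comp hlim).norm
    rw [ha2, norm_zero] at h1
    exact h1.eventually_lt_const one_pos
  obtain ⟨k, hk1, hk2, hk3⟩ := (e1.and (e2.and e3)).exists
  set j := φ k with hj
  rcases hzj : z j with ⟨⟨x, τ⟩, d⟩
  rw [hzj] at hk1 hk2 hk3
  simp only at hk2 hk3
  have hzDj := hzD j
  rw [hzj] at hzDj
  have hxτ : (x, τ) ∈ K := hzDj.1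
  have hmaxj := hzmax j
  rw [hzj] at hmaxj
  have hHj := hzm1' j
  rw [hzj] at hHj
  have hv : M τ * ψ (x - σ τ • e) + η < u x := by
    apply hviol x τ ((m1 + η) / 2) hxτ (by linarith)
    have h1 : Real.exp (-(lam * τ)) * (u x - M τ * ψ (x - σ τ • e)) =
        H ((x, τ), d) + G ((x, τ), d) := by
      simp only [hH, hG]
      ring
    rw [h1]
    linarith
  obtain ⟨hxO1, -, r, hr, hKr⟩ := h x τ hxτ hv
  set y := x - σ τ • e - d with hy
  have hτ0 : 0 < τ := by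
    have h1 := hKr x (τ - r / 2) (by simpa using hr) (by linarith) (by linarith)
    have h2 : 0 ≤ τ - r / 2 := hK0 _ h1
    linarith
  have hdy : d = x - y - σ τ • e := by
    rw [hy]
    abel
  have hj1 : 0 < (j : ℝ) + 1 := by positivity
  have hδ : 0 < 1 / ((j : ℝ) + 1) := by positivity
  have hval : ∀ q : ℝ, ((j : ℝ) + 1) * (q / 2) = q / (2 * (1 / ((j : ℝ) + 1))) := by
    intro q
    field_simp
  have hσ1 := hσ' τ hτ0
  refine C151_local hp hκ hlam hu hO₁ hO₂ hS hψ (hM τ hτ0.le) (hM' τ hτ0) hσ1 hxO1 hk2 hδ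
    ?_ ?_ ?_
  · have h1 : 0 < H ((x, τ), d) := lt_of_lt_of_le (lt_of_le_of_lt hη hm1η) hHj
    simp only [hH] at h1
    exact (mul_pos_iff_of_pos_left (Real.exp_pos _)).1 h1
  · have h1 : ∀ᶠ t in 𝓝[<] τ, ‖x - y - σ t • e‖ < 1 := by
      have h2 : Tendsto (fun t => ‖x - y - σ t • e‖) (𝓝[<] τ) (𝓝 ‖x - y - σ τ • e‖) := by
        have h3 : ContinuousAt (fun t => ‖x - y - σ t • e‖) τ :=
          (continuousAt_const.sub (hσ1.continuousAt.smul continuousAt_const)).norm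
        exact h3.tendsto.mono_left nhdsWithin_le_nhds
      rw [← hdy] at h2
      exact h2.eventually_lt_const hk3
    have h4 : ∀ᶠ t in 𝓝[<] τ, τ - r < t :=
      nhdsWithin_le_nhds (lt_mem_nhds (by linarith))
    filter_upwards [h1, h4, self_mem_nhdsWithin] with t ht1 ht2 ht3
    have h5 : (x, t) ∈ K := hKr x t (by simpa using hr) ht2 (le_of_lt ht3)
    have h6 := hmaxj ((x, t), x - y - σ t • e) ⟨h5, by simpa using ht1.le⟩
    simp only [hH] at h6
    rw [hval, hval] at h6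
    have h7 : x - σ t • e - (x - y - σ t • e) = y := by abel
    rw [h7, ← hy] at h6
    rw [← hdy]
    exact h6
  · refine ⟨min r ((1 - ‖d‖) / 2), lt_min hr (by linarith), fun x' y' hx' hy' => ?_⟩
    have h5 : (x', τ) ∈ K := hKr x' τ (lt_of_lt_of_le hx' (min_le_left _ _)) (by linarith) le_rfl
    have h8 : ‖x' - y' - σ τ • e‖ ≤ 1 := by
      have h9 : x' - y' - σ τ • e = d + ((x' - x) - (y' - y)) := by
        rw [hdy]
        abel
      rw [h9]
      have h10 := norm_add_le d ((x' - x) - (y' - y))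
      have h11 := norm_sub_le (x' - x) (y' - y)
      have h12 := lt_of_lt_of_le hx' (min_le_right _ _)
      have h13 := lt_of_lt_of_le hy' (min_le_right _ _)
      linarith
    have h6 := hmaxj ((x', τ), x' - y' - σ τ • e) ⟨h5, by simpa using h8⟩
    simp only [hH] at h6
    rw [hval, hval] at h6
    have h7 : x' - σ τ • e - (x' - y' - σ τ • e) = y' := by abel
    rw [h7, ← hy] at h6
    rw [← hdy]
    exact h6

end Pool.Agent.TWC
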