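import Pool.Agent.TWC.PAL
import Pool.Agent.TWC.JTB
import Pool.Agent.TWC.JTA

/-!
# TWC CRN: decay at a right angled corner

`u` subsolution, `P0` a point, `ν ⊥ μ` unit vectors, `δ = <x-P0,ν>`, `s = <x-P0,μ>`, and on `ball P0 r1`:
`u x ≤ C max δ 0`, `u x ≤ C max s 0`. Then `u x = o(|x-P0|)`.

Let `f = (δ s)^(1/2)` on `Q = {δ > 0, s > 0}`. Let `k = limsup u/f` as `x → P0` in `Q` (`0 ≤ u/f ≤ C`
because `u ≤ C min(δ,s) ≤ C f`). Claim `k = 0`; then `u ≤ ε f ≤ ε |x-P0|` near `P0` (`f ≤ |x-P0|`).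
Suppose `k > 0`. Take `x_j → P0`, `ε_j → 0`, `u x_j ≥ (k - ε_j) f(x_j)`, and `u ≤ (k + ε_j) f` on
`ball P0 (2|x_j-P0|)`, hence on the balls used below. Since `u/f ≤ C (min/max)^(1/2)`, for large `j` the
coordinates `δ_j, s_j` of `x_j` satisfy `θ ≤ δ_j/s_j ≤ 1/θ` with `θ = θ(k,C) > 0`. Let `ρ = ρ_j = min(δ_j,s_j)`
and consider on `D = closedBall x_j (ρ/2) ⊆ Q`:
`w = (k + ε_j) f + (η/ρ)|x-x_j|^2`, `η > 0` small fixed. At `x_j`: `u - w ≥ -2 ε_j f(x_j) ≥ -C' ε_j ρ`; on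
`|x-x_j| = ρ/2`: `u - w ≤ -η ρ/4`. For large `j` the maximum over `D` of the usc function `u - w` is
attained at an interior point `x`, so `UJ u x P X` with `P = (k+ε_j) ∇f + (2η/ρ)(x-x_j)`,
`X = (k+ε_j) D²f + (2η/ρ) ip`.
Derivatives: `∇f = (1/2)(s/δ)^(1/2) ν + (1/2)(δ/s)^(1/2) μ`,
`D²f = -(1/4) s^(1/2) δ^(-3/2) rk ν - (1/4) δ^(1/2) s^(-3/2) rk μ + (1/4)(δ s)^(-1/2)(ν⊗μ + μ⊗ν)`.
`tr D²f = -(1/4)(s²+δ²)/(δs)^(3/2)`, `D²f(∇f,∇f) = -(1/16)(δs)^(-5/2)(s²-δ²)² ≤ 0`. On `D` all ratios are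
controlled (`ρ/2 ≤ δ, s ≤ C' ρ`), so `c' ≤ |∇f| ≤ C'`, `|D²f| ≤ C'/ρ` and
`pA p ∇f D²f ≤ |∇f|^(p-2) tr D²f ≤ -c''/ρ`. Perturbation: `|P - (k+ε)∇f| ≤ η`, `|X - (k+ε)D²f| ≤ 2η/ρ`;
with `pA_lip`, `abs_pA_le`, `pA_hom`: `pA p P X ≤ (k+ε)^(p-1)(-c''/ρ) + C η/ρ ≤ -c3/ρ` for `η` small
(fixed), `c3 > 0` independent of `j`. But `Sb` gives `0 ≤ pA p P X + <b,P> + κ u x ≤ -c3/ρ_j + C`,
impossible for large `j` (`ρ_j → 0`).
(One may scale: replace `ρ` by `1` using homogeneity, or work directly.)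
-/

open Set Metric Filter Topology
open scoped RealInnerProductSpace

noncomputable section

namespace Pool.Agent.TWC

variable {n : ℕ} {p : ℝ}

private theorem CRN51_bessel {P0 ν μ : E n} (hν : ‖ν‖ = 1) (hμ : ‖μ‖ = 1) (hνμ : ⟪ν, μ⟫ = 0)
    (z : E n) : ⟪ν, z - P0⟫ ^ 2 + ⟪μ, z - P0⟫ ^ 2 ≤ ‖z - P0‖ ^ 2 := by
  set v := z - P0 with hv
  set a : ℝ := ⟪ν, v⟫ with ha
  set b : ℝ := ⟪μ, v⟫ with hb
  have h1 : 0 ≤ ‖v - (a • ν + b • μ)‖ ^ 2 := by positivity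
  have e1 : ‖a • ν + b • μ‖ ^ 2 = a ^ 2 + b ^ 2 := by
    rw [norm_add_sq_real, norm_smul, norm_smul, hν, hμ, real_inner_smul_left,
      real_inner_smul_right, hνμ, Real.norm_eq_abs, Real.norm_eq_abs, mul_one, mul_one, sq_abs,
      sq_abs]
    ring
  rw [norm_sub_sq_real, e1, inner_add_right, real_inner_smul_right, real_inner_smul_right,
    real_inner_comm ν v, real_inner_comm μ v, ← ha, ← hb] at h1
  nlinarith

private theorem CRN51_t2 {P0 ν μ : E n} {x : E n}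
    (hx : 0 < ⟪ν, x - P0⟫ ^ 2 + ⟪μ, x - P0⟫ ^ 2) :
    T2 (fun z => 2 * (⟪ν, z - P0⟫ + ⟪μ, z - P0⟫) - √(⟪ν, z - P0⟫ ^ 2 + ⟪μ, z - P0⟫ ^ 2)) x
      ((2 : ℝ) • (ν + μ) - (√(⟪ν, x - P0⟫ ^ 2 + ⟪μ, x - P0⟫ ^ 2))⁻¹ •
        (⟪ν, x - P0⟫ • ν + ⟪μ, x - P0⟫ • μ))
      (-((√(⟪ν, x - P0⟫ ^ 2 + ⟪μ, x - P0⟫ ^ 2))⁻¹ ^ 3 •
        rk (-⟪μ, x - P0⟫ • ν + ⟪ν, x - P0⟫ • μ))) := by
  set δ : ℝ := ⟪ν, x - P0⟫ with hδ
  set s : ℝ := ⟪μ, x - P0⟫ with hs
  set r : ℝ := √(δ ^ 2 + s ^ 2) with hr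
  have hr0 : 0 < r := Real.sqrt_pos.2 hx
  have hrr : r ^ 2 = δ ^ 2 + s ^ 2 := Real.sq_sqrt hx.le
  have h1 := t2_add (t2_sq (x := x) P0 ν) (t2_sq (x := x) P0 μ)
  rw [← hδ, ← hs] at h1
  have hF : ContDiffAt ℝ 2 Real.sqrt (δ ^ 2 + s ^ 2) := Real.contDiffAt_sqrt hx.ne'
  have h2 := t2_comp (F := Real.sqrt) (u := fun z => ⟪ν, z - P0⟫ ^ 2 + ⟪μ, z - P0⟫ ^ 2)
    (x := x) hF h1
  have d1 : ∀ t : ℝ, 0 < t → deriv Real.sqrt t = 1 / (2 * √t) := fun t ht =>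
    (Real.hasDerivAt_sqrt ht.ne').deriv
  have d2 : deriv (deriv Real.sqrt) (δ ^ 2 + s ^ 2) = -(1 / (4 * r ^ 3)) := by
    have e1 : deriv Real.sqrt =ᶠ[𝓝 (δ ^ 2 + s ^ 2)] fun t => (2 * √t)⁻¹ := by
      filter_upwards [lt_mem_nhds hx] with t ht
      rw [d1 t ht, one_div]
    rw [e1.deriv_eq]
    have e2 := ((Real.hasDerivAt_sqrt hx.ne').const_mul 2).inv (by positivity)
    have e3 : HasDerivAt (fun t => (2 * √t)⁻¹) (-(2 * (1 / (2 * √(δ ^ 2 + s ^ 2)))) /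
        (2 * √(δ ^ 2 + s ^ 2)) ^ 2) (δ ^ 2 + s ^ 2) := e2
    rw [e3.deriv, ← hr]
    field_simp
    ring
  have d1' : deriv Real.sqrt (δ ^ 2 + s ^ 2) = 1 / (2 * r) := d1 _ hx
  rw [← hδ, ← hs, d1', d2] at h2
  have h3 := t2_add (t2_lin (x := x) 0 ((2 : ℝ) • (ν + μ)) P0) (t2_smul (-1) h2)
  have e1 : (fun z => (0 : ℝ) + ⟪(2 : ℝ) • (ν + μ), z - P0⟫ +
      -1 * √(⟪ν, z - P0⟫ ^ 2 + ⟪μ, z - P0⟫ ^ 2)) =
      fun z => 2 * (⟪ν, z - P0⟫ + ⟪μ, z - P0⟫) - √(⟪ν, z - P0⟫ ^ 2 + ⟪μ, z - P0⟫ ^ 2) := by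
    funext z
    rw [real_inner_smul_left, inner_add_left]
    ring
  rw [e1] at h3
  convert h3 using 1
  · have h4 : (-1 : ℝ) • (1 / (2 * r)) • ((2 * δ) • ν + (2 * s) • μ) =
        -(r⁻¹ • (δ • ν + s • μ)) := by
      have : (1 / (2 * r)) = r⁻¹ * (1 / 2) := by
        field_simp
      rw [this]
      module
    rw [h4, sub_eq_add_neg]
  · refine ContinuousLinearMap.ext fun v => ContinuousLinearMap.ext fun w => ?_
    change -(r⁻¹ ^ 3 * (⟪-s • ν + δ • μ, v⟫ * ⟪-s • ν + δ • μ, w⟫)) =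
      0 + -1 * ((1 / (2 * r)) * (2 * (⟪ν, v⟫ * ⟪ν, w⟫) + 2 * (⟪μ, v⟫ * ⟪μ, w⟫)) +
        -(1 / (4 * r ^ 3)) * (⟪(2 * δ) • ν + (2 * s) • μ, v⟫ * ⟪(2 * δ) • ν + (2 * s) • μ, w⟫))
    simp only [inner_add_left, real_inner_smul_left]
    set α : ℝ := ⟪ν, v⟫
    set β : ℝ := ⟪μ, v⟫
    set α' : ℝ := ⟪ν, w⟫
    set β' : ℝ := ⟪μ, w⟫
    have h5 : (1 / (2 * r)) = (δ ^ 2 + s ^ 2) / (2 * r ^ 3) := by
      rw [← hrr]
      field_simp
    rw [h5]
    field_simp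
    ring

private theorem CRN51_pA (hp : 2 < p) {P t : E n} {r k R η : ℝ} (hr : 0 < r) (hrR : r ≤ 2 * R)
    (ht : ‖t‖ ^ 2 = r ^ 2) (hk : 0 < k) (hη : 0 ≤ η) (hηk : 8 * (n + p) * η ≤ k)
    {k' : ℝ} (hkk : k ≤ k') :
    pA p P (k' • (-(r⁻¹ ^ 3 • rk t)) + (η / R) • ((2 : ℝ) • ip)) ≤ -(k / 4) * ‖P‖ ^ (p - 2) / R := by
  have hR : 0 < R := by linarith
  have hP : 0 ≤ ‖P‖ ^ (p - 2) := by positivity
  have hn : (0 : ℝ) ≤ n := Nat.cast_nonneg n
  rw [pA_form_add, pA_form_smul, pA_form_neg, pA_form_smul, pA_form_smul, pA_form_smul, pA_ip hp]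
  have h1 := pA_rk_ge hp P t
  rw [ht] at h1
  have h2 : r⁻¹ ^ 3 * (‖P‖ ^ (p - 2) * r ^ 2) ≤ r⁻¹ ^ 3 * pA p P (rk t) :=
    mul_le_mul_of_nonneg_left h1 (by positivity)
  have h3 : r⁻¹ ^ 3 * (‖P‖ ^ (p - 2) * r ^ 2) = ‖P‖ ^ (p - 2) / r := by
    field_simp
  have h4 : ‖P‖ ^ (p - 2) / (2 * R) ≤ ‖P‖ ^ (p - 2) / r := div_le_div_of_nonneg_left hP hr hrR
  have h5 : ‖P‖ ^ (p - 2) / (2 * R) ≤ r⁻¹ ^ 3 * pA p P (rk t) := by linarith
  have h6 : k * (‖P‖ ^ (p - 2) / (2 * R)) ≤ k' * (r⁻¹ ^ 3 * pA p P (rk t)) :=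
    mul_le_mul hkk h5 (by positivity) (by linarith)
  have h7 : η / R * (2 * ((n + p - 2) * ‖P‖ ^ (p - 2))) ≤ k / 4 * ‖P‖ ^ (p - 2) / R := by
    have e1 : η / R * (2 * ((n + p - 2) * ‖P‖ ^ (p - 2))) =
        (2 * ((n + p - 2) * η)) * ‖P‖ ^ (p - 2) / R := by ring
    rw [e1]
    apply div_le_div_of_nonneg_right _ hR.le
    apply mul_le_mul_of_nonneg_right _ hP
    nlinarith
  have h8 : k * (‖P‖ ^ (p - 2) / (2 * R)) = k / 4 * ‖P‖ ^ (p - 2) / R + k / 4 * ‖P‖ ^ (p - 2) / R := by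
    field_simp
    ring
  have h9 : -(k / 4) * ‖P‖ ^ (p - 2) / R = -(k / 4 * ‖P‖ ^ (p - 2) / R) := by ring
  rw [h9]
  linarith

/-- the main step -/
private theorem CRN51_step (hp : 2 < p) {b : E n} {κ : ℝ} (hκ : 0 ≤ κ) {u : E n → ℝ}
    (hu : Sub p b κ u) {P0 ν μ : E n} (hν : ‖ν‖ = 1) (hμ : ‖μ‖ = 1) (hνμ : ⟪ν, μ⟫ = 0) {r1 C : ℝ}
    (hC : 0 < C) (h1 : ∀ x ∈ ball P0 r1, u x ≤ C * max ⟪ν, x - P0⟫ 0)
    (h2 : ∀ x ∈ ball P0 r1, u x ≤ C * max ⟪μ, x - P0⟫ 0) {k ε' η : ℝ} (hk : 0 < k)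
    (hη : 0 < η) (hηk : 8 * (n + p) * η ≤ k) (hε' : 0 < ε') (hε1 : ε' ≤ k / 2)
    (hε2 : 32 * ε' ≤ η * (k / (2 * C)) ^ 2) {r' : ℝ} (hr' : 0 < r') (hr1 : r' ≤ r1)
    (hup : ∀ x, ‖x - P0‖ < r' → 0 < ⟪ν, x - P0⟫ → 0 < ⟪μ, x - P0⟫ →
      u x ≤ (k + ε') * (2 * (⟪ν, x - P0⟫ + ⟪μ, x - P0⟫) - √(⟪ν, x - P0⟫ ^ 2 + ⟪μ, x - P0⟫ ^ 2)))
    {x : E n} (hx : 2 * ‖x - P0‖ < r') (hx1 : 0 < ⟪ν, x - P0⟫) (hx2 : 0 < ⟪μ, x - P0⟫)
    (hlo : (k - ε') * (2 * (⟪ν, x - P0⟫ + ⟪μ, x - P0⟫) -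
      √(⟪ν, x - P0⟫ ^ 2 + ⟪μ, x - P0⟫ ^ 2)) < u x) :
    k / 4 * (k / 2) ^ (p - 2) ≤ ‖x - P0‖ * (‖b‖ * (13 * k) + κ * (C * (2 * ‖x - P0‖))) := by
  have hn : (0 : ℝ) ≤ n := Nat.cast_nonneg n
  have hηk2 : η ≤ k / 2 := by nlinarith
  set δ : E n → ℝ := fun z => ⟪ν, z - P0⟫ with hδ
  set s : E n → ℝ := fun z => ⟪μ, z - P0⟫ with hs
  set N : E n → ℝ := fun z => √(δ z ^ 2 + s z ^ 2) with hN
  set g : E n → ℝ := fun z => 2 * (δ z + s z) - N z with hg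
  have hNN : ∀ z, N z ^ 2 = δ z ^ 2 + s z ^ 2 := fun z => Real.sq_sqrt (by positivity)
  have hN0 : ∀ z, 0 ≤ N z := fun z => Real.sqrt_nonneg _
  have hNz : ∀ z, N z ≤ ‖z - P0‖ := fun z => by
    apply le_of_sq_le_sq _ (norm_nonneg _)
    rw [hNN]
    exact CRN51_bessel hν hμ hνμ z
  have hδN : ∀ z, δ z ≤ N z := fun z => by
    apply le_of_sq_le_sq _ (hN0 z)
    rw [hNN]
    nlinarith [sq_nonneg (s z)]
  have hδx : 0 < δ x := hx1
  have hsx : 0 < s x := hx2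
  set R := N x with hR
  have hR0 : 0 < R := lt_of_lt_of_le hδx (hδN x)
  have hgx1 : R ≤ g x := by
    have : R ≤ δ x + s x := by
      apply le_of_sq_le_sq _ (by positivity)
      rw [hR, hNN]
      nlinarith
    simp only [hg]
    linarith
  have hgx2 : g x ≤ 2 * R := by
    have : δ x + s x ≤ 3 / 2 * R := by
      apply le_of_sq_le_sq _ (by positivity)
      rw [mul_pow, hR, hNN]
      nlinarith [sq_nonneg (δ x - s x)]
    simp only [hg]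
    linarith
  set θ := k / (2 * C) with hθ
  have hθ0 : 0 < θ := by positivity
  have hux : k / 2 * R < u x := by
    have h3 : k / 2 * R ≤ (k - ε') * g x := mul_le_mul (by linarith) hgx1 hR0.le (by linarith)
    exact lt_of_le_of_lt h3 hlo
  have hxb : x ∈ ball P0 r1 := by
    rw [mem_ball, dist_eq_norm]
    linarith [norm_nonneg (x - P0)]
  have hδθ : θ * R ≤ δ x := by
    have h3 := h1 x hxb
    rw [max_eq_left hx1.le] at h3
    have h4 : k / 2 * R < C * δ x := lt_of_lt_of_le hux h3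
    rw [hθ, div_mul_eq_mul_div, div_le_iff₀ (by positivity)]
    linarith
  have hsθ : θ * R ≤ s x := by
    have h3 := h2 x hxb
    rw [max_eq_left hx2.le] at h3
    have h4 : k / 2 * R < C * s x := lt_of_lt_of_le hux h3
    rw [hθ, div_mul_eq_mul_div, div_le_iff₀ (by positivity)]
    linarith
  have hθ1 : θ ≤ 1 := by
    have h3 : θ * R ≤ R := hδθ.trans (hδN x)
    by_contra hcon
    push Not at hcon
    nlinarith
  have hθR : θ * R ≤ R := by nlinarith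
  have hRx : R ≤ ‖x - P0‖ := hNz x
  -- points of the ball
  have hdδ : ∀ z, |δ z - δ x| ≤ ‖z - x‖ := fun z => by
    have h3 : δ z - δ x = ⟪ν, z - x⟫ := by
      simp only [hδ]
      rw [← inner_sub_right]
      congr 1
      abel
    rw [h3]
    have := abs_real_inner_le_norm ν (z - x)
    rwa [hν, one_mul] at this
  have hds : ∀ z, |s z - s x| ≤ ‖z - x‖ := fun z => by
    have h3 : s z - s x = ⟪μ, z - x⟫ := by
      simp only [hs]
      rw [← inner_sub_right]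
      congr 1
      abel
    rw [h3]
    have := abs_real_inner_le_norm μ (z - x)
    rwa [hμ, one_mul] at this
  have hball : ∀ z, ‖z - x‖ ≤ θ * R / 2 → 0 < δ z ∧ 0 < s z ∧ ‖z - P0‖ < r' ∧ N z ≤ 2 * R := by
    intro z hz
    have a1 := abs_le.1 (hdδ z)
    have a2 := abs_le.1 (hds z)
    have hθR0 : 0 < θ * R := by positivity
    have hδz : 0 < δ z := by linarith
    have hsz : 0 < s z := by linarith
    refine ⟨hδz, hsz, ?_, ?_⟩
    · have h3 : z - P0 = (z - x) + (x - P0) := by abel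
      rw [h3]
      have := norm_add_le (z - x) (x - P0)
      linarith
    · apply le_of_sq_le_sq _ (by positivity)
      rw [hNN]
      have b1 : δ z ≤ δ x + R / 2 := by linarith
      have b2 : s z ≤ s x + R / 2 := by linarith
      have b3 := hNN x
      have b4 := pow_le_pow_left₀ hδz.le b1 2
      have b5 := pow_le_pow_left₀ hsz.le b2 2
      rw [← hR] at b3
      nlinarith [sq_nonneg (δ x - R / 2), sq_nonneg (s x - R / 2)]
  -- the barrier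
  set w : E n → ℝ := fun z => (k + ε') * g z + η / R * ‖z - x‖ ^ 2 with hw
  have hgc : Continuous g := by
    simp only [hg, hN, hδ, hs]
    fun_prop
  have hwc : Continuous w := by
    simp only [hw]
    fun_prop
  have husc : UpperSemicontinuousOn (fun z => u z - w z) (closedBall x (θ * R / 2)) := by
    intro z hz c hc
    have hd : u z + (c - (u z - w z)) / 2 > u z := by linarith [show u z - w z < c from hc]
    have hd2 : w z - (c - (u z - w z)) / 2 < w z := by linarith [show u z - w z < c from hc]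
    have h3 := (hu.usc.upperSemicontinuousOn (closedBall x (θ * R / 2))) z hz _ hd
    have h4 : ∀ᶠ z' in 𝓝[closedBall x (θ * R / 2)] z, w z - (c - (u z - w z)) / 2 < w z' :=
      hwc.continuousWithinAt.eventually_const_lt hd2
    filter_upwards [h3, h4] with z' h5 h6
    show u z' - w z' < c
    linarith
  obtain ⟨z, hz, hzmax⟩ := husc.exists_isMaxOn
    ⟨x, mem_closedBall_self (by positivity)⟩ (isCompact_closedBall _ _)
  rw [mem_closedBall, dist_eq_norm] at hz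
  obtain ⟨hδz, hsz, hzr, hNz2⟩ := hball z hz
  have hwx : w x = (k + ε') * g x := by
    simp only [hw]
    rw [sub_self, norm_zero]
    ring
  have hxz : u x - w x ≤ u z - w z := hzmax (mem_closedBall_self (by positivity))
  have hzint : ‖z - x‖ < θ * R / 2 := by
    by_contra hcon
    have heq : ‖z - x‖ = θ * R / 2 := le_antisymm hz (not_lt.1 hcon)
    have h3 : u z ≤ (k + ε') * g z := hup z hzr hδz hsz
    have h4 : u z - w z ≤ -(η / R * (θ * R / 2) ^ 2) := by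
      simp only [hw]
      rw [heq]
      linarith
    have h5 : η / R * (θ * R / 2) ^ 2 = η * θ ^ 2 * R / 4 := by
      field_simp
      ring
    have h6 : -(2 * ε' * g x) < u x - w x := by
      rw [hwx]
      have : (k - ε') * g x < u x := hlo
      linarith
    have h7 : 2 * ε' * g x ≤ 4 * ε' * R := by nlinarith
    have h8 : 32 * ε' * R ≤ η * θ ^ 2 * R := mul_le_mul_of_nonneg_right hε2 hR0.le
    have h9 : 0 < ε' * R := by positivity
    rw [h5] at h4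
    nlinarith
  have hNz0 : 0 < δ z ^ 2 + s z ^ 2 := by positivity
  have hNzpos : 0 < N z := Real.sqrt_pos.2 hNz0
  have hT := CRN51_t2 (P0 := P0) (ν := ν) (μ := μ) (x := z) hNz0
  have hT2 := t2_add (t2_smul (k + ε') hT) (t2_smul (η / R) (t2_normSq (x := z) x))
  set Dg : E n := (2 : ℝ) • (ν + μ) - (N z)⁻¹ • (δ z • ν + s z • μ) with hDg
  set t : E n := -s z • ν + δ z • μ with ht
  set P : E n := (k + ε') • Dg + (η / R) • ((2 : ℝ) • (z - x)) with hP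
  have hUJ : UJ u z P ((k + ε') • (-((N z)⁻¹ ^ 3 • rk t)) + (η / R) • ((2 : ℝ) • ip)) := by
    refine uj_of_max hT2.1 ⟨θ * R / 2 - ‖z - x‖, by linarith, fun y hy => ?_⟩
    apply hzmax
    rw [mem_closedBall, dist_eq_norm]
    have h3 : y - x = (y - z) + (z - x) := by abel
    rw [h3]
    have := norm_add_le (y - z) (z - x)
    linarith
  have hSb := hu.sb z (mem_univ z) _ _ hUJ
  have htn : ‖t‖ ^ 2 = N z ^ 2 := by
    rw [hNN, ht, norm_add_sq_real, norm_smul, norm_smul, hν, hμ, real_inner_smul_left,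
      real_inner_smul_right, hνμ, Real.norm_eq_abs, Real.norm_eq_abs, mul_one, mul_one, sq_abs,
      sq_abs]
    ring
  have hpA := CRN51_pA hp (P := P) hNzpos hNz2 htn hk hη.le hηk (k' := k + ε') (by linarith)
  have hνP : k / 2 ≤ ‖P‖ := by
    have a1 : (⟪ν, P⟫ : ℝ) = (k + ε') * (2 - (N z)⁻¹ * δ z) + η / R * (2 * ⟪ν, z - x⟫) := by
      rw [hP, hDg]
      simp only [inner_add_right, inner_sub_right, real_inner_smul_right, hνμ,
        real_inner_self_eq_norm_sq, hν]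
      ring
    have a2 : (N z)⁻¹ * δ z ≤ 1 := by
      rw [inv_mul_le_iff₀ hNzpos, mul_one]
      exact hδN z
    have a3 := (abs_le.1 (abs_real_inner_le_norm ν (z - x))).1
    rw [hν, one_mul] at a3
    have a4 : -(θ * R / 2) ≤ ⟪ν, z - x⟫ := by linarith
    have a5 : η / R * (2 * (-(θ * R / 2))) ≤ η / R * (2 * ⟪ν, z - x⟫) :=
      mul_le_mul_of_nonneg_left (by linarith) (by positivity)
    have a6 : η / R * (2 * (-(θ * R / 2))) = -(η * θ) := by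
      field_simp
    have a7 : k ≤ (k + ε') * (2 - (N z)⁻¹ * δ z) := by nlinarith
    have a8 : η * θ ≤ η := by nlinarith
    have a9 := real_inner_le_norm ν P
    rw [hν, one_mul] at a9
    linarith
  have hPup : ‖P‖ ≤ 13 * k := by
    have a0 : (N z)⁻¹ * |δ z| ≤ 1 := by
      rw [inv_mul_le_iff₀ hNzpos, mul_one, abs_of_pos hδz]
      exact hδN z
    have a1 : (N z)⁻¹ * |s z| ≤ 1 := by
      rw [inv_mul_le_iff₀ hNzpos, mul_one, abs_of_pos hsz]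
      apply le_of_sq_le_sq _ (hN0 z)
      rw [hNN]
      nlinarith [sq_nonneg (δ z)]
    have a2 : ‖Dg‖ ≤ 6 := by
      have c1 : ‖(2 : ℝ) • (ν + μ)‖ ≤ 4 := by
        rw [norm_smul]
        have := norm_add_le ν μ
        rw [hν, hμ] at this
        norm_num
        linarith
      have c2 : ‖(N z)⁻¹ • (δ z • ν + s z • μ)‖ ≤ 2 := by
        rw [norm_smul, Real.norm_eq_abs, abs_of_pos (inv_pos.2 hNzpos)]
        have := norm_add_le (δ z • ν) (s z • μ)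
        rw [norm_smul, norm_smul, hν, hμ, Real.norm_eq_abs, Real.norm_eq_abs, mul_one,
          mul_one] at this
        have c3 := mul_le_mul_of_nonneg_left this (inv_pos.2 hNzpos).le
        linarith
      have := norm_sub_le ((2 : ℝ) • (ν + μ)) ((N z)⁻¹ • (δ z • ν + s z • μ))
      linarith
    have a3 : ‖(k + ε') • Dg‖ ≤ 12 * k := by
      rw [norm_smul, Real.norm_eq_abs, abs_of_pos (by linarith)]
      have : (k + ε') * ‖Dg‖ ≤ (2 * k) * 6 :=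
        mul_le_mul (by linarith) a2 (norm_nonneg _) (by positivity)
      linarith
    have a4 : ‖(η / R) • ((2 : ℝ) • (z - x))‖ ≤ k := by
      rw [norm_smul, norm_smul, Real.norm_eq_abs, abs_of_pos (by positivity), Real.norm_eq_abs,
        abs_of_pos (by norm_num : (0 : ℝ) < 2)]
      have c1 : η / R * (2 * ‖z - x‖) ≤ η / R * (2 * (θ * R / 2)) :=
        mul_le_mul_of_nonneg_left (by linarith) (by positivity)
      have c2 : η / R * (2 * (θ * R / 2)) = η * θ := by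
        field_simp
      have c3 : η * θ ≤ η := by nlinarith
      linarith
    have := norm_add_le ((k + ε') • Dg) ((η / R) • ((2 : ℝ) • (z - x)))
    rw [← hP] at this
    linarith
  have hbP : (⟪b, P⟫ : ℝ) ≤ ‖b‖ * (13 * k) :=
    (real_inner_le_norm b P).trans (mul_le_mul_of_nonneg_left hPup (norm_nonneg b))
  have huz : κ * u z ≤ κ * (C * (2 * ‖x - P0‖)) := by
    apply mul_le_mul_of_nonneg_left _ hκ
    have hzb : z ∈ ball P0 r1 := by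
      rw [mem_ball, dist_eq_norm]
      linarith
    have c1 := h1 z hzb
    have c2 : max (⟪ν, z - P0⟫ : ℝ) 0 = δ z := max_eq_left hδz.le
    rw [c2] at c1
    refine c1.trans (mul_le_mul_of_nonneg_left ?_ hC.le)
    linarith [hδN z]
  have hPp : (k / 2) ^ (p - 2) ≤ ‖P‖ ^ (p - 2) :=
    Real.rpow_le_rpow (by positivity) hνP (by linarith)
  have hfin : k / 4 * ‖P‖ ^ (p - 2) / R ≤ ‖b‖ * (13 * k) + κ * (C * (2 * ‖x - P0‖)) := by
    have e1 : -(k / 4) * ‖P‖ ^ (p - 2) / R = -(k / 4 * ‖P‖ ^ (p - 2) / R) := by ring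
    rw [e1] at hpA
    linarith
  rw [div_le_iff₀ hR0] at hfin
  have hfin2 : k / 4 * (k / 2) ^ (p - 2) ≤ k / 4 * ‖P‖ ^ (p - 2) :=
    mul_le_mul_of_nonneg_left hPp (by positivity)
  have hnn : 0 ≤ ‖b‖ * (13 * k) + κ * (C * (2 * ‖x - P0‖)) := by positivity
  have hfin3 := mul_le_mul_of_nonneg_left hRx hnn
  linarith

theorem crn (hp : 2 < p) {b : E n} {κ : ℝ} (hκ : 0 ≤ κ) {u : E n → ℝ} (hu : Sub p b κ u)
    {P0 ν μ : E n} (hν : ‖ν‖ = 1) (hμ : ‖μ‖ = 1) (hνμ : ⟪ν, μ⟫ = 0) {r1 C : ℝ} (hr1 : 0 < r1)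
    (h1 : ∀ x ∈ ball P0 r1, u x ≤ C * max ⟪x - P0, ν⟫ 0)
    (h2 : ∀ x ∈ ball P0 r1, u x ≤ C * max ⟪x - P0, μ⟫ 0) {ε : ℝ} (hε : 0 < ε) :
    ∃ r > 0, ∀ x ∈ ball P0 r, u x ≤ ε * ‖x - P0‖ := by
  set C' := max C 1 with hC'
  have hC'0 : 0 < C' := lt_of_lt_of_le one_pos (le_max_right _ _)
  have h1' : ∀ x ∈ ball P0 r1, u x ≤ C' * max ⟪ν, x - P0⟫ 0 := fun x hx => by
    have := h1 x hx
    rw [real_inner_comm] at this
    exact this.trans (mul_le_mul_of_nonneg_right (le_max_left _ _) (le_max_right _ _))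
  have h2' : ∀ x ∈ ball P0 r1, u x ≤ C' * max ⟪μ, x - P0⟫ 0 := fun x hx => by
    have := h2 x hx
    rw [real_inner_comm] at this
    exact this.trans (mul_le_mul_of_nonneg_right (le_max_left _ _) (le_max_right _ _))
  set g : E n → ℝ := fun z => 2 * (⟪ν, z - P0⟫ + ⟪μ, z - P0⟫) -
    √(⟪ν, z - P0⟫ ^ 2 + ⟪μ, z - P0⟫ ^ 2) with hg
  have hgN : ∀ z, 0 < (⟪ν, z - P0⟫ : ℝ) → 0 < (⟪μ, z - P0⟫ : ℝ) →
      (⟪ν, z - P0⟫ : ℝ) ≤ g z ∧ 0 < g z ∧ g z ≤ 2 * ‖z - P0‖ := by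
    intro z hz1 hz2
    set a : ℝ := ⟪ν, z - P0⟫ with ha
    set c : ℝ := ⟪μ, z - P0⟫ with hc
    have hs : √(a ^ 2 + c ^ 2) ^ 2 = a ^ 2 + c ^ 2 := Real.sq_sqrt (by positivity)
    have hs0 : 0 ≤ √(a ^ 2 + c ^ 2) := Real.sqrt_nonneg _
    have b1 : √(a ^ 2 + c ^ 2) ≤ a + c := by
      apply le_of_sq_le_sq _ (by positivity)
      rw [hs]
      nlinarith
    have b2 : a + c ≤ 3 / 2 * √(a ^ 2 + c ^ 2) := by
      apply le_of_sq_le_sq _ (by positivity)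
      rw [mul_pow, hs]
      nlinarith [sq_nonneg (a - c)]
    have b3 : √(a ^ 2 + c ^ 2) ≤ ‖z - P0‖ := by
      apply le_of_sq_le_sq _ (norm_nonneg _)
      rw [hs]
      exact CRN51_bessel hν hμ hνμ z
    simp only [hg]
    rw [← ha, ← hc]
    refine ⟨by linarith, by linarith, by linarith⟩
  -- the optimal constant
  set T : Set ℝ := {a | 0 ≤ a ∧ ∃ r > 0, ∀ x, ‖x - P0‖ < r → 0 < (⟪ν, x - P0⟫ : ℝ) →
    0 < (⟪μ, x - P0⟫ : ℝ) → u x ≤ a * g x} with hT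
  have hTne : T.Nonempty := by
    refine ⟨C', hC'0.le, r1, hr1, fun x hx hx1 hx2 => ?_⟩
    have c1 := h1' x (by rwa [mem_ball, dist_eq_norm])
    rw [max_eq_left hx1.le] at c1
    exact c1.trans (mul_le_mul_of_nonneg_left (hgN x hx1 hx2).1 hC'0.le)
  have hTb : BddBelow T := ⟨0, fun a ha => ha.1⟩
  set k := sInf T with hk
  have hk0 : 0 ≤ k := le_csInf hTne fun a ha => ha.1
  have hup : ∀ a, k < a → ∃ r > 0, ∀ x, ‖x - P0‖ < r → 0 < (⟪ν, x - P0⟫ : ℝ) →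
      0 < (⟪μ, x - P0⟫ : ℝ) → u x ≤ a * g x := by
    intro a ha
    obtain ⟨a', ⟨ha'0, r, hr, h⟩, ha'⟩ := exists_lt_of_csInf_lt hTne ha
    refine ⟨r, hr, fun x hx hx1 hx2 => (h x hx hx1 hx2).trans ?_⟩
    exact mul_le_mul_of_nonneg_right ha'.le (hgN x hx1 hx2).2.1.le
  have hlo : ∀ a, 0 ≤ a → a < k → ∀ r > 0, ∃ x, ‖x - P0‖ < r ∧ 0 < (⟪ν, x - P0⟫ : ℝ) ∧
      0 < (⟪μ, x - P0⟫ : ℝ) ∧ a * g x < u x := by
    intro a ha hak r hr
    by_contra hcon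
    push Not at hcon
    have : a ∈ T := ⟨ha, r, hr, hcon⟩
    exact absurd (csInf_le hTb this) (not_le.2 hak)
  rcases eq_or_lt_of_le hk0 with hk1 | hkpos
  · obtain ⟨r, hr, h⟩ := hup (ε / 2) (by rw [← hk1]; positivity)
    refine ⟨min r r1, lt_min hr hr1, fun x hx => ?_⟩
    rw [mem_ball, dist_eq_norm] at hx
    have hxr := lt_of_lt_of_le hx (min_le_left _ _)
    have hxr1 : x ∈ ball P0 r1 := by
      rw [mem_ball, dist_eq_norm]
      exact lt_of_lt_of_le hx (min_le_right _ _)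
    by_cases hx1 : 0 < (⟪ν, x - P0⟫ : ℝ)
    · by_cases hx2 : 0 < (⟪μ, x - P0⟫ : ℝ)
      · have c1 := h x hxr hx1 hx2
        have c2 := mul_le_mul_of_nonneg_left (hgN x hx1 hx2).2.2 (by positivity : 0 ≤ ε / 2)
        linarith
      · have c1 := h2' x hxr1
        rw [max_eq_right (not_lt.1 hx2), mul_zero] at c1
        exact c1.trans (by positivity)
    · have c1 := h1' x hxr1
      rw [max_eq_right (not_lt.1 hx1), mul_zero] at c1
      exact c1.trans (by positivity)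
  · exfalso
    have hn : (0 : ℝ) ≤ n := Nat.cast_nonneg n
    have hnp : (0 : ℝ) < n + p := by linarith
    set η := k / (8 * (n + p)) with hη
    have hη0 : 0 < η := by positivity
    have hηk : 8 * (n + p) * η ≤ k := by
      rw [hη]
      apply le_of_eq
      field_simp
    set ε' := min (k / 2) (η * (k / (2 * C')) ^ 2 / 32) with hε'
    have hε'0 : 0 < ε' := lt_min (by positivity) (by positivity)
    have hε1 : ε' ≤ k / 2 := min_le_left _ _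
    have hε2 : 32 * ε' ≤ η * (k / (2 * C')) ^ 2 := by
      have : ε' ≤ η * (k / (2 * C')) ^ 2 / 32 := min_le_right _ _
      linarith
    obtain ⟨r, hr, h⟩ := hup (k + ε') (by linarith)
    set r' := min r r1 with hr'
    have hr'0 : 0 < r' := lt_min hr hr1
    set c4 := k / 4 * (k / 2) ^ (p - 2) with hc4
    have hc40 : 0 < c4 := by
      have : 0 < (k / 2) ^ (p - 2) := Real.rpow_pos_of_pos (by positivity) _
      positivity
    set A := ‖b‖ * (13 * k) + κ * (C' * 2) + 1 with hA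
    have hA0 : 0 < A := by positivity
    obtain ⟨x, hx, hx1, hx2, hx3⟩ := hlo (k - ε') (by linarith) (by linarith)
      (min (r' / 2) (min 1 (c4 / A))) (by positivity)
    have a1 : ‖x - P0‖ < r' / 2 := lt_of_lt_of_le hx (min_le_left _ _)
    have a2 : ‖x - P0‖ < 1 := lt_of_lt_of_le hx ((min_le_right _ _).trans (min_le_left _ _))
    have a3 : ‖x - P0‖ < c4 / A := lt_of_lt_of_le hx ((min_le_right _ _).trans (min_le_right _ _))
    have hst := CRN51_step hp hκ hu hν hμ hνμ hC'0 h1' h2' hkpos hη0 hηk hε'0 hε1 hε2 hr'0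
      (min_le_right _ _) (fun z hz hz1 hz2 => h z (lt_of_lt_of_le hz (min_le_left _ _)) hz1 hz2)
      (x := x) (by linarith) hx1 hx2 hx3
    rw [lt_div_iff₀ hA0] at a3
    have a4 : ‖b‖ * (13 * k) + κ * (C' * (2 * ‖x - P0‖)) ≤ A := by
      have : κ * (C' * (2 * ‖x - P0‖)) ≤ κ * (C' * (2 * 1)) := by gcongr
      rw [hA]
      linarith
    have a5 := mul_le_mul_of_nonneg_left a4 (norm_nonneg (x - P0))
    linarith

end Pool.Agent.TWC
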