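import Pool.Agent.TWC.HLT
import Pool.Agent.TWC.BUMP

/-!
# TWC EXPW: expansion up to the wall for monotone supersolutions

`O` open convex with `O - t e ⊆ O` (`t ≥ 0`), `v` a supersolution on `O` with `v x ≤ v (x - t e)` for
`t ≥ 0` (so lower bounds on a ball persist when the ball is moved along `-e`), `c ≥ 0`.
Let `ball x' r ⊆ O`, `ball y r ⊆ O`, `|x' - y| ≤ L r`, `v ≥ μ` on `closedBall x' (r/4)`. Then
`v x ≥ c2 (μ/r)(r - |x - (y - (c s) e)|)` for all `s ≥ C r^p/μ^(p-2)`; constants depend on `n, p, L`.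

Proof. Let `ρ = r/4`, `k = ⌈2 L⌉ + 1` steps, `y_j = x' + (j/k)(y - x')`, `|y_{j+1} - y_j| ≤ L r/k ≤ 2ρ`;
`ball y_j r ⊆ O` by convexity (`ball y_j r` is the convex combination of the two balls), hence
`ball (y_j - t e) (4ρ) ⊆ O` for `t ≥ 0`. Claim by induction: there are constants `c_j, C_j` such that
`v ≥ c_j μ` on `closedBall (y_j - t e) ρ` for all `t ≥ c C_j ρ^p/μ^(p-2)`. Step: `bump` from the ball
at `y_j - t e` (level `c_j μ`) gives `v ≥ c1 c_j μ` on `closedBall (y_j - (t + c T_j) e) (3ρ)`,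
`T_j = C ρ^p/(c_j μ)^(p-2)`, which contains `closedBall (y_{j+1} - (t + c T_j) e) ρ`. One more `bump` at
`y_k = y`: `v ≥ c' μ` on `closedBall (y - t e) (3ρ)`, `3ρ = 3r/4 ≥ r/2`, for all
`t ≥ c C' ρ^p/μ^(p-2)`. Now `hlt` with `y0 = y - t e` and level `c' μ` (inner ball radius `r/2`, the moving
balls are again of the form `y - t' e`, `t' ≥ t`): `v x ≥ c0 (c'μ/r)(r - |x - (y - (t + c T'') e)|)`,
`T'' = C'' r^p/(c'μ)^(p-2)`. For given `s ≥ C r^p/μ^(p-2)` (`C` the sum of all constants) choose `t` with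
`t + c T'' = c s` (possible as `c s - c T'' ≥ c C' ρ^p/μ^(p-2)`; if `c = 0` take `t = 0`). `hlt` is applied
with `O` and the given `v`. (All powers `(c μ)^(p-2) = c^(p-2) μ^(p-2)`.)
-/

open Set Metric Filter Topology
open scoped RealInnerProductSpace

noncomputable section

namespace Pool.Agent.TWC

variable {p : ℝ}

private theorem EXPW_scale {C a b r μ : ℝ} (hr : 0 < r) (hμ : 0 < μ) (ha : 0 < a) (hb : 0 < b) :
    C * (r * b) ^ p / (a * μ) ^ (p - 2) = (C * b ^ p / a ^ (p - 2)) * (r ^ p / μ ^ (p - 2)) := by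
  rw [Real.mul_rpow hr.le hb.le, Real.mul_rpow ha.le hμ.le]
  have h1 := Real.rpow_pos_of_pos ha (p - 2)
  have h2 := Real.rpow_pos_of_pos hμ (p - 2)
  field_simp

theorem expw (hp : 2 < p) (n : ℕ) {L : ℝ} (hL : 0 ≤ L) :
    ∃ C c2 : ℝ, 0 < C ∧ 0 < c2 ∧ ∀ (c : ℝ) (e : E n) (κ : ℝ), 0 ≤ c → 0 ≤ κ → ∀ (O : Set (E n))
      (v : E n → ℝ), IsOpen O → Convex ℝ O → (∀ x ∈ O, ∀ t : ℝ, 0 ≤ t → x - t • e ∈ O) →
      Sup p (c • e) κ O v → (∀ x, ∀ t : ℝ, 0 ≤ t → v x ≤ v (x - t • e)) →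
      ∀ (x' y : E n) (r μ : ℝ), 0 < r → 0 < μ → ball x' r ⊆ O → ball y r ⊆ O →
      ‖x' - y‖ ≤ L * r → (∀ x, ‖x - x'‖ ≤ r / 4 → μ ≤ v x) →
      ∀ s, C * r ^ p / μ ^ (p - 2) ≤ s →
      ∀ x, c2 * (μ / r) * (r - ‖x - (y - (c * s) • e)‖) ≤ v x := by
  have _ := hL
  obtain ⟨Cb, c1, hCb, hc1, _, hb⟩ := bump hp n
  obtain ⟨Ch, c0, hCh, hc0, hh⟩ := hlt hp n
  obtain ⟨k, hk⟩ := exists_nat_ge (2 * L)
  set D : ℕ → ℝ := fun j => Cb * (1 / 4 : ℝ) ^ p / (c1 ^ j) ^ (p - 2) with hD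
  set S : ℕ → ℝ := fun j => ∑ i ∈ Finset.range j, D i with hS
  have hDpos : ∀ j, 0 < D j := fun j => by
    simp only [hD]
    positivity
  have hS0 : ∀ j, 0 ≤ S j := fun j => Finset.sum_nonneg fun i _ => (hDpos i).le
  have hSs : ∀ j, S (j + 1) = S j + D j := fun j => Finset.sum_range_succ _ _
  have hF : 0 < Ch / (c1 ^ (k + 2)) ^ (p - 2) := by positivity
  refine ⟨S (k + 2) + Ch / (c1 ^ (k + 2)) ^ (p - 2), c0 * c1 ^ (k + 2),
    by linarith [hS0 (k + 2)], by positivity, ?_⟩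
  intro c e κ hc hκ O v hO hOc hOe hv hmono x' y r μ hr hμ hx' hy hxy hvμ s hs x
  have _ := hO
  set X : ℝ := r ^ p / μ ^ (p - 2) with hX
  have hXp : 0 < X := by positivity
  have hbe : ∀ (y1 : E n) (t : ℝ), 0 ≤ t → ball y1 r ⊆ O → ball (y1 - t • e) r ⊆ O := by
    intro y1 t ht h z hz
    have h1 : z + t • e ∈ ball y1 r := by
      rw [mem_ball, dist_eq_norm] at hz ⊢
      have e1 : z + t • e - y1 = z - (y1 - t • e) := by abel
      rwa [e1]
    have h2 := hOe _ (h h1) t ht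
    rwa [add_sub_cancel_right] at h2
  have step : ∀ (y1 : E n) (j : ℕ), ball y1 r ⊆ O →
      (∀ t, c * (S j * X) ≤ t → ∀ x, ‖x - (y1 - t • e)‖ ≤ r / 4 → c1 ^ j * μ ≤ v x) →
      ∀ t, c * (S (j + 1) * X) ≤ t → ∀ x, ‖x - (y1 - t • e)‖ ≤ 3 * (r / 4) →
        c1 ^ (j + 1) * μ ≤ v x := by
    intro y1 j hball hP t ht x hx
    have eT : Cb * (r / 4) ^ p / (c1 ^ j * μ) ^ (p - 2) = D j * X := by
      have h1 := EXPW_scale (p := p) (C := Cb) hr hμ (pow_pos hc1 j)
        (by norm_num : (0:ℝ) < 1 / 4)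
      rw [mul_one_div] at h1
      exact h1
    have ht0 : c * (S j * X) ≤ t - c * (D j * X) := by
      rw [hSs] at ht
      linarith
    have ht00 : 0 ≤ c * (S j * X) := mul_nonneg hc (mul_nonneg (hS0 j) hXp.le)
    have h1 := hb c e κ hκ O v hv (y1 - (t - c * (D j * X)) • e) (r / 4) (c1 ^ j * μ)
      (by positivity) (by positivity) (fun x hx => hP _ ht0 x hx)
      (fun τ hτ _ => by
        have e4 : 4 * (r / 4) = r := by ring
        rw [e4, sub_sub, ← add_smul]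
        refine hbe y1 _ ?_ hball
        have := mul_nonneg hc hτ
        linarith) x
      (by
        rw [eT, sub_sub, ← add_smul]
        have e5 : t - c * (D j * X) + c * (D j * X) = t := by ring
        rw [e5]
        exact hx)
    calc c1 ^ (j + 1) * μ = c1 * (c1 ^ j * μ) := by rw [pow_succ]; ring
      _ ≤ _ := h1
  set Y : ℕ → E n := fun j => x' + ((j : ℝ) / (k + 1)) • (y - x') with hY
  have hk0 : (0 : ℝ) < k + 1 := by positivity
  have hYball : ∀ j, j ≤ k + 1 → ball (Y j) r ⊆ O := by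
    intro j hj z hz
    have hθ0 : (0 : ℝ) ≤ (j : ℝ) / (k + 1) := by positivity
    have hθ1 : (j : ℝ) / (k + 1) ≤ 1 := by
      rw [div_le_one hk0]
      exact_mod_cast hj
    set θ : ℝ := (j : ℝ) / (k + 1) with hθ
    have h1 : x' + (z - Y j) ∈ O := hx' (by
      rw [mem_ball, dist_eq_norm] at hz ⊢
      rwa [add_sub_cancel_left])
    have h2 : y + (z - Y j) ∈ O := hy (by
      rw [mem_ball, dist_eq_norm] at hz ⊢
      rwa [add_sub_cancel_left])
    have h3 := hOc h1 h2 (by linarith : 0 ≤ 1 - θ) hθ0 (by ring)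
    have e1 : (1 - θ) • (x' + (z - Y j)) + θ • (y + (z - Y j)) = z := by
      have e2 : z - Y j = z - (x' + θ • (y - x')) := rfl
      rw [e2]
      module
    rwa [e1] at h3
  have hYs : ∀ j, ‖Y (j + 1) - Y j‖ ≤ r / 2 := by
    intro j
    have e1 : Y (j + 1) - Y j = (1 / ((k : ℝ) + 1)) • (y - x') := by
      simp only [hY]
      rw [add_sub_add_left_eq_sub, ← sub_smul]
      congr 1
      push_cast
      field_simp
      ring
    rw [e1, norm_smul, Real.norm_eq_abs, abs_of_pos (by positivity), norm_sub_rev, one_div,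
      inv_mul_le_iff₀ hk0]
    nlinarith
  have hP : ∀ j, j ≤ k + 1 → ∀ t, c * (S j * X) ≤ t → ∀ x, ‖x - (Y j - t • e)‖ ≤ r / 4 →
      c1 ^ j * μ ≤ v x := by
    intro j
    induction j with
    | zero =>
      intro _ t ht x hx
      have e0 : Y 0 = x' := by simp [hY]
      have ht0 : 0 ≤ t := by
        refine le_trans ?_ ht
        exact mul_nonneg hc (mul_nonneg (hS0 0) hXp.le)
      rw [e0] at hx
      rw [pow_zero, one_mul]
      have h1 := hvμ (x + t • e) (by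
        have e1 : x + t • e - x' = x - (x' - t • e) := by abel
        rwa [e1])
      have h2 := hmono (x + t • e) t ht0
      rw [add_sub_cancel_right] at h2
      exact h1.trans h2
    | succ j ih =>
      intro hj t ht x hx
      refine step (Y j) j (hYball j (by omega)) (ih (by omega)) t ht x ?_
      have e1 : x - (Y j - t • e) = (x - (Y (j + 1) - t • e)) + (Y (j + 1) - Y j) := by abel
      rw [e1]
      refine (norm_add_le _ _).trans ?_
      linarith [hYs j]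
  have eY : Y (k + 1) = y := by
    simp only [hY]
    push_cast
    rw [div_self hk0.ne', one_smul]
    abel
  have hfin := step (Y (k + 1)) (k + 1) (hYball _ le_rfl) (hP _ le_rfl)
  rw [eY] at hfin
  have eTh : Ch * r ^ p / (c1 ^ (k + 2) * μ) ^ (p - 2) = Ch / (c1 ^ (k + 2)) ^ (p - 2) * X := by
    have h1 := EXPW_scale (p := p) (C := Ch) hr hμ (pow_pos hc1 (k + 2)) one_pos
    rwa [mul_one, Real.one_rpow, mul_one] at h1
  have hs' : c * (S (k + 2) * X) ≤ c * s - c * (Ch / (c1 ^ (k + 2)) ^ (p - 2) * X) := by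
    have e1 : (S (k + 2) + Ch / (c1 ^ (k + 2)) ^ (p - 2)) * r ^ p / μ ^ (p - 2) =
        (S (k + 2) + Ch / (c1 ^ (k + 2)) ^ (p - 2)) * X := by
      rw [hX]
      ring
    rw [e1] at hs
    have := mul_le_mul_of_nonneg_left hs hc
    linarith
  have hs0 : 0 ≤ c * (S (k + 2) * X) := mul_nonneg hc (mul_nonneg (hS0 _) hXp.le)
  have h1 := hh c e κ hκ O v hv
    (y - (c * s - c * (Ch / (c1 ^ (k + 2)) ^ (p - 2) * X)) • e) r (c1 ^ (k + 2) * μ) hr
    (by positivity)
    (fun τ hτ _ x hx => by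
      rw [sub_sub, ← add_smul] at hx
      have hcτ := mul_nonneg hc hτ
      refine hfin _ ?_ x (hx.trans (by linarith))
      linarith)
    (fun τ hτ _ => by
      rw [sub_sub, ← add_smul]
      have hcτ := mul_nonneg hc hτ
      exact hbe y _ (by linarith) hy) x
  rw [eTh, sub_sub, ← add_smul, sub_add_cancel] at h1
  calc c0 * c1 ^ (k + 2) * (μ / r) * (r - ‖x - (y - (c * s) • e)‖)
      = c0 * (c1 ^ (k + 2) * μ / r) * (r - ‖x - (y - (c * s) • e)‖) := by ring
    _ ≤ v x := h1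

end Pool.Agent.TWC
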