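import Pool.Agent.TWC.CST
import Pool.Agent.TWC.PAL
import Pool.Agent.TWC.JTB

/-!
# TWC LB: linear bound near a supporting hyperplane of the support

Let `N = n + p`, `K = 8 N` (so `K ≥ 16`). Let `r ≤ 1`, `M > 0`, `(M/r)^(p-2) ≥ C0 r` with
`C0 = 8 |b| + κ + 1`. Basic statement: `u (b0 + t ν) ≤ 4 K (M/r) t` for `0 ≤ t ≤ r/K`.

Barrier on the compact set `D = {x : 0 ≤ s ≤ r/K, |x'| ≤ r/2}`, `s = <x-b0,ν>`, `x' = x - b0 - s ν`
(contained in `closedBall b0 r`):
`B x = (M/r) (4 K s - K s^2/r + 4 |x'|^2/r)`, `|x'|^2 = |x-b0|^2 - s^2`, so `B` is a quadratic polynomial: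
gradient `P = (M/r) ((4K - 2 K s/r) ν + 8 x'/r)`, form `X = (M/r^2) (8 ip - (2K + 8) rk ν)`
(`t2_add`, `t2_lin`, `t2_sq`, `t2_normSq`).
Boundary of `D` (`u ≤ B`): `s = 0`: `u = 0 ≤ B`; `|x'| = r/2`: `B ≥ M` because
`4 K s - K s^2/r ≥ 0`; `s = r/K`: `B ≥ M (4 - 1/K) ≥ M`.
Interior point with `B x < u x`: `|P| ≥ (M/r)(4K - 2) ≥ 2 K M/r`, `|P| ≤ (M/r)(4K + 4) ≤ 8 K M/r`;
`pA p P X = (M/r^2)(8 pA p P ip - (2K+8) pA p P (rk ν)) ≤ (M/r^2)|P|^(p-2) (8 (n+p-2) - (2K + 8))
≤ -K (M/r^2) |P|^(p-2)` (`pA_ip`, `pA_rk_ge`). And `<b,P> + κ u ≤ |b| 8 K M/r + κ M`. Now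
`K (M/r^2)|P|^(p-2) ≥ K (M/r^2) (2K)^(p-2) (M/r)^(p-2) ≥ K (M/r^2) C0 r = K C0 M/r` (as `2K ≥ 1`), and
`K C0 M/r > 8 K |b| M/r + κ M` (`r ≤ 1`, `K ≥ 1`). So the strict inequality of `cst` holds (`κ' ≤ κ`).
Hence `u ≤ B` on `D`, and at `x' = 0`: `B ≤ (M/r) 4 K s`.

General statement: for `x` with `|x-b0| ≤ r/(2K)`, `s = <x-b0,ν> ≥ 0` apply the basic one at the
point `b0 + x'` with radius `r/2` (the hypotheses hold with the same `M`:
`(M/(r/2))^(p-2) ≥ (M/r)^(p-2) ≥ C0 r ≥ C0 r/2`), giving `u x ≤ 8 K (M/r) s`. So `C1 = 8 K`, and the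
constant called `K1` below is `2 K`.
-/

open Set Metric Filter Topology
open scoped RealInnerProductSpace

noncomputable section

namespace Pool.Agent.TWC

variable {n : ℕ} {p : ℝ}

private theorem lb_aux {a c : ℝ} (h : a ^ 2 ≤ c ^ 2) (hc : 0 ≤ c) : a ≤ c := by
  nlinarith [abs_le_of_sq_le_sq h hc]

private theorem lb_basic (hp : 2 < p) (b : E n) {κ : ℝ} (hκ : 0 ≤ κ) {K : ℝ}
    (hK : K = 8 * (n + p)) {κ' : ℝ} (h0' : 0 ≤ κ') (h1' : κ' ≤ κ) {u : E n → ℝ}
    (hu : Sub p b κ' u) (b0 ν : E n) (r M : ℝ) (hν : ‖ν‖ = 1) (hr : 0 < r) (hr1 : r ≤ 1)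
    (hM : 0 < M) (hC : (8 * ‖b‖ + κ + 1) * r ≤ (M / r) ^ (p - 2))
    (hb : ∀ x ∈ closedBall b0 r, u x ≤ M)
    (hz : ∀ x ∈ closedBall b0 r, ⟪x - b0, ν⟫ ≤ 0 → u x = 0) (t : ℝ) (ht0 : 0 ≤ t)
    (ht1 : t ≤ r / K) : u (b0 + t • ν) ≤ 4 * K * (M / r) * t := by
  have hn : (0 : ℝ) ≤ n := Nat.cast_nonneg n
  have hK16 : 16 ≤ K := by rw [hK]; linarith
  have hK0 : 0 < K := by linarith
  have hMr : 0 < M / r := div_pos hM hr
  set B : E n → ℝ := fun y => (M / r) * (((0 : ℝ) + ⟪(4 * K) • ν, y - b0⟫) +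
    ((-(K + 4) / r) * ⟪ν, y - b0⟫ ^ 2 + (4 / r) * ‖y - b0‖ ^ 2)) with hBdef
  set D : Set (E n) := {x | 0 ≤ ⟪ν, x - b0⟫ ∧ ⟪ν, x - b0⟫ ≤ r / K ∧
    ‖x - b0‖ ^ 2 - ⟪ν, x - b0⟫ ^ 2 ≤ r ^ 2 / 4} with hDdef
  have hrK : r / K ≤ r / 16 := div_le_div_of_nonneg_left hr.le (by norm_num) hK16
  have hDb : D ⊆ closedBall b0 r := by
    intro x hx
    obtain ⟨h1, h2, h3⟩ := hx
    rw [mem_closedBall, dist_eq_norm]
    have h4 : ⟪ν, x - b0⟫ ^ 2 ≤ (r / 16) ^ 2 := pow_le_pow_left₀ h1 (h2.trans hrK) 2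
    have h5 : ‖x - b0‖ ^ 2 ≤ r ^ 2 := by nlinarith [sq_nonneg r]
    exact (lb_aux h5 hr.le)
  have hBc : Continuous B := by
    simp only [hBdef]
    fun_prop
  have hDc : IsClosed D := by
    have c1 : Continuous fun x : E n => ⟪ν, x - b0⟫ := by fun_prop
    have c2 : Continuous fun x : E n => ‖x - b0‖ ^ 2 - ⟪ν, x - b0⟫ ^ 2 := by fun_prop
    exact (isClosed_le continuous_const c1).inter
      ((isClosed_le c1 continuous_const).inter (isClosed_le c2 continuous_const))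
  have hDk : IsCompact D := (isCompact_closedBall b0 r).of_isClosed_subset hDc hDb
  have key := cst (O := univ) (u := u) (B := B) hu.sb hDk (hu.usc.upperSemicontinuousOn _)
    (hBc.lowerSemicontinuous.lowerSemicontinuousOn _) ?_
  · have hin : (b0 + t • ν) ∈ D := by
      have e1 : b0 + t • ν - b0 = t • ν := by abel
      have e2 : ⟪ν, t • ν⟫ = t := by
        rw [real_inner_smul_right, real_inner_self_eq_norm_sq, hν]; ring
      have e3 : ‖t • ν‖ ^ 2 = t ^ 2 := by
        rw [norm_smul, hν, mul_one, Real.norm_eq_abs, sq_abs]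
      simp only [hDdef, mem_setOf_eq]
      rw [e1, e2, e3]
      exact ⟨ht0, ht1, by nlinarith [sq_nonneg r]⟩
    refine (key _ hin).trans ?_
    simp only [hBdef]
    have e1 : b0 + t • ν - b0 = t • ν := by abel
    have e2 : ⟪ν, t • ν⟫ = t := by
      rw [real_inner_smul_right, real_inner_self_eq_norm_sq, hν]; ring
    have e3 : ‖t • ν‖ ^ 2 = t ^ 2 := by
      rw [norm_smul, hν, mul_one, Real.norm_eq_abs, sq_abs]
    have e4 : ⟪(4 * K) • ν, t • ν⟫ = 4 * K * t := by
      rw [real_inner_smul_left, e2]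
    rw [e1, e2, e3, e4]
    have h6 : (-(K + 4) / r) * t ^ 2 + (4 / r) * t ^ 2 = -(K / r) * t ^ 2 := by ring
    rw [h6]
    have h7 : 0 ≤ K / r * t ^ 2 := by positivity
    have h8 : (M / r) * (0 + 4 * K * t + -(K / r) * t ^ 2) ≤ (M / r) * (4 * K * t) :=
      mul_le_mul_of_nonneg_left (by linarith) hMr.le
    calc _ ≤ _ := h8
      _ = _ := by ring
  · intro x hx hBu
    obtain ⟨h1, h2, h3⟩ := hx
    have hxb : x ∈ closedBall b0 r := hDb ⟨h1, h2, h3⟩
    have hnb : ‖x - b0‖ ≤ r := by rwa [mem_closedBall, dist_eq_norm] at hxb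
    set s : ℝ := ⟪ν, x - b0⟫ with hs
    have hBx : B x = (M / r) * (4 * K * s + ((-(K + 4) / r) * s ^ 2 + (4 / r) * ‖x - b0‖ ^ 2)) := by
      simp only [hBdef]
      rw [real_inner_smul_left, zero_add]
    have hBx2 : B x = (M / r) * (4 * K * s - (K / r) * s ^ 2 + (4 / r) * (‖x - b0‖ ^ 2 - s ^ 2)) := by
      rw [hBx]; ring
    have hcs : s ^ 2 ≤ ‖x - b0‖ ^ 2 := by
      have := abs_real_inner_le_norm ν (x - b0)
      rw [hν, one_mul] at this
      exact sq_le_sq' (by linarith [neg_abs_le (⟪ν, x - b0⟫ : ℝ)]) ((le_abs_self _).trans this)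
    have hsr : s / r ≤ 1 / K := by
      rw [div_le_div_iff₀ hr hK0]
      rw [le_div_iff₀ hK0] at h2
      linarith
    have hs4 : 0 ≤ 4 * K * s - (K / r) * s ^ 2 := by
      have : 4 * K * s - (K / r) * s ^ 2 = K * s * (4 - s / r) := by ring
      rw [this]
      have h16 : 1 / K ≤ 1 / 16 := one_div_le_one_div_of_le (by norm_num) hK16
      have : 0 ≤ 4 - s / r := by linarith
      positivity
    -- the boundary cases
    have i1 : 0 < s := by
      rcases h1.lt_or_eq with h | h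
      · exact h
      · exfalso
        have hu0 : u x = 0 := hz x hxb (by rw [real_inner_comm]; exact h.symm.le)
        have : 0 ≤ B x := by
          rw [hBx2]
          have : 0 ≤ ‖x - b0‖ ^ 2 - s ^ 2 := by linarith
          positivity
        linarith
    have i2 : s < r / K := by
      rcases h2.lt_or_eq with h | h
      · exact h
      · exfalso
        have huM := hb x hxb
        have e1 : 4 * K * s - (K / r) * s ^ 2 = r * (4 - 1 / K) := by
          rw [h]; field_simp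
        have h16 : 1 / K ≤ 1 / 16 := one_div_le_one_div_of_le (by norm_num) hK16
        have h9 : r ≤ 4 * K * s - (K / r) * s ^ 2 := by
          rw [e1]
          nlinarith
        have h10 : 0 ≤ (4 / r) * (‖x - b0‖ ^ 2 - s ^ 2) := by
          have : 0 ≤ ‖x - b0‖ ^ 2 - s ^ 2 := by linarith
          positivity
        have : M ≤ B x := by
          rw [hBx2]
          calc M = (M / r) * r := by field_simp
            _ ≤ _ := mul_le_mul_of_nonneg_left (by linarith) hMr.le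
        linarith
    have i3 : ‖x - b0‖ ^ 2 - s ^ 2 < r ^ 2 / 4 := by
      rcases h3.lt_or_eq with h | h
      · exact h
      · exfalso
        have huM := hb x hxb
        have : M ≤ B x := by
          rw [hBx2, h]
          calc M = (M / r) * (0 + (4 / r) * (r ^ 2 / 4)) := by field_simp; ring
            _ ≤ _ := mul_le_mul_of_nonneg_left (by linarith) hMr.le
        linarith
    refine ⟨mem_univ _, ?_, ?_⟩
    · have c1 : Continuous fun x : E n => ⟪ν, x - b0⟫ := by fun_prop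
      have c2 : Continuous fun x : E n => ‖x - b0‖ ^ 2 - ⟪ν, x - b0⟫ ^ 2 := by fun_prop
      have o1 : {y : E n | 0 < ⟪ν, y - b0⟫} ∈ 𝓝 x := (isOpen_lt continuous_const c1).mem_nhds i1
      have o2 : {y : E n | ⟪ν, y - b0⟫ < r / K} ∈ 𝓝 x :=
        (isOpen_lt c1 continuous_const).mem_nhds i2
      have o3 : {y : E n | ‖y - b0‖ ^ 2 - ⟪ν, y - b0⟫ ^ 2 < r ^ 2 / 4} ∈ 𝓝 x :=
        (isOpen_lt c2 continuous_const).mem_nhds i3
      filter_upwards [o1, o2, o3] with y y1 y2 y3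
      exact ⟨le_of_lt y1, le_of_lt y2, le_of_lt y3⟩
    · have hT := t2_smul (M / r) (t2_add (t2_lin 0 ((4 * K) • ν) b0 (x := x))
        (t2_add (t2_smul (-(K + 4) / r) (t2_sq b0 ν (x := x)))
          (t2_smul (4 / r) (t2_normSq b0 (x := x)))))
      refine ⟨_, _, hT.1, ?_⟩
      rw [← hs]
      set P : E n := (M / r) • ((4 * K) • ν + ((-(K + 4) / r) • (2 * s) • ν +
        (4 / r) • (2 : ℝ) • (x - b0))) with hP
      have hν2 : ⟪ν, ν⟫ = (1 : ℝ) := by rw [real_inner_self_eq_norm_sq, hν]; norm_num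
      -- lower bound of the gradient
      have hPν : ⟪ν, P⟫ = (M / r) * (4 * K - 2 * K * (s / r)) := by
        rw [hP, real_inner_smul_right, inner_add_right, inner_add_right, real_inner_smul_right,
          real_inner_smul_right, real_inner_smul_right, real_inner_smul_right,
          real_inner_smul_right, hν2, ← hs]
        ring
      have hKs : K * (s / r) ≤ 1 := by
        calc K * (s / r) ≤ K * (1 / K) := mul_le_mul_of_nonneg_left hsr hK0.le
          _ = 1 := by field_simp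
      have hPl : (M / r) ≤ ‖P‖ := by
        have h11 : ⟪ν, P⟫ ≤ ‖P‖ := by
          have := real_inner_le_norm ν P
          rwa [hν, one_mul] at this
        have h12 : (M / r) * 1 ≤ (M / r) * (4 * K - 2 * K * (s / r)) :=
          mul_le_mul_of_nonneg_left (by nlinarith) hMr.le
        linarith
      have hPu : ‖P‖ ≤ (M / r) * (8 * K) := by
        rw [hP, norm_smul, Real.norm_eq_abs, abs_of_pos hMr]
        refine mul_le_mul_of_nonneg_left ?_ hMr.le
        have n1 : ‖(4 * K) • ν‖ = 4 * K := by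
          rw [norm_smul, hν, mul_one, Real.norm_eq_abs, abs_of_pos (by positivity)]
        have n2 : ‖(-(K + 4) / r) • (2 * s) • ν‖ = (K + 4) * (2 * (s / r)) := by
          rw [smul_smul, norm_smul, hν, mul_one, Real.norm_eq_abs]
          have : -(K + 4) / r * (2 * s) = -((K + 4) * (2 * (s / r))) := by ring
          rw [this, abs_neg, abs_of_nonneg (by positivity)]
        have n3 : ‖(4 / r) • (2 : ℝ) • (x - b0)‖ ≤ 8 := by
          rw [smul_smul, norm_smul, Real.norm_eq_abs, abs_of_nonneg (by positivity)]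
          have : 4 / r * 2 * ‖x - b0‖ ≤ 4 / r * 2 * r :=
            mul_le_mul_of_nonneg_left hnb (by positivity)
          calc _ ≤ _ := this
            _ = 8 := by field_simp; norm_num
        have n4 : (K + 4) * (2 * (s / r)) ≤ 4 := by
          have h13 : s / r ≤ 1 / 16 := hsr.trans (one_div_le_one_div_of_le (by norm_num) hK16)
          nlinarith
        calc _ ≤ ‖(4 * K) • ν‖ + ‖(-(K + 4) / r) • (2 * s) • ν +
              (4 / r) • (2 : ℝ) • (x - b0)‖ := norm_add_le _ _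
          _ ≤ ‖(4 * K) • ν‖ + (‖(-(K + 4) / r) • (2 * s) • ν‖ +
              ‖(4 / r) • (2 : ℝ) • (x - b0)‖) := by gcongr; exact norm_add_le _ _
          _ ≤ 4 * K + (4 + 8) := by rw [n1, n2]; linarith
          _ ≤ 8 * K := by linarith
      -- the operator
      have hpA : pA p P ((M / r) • ((0 : Bil n) + ((-(K + 4) / r) • (2 : ℝ) • rk ν +
          (4 / r) • (2 : ℝ) • ip))) ≤ -(K * (M / r / r) * ‖P‖ ^ (p - 2)) := by
        have z0 : pA p P (0 : Bil n) = 0 := by simp [pA, tr]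
        rw [pA_form_smul, pA_form_add, pA_form_add, pA_form_smul, pA_form_smul, pA_form_smul,
          pA_form_smul, z0, pA_ip hp]
        have hrk : ‖P‖ ^ (p - 2) ≤ pA p P (rk ν) := by
          have := pA_rk_ge hp P ν
          rw [hν] at this
          simpa using this
        set A : ℝ := ‖P‖ ^ (p - 2) with hA
        have hA0 : 0 ≤ A := by positivity
        have e1 : (-(K + 4) / r) * (2 * pA p P (rk ν)) ≤ (-(K + 4) / r) * (2 * A) := by
          have : -(K + 4) / r ≤ 0 := by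
            rw [neg_div]
            have : 0 ≤ (K + 4) / r := by positivity
            linarith
          exact mul_le_mul_of_nonpos_left (by linarith) this
        have e2 : (M / r) * (0 + ((-(K + 4) / r) * (2 * pA p P (rk ν)) +
            (4 / r) * (2 * ((n + p - 2) * A)))) ≤
            (M / r) * (0 + ((-(K + 4) / r) * (2 * A) + (4 / r) * (2 * ((n + p - 2) * A)))) :=
          mul_le_mul_of_nonneg_left (by linarith) hMr.le
        refine e2.trans ?_
        have e3 : (M / r) * (0 + ((-(K + 4) / r) * (2 * A) + (4 / r) * (2 * ((n + p - 2) * A)))) =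
            (M / r / r) * A * (8 * (n + p - 2) - 2 * (K + 4)) := by
          ring
        rw [e3]
        have e4 : 8 * ((n : ℝ) + p - 2) - 2 * (K + 4) ≤ -K := by
          have : 8 * ((n : ℝ) + p) = K := hK.symm
          linarith
        have e5 : 0 ≤ (M / r / r) * A := by positivity
        calc _ ≤ (M / r / r) * A * (-K) := mul_le_mul_of_nonneg_left e4 e5
          _ = _ := by ring
      have hpow : (8 * ‖b‖ + κ + 1) * r ≤ ‖P‖ ^ (p - 2) :=
        hC.trans (Real.rpow_le_rpow hMr.le hPl (by linarith))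
      have hK2 : K * (M / r) * (8 * ‖b‖ + κ + 1) ≤ K * (M / r / r) * ‖P‖ ^ (p - 2) := by
        calc K * (M / r) * (8 * ‖b‖ + κ + 1) = K * (M / r / r) * ((8 * ‖b‖ + κ + 1) * r) := by
              field_simp
          _ ≤ _ := mul_le_mul_of_nonneg_left hpow (by positivity)
      have hbP : ⟪b, P⟫ ≤ ‖b‖ * ((M / r) * (8 * K)) :=
        (real_inner_le_norm b P).trans (mul_le_mul_of_nonneg_left hPu (norm_nonneg _))
      have huM := hb x hxb
      have hu0 := hu.nn x
      have hκu : κ' * u x ≤ κ * M := mul_le_mul h1' huM hu0 hκ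
      have hfin : κ * M < K * (M / r) * (κ + 1) := by
        have g1 : M ≤ K * (M / r) := by
          have g2 : M ≤ M / r := by
            rw [le_div_iff₀ hr]; nlinarith
          nlinarith
        nlinarith
      calc pA p P ((M / r) • ((0 : Bil n) + ((-(K + 4) / r) • (2 : ℝ) • rk ν +
          (4 / r) • (2 : ℝ) • ip))) + ⟪b, P⟫ + κ' * u x
          ≤ -(K * (M / r) * (8 * ‖b‖ + κ + 1)) + ‖b‖ * ((M / r) * (8 * K)) + κ * M := by linarith
        _ < 0 := by nlinarith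

theorem lb (hp : 2 < p) (b : E n) {κ : ℝ} (hκ : 0 ≤ κ) :
    ∃ C0 C1 K1 : ℝ, 0 < C0 ∧ 0 < C1 ∧ 1 ≤ K1 ∧ ∀ κ', 0 ≤ κ' → κ' ≤ κ → ∀ u : E n → ℝ,
      Sub p b κ' u → ∀ (b0 ν : E n) (r M : ℝ), ‖ν‖ = 1 → 0 < r → r ≤ 1 → 0 < M →
      C0 * r ≤ (M / r) ^ (p - 2) → (∀ x ∈ closedBall b0 r, u x ≤ M) →
      (∀ x ∈ closedBall b0 r, ⟪x - b0, ν⟫ ≤ 0 → u x = 0) →
      ∀ x ∈ closedBall b0 (r / K1), 0 ≤ ⟪x - b0, ν⟫ → u x ≤ C1 * (M / r) * ⟪x - b0, ν⟫ := by
  have hn : (0 : ℝ) ≤ n := Nat.cast_nonneg n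
  obtain ⟨K, hK⟩ : ∃ K : ℝ, K = 8 * (n + p) := ⟨_, rfl⟩
  have hK16 : 16 ≤ K := by rw [hK]; linarith
  have hK0 : 0 < K := by linarith
  refine ⟨8 * ‖b‖ + κ + 1, 8 * K, 2 * K, by positivity, by positivity, by linarith, ?_⟩
  intro κ' h0' h1' u hu b0 ν r M hν hr hr1 hM hC hb hz x hx hs0
  set s : ℝ := ⟪x - b0, ν⟫ with hs
  have hMr : 0 < M / r := div_pos hM hr
  have hnx : ‖x - b0‖ ≤ r / (2 * K) := by rwa [mem_closedBall, dist_eq_norm] at hx
  have hνν : ⟪ν, ν⟫ = (1 : ℝ) := by rw [real_inner_self_eq_norm_sq, hν]; norm_num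
  have hb1 : ‖(x - s • ν) - b0‖ ≤ ‖x - b0‖ := by
    have e1 : (x - s • ν) - b0 = (x - b0) - s • ν := by abel
    have e2 : ‖(x - b0) - s • ν‖ ^ 2 = ‖x - b0‖ ^ 2 - s ^ 2 := by
      rw [norm_sub_sq_real, real_inner_smul_right, ← hs, norm_smul, hν, mul_one,
        Real.norm_eq_abs, sq_abs]
      ring
    rw [e1]
    have : ‖(x - b0) - s • ν‖ ^ 2 ≤ ‖x - b0‖ ^ 2 := by rw [e2]; nlinarith [sq_nonneg s]
    exact lb_aux this (norm_nonneg _)
  have hrK : r / (2 * K) ≤ r / 2 := by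
    apply div_le_div_of_nonneg_left hr.le (by norm_num)
    linarith
  have hsub : ∀ y ∈ closedBall (x - s • ν) (r / 2), y ∈ closedBall b0 r := by
    intro y hy
    rw [mem_closedBall] at hy ⊢
    have : dist (x - s • ν) b0 ≤ r / 2 := by
      rw [dist_eq_norm]
      linarith
    linarith [dist_triangle y (x - s • ν) b0]
  have hsK : s ≤ r / 2 / K := by
    have e1 : s ≤ ‖x - b0‖ := by
      have := real_inner_le_norm (x - b0) ν
      rwa [hν, mul_one] at this
    have e2 : r / (2 * K) = r / 2 / K := by rw [div_div]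
    linarith
  have key := lb_basic hp b hκ hK h0' h1' hu (x - s • ν) ν (r / 2) M hν (by positivity)
    (by linarith) hM ?_ (fun y hy => hb y (hsub y hy)) ?_ s hs0 hsK
  · have e1 : x - s • ν + s • ν = x := by abel
    rw [e1] at key
    calc u x ≤ _ := key
      _ = _ := by field_simp; ring
  · have e1 : M / r ≤ M / (r / 2) := by
      apply div_le_div_of_nonneg_left hM.le (by positivity)
      linarith
    have e2 : (M / r) ^ (p - 2) ≤ (M / (r / 2)) ^ (p - 2) :=
      Real.rpow_le_rpow hMr.le e1 (by linarith)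
    have e3 : (8 * ‖b‖ + κ + 1) * (r / 2) ≤ (8 * ‖b‖ + κ + 1) * r :=
      mul_le_mul_of_nonneg_left (by linarith) (by positivity)
    linarith
  · intro y hy hyν
    refine hz y (hsub y hy) ?_
    have e1 : y - b0 = (y - (x - s • ν)) + ((x - b0) - s • ν) := by abel
    have e2 : ⟪(x - b0) - s • ν, ν⟫ = (0 : ℝ) := by
      rw [inner_sub_left, real_inner_smul_left, hνν, ← hs]; ring
    rw [e1, inner_add_left, e2]
    linarith

end Pool.Agent.TWC
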