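import Pool.Agent.TWC.PRO
import Pool.Agent.TWC.EXPW
import Pool.Agent.TWC.CRN
import Pool.Agent.TWC.LB

/-!
# TWC CD: decay at a top contact point

`P0 ∈ frontier Ω ∩ closure (Po W)` and `P0 + t e ∉ closure (Po W)` for `t > 0`. Then `W ≤ ε dw` near `P0` for
every `ε > 0`.

Step 1: `sup over ball P0 r of W = o(r)`: for every `ε > 0` there is `r > 0` with `W x ≤ ε s` for all `s ≤ r`,
`|x - P0| ≤ s`. Note `<P0,e> ≤ 0`.
Case `<P0,e> < 0`. Suppose not: there are `t = t_k → 0` and `x`, `|x-P0| ≤ t`, `W x > ε t`. Then `x ∈ Po W`. With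
`closedBall z0 ρ0 ⊆ Po W` (`ρ0 ≤ 1, r0`), `x' = (1-t) x + t z0`: `W ≥ 2^(-m) ε t =: μ` on
`closedBall x' (t ρ0) ⊆ Po W` (`ball_trick`), `|x'-P0| ≤ C3 t`. `r = θ t`, `θ = ρ0/2`. `w = P0 + 2t e ∈ frontier Ω`,
`ν` the normal at `P0`, `y = w + r ν`, `ball y r ⊆ O = Ω ∩ {height < 0}` for `t` small (`<P0,e> < 0`). `expw`
(`L'` fixed): with `s = C r^p/μ^(p-2) = C''(ε) t^2`: (`p - (p-2) = 2`) `W x'' ≥ c2 (μ/r)(r - |x'' - (y - (cs) e)|) > 0`
on `ball (y - (cs) e) r`. The frontier point `w - (c s) e = P0 + (2t - c s) e` is in the closure of this ball,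
hence in `closure (Po W)`; for `t` small `2t - c s > 0`: contradiction to the top property.
Case `<P0,e> = 0`. `Po W ⊆ {<x-P0,ν> > 0} ∩ {<x-P0,-e> > 0}` (`half`; `W = 0` for heights `≥ 0`), `ν ⊥ e`.
`W x ≤ C infDist x (Po W)ᶜ ≤ C max <x-P0,ν> 0` and `≤ C max <x-P0,-e> 0` (the distance to a half space
containing the complement...: the point `x - <x-P0,ν> ν` has `<·-P0,ν> = 0` so it is not in `Po W`). `crn`.
Step 2. Let `C0, C1, K1` be from `lb` (`b = c e`, `κ = ka p`). For `x ∈ Ω` near `P0`, `x = w + d ν` (`near_close`),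
`d ≤ |x-P0|`, `r := K1 |x-P0|` (`≤ 1`), `closedBall w r ⊆ closedBall P0 (r + 2|x-P0|) ⊆ closedBall P0 (3 r)`. Let
`M = max (sup of W on closedBall P0 (3r)) (r (C0 r)^(1/(p-2)))`, or `M = ε' r` with `ε' ` given: by step 1,
for `r` small `W ≤ ε' r` on `closedBall P0 (3r)`, and `(ε')^(p-2) ≥ C0 r` for `r` small. `lb` (`b0 = w`, normal `ν`;
`W = 0` where `<·-w,ν> ≤ 0` by `half`): `W x ≤ C1 ε' d`. Choose `ε' = ε/C1`.
-/

open Set Metric Filter Topology
open scoped RealInnerProductSpace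

noncomputable section

namespace Pool.Agent.TWC

variable {n : ℕ} {p c : ℝ} {e : E n} {r0 : ℝ} {Ω : Set (E n)} {Φ W : E n → ℝ}

private theorem CD_notMem (hΩ : Tube e r0 Ω) {w : E n} (hw : w ∈ frontier Ω) : w ∉ Ω := by
  rw [hΩ.isOpen.frontier_eq] at hw
  exact hw.2

private theorem CD_A (hp : 2 < p) (hc : 0 < c) (hΩ : Tube e r0 Ω) (hne : (Ωᶜ).Nonempty)
    (hW : WP p c e Ω Φ W) {P0 : E n} (hP0 : P0 ∈ frontier Ω) (hP0' : P0 ∈ closure (Po W))
    (htop : ∀ t : ℝ, 0 < t → P0 + t • e ∉ closure (Po W)) (hlt : ⟪P0, e⟫ < 0) {ε : ℝ}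
    (hε : 0 < ε) :
    ∃ r > 0, ∀ x ∈ ball P0 r, W x ≤ ε * ‖x - P0‖ := by
  by_contra hcon
  push Not at hcon
  have hr0 := hΩ.r0pos
  have hp2 : 0 < p - 2 := by linarith
  have hκ : 0 ≤ ka p := by
    unfold ka
    positivity
  obtain ⟨ν, hν, hb⟩ := hΩ.intball P0 hP0
  have hνe : ⟪ν, e⟫ = 0 := nu_perp hΩ hP0 hν hb
  have hnn : ∀ x, 0 ≤ W x := hW.sub.nn
  have hpo : Po W ⊆ Ω := po_sub hW
  have hpo2 : ∀ x ∈ Po W, ⟪x, e⟫ < 0 := by
    intro x hx
    by_contra hcx
    push Not at hcx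
    have := hW.right x hcx
    have hx' : 0 < W x := hx
    linarith
  have hz : ∀ x ∉ Po W, W x = 0 := by
    intro x hx
    have : ¬ 0 < W x := hx
    exact le_antisymm (not_lt.1 this) (hnn x)
  obtain ⟨z0, hz0⟩ : (Po W).Nonempty := closure_nonempty_iff.1 ⟨P0, hP0'⟩
  obtain ⟨ρ1, hρ1, hρ1'⟩ := Metric.isOpen_iff.1 hW.qs.isOpen z0 hz0
  obtain ⟨ρ0, hρ0, hρ01, hρ0r, hρ0b⟩ : ∃ ρ0 : ℝ, 0 < ρ0 ∧ ρ0 ≤ 1 ∧ ρ0 ≤ r0 ∧
      closedBall z0 ρ0 ⊆ Po W := by
    refine ⟨min (ρ1 / 2) (min 1 r0), by positivity,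
      (min_le_right _ _).trans (min_le_left _ _), (min_le_right _ _).trans (min_le_right _ _), ?_⟩
    refine (closedBall_subset_ball ?_).trans hρ1'
    exact lt_of_le_of_lt (min_le_left _ _) (by linarith)
  set C3 : ℝ := 2 + ‖z0 - P0‖ with hC3
  have hC30 : 0 < C3 := by positivity
  set L : ℝ := (C3 + 2 + ρ0) / ρ0 with hL
  have hL0 : 0 ≤ L := by positivity
  obtain ⟨C, c2, hC, hc2, hexp⟩ := expw hp n hL0
  set μ0 : ℝ := (1 / 2 : ℝ) ^ mm p * ε with hμ0
  have hμ00 : 0 < μ0 := by positivity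
  set Q : ℝ := C * ρ0 ^ p / μ0 ^ (p - 2) with hQ
  have hQ0 : 0 < Q := by positivity
  obtain ⟨x, hxb, hxW⟩ := hcon (min (1 / 2) (min (-⟪P0, e⟫ / (2 + ρ0)) (1 / (c * Q)))) (by
    have : 0 < -⟪P0, e⟫ := by linarith
    positivity)
  set t : ℝ := ‖x - P0‖ with ht
  rw [mem_ball, dist_eq_norm, ← ht] at hxb
  have ht1 : t < 1 / 2 := hxb.trans_le (min_le_left _ _)
  have ht2 : t * (2 + ρ0) < -⟪P0, e⟫ := by
    have := hxb.trans_le ((min_le_right _ _).trans (min_le_left _ _))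
    rwa [lt_div_iff₀ (by positivity)] at this
  have ht3 : t * (c * Q) < 1 := by
    have := hxb.trans_le ((min_le_right _ _).trans (min_le_right _ _))
    rwa [lt_div_iff₀ (by positivity)] at this
  have hP0n := CD_notMem hΩ hP0
  have ht0 : 0 < t := by
    rcases (norm_nonneg (x - P0)).eq_or_lt with h | h
    · exfalso
      have : x = P0 := sub_eq_zero.1 (norm_eq_zero.1 h.symm)
      rw [this, hW.off P0 hP0n] at hxW
      have : 0 ≤ ε * t := by positivity
      linarith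
    · exact h
  have hxP : x ∈ Po W := lt_trans (by positivity : 0 < ε * t) hxW
  set x' : E n := (1 - t) • x + t • z0 with hx'
  have htrick : ∀ z : E n, ‖z - x'‖ ≤ ρ0 * t → z ∈ Po W ∧ μ0 * t ≤ W z := by
    intro z hz'
    have h1 := ball_trick hp hW.qs hnn hz hρ0 hρ0b (subset_closure hxP) ht0 (by linarith : t ≤ 1)
      (h := (1 / t) • (z - x')) (by
        rw [norm_smul, Real.norm_eq_abs, abs_of_pos (by positivity), one_div,
          inv_mul_le_iff₀ ht0]
        linarith)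
    have e1 : (1 - t) • x + t • (z0 + (1 / t) • (z - x')) = z := by
      rw [smul_add, smul_smul, mul_one_div_cancel ht0.ne', one_smul, hx']
      abel
    rw [e1] at h1
    refine ⟨h1.1, le_trans ?_ h1.2⟩
    have hm : (1 / 2 : ℝ) ^ mm p ≤ (1 - t) ^ mm p := by
      apply Real.rpow_le_rpow (by norm_num) (by linarith)
      unfold mm
      exact (div_pos (by linarith) hp2).le
    calc μ0 * t = (1 / 2 : ℝ) ^ mm p * (ε * t) := by rw [hμ0]; ring
      _ ≤ (1 - t) ^ mm p * W x := by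
        apply mul_le_mul hm hxW.le (by positivity)
        exact Real.rpow_nonneg (by linarith) _
  set O : Set (E n) := Ω ∩ {x | ⟪x, e⟫ < 0} with hO
  have hOo : IsOpen O := hΩ.isOpen.inter (isOpen_lt (by fun_prop) continuous_const)
  have hOc : Convex ℝ O := by
    refine hΩ.convex.inter ?_
    intro a ha b hb' s u hs hu hsu
    simp only [mem_setOf_eq] at ha hb' ⊢
    rw [inner_add_left, real_inner_smul_left, real_inner_smul_left]
    rcases hs.eq_or_lt with h | h
    · rw [← h] at hsu ⊢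
      have : u = 1 := by linarith
      rw [this]
      linarith
    · nlinarith
  have hee : ⟪e, e⟫ = (1 : ℝ) := by
    rw [real_inner_self_eq_norm_sq, hΩ.unit]
    norm_num
  have hOinv : ∀ x ∈ O, ∀ t : ℝ, 0 ≤ t → x - t • e ∈ O := by
    rintro z ⟨hz1, hz2⟩ s hs
    refine ⟨?_, ?_⟩
    · have := hΩ.inv z hz1 (-s)
      rwa [neg_smul, ← sub_eq_add_neg] at this
    · simp only [mem_setOf_eq] at hz2 ⊢
      rw [inner_sub_left, real_inner_smul_left, hee]
      linarith
  have hmono : ∀ x, ∀ t : ℝ, 0 ≤ t → W x ≤ W (x - t • e) := by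
    intro z s hs
    have := hW.mono (z - s • e) s hs
    rwa [sub_add_cancel] at this
  set r : ℝ := ρ0 * t with hr
  have hr' : 0 < r := by positivity
  have hrr0 : r ≤ r0 := by
    have : ρ0 * t ≤ ρ0 * 1 := mul_le_mul_of_nonneg_left (by linarith) hρ0.le
    linarith
  set y : E n := P0 + (2 * t) • e + r • ν with hy
  have hbx : ball x' r ⊆ O := by
    intro z hz'
    rw [mem_ball, dist_eq_norm] at hz'
    have := (htrick z hz'.le).1
    exact ⟨hpo this, hpo2 z this⟩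
  have hby : ball y r ⊆ O := by
    intro z hz'
    rw [mem_ball, dist_eq_norm] at hz'
    refine ⟨?_, ?_⟩
    · have h1 : ball (P0 + r0 • ν + (2 * t) • e) r0 ⊆ Ω := ball_inv hΩ hb (2 * t)
      apply h1
      rw [mem_ball, dist_eq_norm]
      have e1 : z - (P0 + r0 • ν + (2 * t) • e) = (z - y) - (r0 - r) • ν := by
        rw [hy, sub_smul]
        abel
      rw [e1]
      refine (norm_sub_le _ _).trans_lt ?_
      rw [norm_smul, hν, mul_one, Real.norm_eq_abs, abs_of_nonneg (by linarith)]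
      linarith
    · simp only [mem_setOf_eq]
      have e1 : z = (z - y) + y := by abel
      rw [e1, inner_add_left, hy, inner_add_left, inner_add_left, real_inner_smul_left,
        real_inner_smul_left, hee, hνe]
      have h2 : ⟪z - (P0 + (2 * t) • e + r • ν), e⟫ ≤ ‖z - y‖ := by
        have := real_inner_le_norm (z - y) e
        rwa [hΩ.unit, mul_one] at this
      have h3 : t * (2 + ρ0) = 2 * t + r := by
        rw [hr]
        ring
      linarith
  have hLr : ‖x' - y‖ ≤ L * r := by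
    have e1 : L * r = (C3 + 2 + ρ0) * t := by
      rw [hL, hr]
      field_simp
    rw [e1]
    have e2 : x' - y = (x - P0) + t • (z0 - x) - ((2 * t) • e + r • ν) := by
      rw [hx', hy, sub_smul, smul_sub, one_smul]
      abel
    rw [e2]
    have h1 : ‖z0 - x‖ ≤ ‖z0 - P0‖ + t := by
      have e3 : z0 - x = (z0 - P0) - (x - P0) := by abel
      rw [e3]
      exact norm_sub_le _ _
    have h2 : ‖(x - P0) + t • (z0 - x)‖ ≤ t + t * (‖z0 - P0‖ + t) := by
      refine (norm_add_le _ _).trans ?_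
      rw [norm_smul, Real.norm_eq_abs, abs_of_pos ht0]
      have := mul_le_mul_of_nonneg_left h1 ht0.le
      linarith
    have h3 : ‖(2 * t) • e + r • ν‖ ≤ 2 * t + r := by
      refine (norm_add_le _ _).trans ?_
      rw [norm_smul, norm_smul, hν, hΩ.unit, Real.norm_eq_abs, Real.norm_eq_abs,
        abs_of_pos (by linarith), abs_of_pos hr']
      linarith
    refine (norm_sub_le _ _).trans ?_
    have h4 : t * (‖z0 - P0‖ + t) ≤ t * (‖z0 - P0‖ + 1) :=
      mul_le_mul_of_nonneg_left (by linarith) ht0.le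
    have h5 : (C3 + 2 + ρ0) * t = t + t * (‖z0 - P0‖ + 1) + (2 * t + r) := by
      rw [hC3, hr]
      ring
    linarith
  have hs : C * r ^ p / (μ0 * t) ^ (p - 2) = Q * t ^ 2 := by
    rw [hr, Real.mul_rpow hρ0.le ht0.le, Real.mul_rpow hμ00.le ht0.le, hQ]
    have h1 : t ^ p = t ^ (p - 2) * t ^ 2 := by
      rw [← Real.rpow_natCast, ← Real.rpow_add ht0]
      congr 1
      push_cast
      ring
    rw [h1]
    have h2 : (0 : ℝ) < t ^ (p - 2) := Real.rpow_pos_of_pos ht0 _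
    have h3 : (0 : ℝ) < μ0 ^ (p - 2) := Real.rpow_pos_of_pos hμ00 _
    field_simp
  have hfin := hexp c e (ka p) hc.le hκ O W hOo hOc hOinv hW.sup hmono x' y r (μ0 * t) hr'
    (by positivity) hbx hby hLr (fun z hz' => (htrick z (by linarith)).2) (Q * t ^ 2) hs.le
  -- contradiction
  have hpos : 0 < 2 * t - c * (Q * t ^ 2) := by
    have : c * (Q * t ^ 2) = t * (c * Q) * t := by ring
    rw [this]
    nlinarith
  apply htop _ hpos
  rw [Metric.mem_closure_iff]
  intro δ hδ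
  set a : E n := P0 + (2 * t - c * (Q * t ^ 2)) • e with ha
  refine ⟨a + (min (δ / 2) r) • ν, ?_, ?_⟩
  · have h1 := hfin (a + (min (δ / 2) r) • ν)
    have h0 : 0 < min (δ / 2) r := by positivity
    have e1 : a + (min (δ / 2) r) • ν - (y - (c * (Q * t ^ 2)) • e) = (min (δ / 2) r - r) • ν := by
      rw [ha, hy, sub_smul, sub_smul]
      abel
    rw [e1, norm_smul, hν, mul_one, Real.norm_eq_abs,
      abs_of_nonpos (by linarith [min_le_right (δ / 2) r])] at h1
    have h2 : 0 < c2 * (μ0 * t / r) * (r - -(min (δ / 2) r - r)) := by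
      have : r - -(min (δ / 2) r - r) = min (δ / 2) r := by ring
      rw [this]
      positivity
    exact h2.trans_le h1
  · rw [dist_eq_norm]
    have h0 : 0 < min (δ / 2) r := by positivity
    have e1 : a - (a + (min (δ / 2) r) • ν) = -((min (δ / 2) r) • ν) := by abel
    rw [e1, norm_neg, norm_smul, hν, mul_one, Real.norm_eq_abs, abs_of_pos h0]
    linarith [min_le_left (δ / 2) r]

private theorem CD_B (hp : 2 < p) (hΩ : Tube e r0 Ω)
    (hW : WP p c e Ω Φ W) {P0 : E n} (hP0 : P0 ∈ frontier Ω) (hz0 : ⟪P0, e⟫ = 0) {ε : ℝ}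
    (hε : 0 < ε) :
    ∃ r > 0, ∀ x ∈ ball P0 r, W x ≤ ε * ‖x - P0‖ := by
  have hp2 : 0 < p - 2 := by linarith
  have hκ : 0 ≤ ka p := by
    unfold ka
    positivity
  obtain ⟨ν, hν, hb⟩ := hΩ.intball P0 hP0
  have hνe : ⟪ν, e⟫ = 0 := nu_perp hΩ hP0 hν hb
  obtain ⟨C, hC⟩ := hW.lin
  have key : ∀ η : E n, ‖η‖ = 1 → (∀ x ∈ Po W, 0 < ⟪x - P0, η⟫) →
      ∀ x, W x ≤ max C 0 * max ⟪x - P0, η⟫ 0 := by
    intro η hη h x
    by_cases hx : x ∈ Po W
    · have h1 := h x hx
      have h2 : x - ⟪x - P0, η⟫ • η ∉ Po W := by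
        intro h3
        have h4 := h _ h3
        have e1 : x - ⟪x - P0, η⟫ • η - P0 = (x - P0) - ⟪x - P0, η⟫ • η := by abel
        rw [e1, inner_sub_left, real_inner_smul_left, real_inner_self_eq_norm_sq, hη] at h4
        linarith
      have h3 : infDist x (Po W)ᶜ ≤ ⟪x - P0, η⟫ := by
        have h4 : infDist x (Po W)ᶜ ≤ dist x (x - ⟪x - P0, η⟫ • η) := infDist_le_dist_of_mem h2
        rw [dist_eq_norm] at h4
        have e1 : x - (x - ⟪x - P0, η⟫ • η) = ⟪x - P0, η⟫ • η := by abel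
        rwa [e1, norm_smul, hη, mul_one, Real.norm_eq_abs, abs_of_pos h1] at h4
      calc W x ≤ C * infDist x (Po W)ᶜ := hC x
        _ ≤ max C 0 * infDist x (Po W)ᶜ :=
          mul_le_mul_of_nonneg_right (le_max_left _ _) infDist_nonneg
        _ ≤ max C 0 * max ⟪x - P0, η⟫ 0 :=
          mul_le_mul_of_nonneg_left (h3.trans (le_max_left _ _)) (le_max_right _ _)
    · have : ¬ 0 < W x := hx
      exact (not_lt.1 this).trans (mul_nonneg (le_max_right _ _) (le_max_right _ _))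
  have hpo : Po W ⊆ Ω := po_sub hW
  refine crn hp hκ hW.sub hν (μ := -e) (by rw [norm_neg, hΩ.unit])
    (by rw [inner_neg_right, hνe, neg_zero]) (r1 := 1) (C := max C 0) one_pos
    (fun x _ => key ν hν (fun z hz => half hΩ hP0 hν hb (hpo hz)) x)
    (fun x _ => key (-e) (by rw [norm_neg, hΩ.unit]) (fun z hz => ?_) x) hε
  rw [inner_neg_right, inner_sub_left, hz0, sub_zero]
  by_contra hcx
  have h1 := hW.right z (by linarith)
  have hx' : 0 < W z := hz
  linarith

theorem cd (hp : 2 < p) (hc : 0 < c) (hΩ : Tube e r0 Ω) (hne : (Ωᶜ).Nonempty)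
    (hW : WP p c e Ω Φ W) {P0 : E n} (hP0 : P0 ∈ frontier Ω) (hP0' : P0 ∈ closure (Po W))
    (htop : ∀ t : ℝ, 0 < t → P0 + t • e ∉ closure (Po W)) {ε : ℝ} (hε : 0 < ε) :
    ∃ r > 0, ∀ x ∈ ball P0 r, W x ≤ ε * dw Ω x := by
  have hp2 : 0 < p - 2 := by linarith
  have hκ : 0 ≤ ka p := by
    unfold ka
    positivity
  have hle : ⟪P0, e⟫ ≤ 0 := by
    have hcl : IsClosed {x : E n | ⟪x, e⟫ ≤ 0} := isClosed_le (by fun_prop) continuous_const
    refine closure_minimal (fun x hx => ?_) hcl hP0'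
    simp only [mem_setOf_eq]
    by_contra hcx
    push Not at hcx
    have h1 := hW.right x hcx.le
    have hx' : 0 < W x := hx
    linarith
  have step1 : ∀ ε : ℝ, 0 < ε → ∃ r > 0, ∀ x ∈ ball P0 r, W x ≤ ε * ‖x - P0‖ := by
    intro ε hε
    rcases hle.lt_or_eq with h | h
    · exact CD_A hp hc hΩ hne hW hP0 hP0' htop h hε
    · exact CD_B hp hΩ hW hP0 h hε
  obtain ⟨C0, C1, K1, hC0, hC1, hK1, hlb⟩ := lb hp (c • e) hκ
  have hK0 : 0 < K1 := by linarith
  obtain ⟨r2, hr2, hr2'⟩ := step1 (ε / (3 * C1)) (by positivity)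
  have hε3 : 0 < 3 * (ε / (3 * C1)) := by positivity
  have hB : 0 < (3 * (ε / (3 * C1))) ^ (p - 2) := Real.rpow_pos_of_pos hε3 _
  refine ⟨min (1 / K1) (min (r2 / (4 * K1)) ((3 * (ε / (3 * C1))) ^ (p - 2) / (C0 * K1))),
    by positivity, ?_⟩
  intro x hx
  rw [mem_ball, dist_eq_norm] at hx
  by_cases hxΩ : x ∈ Ω
  swap
  · rw [hW.off x hxΩ]
    exact mul_nonneg hε.le (dw_nonneg x)
  have hP0n := CD_notMem hΩ hP0
  have hxP : 0 < ‖x - P0‖ := norm_pos_iff.2 (sub_ne_zero.2 fun h => hP0n (h ▸ hxΩ))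
  have h1 : ‖x - P0‖ * K1 < 1 := by
    have := hx.trans_le (min_le_left _ _)
    rwa [lt_div_iff₀ hK0] at this
  have h2 : ‖x - P0‖ * (4 * K1) < r2 := by
    have := hx.trans_le ((min_le_right _ _).trans (min_le_left _ _))
    rwa [lt_div_iff₀ (by positivity)] at this
  have h3 : ‖x - P0‖ * (C0 * K1) < (3 * (ε / (3 * C1))) ^ (p - 2) := by
    have := hx.trans_le ((min_le_right _ _).trans (min_le_right _ _))
    rwa [lt_div_iff₀ (by positivity)] at this
  obtain ⟨w, ν, hw, hν, hb, hxw, hww⟩ := near_close hΩ hne hP0 hxΩ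
  have hd0 : 0 < dw Ω x := (dw_pos hΩ hne).2 hxΩ
  have hdx : dw Ω x ≤ ‖x - P0‖ := by
    rw [← dist_eq_norm]
    exact infDist_le_dist_of_mem hP0n
  have hxw2 : x - w = dw Ω x • ν := by
    nth_rewrite 1 [hxw]
    abel
  have hin : ⟪x - w, ν⟫ = dw Ω x := by
    rw [hxw2, real_inner_smul_left, real_inner_self_eq_norm_sq, hν]
    ring
  have hmain := hlb (ka p) hκ le_rfl W hW.sub w ν (K1 * ‖x - P0‖)
    (3 * (ε / (3 * C1)) * (K1 * ‖x - P0‖)) hν (by positivity) (by linarith) (by positivity)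
    (by
      rw [mul_div_assoc, div_self (by positivity), mul_one]
      nlinarith)
    (by
      intro z hz
      rw [mem_closedBall, dist_eq_norm] at hz
      have h4 : ‖z - P0‖ ≤ 3 * (K1 * ‖x - P0‖) := by
        have e1 : z - P0 = (z - w) + (w - P0) := by abel
        rw [e1]
        refine (norm_add_le _ _).trans ?_
        nlinarith
      have h5 : z ∈ ball P0 r2 := by
        rw [mem_ball, dist_eq_norm]
        nlinarith
      refine (hr2' z h5).trans ?_
      have : 0 ≤ ε / (3 * C1) := by positivity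
      calc ε / (3 * C1) * ‖z - P0‖ ≤ ε / (3 * C1) * (3 * (K1 * ‖x - P0‖)) :=
            mul_le_mul_of_nonneg_left h4 this
        _ = 3 * (ε / (3 * C1)) * (K1 * ‖x - P0‖) := by ring)
    (by
      intro z _ hz
      apply hW.off
      intro hzΩ
      have := half hΩ hw hν hb hzΩ
      linarith)
    x
    (by
      rw [mem_closedBall, dist_eq_norm, hxw2, norm_smul, hν, mul_one, Real.norm_eq_abs,
        abs_of_pos hd0, mul_div_cancel_left₀ _ hK0.ne']
      exact hdx)
    (by rw [hin]; exact hd0.le)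
  rw [hin, mul_div_assoc, div_self (by positivity), mul_one] at hmain
  have e1 : C1 * (3 * (ε / (3 * C1))) = ε := by
    field_simp
  rwa [e1] at hmain

end Pool.Agent.TWC
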