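import Pool.Agent.TWC.Defs

/-!
# TWC: further definitions (envelope, Perron family, packages)
-/

open Set Metric Filter Topology
open scoped RealInnerProductSpace

noncomputable section

namespace Pool.Agent.TWC

variable {n : ℕ}

/-- The two point envelope `sup (t u(y)^q + (1-t) u(z)^q)^m` over `y, z ∈ K`, `t y + (1-t) z = x`
(and `0`). -/
def env (p : ℝ) (K : Set (E n)) (u : E n → ℝ) (t : ℝ) (x : E n) : ℝ :=
  sSup {a | a = 0 ∨ ∃ y ∈ K, ∃ z ∈ K, t • y + (1 - t) • z = x ∧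
    a = (t * u y ^ qq p + (1 - t) * u z ^ qq p) ^ mm p}

/-- The Perron family: subsolutions below `Φ` vanishing for nonnegative heights. -/
def FF (p c : ℝ) (e : E n) (Φ : E n → ℝ) : Set (E n → ℝ) :=
  {w | Sub p (c • e) (ka p) w ∧ (∀ x, w x ≤ Φ x) ∧ ∀ x, 0 ≤ ⟪x, e⟫ → w x = 0}

/-- The largest element of the Perron family. -/
def WW (p c : ℝ) (e : E n) (Φ : E n → ℝ) : E n → ℝ :=
  uenv fun x => sSup {a | ∃ w ∈ FF p c e Φ, w x = a}

/-- The positivity set. -/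
def Po (u : E n → ℝ) : Set (E n) := {x | 0 < u x}

/-- Package of the properties of the maximal subsolution `W`. -/
structure WP (p c : ℝ) (e : E n) (Ω : Set (E n)) (Φ W : E n → ℝ) : Prop where
  cont : Continuous W
  sub : Sub p (c • e) (ka p) W
  sup : Sup p (c • e) (ka p) (Ω ∩ {x | ⟪x, e⟫ < 0}) W
  lePhi : ∀ x, W x ≤ Φ x
  off : ∀ x ∉ Ω, W x = 0
  right : ∀ x, 0 ≤ ⟪x, e⟫ → W x = 0
  mono : ∀ x, ∀ t : ℝ, 0 ≤ t → W (x + t • e) ≤ W x
  qs : QS p (c • e) (ka p) (Po W) W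
  left : ∃ R k : ℝ, 0 < k ∧ ∀ x, ⟪x, e⟫ ≤ -R → k * dw Ω x ≤ W x
  lin : ∃ C, ∀ x, W x ≤ C * infDist x (Po W)ᶜ

/-- Package of the properties of a q-concave travelling wave used for the tangency theorem. -/
structure TW (p c : ℝ) (e : E n) (Ω : Set (E n)) (φ : E n → ℝ) : Prop where
  cont : Continuous φ
  sub : Sub p (c • e) (ka p) φ
  sup : Sup p (c • e) (ka p) Ω φ
  off : ∀ x ∉ Ω, φ x = 0
  qs : QS p (c • e) (ka p) (Po φ) φ
  left : ∃ R k : ℝ, 0 < k ∧ ∀ x, ⟪x, e⟫ ≤ -R → k * dw Ω x ≤ φ x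
  right : ∃ R, ∀ x, R ≤ ⟪x, e⟫ → φ x = 0
  bdd : ∃ C, ∀ x, φ x ≤ C

end Pool.Agent.TWC
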