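import Pool.Agent.TWC.GEO
import Pool.Agent.TWC.Defs2

/-!
# TWC PRO: elementary facts on the support of `W`

* `po_proj`: `x ∈ Ω`: for `t ≥ t0`, `<x - t e, e> ≤ -R`, so `W (x - t e) ≥ k dw (x - t e) = k dw x > 0`.
* `po_down`: `x ∈ closure (Po W)`, `x ∈ Ω`, `t > 0`: let `t' > t` with `x - t' e ∈ Po W` (open convex). The open
  segment from the closure point `x` to the interior point `x - t' e` is in the interior of `Po W`
  (`Convex.combo_interior_closure_mem_interior` or similar) so `x - t e ∈ Po W`.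
* `ball_trick`: there are `z0, ρ0` with `closedBall z0 ρ0 ⊆ Po W` (`ρ0 > 0`), `g0 > 0` such that for all
  `x ∈ closure (Po W)`, `λ ∈ (0,1]` (`l`): `closedBall ((1-l) x + l z0) (l ρ0) ⊆ Po W` and there
  `W ≥ (1-l)^m W x`: for `h` with `|h| ≤ ρ0`: `(1-l) x + l (z0 + h)`; `W^q ≥ (1-l) W(x)^q` (`ConcaveOn` on
  `Po W` for `x ∈ Po W`; if `W x = 0` the bound is trivial; openness: as in `po_down`).
* `log_conc`: for `x, y ∈ Po W`, `0 ≤ s ≤ 1`: `W x^(1-s) W y^s ≤ W ((1-s) x + s y)`: weighted AM-GM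
  (`Real.geom_mean_le_arith_mean2_weighted`) for `W^q`, then power `m`.
-/

open Set Metric Filter Topology
open scoped RealInnerProductSpace

noncomputable section

namespace Pool.Agent.TWC

variable {n : ℕ} {p c : ℝ} {e : E n} {r0 : ℝ} {Ω : Set (E n)} {Φ W : E n → ℝ}

theorem po_proj (hΩ : Tube e r0 Ω) (hne : (Ωᶜ).Nonempty) (hW : WP p c e Ω Φ W) {x : E n}
    (hx : x ∈ Ω) : ∃ t0 : ℝ, ∀ t, t0 ≤ t → x - t • e ∈ Po W := by
  obtain ⟨R, k, hk, h⟩ := hW.left
  refine ⟨⟪x, e⟫ + R, fun t ht => ?_⟩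
  have e1 : x - t • e = x + (-t) • e := by
    rw [neg_smul, sub_eq_add_neg]
  have h1 : ⟪x - t • e, e⟫ = ⟪x, e⟫ - t := by
    rw [inner_sub_left, real_inner_smul_left, real_inner_self_eq_norm_sq, hΩ.unit]
    ring
  have h2 := h (x - t • e) (by rw [h1]; linarith)
  have h3 : dw Ω (x - t • e) = dw Ω x := by rw [e1, dw_inv hΩ]
  rw [h3] at h2
  have h4 : 0 < dw Ω x := (dw_pos hΩ hne).2 hx
  show 0 < W (x - t • e)
  exact (mul_pos hk h4).trans_le h2

theorem po_sub (hW : WP p c e Ω Φ W) : Po W ⊆ Ω := by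
  intro x hx
  by_contra h
  have h1 : 0 < W x := hx
  rw [hW.off x h] at h1
  exact lt_irrefl _ h1

theorem po_down (hΩ : Tube e r0 Ω) (hne : (Ωᶜ).Nonempty) (hW : WP p c e Ω Φ W) {x : E n}
    (hx : x ∈ Ω) (hx' : x ∈ closure (Po W)) {t : ℝ} (ht : 0 < t) : x - t • e ∈ Po W := by
  obtain ⟨t0, h0⟩ := po_proj hΩ hne hW hx
  obtain ⟨t', ht', ht1⟩ : ∃ t', t0 ≤ t' ∧ t < t' :=
    ⟨max t0 (t + 1), le_max_left _ _, (lt_add_one t).trans_le (le_max_right _ _)⟩
  have hpos : 0 < t' := ht.trans ht1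
  have h1 := h0 t' ht'
  rw [← hW.qs.isOpen.interior_eq] at h1
  have h2 := hW.qs.convex.combo_interior_closure_mem_interior h1 hx' (a := t / t')
    (b := 1 - t / t') (by positivity) (by
      rw [sub_nonneg, div_le_one hpos]
      exact ht1.le) (by ring)
  rw [hW.qs.isOpen.interior_eq] at h2
  have e1 : (t / t') • (x - t' • e) + (1 - t / t') • x = x - t • e := by
    rw [smul_sub, smul_smul, div_mul_cancel₀ _ hpos.ne', sub_smul, one_smul]
    abel
  rwa [e1] at h2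

private theorem PRO_qm (hp : 2 < p) : mm p * qq p = 1 := by
  unfold qq mm
  have h1 : p ≠ 0 := by positivity
  have h2 : p - 2 ≠ 0 := by linarith
  field_simp

private theorem PRO_q (hp : 2 < p) : 0 < qq p := by
  unfold qq
  exact div_pos (by linarith) (by linarith)

/-- The trick with a fixed interior ball, for any q-concave function. -/
theorem ball_trick (hp : 2 < p) {b : E n} {κ : ℝ} {S : Set (E n)} {u : E n → ℝ}
    (hu : QS p b κ S u) (hu0 : ∀ x, 0 ≤ u x) (huz : ∀ x ∉ S, u x = 0) {z0 : E n} {ρ0 : ℝ}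
    (hρ : 0 < ρ0) (hb : closedBall z0 ρ0 ⊆ S) {x : E n} (hx : x ∈ closure S) {l : ℝ} (hl : 0 < l)
    (hl1 : l ≤ 1) {h : E n} (hh : ‖h‖ ≤ ρ0) :
    (1 - l) • x + l • (z0 + h) ∈ S ∧ (1 - l) ^ mm p * u x ≤ u ((1 - l) • x + l • (z0 + h)) := by
  have hz : z0 + h ∈ S := hb (by
    rw [mem_closedBall, dist_eq_norm, add_sub_cancel_left]
    exact hh)
  have hl2 : 0 ≤ 1 - l := by linarith
  have hmem : (1 - l) • x + l • (z0 + h) ∈ S := by
    have h1 : z0 + h ∈ interior S := by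
      rw [hu.isOpen.interior_eq]
      exact hz
    have h2 := hu.convex.combo_interior_closure_mem_interior h1 hx hl hl2 (by ring)
    rw [hu.isOpen.interior_eq, add_comm] at h2
    exact h2
  refine ⟨hmem, ?_⟩
  by_cases hxS : x ∈ S
  · have h1 := hu.conc.2 hxS hz hl2 hl.le (by ring)
    simp only [smul_eq_mul] at h1
    have h2 : 0 ≤ l * u (z0 + h) ^ qq p := mul_nonneg hl.le (Real.rpow_nonneg (hu0 _) _)
    have hy := hu.pos _ hmem
    have h3 : 0 ≤ (1 - l) ^ mm p * u x := mul_nonneg (Real.rpow_nonneg hl2 _) (hu0 x)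
    rw [← Real.rpow_le_rpow_iff h3 hy.le (PRO_q hp), Real.mul_rpow (Real.rpow_nonneg hl2 _) (hu0 x),
      ← Real.rpow_mul hl2, PRO_qm hp, Real.rpow_one]
    linarith
  · rw [huz x hxS, mul_zero]
    exact hu0 _

theorem log_conc (hp : 2 < p) {b : E n} {κ : ℝ} {S : Set (E n)} {u : E n → ℝ}
    (hu : QS p b κ S u) {x y : E n} (hx : x ∈ S) (hy : y ∈ S) {s : ℝ} (hs : 0 ≤ s) (hs1 : s ≤ 1) :
    u x ^ (1 - s) * u y ^ s ≤ u ((1 - s) • x + s • y) := by
  have hs2 : 0 ≤ 1 - s := by linarith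
  have hz : (1 - s) • x + s • y ∈ S := hu.convex hx hy hs2 hs (by ring)
  have ux := hu.pos x hx
  have uy := hu.pos y hy
  have uz := hu.pos _ hz
  have h1 := hu.conc.2 hx hy hs2 hs (by ring)
  simp only [smul_eq_mul] at h1
  have h2 := Real.geom_mean_le_arith_mean2_weighted hs2 hs (Real.rpow_nonneg ux.le (qq p))
    (Real.rpow_nonneg uy.le (qq p)) (by ring)
  rw [← Real.rpow_le_rpow_iff (by positivity) uz.le (PRO_q hp),
    Real.mul_rpow (by positivity) (by positivity), ← Real.rpow_mul ux.le, ← Real.rpow_mul uy.le,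
    mul_comm (1 - s) (qq p), mul_comm s (qq p), Real.rpow_mul ux.le, Real.rpow_mul uy.le]
  exact h2.trans h1

end Pool.Agent.TWC
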