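import Pool.Agent.TWC.ZP

/-!
# TWC SL: non degeneracy of monotone subsolutions at the boundary of their support

`u` subsolution, nonincreasing in the direction `e` (`|e| = 1`, `c > 0`), `u = 0` for large heights, `z` in
the closure of `{u > 0}`. Then for all `A, r1 > 0` there is `x ∈ ball z r1` with `u x > A |x-z|^m`.

Proof. Suppose `u x ≤ A |x-z|^m` for all `x ∈ ball z r1` (`A > 0`). By monotonicity for `t ≥ 0`
`u (x + t e) ≤ u x ≤ A |x-z|^m`: (1) `u x ≤ A |x - z_t|^m` on `ball z_t r1`, `z_t = z + t e`. Let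
`t* = sSup {t ≥ 0 : z_t ∈ closure {u > 0}}` (finite as `u = 0` for large heights, contains `0`; the set
is closed so `z_{t*}` is in the closure) and `h = c T` where `0 < T ≤ 1`, `T ≤ (c5/A)^(p-2)`, i.e.
`A ≤ c5 T^(-ka p)`. The point `y1 = z_{t*} + h e` is not in the closure, so there is `0 < ρ < r1` with
`u = 0` on `closedBall y1 ρ`. By (1), `u ≤ A ρ^m` on `closedBall z_t ρ` for every `t ≥ 0` and
`A ρ^m ≤ c5 ρ^m T^(-ka p)`. `zp` gives `u = 0` on `closedBall z_{t*} (ρ/4)`, contradicting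
`z_{t*} ∈ closure {u > 0}`. (`(y1 - (c τ) e) = z_{t* + c (T - τ)}`.)
-/

open Set Metric Filter Topology
open scoped RealInnerProductSpace

noncomputable section

namespace Pool.Agent.TWC

variable {n : ℕ} {p : ℝ}

theorem sl (hp : 2 < p) {c : ℝ} (hc : 0 < c) {e : E n} (he : ‖e‖ = 1) {u : E n → ℝ}
    (hu : Sub p (c • e) (ka p) u) (hmono : ∀ x, ∀ t : ℝ, 0 ≤ t → u (x + t • e) ≤ u x)
    (hright : ∃ R, ∀ x, R ≤ ⟪x, e⟫ → u x = 0) {z : E n} (hz : z ∈ closure {x | 0 < u x})
    {A r1 : ℝ} (hA : 0 < A) (hr1 : 0 < r1) :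
    ∃ x, ‖x - z‖ < r1 ∧ A * ‖x - z‖ ^ mm p < u x := by
  by_contra hcon
  push Not at hcon
  have hp2 : 0 < p - 2 := by linarith
  have hm0 : 0 < mm p := by unfold mm; exact div_pos (by linarith) hp2
  have ha0 : 0 < ka p := by unfold ka; positivity
  obtain ⟨c5, hc5, hzp⟩ := zp hp n
  obtain ⟨R, hR⟩ := hright
  set F : Set (E n) := closure {x | 0 < u x} with hF
  set S : Set ℝ := {t | 0 ≤ t ∧ z + t • e ∈ F} with hS
  have hee : ⟪e, e⟫ = (1 : ℝ) := by rw [real_inner_self_eq_norm_sq, he]; norm_num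
  have hFR : F ⊆ {x | ⟪x, e⟫ ≤ R} := by
    refine closure_minimal ?_ (isClosed_le (by fun_prop) continuous_const)
    intro x hx
    by_contra h
    have h1 : R ≤ ⟪x, e⟫ := by
      have : ¬ ⟪x, e⟫ ≤ R := h
      linarith [not_le.1 this]
    have h2 : 0 < u x := hx
    rw [hR x h1] at h2
    exact lt_irrefl _ h2
  have hSne : S.Nonempty := ⟨0, le_refl 0, by rw [zero_smul, add_zero]; exact hz⟩
  have hSb : BddAbove S := by
    refine ⟨R - ⟪z, e⟫, ?_⟩
    rintro t ⟨ht0, ht⟩
    have h1 : ⟪z + t • e, e⟫ ≤ R := hFR ht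
    rw [inner_add_left, inner_smul_left, hee] at h1
    simp only [conj_trivial, mul_one] at h1
    linarith
  have hScl : IsClosed S := by
    refine (isClosed_le continuous_const continuous_id).inter ?_
    exact isClosed_closure.preimage (by fun_prop)
  have hts : sSup S ∈ S := hScl.csSup_mem hSne hSb
  set ts := sSup S with htsdef
  obtain ⟨T, hT, hT1, hTA⟩ : ∃ T : ℝ, 0 < T ∧ T ≤ 1 ∧ A ≤ c5 * T ^ (-ka p) := by
    refine ⟨min 1 ((c5 / A) ^ (p - 2)), lt_min one_pos (by positivity), min_le_left _ _, ?_⟩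
    have h1 : ((c5 / A) ^ (p - 2)) ^ (-ka p) ≤ (min 1 ((c5 / A) ^ (p - 2))) ^ (-ka p) :=
      Real.rpow_le_rpow_of_nonpos (lt_min one_pos (by positivity)) (min_le_right _ _)
        (by linarith)
    have h2 : ((c5 / A) ^ (p - 2)) ^ (-ka p) = A / c5 := by
      rw [← Real.rpow_mul (by positivity)]
      have : (p - 2) * -ka p = -1 := by unfold ka; field_simp
      rw [this, Real.rpow_neg_one, inv_div]
    rw [h2] at h1
    have h3 := mul_le_mul_of_nonneg_left h1 hc5.le
    rwa [mul_div_cancel₀ _ hc5.ne'] at h3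
  set y1 : E n := z + (ts + c * T) • e with hy1
  have hy1F : y1 ∉ F := by
    intro h
    have h1 : ts + c * T ∈ S := ⟨by have := hts.1; positivity, h⟩
    have h2 := le_csSup hSb h1
    have : 0 < c * T := by positivity
    linarith
  obtain ⟨ρ', hρ', hball⟩ := Metric.isOpen_iff.1 isClosed_closure.isOpen_compl y1 hy1F
  obtain ⟨ρ, hρ, hρρ, hρr⟩ : ∃ ρ : ℝ, 0 < ρ ∧ ρ < ρ' ∧ ρ < r1 := by
    refine ⟨min ρ' r1 / 2, by positivity, ?_, ?_⟩
    · have := min_le_left ρ' r1
      have : 0 < min ρ' r1 := lt_min hρ' hr1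
      linarith
    · have := min_le_right ρ' r1
      have : 0 < min ρ' r1 := lt_min hρ' hr1
      linarith
  have hb : ∀ t : ℝ, 0 ≤ t → ∀ x, ‖x - (z + t • e)‖ ≤ ρ → u x ≤ A * ρ ^ mm p := by
    intro t ht x hx
    have h1 := hmono (x - t • e) t ht
    rw [sub_add_cancel] at h1
    have e1 : x - t • e - z = x - (z + t • e) := by abel
    have h2 := hcon (x - t • e) (by rw [e1]; linarith)
    rw [e1] at h2
    refine h1.trans (h2.trans ?_)
    exact mul_le_mul_of_nonneg_left (Real.rpow_le_rpow (norm_nonneg _) hx hm0.le) hA.le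
  have hfin := hzp c e (ka p) ha0.le (le_refl _) u hu y1 ρ T (A * ρ ^ mm p) hρ hT hT1 (by
      have h1 := mul_le_mul_of_nonneg_right hTA (show 0 ≤ ρ ^ mm p by positivity)
      linarith) (by
      intro x hx
      by_contra hne
      have h1 : 0 < u x := lt_of_le_of_ne (hu.nn x) (Ne.symm hne)
      have h2 : x ∈ F := subset_closure h1
      exact hball (by rw [mem_ball, dist_eq_norm]; linarith) h2) (by
      intro τ hτ0 hτT x hx
      refine hb (ts + c * (T - τ)) ?_ x ?_
      · have := hts.1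
        have : 0 ≤ c * (T - τ) := mul_nonneg hc.le (by linarith)
        linarith
      · have e1 : z + (ts + c * (T - τ)) • e = y1 - (c * τ) • e := by
          rw [hy1]
          module
        rw [e1]
        exact hx)
  have e2 : y1 - (c * T) • e = z + ts • e := by
    rw [hy1]
    module
  rw [e2] at hfin
  obtain ⟨x, hx1, hx2⟩ := Metric.mem_closure_iff.1 hts.2 (ρ / 4) (by linarith)
  have h1 := hfin x (by rw [dist_comm, dist_eq_norm] at hx2; exact hx2.le)
  have h2 : 0 < u x := hx1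
  rw [h1] at h2
  exact lt_irrefl _ h2

end Pool.Agent.TWC
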