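import Pool.Agent.TWC.PRO
import Pool.Agent.TWC.EXPW
import Pool.Agent.TWC.SL

/-!
# TWC W1: below a wall point of the closure of the support, `W ≥ k d`

`w0 ∈ frontier Ω ∩ closure (Po W)`, `L > 0`: `W ≥ k dw` on `Ω ∩ ball (w0 - L e) r`.

Proof. Fix `closedBall z0 ρ0 ⊆ Po W` (`Po W` open nonempty; `ρ0 ≤ 1`, `ρ0 ≤ r0`). `O = Ω ∩ {height < 0}`: open,
convex, `O - t e ⊆ O`; `Po W ⊆ O`; `W` supersolution on `O`, monotone.
`sl` at `z = w0` (`W w0 = 0` since `w0 ∉ Ω`): for every `A ≥ 1` and `r1 > 0` there is `x` with `t := |x-w0| < r1`,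
`W x > A t^m`; `t > 0` since `W w0 = 0`. Let `x' = (1-t) x + t z0` (`t ≤ 1/2`): by `ball_trick`
(`h = ρ/t...`: points `x' + t h`, `|h| ≤ ρ0`): `W ≥ 2^(-m) A t^m =: μ` on `closedBall x' (t ρ0)`, and this
ball is in `Po W ⊆ O`. `|x' - w0| ≤ t + t |z0 - x| ≤ C3 t`, `C3 = |z0 - w0| + 3`.
Let `θ = ρ0/2`, `r = θ t`. For `w ∈ frontier Ω` with `|w - (w0 - 2t e)| ≤ t/4`, normal `ν`: `y = w + r ν`,
`ball y r ⊆ Ω` (`r ≤ r0`: contained in `ball (w + r0 ν) r0`), heights `≤ <w0,e> - 2t + t/4 + 2r < 0`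
(`<w0,e> ≤ 0`): `ball y r ⊆ O`. `|x'-y| ≤ (C3 + 2 + 1/4 + 1) t = L' r`, `L' = (C3+4)/θ`. `ball x' r ⊆ O`, `W ≥ μ` on
`closedBall x' (r/4)`. `expw` (constants `C, c2` for `L'`): for all `s ≥ C r^p/μ^(p-2)` and all `x''`:
`W x'' ≥ c2 (μ/r)(r - |x'' - (y - (c s) e)|)`. Here `C r^p/μ^(p-2) = C θ^p t^p 2^(m(p-2))/(A^(p-2) t^(m(p-2)))
= C''/A^(p-2)` since `m(p-2) = p`; so choose `A` with `c C''/A^(p-2) < L/2` and `r1 ≤ L/8` (and `r1 ≤ 1/2`): then
`s := (L - 2t)/c ≥ C r^p/μ^(p-2)`. So for all `w` as above and `w' = w - (L - 2t) e` (these are exactly the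
frontier points with `|w' - (w0 - L e)| ≤ t/4`; the normal is the same, `nu_perp`, `frontier_inv`), and
`0 ≤ d ≤ r`: `W (w' + d ν) ≥ c2 (μ/r) d`. Every `x ∈ Ω` with `|x - (w0 - L e)| < min (t/8) r` is of this form with
`d = dw x` (`near_close`). `k = c2 μ/r`.
-/

open Set Metric Filter Topology
open scoped RealInnerProductSpace

noncomputable section

namespace Pool.Agent.TWC

variable {n : ℕ} {p c : ℝ} {e : E n} {r0 : ℝ} {Ω : Set (E n)} {Φ W : E n → ℝ}

private theorem W1_mm (hp : 2 < p) : 0 < mm p := by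
  unfold mm
  exact div_pos (by linarith) (by linarith)

private theorem W1_O (e : E n) (hΩ : Tube e r0 Ω) :
    IsOpen (Ω ∩ {x | ⟪x, e⟫ < 0}) ∧ Convex ℝ (Ω ∩ {x | ⟪x, e⟫ < 0}) ∧
      ∀ x ∈ Ω ∩ {x | ⟪x, e⟫ < 0}, ∀ t : ℝ, 0 ≤ t → x - t • e ∈ Ω ∩ {x | ⟪x, e⟫ < 0} := by
  refine ⟨hΩ.isOpen.inter ?_, hΩ.convex.inter ?_, ?_⟩
  · exact isOpen_lt (continuous_id.inner continuous_const) continuous_const
  · intro x hx y hy a b ha hb hab
    show ⟪a • x + b • y, e⟫ < 0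
    have hx' : ⟪x, e⟫ < 0 := hx
    have hy' : ⟪y, e⟫ < 0 := hy
    rw [inner_add_left, real_inner_smul_left, real_inner_smul_left]
    rcases ha.eq_or_lt with h | h
    · rw [← h] at hab ⊢
      have hb1 : b = 1 := by linarith
      rw [hb1]
      linarith
    · have h1 : a * ⟪x, e⟫ < 0 := mul_neg_of_pos_of_neg h hx'
      have h2 : b * ⟪y, e⟫ ≤ 0 := mul_nonpos_of_nonneg_of_nonpos hb hy'.le
      linarith
  · rintro x ⟨hx, hx'⟩ t ht
    have hx2 : ⟪x, e⟫ < 0 := hx'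
    constructor
    · have := hΩ.inv x hx (-t)
      rwa [neg_smul, ← sub_eq_add_neg] at this
    · show ⟪x - t • e, e⟫ < 0
      rw [inner_sub_left, real_inner_smul_left, real_inner_self_eq_norm_sq, hΩ.unit]
      linarith

private theorem W1_powers (hp : 2 < p) {θ t B : ℝ} (hθ : 0 < θ) (ht : 0 < t) (hB : 0 < B) (C : ℝ) :
    C * (θ * t) ^ p / (B * t ^ mm p) ^ (p - 2) = C * θ ^ p / B ^ (p - 2) := by
  have h1 : (t ^ mm p) ^ (p - 2) = t ^ p := by
    rw [← Real.rpow_mul ht.le]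
    congr 1
    unfold mm
    have : p - 2 ≠ 0 := by linarith
    field_simp
  rw [Real.mul_rpow hθ.le ht.le, Real.mul_rpow hB.le (Real.rpow_nonneg ht.le _), h1]
  have h2 : (0 : ℝ) < t ^ p := Real.rpow_pos_of_pos ht _
  have h3 : (0 : ℝ) < B ^ (p - 2) := Real.rpow_pos_of_pos hB _
  field_simp

theorem w1 (hp : 2 < p) (hc : 0 < c) (hΩ : Tube e r0 Ω) (hne : (Ωᶜ).Nonempty)
    (hW : WP p c e Ω Φ W) {w0 : E n} (hw0 : w0 ∈ frontier Ω) (hw0' : w0 ∈ closure (Po W))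
    {L : ℝ} (hL : 0 < L) :
    ∃ r k : ℝ, 0 < r ∧ 0 < k ∧ ∀ x ∈ Ω ∩ ball (w0 - L • e) r, k * dw Ω x ≤ W x := by
  have hm := W1_mm hp
  have hr0 := hΩ.r0pos
  have hw0n : w0 ∉ Ω := by
    rw [hΩ.isOpen.frontier_eq] at hw0
    exact hw0.2
  have hW0 : W w0 = 0 := hW.off w0 hw0n
  have hPoΩ : Po W ⊆ Ω := po_sub hW
  set O : Set (E n) := Ω ∩ {x | ⟪x, e⟫ < 0} with hO
  obtain ⟨hOo, hOc, hOt⟩ := W1_O e hΩ
  rw [← hO] at hOo hOc hOt
  have hPoO : Po W ⊆ O := by
    intro x hx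
    refine ⟨hPoΩ hx, ?_⟩
    show ⟪x, e⟫ < 0
    by_contra h
    push Not at h
    have h1 : 0 < W x := hx
    rw [hW.right x h] at h1
    exact lt_irrefl _ h1
  have hh0 : ⟪w0, e⟫ ≤ 0 := by
    have hcl : IsClosed {x : E n | ⟪x, e⟫ ≤ 0} :=
      isClosed_le (continuous_id.inner continuous_const) continuous_const
    have hsub : Po W ⊆ {x : E n | ⟪x, e⟫ ≤ 0} := by
      intro x hx
      have h1 : ⟪x, e⟫ < 0 := (hPoO hx).2
      exact h1.le
    exact closure_minimal hsub hcl hw0'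
  -- the fixed interior ball
  obtain ⟨z0, hz0⟩ : (Po W).Nonempty := closure_nonempty_iff.1 ⟨w0, hw0'⟩
  obtain ⟨ρ1, hρ1, hb1⟩ := Metric.isOpen_iff.1 hW.qs.isOpen z0 hz0
  set ρ0 : ℝ := min (ρ1 / 2) (min 1 r0) with hρ0d
  have hρ0 : 0 < ρ0 := lt_min (by positivity) (lt_min one_pos hr0)
  have hρ01 : ρ0 ≤ 1 := (min_le_right _ _).trans (min_le_left _ _)
  have hρ0r : ρ0 ≤ r0 := (min_le_right _ _).trans (min_le_right _ _)
  have hb : closedBall z0 ρ0 ⊆ Po W := by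
    intro z hz
    apply hb1
    rw [mem_closedBall] at hz
    rw [mem_ball]
    have : ρ0 ≤ ρ1 / 2 := min_le_left _ _
    linarith
  set D : ℝ := ‖z0 - w0‖ with hD
  have hD0 : 0 ≤ D := norm_nonneg _
  set θ : ℝ := ρ0 / 2 with hθd
  have hθ : 0 < θ := by positivity
  set L' : ℝ := (D + 3 + 4) / θ with hL'
  have hL'0 : 0 ≤ L' := by positivity
  obtain ⟨C, c2, hC, hc2, hexp⟩ := expw hp n hL'0
  -- the level constant
  set K : ℝ := 2 * c * C * θ ^ p / L with hK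
  have hK0 : 0 < K := by
    have : (0 : ℝ) < θ ^ p := Real.rpow_pos_of_pos hθ _
    positivity
  set B : ℝ := K ^ (1 / (p - 2)) with hBd
  have hB : 0 < B := Real.rpow_pos_of_pos hK0 _
  have hBp : B ^ (p - 2) = K := by
    rw [hBd, ← Real.rpow_mul hK0.le, one_div, inv_mul_cancel₀ (by linarith), Real.rpow_one]
  set A : ℝ := 2 ^ mm p * B with hAd
  have hA : 0 < A := mul_pos (Real.rpow_pos_of_pos two_pos _) hB
  set r1 : ℝ := min (1 / 2) (L / 8) with hr1d
  have hr1 : 0 < r1 := lt_min (by norm_num) (by positivity)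
  obtain ⟨x, hx1, hx2⟩ := sl hp hc hΩ.unit hW.sub hW.mono ⟨0, fun y hy => hW.right y hy⟩
    hw0' hA hr1
  set t : ℝ := ‖x - w0‖ with htd
  have ht0 : 0 ≤ t := norm_nonneg _
  have ht : 0 < t := by
    rcases ht0.eq_or_lt with h | h
    · exfalso
      have hxw : x = w0 := by
        have : ‖x - w0‖ = 0 := by rw [← htd, ← h]
        exact sub_eq_zero.1 (norm_eq_zero.1 this)
      rw [hxw, hW0] at hx2
      have : 0 ≤ A * t ^ mm p := mul_nonneg hA.le (Real.rpow_nonneg ht0 _)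
      linarith
    · exact h
  have ht2 : t ≤ 1 / 2 := hx1.le.trans (min_le_left _ _)
  have htL : t ≤ L / 8 := hx1.le.trans (min_le_right _ _)
  have htm : (0 : ℝ) < t ^ mm p := Real.rpow_pos_of_pos ht _
  have hxPo : x ∈ Po W := by
    show 0 < W x
    have : 0 < A * t ^ mm p := mul_pos hA htm
    linarith
  set μ : ℝ := B * t ^ mm p with hμd
  have hμ : 0 < μ := mul_pos hB htm
  set x' : E n := (1 - t) • x + t • z0 with hx'd
  have hWn : ∀ z, 0 ≤ W z := hW.sub.nn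
  have hoff : ∀ z ∉ Po W, W z = 0 := by
    intro z hz
    have h1 : ¬ 0 < W z := hz
    exact le_antisymm (not_lt.1 h1) (hWn z)
  have hball : ∀ y, ‖y - x'‖ ≤ t * ρ0 → y ∈ Po W ∧ μ ≤ W y := by
    intro y hy
    have hh : ‖t⁻¹ • (y - x')‖ ≤ ρ0 := by
      rw [norm_smul, norm_inv, Real.norm_of_nonneg ht0]
      rw [inv_mul_le_iff₀ ht]
      exact hy
    have h1 := ball_trick hp hW.qs hWn hoff hρ0 hb (subset_closure hxPo) ht (by linarith) hh
    have e1 : (1 - t) • x + t • (z0 + t⁻¹ • (y - x')) = y := by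
      rw [smul_add, smul_smul, mul_inv_cancel₀ ht.ne', one_smul, hx'd]
      abel
    rw [e1] at h1
    refine ⟨h1.1, le_trans ?_ h1.2⟩
    have h2 : (1 / 2 : ℝ) ^ mm p ≤ (1 - t) ^ mm p :=
      Real.rpow_le_rpow (by norm_num) (by linarith) hm.le
    have h3 : (1 / 2 : ℝ) ^ mm p * (2 : ℝ) ^ mm p = 1 := by
      rw [← Real.mul_rpow (by norm_num) (by norm_num)]
      norm_num
    calc μ = (1 / 2 : ℝ) ^ mm p * (A * t ^ mm p) := by
          rw [hμd, hAd]
          calc B * t ^ mm p = ((1 / 2 : ℝ) ^ mm p * (2 : ℝ) ^ mm p) * (B * t ^ mm p) := by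
                rw [h3, one_mul]
            _ = _ := by ring
      _ ≤ (1 - t) ^ mm p * W x := by
          refine mul_le_mul h2 hx2.le (mul_nonneg hA.le htm.le) (Real.rpow_nonneg (by linarith) _)
  set r : ℝ := θ * t with hrd
  have hr : 0 < r := mul_pos hθ ht
  have hrρ : r ≤ t * ρ0 := by
    rw [hrd, hθd]
    nlinarith
  have hrt : 2 * r ≤ t := by
    rw [hrd, hθd]
    nlinarith
  have hrr0 : r ≤ r0 := by
    rw [hrd, hθd]
    nlinarith
  have hx'O : ball x' r ⊆ O := by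
    intro y hy
    rw [mem_ball, dist_eq_norm] at hy
    exact hPoO (hball y (hy.le.trans hrρ)).1
  have hx'w : ‖x' - w0‖ ≤ (D + 3) * t := by
    have e1 : x' - w0 = (1 - t) • (x - w0) + t • (z0 - w0) := by
      rw [hx'd, smul_sub, smul_sub, sub_smul, sub_smul, one_smul, one_smul]
      abel
    rw [e1]
    refine (norm_add_le _ _).trans ?_
    rw [norm_smul, norm_smul, Real.norm_of_nonneg (by linarith : (0:ℝ) ≤ 1 - t),
      Real.norm_of_nonneg ht0, ← htd, ← hD]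
    nlinarith
  have hκ : 0 ≤ ka p := by
    unfold ka
    exact (one_div_pos.2 (by linarith)).le
  have hmono' : ∀ x : E n, ∀ t : ℝ, 0 ≤ t → W x ≤ W (x - t • e) := by
    intro x t ht
    have := hW.mono (x - t • e) t ht
    rwa [sub_add_cancel] at this
  set s : ℝ := (L - 2 * t) / c with hsd
  have hs : C * r ^ p / μ ^ (p - 2) ≤ s := by
    rw [hrd, hμd, W1_powers hp hθ ht hB C, hBp, hK]
    have hθp : (0 : ℝ) < θ ^ p := Real.rpow_pos_of_pos hθ _
    have e1 : C * θ ^ p / (2 * c * C * θ ^ p / L) = L / (2 * c) := by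
      field_simp
    rw [e1, hsd, div_le_div_iff₀ (by positivity) hc]
    nlinarith
  have hcs : c * s = L - 2 * t := by
    rw [hsd]
    field_simp
  refine ⟨min (t / 8) r, c2 * (μ / r), lt_min (by positivity) hr, by positivity, ?_⟩
  rintro z ⟨hzΩ, hz⟩
  rw [mem_ball, dist_eq_norm] at hz
  have hz1 : ‖z - (w0 - L • e)‖ < t / 8 := hz.trans_le (min_le_left _ _)
  have hz2 : ‖z - (w0 - L • e)‖ < r := hz.trans_le (min_le_right _ _)
  have hw0L : w0 - L • e ∈ frontier Ω := by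
    have := frontier_inv hΩ hw0 (-L)
    rwa [neg_smul, ← sub_eq_add_neg] at this
  obtain ⟨w', ν, hw', hν, hbν, hzw, hww⟩ := near_close hΩ hne hw0L hzΩ
  have hd0 : 0 ≤ dw Ω z := dw_nonneg z
  have hdr : dw Ω z ≤ r := by
    have h1 := dw_lip (Ω := Ω) z (w0 - L • e)
    have h2 : dw Ω (w0 - L • e) = 0 := by
      unfold dw
      rw [hΩ.isOpen.frontier_eq] at hw0L
      exact infDist_zero_of_mem hw0L.2
    rw [h2, sub_zero, abs_of_nonneg hd0] at h1
    linarith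
  set w : E n := w' + (L - 2 * t) • e with hwd
  have hw : w ∈ frontier Ω := frontier_inv hΩ hw' _
  have hbw : ball (w + r0 • ν) r0 ⊆ Ω := by
    have := ball_inv hΩ hbν (L - 2 * t)
    have e1 : w' + r0 • ν + (L - 2 * t) • e = w + r0 • ν := by
      rw [hwd]
      abel
    rwa [e1] at this
  have hwt : ‖w - (w0 - (2 * t) • e)‖ ≤ t / 4 := by
    have e1 : w - (w0 - (2 * t) • e) = w' - (w0 - L • e) := by
      rw [hwd, sub_smul]
      abel
    rw [e1]
    linarith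
  set y : E n := w + r • ν with hyd
  have hyO : ball y r ⊆ O := by
    intro u hu
    rw [mem_ball, dist_eq_norm] at hu
    constructor
    · apply hbw
      rw [mem_ball, dist_eq_norm]
      have e1 : u - (w + r0 • ν) = (u - y) + (-(r0 - r)) • ν := by
        rw [hyd, neg_smul, sub_smul]
        abel
      rw [e1]
      refine (norm_add_le _ _).trans_lt ?_
      rw [norm_smul, hν, norm_neg, Real.norm_of_nonneg (by linarith : (0:ℝ) ≤ r0 - r)]
      linarith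
    · show ⟪u, e⟫ < 0
      have e1 : u = (u - y) + r • ν + (w - (w0 - (2 * t) • e)) + w0 - (2 * t) • e := by
        rw [hyd]
        abel
      have h1 : ⟪u, e⟫ = ⟪u - y, e⟫ + r * ⟪ν, e⟫ + ⟪w - (w0 - (2 * t) • e), e⟫ + ⟪w0, e⟫ -
          2 * t := by
        conv_lhs => rw [e1]
        rw [inner_sub_left, inner_add_left, inner_add_left, inner_add_left, real_inner_smul_left,
          real_inner_smul_left, real_inner_self_eq_norm_sq, hΩ.unit]
        ring
      have h2 : ⟪ν, e⟫ = 0 := nu_perp hΩ hw hν hbw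
      have h3 : ⟪u - y, e⟫ ≤ ‖u - y‖ := by
        have := real_inner_le_norm (u - y) e
        rwa [hΩ.unit, mul_one] at this
      have h4 : ⟪w - (w0 - (2 * t) • e), e⟫ ≤ t / 4 := by
        have := real_inner_le_norm (w - (w0 - (2 * t) • e)) e
        rw [hΩ.unit, mul_one] at this
        exact this.trans hwt
      rw [h1, h2]
      linarith
  have hxy : ‖x' - y‖ ≤ L' * r := by
    have e1 : x' - y = (x' - w0) + (2 * t) • e - (w - (w0 - (2 * t) • e)) - r • ν := by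
      rw [hyd]
      abel
    have e2 : L' * r = (D + 3 + 4) * t := by
      rw [hL', hrd]
      field_simp
    rw [e1, e2]
    refine (norm_sub_le _ _).trans ?_
    have h1 : ‖(x' - w0) + (2 * t) • e - (w - (w0 - (2 * t) • e))‖
        ≤ ‖x' - w0‖ + ‖(2 * t) • e‖ + ‖w - (w0 - (2 * t) • e)‖ :=
      (norm_sub_le _ _).trans (add_le_add (norm_add_le _ _) le_rfl)
    have h2 : ‖(2 * t) • e‖ = 2 * t := by
      rw [norm_smul, hΩ.unit, mul_one, Real.norm_of_nonneg (by linarith)]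
    have h3 : ‖r • ν‖ = r := by
      rw [norm_smul, hν, mul_one, Real.norm_of_nonneg hr.le]
    rw [h3]
    linarith
  have hfin := hexp c e (ka p) hc.le hκ O W hOo hOc hOt hW.sup hmono' x' y r μ hr hμ hx'O hyO hxy
    (fun u hu => (hball u (by linarith)).2) s hs z
  rw [hcs] at hfin
  have e3 : z - (y - (L - 2 * t) • e) = (dw Ω z - r) • ν := by
    rw [hyd, hwd, sub_smul (dw Ω z) r ν]
    conv_lhs => rw [hzw]
    abel
  rw [e3, norm_smul, hν, mul_one, Real.norm_eq_abs, abs_of_nonpos (by linarith)] at hfin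
  calc c2 * (μ / r) * dw Ω z = c2 * (μ / r) * (r - -(dw Ω z - r)) := by ring
    _ ≤ W z := hfin

end Pool.Agent.TWC
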