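import Pool.Agent.TWC.Defs3
import Pool.Agent.TWC.W1
import Pool.Agent.TWC.CD
import Pool.Agent.TWC.PRO

/-!
# TWC CLF: the closure of the slow set

`x ∈ closure (FS e W lam L0)`. Then `x ∈ FS` or `x ∈ Wl`.
`x ∈ closure (Po W) ⊆ closure Ω` and by continuity `exp(-lam L0) W (x - L0 e) ≤ W x`.
If `x ∈ Ω`: `x - L0 e ∈ Po W` (`po_down`), so `W x > 0`, `x ∈ FS`.
If `x ∉ Ω`: `x ∈ frontier Ω`. Suppose `x + t e ∉ closure (Po W)` for all `t > 0`. `w1` at `w0 = x`, `L = L0`: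
`W ≥ k dw` on `Ω ∩ ball (x - L0 e) r`; `cd` at `x` with `ε = exp(-lam L0) k/2`: `W ≤ ε dw` on `ball x r'`. Take
`y ∈ FS` with `|y-x| < min r r'`: `y ∈ Ω`, `dw y > 0`:
`exp(-lam L0) k dw y ≤ exp(-lam L0) W (y - L0 e) ≤ W y ≤ ε dw y`. Contradiction.

`fs_compact`: the part of the closure of `FS` with heights `≥ -R` is compact (`slab_compact`, heights
`≤ 0`).
-/

open Set Metric Filter Topology
open scoped RealInnerProductSpace

noncomputable section

namespace Pool.Agent.TWC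

variable {n : ℕ} {p c : ℝ} {e : E n} {r0 : ℝ} {Ω : Set (E n)} {Φ W : E n → ℝ}

theorem clf (hp : 2 < p) (hc : 0 < c) (hΩ : Tube e r0 Ω) (hne : (Ωᶜ).Nonempty)
    (hW : WP p c e Ω Φ W) {lam L0 : ℝ} (hL0 : 0 < L0) {x : E n}
    (hx : x ∈ closure (FS e W lam L0)) : x ∈ FS e W lam L0 ∨ x ∈ Wl e Ω W := by
  have hsub : FS e W lam L0 ⊆ Po W := fun y hy => hy.1
  have hxP : x ∈ closure (Po W) := closure_mono hsub hx
  have hxΩ : x ∈ closure Ω := closure_mono (po_sub hW) hxP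
  have hcl : IsClosed {y | Real.exp (-(lam * L0)) * W (y - L0 • e) ≤ W y} := by
    have h1 := hW.cont
    exact isClosed_le (by fun_prop) h1
  have hxle : Real.exp (-(lam * L0)) * W (x - L0 • e) ≤ W x :=
    closure_minimal (fun y hy => hy.2) hcl hx
  have hE : 0 < Real.exp (-(lam * L0)) := Real.exp_pos _
  by_cases hxO : x ∈ Ω
  · left
    have h1 : 0 < W (x - L0 • e) := po_down hΩ hne hW hxO hxP hL0
    exact ⟨lt_of_lt_of_le (mul_pos hE h1) hxle, hxle⟩
  · right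
    have hfr : x ∈ frontier Ω := by
      rw [hΩ.isOpen.frontier_eq]
      exact ⟨hxΩ, hxO⟩
    refine ⟨hfr, hxP, ?_⟩
    by_contra hcon
    have htop : ∀ t : ℝ, 0 < t → x + t • e ∉ closure (Po W) := fun t ht hmem =>
      hcon ⟨t, ht, hmem⟩
    obtain ⟨r, k, hr, hk, h1⟩ := w1 hp hc hΩ hne hW hfr hxP hL0
    obtain ⟨r', hr', h2⟩ := cd hp hc hΩ hne hW hfr hxP htop
      (ε := Real.exp (-(lam * L0)) * k / 2) (by positivity)
    obtain ⟨y, hy, hyx⟩ := Metric.mem_closure_iff.1 hx (min r r') (lt_min hr hr')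
    have hyΩ : y ∈ Ω := po_sub hW (hsub hy)
    have hdy : 0 < dw Ω y := (dw_pos hΩ hne).2 hyΩ
    have e1 : y - L0 • e = y + (-L0) • e := by
      rw [neg_smul, sub_eq_add_neg]
    have h3 : y - L0 • e ∈ Ω ∩ ball (x - L0 • e) r := by
      refine ⟨?_, ?_⟩
      · rw [e1]
        exact hΩ.inv y hyΩ (-L0)
      · rw [mem_ball, dist_sub_right, dist_comm]
        exact lt_of_lt_of_le hyx (min_le_left _ _)
    have h4 := h1 _ h3
    have h5 : dw Ω (y - L0 • e) = dw Ω y := by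
      rw [e1]
      exact dw_inv hΩ y (-L0)
    rw [h5] at h4
    have h6 := h2 y (by
      rw [mem_ball, dist_comm]
      exact lt_of_lt_of_le hyx (min_le_right _ _))
    have h7 := mul_le_mul_of_nonneg_left h4 hE.le
    have h8 := hy.2
    have h9 : 0 < Real.exp (-(lam * L0)) * k * dw Ω y := by positivity
    linarith

theorem fs_compact (hΩ : Tube e r0 Ω) (hW : WP p c e Ω Φ W) (lam L0 R : ℝ) {Q : Set (E n)}
    (hQ : Q ⊆ Po W) (hR : ∀ x ∈ Q, -R ≤ ⟪x, e⟫) : IsCompact (closure Q) := by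
  refine (slab_compact hΩ (-R) 0).of_isClosed_subset isClosed_closure ?_
  have h1 : closure Q ⊆ closure Ω := closure_mono (hQ.trans (po_sub hW))
  have h2 : closure Q ⊆ {x | -R ≤ ⟪x, e⟫} :=
    closure_minimal hR (isClosed_le continuous_const (by fun_prop))
  have h3 : closure Q ⊆ {x | ⟪x, e⟫ ≤ 0} := by
    refine closure_minimal (fun x hx => ?_) (isClosed_le (by fun_prop) continuous_const)
    by_contra hcon
    have h4 : 0 < W x := hQ hx
    rw [hW.right x (not_le.1 hcon).le] at h4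
    exact lt_irrefl _ h4
  exact fun x hx => ⟨h1 hx, h2 hx, h3 hx⟩

end Pool.Agent.TWC
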