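import Pool.Agent.TWC.LTQ

/-!
# TWC SMP: strong maximum principle for a q-concave subsolution below a supersolution

`u` QS on `S`, `v` continuous supersolution on `S`, `u ≤ v` on `S`, `u z = v z`, gradient of `u` at `z` not
zero. Then `u = v` near `z`.

Proof. By `gd_cont` there is `R > 0`, `ball z (3R) ⊆ S`, with `c0 ≤ |P'| ≤ C0` for the gradients at points of
`ball z (3R)` and `u ≥ c0` there. Suppose `u x1 < v x1` with `|x1-z| < R`. Let `y` run from `x1`: let `r > 0`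
be the largest radius with `ball x1 r ⊆ {u < v}` (`r ≤ |x1 - z| < R`); there is `z1` with
`|z1-x1| = r`, `u z1 = v z1`. Replace the ball by an interior tangent ball: `y = (x1+z1)/2`, radius `r/2`,
so that `u < v` on `closedBall y (r/2)` except at `z1`. Write `r` for `r/2` now.
`h x = exp(-α|x-y|^2) - exp(-α r^2)`, `D = closedBall z1 s`, `s = min (r/2) (1/(α (r+1)))`, `ball z1 s ⊆ S`.
On `∂D`: the continuous function `v - u` is `≥ δ > 0` on `∂D ∩ closedBall y r` (compact, does not contain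
`z1`), hence `≥ δ/2` on a neighbourhood; outside this neighbourhood `h ≤ -c < 0` on `∂D`. So for small
`η > 0`: `v - u - η h > 0` on `∂D` (`h ≤ 1`), while `= 0` at `z1`. Let `zη` be a minimum point of
`v - u - η h` on `D`, interior; value `≤ 0`. `ltq` at `zη` with `f = η h` (smooth), `P = ` gradient of `u`
at `zη`, `Q = η ∇h`; `|Q| ≤ η 2α(r+s) E ≤ c0/2` for `η` small, `E = exp(-α|zη-y|^2)`. We get `X` with
`X ≤ C1`, `0 ≤ pA P X + <b,P> + κ u`, so `|X| ≤ C2` (`pA_lower`, `opNorm_le_of_quad`; constants depend only on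
`c0, C0`, not on `α, η`), and subtracting:
`0 ≥ pA (P+Q) (X + η D²h) - pA P X + <b,Q> + κ (v - u)(zη) ≥ η pA (P+Q) (D²h) - C3 |Q| C2 - |b||Q|`
(`κ ≥ 0`, `v ≥ u`, `pA_lip` between `c0/2` and `2 C0`). `D²h = E (4α² rk(x-y) - 2α ip)`, `∇h = -2αE(x-y)`:
`pA (P+Q) D²h ≥ E |P+Q|^(p-2) (4α²|x-y|^2 - 2α(n+p-2))` (`pA_rk_ge`, `pA_ip`), `|Q| = 2ηαE|x-y|`, and
`r/2 ≤ |x-y| ≤ 2r`: for `α` large (depending on `r, c0, C0, C2, C3, b, n, p`, chosen before `s, η`) the sum is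
`> 0`: a contradiction.
So `u = v` on `ball z R`.
-/

set_option maxSynthPendingDepth 3

open Set Metric Filter Topology
open scoped RealInnerProductSpace

noncomputable section

namespace Pool.Agent.TWC

variable {n : ℕ} {p : ℝ} {b : E n} {κ : ℝ} {S : Set (E n)} {u : E n → ℝ}

private theorem SMP_geo {x1 z1 x : E n} {ρ : ℝ} (h : ‖z1 - x1‖ = 2 * ρ)
    (hx : ‖x - (1 / 2 : ℝ) • (x1 + z1)‖ ≤ ρ) (hne : x ≠ z1) : ‖x - x1‖ < 2 * ρ := by
  by_contra hc
  push Not at hc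
  set a := x - (1 / 2 : ℝ) • (x1 + z1) with ha
  set c := (1 / 2 : ℝ) • (z1 - x1) with hcd
  have e1 : x - x1 = a + c := by
    rw [ha, hcd]
    module
  have e2 : x - z1 = a - c := by
    rw [ha, hcd]
    module
  have hcn : ‖c‖ = ρ := by
    rw [hcd, norm_smul, h, Real.norm_of_nonneg (by norm_num : (0:ℝ) ≤ 1 / 2)]
    ring
  have hpar := parallelogram_law_with_norm ℝ a c
  rw [e1] at hc
  have hρ : 0 ≤ ρ := by rw [← hcn]; exact norm_nonneg _
  have h1 : 2 * ρ * (2 * ρ) ≤ ‖a + c‖ * ‖a + c‖ := mul_self_le_mul_self (by linarith) hc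
  have h2 : ‖a‖ * ‖a‖ ≤ ρ * ρ := mul_self_le_mul_self (norm_nonneg _) hx
  have h3 : ‖a - c‖ * ‖a - c‖ ≤ 0 := by
    rw [hcn] at hpar
    nlinarith
  have h4 : ‖a - c‖ = 0 := by
    have := norm_nonneg (a - c)
    nlinarith
  apply hne
  rw [← sub_eq_zero, e2]
  exact norm_eq_zero.1 h4

/-- the barrier -/
private def SMP_f (η α c : ℝ) (y : E n) (x : E n) : ℝ := η * (Real.exp (-α * ‖x - y‖ ^ 2) - c)

private theorem SMP_cd (η α c : ℝ) (y : E n) : ContDiff ℝ 2 (SMP_f η α c y) := by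
  have h : ContDiff ℝ 2 fun x : E n => ‖x - y‖ ^ 2 :=
    (contDiff_norm_sq ℝ).comp (contDiff_id.sub contDiff_const)
  exact contDiff_const.mul (((contDiff_const.mul h).exp).sub contDiff_const)

private theorem SMP_t2 (η α c : ℝ) (y x : E n) :
    gradient (SMP_f η α c y) x
      = (-(2 * α * η * Real.exp (-α * ‖x - y‖ ^ 2))) • (x - y) ∧
    ∀ w, fderiv ℝ (fderiv ℝ (SMP_f η α c y)) x w w
      = ((-(2 * α * η * Real.exp (-α * ‖x - y‖ ^ 2))) • (ip : Bil n)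
        + (4 * α ^ 2 * η * Real.exp (-α * ‖x - y‖ ^ 2)) • rk (x - y)) w w := by
  have hF : ContDiff ℝ 2 fun t : ℝ => η * (Real.exp (-α * t) - c) :=
    contDiff_const.mul (((contDiff_const.mul contDiff_id).exp).sub contDiff_const)
  have d1 : deriv (fun t : ℝ => η * (Real.exp (-α * t) - c))
      = fun t => η * (Real.exp (-α * t) * -α) := by
    funext t
    have h1 : HasDerivAt (fun t : ℝ => -α * t) (-α) t := by
      simpa using (hasDerivAt_id t).const_mul (-α)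
    exact ((h1.exp.sub_const c).const_mul η).deriv
  have d2 : ∀ t, deriv (deriv fun t : ℝ => η * (Real.exp (-α * t) - c)) t
      = η * (Real.exp (-α * t) * -α * -α) := by
    intro t
    rw [d1]
    have h1 : HasDerivAt (fun t : ℝ => -α * t) (-α) t := by
      simpa using (hasDerivAt_id t).const_mul (-α)
    exact ((h1.exp.mul_const (-α)).const_mul η).deriv
  have h1 := t2_comp (u := fun x => ‖x - y‖ ^ 2) (x := x) hF.contDiffAt (t2_normSq y)
  have h2 := t2_of_contDiffAt ((SMP_cd η α c y).contDiffAt (x := x))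
  have h3 := uj_lj h2.1 h1.2
  have h4 := uj_lj h1.1 h2.2
  rw [d2, d1] at h3 h4
  refine ⟨?_, fun w => ?_⟩
  · rw [h3.1, smul_smul]
    congr 1
    ring
  · have h5 := le_antisymm (h4.2 w) (h3.2 w)
    rw [h5]
    show η * (Real.exp (-α * ‖x - y‖ ^ 2) * -α) * (2 * ⟪w, w⟫)
      + η * (Real.exp (-α * ‖x - y‖ ^ 2) * -α * -α) * (rk ((2 : ℝ) • (x - y)) w w)
      = -(2 * α * η * Real.exp (-α * ‖x - y‖ ^ 2)) * ⟪w, w⟫
        + 4 * α ^ 2 * η * Real.exp (-α * ‖x - y‖ ^ 2) * (rk (x - y) w w)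
    rw [rk_apply, rk_apply, inner_smul_left]
    simp only [conj_trivial]
    ring

theorem smp (hp : 2 < p) (hκ : 0 ≤ κ) (hQ : QS p b κ S u) {v : E n → ℝ} (hv : Continuous v)
    (hsp : Sp p b κ S v) (hle : ∀ x ∈ S, u x ≤ v x) {z P : E n} (hz : z ∈ S) (heq : u z = v z)
    (hP : Gd p S u z P) (hP0 : P ≠ 0) : ∃ r > 0, ∀ x ∈ ball z r, u x = v x := by
  have hp0 : (0:ℝ) < p := by linarith
  have hq1 : 0 < 1 - qq p := by
    have : 1 - qq p = 2 / p := by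
      unfold qq
      field_simp
      ring
    rw [this]
    positivity
  have huz : 0 < u z := hQ.pos z hz
  have hPn : 0 < ‖P‖ := norm_pos_iff.2 hP0
  obtain ⟨r1, hr1, hS1⟩ := Metric.isOpen_iff.1 hQ.isOpen z hz
  obtain ⟨r2, hr2, hgd⟩ := gd_cont hp hQ hz hP (ε := ‖P‖ / 2) (by positivity)
  have hcu : ContinuousAt u z := (qs_cont hp hQ).continuousAt (hQ.isOpen.mem_nhds hz)
  obtain ⟨r3, hr3, hu3⟩ := Metric.continuousAt_iff.1 hcu (u z / 2) (by positivity)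
  obtain ⟨R, hR, hR1, hR2, hR3⟩ : ∃ R > 0, 3 * R ≤ r1 ∧ 3 * R ≤ r2 ∧ 3 * R ≤ r3 := by
    refine ⟨min r1 (min r2 r3) / 3, by positivity, ?_, ?_, ?_⟩
    · rw [mul_div_cancel₀ _ (by norm_num : (3:ℝ) ≠ 0)]
      exact min_le_left _ _
    · rw [mul_div_cancel₀ _ (by norm_num : (3:ℝ) ≠ 0)]
      exact (min_le_right _ _).trans (min_le_left _ _)
    · rw [mul_div_cancel₀ _ (by norm_num : (3:ℝ) ≠ 0)]
      exact (min_le_right _ _).trans (min_le_right _ _)
  have fS : ∀ x, ‖x - z‖ < 3 * R → x ∈ S := fun x hx =>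
    hS1 (by rw [mem_ball, dist_eq_norm]; linarith)
  have fG : ∀ x P', ‖x - z‖ < 3 * R → Gd p S u x P' → ‖P‖ / 2 ≤ ‖P'‖ ∧ ‖P'‖ ≤ 2 * ‖P‖ := by
    intro x P' hx hP'
    have h1 := hgd x P' (by linarith) hP'
    have h2 : ‖P'‖ ≤ ‖P‖ + ‖P' - P‖ := norm_le_norm_add_norm_sub' P' P
    have h3 : ‖P‖ ≤ ‖P'‖ + ‖P - P'‖ := norm_le_norm_add_norm_sub' P P'
    rw [norm_sub_rev P P'] at h3
    constructor <;> linarith
  have fu : ∀ x, ‖x - z‖ < 3 * R → u z / 2 ≤ u x ∧ u x ≤ 2 * u z := by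
    intro x hx
    have h1 := hu3 (x := x) (by rw [dist_eq_norm]; linarith)
    rw [Real.dist_eq, abs_lt] at h1
    constructor <;> linarith [h1.1, h1.2]
  refine ⟨R, hR, ?_⟩
  by_contra hcon
  push Not at hcon
  obtain ⟨x1, hx1, hne⟩ := hcon
  rw [mem_ball, dist_eq_norm] at hx1
  -- closest contact point
  have hcl : ∀ x, ‖x - x1‖ ≤ R → ‖x - z‖ < 2 * R := fun x hx => by
    have : ‖x - z‖ ≤ ‖x - x1‖ + ‖x1 - z‖ := norm_sub_le_norm_sub_add_norm_sub _ _ _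
    linarith
  have hcS : ∀ x, ‖x - x1‖ ≤ R → x ∈ S := fun x hx => fS x (by linarith [hcl x hx])
  set Z : Set (E n) := closedBall x1 R ∩ (fun x => u x - v x) ⁻¹' {0} with hZ
  have hZcl : IsClosed Z := by
    refine ContinuousOn.preimage_isClosed_of_isClosed ?_ isClosed_closedBall isClosed_singleton
    refine ((qs_cont hp hQ).mono fun x hx => ?_).sub hv.continuousOn
    rw [mem_closedBall, dist_eq_norm] at hx
    exact hcS x hx
  have hZc : IsCompact Z := (isCompact_closedBall x1 R).of_isClosed_subset hZcl inter_subset_left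
  have hzZ : z ∈ Z := by
    refine ⟨?_, ?_⟩
    · rw [mem_closedBall, dist_eq_norm, norm_sub_rev]
      exact hx1.le
    · show u z - v z = 0
      rw [heq, sub_self]
  obtain ⟨z1, hz1, hmin⟩ := hZc.exists_isMinOn ⟨z, hzZ⟩
    (f := fun x => ‖x - x1‖) (by fun_prop : Continuous fun x => ‖x - x1‖).continuousOn
  have hz1R : ‖z1 - x1‖ ≤ R := by
    have := hz1.1
    rwa [mem_closedBall, dist_eq_norm] at this
  have hz1e : u z1 = v z1 := sub_eq_zero.1 hz1.2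
  have hz1ne : z1 ≠ x1 := by
    rintro rfl
    exact hne hz1e
  set ρ := ‖z1 - x1‖ / 2 with hρ
  have hρp : 0 < ρ := by
    have : 0 < ‖z1 - x1‖ := norm_pos_iff.2 (sub_ne_zero.2 hz1ne)
    positivity
  have hρ2 : ‖z1 - x1‖ = 2 * ρ := by rw [hρ]; ring
  have hρR : 2 * ρ ≤ R := by rw [← hρ2]; exact hz1R
  have hlt : ∀ x, ‖x - x1‖ < 2 * ρ → u x < v x := by
    intro x hx
    refine lt_of_le_of_ne (hle x (hcS x (by linarith))) fun h => ?_
    have hxZ : x ∈ Z := by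
      refine ⟨?_, ?_⟩
      · rw [mem_closedBall, dist_eq_norm]
        linarith
      · show u x - v x = 0
        rw [h, sub_self]
    have := hmin hxZ
    have h2 : ‖z1 - x1‖ ≤ ‖x - x1‖ := this
    linarith
  set y : E n := (1 / 2 : ℝ) • (x1 + z1) with hy
  have hy1 : ‖z1 - y‖ = ρ := by
    have : z1 - y = (1 / 2 : ℝ) • (z1 - x1) := by
      rw [hy]
      module
    rw [this, norm_smul, hρ2, Real.norm_of_nonneg (by norm_num : (0:ℝ) ≤ 1 / 2)]
    ring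
  have hball : ∀ x, ‖x - y‖ ≤ ρ → x ≠ z1 → u x < v x := fun x hx hxne =>
    hlt x (SMP_geo hρ2 hx hxne)
  have hz1z : ‖z1 - z‖ < 2 * R := hcl z1 hz1R
  -- constants
  set C1 := (1 - qq p) * (2 * ‖P‖) ^ 2 / (u z / 2) + 1 with hC1
  have hC1p : 0 ≤ C1 := by positivity
  set C := ‖b‖ * (2 * ‖P‖) + κ * (2 * u z) with hC
  have hC0 : 0 ≤ C := by positivity
  set C2 := ((n + p) * C1 + C / (‖P‖ / 2) ^ (p - 2)) + C1 with hC2
  have hC20 : 0 ≤ C2 := by positivity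
  obtain ⟨C3, hC3, hlip⟩ := pA_lip (n := n) hp (c0 := ‖P‖ / 4) (C0 := 3 * ‖P‖) (by positivity)
  set m0 := (‖P‖ / 4) ^ (p - 2) with hm0
  have hm0p : 0 < m0 := Real.rpow_pos_of_pos (by positivity) _
  set M := C3 * C2 + ‖b‖ with hM
  have hM0 : 0 ≤ M := by positivity
  have hnp : 0 ≤ (n : ℝ) + p - 2 := by
    have : (0:ℝ) ≤ n := Nat.cast_nonneg n
    linarith
  obtain ⟨α, hαp, hα⟩ : ∃ α : ℝ, 0 < α ∧
      M * (2 * ρ) < m0 * (α * ρ ^ 2 / 2 - (n + p - 2)) := by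
    refine ⟨2 * ((n + p - 2) + (M * (2 * ρ) + 1) / m0) / ρ ^ 2, by positivity, ?_⟩
    have e : m0 * (2 * ((n + p - 2) + (M * (2 * ρ) + 1) / m0) / ρ ^ 2 * ρ ^ 2 / 2 - (n + p - 2))
        = M * (2 * ρ) + 1 := by
      field_simp
      ring
    rw [e]
    linarith
  set s := ρ / 2 with hs
  have hsp' : 0 < s := by positivity
  -- positivity on the part of the sphere in the closed ball
  have hcv : ContinuousOn (fun x => v x - u x) (closedBall z1 s) := by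
    refine hv.continuousOn.sub ((qs_cont hp hQ).mono fun x hx => ?_)
    rw [mem_closedBall, dist_eq_norm] at hx
    refine fS x ?_
    have : ‖x - z‖ ≤ ‖x - z1‖ + ‖z1 - z‖ := norm_sub_le_norm_sub_add_norm_sub _ _ _
    linarith
  have hKc : IsCompact (sphere z1 s ∩ closedBall y ρ) :=
    (isCompact_sphere z1 s).inter_right isClosed_closedBall
  obtain ⟨δ, hδ, hδK⟩ := hKc.exists_forall_le' (a := 0)
    (hcv.mono fun x hx => sphere_subset_closedBall hx.1) (fun x hx => by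
      have h1 : ‖x - y‖ ≤ ρ := by
        have := hx.2
        rwa [mem_closedBall, dist_eq_norm] at this
      have h2 : x ≠ z1 := by
        rintro rfl
        have := hx.1
        rw [mem_sphere, dist_self] at this
        linarith
      show 0 < v x - u x
      linarith [hball x h1 h2])
  obtain ⟨η, hηp, hηδ, hηP⟩ : ∃ η : ℝ, 0 < η ∧ η ≤ δ / 2 ∧ 2 * α * η * (2 * ρ) ≤ ‖P‖ / 4 := by
    refine ⟨min (δ / 2) (‖P‖ / (16 * α * ρ)), by positivity, min_le_left _ _, ?_⟩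
    have h1 : min (δ / 2) (‖P‖ / (16 * α * ρ)) ≤ ‖P‖ / (16 * α * ρ) := min_le_right _ _
    calc 2 * α * min (δ / 2) (‖P‖ / (16 * α * ρ)) * (2 * ρ)
        ≤ 2 * α * (‖P‖ / (16 * α * ρ)) * (2 * ρ) := by gcongr
      _ = ‖P‖ / 4 := by
        field_simp
        ring
  set f : E n → ℝ := SMP_f η α (Real.exp (-α * ρ ^ 2)) y with hf
  have hfx : ∀ x, f x = η * (Real.exp (-α * ‖x - y‖ ^ 2) - Real.exp (-α * ρ ^ 2)) := fun x => rfl
  have hfc : ContDiff ℝ 2 f := SMP_cd _ _ _ _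
  obtain ⟨x0, hx0, hm⟩ := (isCompact_closedBall z1 s).exists_isMinOn
    ⟨z1, mem_closedBall_self hsp'.le⟩ (f := fun x => v x - u x - f x)
    (hcv.sub hfc.continuous.continuousOn)
  have hm' : ∀ x ∈ closedBall z1 s, v x0 - u x0 - f x0 ≤ v x - u x - f x := fun x hx => hm hx
  have hx0s : ‖x0 - z1‖ ≤ s := by rwa [mem_closedBall, dist_eq_norm] at hx0
  have hx0R : ‖x0 - z‖ < 3 * R := by
    have : ‖x0 - z‖ ≤ ‖x0 - z1‖ + ‖z1 - z‖ := norm_sub_le_norm_sub_add_norm_sub _ _ _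
    linarith
  have hx0S : x0 ∈ S := fS x0 hx0R
  have hψ : v x0 - u x0 - f x0 ≤ 0 := by
    have h1 := hm' z1 (mem_closedBall_self hsp'.le)
    rw [hfx z1, hy1, sub_self, mul_zero, hz1e, sub_self, sub_zero] at h1
    exact h1
  have hx0in : ‖x0 - z1‖ < s := by
    refine lt_of_le_of_ne hx0s fun h => ?_
    by_cases hc : ‖x0 - y‖ ≤ ρ
    · have h1 := hδK x0 ⟨by rw [mem_sphere, dist_eq_norm]; exact h,
        by rw [mem_closedBall, dist_eq_norm]; exact hc⟩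
      have h2 : f x0 ≤ η := by
        rw [hfx]
        have a1 : Real.exp (-α * ‖x0 - y‖ ^ 2) ≤ 1 := by
          rw [Real.exp_le_one_iff]
          have : 0 ≤ α * ‖x0 - y‖ ^ 2 := by positivity
          linarith
        have a2 := Real.exp_pos (-α * ρ ^ 2)
        have a3 : η * (Real.exp (-α * ‖x0 - y‖ ^ 2) - Real.exp (-α * ρ ^ 2)) ≤ η * 1 :=
          mul_le_mul_of_nonneg_left (by linarith) hηp.le
        linarith
      have h3 : δ ≤ v x0 - u x0 := h1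
      linarith
    · push Not at hc
      have h2 : f x0 < 0 := by
        rw [hfx]
        have a1 : Real.exp (-α * ‖x0 - y‖ ^ 2) < Real.exp (-α * ρ ^ 2) := by
          rw [Real.exp_lt_exp]
          have h0 : ρ ^ 2 < ‖x0 - y‖ ^ 2 := pow_lt_pow_left₀ hc hρp.le two_ne_zero
          have h1 := mul_lt_mul_of_pos_left h0 hαp
          linarith
        exact mul_neg_of_pos_of_neg hηp (by linarith)
      have h3 := hle x0 hx0S
      linarith
  have hmax : ∃ r > 0, ∀ x, ‖x - x0‖ < r → u x + f x - v x ≤ u x0 + f x0 - v x0 := by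
    refine ⟨s - ‖x0 - z1‖, by linarith, fun x hx => ?_⟩
    have h1 : ‖x - z1‖ ≤ ‖x - x0‖ + ‖x0 - z1‖ := norm_sub_le_norm_sub_add_norm_sub _ _ _
    have h2 := hm' x (by rw [mem_closedBall, dist_eq_norm]; linarith)
    linarith
  obtain ⟨P', hP'⟩ := gd_exists hp hQ hx0S
  obtain ⟨hP1, hP2⟩ := fG x0 P' hx0R hP'
  obtain ⟨hu1, hu2⟩ := fu x0 hx0R
  have hP'n : 0 < ‖P'‖ := by linarith
  obtain ⟨g1, g2⟩ := SMP_t2 η α (Real.exp (-α * ρ ^ 2)) y x0
  set d := ‖x0 - y‖ with hd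
  have hd1 : ρ / 2 ≤ d := by
    have : ‖z1 - y‖ ≤ ‖z1 - x0‖ + ‖x0 - y‖ := norm_sub_le_norm_sub_add_norm_sub _ _ _
    rw [norm_sub_rev z1 x0, hy1] at this
    linarith
  have hd2 : d ≤ 2 * ρ := by
    have : ‖x0 - y‖ ≤ ‖x0 - z1‖ + ‖z1 - y‖ := norm_sub_le_norm_sub_add_norm_sub _ _ _
    rw [hy1] at this
    linarith
  have hdp : 0 < d := by linarith
  set E0 := Real.exp (-α * d ^ 2) with hE0
  have hE0p : 0 < E0 := Real.exp_pos _
  have hE01 : E0 ≤ 1 := by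
    rw [hE0, Real.exp_le_one_iff]
    have : 0 ≤ α * d ^ 2 := by positivity
    linarith
  have hQn : ‖gradient f x0‖ = 2 * α * η * E0 * d := by
    rw [hf, g1, norm_smul, norm_neg, Real.norm_of_nonneg (by positivity)]
  have hQ1 : ‖gradient f x0‖ ≤ ‖P‖ / 4 := by
    rw [hQn]
    refine le_trans ?_ hηP
    have a1 : 2 * α * η * E0 ≤ 2 * α * η * 1 := mul_le_mul_of_nonneg_left hE01 (by positivity)
    calc 2 * α * η * E0 * d ≤ 2 * α * η * 1 * (2 * ρ) :=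
          mul_le_mul a1 hd2 hdp.le (by positivity)
      _ = 2 * α * η * (2 * ρ) := by ring
  set Q := gradient f x0 with hQd
  have hR1' : ‖P‖ / 4 ≤ ‖P' + Q‖ := by
    have h1 : ‖P'‖ ≤ ‖P' + Q‖ + ‖Q‖ := by
      have := norm_sub_le (P' + Q) Q
      rwa [add_sub_cancel_right] at this
    linarith
  have hR2' : ‖P' + Q‖ ≤ 3 * ‖P‖ := by
    have := norm_add_le P' Q
    linarith
  have hPQ0 : P' + Q ≠ 0 := by
    rw [← norm_pos_iff]
    linarith
  obtain ⟨X, hs', hX1, hX2, hX3⟩ := ltq hp hQ hv hsp hx0S hfc.contDiffAt hmax hP'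
    (norm_pos_iff.1 hP'n) hPQ0
  rw [← hQd] at hX3
  have hX4 : ∀ a, X a a ≤ C1 * ‖a‖ ^ 2 := fun a => by
    refine (hX1 a).trans (mul_le_mul_of_nonneg_right ?_ (by positivity))
    rw [hC1]
    have : (1 - qq p) * ‖P'‖ ^ 2 / u x0 ≤ (1 - qq p) * (2 * ‖P‖) ^ 2 / (u z / 2) := by
      gcongr
    linarith
  have hX5 : -C ≤ pA p P' X := by
    have h3 : |⟪b, P'⟫| ≤ ‖b‖ * (2 * ‖P‖) :=
      (abs_real_inner_le_norm _ _).trans (mul_le_mul_of_nonneg_left hP2 (norm_nonneg _))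
    have h4 := le_abs_self (⟪b, P'⟫ : ℝ)
    have h5 : κ * u x0 ≤ κ * (2 * u z) := mul_le_mul_of_nonneg_left hu2 hκ
    linarith
  have hX6 := pA_lower hp (c0 := ‖P‖ / 2) (by positivity) hC0 hC1p hP1 hX4 hX5
  have hXn : ‖X‖ ≤ C2 := by
    refine opNorm_le_of_quad hs' hC20 fun w => ?_
    have h9 : 0 ≤ ‖w‖ ^ 2 := by positivity
    have h10 : 0 ≤ ((n + p) * C1 + C / (‖P‖ / 2) ^ (p - 2)) := by positivity
    rw [abs_le]
    constructor
    · refine le_trans ?_ (hX6 w)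
      have h11 := mul_nonneg hC1p h9
      have e : -(C2 * ‖w‖ ^ 2) = -((n + p) * C1 + C / (‖P‖ / 2) ^ (p - 2)) * ‖w‖ ^ 2
          - C1 * ‖w‖ ^ 2 := by rw [hC2]; ring
      rw [e]
      linarith
    · refine (hX4 w).trans ?_
      have h11 := mul_nonneg h10 h9
      have e : C2 * ‖w‖ ^ 2 = ((n + p) * C1 + C / (‖P‖ / 2) ^ (p - 2)) * ‖w‖ ^ 2
          + C1 * ‖w‖ ^ 2 := by rw [hC2]; ring
      rw [e]
      linarith
  -- subtraction
  have hL := hlip (P' + Q) P' X hR1' hR2' (by linarith) (by linarith)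
  rw [add_sub_cancel_left] at hL
  have hL2 : C3 * ‖Q‖ * ‖X‖ ≤ C3 * ‖Q‖ * C2 := mul_le_mul_of_nonneg_left hXn (by positivity)
  have hbQ : |⟪b, Q⟫| ≤ ‖b‖ * ‖Q‖ := abs_real_inner_le_norm _ _
  rw [pA_form_add, inner_add_right] at hX3
  have hvu : 0 ≤ κ * (v x0 - u x0) := mul_nonneg hκ (by linarith [hle x0 hx0S])
  have hmain : pA p (P' + Q) (fderiv ℝ (fderiv ℝ f) x0) ≤ M * ‖Q‖ := by
    have h1 := (abs_le.1 hL).1
    have h2 := (abs_le.1 hbQ).1
    have e : M * ‖Q‖ = C3 * ‖Q‖ * C2 + ‖b‖ * ‖Q‖ := by rw [hM]; ring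
    have e2 : κ * (v x0 - u x0) = κ * v x0 - κ * u x0 := by ring
    rw [e2] at hvu
    rw [e]
    linarith
  have hlow : η * E0 * ‖P' + Q‖ ^ (p - 2) * (4 * α ^ 2 * d ^ 2 - 2 * α * (n + p - 2)) ≤
      pA p (P' + Q) (fderiv ℝ (fderiv ℝ f) x0) := by
    have h1 : pA p (P' + Q) ((-(2 * α * η * E0)) • (ip : Bil n)
        + (4 * α ^ 2 * η * E0) • rk (x0 - y)) ≤
        pA p (P' + Q) (fderiv ℝ (fderiv ℝ f) x0) := pA_mono hp fun w => (g2 w).ge
    refine le_trans ?_ h1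
    rw [pA_form_add, pA_form_smul, pA_form_smul, pA_ip hp]
    have h2 := pA_rk_ge hp (P' + Q) (x0 - y)
    rw [← hd] at h2
    have h3 : 0 ≤ 4 * α ^ 2 * η * E0 := by positivity
    have h4 := mul_le_mul_of_nonneg_left h2 h3
    have e : η * E0 * ‖P' + Q‖ ^ (p - 2) * (4 * α ^ 2 * d ^ 2 - 2 * α * (n + p - 2))
        = -(2 * α * η * E0) * ((n + p - 2) * ‖P' + Q‖ ^ (p - 2))
          + 4 * α ^ 2 * η * E0 * (‖P' + Q‖ ^ (p - 2) * d ^ 2) := by ring
    rw [e]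
    linarith
  rw [hQn] at hmain
  have hfin : η * E0 * ‖P' + Q‖ ^ (p - 2) * (4 * α ^ 2 * d ^ 2 - 2 * α * (n + p - 2)) ≤
      M * (2 * α * η * E0 * d) := hlow.trans hmain
  have hpw : m0 ≤ ‖P' + Q‖ ^ (p - 2) :=
    Real.rpow_le_rpow (by positivity) hR1' (by linarith)
  have hk : 0 < 2 * α * η * E0 := by positivity
  have hfin2 : ‖P' + Q‖ ^ (p - 2) * (2 * α * d ^ 2 - (n + p - 2)) ≤ M * d := by
    have e1 : η * E0 * ‖P' + Q‖ ^ (p - 2) * (4 * α ^ 2 * d ^ 2 - 2 * α * (n + p - 2))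
        = (2 * α * η * E0) * (‖P' + Q‖ ^ (p - 2) * (2 * α * d ^ 2 - (n + p - 2))) := by ring
    have e2 : M * (2 * α * η * E0 * d) = (2 * α * η * E0) * (M * d) := by ring
    rw [e1, e2] at hfin
    exact le_of_mul_le_mul_left hfin hk
  have hq : α * ρ ^ 2 / 2 - (n + p - 2) ≤ 2 * α * d ^ 2 - (n + p - 2) := by
    have h0 : (ρ / 2) ^ 2 ≤ d ^ 2 := pow_le_pow_left₀ (by positivity) hd1 2
    have h1 : 2 * α * (ρ / 2) ^ 2 ≤ 2 * α * d ^ 2 := mul_le_mul_of_nonneg_left h0 (by positivity)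
    have h2 : 2 * α * (ρ / 2) ^ 2 = α * ρ ^ 2 / 2 := by ring
    linarith
  have hq0 : 0 < α * ρ ^ 2 / 2 - (n + p - 2) := by
    by_contra hneg
    push Not at hneg
    have h1 : m0 * (α * ρ ^ 2 / 2 - (n + p - 2)) ≤ 0 := mul_nonpos_of_nonneg_of_nonpos hm0p.le hneg
    have h2 : 0 ≤ M * (2 * ρ) := by positivity
    linarith
  have h1 : m0 * (α * ρ ^ 2 / 2 - (n + p - 2)) ≤
      ‖P' + Q‖ ^ (p - 2) * (2 * α * d ^ 2 - (n + p - 2)) :=
    mul_le_mul hpw hq hq0.le (hm0p.le.trans hpw)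
  have h2 : M * d ≤ M * (2 * ρ) := mul_le_mul_of_nonneg_left hd2 hM0
  linarith

end Pool.Agent.TWC
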