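import Pool.Agent.TWC.Defs3
import Pool.Agent.TWC.SMP
import Pool.Agent.TWC.PRO
import Pool.Agent.TWC.BUMP

/-!
# TWC COI: no coincidence at non maximal points

`coin_open`: `x ∈ Nn W`, `W x = ψ x`: `smp` on `S = Po W` (`Po W ⊆ Ω`, so `Sp` restricts; `gd_exists`,
`gd_ne_zero`; a point `y` with `W x < W y` is in `Po W`).

`casea`: assume `ψ x1 > 0` for some `x1` with `<x1,e> > 0`. Then `W < ψ` on `Nn W`. Suppose `W = ψ` at a point
of `Nn W`. Let `Ω0 = {x ∈ Ω : <x,e> = 0}` (convex, so preconnected) and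
`A = {x ∈ Ω0 : ∃ ξ, x + ξ e ∈ Nn W ∧ W (x + ξ e) = ψ (x + ξ e)}`, nonempty (project the given point).
(a) `Nn W` is open (`W` continuous); on a line `{x + ξ e}` the set `{ξ : x + ξ e ∈ Nn W}` is order connected
because `ξ ↦ W (x + ξ e)` is antitone; the subset where `W = ψ` is relatively open (`coin_open`) and closed
(continuity). So if `x ∈ A` then `W = ψ` at all points of the line in `Nn W`.
(b) `A` is relatively open (`coin_open`). (c) `A` is relatively closed in `Ω0`: let `x ∈ Ω0`, and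
`s = sSup {ξ : 0 < W (x + ξ e)}` (nonempty by `po_proj`, bounded above by `0`); `W (x + s e) = 0` (openness of
`Po W`), `W (x + ξ e) > 0` for `ξ < s` and by continuity there is `ξ < s` with `0 < W (x + ξ e) <` the value at
some point further left... we need `∃ y, W (x+ξ e) < W y`: take `y = x + ξ' e`, `ξ' < s` fixed, and `ξ` close to
`s` with `W (x + ξ e) < W (x + ξ' e)`. So `x + ξ e ∈ Nn W`; points `x_k ∈ A` close to `x` have
`x_k + ξ e ∈ Nn W`, `W = ψ` there by (a); in the limit `W (x + ξ e) = ψ (x + ξ e)`.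
So `A = Ω0`. Let `x = x1 - <x1,e> e ∈ Ω0` (`x1 ∈ Ω` as `ψ x1 > 0`), `s ≤ 0` as in (c). `W = ψ` at `x + ξ e` for `ξ < s`
close to `s`, so `ψ (x + s e) = 0`. But `ψ > 0` on a closed ball around `x1`, contained in `Ω`, and by
`persist` (`O = Ω`, `ball_inv`) `ψ (x1 - (c T) e) > 0` for all `T ≥ 0`; choose `c T = <x1,e> - s > 0`:
`x1 - (cT) e = x + s e`. Contradiction. (`c > 0`.)
-/

open Set Metric Filter Topology
open scoped RealInnerProductSpace

noncomputable section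

namespace Pool.Agent.TWC

variable {n : ℕ} {p c : ℝ} {e : E n} {r0 : ℝ} {Ω : Set (E n)} {Φ W ψ : E n → ℝ}

theorem coin_open (hp : 2 < p) (hW : WP p c e Ω Φ W) (hψ : Above p c e Ω W ψ) {x : E n}
    (hx : x ∈ Nn W) (heq : W x = ψ x) : ∃ r > 0, ∀ y ∈ ball x r, W y = ψ y := by
  obtain ⟨hx0, y, hy⟩ := hx
  have hκ : 0 ≤ ka p := by
    unfold ka
    have : 0 < p - 2 := by linarith
    positivity
  obtain ⟨P, hP⟩ := gd_exists hp hW.qs (show x ∈ Po W from hx0)
  have hP0 : P ≠ 0 := gd_ne_zero hp hW.qs hx0 ⟨y, lt_trans hx0 hy, hy⟩ hP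
  exact smp hp hκ hW.qs hψ.sup.cont (fun z hz => hψ.sup.sp z (po_sub hW hz))
    (fun z _ => hψ.le z) hx0 heq hP hP0

private theorem COI_open_nn (hc : Continuous W) : IsOpen (Nn W) := by
  have h : Nn W = {x | 0 < W x} ∩ ⋃ y, {x | W x < W y} := by
    ext x
    simp only [Nn, mem_ofPred_eq, mem_inter_iff, mem_iUnion]
  rw [h]
  exact (isOpen_lt continuous_const hc).inter (isOpen_iUnion fun y => isOpen_lt hc continuous_const)

private theorem COI_line (hp : 2 < p) (hW : WP p c e Ω Φ W) (hψ : Above p c e Ω W ψ) {x : E n}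
    (hx : ∃ ξ : ℝ, x + ξ • e ∈ Nn W ∧ W (x + ξ • e) = ψ (x + ξ • e)) :
    ∀ ξ : ℝ, x + ξ • e ∈ Nn W → W (x + ξ • e) = ψ (x + ξ • e) := by
  intro ξ hξ
  by_contra hne
  obtain ⟨ξ0, hξ0, heq0⟩ := hx
  have hcont : Continuous fun t : ℝ => x + t • e := by fun_prop
  have hanti : ∀ a b : ℝ, a ≤ b → W (x + b • e) ≤ W (x + a • e) := by
    intro a b hab
    have h1 := hW.mono (x + a • e) (b - a) (by linarith)
    have h2 : x + a • e + (b - a) • e = x + b • e := by
      rw [add_assoc, ← add_smul]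
      congr 2
      ring
    rwa [h2] at h1
  have hord : OrdConnected {t : ℝ | x + t • e ∈ Nn W} := by
    refine ⟨fun a ha b hb t ht => ?_⟩
    obtain ⟨ha0, y, hy⟩ := ha
    exact ⟨lt_of_lt_of_le hb.1 (hanti _ _ ht.2), y, lt_of_le_of_lt (hanti _ _ ht.1) hy⟩
  have hpre : IsPreconnected {t : ℝ | x + t • e ∈ Nn W} := hord.isPreconnected
  have hU : IsOpen (interior {t : ℝ | W (x + t • e) = ψ (x + t • e)}) := isOpen_interior
  have hV : IsOpen {t : ℝ | W (x + t • e) ≠ ψ (x + t • e)} :=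
    isOpen_ne_fun (hW.cont.comp hcont) (hψ.sup.cont.comp hcont)
  have hin : ∀ t : ℝ, x + t • e ∈ Nn W → W (x + t • e) = ψ (x + t • e) →
      t ∈ interior {t : ℝ | W (x + t • e) = ψ (x + t • e)} := by
    intro t ht heq
    obtain ⟨r, hr, hb⟩ := coin_open hp hW hψ ht heq
    rw [mem_interior_iff_mem_nhds]
    have h1 : (fun t : ℝ => x + t • e) ⁻¹' ball (x + t • e) r ∈ 𝓝 t :=
      hcont.continuousAt.preimage_mem_nhds (ball_mem_nhds _ hr)
    filter_upwards [h1] with t' ht'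
    exact hb _ ht'
  obtain ⟨t, _, ht1, ht2⟩ := hpre _ _ hU hV (by
    intro t ht
    by_cases h : W (x + t • e) = ψ (x + t • e)
    · exact Or.inl (hin t ht h)
    · exact Or.inr h) ⟨ξ0, hξ0, hin ξ0 hξ0 heq0⟩ ⟨ξ, hξ, hne⟩
  have ht3 : t ∈ {t : ℝ | W (x + t • e) = ψ (x + t • e)} := interior_subset ht1
  exact ht2 ht3

private theorem COI_anti (hW : WP p c e Ω Φ W) (x : E n) (a b : ℝ) (hab : a ≤ b) :
    W (x + b • e) ≤ W (x + a • e) := by
  have h1 := hW.mono (x + a • e) (b - a) (by linarith)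
  have h2 : x + a • e + (b - a) • e = x + b • e := by
    rw [add_assoc, ← add_smul]
    congr 2
    ring
  rwa [h2] at h1

/-- on the line through a point of the cross section there is a point of `Nn W` -/
private theorem COI_exists_nn (hΩ : Tube e r0 Ω) (hne : (Ωᶜ).Nonempty) (hW : WP p c e Ω Φ W) {x : E n}
    (hx : x ∈ Ω) (hx0 : ⟪x, e⟫ = 0) : ∃ ξ : ℝ, x + ξ • e ∈ Nn W := by
  obtain ⟨t0, ht0⟩ := po_proj hΩ hne hW hx
  have h1 : 0 < W (x + (-|t0|) • e) := by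
    have := ht0 |t0| (le_abs_self _)
    rw [neg_smul, ← sub_eq_add_neg]
    exact this
  have h2 : W (x + (0:ℝ) • e) = 0 := by
    rw [zero_smul, add_zero]
    exact hW.right x (by rw [hx0])
  have hcont : Continuous fun t : ℝ => W (x + t • e) := hW.cont.comp (by fun_prop)
  have h3 : W (x + (-|t0|) • e) / 2 ∈ (fun t : ℝ => W (x + t • e)) '' Icc (-|t0|) 0 := by
    refine intermediate_value_Icc' (by simp) hcont.continuousOn ⟨?_, ?_⟩
    · change W (x + (0:ℝ) • e) ≤ _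
      rw [h2]
      positivity
    · change _ ≤ W (x + (-|t0|) • e)
      linarith
  obtain ⟨t, _, ht⟩ := h3
  refine ⟨t, ?_, x + (-|t0|) • e, ?_⟩
  · change 0 < W (x + t • e)
    have : W (x + t • e) = W (x + (-|t0|) • e) / 2 := ht
    rw [this]
    positivity
  · have : W (x + t • e) = W (x + (-|t0|) • e) / 2 := ht
    rw [this]
    linarith

theorem casea (hp : 2 < p) (hc : 0 < c) (hΩ : Tube e r0 Ω) (hne : (Ωᶜ).Nonempty)
    (hW : WP p c e Ω Φ W) (hψ : Above p c e Ω W ψ) (hx1 : ∃ x, 0 < ψ x ∧ 0 < ⟪x, e⟫) :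
    ∀ x ∈ Nn W, W x < ψ x := by
  intro z hz
  by_contra hcon
  have hzeq : W z = ψ z := le_antisymm (hψ.le z) (not_lt.1 hcon)
  obtain ⟨x1, hx1pos, hx1e⟩ := hx1
  have hee : ⟪e, e⟫ = (1:ℝ) := by
    rw [real_inner_self_eq_norm_sq, hΩ.unit]
    norm_num
  have hopenN := COI_open_nn hW.cont
  -- the set of the lines with a coincidence point
  obtain ⟨u, hu⟩ : ∃ u : Set (E n), u = {x | ∃ ξ : ℝ, x + ξ • e ∈ Nn W ∧
      W (x + ξ • e) = ψ (x + ξ • e)} := ⟨_, rfl⟩
  have huo : IsOpen u := by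
    rw [isOpen_iff_mem_nhds]
    intro x hx
    rw [hu] at hx
    obtain ⟨ξ, h1, h2⟩ := hx
    obtain ⟨r, hr, hb⟩ := coin_open hp hW hψ h1 h2
    have hct : Continuous fun y : E n => y + ξ • e := by fun_prop
    have h3 : (fun y : E n => y + ξ • e) ⁻¹' (ball (x + ξ • e) r ∩ Nn W) ∈ 𝓝 x :=
      hct.continuousAt.preimage_mem_nhds (Filter.inter_mem (ball_mem_nhds _ hr) (hopenN.mem_nhds h1))
    filter_upwards [h3] with y hy
    rw [hu]
    exact ⟨ξ, hy.2, hb _ hy.1⟩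
  have hmemN : ∀ x ∈ Ω, ⟪x, e⟫ = 0 → ∃ ξ : ℝ, x + ξ • e ∈ Nn W := fun x h1 h2 =>
    COI_exists_nn hΩ hne hW h1 h2
  have hproj : ∀ x ∈ Ω, x - ⟪x, e⟫ • e ∈ Ω ∧ ⟪x - ⟪x, e⟫ • e, e⟫ = 0 := by
    intro x hx
    refine ⟨?_, ?_⟩
    · have h1 := hΩ.inv x hx (-⟪x, e⟫)
      rwa [neg_smul, ← sub_eq_add_neg] at h1
    · rw [inner_sub_left, real_inner_smul_left, hee, mul_one, sub_self]
  have hpre : IsPreconnected (Ω ∩ {x : E n | ⟪x, e⟫ = 0}) := by
    apply Convex.isPreconnected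
    refine hΩ.convex.inter ?_
    intro a ha b hb s t _ _ _
    change ⟪s • a + t • b, e⟫ = 0
    rw [inner_add_left, real_inner_smul_left, real_inner_smul_left, show ⟪a, e⟫ = 0 from ha,
      show ⟪b, e⟫ = 0 from hb, mul_zero, mul_zero, add_zero]
  have hsub : Ω ∩ {x : E n | ⟪x, e⟫ = 0} ⊆ u := by
    refine hpre.subset_of_closure_inter_subset huo ?_ ?_
    · have hzΩ : z ∈ Ω := po_sub hW hz.1
      have h1 := hproj z hzΩ
      refine ⟨z - ⟪z, e⟫ • e, h1, ?_⟩
      rw [hu]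
      refine ⟨⟪z, e⟫, ?_, ?_⟩
      · rw [sub_add_cancel]
        exact hz
      · rw [sub_add_cancel]
        exact hzeq
    · rintro x ⟨hxc, hxΩ, hx0⟩
      obtain ⟨ξ, hξ⟩ := hmemN x hxΩ hx0
      rw [hu]
      refine ⟨ξ, hξ, ?_⟩
      have hct : Continuous fun y : E n => y + ξ • e := by fun_prop
      have hcl : IsClosed {y : E n | W (y + ξ • e) = ψ (y + ξ • e)} :=
        isClosed_eq (hW.cont.comp hct) (hψ.sup.cont.comp hct)
      have h1 : x ∈ closure {y : E n | W (y + ξ • e) = ψ (y + ξ • e)} := by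
        rw [mem_closure_iff_nhds] at hxc ⊢
        intro t ht
        have h2 : (fun y : E n => y + ξ • e) ⁻¹' Nn W ∈ 𝓝 x :=
          hct.continuousAt.preimage_mem_nhds (hopenN.mem_nhds hξ)
        obtain ⟨y, ⟨hy1, hy2⟩, hy3⟩ := hxc _ (Filter.inter_mem ht h2)
        rw [hu] at hy3
        exact ⟨y, hy1, COI_line hp hW hψ hy3 ξ hy2⟩
      rw [hcl.closure_eq] at h1
      exact h1
  -- the line through `x1`
  have hx1Ω : x1 ∈ Ω := by
    by_contra h
    rw [hψ.off x1 h] at hx1pos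
    exact lt_irrefl _ hx1pos
  obtain ⟨hxΩ, hx0⟩ := hproj x1 hx1Ω
  have hPx : x1 - ⟪x1, e⟫ • e ∈ u := hsub ⟨hxΩ, hx0⟩
  rw [hu] at hPx
  obtain ⟨x, hxdef⟩ : ∃ x, x = x1 - ⟪x1, e⟫ • e := ⟨_, rfl⟩
  rw [← hxdef] at hPx hxΩ hx0
  have hline := COI_line hp hW hψ hPx
  have hgc : Continuous fun t : ℝ => W (x + t • e) := hW.cont.comp (by fun_prop)
  have hψc : Continuous fun t : ℝ => ψ (x + t • e) := hψ.sup.cont.comp (by fun_prop)
  have hright : ∀ t : ℝ, 0 ≤ t → W (x + t • e) = 0 := by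
    intro t ht
    apply hW.right
    rw [inner_add_left, hx0, real_inner_smul_left, hee]
    linarith
  have hWnn : ∀ y, 0 ≤ W y := hW.sub.nn
  obtain ⟨ξ1, hξ1, _⟩ := hmemN x hxΩ hx0
  have hbdd : BddAbove {t : ℝ | 0 < W (x + t • e)} := by
    refine ⟨0, fun t ht => ?_⟩
    by_contra h
    have h1 : 0 < W (x + t • e) := ht
    rw [hright t (le_of_lt (not_le.1 h))] at h1
    exact lt_irrefl _ h1
  obtain ⟨s, hs⟩ : ∃ s, s = sSup {t : ℝ | 0 < W (x + t • e)} := ⟨_, rfl⟩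
  have hs0 : s ≤ 0 := by
    rw [hs]
    refine csSup_le ⟨ξ1, hξ1⟩ fun t ht => ?_
    by_contra h
    have h1 : 0 < W (x + t • e) := ht
    rw [hright t (le_of_lt (not_le.1 h))] at h1
    exact lt_irrefl _ h1
  have hWs : W (x + s • e) = 0 := by
    by_contra h
    have h1 : 0 < W (x + s • e) := lt_of_le_of_ne (hWnn _) (Ne.symm h)
    have h2 : {t : ℝ | 0 < W (x + t • e)} ∈ 𝓝 s := (isOpen_lt continuous_const hgc).mem_nhds h1
    obtain ⟨δ, hδ, hb⟩ := Metric.mem_nhds_iff.1 h2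
    have h3 : s + δ / 2 ∈ {t : ℝ | 0 < W (x + t • e)} := hb (by
      rw [mem_ball, Real.dist_eq, add_sub_cancel_left, abs_of_pos (by linarith)]
      linarith)
    have h4 := le_csSup hbdd h3
    rw [← hs] at h4
    linarith
  have hWlt : ∀ t : ℝ, t < s → 0 < W (x + t • e) := by
    intro t ht
    rw [hs] at ht
    obtain ⟨t', ht', hlt⟩ := exists_lt_of_lt_csSup ⟨ξ1, hξ1⟩ ht
    exact lt_of_lt_of_le ht' (COI_anti hW x t t' hlt.le)
  have hψs : ψ (x + s • e) = 0 := by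
    -- `ψ = W` on the left of `s`, near `s`
    have h1 : ∀ᶠ t in 𝓝[<] s, ψ (x + t • e) = W (x + t • e) := by
      have h2 : ∀ᶠ t in 𝓝 s, W (x + t • e) < W (x + (s - 1) • e) := by
        refine (isOpen_lt hgc continuous_const).mem_nhds ?_
        change W (x + s • e) < W (x + (s - 1) • e)
        rw [hWs]
        exact hWlt _ (by linarith)
      filter_upwards [nhdsWithin_le_nhds h2, self_mem_nhdsWithin] with t ht1 ht2
      exact (hline t ⟨hWlt t ht2, _, ht1⟩).symm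
    have h2 : Tendsto (fun t : ℝ => ψ (x + t • e)) (𝓝[<] s) (𝓝 (ψ (x + s • e))) :=
      (hψc.tendsto s).mono_left nhdsWithin_le_nhds
    have h3 : Tendsto (fun t : ℝ => ψ (x + t • e)) (𝓝[<] s) (𝓝 (W (x + s • e))) :=
      Tendsto.congr' (h1.mono fun t ht => ht.symm)
        ((hgc.tendsto s).mono_left nhdsWithin_le_nhds)
    rw [tendsto_nhds_unique h2 h3, hWs]
  -- persistence of positivity
  have hκ : 0 ≤ ka p := by
    unfold ka
    have : 0 < p - 2 := by linarith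
    positivity
  have hnb : {y : E n | 0 < ψ y} ∈ 𝓝 x1 := (isOpen_lt continuous_const hψ.sup.cont).mem_nhds hx1pos
  obtain ⟨ρ, hρ, hb⟩ := Metric.nhds_basis_closedBall.mem_iff.1 hnb
  have hρΩ : ball x1 ρ ⊆ Ω := by
    intro y hy
    by_contra h
    have h1 : 0 < ψ y := hb (ball_subset_closedBall hy)
    rw [hψ.off y h] at h1
    exact lt_irrefl _ h1
  have hT : 0 ≤ (⟪x1, e⟫ - s) / c := div_nonneg (by linarith) hc.le
  have hfin := persist hp hκ hψ.sup (y0 := x1) hρ hT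
    (fun y hy => hb (by rw [mem_closedBall, dist_eq_norm]; exact hy))
    (fun τ _ _ => by
      have h1 := ball_inv hΩ hρΩ (-(c * τ))
      rwa [neg_smul, ← sub_eq_add_neg] at h1)
    (x + s • e) (by
      have h1 : x + s • e - (x1 - (c * ((⟪x1, e⟫ - s) / c)) • e) = 0 := by
        rw [mul_div_cancel₀ _ hc.ne', hxdef, sub_smul]
        abel
      rw [h1, norm_zero]
      exact hρ)
  rw [hψs] at hfin
  exact lt_irrefl _ hfin

end Pool.Agent.TWC
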