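import Pool.Agent.TWC.Defs

/-!
# TWC CST: comparison of subsolutions with classical barriers

`cst` (stationary): `u - B` is upper semicontinuous on the compact set `K`; if it is positive
somewhere take a maximum point `x` in `K`, `B x < u x`. By hypothesis `K` is a neighbourhood of `x` and
`UJ B x P X`. For `y` near `x`: `u y ≤ u x + (B y - B x)`, hence `UJ u x P X`, and `Sb` contradicts the
strict inequality.

`cs` (time dependent barrier `B x τ`, the subsolution `u` does not depend on time). Let `lam = κ + 1`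
and let `(x, τ)` be a maximum point of `e^(-lam τ) (u x - B x τ)` on the compact set `K` (upper
semicontinuous: a positive continuous factor times an usc function; `K ≠ ∅`; note that only the
positive part matters, so one may maximise the usc function `u x - B x τ` multiplied by the
continuous positive function). Suppose the maximum is positive, `μ = u x - B x τ > 0`.
By hypothesis the slice and the past segment are in `K`.
(space) for `y` near `x`: `u y - B y τ ≤ μ`, hence `UJ u x P X` and `0 ≤ pA p P X + <b,P> + κ u x`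
  `= pA p P X + <b,P> + κ B x τ + κ μ ≤ a + κ μ`.
(time) for small `s > 0`: `e^(-lam (τ-s)) (u x - B x (τ-s)) ≤ e^(-lam τ) μ`, so
  `u x - B x (τ-s) ≤ e^(-lam s) μ`, `B x (τ-s) ≥ B x τ + μ (1 - e^(-lam s))`; with `DtU`:
  `-s a + ε s ≥ μ (1 - e^(-lam s))`; divide by `s`, `s → 0`, `ε → 0`: `a ≤ - lam μ`.
Together `0 ≤ -lam μ + κ μ < 0`. In the first alternative of the hypothesis (`0 ≤ a`, no information
in space) the time part alone gives `0 ≤ a ≤ -lam μ < 0`.

`cs'`: apply `cs` to `-v`, `-B` (`Sb` for `-v` is `Sp` for `v`, because `pA p (-P) (-X) = - pA p P X`).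
The condition `0 ≤ -B`-type alternative is not needed for `cs'`.
-/

open Set Metric Filter Topology
open scoped RealInnerProductSpace

noncomputable section

namespace Pool.Agent.TWC

variable {n : ℕ} {p : ℝ} {b : E n} {κ : ℝ}

private theorem CST_usc_sub {α : Type*} [TopologicalSpace α] {K : Set α} {u B : α → ℝ}
    (hu : UpperSemicontinuousOn u K) (hB : LowerSemicontinuousOn B K) :
    UpperSemicontinuousOn (fun x => u x - B x) K := by
  intro x hx y hy
  have hd : u x + (y - (u x - B x)) / 2 > u x := by linarith [show u x - B x < y from hy]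
  have hd2 : B x - (y - (u x - B x)) / 2 < B x := by linarith [show u x - B x < y from hy]
  filter_upwards [hu x hx _ hd, hB x hx _ hd2] with z h1 h2
  show u z - B z < y
  linarith

private theorem CST_usc_mul {α : Type*} [TopologicalSpace α] {K : Set α} {g w : α → ℝ}
    (hg : Continuous g) (hg0 : ∀ x, 0 < g x) (hw : UpperSemicontinuousOn w K) :
    UpperSemicontinuousOn (fun x => g x * w x) K := by
  intro x hx y hy
  have h0 : w x < y / g x := by rw [lt_div_iff₀ (hg0 x)]; rw [mul_comm]; exact hy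
  obtain ⟨a, ha1, ha2⟩ := exists_between h0
  have h1 : g x * a < y := by rw [lt_div_iff₀ (hg0 x)] at ha2; linarith
  have h2 : ∀ᶠ z in 𝓝[K] x, g z * a < y :=
    ((hg.mul continuous_const).tendsto x).mono_left nhdsWithin_le_nhds |>.eventually_lt_const h1
  filter_upwards [hw x hx a ha1, h2] with z h3 h4
  exact (mul_lt_mul_of_pos_left h3 (hg0 z)).trans h4

/-- The information from the past. -/
private theorem CST_time {f : ℝ → ℝ} {τ a c μ lam r0 : ℝ} (hμ : 0 < μ) (hlam : 0 < lam)
    (hr0 : 0 < r0) (hf : DtU f τ a) (hc : c - f τ = μ)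
    (h : ∀ s, 0 < s → s < r0 → c - f (τ - s) ≤ Real.exp (-(lam * s)) * μ) : a ≤ -(lam * μ) := by
  by_contra hcon
  push Not at hcon
  set ε := (a + lam * μ) / 2 with hε
  have hεpos : 0 < ε := by rw [hε]; linarith
  obtain ⟨r, hr, H⟩ := hf ε hεpos
  set s := min (min (r / 2) (r0 / 2)) (ε / (μ * lam ^ 2 + 1)) with hs
  have hden : 0 < μ * lam ^ 2 + 1 := by positivity
  have hs0 : 0 < s := by
    rw [hs]; exact lt_min (lt_min (by linarith) (by linarith)) (div_pos hεpos hden)
  have hs1 : s < r := lt_of_le_of_lt ((min_le_left _ _).trans (min_le_left _ _)) (by linarith)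
  have hs2 : s < r0 := lt_of_le_of_lt ((min_le_left _ _).trans (min_le_right _ _)) (by linarith)
  have hs3 : s ≤ ε / (μ * lam ^ 2 + 1) := min_le_right _ _
  have h1 := H s hs0 hs1
  have h2 := h s hs0 hs2
  have h3 : Real.exp (-(lam * s)) ≤ 1 / (1 + lam * s) := by
    rw [Real.exp_neg, one_div]
    apply inv_anti₀ (by positivity)
    have := Real.add_one_le_exp (lam * s)
    linarith
  have h4 : Real.exp (-(lam * s)) * μ ≤ μ - μ * lam * s + μ * lam ^ 2 * s ^ 2 := by
    have h5 : 1 / (1 + lam * s) ≤ 1 - lam * s + lam ^ 2 * s ^ 2 := by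
      have hp : 0 < 1 + lam * s := by positivity
      rw [div_le_iff₀ hp]
      have : 0 ≤ (lam * s) ^ 3 := by positivity
      nlinarith
    have := mul_le_mul_of_nonneg_right (h3.trans h5) hμ.le
    linarith
  have h6 : s * (μ * lam ^ 2 + 1) ≤ ε := by
    rwa [le_div_iff₀ hden] at hs3
  have h7 : s * (a - ε + μ * lam - μ * lam ^ 2 * s) ≤ 0 := by nlinarith
  have h8 : a - ε + μ * lam = ε := by rw [hε]; ring
  have h9 : a - ε + μ * lam - μ * lam ^ 2 * s ≤ 0 := by
    by_contra h10
    push Not at h10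
    have := mul_pos hs0 h10
    linarith
  rw [h8] at h9
  linarith

theorem cst {O : Set (E n)} {u B : E n → ℝ} (hS : Sb p b κ O u) {K : Set (E n)} (hK : IsCompact K)
    (hu : UpperSemicontinuousOn u K) (hB : LowerSemicontinuousOn B K)
    (h : ∀ x ∈ K, B x < u x → x ∈ O ∧ K ∈ 𝓝 x ∧ ∃ P X, UJ B x P X ∧
      pA p P X + ⟪b, P⟫ + κ * u x < 0) :
    ∀ x ∈ K, u x ≤ B x := by
  intro x0 hx0
  by_contra hcon
  push Not at hcon
  obtain ⟨x, hx, hmax⟩ := (CST_usc_sub hu hB).exists_isMaxOn ⟨x0, hx0⟩ hK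
  have hpos : B x < u x := by
    have := hmax hx0
    simp only [mem_setOf_eq] at this
    linarith
  obtain ⟨hxO, hKx, P, X, hUJ, hlt⟩ := h x hx hpos
  have hU : UJ u x P X := by
    intro ε hε
    obtain ⟨r, hr, H⟩ := hUJ ε hε
    obtain ⟨r', hr', hK'⟩ := Metric.mem_nhds_iff.1 hKx
    refine ⟨min r r', lt_min hr hr', fun y hy => ?_⟩
    have h1 := H y (hy.trans_le (min_le_left _ _))
    have h2 : y ∈ K := hK' (by rw [mem_ball, dist_eq_norm]; exact hy.trans_le (min_le_right _ _))
    have h3 := hmax h2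
    simp only [mem_setOf_eq] at h3
    linarith
  linarith [hS x hxO P X hU]

/-- Comparison with a classical time dependent supersolution. `K` is a compact space time set. -/
theorem cs (hκ : 0 ≤ κ) {O : Set (E n)} {u : E n → ℝ} (hu : UpperSemicontinuous u)
    (hS : Sb p b κ O u) {B : E n → ℝ → ℝ} {K : Set (E n × ℝ)} (hK : IsCompact K)
    (hB : LowerSemicontinuousOn (fun z : E n × ℝ => B z.1 z.2) K)
    (h : ∀ x τ, (x, τ) ∈ K → B x τ < u x → (∃ r > 0, ∀ s, 0 ≤ s → s < r → (x, τ - s) ∈ K) ∧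
      ((∃ a, 0 ≤ a ∧ DtU (B x) τ a) ∨
      (x ∈ O ∧ (∃ r > 0, ∀ y, ‖y - x‖ < r → (y, τ) ∈ K) ∧ ∃ a P X, DtU (B x) τ a ∧
        UJ (fun y => B y τ) x P X ∧ pA p P X + ⟪b, P⟫ + κ * B x τ ≤ a))) :
    ∀ x τ, (x, τ) ∈ K → u x ≤ B x τ := by
  intro x0 τ0 hx0
  by_contra hcon
  push Not at hcon
  set lam := κ + 1 with hlam
  have hlam0 : 0 < lam := by rw [hlam]; linarith
  have husc : UpperSemicontinuousOn
      (fun z : E n × ℝ => Real.exp (-(lam * z.2)) * (u z.1 - B z.1 z.2)) K := by
    refine CST_usc_mul (by fun_prop) (fun z => Real.exp_pos _) (CST_usc_sub ?_ hB)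
    exact (hu.comp continuous_fst).upperSemicontinuousOn _
  obtain ⟨⟨x, τ⟩, hx, hmax⟩ := husc.exists_isMaxOn ⟨(x0, τ0), hx0⟩ hK
  have hM : ∀ y s, (y, s) ∈ K → Real.exp (-(lam * s)) * (u y - B y s) ≤
      Real.exp (-(lam * τ)) * (u x - B x τ) := fun y s hy => hmax hy
  set μ := u x - B x τ with hμ
  have hμ0 : 0 < μ := by
    have h1 := hM x0 τ0 hx0
    have h2 : 0 < Real.exp (-(lam * τ0)) * (u x0 - B x0 τ0) :=
      mul_pos (Real.exp_pos _) (by linarith)
    exact (mul_pos_iff_of_pos_left (Real.exp_pos _)).1 (h2.trans_le h1)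
  obtain ⟨⟨r0, hr0, hpast⟩, hcase⟩ := h x τ hx (by linarith)
  have htime : ∀ a, DtU (B x) τ a → a ≤ -(lam * μ) := by
    intro a ha
    refine CST_time (c := u x) hμ0 hlam0 hr0 ha rfl fun s hs hsr => ?_
    have h1 := hM x (τ - s) (hpast s hs.le hsr)
    have h2 : Real.exp (-(lam * (τ - s))) = Real.exp (-(lam * τ)) * Real.exp (lam * s) := by
      rw [← Real.exp_add]; congr 1; ring
    rw [h2, mul_assoc] at h1
    have h3 := le_of_mul_le_mul_left h1 (Real.exp_pos _)
    rw [Real.exp_neg, ← div_eq_inv_mul, le_div_iff₀ (Real.exp_pos _)]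
    linarith
  rcases hcase with ⟨a, ha0, ha⟩ | ⟨hxO, ⟨r, hr, hslice⟩, a, P, X, ha, hUJ, hle⟩
  · have := htime a ha
    have : 0 < lam * μ := by positivity
    linarith
  · have h1 := htime a ha
    have hU : UJ u x P X := by
      intro ε hε
      obtain ⟨r', hr', H⟩ := hUJ ε hε
      refine ⟨min r r', lt_min hr hr', fun y hy => ?_⟩
      have h1 := H y (hy.trans_le (min_le_right _ _))
      have h2 : (y, τ) ∈ K := hslice y (hy.trans_le (min_le_left _ _))
      have h3 := le_of_mul_le_mul_left (hM y τ h2) (Real.exp_pos _)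
      simp only at h1
      linarith
    have h2 := hS x hxO P X hU
    have h3 : κ * u x = κ * B x τ + κ * μ := by rw [hμ]; ring
    have h4 : lam * μ = κ * μ + μ := by rw [hlam]; ring
    linarith

/-- Comparison with a classical time dependent subsolution. -/
theorem cs' (hκ : 0 ≤ κ) {O : Set (E n)} {v : E n → ℝ} (hv : LowerSemicontinuous v)
    (hS : Sp p b κ O v) {B : E n → ℝ → ℝ} {K : Set (E n × ℝ)} (hK : IsCompact K)
    (hB : UpperSemicontinuousOn (fun z : E n × ℝ => B z.1 z.2) K)
    (h : ∀ x τ, (x, τ) ∈ K → v x < B x τ → (∃ r > 0, ∀ s, 0 ≤ s → s < r → (x, τ - s) ∈ K) ∧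
      x ∈ O ∧ (∃ r > 0, ∀ y, ‖y - x‖ < r → (y, τ) ∈ K) ∧ ∃ a P X, DtL (B x) τ a ∧
        LJ (fun y => B y τ) x P X ∧ a ≤ pA p P X + ⟪b, P⟫ + κ * B x τ) :
    ∀ x τ, (x, τ) ∈ K → B x τ ≤ v x := by
  have hneg : ∀ (P : E n) (X : Bil n), pA p (-P) (-X) = -pA p P X := by
    intro P X
    simp only [pA, tr, norm_neg, map_neg, _root_.neg_apply, Finset.sum_neg_distrib]
    ring
  have hS' : Sb p b κ O (fun x => -v x) := by
    intro x hx P X hU
    have hL : LJ v x (-P) (-X) := by
      intro ε hε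
      obtain ⟨r, hr, H⟩ := hU ε hε
      refine ⟨r, hr, fun y hy => ?_⟩
      have := H y hy
      simp only [inner_neg_left, _root_.neg_apply]
      linarith
    have h1 := hS x hx _ _ hL
    rw [hneg, inner_neg_right] at h1
    linarith
  have hv' : UpperSemicontinuous (fun x => -v x) := by
    intro x y hy
    have : -y < v x := by linarith [show -v x < y from hy]
    filter_upwards [hv x _ this] with z hz
    show -v z < y
    linarith
  have hB' : LowerSemicontinuousOn (fun z : E n × ℝ => -B z.1 z.2) K := by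
    intro x hx y hy
    have : B x.1 x.2 < -y := by linarith [show y < -B x.1 x.2 from hy]
    filter_upwards [hB x hx _ this] with z hz
    show y < -B z.1 z.2
    linarith
  intro x τ hx
  have key := cs hκ hv' hS' (B := fun x τ => -B x τ) hK hB' ?_ x τ hx
  · linarith
  · intro x τ hx hlt
    obtain ⟨h1, h2, h3, a, P, X, h4, h5, h6⟩ := h x τ hx (by linarith)
    refine ⟨h1, Or.inr ⟨h2, h3, -a, -P, -X, ?_, ?_, ?_⟩⟩
    · intro ε hε
      obtain ⟨r, hr, H⟩ := h4 ε hε
      refine ⟨r, hr, fun s hs hsr => ?_⟩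
      have := H s hs hsr
      show -B x (τ - s) ≤ -B x τ - s * -a + ε * s
      linarith
    · intro ε hε
      obtain ⟨r, hr, H⟩ := h5 ε hε
      refine ⟨r, hr, fun y hy => ?_⟩
      have := H y hy
      simp only [inner_neg_left, _root_.neg_apply]
      linarith
    · rw [hneg, inner_neg_right]
      linarith

end Pool.Agent.TWC
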