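import Pool.Agent.TWC.WDef

/-!
# TWC CYL: the tube over a convex domain

* `cyl_tube`: `cyl D = zq ⁻¹' D`, `zq` linear continuous surjective with `|x|² = |zq x|² + (x last)²`,
  `zq (x + t axis) = zq x`, `<x, axis> = x last`, `|x - <x,axis> axis| = |zq x|`. Openness, convexity,
  invariance are clear. Frontier: `frontier (cyl D) = zq ⁻¹' (frontier D)` (open surjective continuous linear
  map). For `w ∈ frontier (cyl D)`, take `ν' ∈ E N` for `zq w` and `ν = lift ν'` (last coordinate `0`):
  `zq` maps `ball (w + r0 ν) r0` into `ball (zq w + r0 ν') r0 ⊆ D`.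
* `cyl_compl`: `D` is bounded and `N ≥ 1` so `D ≠ univ`.
-/

open Set Metric Filter Topology MeasureTheory
open scoped RealInnerProductSpace ContDiff

noncomputable section

namespace Pool.Agent.TWC

/-- Cross section coordinates. -/
def zq {N : ℕ} (x : E (N + 1)) : E N := WithLp.toLp 2 (fun i : Fin N => x i.castSucc)

/-- The axis direction. -/
def axis (N : ℕ) : E (N + 1) := EuclideanSpace.single (Fin.last N) 1

/-- The tube `D × ℝ`. -/
def cyl {N : ℕ} (D : Set (E N)) : Set (E (N + 1)) := {x | zq x ∈ D}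

/-- Bounded convex domains with the interior ball condition (in particular all bounded convex domains
with smooth boundary). -/
structure Dom {N : ℕ} (r0 : ℝ) (D : Set (E N)) : Prop where
  isOpen : IsOpen D
  convex : Convex ℝ D
  nonempty : D.Nonempty
  bdd : Bornology.IsBounded D
  r0pos : 0 < r0
  intball : ∀ w ∈ frontier D, ∃ ν : E N, ‖ν‖ = 1 ∧ ball (w + r0 • ν) r0 ⊆ D

variable {N : ℕ} {D : Set (E N)} {r0 : ℝ}

theorem inner_axis (x : E (N + 1)) : ⟪x, axis N⟫ = x (Fin.last N) := by
  simp [axis, EuclideanSpace.inner_single_right]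

private def CYL_L (N : ℕ) : E (N + 1) →L[ℝ] E N :=
  LinearMap.toContinuousLinearMap
    { toFun := zq
      map_add' := fun _ _ => rfl
      map_smul' := fun _ _ => rfl }

private def CYL_lift (z : E N) : E (N + 1) :=
  WithLp.toLp 2 (Fin.snoc (α := fun _ => ℝ) (fun i => z i) 0)

private theorem CYL_lift_castSucc (z : E N) (i : Fin N) : CYL_lift z i.castSucc = z i := by
  show Fin.snoc (α := fun _ => ℝ) (fun i => z i) 0 i.castSucc = z i
  rw [Fin.snoc_castSucc]

private theorem CYL_lift_last (z : E N) : CYL_lift z (Fin.last N) = 0 := by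
  show Fin.snoc (α := fun _ => ℝ) (fun i => z i) 0 (Fin.last N) = 0
  rw [Fin.snoc_last]

private theorem CYL_zq_lift (z : E N) : zq (CYL_lift z) = z := by
  ext i
  exact CYL_lift_castSucc z i

private theorem CYL_axis_castSucc (i : Fin N) : axis N i.castSucc = 0 := by
  unfold axis
  rw [PiLp.single_apply, if_neg (Fin.castSucc_lt_last i).ne]

private theorem CYL_axis_last : axis N (Fin.last N) = 1 := by
  unfold axis
  rw [PiLp.single_apply, if_pos rfl]

theorem zq_add (x : E (N + 1)) (t : ℝ) : zq (x + t • axis N) = zq x := by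
  ext i
  show x i.castSucc + t * axis N i.castSucc = x i.castSucc
  rw [CYL_axis_castSucc, mul_zero, add_zero]

theorem zq_continuous : Continuous (zq : E (N + 1) → E N) := (CYL_L N).continuous

private theorem CYL_open : IsOpenMap (zq : E (N + 1) → E N) :=
  (CYL_L N).isOpenMap fun z => ⟨CYL_lift z, CYL_zq_lift z⟩

theorem cyl_frontier (D : Set (E N)) : frontier (cyl D) = {x | zq x ∈ frontier D} :=
  (CYL_open.preimage_frontier_eq_frontier_preimage zq_continuous D).symm

theorem cyl_closure (D : Set (E N)) : closure (cyl D) = {x | zq x ∈ closure D} :=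
  (CYL_open.preimage_closure_eq_closure_preimage zq_continuous D).symm

private theorem CYL_normsq (x : E (N + 1)) : ‖x‖ ^ 2 = ‖zq x‖ ^ 2 + x (Fin.last N) ^ 2 := by
  rw [EuclideanSpace.norm_sq_eq, EuclideanSpace.norm_sq_eq, Fin.sum_univ_castSucc,
    Real.norm_eq_abs, sq_abs]
  rfl

private theorem CYL_norm_le (x : E (N + 1)) : ‖zq x‖ ≤ ‖x‖ := by
  refine abs_le_of_sq_le_sq' ?_ (norm_nonneg _) |>.2
  rw [CYL_normsq x]
  exact le_add_of_nonneg_right (sq_nonneg _)

theorem cyl_tube (hN : 0 < N) (hD : Dom r0 D) : Tube (axis N) r0 (cyl D) where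
  unit := by
    unfold axis
    rw [EuclideanSpace.norm_single, norm_one]
  isOpen := hD.isOpen.preimage zq_continuous
  convex := hD.convex.linear_preimage (CYL_L N).toLinearMap
  nonempty := by
    obtain ⟨z, hz⟩ := hD.nonempty
    refine ⟨CYL_lift z, ?_⟩
    show zq (CYL_lift z) ∈ D
    rw [CYL_zq_lift]
    exact hz
  inv := fun x hx t => by
    show zq (x + t • axis N) ∈ D
    rw [zq_add]
    exact hx
  bdd := by
    obtain ⟨R, hR⟩ := hD.bdd.exists_norm_le
    refine ⟨R, fun x hx => ?_⟩
    refine le_trans ?_ (hR (zq x) hx)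
    have h1 : x - ⟪x, axis N⟫ • axis N = x + (-⟪x, axis N⟫) • axis N := by
      rw [neg_smul, sub_eq_add_neg]
    refine abs_le_of_sq_le_sq' ?_ (norm_nonneg _) |>.2
    rw [CYL_normsq, h1, zq_add]
    have h2 : (x + (-⟪x, axis N⟫) • axis N) (Fin.last N) = 0 := by
      show x (Fin.last N) + (-⟪x, axis N⟫) * axis N (Fin.last N) = 0
      rw [CYL_axis_last, inner_axis]
      ring
    rw [h2]
    simp
  r0pos := hD.r0pos
  intball := fun w hw => by
    rw [cyl_frontier] at hw
    obtain ⟨ν', hν, hb⟩ := hD.intball (zq w) hw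
    refine ⟨CYL_lift ν', ?_, fun x hx => ?_⟩
    · have h1 := CYL_normsq (CYL_lift ν')
      rw [CYL_zq_lift, CYL_lift_last, hν] at h1
      have h2 : ‖CYL_lift ν'‖ ^ 2 = 1 := by rw [h1]; norm_num
      nlinarith [norm_nonneg (CYL_lift ν')]
    · refine hb ?_
      rw [mem_ball, dist_eq_norm] at hx ⊢
      have h3 : zq x - (zq w + r0 • ν') = zq (x - (w + r0 • CYL_lift ν')) := by
        have h4 : zq (x - (w + r0 • CYL_lift ν')) = zq x - (zq w + r0 • zq (CYL_lift ν')) := rfl
        rw [h4, CYL_zq_lift]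
      rw [h3]
      exact (CYL_norm_le _).trans_lt hx

theorem cyl_compl (hN : 0 < N) (hD : Dom r0 D) : ((cyl D)ᶜ).Nonempty := by
  obtain ⟨R, hR⟩ := hD.bdd.exists_norm_le
  refine ⟨CYL_lift (EuclideanSpace.single (⟨0, hN⟩ : Fin N) (|R| + 1)), fun h => ?_⟩
  have h1 : zq (CYL_lift (EuclideanSpace.single (⟨0, hN⟩ : Fin N) (|R| + 1))) ∈ D := h
  rw [CYL_zq_lift] at h1
  have h2 := hR _ h1
  rw [EuclideanSpace.norm_single, Real.norm_eq_abs, abs_of_nonneg (by positivity)] at h2
  linarith [le_abs_self R]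

end Pool.Agent.TWC
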