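import Mathlib

/-!
# Finite travelling waves of the p-Laplacian in convex tubes (MP_af4367_an): definitions

Project TWC. Points of the tube are `x : E n`; `e` is the axis direction, the height of a point is
`inner x e`. All functions are defined on the whole space and vanish outside the tube.
The equation is `Δ_p u + b . ∇u + κ u = 0` with drift vector `b = c e`.
-/

open Set Metric Filter Topology
open scoped RealInnerProductSpace

noncomputable section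

namespace Pool.Agent.TWC

/-- Euclidean space. -/
abbrev E (n : ℕ) := EuclideanSpace ℝ (Fin n)

/-- Bilinear forms. -/
abbrev Bil (n : ℕ) := E n →L[ℝ] E n →L[ℝ] ℝ

variable {n : ℕ}

/-- The trace of a bilinear form. -/
def tr (X : Bil n) : ℝ := ∑ i, X (EuclideanSpace.single i 1) (EuclideanSpace.single i 1)

/-- The inner product as a bilinear form. -/
def ip : Bil n := innerSL ℝ

/-- The rank one form `a ⊗ a`. -/
def rk (a : E n) : Bil n := (innerSL ℝ a).smulRight (innerSL ℝ a)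

/-- The `p`-Laplace operator on jets, `|P|^(p-2) tr X + (p-2) |P|^(p-4) X(P,P)`. -/
def pA (p : ℝ) (P : E n) (X : Bil n) : ℝ :=
  ‖P‖ ^ (p - 2) * tr X + (p - 2) * ‖P‖ ^ (p - 4) * X P P

/-- Upper second order jets. -/
def UJ (u : E n → ℝ) (x P : E n) (X : Bil n) : Prop :=
  ∀ ε > 0, ∃ r > 0, ∀ y, ‖y - x‖ < r →
    u y ≤ u x + ⟪P, y - x⟫ + 1 / 2 * X (y - x) (y - x) + ε * ‖y - x‖ ^ 2

/-- Lower second order jets. -/
def LJ (u : E n → ℝ) (x P : E n) (X : Bil n) : Prop :=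
  ∀ ε > 0, ∃ r > 0, ∀ y, ‖y - x‖ < r →
    u x + ⟪P, y - x⟫ + 1 / 2 * X (y - x) (y - x) - ε * ‖y - x‖ ^ 2 ≤ u y

/-- Second order Taylor expansion. -/
def T2 (u : E n → ℝ) (x P : E n) (X : Bil n) : Prop := UJ u x P X ∧ LJ u x P X

/-- Viscosity subsolutions of `Δ_p u + b . ∇u + κ u = 0` on `O`. -/
def Sb (p : ℝ) (b : E n) (κ : ℝ) (O : Set (E n)) (u : E n → ℝ) : Prop :=
  ∀ x ∈ O, ∀ P X, UJ u x P X → 0 ≤ pA p P X + ⟪b, P⟫ + κ * u x

/-- Viscosity supersolutions of `Δ_p u + b . ∇u + κ u = 0` on `O`. -/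
def Sp (p : ℝ) (b : E n) (κ : ℝ) (O : Set (E n)) (v : E n → ℝ) : Prop :=
  ∀ x ∈ O, ∀ P X, LJ v x P X → pA p P X + ⟪b, P⟫ + κ * v x ≤ 0

/-- General viscosity inequality `α(u) Δ_p u + β(u, ∇u) ≥ 0` on `O`. -/
def VS (p : ℝ) (α : ℝ → ℝ) (β : ℝ → E n → ℝ) (O : Set (E n)) (u : E n → ℝ) : Prop :=
  ∀ x ∈ O, ∀ P X, UJ u x P X → 0 ≤ α (u x) * pA p P X + β (u x) P

/-- One sided time derivative used for barriers in the comparison with subsolutions. -/
def DtU (f : ℝ → ℝ) (τ a : ℝ) : Prop :=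
  ∀ ε > 0, ∃ r > 0, ∀ s, 0 < s → s < r → f (τ - s) ≤ f τ - s * a + ε * s

/-- One sided time derivative used for barriers in the comparison with supersolutions. -/
def DtL (f : ℝ → ℝ) (τ a : ℝ) : Prop :=
  ∀ ε > 0, ∃ r > 0, ∀ s, 0 < s → s < r → f τ - s * a - ε * s ≤ f (τ - s)

/-- `m = p / (p - 2)`. -/
def mm (p : ℝ) : ℝ := p / (p - 2)

/-- `q = (p - 2) / p = 1 / m`. -/
def qq (p : ℝ) : ℝ := (p - 2) / p

/-- `β = (p - 1) / (p - 2)`. -/
def be (p : ℝ) : ℝ := (p - 1) / (p - 2)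

/-- `a = κ = 1 / (p - 2)`. -/
def ka (p : ℝ) : ℝ := 1 / (p - 2)

/-- Convex tubes: open convex sets, invariant under translations along the unit vector `e`, with
bounded cross section and the interior ball condition of radius `r0`. -/
structure Tube (e : E n) (r0 : ℝ) (Ω : Set (E n)) : Prop where
  unit : ‖e‖ = 1
  isOpen : IsOpen Ω
  convex : Convex ℝ Ω
  nonempty : Ω.Nonempty
  inv : ∀ x ∈ Ω, ∀ t : ℝ, x + t • e ∈ Ω
  bdd : ∃ R, ∀ x ∈ Ω, ‖x - ⟪x, e⟫ • e‖ ≤ R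
  r0pos : 0 < r0
  intball : ∀ w ∈ frontier Ω, ∃ ν : E n, ‖ν‖ = 1 ∧ ball (w + r0 • ν) r0 ⊆ Ω

/-- Distance to the complement (to the wall for points of the tube). -/
def dw (Ω : Set (E n)) (x : E n) : ℝ := infDist x Ωᶜ

/-- Upper semicontinuous envelope. -/
def uenv (f : E n → ℝ) (x : E n) : ℝ := sInf {a | ∃ r > 0, ∀ y, ‖y - x‖ < r → f y ≤ a}

/-- Supergradient of `u ^ q` on `S`, written with the gradient `P` of `u`. -/
def Gd (p : ℝ) (S : Set (E n)) (u : E n → ℝ) (x P : E n) : Prop :=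
  ∀ y ∈ S, u y ^ qq p ≤ u x ^ qq p + qq p * u x ^ (qq p - 1) * ⟪P, y - x⟫

/-- Positive `q`-concave subsolutions on an open convex set. -/
structure QS (p : ℝ) (b : E n) (κ : ℝ) (S : Set (E n)) (u : E n → ℝ) : Prop where
  isOpen : IsOpen S
  convex : Convex ℝ S
  pos : ∀ x ∈ S, 0 < u x
  conc : ConcaveOn ℝ S (fun x => u x ^ qq p)
  sb : Sb p b κ S u

/-- Nonnegative upper semicontinuous subsolutions on the whole space (functions vanishing outside the
tube, extended by zero). -/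
structure Sub (p : ℝ) (b : E n) (κ : ℝ) (u : E n → ℝ) : Prop where
  nn : ∀ x, 0 ≤ u x
  usc : UpperSemicontinuous u
  sb : Sb p b κ univ u

/-- Nonnegative continuous supersolutions on an open set `O`. -/
structure Sup (p : ℝ) (b : E n) (κ : ℝ) (O : Set (E n)) (v : E n → ℝ) : Prop where
  nn : ∀ x, 0 ≤ v x
  cont : Continuous v
  sp : Sp p b κ O v

/-- The limit profile, as an axially invariant function on the tube. -/
structure Prof (p c : ℝ) (e : E n) (Ω : Set (E n)) (Φ : E n → ℝ) : Prop where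
  cont : Continuous Φ
  nn : ∀ x, 0 ≤ Φ x
  off : ∀ x ∉ Ω, Φ x = 0
  inv : ∀ x, ∀ t : ℝ, Φ (x + t • e) = Φ x
  nontriv : ∃ x, 0 < Φ x
  sub : Sub p (c • e) (ka p) Φ
  sup : Sup p (c • e) (ka p) Ω Φ

/-- Travelling waves in viscosity form. -/
structure Wave (p c : ℝ) (e : E n) (Ω : Set (E n)) (Φ φ : E n → ℝ) : Prop where
  off : ∀ x ∉ Ω, φ x = 0
  sub : Sub p (c • e) (ka p) φ
  sup : Sup p (c • e) (ka p) Ω φ
  lim : ∀ η > 0, ∃ R, ∀ x, ⟪x, e⟫ ≤ -R → |φ x - Φ x| ≤ η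
  right : ∃ R, ∀ x, R ≤ ⟪x, e⟫ → φ x = 0

end Pool.Agent.TWC
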