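import Pool.Agent.TWC.Defs2

/-!
# TWC: definitions for the uniqueness part
-/

open Set Metric Filter Topology
open scoped RealInnerProductSpace

noncomputable section

namespace Pool.Agent.TWC

variable {n : ℕ}

/-- Positive points which are not maximum points. -/
def Nn (W : E n → ℝ) : Set (E n) := {x | 0 < W x ∧ ∃ y, W x < W y}

/-- A uniform ratio gap between `W` and the shifts of `ψ` near the point `x`. -/
def Gap (e : E n) (Ω : Set (E n)) (W ψ : E n → ℝ) (x : E n) : Prop :=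
  ∃ r η s0 : ℝ, 0 < r ∧ 0 < η ∧ η < 1 ∧ 0 < s0 ∧
    ∀ y ∈ Ω ∩ ball x r, ∀ σ : ℝ, |σ| ≤ s0 → W y ≤ (1 - η) * ψ (y - σ • e)

/-- The set where `W` does not decay fast in the axial direction. -/
def FS (e : E n) (W : E n → ℝ) (lam L0 : ℝ) : Set (E n) :=
  {x | 0 < W x ∧ Real.exp (-(lam * L0)) * W (x - L0 • e) ≤ W x}

/-- Wall points of the closure of the support which are not top contact points. -/
def Wl (e : E n) (Ω : Set (E n)) (W : E n → ℝ) : Set (E n) :=
  {x | x ∈ frontier Ω ∧ x ∈ closure (Po W) ∧ ∃ t : ℝ, 0 < t ∧ x + t • e ∈ closure (Po W)}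

/-- Package: a supersolution `ψ` above `W`. -/
structure Above (p c : ℝ) (e : E n) (Ω : Set (E n)) (W ψ : E n → ℝ) : Prop where
  sup : Sup p (c • e) (ka p) Ω ψ
  off : ∀ x ∉ Ω, ψ x = 0
  le : ∀ x, W x ≤ ψ x

end Pool.Agent.TWC
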