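import Pool.Agent.TWC.Defs2

/-!
# TWC ENVA: elementary properties of the two point envelope

`u ≥ 0` usc bounded, `K` closed, `0 < t < 1`. Hypothesis `hcpt`: pairs `(y,z)` over points `x` of a bounded
set can be replaced by better pairs in a bounded set.

* `env_nonneg`, `env_ge`: the defining set is bounded above by `C` (`u ≤ C`: the value is
  `≤ (C^q)^m = C`, `C ≥ 0`).
* `env_attained`: if `0 < env x` there are `y, z ∈ K` with `t y + (1-t) z = x` and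
  `env x = (t u(y)^q + (1-t) u(z)^q)^m`: take a maximising sequence; by `hcpt` it may be taken in the
  compact set `{(y,z) ∈ K × K : |y|,|z| ≤ R', t y + (1-t) z = x}` on which the usc function
  `t u(y)^q + (1-t) u(z)^q` attains its maximum (`r ↦ r^q`, `r ↦ r^m` monotone continuous on `[0,∞)`).
* `env_usc`: let `x_k → x` with `env x_k ≥ a > 0`; choose `y_k, z_k` attaining, in a fixed bounded set;
  a subsequence converges to `(y,z)`, in `K`, `t y + (1-t) z = x`, and by upper semicontinuity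
  `env x ≥ (t u(y)^q + ...)^m ≥ a`. (Formally: for `a > env x` show that `env < a` near `x` by contradiction
  and sequences or by compactness.)
* `env_le`: `env ≤ C`. `env_mono_ge`: `u x ≤ env x` for `x ∈ K` (`y = z = x`).
-/

open Set Metric Filter Topology
open scoped RealInnerProductSpace

noncomputable section

namespace Pool.Agent.TWC

variable {n : ℕ} {p : ℝ} {K : Set (E n)} {u : E n → ℝ} {t : ℝ}

/-- The compactness hypothesis. -/
def Hcpt (K : Set (E n)) (u : E n → ℝ) (t : ℝ) : Prop :=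
  ∀ R, ∃ R', ∀ x, ‖x‖ ≤ R → ∀ y ∈ K, ∀ z ∈ K, t • y + (1 - t) • z = x →
    ∃ y' ∈ K, ∃ z' ∈ K, t • y' + (1 - t) • z' = x ∧ ‖y'‖ ≤ R' ∧ ‖z'‖ ≤ R' ∧ u y ≤ u y' ∧ u z ≤ u z'

private theorem ENVA_qpos (hp : 2 < p) : 0 < qq p := div_pos (by linarith) (by linarith)

private theorem ENVA_mpos (hp : 2 < p) : 0 < mm p := div_pos (by linarith) (by linarith)

private theorem ENVA_qm (hp : 2 < p) : qq p * mm p = 1 := by
  unfold qq mm
  have h1 : p ≠ 0 := by linarith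
  have h2 : p - 2 ≠ 0 := by linarith
  field_simp

/-- The value at a pair. -/
private def ENVA_V (p : ℝ) (u : E n → ℝ) (t : ℝ) (y z : E n) : ℝ :=
  (t * u y ^ qq p + (1 - t) * u z ^ qq p) ^ mm p

private theorem ENVA_mono (hp : 2 < p) (hu : ∀ x, 0 ≤ u x) (ht : 0 < t) (ht1 : t < 1)
    {y z y' z' : E n} (h1 : u y ≤ u y') (h2 : u z ≤ u z') :
    ENVA_V p u t y z ≤ ENVA_V p u t y' z' := by
  have hq := (ENVA_qpos hp).le
  have e1 := Real.rpow_le_rpow (hu y) h1 hq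
  have e2 := Real.rpow_le_rpow (hu z) h2 hq
  have e3 := Real.rpow_nonneg (hu y) (qq p)
  have e4 := Real.rpow_nonneg (hu z) (qq p)
  unfold ENVA_V
  refine Real.rpow_le_rpow ?_ ?_ (ENVA_mpos hp).le
  · exact add_nonneg (mul_nonneg ht.le e3) (mul_nonneg (by linarith) e4)
  · exact add_le_add (mul_le_mul_of_nonneg_left e1 ht.le)
      (mul_le_mul_of_nonneg_left e2 (by linarith))

private theorem ENVA_nn (hu : ∀ x, 0 ≤ u x) (ht : 0 < t) (ht1 : t < 1) (y z : E n) :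
    0 ≤ ENVA_V p u t y z :=
  Real.rpow_nonneg (add_nonneg (mul_nonneg ht.le (Real.rpow_nonneg (hu y) _))
    (mul_nonneg (by linarith) (Real.rpow_nonneg (hu z) _))) _

private theorem ENVA_le (hp : 2 < p) (hu : ∀ x, 0 ≤ u x) {C : ℝ} (hb : ∀ x, u x ≤ C)
    (ht : 0 < t) (ht1 : t < 1) (y z : E n) : ENVA_V p u t y z ≤ C := by
  have hC : 0 ≤ C := (hu 0).trans (hb 0)
  have hq := (ENVA_qpos hp).le
  have e1 := Real.rpow_le_rpow (hu y) (hb y) hq
  have e2 := Real.rpow_le_rpow (hu z) (hb z) hq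
  have e3 := Real.rpow_nonneg (hu y) (qq p)
  have e4 := Real.rpow_nonneg (hu z) (qq p)
  have h1 : t * u y ^ qq p + (1 - t) * u z ^ qq p ≤ C ^ qq p := by
    have h2 := mul_le_mul_of_nonneg_left e1 ht.le
    have h3 := mul_le_mul_of_nonneg_left e2 (show 0 ≤ 1 - t by linarith)
    nlinarith
  have h2 : (C ^ qq p) ^ mm p = C := by
    rw [← Real.rpow_mul hC, ENVA_qm hp, Real.rpow_one]
  rw [← h2]
  unfold ENVA_V
  exact Real.rpow_le_rpow (add_nonneg (mul_nonneg ht.le e3) (mul_nonneg (by linarith) e4)) h1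
    (ENVA_mpos hp).le

private theorem ENVA_bdd (hp : 2 < p) (hu : ∀ x, 0 ≤ u x) {C : ℝ} (hb : ∀ x, u x ≤ C)
    (ht : 0 < t) (ht1 : t < 1) (x : E n) :
    ∀ a ∈ {a | a = 0 ∨ ∃ y ∈ K, ∃ z ∈ K, t • y + (1 - t) • z = x ∧
      a = (t * u y ^ qq p + (1 - t) * u z ^ qq p) ^ mm p}, a ≤ C := by
  rintro a (rfl | ⟨y, _, z, _, _, rfl⟩)
  · exact (hu 0).trans (hb 0)
  · exact ENVA_le hp hu hb ht ht1 y z

theorem env_nonneg (hp : 2 < p) (hu : ∀ x, 0 ≤ u x) (hb : ∃ C, ∀ x, u x ≤ C) (ht : 0 < t)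
    (ht1 : t < 1) (x : E n) : 0 ≤ env p K u t x := by
  obtain ⟨C, hC⟩ := hb
  exact le_csSup ⟨C, ENVA_bdd hp hu hC ht ht1 x⟩ (Or.inl rfl)

theorem env_ge (hp : 2 < p) (hu : ∀ x, 0 ≤ u x) (hb : ∃ C, ∀ x, u x ≤ C) (ht : 0 < t)
    (ht1 : t < 1) {y z : E n} (hy : y ∈ K) (hz : z ∈ K) :
    (t * u y ^ qq p + (1 - t) * u z ^ qq p) ^ mm p ≤ env p K u t (t • y + (1 - t) • z) := by
  obtain ⟨C, hC⟩ := hb
  exact le_csSup ⟨C, ENVA_bdd hp hu hC ht ht1 _⟩ (Or.inr ⟨y, hy, z, hz, rfl, rfl⟩)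

theorem env_le (hp : 2 < p) (hu : ∀ x, 0 ≤ u x) {C : ℝ} (hb : ∀ x, u x ≤ C) (ht : 0 < t)
    (ht1 : t < 1) (x : E n) : env p K u t x ≤ C :=
  csSup_le ⟨0, Or.inl rfl⟩ (ENVA_bdd hp hu hb ht ht1 x)

private theorem ENVA_usc (hp : 2 < p) (hu : ∀ x, 0 ≤ u x) (husc : UpperSemicontinuous u)
    (ht : 0 < t) (ht1 : t < 1) :
    UpperSemicontinuous fun w : E n × E n => ENVA_V p u t w.1 w.2 := by
  have hmono : ∀ r : ℝ, 0 ≤ r → Monotone fun s : ℝ => (max s 0) ^ r := by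
    intro r hr a b hab
    exact Real.rpow_le_rpow (le_max_right _ _) (max_le_max hab le_rfl) hr
  have hcont : ∀ r : ℝ, 0 ≤ r → Continuous fun s : ℝ => (max s 0) ^ r := by
    intro r hr
    exact (continuous_id.max continuous_const).rpow_const fun _ => Or.inr hr
  have hq := (ENVA_qpos hp).le
  have hm := (ENVA_mpos hp).le
  have h1 : UpperSemicontinuous fun w : E n × E n => u w.1 := husc.comp continuous_fst
  have h2 : UpperSemicontinuous fun w : E n × E n => u w.2 := husc.comp continuous_snd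
  have h3 := (hcont _ hq).comp_upperSemicontinuous h1 (hmono _ hq)
  have h4 := (hcont _ hq).comp_upperSemicontinuous h2 (hmono _ hq)
  have h5 : ∀ c : ℝ, 0 ≤ c → Monotone fun s : ℝ => c * s :=
    fun c hc a b hab => mul_le_mul_of_nonneg_left hab hc
  have h6 := (continuous_const.mul continuous_id : Continuous fun s : ℝ => t * s)
    |>.comp_upperSemicontinuous h3 (h5 t ht.le)
  have h7 := (continuous_const.mul continuous_id : Continuous fun s : ℝ => (1 - t) * s)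
    |>.comp_upperSemicontinuous h4 (h5 (1 - t) (by linarith))
  have h8 := (hcont _ hm).comp_upperSemicontinuous (h6.add h7) (hmono _ hm)
  have h9 : (fun w : E n × E n => ENVA_V p u t w.1 w.2) = fun w : E n × E n =>
      (max (t * (max (u w.1) 0) ^ qq p + (1 - t) * (max (u w.2) 0) ^ qq p) 0) ^ mm p := by
    funext w
    have e3 := Real.rpow_nonneg (hu w.1) (qq p)
    have e4 := Real.rpow_nonneg (hu w.2) (qq p)
    rw [max_eq_left (hu w.1), max_eq_left (hu w.2), max_eq_left (add_nonneg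
      (mul_nonneg ht.le e3) (mul_nonneg (by linarith) e4))]
    rfl
  rw [h9]
  exact h8

private theorem ENVA_cpt (hK : IsClosed K) (R : ℝ) :
    IsCompact {w : E n × E n | w.1 ∈ K ∧ w.2 ∈ K ∧ ‖w.1‖ ≤ R ∧ ‖w.2‖ ≤ R} := by
  have h1 : IsCompact (K ∩ closedBall (0 : E n) R) := (isCompact_closedBall 0 R).inter_left hK
  have h2 : {w : E n × E n | w.1 ∈ K ∧ w.2 ∈ K ∧ ‖w.1‖ ≤ R ∧ ‖w.2‖ ≤ R} =
      (K ∩ closedBall (0 : E n) R) ×ˢ (K ∩ closedBall (0 : E n) R) := by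
    ext w
    simp only [mem_ofPred_eq, mem_prod, mem_inter_iff, mem_closedBall_zero_iff]
    tauto
  rw [h2]
  exact h1.prod h1

theorem env_attained (hp : 2 < p) (hK : IsClosed K) (hu : ∀ x, 0 ≤ u x)
    (husc : UpperSemicontinuous u) (hb : ∃ C, ∀ x, u x ≤ C) (ht : 0 < t) (ht1 : t < 1)
    (hc : Hcpt K u t) {x : E n} (hx : 0 < env p K u t x) :
    ∃ y ∈ K, ∃ z ∈ K, t • y + (1 - t) • z = x ∧
      env p K u t x = (t * u y ^ qq p + (1 - t) * u z ^ qq p) ^ mm p := by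
  obtain ⟨R, hR⟩ := hc ‖x‖
  set D : Set (E n × E n) := {w | w.1 ∈ K ∧ w.2 ∈ K ∧ ‖w.1‖ ≤ R ∧ ‖w.2‖ ≤ R} ∩
    {w | t • w.1 + (1 - t) • w.2 = x} with hD
  have hDc : IsCompact D :=
    (ENVA_cpt hK R).inter_right (isClosed_eq (by fun_prop) continuous_const)
  have hne : D.Nonempty := by
    by_contra hcon
    have h1 : env p K u t x ≤ 0 := by
      refine csSup_le ⟨0, Or.inl rfl⟩ ?_
      rintro a (rfl | ⟨y, hy, z, hz, hyz, rfl⟩)
      · exact le_rfl
      · exfalso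
        obtain ⟨y', hy', z', hz', e, n1, n2, _, _⟩ := hR x le_rfl y hy z hz hyz
        exact hcon ⟨(y', z'), ⟨hy', hz', n1, n2⟩, e⟩
    linarith
  obtain ⟨w, hw, hmax⟩ := ((ENVA_usc hp hu husc ht ht1).upperSemicontinuousOn D).exists_isMaxOn
    hne hDc
  refine ⟨w.1, hw.1.1, w.2, hw.1.2.1, hw.2, le_antisymm ?_ ?_⟩
  · refine csSup_le ⟨0, Or.inl rfl⟩ ?_
    rintro a (rfl | ⟨y, hy, z, hz, hyz, rfl⟩)
    · exact ENVA_nn hu ht ht1 w.1 w.2
    · obtain ⟨y', hy', z', hz', e, n1, n2, l1, l2⟩ := hR x le_rfl y hy z hz hyz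
      have h1 := hmax (show (y', z') ∈ D from ⟨⟨hy', hz', n1, n2⟩, e⟩)
      exact (ENVA_mono hp hu ht ht1 l1 l2).trans h1
  · have h1 := env_ge (K := K) hp hu hb ht ht1 hw.1.1 hw.1.2.1
    rwa [show t • w.1 + (1 - t) • w.2 = x from hw.2] at h1

theorem env_usc (hp : 2 < p) (hK : IsClosed K) (hu : ∀ x, 0 ≤ u x)
    (husc : UpperSemicontinuous u) (hb : ∃ C, ∀ x, u x ≤ C) (ht : 0 < t) (ht1 : t < 1)
    (hc : Hcpt K u t) : UpperSemicontinuous (env p K u t) := by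
  intro x a ha
  have ha0 : 0 < a := lt_of_le_of_lt (env_nonneg hp hu hb ht ht1 x) ha
  obtain ⟨R, hR⟩ := hc (‖x‖ + 1)
  set D : Set (E n × E n) := {w | w.1 ∈ K ∧ w.2 ∈ K ∧ ‖w.1‖ ≤ R ∧ ‖w.2‖ ≤ R} ∩
    (fun w : E n × E n => ENVA_V p u t w.1 w.2) ⁻¹' Ici a with hD
  have hDc : IsCompact D :=
    (ENVA_cpt hK R).inter_right ((ENVA_usc hp hu husc ht ht1).isClosed_preimage a)
  have hcl : IsClosed ((fun w : E n × E n => t • w.1 + (1 - t) • w.2) '' D) :=
    (hDc.image (by fun_prop)).isClosed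
  have hx : x ∉ (fun w : E n × E n => t • w.1 + (1 - t) • w.2) '' D := by
    rintro ⟨w, ⟨⟨h1, h2, _, _⟩, h5⟩, h6⟩
    have h7 := env_ge (K := K) hp hu hb ht ht1 h1 h2
    rw [show t • w.1 + (1 - t) • w.2 = x from h6] at h7
    have h8 : a ≤ ENVA_V p u t w.1 w.2 := h5
    exact absurd (h8.trans h7) (not_le.2 ha)
  filter_upwards [hcl.isOpen_compl.mem_nhds hx, ball_mem_nhds x one_pos] with x' h1 h2
  by_contra hcon
  push Not at hcon
  obtain ⟨y, hy, z, hz, hyz, hv⟩ := env_attained hp hK hu husc hb ht ht1 hc (ha0.trans_le hcon)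
  have h3 : ‖x'‖ ≤ ‖x‖ + 1 := by
    rw [mem_ball, dist_eq_norm] at h2
    have := norm_add_le x (x' - x)
    rw [add_sub_cancel] at this
    linarith
  obtain ⟨y', hy', z', hz', e, n1, n2, l1, l2⟩ := hR x' h3 y hy z hz hyz
  apply h1
  refine ⟨(y', z'), ⟨⟨hy', hz', n1, n2⟩, ?_⟩, e⟩
  have h4 := ENVA_mono hp hu ht ht1 l1 l2
  have h5 : env p K u t x' = ENVA_V p u t y z := hv
  rw [h5] at hcon
  exact hcon.trans h4

theorem env_ge_self (hp : 2 < p) (hu : ∀ x, 0 ≤ u x) (hb : ∃ C, ∀ x, u x ≤ C) (ht : 0 < t)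
    (ht1 : t < 1) {x : E n} (hx : x ∈ K) : u x ≤ env p K u t x := by
  have h1 := env_ge hp hu hb ht ht1 hx hx
  rw [← add_smul, ← add_mul, add_sub_cancel, one_smul, one_mul, ← Real.rpow_mul (hu x),
    ENVA_qm hp, Real.rpow_one] at h1
  exact h1

end Pool.Agent.TWC
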