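import Pool.Agent.TWC.SUM2
import Pool.Agent.TWC.PAL

/-!
# TWC SUML: limit form of the theorem on sums for the operators `α(u) Δ_p u + β(u, ∇u)`

Apply `sum2` with `δ = 1/(k+1)`, `k → ∞`; outputs `x_k, y_k, P_k, Q_k, X_k, Y_k`. For large `k` the
points are in the open sets, so `0 ≤ α₁(u x_k) pA p P_k X_k + β₁(u x_k, P_k)` and the same for `w`.
`u x_k → u x0`, `P_k → P` etc.

`sumL`: here `P ≠ 0`, `Q ≠ 0`. `X_k a a ≤ B (a,0) (a,0) + |a|^2 ≤ L |a|^2` with `L = ‖B‖ + 1`, and from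
the viscosity inequality `pA p P_k X_k ≥ -β₁/α₁ ≥ -C` (bounded for large `k`, since `α₁ (u x_k)` tends
to `α₁ (u x0) > 0`). By `pA_lower` and `opNorm_le_of_quad` the forms `X_k` are bounded, so a
subsequence converges (finite dimensional space, `IsCompact.tendsto_subseq` in a closed ball of
`Bil n`; proper space). Same for `Y_k`. Pass to the limit with `pA_cont` and the continuity of
`α, β`.

`sumL0`: `Q = 0`. Then `Y_k b b ≤ L |b|^2`, so `pA p Q_k Y_k ≤ (n+p-2) |Q_k|^(p-2) L → 0`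
(`pA_le_of_quad`), and `0 ≤ α₂ pA + β₂` gives `0 ≤ β₂ (w y0, 0)` in the limit (`α₂(w y_k) ≥ 0` is
bounded).
-/

open Set Metric Filter Topology
open scoped RealInnerProductSpace

noncomputable section

namespace Pool.Agent.TWC

variable {n : ℕ} {p : ℝ}

private theorem suml_B {B : (E n × E n) →L[ℝ] (E n × E n) →L[ℝ] ℝ} (z : E n × E n) :
    B z z ≤ ‖B‖ * ‖z‖ ^ 2 := by
  have h := B.le_opNorm₂ z z
  rw [Real.norm_eq_abs] at h
  calc B z z ≤ |B z z| := le_abs_self _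
    _ ≤ ‖B‖ * ‖z‖ * ‖z‖ := h
    _ = ‖B‖ * ‖z‖ ^ 2 := by ring

private theorem suml_delta (k : ℕ) : (0 : ℝ) < 1 / ((k : ℝ) + 1) := by positivity

private theorem suml_tend {G : Type*} [NormedAddCommGroup G] {f : ℕ → G} {a : G}
    (h : ∀ k : ℕ, ‖f k - a‖ < 1 / ((k : ℝ) + 1)) : Tendsto f atTop (𝓝 a) := by
  rw [tendsto_iff_norm_sub_tendsto_zero]
  exact squeeze_zero (fun k => norm_nonneg _) (fun k => (h k).le)
    tendsto_one_div_add_atTop_nhds_zero_nat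

private theorem suml_cont {G : E n → Bil n → ℝ} (hG : Continuous fun z : E n × Bil n => G z.1 z.2)
    {P : E n} {Z : Bil n} {Pk : ℕ → E n} {X : ℕ → Bil n}
    (tP : Tendsto Pk atTop (𝓝 P)) (tX : Tendsto X atTop (𝓝 Z)) :
    Tendsto (fun k => G (Pk k) (X k)) atTop (𝓝 (G P Z)) :=
  (hG.tendsto (P, Z)).comp (tP.prodMk_nhds tX)

/-- boundedness of the forms for one of the functions -/
private theorem suml_bdd (hp : 2 < p) {α : ℝ → ℝ} {β : ℝ → E n → ℝ} {s0 : ℝ} {P : E n}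
    (hα : ContinuousAt α s0) (hαp : 0 < α s0)
    (hβ : ContinuousAt (fun z : ℝ × E n => β z.1 z.2) (s0, P)) (hP : P ≠ 0)
    {s : ℕ → ℝ} {Pk : ℕ → E n} {X : ℕ → Bil n} {L : ℝ} (hL : 0 ≤ L)
    (hs : Tendsto s atTop (𝓝 s0)) (hPk : Tendsto Pk atTop (𝓝 P))
    (hsym : ∀ k a b, X k a b = X k b a) (hX : ∀ k v, X k v v ≤ L * ‖v‖ ^ 2)
    (hvis : ∀ᶠ k in atTop, 0 ≤ α (s k) * pA p (Pk k) (X k) + β (s k) (Pk k)) :
    ∃ R, ∀ᶠ k in atTop, ‖X k‖ ≤ R := by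
  have h1 : Tendsto (fun k => α (s k)) atTop (𝓝 (α s0)) := hα.tendsto.comp hs
  have h2 : Tendsto (fun k => β (s k) (Pk k)) atTop (𝓝 (β s0 P)) :=
    hβ.tendsto.comp (hs.prodMk_nhds hPk)
  have h3 : Tendsto (fun k => ‖Pk k‖) atTop (𝓝 ‖P‖) := hPk.norm
  have hPpos : 0 < ‖P‖ := norm_pos_iff.2 hP
  set a := α s0 / 2 with ha
  have ha0 : 0 < a := by positivity
  set b := |β s0 P| + 1 with hb
  have hb0 : 0 < b := by positivity
  have hC : 0 ≤ b / a := by positivity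
  refine ⟨max ((n + p) * L + b / a / (‖P‖ / 2) ^ (p - 2)) L, ?_⟩
  have e1 : ∀ᶠ k in atTop, a < α (s k) := h1.eventually_const_lt (by rw [ha]; linarith)
  have e2 : ∀ᶠ k in atTop, β (s k) (Pk k) < b :=
    h2.eventually_lt_const (by rw [hb]; linarith [le_abs_self (β s0 P)])
  have e3 : ∀ᶠ k in atTop, ‖P‖ / 2 < ‖Pk k‖ := h3.eventually_const_lt (by linarith)
  filter_upwards [e1, e2, e3, hvis] with k k1 k2 k3 k4
  have h4 : -(b / a) ≤ pA p (Pk k) (X k) := by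
    by_contra hcon
    push Not at hcon
    have h5 : α (s k) * pA p (Pk k) (X k) < α (s k) * -(b / a) :=
      mul_lt_mul_of_pos_left hcon (ha0.trans k1)
    have h6 : α (s k) * (b / a) ≥ a * (b / a) := by gcongr
    have h7 : a * (b / a) = b := by field_simp
    linarith
  have hlow := pA_lower hp (c0 := ‖P‖ / 2) (by positivity) hC hL k3.le (hX k) h4
  refine opNorm_le_of_quad (hsym k) (le_max_of_le_right hL) fun v => ?_
  rw [abs_le]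
  have hv : 0 ≤ ‖v‖ ^ 2 := by positivity
  constructor
  · have h8 := hlow v
    have h9 : ((n + p) * L + b / a / (‖P‖ / 2) ^ (p - 2)) * ‖v‖ ^ 2 ≤
        max ((n + p) * L + b / a / (‖P‖ / 2) ^ (p - 2)) L * ‖v‖ ^ 2 := by
      gcongr
      exact le_max_left _ _
    linarith
  · refine (hX k v).trans ?_
    gcongr
    exact le_max_right _ _

theorem sumL (hp : 2 < p) {u w : E n → ℝ} {x0 y0 P Q : E n}
    {B : (E n × E n) →L[ℝ] (E n × E n) →L[ℝ] ℝ}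
    (hu : UpperSemicontinuousOn u (closedBall x0 1)) (hw : UpperSemicontinuousOn w (closedBall y0 1))
    (h : ∀ ε > 0, ∃ r > 0, ∀ x y, ‖x - x0‖ < r → ‖y - y0‖ < r →
      u x + w y ≤ u x0 + w y0 + ⟪P, x - x0⟫ + ⟪Q, y - y0⟫ +
        1 / 2 * B (x - x0, y - y0) (x - x0, y - y0) + ε * (‖x - x0‖ ^ 2 + ‖y - y0‖ ^ 2))
    {α₁ α₂ : ℝ → ℝ} {β₁ β₂ : ℝ → E n → ℝ} {O₁ O₂ : Set (E n)} (hO₁ : O₁ ∈ 𝓝 x0) (hO₂ : O₂ ∈ 𝓝 y0)
    (h₁ : VS p α₁ β₁ O₁ u) (h₂ : VS p α₂ β₂ O₂ w)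
    (ha₁ : ContinuousAt α₁ (u x0)) (ha₂ : ContinuousAt α₂ (w y0)) (hp₁ : 0 < α₁ (u x0))
    (hp₂ : 0 < α₂ (w y0))
    (hb₁ : ContinuousAt (fun z : ℝ × E n => β₁ z.1 z.2) (u x0, P))
    (hb₂ : ContinuousAt (fun z : ℝ × E n => β₂ z.1 z.2) (w y0, Q)) (hP : P ≠ 0) (hQ : Q ≠ 0) :
    ∃ X Y : Bil n, (∀ a b, X a b = X b a) ∧ (∀ a b, Y a b = Y b a) ∧
      (∀ a b, X a a + Y b b ≤ B (a, b) (a, b)) ∧
      0 ≤ α₁ (u x0) * pA p P X + β₁ (u x0) P ∧ 0 ≤ α₂ (w y0) * pA p Q Y + β₂ (w y0) Q := by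
  choose x y Pk Qk X Y g1 g2 g3 g4 g5 g6 g7 g8 g9 g10 g11 using fun k : ℕ =>
    sum2 hu hw h (suml_delta k)
  have tx : Tendsto x atTop (𝓝 x0) := suml_tend g1
  have ty : Tendsto y atTop (𝓝 y0) := suml_tend g2
  have tux : Tendsto (fun k => u (x k)) atTop (𝓝 (u x0)) :=
    suml_tend fun k => by rw [Real.norm_eq_abs]; exact g3 k
  have twy : Tendsto (fun k => w (y k)) atTop (𝓝 (w y0)) :=
    suml_tend fun k => by rw [Real.norm_eq_abs]; exact g4 k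
  have tP : Tendsto Pk atTop (𝓝 P) := suml_tend g5
  have tQ : Tendsto Qk atTop (𝓝 Q) := suml_tend g6
  have v1 : ∀ᶠ k in atTop, 0 ≤ α₁ (u (x k)) * pA p (Pk k) (X k) + β₁ (u (x k)) (Pk k) := by
    filter_upwards [tx.eventually hO₁] with k hk using h₁ (x k) hk (Pk k) (X k) (g9 k)
  have v2 : ∀ᶠ k in atTop, 0 ≤ α₂ (w (y k)) * pA p (Qk k) (Y k) + β₂ (w (y k)) (Qk k) := by
    filter_upwards [ty.eventually hO₂] with k hk using h₂ (y k) hk (Qk k) (Y k) (g10 k)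
  have hδ1 : ∀ k : ℕ, 1 / ((k : ℝ) + 1) ≤ 1 := fun k => by
    rw [div_le_one (by positivity)]
    linarith [(Nat.cast_nonneg k : (0 : ℝ) ≤ k)]
  have hL : (0 : ℝ) ≤ ‖B‖ + 1 := by positivity
  have hX : ∀ k v, X k v v ≤ (‖B‖ + 1) * ‖v‖ ^ 2 := by
    intro k v
    have e1 := g11 k v 0
    have e2 := suml_B (B := B) (v, 0)
    have e3 : ‖((v, 0) : E n × E n)‖ = ‖v‖ := by simp [Prod.norm_def]
    rw [e3] at e2
    have e4 : Y k 0 0 = 0 := by simp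
    rw [e4, norm_zero] at e1
    have e5 : 1 / ((k : ℝ) + 1) * ‖v‖ ^ 2 ≤ 1 * ‖v‖ ^ 2 := by
      gcongr
      exact hδ1 k
    nlinarith
  have hY : ∀ k v, Y k v v ≤ (‖B‖ + 1) * ‖v‖ ^ 2 := by
    intro k v
    have e1 := g11 k 0 v
    have e2 := suml_B (B := B) (0, v)
    have e3 : ‖((0, v) : E n × E n)‖ = ‖v‖ := by simp [Prod.norm_def]
    rw [e3] at e2
    have e4 : X k 0 0 = 0 := by simp
    rw [e4, norm_zero] at e1
    have e5 : 1 / ((k : ℝ) + 1) * ‖v‖ ^ 2 ≤ 1 * ‖v‖ ^ 2 := by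
      gcongr
      exact hδ1 k
    nlinarith
  obtain ⟨R1, hR1⟩ := suml_bdd hp ha₁ hp₁ hb₁ hP hL tux tP g7 hX v1
  obtain ⟨R2, hR2⟩ := suml_bdd hp ha₂ hp₂ hb₂ hQ hL twy tQ g8 hY v2
  have hprop : ProperSpace (Bil n) := FiniteDimensional.proper ℝ (Bil n)
  have hev : ∀ᶠ k in atTop,
      (X k, Y k) ∈ closedBall (0 : Bil n) R1 ×ˢ closedBall (0 : Bil n) R2 := by
    filter_upwards [hR1, hR2] with k k1 k2
    refine ⟨?_, ?_⟩
    · exact mem_closedBall.2 ((dist_zero_right (X k)).trans_le k1)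
    · exact mem_closedBall.2 ((dist_zero_right (Y k)).trans_le k2)
  obtain ⟨Z, -, φ, hφ, hZ⟩ := ((isCompact_closedBall (0 : Bil n) R1).prod
    (isCompact_closedBall (0 : Bil n) R2)).tendsto_subseq' hev.frequently
  have tX : Tendsto (fun k => X (φ k)) atTop (𝓝 Z.1) := (continuous_fst.tendsto Z).comp hZ
  have tY : Tendsto (fun k => Y (φ k)) atTop (𝓝 Z.2) := (continuous_snd.tendsto Z).comp hZ
  have hev1 : ∀ (a b : E n), Continuous fun T : Bil n => T a b := fun a b => by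
    fun_prop
  have tXa : ∀ a b, Tendsto (fun k => X (φ k) a b) atTop (𝓝 (Z.1 a b)) := fun a b =>
    ((hev1 a b).tendsto _).comp tX
  have tYa : ∀ a b, Tendsto (fun k => Y (φ k) a b) atTop (𝓝 (Z.2 a b)) := fun a b =>
    ((hev1 a b).tendsto _).comp tY
  have hφt : Tendsto φ atTop atTop := hφ.tendsto_atTop
  refine ⟨Z.1, Z.2, fun a b => ?_, fun a b => ?_, fun a b => ?_, ?_, ?_⟩
  · refine tendsto_nhds_unique (tXa a b) ?_
    refine (tXa b a).congr fun k => ?_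
    exact (g7 (φ k) a b).symm
  · refine tendsto_nhds_unique (tYa a b) ?_
    refine (tYa b a).congr fun k => ?_
    exact (g8 (φ k) a b).symm
  · have t1 : Tendsto (fun k : ℕ => B (a, b) (a, b) + 1 / ((φ k : ℝ) + 1) * (‖a‖ ^ 2 + ‖b‖ ^ 2))
        atTop (𝓝 (B (a, b) (a, b) + 0 * (‖a‖ ^ 2 + ‖b‖ ^ 2))) :=
      tendsto_const_nhds.add
        ((tendsto_one_div_add_atTop_nhds_zero_nat.comp hφt).mul tendsto_const_nhds)
    rw [zero_mul, add_zero] at t1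
    exact le_of_tendsto_of_tendsto' ((tXa a a).add (tYa b b)) t1 fun k => g11 (φ k) a b
  · have t1 : Tendsto (fun k => pA p (Pk (φ k)) (X (φ k))) atTop (𝓝 (pA p P Z.1)) :=
      suml_cont (pA_cont hp) (tP.comp hφt) tX
    have t2 : Tendsto (fun k => α₁ (u (x (φ k)))) atTop (𝓝 (α₁ (u x0))) :=
      ha₁.tendsto.comp (tux.comp hφt)
    have t3 : Tendsto (fun k => β₁ (u (x (φ k))) (Pk (φ k))) atTop (𝓝 (β₁ (u x0) P)) :=
      hb₁.tendsto.comp ((tux.comp hφt).prodMk_nhds (tP.comp hφt))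
    exact ge_of_tendsto ((t2.mul t1).add t3) (hφt.eventually v1)
  · have t1 : Tendsto (fun k => pA p (Qk (φ k)) (Y (φ k))) atTop (𝓝 (pA p Q Z.2)) :=
      suml_cont (pA_cont hp) (tQ.comp hφt) tY
    have t2 : Tendsto (fun k => α₂ (w (y (φ k)))) atTop (𝓝 (α₂ (w y0))) :=
      ha₂.tendsto.comp (twy.comp hφt)
    have t3 : Tendsto (fun k => β₂ (w (y (φ k))) (Qk (φ k))) atTop (𝓝 (β₂ (w y0) Q)) :=
      hb₂.tendsto.comp ((twy.comp hφt).prodMk_nhds (tQ.comp hφt))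
    exact ge_of_tendsto ((t2.mul t1).add t3) (hφt.eventually v2)

theorem sumL0 (hp : 2 < p) {u w : E n → ℝ} {x0 y0 P : E n}
    {B : (E n × E n) →L[ℝ] (E n × E n) →L[ℝ] ℝ}
    (hu : UpperSemicontinuousOn u (closedBall x0 1)) (hw : UpperSemicontinuousOn w (closedBall y0 1))
    (h : ∀ ε > 0, ∃ r > 0, ∀ x y, ‖x - x0‖ < r → ‖y - y0‖ < r →
      u x + w y ≤ u x0 + w y0 + ⟪P, x - x0⟫ +
        1 / 2 * B (x - x0, y - y0) (x - x0, y - y0) + ε * (‖x - x0‖ ^ 2 + ‖y - y0‖ ^ 2))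
    {α₂ : ℝ → ℝ} {β₂ : ℝ → E n → ℝ} {O₂ : Set (E n)} (hO₂ : O₂ ∈ 𝓝 y0)
    (h₂ : VS p α₂ β₂ O₂ w) (ha₂ : ContinuousAt α₂ (w y0)) (hp₂ : 0 < α₂ (w y0))
    (hb₂ : ContinuousAt (fun z : ℝ × E n => β₂ z.1 z.2) (w y0, (0 : E n))) :
    0 ≤ β₂ (w y0) 0 := by
  have h' : ∀ ε > 0, ∃ r > 0, ∀ x y, ‖x - x0‖ < r → ‖y - y0‖ < r →
      u x + w y ≤ u x0 + w y0 + ⟪P, x - x0⟫ + ⟪(0 : E n), y - y0⟫ +
        1 / 2 * B (x - x0, y - y0) (x - x0, y - y0) + ε * (‖x - x0‖ ^ 2 + ‖y - y0‖ ^ 2) := by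
    intro ε hε
    obtain ⟨r, hr, H⟩ := h ε hε
    refine ⟨r, hr, fun x y hx hy => ?_⟩
    rw [inner_zero_left, add_zero]
    exact H x y hx hy
  choose x y Pk Qk X Y g1 g2 g3 g4 g5 g6 g7 g8 g9 g10 g11 using fun k : ℕ =>
    sum2 hu hw h' (suml_delta k)
  have ty : Tendsto y atTop (𝓝 y0) := suml_tend g2
  have twy : Tendsto (fun k => w (y k)) atTop (𝓝 (w y0)) :=
    suml_tend fun k => by rw [Real.norm_eq_abs]; exact g4 k
  have tQ : Tendsto Qk atTop (𝓝 0) := suml_tend g6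
  have v2 : ∀ᶠ k in atTop, 0 ≤ α₂ (w (y k)) * pA p (Qk k) (Y k) + β₂ (w (y k)) (Qk k) := by
    filter_upwards [ty.eventually hO₂] with k hk using h₂ (y k) hk (Qk k) (Y k) (g10 k)
  have hδ1 : ∀ k : ℕ, 1 / ((k : ℝ) + 1) ≤ 1 := fun k => by
    rw [div_le_one (by positivity)]
    linarith [(Nat.cast_nonneg k : (0 : ℝ) ≤ k)]
  have hY : ∀ k v, Y k v v ≤ (‖B‖ + 1) * ‖v‖ ^ 2 := by
    intro k v
    have e1 := g11 k 0 v
    have e2 := suml_B (B := B) (0, v)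
    have e3 : ‖((0, v) : E n × E n)‖ = ‖v‖ := by simp [Prod.norm_def]
    rw [e3] at e2
    have e4 : X k 0 0 = 0 := by simp
    rw [e4, norm_zero] at e1
    have e5 : 1 / ((k : ℝ) + 1) * ‖v‖ ^ 2 ≤ 1 * ‖v‖ ^ 2 := by
      gcongr
      exact hδ1 k
    nlinarith
  have t1 : Tendsto (fun k => ‖Qk k‖ ^ (p - 2)) atTop (𝓝 0) := by
    have h1 : Tendsto (fun k => ‖Qk k‖) atTop (𝓝 0) := by
      have := tQ.norm
      rwa [norm_zero] at this
    have h2 : ContinuousAt (fun t : ℝ => t ^ (p - 2)) 0 :=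
      Real.continuousAt_rpow_const _ _ (Or.inr (by linarith))
    have h3 := h2.tendsto.comp h1
    rw [Real.zero_rpow (by linarith)] at h3
    exact h3
  have t2 : Tendsto (fun k => α₂ (w (y k))) atTop (𝓝 (α₂ (w y0))) := ha₂.tendsto.comp twy
  have t3 : Tendsto (fun k => β₂ (w (y k)) (Qk k)) atTop (𝓝 (β₂ (w y0) 0)) :=
    hb₂.tendsto.comp (twy.prodMk_nhds tQ)
  have t4 : Tendsto (fun k => α₂ (w (y k)) * ((n + p - 2) * ‖Qk k‖ ^ (p - 2) * (‖B‖ + 1)) +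
      β₂ (w (y k)) (Qk k)) atTop (𝓝 (α₂ (w y0) * ((n + p - 2) * 0 * (‖B‖ + 1)) +
        β₂ (w y0) 0)) :=
    (t2.mul ((tendsto_const_nhds.mul t1).mul tendsto_const_nhds)).add t3
  rw [mul_zero, zero_mul, mul_zero, zero_add] at t4
  refine ge_of_tendsto t4 ?_
  filter_upwards [v2, t2.eventually_const_lt hp₂] with k k1 k2
  have h5 := pA_le_of_quad hp (P := Qk k) (hY k)
  have h6 := mul_le_mul_of_nonneg_left h5 k2.le
  linarith

end Pool.Agent.TWC
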