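import Pool.Agent.TWC.GVS
import Pool.Agent.TWC.ENVA
import Pool.Agent.TWC.SUML

/-!
# TWC ENVB: the two point envelope is a subsolution

`u` subsolution, bounded, `u = 0` off the closed set `K`, `hS`: at zeros `z ∈ K` of `u`, `u` is not
`O(|x-z|^m)`. Then `w = env p K u t` is a subsolution.

Proof. `w ≥ 0` usc (`ENVA`). By `sb_of_gvs` let `w x0 > 0`, `UJ (w^q) x0 Γ B`; show
`0 ≤ al(w^q) pA Γ B + blg(w^q, Γ)`. If `Γ = 0` this is `κ w^q/m ≥ 0`. Let `Γ ≠ 0`. Write `g = u^q`,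
`G = w x0^q = t g1 + (1-t) g2`, `g1 = g y0`, `g2 = g z0` (`env_attained`). For all `y, z ∈ K`:
`t g y + (1-t) g z ≤ w^q (t y + (1-t) z)` (`env_ge`), in particular near `(y0,z0)` by the jet of `w^q`:
(1) `t g y + (1-t) g z ≤ G + <Γ,h> + B h h/2 + ε|h|^2`, `h = t(y-y0) + (1-t)(z-z0)`, for `y, z ∈ K` near.
Claim `g1 > 0`: otherwise `g1 = 0`, `u y0 = 0`, `y0 ∈ K`, and (1) with `z = z0` gives
`t g y ≤ C |y-y0|` for `y ∈ K` near `y0` (`G = (1-t) g2`), also for `y ∉ K` (`g y = 0`), i.e.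
`u y ≤ (C/t)^m |y-y0|^m`, contradicting `hS` at `y0` with `A = (C/t)^m + 1`. In the same way `g2 > 0`.
Now (1) holds for all `y, z` near `(y0,z0)`, also outside `K`: if `y ∉ K`, `g y = 0`, and by upper
semicontinuity `t·0 + (1-t) g z ≤ (1-t) g2 + t g1/2 = G - t g1/2 <` right side of (1), for `(y,z)` near; same
for `z`. Apply `sumL` to `u₁ = t g`, `u₂ = (1-t) g`, gradients `tΓ`, `(1-t)Γ` (nonzero), form
`B'((a,a'),(c,c')) = B (t a + (1-t) a') (t c + (1-t) c')` (a continuous bilinear form on the product), with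
the viscosity inequalities of `t g`: `VS` with `α₁ r = al(r/t) t^(-(p-1))`, `β₁ r P = blg(r/t, P/t)` on
`univ` (if `UJ (t g) y P X` then `UJ g y (P/t) (X/t)` and `pA (P/t) (X/t) = t^(-(p-1)) pA P X`; from `gvs`), and
the same for `1-t`. `α₁ (t g1) > 0`. We get `X, Y`: with `B1 = X/t`, `B2 = Y/(1-t)`:
`t B1 a a + (1-t) B2 a' a' ≤ B (t a + (1-t) a') (t a + (1-t) a')`,
`0 ≤ al(g1) pA Γ B1 + blg(g1,Γ)`, `0 ≤ al(g2) pA Γ B2 + blg(g2,Γ)`.
Choose `a = g1 v`, `a' = g2 v`: `t g1² B1 v v + (1-t) g2² B2 v v ≤ G² B v v` for all `v`. By `pA_mono` and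
linearity in the form: `t g1² pA Γ B1 + (1-t) g2² pA Γ B2 ≤ G² pA Γ B`; multiply by `m^(p-2)`:
`t al(g1) pA Γ B1 + (1-t) al(g2) pA Γ B2 ≤ al(G) pA Γ B`. And `blg` is affine in `g`:
`t blg(g1,Γ) + (1-t) blg(g2,Γ) = blg(G,Γ)` (the term `<b,Γ>` too). Add the two inequalities with weights
`t, 1-t`.
-/

open Set Metric Filter Topology
open scoped RealInnerProductSpace

noncomputable section

namespace Pool.Agent.TWC

variable {n : ℕ} {p : ℝ} {b : E n} {κ : ℝ} {K : Set (E n)} {u : E n → ℝ} {t : ℝ}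

private theorem mq (hp : 2 < p) : mm p * qq p = 1 := by
  unfold mm qq
  have h1 : p ≠ 0 := by linarith
  have h2 : p - 2 ≠ 0 := by linarith
  field_simp

private theorem mpos (hp : 2 < p) : 0 < mm p := div_pos (by linarith) (by linarith)

private theorem qpos (hp : 2 < p) : 0 < qq p := div_pos (by linarith) (by linarith)

private theorem pow_mq (hp : 2 < p) {a : ℝ} (ha : 0 ≤ a) : (a ^ mm p) ^ qq p = a := by
  rw [← Real.rpow_mul ha, mq hp, Real.rpow_one]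

private theorem pow_qm (hp : 2 < p) {a : ℝ} (ha : 0 ≤ a) : (a ^ qq p) ^ mm p = a := by
  rw [← Real.rpow_mul ha, mul_comm, mq hp, Real.rpow_one]

private theorem growth (hp : 2 < p) (hu : ∀ x, 0 ≤ u x) (hoff : ∀ x ∉ K, u x = 0)
    (hS : ∀ z ∈ K, u z = 0 → ∀ A > 0, ∀ r > 0, ∃ x, ‖x - z‖ < r ∧ A * ‖x - z‖ ^ mm p < u x)
    {z : E n} (hz : z ∈ K) (huz : u z = 0) {C r : ℝ} (hC : 0 ≤ C) (hr : 0 < r)
    (h : ∀ y ∈ K, ‖y - z‖ < r → u y ^ qq p ≤ C * ‖y - z‖) : False := by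
  obtain ⟨x, hx1, hx2⟩ := hS z hz huz (C ^ mm p + 1) (by positivity) r hr
  have h0 : 0 ≤ ‖x - z‖ ^ mm p := by positivity
  by_cases hxK : x ∈ K
  · have h1 := h x hxK hx1
    have h2 : u x ≤ (C * ‖x - z‖) ^ mm p := by
      calc u x = (u x ^ qq p) ^ mm p := (pow_qm hp (hu x)).symm
        _ ≤ _ := Real.rpow_le_rpow (Real.rpow_nonneg (hu x) _) h1 (mpos hp).le
    rw [Real.mul_rpow hC (norm_nonneg _)] at h2
    nlinarith
  · rw [hoff x hxK] at hx2
    have : 0 ≤ (C ^ mm p + 1) * ‖x - z‖ ^ mm p := by positivity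
    linarith

private theorem vs_smul (hp : 2 < p) {g : E n → ℝ} (h : VS p (al p) (blg p b κ) univ g) {s : ℝ}
    (hs : 0 < s) : VS p (fun r => al p (s⁻¹ * r) * ((s⁻¹) ^ (p - 2) * s⁻¹))
      (fun r P => blg p b κ (s⁻¹ * r) (s⁻¹ • P)) univ (fun y => s * g y) := by
  intro x _ P X hJ
  have hs' : 0 < s⁻¹ := inv_pos.2 hs
  have h1 := uj_smul hs' hJ
  have h2 : (fun y => s⁻¹ * (s * g y)) = g := by
    funext y; field_simp
  rw [h2] at h1
  have h3 := h x (mem_univ _) _ _ h1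
  have h4 : s⁻¹ * (s * g x) = g x := by field_simp
  simp only
  rw [h4]
  rw [pA_form_smul, pA_scale hp hs'] at h3
  calc (0 : ℝ) ≤ _ := h3
    _ = _ := by ring

private theorem al_cont : Continuous (al p) := by
  unfold al
  fun_prop

private theorem al_cont' (s : ℝ) (r : ℝ) :
    ContinuousAt (fun r => al p (s⁻¹ * r) * ((s⁻¹) ^ (p - 2) * s⁻¹)) r := by
  unfold al
  fun_prop

private theorem bl_cont' (hp : 2 < p) (s : ℝ) (r : ℝ) (Q : E n) :
    ContinuousAt (fun z : ℝ × E n =>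
      (fun r P => blg p b κ (s⁻¹ * r) (s⁻¹ • P)) z.1 z.2) (r, Q) := by
  unfold blg
  have c1 : Continuous fun z : ℝ × E n => s⁻¹ * z.1 := continuous_const.mul continuous_fst
  have c2 : Continuous fun z : ℝ × E n => s⁻¹ • z.2 := by fun_prop
  have h1 : Continuous fun z : ℝ × E n => ‖s⁻¹ • z.2‖ ^ p :=
    (continuous_norm.comp c2).rpow_const fun _ => Or.inr (by linarith)
  have h2 : Continuous fun z : ℝ × E n => ⟪b, s⁻¹ • z.2⟫ := continuous_const.inner c2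
  have h3 : Continuous fun z : ℝ × E n => κ * (s⁻¹ * z.1) / mm p :=
    (continuous_const.mul c1).div_const _
  exact ((((continuous_const.mul c1).mul h1).add h2).add h3).continuousAt

private theorem g_usc (hp : 2 < p) (hu : ∀ x, 0 ≤ u x) (husc : UpperSemicontinuous u) {s : ℝ}
    (hs : 0 ≤ s) : UpperSemicontinuous fun y => s * u y ^ qq p := by
  have hmon : Monotone fun r : ℝ => s * (max r 0) ^ qq p := by
    intro a c hac
    refine mul_le_mul_of_nonneg_left ?_ hs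
    exact Real.rpow_le_rpow (le_max_right _ _) (max_le_max_right 0 hac) (qpos hp).le
  have hcont : Continuous fun r : ℝ => s * (max r 0) ^ qq p := by
    have h1 : Continuous fun r : ℝ => (max r 0) ^ qq p :=
      (continuous_id.max continuous_const).rpow_const fun _ => Or.inr (qpos hp).le
    exact continuous_const.mul h1
  have h2 : (fun y => s * u y ^ qq p) = (fun r : ℝ => s * (max r 0) ^ qq p) ∘ u := by
    funext y
    simp only [Function.comp_apply, max_eq_left (hu y)]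
  rw [h2]
  intro x
  exact (hcont.continuousAt).comp_upperSemicontinuousAt (husc x) hmon


/-- the averaging map -/
private def LL (t : ℝ) : (E n × E n) →L[ℝ] E n :=
  t • ContinuousLinearMap.fst ℝ (E n) (E n) + (1 - t) • ContinuousLinearMap.snd ℝ (E n) (E n)

private theorem LL_apply (t : ℝ) (a c : E n) : LL t (a, c) = t • a + (1 - t) • c := by
  simp [LL]

private def BB (t : ℝ) (B : Bil n) : (E n × E n) →L[ℝ] (E n × E n) →L[ℝ] ℝ :=
  B.bilinearComp (LL t) (LL t)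

private theorem BB_apply (t : ℝ) (B : Bil n) (a c : E n) :
    BB t B (a, c) (a, c) = B (t • a + (1 - t) • c) (t • a + (1 - t) • c) := by
  unfold BB
  rw [ContinuousLinearMap.bilinearComp_apply, LL_apply]

private theorem env_sums (hp : 2 < p) {g : E n → ℝ}
    (hg1 : UpperSemicontinuous fun y => t * g y) (hg2 : UpperSemicontinuous fun y => (1 - t) * g y)
    (hV : VS p (al p) (blg p b κ) univ g) (ht : 0 < t) (h1t : 0 < 1 - t)
    {y0 z0 Γ : E n} {B : Bil n} (hy : 0 < g y0) (hz : 0 < g z0) (hΓ : Γ ≠ 0)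
    (htwo : ∀ ε > 0, ∃ r > 0, ∀ y z, ‖y - y0‖ < r → ‖z - z0‖ < r →
      t * g y + (1 - t) * g z ≤ t * g y0 + (1 - t) * g z0 +
        ⟪Γ, t • (y - y0) + (1 - t) • (z - z0)⟫ +
        1 / 2 * B (t • (y - y0) + (1 - t) • (z - z0)) (t • (y - y0) + (1 - t) • (z - z0)) +
        ε * (‖y - y0‖ ^ 2 + ‖z - z0‖ ^ 2)) :
    ∃ X Y : Bil n, (∀ a c, X a a + Y c c ≤ B (t • a + (1 - t) • c) (t • a + (1 - t) • c)) ∧
      0 ≤ al p (g y0) * pA p Γ X + t * blg p b κ (g y0) Γ ∧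
      0 ≤ al p (g z0) * pA p Γ Y + (1 - t) * blg p b κ (g z0) Γ := by
  have halpos : ∀ r : ℝ, 0 < r → 0 < al p r := by
    intro r hr
    unfold al
    have := mpos hp
    positivity
  have e1 : t⁻¹ * (t * g y0) = g y0 := by field_simp
  have e2 : (1 - t)⁻¹ * ((1 - t) * g z0) = g z0 := by field_simp
  have H := sumL (p := p) hp (u := fun y => t * g y)
    (w := fun z => (1 - t) * g z) (x0 := y0) (y0 := z0) (P := t • Γ) (Q := (1 - t) • Γ)
    (B := BB t B)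
    (hg1.upperSemicontinuousOn _) (hg2.upperSemicontinuousOn _)
    (by
      intro ε hε
      obtain ⟨r, hr, h⟩ := htwo ε hε
      refine ⟨r, hr, fun y z hy hz => ?_⟩
      have h1 := h y z hy hz
      rw [BB_apply]
      have e3 : ⟪t • Γ, y - y0⟫ + ⟪(1 - t) • Γ, z - z0⟫ =
          ⟪Γ, t • (y - y0) + (1 - t) • (z - z0)⟫ := by
        rw [real_inner_smul_left, real_inner_smul_left, inner_add_right, real_inner_smul_right,
          real_inner_smul_right]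
      linarith)
    (O₁ := univ) (O₂ := univ) univ_mem univ_mem (vs_smul hp hV ht) (vs_smul hp hV h1t)
    (al_cont' t _) (al_cont' (1 - t) _)
    (by
      simp only [e1]
      have := halpos _ hy
      positivity)
    (by
      simp only [e2]
      have := halpos _ hz
      positivity)
    (bl_cont' hp t _ _) (bl_cont' hp (1 - t) _ _)
    (smul_ne_zero ht.ne' hΓ) (smul_ne_zero h1t.ne' hΓ)
  obtain ⟨X, Y, _, _, hXY, hX, hY⟩ := H
  refine ⟨X, Y, fun a c => ?_, ?_, ?_⟩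
  · have := hXY a c
    rwa [BB_apply] at this
  · simp only [e1] at hX
    rw [pA_scale hp ht, smul_smul, inv_mul_cancel₀ ht.ne', one_smul] at hX
    have h1 := mul_nonneg ht.le hX
    have e3 : (t⁻¹) ^ (p - 2) * t ^ (p - 2) = 1 := by
      rw [← Real.mul_rpow (inv_nonneg.2 ht.le) ht.le, inv_mul_cancel₀ ht.ne', Real.one_rpow]
    calc (0 : ℝ) ≤ _ := h1
      _ = al p (g y0) * pA p Γ X * ((t⁻¹) ^ (p - 2) * t ^ (p - 2)) * (t⁻¹ * t) +
          t * blg p b κ (g y0) Γ := by ring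
      _ = _ := by rw [e3, inv_mul_cancel₀ ht.ne']; ring
  · simp only [e2] at hY
    rw [pA_scale hp h1t, smul_smul, inv_mul_cancel₀ h1t.ne', one_smul] at hY
    have h1 := mul_nonneg h1t.le hY
    have e3 : ((1 - t)⁻¹) ^ (p - 2) * (1 - t) ^ (p - 2) = 1 := by
      rw [← Real.mul_rpow (inv_nonneg.2 h1t.le) h1t.le, inv_mul_cancel₀ h1t.ne', Real.one_rpow]
    calc (0 : ℝ) ≤ _ := h1
      _ = al p (g z0) * pA p Γ Y * (((1 - t)⁻¹) ^ (p - 2) * (1 - t) ^ (p - 2)) *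
          ((1 - t)⁻¹ * (1 - t)) + (1 - t) * blg p b κ (g z0) Γ := by ring
      _ = _ := by rw [e3, inv_mul_cancel₀ h1t.ne']; ring

theorem env_sub (hp : 2 < p) (hκ : 0 ≤ κ) (hK : IsClosed K) (hu : Sub p b κ u)
    (hb : ∃ C, ∀ x, u x ≤ C) (hoff : ∀ x ∉ K, u x = 0) (ht : 0 < t) (ht1 : t < 1)
    (hc : Hcpt K u t)
    (hS : ∀ z ∈ K, u z = 0 → ∀ A > 0, ∀ r > 0, ∃ x, ‖x - z‖ < r ∧ A * ‖x - z‖ ^ mm p < u x) :
    Sub p b κ (env p K u t) := by
  have hu0 := hu.nn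
  have h1t : 0 < 1 - t := by linarith
  have hwnn : ∀ x, 0 ≤ env p K u t x := env_nonneg hp hu0 hb ht ht1
  refine ⟨hwnn, env_usc hp hK hu0 hu.usc hb ht ht1 hc, ?_⟩
  refine sb_of_gvs hp hwnn ?_
  intro x0 hx0 Γ B hJ
  by_cases hΓ : Γ = 0
  · rw [hΓ, pA_zero hp]
    have h1 : (0 : ℝ) ^ p = 0 := Real.zero_rpow (by linarith)
    have h2 : 0 ≤ κ * (env p K u t x0) ^ qq p / mm p := by
      have := mpos hp
      have := Real.rpow_nonneg (hwnn x0) (qq p)
      positivity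
    unfold blg
    rw [norm_zero, h1, inner_zero_right]
    linarith
  obtain ⟨y0, hy0, z0, hz0, hyz, hw⟩ := env_attained hp hK hu0 hu.usc hb ht ht1 hc hx0
  set g : E n → ℝ := fun y => u y ^ qq p with hg
  have hg0 : ∀ y, 0 ≤ g y := fun y => Real.rpow_nonneg (hu0 y) _
  have hgK : ∀ y ∉ K, g y = 0 := by
    intro y hy
    simp only [hg, hoff y hy]
    exact Real.zero_rpow (qpos hp).ne'
  obtain ⟨G, hG⟩ : ∃ G, G = t * g y0 + (1 - t) * g z0 := ⟨_, rfl⟩
  have hcomb : ∀ y z, 0 ≤ t * g y + (1 - t) * g z := fun y z => by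
    have := hg0 y
    have := hg0 z
    positivity
  have hG0 : 0 ≤ G := by rw [hG]; exact hcomb _ _
  have hwG : env p K u t x0 ^ qq p = G := by
    rw [hw, hG]
    exact pow_mq hp (hcomb y0 z0)
  rw [hwG]
  -- the inequality on `K`
  have hone : ∀ ε > 0, ∃ r > 0, ∀ y ∈ K, ∀ z ∈ K, ‖y - y0‖ < r → ‖z - z0‖ < r →
      t * g y + (1 - t) * g z ≤ G + ⟪Γ, t • (y - y0) + (1 - t) • (z - z0)⟫ +
        1 / 2 * B (t • (y - y0) + (1 - t) • (z - z0)) (t • (y - y0) + (1 - t) • (z - z0)) +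
        ε * ‖t • (y - y0) + (1 - t) • (z - z0)‖ ^ 2 := by
    intro ε hε
    obtain ⟨r, hr, h⟩ := hJ ε hε
    refine ⟨r, hr, fun y hy z hz hyr hzr => ?_⟩
    have e1 : t • y + (1 - t) • z - x0 = t • (y - y0) + (1 - t) • (z - z0) := by
      rw [← hyz]; module
    have h1 := h (t • y + (1 - t) • z) (by
      rw [e1]
      calc ‖t • (y - y0) + (1 - t) • (z - z0)‖ ≤ ‖t • (y - y0)‖ + ‖(1 - t) • (z - z0)‖ :=
            norm_add_le _ _
        _ = t * ‖y - y0‖ + (1 - t) * ‖z - z0‖ := by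
            rw [norm_smul, norm_smul, Real.norm_eq_abs, Real.norm_eq_abs, abs_of_pos ht,
              abs_of_pos h1t]
        _ < r := by nlinarith)
    rw [e1] at h1
    beta_reduce at h1
    rw [hwG] at h1
    refine le_trans ?_ h1
    have h2 := env_ge (K := K) hp hu0 hb ht ht1 hy hz
    calc t * g y + (1 - t) * g z = ((t * g y + (1 - t) * g z) ^ mm p) ^ qq p :=
          (pow_mq hp (hcomb y z)).symm
      _ ≤ _ := Real.rpow_le_rpow (Real.rpow_nonneg (hcomb y z) _) h2 (qpos hp).le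
  -- quadratic bounds
  have hquad : ∀ h : E n, ‖h‖ ≤ 1 → |⟪Γ, h⟫ + 1 / 2 * B h h| ≤ (‖Γ‖ + ‖B‖) * ‖h‖ := by
    intro h hh
    have h1 : |⟪Γ, h⟫| ≤ ‖Γ‖ * ‖h‖ := abs_real_inner_le_norm _ _
    have h2 : |B h h| ≤ ‖B‖ * ‖h‖ * ‖h‖ := B.le_opNorm₂ h h
    have h3 : ‖B‖ * ‖h‖ * ‖h‖ ≤ ‖B‖ * ‖h‖ * 1 :=
      mul_le_mul_of_nonneg_left hh (by positivity)
    have h4 : 0 ≤ ‖B‖ * ‖h‖ := by positivity
    calc |⟪Γ, h⟫ + 1 / 2 * B h h| ≤ |⟪Γ, h⟫| + |1 / 2 * B h h| := abs_add_le _ _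
      _ = |⟪Γ, h⟫| + 1 / 2 * |B h h| := by rw [abs_mul]; norm_num
      _ ≤ _ := by nlinarith
  -- positivity of `u y0`, `u z0`
  have hCnn : 0 ≤ ‖Γ‖ + ‖B‖ + 1 := by positivity
  have hgy : 0 < g y0 := by
    rcases (hu0 y0).lt_or_eq with h | h
    · exact Real.rpow_pos_of_pos h _
    exfalso
    have hg1 : g y0 = 0 := by
      simp only [hg, ← h]; exact Real.zero_rpow (qpos hp).ne'
    obtain ⟨r, hr, h1⟩ := hone 1 one_pos
    refine growth hp hu0 hoff hS hy0 h.symm hCnn (lt_min hr one_pos)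
      (fun y hy hyr => ?_)
    have h2 := h1 y hy z0 hz0 (lt_of_lt_of_le hyr (min_le_left _ _)) (by simpa using hr)
    have hy1 : ‖y - y0‖ < 1 := lt_of_lt_of_le hyr (min_le_right _ _)
    rw [sub_self, smul_zero, add_zero] at h2
    have hn : ‖t • (y - y0)‖ = t * ‖y - y0‖ := by
      rw [norm_smul, Real.norm_eq_abs, abs_of_pos ht]
    have hn1 : t * ‖y - y0‖ ≤ 1 := by nlinarith [norm_nonneg (y - y0)]
    have h3 := (le_abs_self _).trans (hquad (t • (y - y0)) (by rw [hn]; exact hn1))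
    rw [hn] at h2 h3
    have h4 : (t * ‖y - y0‖) ^ 2 ≤ t * ‖y - y0‖ := by
      have : 0 ≤ t * ‖y - y0‖ := by positivity
      nlinarith
    have h5 : t * g y ≤ t * ((‖Γ‖ + ‖B‖ + 1) * ‖y - y0‖) := by
      rw [hG, hg1] at h2
      nlinarith
    exact le_of_mul_le_mul_left h5 ht
  have hgz : 0 < g z0 := by
    rcases (hu0 z0).lt_or_eq with h | h
    · exact Real.rpow_pos_of_pos h _
    exfalso
    have hg1 : g z0 = 0 := by
      simp only [hg, ← h]; exact Real.zero_rpow (qpos hp).ne'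
    obtain ⟨r, hr, h1⟩ := hone 1 one_pos
    refine growth hp hu0 hoff hS hz0 h.symm hCnn (lt_min hr one_pos)
      (fun z hz hzr => ?_)
    have h2 := h1 y0 hy0 z hz (by simpa using hr) (lt_of_lt_of_le hzr (min_le_left _ _))
    have hz1 : ‖z - z0‖ < 1 := lt_of_lt_of_le hzr (min_le_right _ _)
    rw [sub_self, smul_zero, zero_add] at h2
    have hn : ‖(1 - t) • (z - z0)‖ = (1 - t) * ‖z - z0‖ := by
      rw [norm_smul, Real.norm_eq_abs, abs_of_pos h1t]
    have hn1 : (1 - t) * ‖z - z0‖ ≤ 1 := by nlinarith [norm_nonneg (z - z0)]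
    have h3 := (le_abs_self _).trans (hquad ((1 - t) • (z - z0)) (by rw [hn]; exact hn1))
    rw [hn] at h2 h3
    have h4 : ((1 - t) * ‖z - z0‖) ^ 2 ≤ (1 - t) * ‖z - z0‖ := by
      have : 0 ≤ (1 - t) * ‖z - z0‖ := by positivity
      nlinarith
    have h5 : (1 - t) * g z ≤ (1 - t) * ((‖Γ‖ + ‖B‖ + 1) * ‖z - z0‖) := by
      rw [hG, hg1] at h2
      nlinarith
    exact le_of_mul_le_mul_left h5 h1t
  -- the inequality near `(y0, z0)`
  have hgusc : UpperSemicontinuous g := by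
    have := g_usc hp hu0 hu.usc (s := 1) zero_le_one
    simpa using this
  have htwo : ∀ ε > 0, ∃ r > 0, ∀ y z, ‖y - y0‖ < r → ‖z - z0‖ < r →
      t * g y + (1 - t) * g z ≤ G + ⟪Γ, t • (y - y0) + (1 - t) • (z - z0)⟫ +
        1 / 2 * B (t • (y - y0) + (1 - t) • (z - z0)) (t • (y - y0) + (1 - t) • (z - z0)) +
        ε * (‖y - y0‖ ^ 2 + ‖z - z0‖ ^ 2) := by
    intro ε hε
    obtain ⟨r, hr, h1⟩ := hone ε hε
    have hty : 0 < t * g y0 := mul_pos ht hgy
    have htz : 0 < (1 - t) * g z0 := mul_pos h1t hgz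
    obtain ⟨r2, hr2, h2⟩ := Metric.eventually_nhds_iff.1 (hgusc z0 (g z0 + t * g y0 / 2)
      (by linarith))
    obtain ⟨r3, hr3, h3⟩ := Metric.eventually_nhds_iff.1 (hgusc y0 (g y0 + (1 - t) * g z0 / 2)
      (by linarith))
    obtain ⟨r4, hr4⟩ : ∃ r4, r4 = min (t * g y0 / 2) ((1 - t) * g z0 / 2) / (‖Γ‖ + ‖B‖ + 1) :=
      ⟨_, rfl⟩
    have hC1 : 0 < ‖Γ‖ + ‖B‖ + 1 := by positivity
    have hr4' : 0 < r4 := by
      rw [hr4]
      exact div_pos (lt_min (by linarith) (by linarith)) hC1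
    refine ⟨min (min r r2) (min (min r3 r4) 1), by
      refine lt_min (lt_min hr hr2) (lt_min (lt_min hr3 hr4') one_pos), fun y z hy hz => ?_⟩
    obtain ⟨h, hh⟩ : ∃ h, h = t • (y - y0) + (1 - t) • (z - z0) := ⟨_, rfl⟩
    rw [← hh]
    have hyl := lt_min_iff.1 hy
    have hzl := lt_min_iff.1 hz
    have hy1 := lt_min_iff.1 hyl.1
    have hy2 := lt_min_iff.1 hyl.2
    have hy3 := lt_min_iff.1 hy2.1
    have hz1 := lt_min_iff.1 hzl.1
    have hz2 := lt_min_iff.1 hzl.2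
    have hz3 := lt_min_iff.1 hz2.1
    have hhn : ‖h‖ ≤ t * ‖y - y0‖ + (1 - t) * ‖z - z0‖ := by
      rw [hh]
      calc ‖t • (y - y0) + (1 - t) • (z - z0)‖ ≤ ‖t • (y - y0)‖ + ‖(1 - t) • (z - z0)‖ :=
            norm_add_le _ _
        _ = t * ‖y - y0‖ + (1 - t) * ‖z - z0‖ := by
            rw [norm_smul, norm_smul, Real.norm_eq_abs, Real.norm_eq_abs, abs_of_pos ht,
              abs_of_pos h1t]
    have hh1 : ‖h‖ ≤ 1 := by nlinarith [hy2.2, hz2.2]
    have hh4 : ‖h‖ ≤ r4 := by nlinarith [hy3.2, hz3.2]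
    have hq := hquad h hh1
    have hq2 : -((‖Γ‖ + ‖B‖ + 1) * r4) ≤ ⟪Γ, h⟫ + 1 / 2 * B h h := by
      have h5 := neg_abs_le (⟪Γ, h⟫ + 1 / 2 * B h h)
      have h6 : (‖Γ‖ + ‖B‖) * ‖h‖ ≤ (‖Γ‖ + ‖B‖ + 1) * r4 := by
        apply mul_le_mul _ hh4 (norm_nonneg _) hC1.le
        linarith
      linarith
    have hr4e : (‖Γ‖ + ‖B‖ + 1) * r4 = min (t * g y0 / 2) ((1 - t) * g z0 / 2) := by
      rw [hr4]; field_simp
    rw [hr4e] at hq2
    have hεs : 0 ≤ ε * (‖y - y0‖ ^ 2 + ‖z - z0‖ ^ 2) := by positivity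
    by_cases hyK : y ∈ K
    · by_cases hzK : z ∈ K
      · have h5 := h1 y hyK z hzK hy1.1 hz1.1
        rw [← hh] at h5
        have h6 : ‖h‖ ^ 2 ≤ ‖y - y0‖ ^ 2 + ‖z - z0‖ ^ 2 := by
          have h7 : ‖h‖ ^ 2 ≤ (t * ‖y - y0‖ + (1 - t) * ‖z - z0‖) ^ 2 :=
            pow_le_pow_left₀ (norm_nonneg _) hhn 2
          have h8 : (t * ‖y - y0‖ + (1 - t) * ‖z - z0‖) ^ 2 ≤
              t * ‖y - y0‖ ^ 2 + (1 - t) * ‖z - z0‖ ^ 2 := by
            have : 0 ≤ t * (1 - t) * (‖y - y0‖ - ‖z - z0‖) ^ 2 := by positivity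
            nlinarith
          nlinarith [sq_nonneg ‖y - y0‖, sq_nonneg ‖z - z0‖]
        have h7 : ε * ‖h‖ ^ 2 ≤ ε * (‖y - y0‖ ^ 2 + ‖z - z0‖ ^ 2) :=
          mul_le_mul_of_nonneg_left h6 hε.le
        linarith
      · have h5 : g y < g y0 + (1 - t) * g z0 / 2 := h3 (by rw [dist_eq_norm]; exact hy3.1)
        rw [hgK z hzK]
        have h6 := min_le_right (t * g y0 / 2) ((1 - t) * g z0 / 2)
        have h7 : t * g y ≤ t * g y0 + (1 - t) * g z0 / 2 := by nlinarith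
        rw [hG]
        linarith
    · have h5 : g z < g z0 + t * g y0 / 2 := h2 (by rw [dist_eq_norm]; exact hz1.2)
      rw [hgK y hyK]
      have h6 := min_le_left (t * g y0 / 2) ((1 - t) * g z0 / 2)
      have h7 : (1 - t) * g z ≤ (1 - t) * g z0 + t * g y0 / 2 := by nlinarith
      rw [hG]
      linarith
  -- the theorem on sums
  obtain ⟨X, Y, hXY, hX2, hY2⟩ := env_sums (b := b) (κ := κ) hp (g := g)
    (g_usc hp hu0 hu.usc ht.le) (g_usc hp hu0 hu.usc h1t.le) (gvs hp hu) ht h1t hgy hgz hΓ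
    (by rw [← hG]; exact htwo)
  have hform : pA p Γ ((g y0 ^ 2) • X + (g z0 ^ 2) • Y) ≤ pA p Γ ((G ^ 2) • B) := by
    refine pA_mono hp fun v => ?_
    have h1 := hXY (g y0 • v) (g z0 • v)
    have e3 : t • g y0 • v + (1 - t) • g z0 • v = G • v := by
      rw [hG]; module
    rw [e3] at h1
    simp only [map_smul, ContinuousLinearMap.smul_apply, smul_eq_mul,
      ContinuousLinearMap.add_apply] at h1 ⊢
    nlinarith
  rw [pA_form_add, pA_form_smul, pA_form_smul, pA_form_smul] at hform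
  have hbl : t * blg p b κ (g y0) Γ + (1 - t) * blg p b κ (g z0) Γ = blg p b κ G Γ := by
    rw [hG]
    unfold blg
    ring
  have hmp : 0 < mm p ^ (p - 2) := Real.rpow_pos_of_pos (mpos hp) _
  have hfin : al p (g y0) * pA p Γ X + al p (g z0) * pA p Γ Y ≤ al p G * pA p Γ B := by
    unfold al
    have := mul_le_mul_of_nonneg_left hform hmp.le
    linarith
  linarith

end Pool.Agent.TWC
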