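import Pool.Agent.TWC.JTA
import Pool.Agent.TWC.JTB
import Pool.Agent.TWC.PAL

/-!
# TWC KE: gradients of q-concave subsolutions

`QS p b κ S u`: `S` open convex, `u > 0` on `S`, `g = u^q` concave on `S` (`q = qq p ∈ (0,1)`,
`m = mm p = 1/q`), `Sb` on `S`. `Gd p S u x P`: `Γ = q u^(q-1) P` is a supergradient of `g` at `x` on `S`.

* `gd_exists`: existence of a supergradient of a concave function at a point of an open convex set
  (Hahn-Banach: separate `(x, g x)` from the open convex set `{(y,t) : y ∈ S, t < g y}` of `E n × ℝ`,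
  `geometric_hahn_banach_point_open`; the coefficient of `t` is nonzero because `x` is interior; the set
  is open since `g` is continuous on the open set `S`, `ConcaveOn.continuousOn` type results for finite
  dimensional spaces; or: use `-g` convex). `P = Γ/(q u^(q-1))`.
* `uj_gd`: if `UJ u x P X`, then (chain rule `F t = t^q`, increasing; `u` only on `S`, near `x`) `g` has
  the upper expansion with gradient `Γ = q u^(q-1) P`. For `y ∈ S`, `t ∈ (0,1)` small, by concavity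
  `g y - g x ≤ (g (x + t (y-x)) - g x)/t ≤ <Γ,y-x> + C t`; `t → 0`.
* `gd_uj`: `u = g^m ≤ (g x + <Γ,y-x>)^m` near `x` (the base is positive near `x`); expansion of
  `t ↦ t^m` at `g x`: gradient `m g^(m-1) Γ = P`, form `m(m-1) g^(m-2) rk Γ = ((1-q)/u x) rk P`.
* `gd_unique` (kink exclusion): suppose `P1 ≠ P2` both satisfy `Gd`; `Γ1 ≠ Γ2`, `ζ = Γ1 - Γ2`. Choose
  `θ ∈ {1/3, 1/2}` with `Γ = θ Γ1 + (1-θ) Γ2 ≠ 0`. Since
  `min a b ≤ θ a + (1-θ) b - (1/3)|a-b|`: `g y ≤ g x + <Γ,y-x> - (1/3)|<ζ,y-x>|` and for every `N > 0`,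
  `|s| ≥ N s^2` for `|s| ≤ 1/N`: `UJ g x Γ (-(2N/3) rk ζ)` (locally on `S`). By the chain rule
  (`F t = t^m`), `UJ u x P (-(2N/3) F1 rk ζ + F2 rk Γ)` with `P = F1 Γ ≠ 0`, `F1 = m g^(m-1) > 0`,
  `F2 = m(m-1)g^(m-2)`. `Sb`: `0 ≤ -(2N/3) F1 pA p P (rk ζ) + C`, with `C` independent of `N`, and
  `pA p P (rk ζ) ≥ |P|^(p-2)|ζ|^2 > 0`: contradiction for `N → ∞`.
* `gd_cont`: if `x_k → x`, `Gd p S u x_k P_k`, `P_k` bounded (supergradients of a concave function are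
  locally bounded: test `y = x_k ± ρ Γ_k/|Γ_k|`, `g ≥ 0`, `g` locally bounded), limit points of `P_k`
  satisfy `Gd` at `x` (continuity of `g`), hence equal `P`.
* `qs_cont`: `u = g^m` continuous on `S`.
* `qs_semi`: local semiconcavity. Let `Λ > (1-q)|P|^2/u x`. There is `ρ > 0` with `closedBall x ρ ⊆ S` and
  `u - Λ/2|.|^2` concave on it: for `x'` close to `x`, `P'` with `Gd` at `x'` (close to `P` by `gd_cont`), and
  `y` close to `x`: `u y ≤ (g x' + <Γ',y-x'>)^m ≤ u x' + <P',y-x'> + Λ/2 |y-x'|^2` (Taylor, second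
  derivative `m(m-1) t^(m-2) |Γ'|^2 ≤ Λ` for `t` near `g x`), so `u - Λ/2|.|^2` has a supergradient at every
  point `x'` of the ball, hence is concave there.
-/

open Set Metric Filter Topology
open scoped RealInnerProductSpace

noncomputable section

namespace Pool.Agent.TWC

variable {n : ℕ} {p : ℝ} {b : E n} {κ : ℝ} {S : Set (E n)} {u : E n → ℝ} {x P P' : E n} {X : Bil n}

private theorem KE_pos (hp : 2 < p) : 0 < qq p ∧ qq p < 1 ∧ 0 < mm p ∧ 1 < mm p ∧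
    qq p * mm p = 1 := by
  have h1 : 0 < p - 2 := by linarith
  have h2 : 0 < p := by linarith
  unfold qq mm
  refine ⟨div_pos h1 h2, ?_, div_pos h2 h1, ?_, ?_⟩
  · rw [div_lt_one h2]
    linarith
  · rw [one_lt_div h1]
    linarith
  · field_simp

private theorem KE_c1 {q m a : ℝ} (ha : 0 < a) (hqm : q * m = 1) :
    m * (a ^ q) ^ (m - 1) * (q * a ^ (q - 1)) = 1 := by
  rw [← Real.rpow_mul ha.le]
  have h1 : m * a ^ (q * (m - 1)) * (q * a ^ (q - 1)) =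
      (q * m) * (a ^ (q * (m - 1)) * a ^ (q - 1)) := by ring
  have h2 : q * (m - 1) + (q - 1) = 0 := by linear_combination hqm
  rw [h1, ← Real.rpow_add ha, hqm, one_mul, h2, Real.rpow_zero]

private theorem KE_c2 {q m a : ℝ} (ha : 0 < a) (hqm : q * m = 1) :
    m * ((m - 1) * (a ^ q) ^ (m - 1 - 1)) * (q * a ^ (q - 1)) ^ 2 = (1 - q) / a := by
  rw [← Real.rpow_mul ha.le]
  have h1 : m * ((m - 1) * a ^ (q * (m - 1 - 1))) * (q * a ^ (q - 1)) ^ 2 =
      (q * m) * ((m - 1) * q) * (a ^ (q * (m - 1 - 1)) * a ^ (q - 1) * a ^ (q - 1)) := by ring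
  have h2 : q * (m - 1 - 1) + (q - 1) + (q - 1) = -1 := by linear_combination hqm
  have h3 : (m - 1) * q = 1 - q := by linear_combination hqm
  rw [h1, ← Real.rpow_add ha, ← Real.rpow_add ha, hqm, one_mul, h2, h3, Real.rpow_neg_one]
  rfl

private theorem KE_back (hp : 2 < p) {a : ℝ} (ha : 0 ≤ a) : (a ^ qq p) ^ mm p = a := by
  rw [← Real.rpow_mul ha, (KE_pos hp).2.2.2.2, Real.rpow_one]

theorem qs_cont (hp : 2 < p) (h : QS p b κ S u) : ContinuousOn u S := by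
  obtain ⟨hq0, hq1, hm0, hm1, hqm⟩ := KE_pos hp
  have h1 : ContinuousOn (fun x => u x ^ qq p) S := h.conc.continuousOn h.isOpen
  have h2 : ContinuousOn (fun x => (u x ^ qq p) ^ mm p) S :=
    h1.rpow_const fun x _ => Or.inr hm0.le
  refine h2.congr fun x hx => ?_
  exact (KE_back hp (h.pos x hx).le).symm

private theorem KE_sg {g : E n → ℝ} {S : Set (E n)} {x : E n} (hS : IsOpen S)
    (hg : ConcaveOn ℝ S g) (hx : x ∈ S) : ∃ Γ : E n, ∀ y ∈ S, g y ≤ g x + ⟪Γ, y - x⟫ := by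
  have hc := hg.continuousOn hS
  have hT1 : Convex ℝ {p : E n × ℝ | p.1 ∈ S ∧ p.2 < g p.1} := hg.convex_strict_hypograph
  have hT2 : IsOpen {p : E n × ℝ | p.1 ∈ S ∧ p.2 < g p.1} := by
    have hS' : IsOpen {p : E n × ℝ | p.1 ∈ S} := hS.preimage continuous_fst
    have hf : ContinuousOn (fun p : E n × ℝ => g p.1 - p.2) {p : E n × ℝ | p.1 ∈ S} :=
      (hc.comp continuous_fst.continuousOn fun p hp => hp).sub continuous_snd.continuousOn
    have h1 := hf.isOpen_inter_preimage hS' (isOpen_Ioi (a := (0 : ℝ)))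
    convert h1 using 1
    ext p
    simp [sub_pos]
  have hT3 : ((x, g x) : E n × ℝ) ∉ {p : E n × ℝ | p.1 ∈ S ∧ p.2 < g p.1} :=
    fun h => lt_irrefl _ h.2
  obtain ⟨f, hf⟩ := geometric_hahn_banach_open_point hT1 hT2 hT3
  have hfe : ∀ (y : E n) (t : ℝ), f (y, t) = f (y, 0) + t * f (0, 1) := by
    intro y t
    have h1 : ((y, t) : E n × ℝ) = (y, 0) + t • (0, 1) := by simp
    rw [h1, map_add, map_smul, smul_eq_mul]
  have hβ : 0 < f (0, 1) := by
    have h1 := hf (x, g x - 1) ⟨hx, by simp⟩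
    rw [hfe x (g x - 1), hfe x (g x)] at h1
    nlinarith
  set φ : E n →L[ℝ] ℝ := f.comp (ContinuousLinearMap.inl ℝ (E n) ℝ) with hφ
  have hφa : ∀ y, φ y = f (y, 0) := fun y => rfl
  refine ⟨(-(f (0, 1))⁻¹) • (InnerProductSpace.toDual ℝ (E n)).symm φ, fun y hy => ?_⟩
  rw [real_inner_smul_left, InnerProductSpace.toDual_symm_apply, map_sub]
  have h1 : φ y + g y * f (0, 1) ≤ φ x + g x * f (0, 1) := by
    refine le_of_forall_pos_le_add fun ε hε => ?_
    have h2 := hf (y, g y - ε / f (0, 1)) ⟨hy, by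
      have : 0 < ε / f (0, 1) := by positivity
      simp only
      linarith⟩
    rw [hfe y, hfe x (g x), sub_mul, div_mul_cancel₀ _ hβ.ne'] at h2
    rw [hφa, hφa]
    linarith
  have h2 : (g y - g x) * f (0, 1) ≤ φ x - φ y := by linarith
  have h3 : g y - g x ≤ (φ x - φ y) / f (0, 1) := by rwa [le_div_iff₀ hβ]
  have h4 : -(f (0, 1))⁻¹ * (φ y - φ x) = (φ x - φ y) / f (0, 1) := by
    field_simp
    ring
  rw [h4]
  linarith

private theorem KE_c0 (hp : 2 < p) {a : ℝ} (ha : 0 < a) : 0 < qq p * a ^ (qq p - 1) :=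
  mul_pos (KE_pos hp).1 (Real.rpow_pos_of_pos ha _)

theorem gd_exists (hp : 2 < p) (h : QS p b κ S u) (hx : x ∈ S) : ∃ P, Gd p S u x P := by
  obtain ⟨Γ, hΓ⟩ := KE_sg h.isOpen h.conc hx
  have hc := KE_c0 hp (h.pos x hx)
  refine ⟨(qq p * u x ^ (qq p - 1))⁻¹ • Γ, fun y hy => ?_⟩
  rw [real_inner_smul_left, ← mul_assoc, mul_inv_cancel₀ hc.ne', one_mul]
  exact hΓ y hy

theorem uj_gd (hp : 2 < p) (h : QS p b κ S u) (hx : x ∈ S) (hj : UJ u x P X) : Gd p S u x P := by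
  obtain ⟨hq0, hq1, hm0, hm1, hqm⟩ := KE_pos hp
  set v : E n → ℝ := fun y => max (u y) 0 with hv
  have hvS : ∀ y ∈ S, v y = u y := fun y hy => max_eq_left (h.pos y hy).le
  obtain ⟨ρ, hρ, hball⟩ := Metric.isOpen_iff.1 h.isOpen x hx
  have hjv : UJ v x P X := uj_local hj
    ⟨ρ, hρ, fun y hy => (hvS y (hball (by rwa [mem_ball, dist_eq_norm]))).le⟩ (hvS x hx)
  have hvx : 0 < v x := by
    rw [hvS x hx]
    exact h.pos x hx
  have h1 := uj_pow hq0 (fun y => le_max_right _ _) hvx hjv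
  set X' : Bil n := (qq p * v x ^ (qq p - 1)) • X +
    (qq p * (qq p - 1) * v x ^ (qq p - 2)) • rk P with hX'
  obtain ⟨r, hr, h2⟩ := h1 1 one_pos
  intro y hy
  by_contra hcon
  push Not at hcon
  set d : ℝ := u y ^ qq p - (u x ^ qq p + qq p * u x ^ (qq p - 1) * ⟪P, y - x⟫) with hd
  have hd0 : 0 < d := by rw [hd]; linarith
  set K : ℝ := |1 / 2 * X' (y - x) (y - x) + ‖y - x‖ ^ 2| + 1 with hK
  have hK0 : 0 < K := by positivity
  have hN : 0 ≤ ‖y - x‖ := norm_nonneg _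
  set t : ℝ := min 1 (min (r / (2 * (‖y - x‖ + 1))) (d / (2 * K))) with ht
  have ht0 : 0 < t := by
    rw [ht]
    refine lt_min one_pos (lt_min (by positivity) (by positivity))
  have ht1 : t ≤ 1 := min_le_left _ _
  have ht2 : t * ‖y - x‖ < r := by
    have h3 : t ≤ r / (2 * (‖y - x‖ + 1)) := (min_le_right _ _).trans (min_le_left _ _)
    rw [le_div_iff₀ (by positivity)] at h3
    nlinarith
  have ht3 : t * K ≤ d / 2 := by
    have h3 : t ≤ d / (2 * K) := (min_le_right _ _).trans (min_le_right _ _)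
    rw [le_div_iff₀ (by positivity)] at h3
    linarith
  have hz : x + t • (y - x) ∈ S := h.convex.add_smul_sub_mem hx hy ⟨ht0.le, ht1⟩
  have h4 : v (x + t • (y - x)) ^ qq p ≤ v x ^ qq p +
      ⟪(qq p * v x ^ (qq p - 1)) • P, x + t • (y - x) - x⟫ +
      1 / 2 * X' (x + t • (y - x) - x) (x + t • (y - x) - x) +
      1 * ‖x + t • (y - x) - x‖ ^ 2 := h2 (x + t • (y - x)) (by
    rw [add_sub_cancel_left, norm_smul, Real.norm_eq_abs, abs_of_pos ht0]
    exact ht2)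
  rw [add_sub_cancel_left, hvS _ hz, hvS x hx] at h4
  have h5 := h.conc.2 hx hy (sub_nonneg.2 ht1) ht0.le (by ring)
  have h6 : (1 - t) • x + t • y = x + t • (y - x) := by
    rw [sub_smul, one_smul, smul_sub]
    abel
  rw [h6] at h5
  simp only [smul_eq_mul] at h5
  have h7 : X' (t • (y - x)) (t • (y - x)) = t ^ 2 * X' (y - x) (y - x) := by
    simp only [map_smul, _root_.smul_apply, smul_eq_mul]
    ring
  rw [h7, norm_smul, Real.norm_eq_abs, abs_of_pos ht0, real_inner_smul_left,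
    real_inner_smul_right] at h4
  have h8 : 1 / 2 * X' (y - x) (y - x) + ‖y - x‖ ^ 2 ≤ K := by
    rw [hK]
    linarith [le_abs_self (1 / 2 * X' (y - x) (y - x) + ‖y - x‖ ^ 2)]
  have h9 : t * d ≤ t * (t * K) := by
    rw [hd]
    nlinarith [mul_le_mul_of_nonneg_left h8 (sq_nonneg t)]
  have h10 : d ≤ t * K := le_of_mul_le_mul_left h9 ht0
  linarith

private theorem KE_up (hp : 2 < p) (h : QS p b κ S u) (hx : x ∈ S) {Γ : E n} {X : Bil n}
    (hup : ∃ r > 0, ∀ y, ‖y - x‖ < r → y ∈ S →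
      u y ^ qq p ≤ u x ^ qq p + ⟪Γ, y - x⟫ + 1 / 2 * X (y - x) (y - x)) :
    UJ u x ((mm p * (u x ^ qq p) ^ (mm p - 1)) • Γ)
      ((mm p * (u x ^ qq p) ^ (mm p - 1)) • X +
        (mm p * ((mm p - 1) * (u x ^ qq p) ^ (mm p - 1 - 1))) • rk Γ) := by
  obtain ⟨hq0, hq1, hm0, hm1, hqm⟩ := KE_pos hp
  set w : E n → ℝ := fun y => u x ^ qq p + ⟪Γ, y - x⟫ + 1 / 2 * X (y - x) (y - x) with hw
  have hwx : w x = u x ^ qq p := by simp [hw]
  have hw0 : 0 < w x := by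
    rw [hwx]
    exact Real.rpow_pos_of_pos (h.pos x hx) _
  have hT : T2 w x Γ X := t2_quad_self _ _ _
  have hF : ContDiffAt ℝ 2 (fun t : ℝ => t ^ mm p) (w x) :=
    Real.contDiffAt_rpow_const_of_ne hw0.ne'
  have h1 := (t2_comp hF hT).1
  have hd : deriv (fun t : ℝ => t ^ mm p) = fun t => mm p * t ^ (mm p - 1) := by
    funext t
    exact Real.deriv_rpow_const _ _
  have hdd : deriv (fun t : ℝ => mm p * t ^ (mm p - 1)) (w x) =
      mm p * ((mm p - 1) * w x ^ (mm p - 1 - 1)) := by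
    rw [deriv_const_mul_field, Real.deriv_rpow_const]
  rw [hd, hdd] at h1
  simp only at h1
  rw [hwx] at h1
  obtain ⟨r, hr, h2⟩ := hup
  obtain ⟨ρ, hρ, hball⟩ := Metric.isOpen_iff.1 h.isOpen x hx
  refine uj_local h1 ⟨min r ρ, lt_min hr hρ, fun y hy => ?_⟩ ?_
  · have hyS : y ∈ S := hball (by
      rw [mem_ball, dist_eq_norm]
      exact hy.trans_le (min_le_right _ _))
    have h3 := h2 y (hy.trans_le (min_le_left _ _)) hyS
    calc u y = (u y ^ qq p) ^ mm p := (KE_back hp (h.pos y hyS).le).symm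
      _ ≤ (w y) ^ mm p :=
        Real.rpow_le_rpow (Real.rpow_nonneg (h.pos y hyS).le _) h3 hm0.le
  · rw [hwx]
    exact (KE_back hp (h.pos x hx).le).symm

theorem gd_uj (hp : 2 < p) (h : QS p b κ S u) (hx : x ∈ S) (hP : Gd p S u x P) :
    UJ u x P (((1 - qq p) / u x) • rk P) := by
  obtain ⟨hq0, hq1, hm0, hm1, hqm⟩ := KE_pos hp
  have h1 := KE_up hp h hx (Γ := (qq p * u x ^ (qq p - 1)) • P) (X := 0)
    ⟨1, one_pos, fun y _ hy => by
      rw [real_inner_smul_left]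
      simpa using hP y hy⟩
  rw [smul_smul, KE_c1 (h.pos x hx) hqm, one_smul] at h1
  refine uj_mono h1 fun v => le_of_eq ?_
  rw [jta_forms, _root_.smul_apply, _root_.smul_apply, rk_apply, rk_apply, real_inner_smul_left,
    smul_eq_mul, ← KE_c2 (h.pos x hx) hqm]
  have h2 : (0 : Bil n) v v = 0 := rfl
  rw [h2]
  ring

theorem gd_unique (hp : 2 < p) (h : QS p b κ S u) (hx : x ∈ S) (hP : Gd p S u x P)
    (hP' : Gd p S u x P') : P = P' := by
  obtain ⟨hq0, hq1, hm0, hm1, hqm⟩ := KE_pos hp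
  by_contra hne
  have hc := KE_c0 hp (h.pos x hx)
  set c : ℝ := qq p * u x ^ (qq p - 1) with hcdef
  set ζ : E n := c • P - c • P' with hζ
  have hζ0 : ζ ≠ 0 := by
    intro h0
    have h1 : c • (P - P') = 0 := by rw [smul_sub]; exact h0
    rcases smul_eq_zero.1 h1 with h2 | h2
    · exact hc.ne' h2
    · exact hne (sub_eq_zero.1 h2)
  obtain ⟨θ, hθ1, hθ2, hθ0⟩ : ∃ θ : ℝ, 1 / 3 ≤ θ ∧ θ ≤ 1 / 2 ∧
      θ • (c • P) + (1 - θ) • (c • P') ≠ 0 := by
    by_contra hcon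
    push Not at hcon
    have h1 := hcon (1 / 3) le_rfl (by norm_num)
    have h2 := hcon (1 / 2) (by norm_num) le_rfl
    apply hζ0
    have h3 : ζ = (6 : ℝ) • (((1 / 2 : ℝ) • (c • P) + (1 - 1 / 2 : ℝ) • (c • P')) -
        ((1 / 3 : ℝ) • (c • P) + (1 - 1 / 3 : ℝ) • (c • P'))) := by
      rw [hζ]
      module
    rw [h3, h1, h2, sub_zero, smul_zero]
  set Γ : E n := θ • (c • P) + (1 - θ) • (c • P') with hΓ
  have hmin : ∀ y ∈ S, u y ^ qq p ≤ u x ^ qq p + ⟪Γ, y - x⟫ - 1 / 3 * |⟪ζ, y - x⟫| := by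
    intro y hy
    have h1 := hP y hy
    have h2 := hP' y hy
    have e1 : ⟪Γ, y - x⟫ = θ * (c * ⟪P, y - x⟫) + (1 - θ) * (c * ⟪P', y - x⟫) := by
      rw [hΓ, inner_add_left, real_inner_smul_left, real_inner_smul_left, real_inner_smul_left,
        real_inner_smul_left]
    have e2 : ⟪ζ, y - x⟫ = c * ⟪P, y - x⟫ - c * ⟪P', y - x⟫ := by
      rw [hζ, inner_sub_left, real_inner_smul_left, real_inner_smul_left]
    rw [e1, e2]
    rw [← hcdef] at h1 h2
    rcases abs_cases (c * ⟪P, y - x⟫ - c * ⟪P', y - x⟫) with ⟨h3, h4⟩ | ⟨h3, h4⟩ <;> rw [h3] <;>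
      nlinarith
  set F1 : ℝ := mm p * (u x ^ qq p) ^ (mm p - 1) with hF1
  set F2 : ℝ := mm p * ((mm p - 1) * (u x ^ qq p) ^ (mm p - 1 - 1)) with hF2
  have hF10 : 0 < F1 := by
    rw [hF1]
    exact mul_pos hm0 (Real.rpow_pos_of_pos (Real.rpow_pos_of_pos (h.pos x hx) _) _)
  set PP : E n := F1 • Γ with hPP
  have hPP0 : PP ≠ 0 := smul_ne_zero hF10.ne' hθ0
  have hKp : 0 < pA p PP (rk ζ) := by
    refine lt_of_lt_of_le ?_ (pA_rk_ge hp PP ζ)
    have h1 : 0 < ‖PP‖ := norm_pos_iff.2 hPP0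
    have h2 : 0 < ‖ζ‖ := norm_pos_iff.2 hζ0
    positivity
  set K : ℝ := pA p PP (rk ζ) with hK
  set D : ℝ := F2 * pA p PP (rk Γ) + ⟪b, PP⟫ + κ * u x with hD
  set N : ℝ := 3 * (|D| + 1) / (2 * F1 * K) with hN
  have hN0 : 0 < N := by positivity
  have hj : UJ u x PP (F1 • ((-(2 * N / 3)) • rk ζ) + F2 • rk Γ) := by
    refine KE_up hp h hx ⟨1 / (N * (‖ζ‖ + 1)), by positivity, fun y hy hyS => ?_⟩
    have h1 := hmin y hyS
    have h2 : |⟪ζ, y - x⟫| ≤ 1 / N := by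
      refine (abs_real_inner_le_norm _ _).trans ?_
      have h3 : ‖y - x‖ * (N * (‖ζ‖ + 1)) < 1 := by
        rwa [lt_div_iff₀ (by positivity)] at hy
      rw [le_div_iff₀ hN0]
      nlinarith [norm_nonneg ζ, norm_nonneg (y - x),
        mul_nonneg (norm_nonneg (y - x)) hN0.le]
    have h3 : N * ⟪ζ, y - x⟫ ^ 2 ≤ |⟪ζ, y - x⟫| := by
      rw [← sq_abs]
      rw [le_div_iff₀ hN0] at h2
      nlinarith [abs_nonneg ⟪ζ, y - x⟫]
    have h4 : ((-(2 * N / 3)) • rk ζ : Bil n) (y - x) (y - x) =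
        -(2 * N / 3) * ⟪ζ, y - x⟫ ^ 2 := by
      rw [_root_.smul_apply, _root_.smul_apply, rk_apply, smul_eq_mul]
      ring
    rw [h4]
    linarith
  have hsb := h.sb x hx PP _ hj
  rw [pA_form_add, pA_form_smul, pA_form_smul, pA_form_smul] at hsb
  have h5 : F1 * (-(2 * N / 3) * K) = -(|D| + 1) := by
    rw [hN]
    field_simp
  have h6 : D < |D| + 1 := by linarith [le_abs_self D]
  rw [← hK, h5] at hsb
  linarith

private theorem KE_bd (hp : 2 < p) (h : QS p b κ S u) {x' : E n} {r : ℝ} (hr : 0 < r)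
    (hball : closedBall x' r ⊆ S) (hG : Gd p S u x' P') : ‖P'‖ ≤ u x' / (qq p * r) := by
  obtain ⟨hq0, hq1, hm0, hm1, hqm⟩ := KE_pos hp
  have hx' : x' ∈ S := hball (mem_closedBall_self hr.le)
  have hu := h.pos x' hx'
  by_cases h0 : P' = 0
  · rw [h0, norm_zero]
    positivity
  have hn : 0 < ‖P'‖ := norm_pos_iff.2 h0
  have hy : x' - (r / ‖P'‖) • P' ∈ S := hball (by
    rw [mem_closedBall, dist_eq_norm, sub_sub_cancel_left, norm_neg, norm_smul, Real.norm_eq_abs,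
      abs_of_pos (by positivity), div_mul_cancel₀ _ hn.ne'])
  have h1 := hG _ hy
  rw [sub_sub_cancel_left, inner_neg_right, real_inner_smul_right, real_inner_self_eq_norm_sq] at h1
  have h2 : 0 < u (x' - (r / ‖P'‖) • P') ^ qq p := Real.rpow_pos_of_pos (h.pos _ hy) _
  have h3 : u x' ^ qq p = u x' ^ (qq p - 1) * u x' := by
    rw [Real.rpow_sub_one hu.ne', div_mul_cancel₀ _ hu.ne']
  have h4 : r / ‖P'‖ * ‖P'‖ ^ 2 = r * ‖P'‖ := by field_simp
  rw [h3, h4] at h1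
  have h5 : 0 < u x' ^ (qq p - 1) := Real.rpow_pos_of_pos hu _
  have h6 : u x' ^ (qq p - 1) * (qq p * r * ‖P'‖) ≤ u x' ^ (qq p - 1) * u x' := by nlinarith
  have h7 := le_of_mul_le_mul_left h6 h5
  rw [le_div_iff₀ (by positivity)]
  linarith

theorem gd_cont (hp : 2 < p) (h : QS p b κ S u) (hx : x ∈ S) (hP : Gd p S u x P) {ε : ℝ}
    (hε : 0 < ε) :
    ∃ δ > 0, ∀ x' P', ‖x' - x‖ < δ → Gd p S u x' P' → ‖P' - P‖ ≤ ε := by
  obtain ⟨hq0, hq1, hm0, hm1, hqm⟩ := KE_pos hp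
  by_contra hcon
  push Not at hcon
  have h1 : ∀ k : ℕ, ∃ x' P', ‖x' - x‖ < 1 / ((k : ℝ) + 1) ∧ Gd p S u x' P' ∧ ε < ‖P' - P‖ :=
    fun k => hcon _ (by positivity)
  choose xs Ps hxs hGs hPs using h1
  have hlim : Tendsto xs atTop (𝓝 x) := by
    rw [tendsto_iff_norm_sub_tendsto_zero]
    exact squeeze_zero (fun k => norm_nonneg _) (fun k => (hxs k).le)
      tendsto_one_div_add_atTop_nhds_zero_nat
  obtain ⟨ρ, hρ, hball⟩ := Metric.isOpen_iff.1 h.isOpen x hx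
  have hcont : ContinuousAt u x := (qs_cont hp h).continuousAt (h.isOpen.mem_nhds hx)
  have hux := h.pos x hx
  have hb : ∀ᶠ k in atTop, Ps k ∈ closedBall (0 : E n) ((u x + 1) / (qq p * (ρ / 2))) := by
    have e1 : ∀ᶠ k in atTop, xs k ∈ ball x (ρ / 2) := hlim.eventually (ball_mem_nhds x (half_pos hρ))
    have e2 : ∀ᶠ k in atTop, u (xs k) < u x + 1 :=
      (hcont.tendsto.comp hlim).eventually (gt_mem_nhds (by linarith))
    filter_upwards [e1, e2] with k hk1 hk2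
    rw [mem_closedBall, dist_zero_right]
    have hsub : closedBall (xs k) (ρ / 2) ⊆ S := by
      intro y hy
      refine hball ?_
      rw [mem_ball] at hk1 ⊢
      rw [mem_closedBall] at hy
      calc dist y x ≤ dist y (xs k) + dist (xs k) x := dist_triangle _ _ _
        _ < ρ / 2 + ρ / 2 := add_lt_add_of_le_of_lt hy hk1
        _ = ρ := by ring
    refine (KE_bd hp h (half_pos hρ) hsub (hGs k)).trans ?_
    gcongr
  obtain ⟨Pl, -, φ, hφ, hφl⟩ := (isCompact_closedBall (0 : E n) _).tendsto_subseq' hb.frequently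
  have hGl : Gd p S u x Pl := by
    intro y hy
    have hlim' : Tendsto (fun k => xs (φ k)) atTop (𝓝 x) := hlim.comp hφ.tendsto_atTop
    have hu' : Tendsto (fun k => u (xs (φ k))) atTop (𝓝 (u x)) := hcont.tendsto.comp hlim'
    have e1 : Tendsto (fun k => u (xs (φ k)) ^ qq p + qq p * u (xs (φ k)) ^ (qq p - 1) *
        ⟪Ps (φ k), y - xs (φ k)⟫) atTop
        (𝓝 (u x ^ qq p + qq p * u x ^ (qq p - 1) * ⟪Pl, y - x⟫)) := by
      refine (hu'.rpow_const (Or.inl hux.ne')).add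
        ((tendsto_const_nhds.mul (hu'.rpow_const (Or.inl hux.ne'))).mul ?_)
      exact hφl.inner (tendsto_const_nhds.sub hlim')
    exact ge_of_tendsto' e1 fun k => hGs (φ k) y hy
  have heq : P = Pl := gd_unique hp h hx hP hGl
  have hfin : Tendsto (fun k => ‖Ps (φ k) - P‖) atTop (𝓝 ‖Pl - P‖) :=
    (hφl.sub tendsto_const_nhds).norm
  have h2 : ε ≤ ‖Pl - P‖ := ge_of_tendsto' hfin fun k => (hPs (φ k)).le
  rw [heq, sub_self, norm_zero] at h2
  linarith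

private theorem KE_tan {m M a b t0 t1 : ℝ} (ha : 0 < a)
    (hM : ∀ t ∈ Ioo a b, m * ((m - 1) * t ^ (m - 1 - 1)) ≤ M) (h0 : t0 ∈ Ioo a b)
    (h1 : t1 ∈ Ioo a b) :
    t1 ^ m ≤ t0 ^ m + m * t0 ^ (m - 1) * (t1 - t0) + M / 2 * (t1 - t0) ^ 2 := by
  have hpos : ∀ t ∈ Ioo a b, 0 < t := fun t ht => ha.trans ht.1
  have hder : ∀ t ∈ Ioo a b, HasDerivAt (fun t : ℝ => M / 2 * t ^ 2 - t ^ m)
      (M * t - m * t ^ (m - 1)) t := by
    intro t ht
    have e1 : HasDerivAt (fun t : ℝ => M / 2 * t ^ 2) (M / 2 * (2 * t)) t := by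
      have := (hasDerivAt_pow 2 t).const_mul (M / 2)
      simpa using this
    have e2 : HasDerivAt (fun t : ℝ => t ^ m) (m * t ^ (m - 1)) t :=
      Real.hasDerivAt_rpow_const (Or.inl (hpos t ht).ne')
    have e3 := e1.sub e2
    have e4 : M / 2 * (2 * t) - m * t ^ (m - 1) = M * t - m * t ^ (m - 1) := by ring
    rw [e4] at e3
    exact e3
  have hder2 : ∀ t ∈ Ioo a b, HasDerivAt (fun t : ℝ => M * t - m * t ^ (m - 1))
      (M - m * ((m - 1) * t ^ (m - 1 - 1))) t := by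
    intro t ht
    have e1 : HasDerivAt (fun t : ℝ => M * t) M t := by
      simpa using (hasDerivAt_id t).const_mul M
    have e2 : HasDerivAt (fun t : ℝ => t ^ (m - 1)) ((m - 1) * t ^ (m - 1 - 1)) t :=
      Real.hasDerivAt_rpow_const (Or.inl (hpos t ht).ne')
    exact e1.sub (e2.const_mul m)
  have hconv : ConvexOn ℝ (Ioo a b) (fun t : ℝ => M / 2 * t ^ 2 - t ^ m) := by
    refine convexOn_of_hasDerivWithinAt2_nonneg (f' := fun t => M * t - m * t ^ (m - 1))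
      (f'' := fun t => M - m * ((m - 1) * t ^ (m - 1 - 1))) (convex_Ioo a b)
      (fun t ht => (hder t ht).continuousAt.continuousWithinAt) ?_ ?_ ?_
    · rw [interior_Ioo]
      exact fun t ht => (hder t ht).hasDerivWithinAt
    · rw [interior_Ioo]
      exact fun t ht => (hder2 t ht).hasDerivWithinAt
    · rw [interior_Ioo]
      exact fun t ht => sub_nonneg.2 (hM t ht)
  rcases lt_trichotomy t0 t1 with hlt | heq | hlt
  · have h2 := hconv.le_slope_of_hasDerivAt h0 h1 hlt (hder t0 h0)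
    rw [slope_def_field, le_div_iff₀ (sub_pos.2 hlt)] at h2
    nlinarith
  · rw [heq]
    simp
  · have h2 := hconv.slope_le_of_hasDerivAt h1 h0 hlt (hder t0 h0)
    rw [slope_def_field, div_le_iff₀ (sub_pos.2 hlt)] at h2
    nlinarith

private theorem KE_concave {f : E n → ℝ} {D : Set (E n)} (hD : Convex ℝ D)
    (hf : ∀ x ∈ D, ∃ ζ : E n, ∀ y ∈ D, f y ≤ f x + ⟪ζ, y - x⟫) : ConcaveOn ℝ D f := by
  refine ⟨hD, fun y hy z hz a c ha hc hac => ?_⟩
  obtain ⟨ζ, hζ⟩ := hf (a • y + c • z) (hD hy hz ha hc hac)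
  have h1 := hζ y hy
  have h2 := hζ z hz
  simp only [smul_eq_mul]
  have h3 : a * ⟪ζ, y - (a • y + c • z)⟫ + c * ⟪ζ, z - (a • y + c • z)⟫ = 0 := by
    rw [← real_inner_smul_right, ← real_inner_smul_right, ← inner_add_right]
    have h4 : a • (y - (a • y + c • z)) + c • (z - (a • y + c • z)) = 0 := by
      have h5 : c = 1 - a := by linarith
      rw [h5]
      module
    rw [h4, inner_zero_right]
  have h4 := mul_le_mul_of_nonneg_left h1 ha
  have h5 := mul_le_mul_of_nonneg_left h2 hc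
  have h6 : (a + c) * f (a • y + c • z) = f (a • y + c • z) := by rw [hac, one_mul]
  nlinarith

theorem qs_semi (hp : 2 < p) (h : QS p b κ S u) (hx : x ∈ S) (hP : Gd p S u x P) {Λ : ℝ}
    (hΛ : (1 - qq p) * ‖P‖ ^ 2 / u x < Λ) :
    ∃ ρ > 0, closedBall x ρ ⊆ S ∧
      ConcaveOn ℝ (closedBall x ρ) (fun y => u y - Λ / 2 * ‖y‖ ^ 2) := by
  obtain ⟨hq0, hq1, hm0, hm1, hqm⟩ := KE_pos hp
  have hux := h.pos x hx
  set t₀ : ℝ := u x ^ qq p with ht₀
  have ht₀0 : 0 < t₀ := Real.rpow_pos_of_pos hux _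
  set c : ℝ := qq p * u x ^ (qq p - 1) with hcdef
  have hc : 0 < c := KE_c0 hp hux
  set A : ℝ := mm p * ((mm p - 1) * t₀ ^ (mm p - 1 - 1)) with hA
  have hA0 : 0 ≤ A := by
    have : 0 < mm p - 1 := by linarith
    positivity
  have hAΛ : A * (c * ‖P‖) ^ 2 < Λ := by
    have h1 : A * (c * ‖P‖) ^ 2 = (A * c ^ 2) * ‖P‖ ^ 2 := by ring
    rw [h1, hA, hcdef, ht₀, KE_c2 hux hqm]
    have h2 : (1 - qq p) / u x * ‖P‖ ^ 2 = (1 - qq p) * ‖P‖ ^ 2 / u x := by ring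
    rw [h2]
    exact hΛ
  -- the small number `s`
  obtain ⟨s, hs0, hs⟩ : ∃ s > 0, (A + s) * (c * ‖P‖ + s) ^ 2 < Λ := by
    have e1 : ContinuousAt (fun s : ℝ => (A + s) * (c * ‖P‖ + s) ^ 2) 0 := by fun_prop
    have e2 : ∀ᶠ s in 𝓝 (0 : ℝ), (A + s) * (c * ‖P‖ + s) ^ 2 < Λ :=
      e1.eventually (gt_mem_nhds (by simpa using hAΛ))
    obtain ⟨s, hs1, hs2⟩ := (e2.filter_mono nhdsWithin_le_nhds |>.and
      (self_mem_nhdsWithin : Ioi (0 : ℝ) ∈ 𝓝[>] 0)).exists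
    exact ⟨s, hs2, hs1⟩
  -- the interval
  obtain ⟨η, hη0, hηt, hη⟩ : ∃ η > 0, η < t₀ ∧ ∀ t ∈ Ioo (t₀ - η) (t₀ + η),
      mm p * ((mm p - 1) * t ^ (mm p - 1 - 1)) ≤ A + s := by
    have e1 : ContinuousAt (fun t : ℝ => mm p * ((mm p - 1) * t ^ (mm p - 1 - 1))) t₀ :=
      continuousAt_const.mul (continuousAt_const.mul
        (Real.continuousAt_rpow_const _ _ (Or.inl ht₀0.ne')))
    have e2 : ∀ᶠ t in 𝓝 t₀, mm p * ((mm p - 1) * t ^ (mm p - 1 - 1)) < A + s :=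
      e1.eventually (gt_mem_nhds (by simp only; rw [← hA]; linarith))
    obtain ⟨η, hη, h1⟩ := Metric.eventually_nhds_iff.1 e2
    refine ⟨min η (t₀ / 2), lt_min hη (by linarith), ?_, fun t ht => ?_⟩
    · exact (min_le_right _ _).trans_lt (by linarith)
    · refine (h1 ?_).le
      rw [Real.dist_eq, abs_lt]
      constructor
      · linarith [ht.1, min_le_left η (t₀ / 2)]
      · linarith [ht.2, min_le_left η (t₀ / 2)]
  have hcont : ContinuousAt u x := (qs_cont hp h).continuousAt (h.isOpen.mem_nhds hx)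
  set ε1 : ℝ := s / (2 * (c + 1)) with hε1
  have hε10 : 0 < ε1 := by positivity
  obtain ⟨δ, hδ, hδP⟩ := gd_cont hp h hx hP hε10
  have hev : ∀ᶠ y in 𝓝 x, y ∈ S ∧ |u y ^ qq p - t₀| < η / 2 ∧
      qq p * u y ^ (qq p - 1) * (‖P‖ + ε1) < c * (‖P‖ + ε1) + s / 2 := by
    have e1 : ContinuousAt (fun y => u y ^ qq p) x := hcont.rpow_const (Or.inl hux.ne')
    have e2 : ContinuousAt (fun y => qq p * u y ^ (qq p - 1) * (‖P‖ + ε1)) x :=
      (continuousAt_const.mul (hcont.rpow_const (Or.inl hux.ne'))).mul continuousAt_const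
    have e3 : ∀ᶠ y in 𝓝 x, |u y ^ qq p - t₀| < η / 2 := by
      have e4 : ContinuousAt (fun y => |u y ^ qq p - t₀|) x :=
        (e1.sub continuousAt_const).abs
      refine e4.eventually (gt_mem_nhds ?_)
      simp only [ht₀, sub_self, abs_zero]
      positivity
    have e5 : ∀ᶠ y in 𝓝 x, qq p * u y ^ (qq p - 1) * (‖P‖ + ε1) < c * (‖P‖ + ε1) + s / 2 :=
      e2.eventually (gt_mem_nhds (by simp only; rw [← hcdef]; linarith))
    filter_upwards [h.isOpen.mem_nhds hx, e3, e5] with y h1 h2 h3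
    exact ⟨h1, h2, h3⟩
  obtain ⟨ρ1, hρ1, hρ1b⟩ := Metric.eventually_nhds_iff.1 hev
  have hB0 : 0 < c * ‖P‖ + s := by positivity
  set ρ : ℝ := min (ρ1 / 2) (min (δ / 2) (η / (8 * (c * ‖P‖ + s)))) with hρ
  have hρ0 : 0 < ρ := lt_min (by positivity) (lt_min (by positivity) (by positivity))
  have hρa : ∀ y ∈ closedBall x ρ, y ∈ S ∧ |u y ^ qq p - t₀| < η / 2 ∧
      qq p * u y ^ (qq p - 1) * (‖P‖ + ε1) < c * (‖P‖ + ε1) + s / 2 := by
    intro y hy
    refine hρ1b ?_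
    rw [mem_closedBall] at hy
    have := min_le_left (ρ1 / 2) (min (δ / 2) (η / (8 * (c * ‖P‖ + s))))
    linarith
  refine ⟨ρ, hρ0, fun y hy => (hρa y hy).1, ?_⟩
  refine KE_concave (convex_closedBall x ρ) fun x' hx' => ?_
  obtain ⟨hx'S, hx't, hx'c⟩ := hρa x' hx'
  obtain ⟨P', hP'⟩ := gd_exists hp h hx'S
  have hux' := h.pos x' hx'S
  have hx'd : ‖x' - x‖ < δ := by
    rw [mem_closedBall, dist_eq_norm] at hx'
    have h1 : ρ ≤ δ / 2 := (min_le_right _ _).trans (min_le_left _ _)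
    linarith
  have hPP : ‖P'‖ ≤ ‖P‖ + ε1 := by
    have h1 := hδP x' P' hx'd hP'
    have h2 := norm_sub_norm_le P' P
    linarith
  set c' : ℝ := qq p * u x' ^ (qq p - 1) with hc'
  have hc'0 : 0 < c' := KE_c0 hp hux'
  have hG' : c' * ‖P'‖ ≤ c * ‖P‖ + s := by
    have h1 : c' * ‖P'‖ ≤ c' * (‖P‖ + ε1) := mul_le_mul_of_nonneg_left hPP hc'0.le
    have h2 : c * ε1 ≤ s / 2 := by
      rw [hε1, mul_div_assoc', div_le_iff₀ (by positivity)]
      nlinarith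
    nlinarith
  refine ⟨P' - Λ • x', fun y hy => ?_⟩
  obtain ⟨hyS, -, -⟩ := hρa y hy
  have huy := h.pos y hyS
  set t1 : ℝ := u x' ^ qq p + c' * ⟪P', y - x'⟫ with ht1
  have hyx : ‖y - x'‖ ≤ 2 * ρ := by
    rw [mem_closedBall] at hy hx'
    rw [← dist_eq_norm]
    have := dist_triangle_right y x' x
    linarith
  have hin : |c' * ⟪P', y - x'⟫| ≤ (c * ‖P‖ + s) * ‖y - x'‖ := by
    rw [abs_mul, abs_of_pos hc'0]
    have h1 := abs_real_inner_le_norm P' (y - x')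
    calc c' * |⟪P', y - x'⟫| ≤ c' * (‖P'‖ * ‖y - x'‖) := mul_le_mul_of_nonneg_left h1 hc'0.le
      _ = (c' * ‖P'‖) * ‖y - x'‖ := by ring
      _ ≤ _ := mul_le_mul_of_nonneg_right hG' (norm_nonneg _)
  have hin2 : |c' * ⟪P', y - x'⟫| < η / 2 := by
    have h1 : ρ ≤ η / (8 * (c * ‖P‖ + s)) := (min_le_right _ _).trans (min_le_right _ _)
    rw [le_div_iff₀ (by positivity)] at h1
    have h2 : (c * ‖P‖ + s) * ‖y - x'‖ ≤ (c * ‖P‖ + s) * (2 * ρ) :=
      mul_le_mul_of_nonneg_left hyx hB0.le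
    nlinarith
  have ht1m : t1 ∈ Ioo (t₀ - η) (t₀ + η) := by
    rw [abs_lt] at hx't hin2
    constructor <;> rw [ht1] <;> linarith [hx't.1, hx't.2, hin2.1, hin2.2]
  have ht0m : u x' ^ qq p ∈ Ioo (t₀ - η) (t₀ + η) := by
    rw [abs_lt] at hx't
    constructor <;> linarith [hx't.1, hx't.2]
  have hT := KE_tan (by linarith) hη ht0m ht1m
  have h1 : u y ≤ t1 ^ mm p := by
    calc u y = (u y ^ qq p) ^ mm p := (KE_back hp huy.le).symm
      _ ≤ t1 ^ mm p := Real.rpow_le_rpow (Real.rpow_nonneg huy.le _) (hP' y hyS) hm0.le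
  have h2 : t1 - u x' ^ qq p = c' * ⟪P', y - x'⟫ := by rw [ht1]; ring
  rw [h2, KE_back hp hux'.le] at hT
  have h3 : mm p * (u x' ^ qq p) ^ (mm p - 1) * (c' * ⟪P', y - x'⟫) = ⟪P', y - x'⟫ := by
    rw [← mul_assoc, hc', KE_c1 hux' hqm, one_mul]
  rw [h3] at hT
  have h4 : (A + s) / 2 * (c' * ⟪P', y - x'⟫) ^ 2 ≤ Λ / 2 * ‖y - x'‖ ^ 2 := by
    have h5 : (c' * ⟪P', y - x'⟫) ^ 2 ≤ ((c * ‖P‖ + s) * ‖y - x'‖) ^ 2 := by
      rw [← sq_abs]
      exact pow_le_pow_left₀ (abs_nonneg _) hin 2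
    have h6 : (A + s) / 2 * (c' * ⟪P', y - x'⟫) ^ 2 ≤
        (A + s) / 2 * ((c * ‖P‖ + s) * ‖y - x'‖) ^ 2 :=
      mul_le_mul_of_nonneg_left h5 (by positivity)
    have h7 : (A + s) / 2 * ((c * ‖P‖ + s) * ‖y - x'‖) ^ 2 =
        ((A + s) * (c * ‖P‖ + s) ^ 2) / 2 * ‖y - x'‖ ^ 2 := by ring
    have h8 : ((A + s) * (c * ‖P‖ + s) ^ 2) / 2 * ‖y - x'‖ ^ 2 ≤ Λ / 2 * ‖y - x'‖ ^ 2 :=
      mul_le_mul_of_nonneg_right (by linarith) (sq_nonneg _)
    linarith
  have h9 : ‖y - x'‖ ^ 2 - ‖y‖ ^ 2 = -‖x'‖ ^ 2 - 2 * ⟪x', y - x'⟫ := by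
    rw [@norm_sub_sq_real, inner_sub_right, real_inner_self_eq_norm_sq, real_inner_comm]
    ring
  have h10 : ⟪P' - Λ • x', y - x'⟫ = ⟪P', y - x'⟫ - Λ * ⟪x', y - x'⟫ := by
    rw [inner_sub_left, real_inner_smul_left]
  rw [h10]
  have h11 : Λ / 2 * ‖y - x'‖ ^ 2 - Λ / 2 * ‖y‖ ^ 2 =
      -(Λ / 2 * ‖x'‖ ^ 2) - Λ * ⟪x', y - x'⟫ := by
    linear_combination (Λ / 2) * h9
  linarith

/-- At a maximum point of `u` on `S` the gradient vanishes. -/
theorem gd_max (hp : 2 < p) (h : QS p b κ S u) (hx : x ∈ S) (hmax : ∀ y ∈ S, u y ≤ u x) :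
    Gd p S u x 0 := by
  intro y hy
  rw [inner_zero_left, mul_zero, add_zero]
  exact Real.rpow_le_rpow (h.pos y hy).le (hmax y hy) (KE_pos hp).1.le

/-- At a point which is not a maximum point the gradient does not vanish. -/
theorem gd_ne_zero (hp : 2 < p) (h : QS p b κ S u) (hx : x ∈ S) (hlt : ∃ y ∈ S, u x < u y)
    (hP : Gd p S u x P) : P ≠ 0 := by
  intro h0
  obtain ⟨y, hy, hlt⟩ := hlt
  have h1 := hP y hy
  rw [h0, inner_zero_left, mul_zero, add_zero] at h1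
  have h2 := Real.rpow_lt_rpow (h.pos x hx).le hlt (KE_pos hp).1
  linarith

end Pool.Agent.TWC
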