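import Pool.Agent.TWC.Defs

/-!
# TWC GEO: geometry of the tube

`Ω` open convex with interior balls of radius `r0` at every frontier point, `dw Ω x = infDist x Ωᶜ`
(`Ωᶜ` is closed and nonempty: `Ω` is bounded orthogonally to `e`. If `n = 1` the tube would be the whole
line: then there is no frontier point; so we assume `(Ωᶜ).Nonempty` where needed).

* `half`: if `w ∈ frontier Ω`, `ball (w + r0 ν) r0 ⊆ Ω`, `|ν| = 1`, then `Ω ⊆ {x : 0 < <x-w,ν>}`.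
  (Supporting functional at `w` for the open convex set `Ω`, `w ∉ Ω`: there is a unit vector `μ` with
  `<x-w,μ> > 0` on `Ω` (`geometric_hahn_banach_open_point`). On the ball: for `|h| < 1`:
  `<r0 (ν + h), μ> > 0`, so `<ν,μ> ≥ 1` and `μ = ν`.)
  In particular `ν` is unique, `half_unique`.
* `near`: every `x ∈ Ω` has the form `x = w + dw x • ν` with `w ∈ frontier Ω`, `|ν| = 1`,
  `ball (w + r0 ν) r0 ⊆ Ω`. (Nearest point `w` of the closed set `Ωᶜ`; `w ∈ frontier Ω`; let `ν` be the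
  normal at `w`; `ball x d ⊆ Ω ⊆ {<·-w,ν> > 0}` with `|x-w| = d` gives `<x-w,ν> ≥ d = |x-w|`, so
  `x - w = d ν`.)
* `dw_normal`: `dw (w + t ν) = t` for `0 ≤ t ≤ r0`: `≤` since `w ∉ Ω`; `≥` since
  `ball (w + t ν) t ⊆ ball (w + r0 ν) r0 ⊆ Ω`.
* `dw_le_half`: `dw x ≤ <x-w,ν>` for `x ∈ Ω` (distance to the half space).
* `dw_inv`: `dw (x + t e) = dw x`. `nu_perp`: `<ν,e> = 0` (`Ω` contains `w + r0 ν + t e` for all `t`, apply
  `half`).
* `frontier_inv`: `frontier Ω` is invariant; with the same normal.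
* `dw_lip`: `infDist` is 1-Lipschitz. `dw_pos`: positive exactly on `Ω`.
* `ball_normal` (angle estimate): let `ball y r1 ⊆ Ω`, `x ∈ ball y r1`, `x ≠ y`, `x = w + d ν` as in
  `near` (`d = dw x`). Then `|(y-x)/|y-x| - ν|^2 ≤ 2 d/r1`:
  `<y-w,ν> ≥ r1` (since `ball y r1 ⊆ {<·-w,ν> > 0}`), so `<y-x,ν> ≥ r1 - d`, `|y-x| ≤ r1`, hence
  `<(y-x)/|y-x|, ν> ≥ (r1-d)/r1` if `r1 ≥ d`, and in general `≥ 1 - d/r1` (if `d > r1` the bound
  `|..|^2 ≤ 4` needs `d ≥ 2 r1`; note `d = dw x ≤ ...`; to be safe we state the lemma for `d ≤ r1`).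
* `dw_tang`: `x = w + d ν`, `d ≤ r0/2`, `T ⊥ ν`, `|T| = 1`, `s^2 ≤ r0 d/4`: `d/2 ≤ dw (x + s T)`:
  `dw (x + sT) ≥ r0 - |x + sT - (w + r0 ν)| = r0 - sqrt((r0-d)^2 + s^2) ≥ d - s^2/(2(r0-d)) ≥ d - s^2/r0`.
-/

open Set Metric Filter Topology
open scoped RealInnerProductSpace

noncomputable section

namespace Pool.Agent.TWC

variable {n : ℕ} {e : E n} {r0 : ℝ} {Ω : Set (E n)}

private theorem GEO_notMem (hΩ : Tube e r0 Ω) {w : E n} (hw : w ∈ frontier Ω) : w ∉ Ω := by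
  rw [hΩ.isOpen.frontier_eq] at hw
  exact hw.2

private theorem GEO_ballmu {w ν m : E n} (hr : 0 < r0) (hν : ‖ν‖ = 1)
    (h : ∀ z ∈ ball (w + r0 • ν) r0, 0 ≤ ⟪z - w, m⟫) : m = ‖m‖ • ν := by
  rcases eq_or_ne m 0 with hm | hm
  · rw [hm]
    simp
  have hm0 : 0 < ‖m‖ := norm_pos_iff.2 hm
  have key : ‖m‖ ≤ ⟪ν, m⟫ := by
    by_contra hlt
    push Not at hlt
    have h1 : ⟪ν, m⟫ / ‖m‖ < 1 := by rwa [div_lt_one hm0]
    obtain ⟨t, ht1, ht2⟩ := exists_between (max_lt zero_lt_one h1)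
    have ht0 : 0 < t := (le_max_left _ _).trans_lt ht1
    have ht3 : ⟪ν, m⟫ < t * ‖m‖ := by
      rw [← div_lt_iff₀ hm0]
      exact (le_max_right _ _).trans_lt ht1
    have h2 := h (w + r0 • ν - (t * r0 / ‖m‖) • m) (by
      rw [mem_ball, dist_eq_norm]
      have e1 : w + r0 • ν - (t * r0 / ‖m‖) • m - (w + r0 • ν) = -((t * r0 / ‖m‖) • m) := by abel
      rw [e1, norm_neg, norm_smul, Real.norm_eq_abs, abs_of_pos (by positivity)]
      rw [div_mul_cancel₀ _ hm0.ne']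
      nlinarith)
    have e2 : w + r0 • ν - (t * r0 / ‖m‖) • m - w = r0 • ν - (t * r0 / ‖m‖) • m := by abel
    rw [e2, inner_sub_left, real_inner_smul_left, real_inner_smul_left,
      real_inner_self_eq_norm_sq] at h2
    have e3 : t * r0 / ‖m‖ * ‖m‖ ^ 2 = r0 * (t * ‖m‖) := by
      field_simp
    rw [e3] at h2
    nlinarith
  have h3 : ‖m - ‖m‖ • ν‖ ^ 2 ≤ 0 := by
    rw [norm_sub_sq_real, real_inner_smul_right, norm_smul, norm_norm, hν, real_inner_comm]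
    nlinarith
  have h4 : ‖m - ‖m‖ • ν‖ = 0 := by
    have := norm_nonneg (m - ‖m‖ • ν)
    nlinarith
  exact sub_eq_zero.1 (norm_eq_zero.1 h4)

theorem half (hΩ : Tube e r0 Ω) {w ν : E n} (hw : w ∈ frontier Ω) (hν : ‖ν‖ = 1)
    (hb : ball (w + r0 • ν) r0 ⊆ Ω) {x : E n} (hx : x ∈ Ω) : 0 < ⟪x - w, ν⟫ := by
  have hwn := GEO_notMem hΩ hw
  obtain ⟨f, hf⟩ := geometric_hahn_banach_open_point hΩ.convex hΩ.isOpen hwn
  set m : E n := -((InnerProductSpace.toDual ℝ (E n)).symm f) with hm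
  have hin : ∀ z : E n, ⟪z - w, m⟫ = f w - f z := by
    intro z
    rw [hm, inner_neg_right, real_inner_comm, InnerProductSpace.toDual_symm_apply, map_sub]
    ring
  have h1 : m = ‖m‖ • ν := GEO_ballmu hΩ.r0pos hν (fun z hz => by
    rw [hin]
    have := hf z (hb hz)
    linarith)
  have h2 : 0 < ⟪x - w, m⟫ := by
    rw [hin]
    have := hf x hx
    linarith
  rw [h1, real_inner_smul_right] at h2
  have h3 := norm_nonneg m
  by_contra h4
  push Not at h4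
  nlinarith

theorem half_unique (hΩ : Tube e r0 Ω) {w ν μ : E n} (hw : w ∈ frontier Ω) (hν : ‖ν‖ = 1)
    (hb : ball (w + r0 • ν) r0 ⊆ Ω) (hμ : ‖μ‖ = 1) (h : ∀ x ∈ Ω, 0 ≤ ⟪x - w, μ⟫) : μ = ν := by
  have h1 := GEO_ballmu (w := w) hΩ.r0pos hν (fun z hz => h z (hb hz))
  rw [hμ, one_smul] at h1
  exact h1

private theorem GEO_ball_half (hΩ : Tube e r0 Ω) {w ν : E n} (hw : w ∈ frontier Ω) (hν : ‖ν‖ = 1)
    (hb : ball (w + r0 • ν) r0 ⊆ Ω) {z : E n} {r : ℝ} (hr : 0 < r) (hz : ball z r ⊆ Ω) :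
    r ≤ ⟪z - w, ν⟫ := by
  by_contra hlt
  push Not at hlt
  obtain ⟨t, ht1, ht2⟩ := exists_between (max_lt hr hlt)
  have ht0 : 0 < t := (le_max_left _ _).trans_lt ht1
  have h1 := half hΩ hw hν hb (x := z - t • ν) (hz (by
    rw [mem_ball, dist_eq_norm]
    have e1 : z - t • ν - z = -(t • ν) := by abel
    rw [e1, norm_neg, norm_smul, hν, Real.norm_eq_abs, abs_of_pos ht0]
    linarith))
  have e2 : z - t • ν - w = (z - w) - t • ν := by abel
  rw [e2, inner_sub_left, real_inner_smul_left, real_inner_self_eq_norm_sq, hν] at h1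
  have h2 := (le_max_right 0 (⟪z - w, ν⟫)).trans_lt ht1
  linarith

theorem near (hΩ : Tube e r0 Ω) (hne : (Ωᶜ).Nonempty) {x : E n} (hx : x ∈ Ω) :
    ∃ w ν : E n, w ∈ frontier Ω ∧ ‖ν‖ = 1 ∧ ball (w + r0 • ν) r0 ⊆ Ω ∧ x = w + dw Ω x • ν := by
  have hcl : IsClosed Ωᶜ := hΩ.isOpen.isClosed_compl
  obtain ⟨w, hw1, hw2⟩ := hcl.exists_infDist_eq_dist hne x
  have hxw : x ≠ w := fun h => hw1 (h ▸ hx)
  have hd : 0 < dist x w := dist_pos.2 hxw
  have hball : ball x (dist x w) ⊆ Ω := by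
    intro y hy
    by_contra hyn
    have h1 : infDist x Ωᶜ ≤ dist x y := infDist_le_dist_of_mem hyn
    rw [mem_ball, dist_comm] at hy
    rw [hw2] at h1
    linarith
  have hw : w ∈ frontier Ω := by
    rw [hΩ.isOpen.frontier_eq]
    refine ⟨closure_mono hball ?_, hw1⟩
    rw [closure_ball _ hd.ne', mem_closedBall, dist_comm]
  obtain ⟨ν, hν, hb⟩ := hΩ.intball w hw
  refine ⟨w, ν, hw, hν, hb, ?_⟩
  have h1 := GEO_ball_half hΩ hw hν hb hd hball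
  have h2 : dw Ω x = ‖x - w‖ := by
    unfold dw
    rw [hw2, dist_eq_norm]
  rw [dist_eq_norm] at h1
  rw [h2]
  have h3 : ‖(x - w) - ‖x - w‖ • ν‖ ^ 2 ≤ 0 := by
    rw [norm_sub_sq_real, real_inner_smul_right, norm_smul, norm_norm, hν]
    nlinarith [norm_nonneg (x - w)]
  have h4 : ‖(x - w) - ‖x - w‖ • ν‖ = 0 := by
    have := norm_nonneg ((x - w) - ‖x - w‖ • ν)
    nlinarith
  have h5 := sub_eq_zero.1 (norm_eq_zero.1 h4)
  rw [← h5]
  abel

theorem dw_normal (hΩ : Tube e r0 Ω) {w ν : E n} (hw : w ∈ frontier Ω) (hν : ‖ν‖ = 1)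
    (hb : ball (w + r0 • ν) r0 ⊆ Ω) {t : ℝ} (ht : 0 ≤ t) (ht' : t ≤ r0) : dw Ω (w + t • ν) = t := by
  have hwn := GEO_notMem hΩ hw
  have hn : ∀ s : ℝ, ‖s • ν‖ = |s| := fun s => by
    rw [norm_smul, hν, mul_one, Real.norm_eq_abs]
  apply le_antisymm
  · have h1 : infDist (w + t • ν) Ωᶜ ≤ dist (w + t • ν) w := infDist_le_dist_of_mem hwn
    rw [dist_eq_norm, add_sub_cancel_left, hn, abs_of_nonneg ht] at h1
    exact h1
  · unfold dw
    rw [le_infDist ⟨w, hwn⟩]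
    intro y hy
    by_contra hlt
    push Not at hlt
    apply hy
    apply hb
    rw [mem_ball]
    have h1 : dist y (w + r0 • ν) ≤ dist y (w + t • ν) + dist (w + t • ν) (w + r0 • ν) :=
      dist_triangle _ _ _
    have h2 : dist (w + t • ν) (w + r0 • ν) = r0 - t := by
      rw [dist_eq_norm]
      have e1 : w + t • ν - (w + r0 • ν) = (t - r0) • ν := by
        rw [sub_smul]
        abel
      rw [e1, hn, abs_of_nonpos (by linarith)]
      ring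
    rw [dist_comm] at hlt
    linarith

theorem dw_le_half (hΩ : Tube e r0 Ω) {w ν : E n} (hw : w ∈ frontier Ω) (hν : ‖ν‖ = 1)
    (hb : ball (w + r0 • ν) r0 ⊆ Ω) {x : E n} (hx : x ∈ Ω) : dw Ω x ≤ ⟪x - w, ν⟫ := by
  rcases (infDist_nonneg : 0 ≤ infDist x Ωᶜ).eq_or_lt with h0 | h0
  · unfold dw
    rw [← h0]
    exact (half hΩ hw hν hb hx).le
  · refine GEO_ball_half hΩ hw hν hb h0 ?_
    intro y hy
    by_contra hyn
    have h1 : infDist x Ωᶜ ≤ dist x y := infDist_le_dist_of_mem hyn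
    rw [mem_ball, dist_comm] at hy
    unfold dw at hy
    linarith

theorem dw_nonneg (x : E n) : 0 ≤ dw Ω x := infDist_nonneg

theorem dw_lip (x y : E n) : |dw Ω x - dw Ω y| ≤ ‖x - y‖ := by
  have h1 := infDist_le_infDist_add_dist (s := Ωᶜ) (x := x) (y := y)
  have h2 := infDist_le_infDist_add_dist (s := Ωᶜ) (x := y) (y := x)
  rw [dist_comm, dist_eq_norm] at h2
  rw [dist_eq_norm] at h1
  unfold dw
  rw [abs_le]
  constructor <;> linarith

theorem dw_pos (hΩ : Tube e r0 Ω) (hne : (Ωᶜ).Nonempty) {x : E n} : 0 < dw Ω x ↔ x ∈ Ω := by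
  have h := hΩ.isOpen.isClosed_compl.notMem_iff_infDist_pos hne (x := x)
  rw [notMem_compl_iff] at h
  exact h.symm

theorem ball_dw (hΩ : Tube e r0 Ω) {x : E n} : ball x (dw Ω x) ⊆ Ω := by
  intro y hy
  by_contra hyn
  have h1 : infDist x Ωᶜ ≤ dist x y := infDist_le_dist_of_mem hyn
  rw [mem_ball, dist_comm] at hy
  unfold dw at hy
  linarith

theorem le_dw (hne : (Ωᶜ).Nonempty) {x : E n} {r : ℝ} (h : ball x r ⊆ Ω) : r ≤ dw Ω x := by
  unfold dw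
  rw [le_infDist hne]
  intro y hy
  by_contra hlt
  push Not at hlt
  apply hy
  apply h
  rw [mem_ball, dist_comm]
  exact hlt

private theorem GEO_notMem_add (hΩ : Tube e r0 Ω) {y : E n} (hy : y ∉ Ω) (t : ℝ) :
    y + t • e ∉ Ω := by
  intro h
  apply hy
  have h1 := hΩ.inv _ h (-t)
  have e1 : y + t • e + -t • e = y := by
    rw [neg_smul]
    abel
  rwa [e1] at h1

private theorem GEO_dw_inv_le (hΩ : Tube e r0 Ω) (x : E n) (t : ℝ) :
    dw Ω (x + t • e) ≤ dw Ω x := by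
  rcases (Ωᶜ).eq_empty_or_nonempty with h0 | hne
  · unfold dw
    rw [h0, infDist_empty, infDist_empty]
  · unfold dw
    rw [le_infDist hne]
    intro y hy
    have h1 : infDist (x + t • e) Ωᶜ ≤ dist (x + t • e) (y + t • e) :=
      infDist_le_dist_of_mem (GEO_notMem_add hΩ hy t)
    rwa [dist_add_right] at h1

theorem dw_inv (hΩ : Tube e r0 Ω) (x : E n) (t : ℝ) : dw Ω (x + t • e) = dw Ω x := by
  apply le_antisymm (GEO_dw_inv_le hΩ x t)
  have h1 := GEO_dw_inv_le hΩ (x + t • e) (-t)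
  have e1 : x + t • e + -t • e = x := by
    rw [neg_smul]
    abel
  rwa [e1] at h1

theorem dw_bdd (hΩ : Tube e r0 Ω) (hne : (Ωᶜ).Nonempty) : ∃ C, ∀ x, dw Ω x ≤ C := by
  obtain ⟨R, hR⟩ := hΩ.bdd
  obtain ⟨y0, hy0⟩ := hne
  refine ⟨|R| + ‖y0 - ⟪y0, e⟫ • e‖, fun x => ?_⟩
  by_cases hx : x ∈ Ω
  · have h1 : infDist x Ωᶜ ≤ dist x (y0 + (⟪x, e⟫ - ⟪y0, e⟫) • e) :=
      infDist_le_dist_of_mem (GEO_notMem_add hΩ hy0 _)
    have e1 : x - (y0 + (⟪x, e⟫ - ⟪y0, e⟫) • e) = (x - ⟪x, e⟫ • e) - (y0 - ⟪y0, e⟫ • e) := by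
      rw [sub_smul]
      abel
    rw [dist_eq_norm, e1] at h1
    have h2 := norm_sub_le (x - ⟪x, e⟫ • e) (y0 - ⟪y0, e⟫ • e)
    have h3 := hR x hx
    have h4 := le_abs_self R
    unfold dw
    linarith
  · have h1 : infDist x Ωᶜ = 0 := infDist_zero_of_mem hx
    unfold dw
    rw [h1]
    positivity

theorem frontier_inv (hΩ : Tube e r0 Ω) {w : E n} (hw : w ∈ frontier Ω) (t : ℝ) :
    w + t • e ∈ frontier Ω := by
  have hwn := GEO_notMem hΩ hw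
  rw [hΩ.isOpen.frontier_eq] at hw ⊢
  refine ⟨?_, GEO_notMem_add hΩ hwn t⟩
  exact map_mem_closure (f := fun z : E n => z + t • e) (by fun_prop) hw.1
    (fun z hz => hΩ.inv z hz t)

theorem nu_perp (hΩ : Tube e r0 Ω) {w ν : E n} (hw : w ∈ frontier Ω) (hν : ‖ν‖ = 1)
    (hb : ball (w + r0 • ν) r0 ⊆ Ω) : ⟪ν, e⟫ = 0 := by
  by_contra hne
  have hc : w + r0 • ν ∈ Ω := hb (mem_ball_self hΩ.r0pos)
  have h1 := half hΩ hw hν hb (hΩ.inv _ hc (-(r0 / ⟪ν, e⟫)))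
  have e1 : w + r0 • ν + -(r0 / ⟪ν, e⟫) • e - w = r0 • ν + -(r0 / ⟪ν, e⟫) • e := by abel
  rw [e1, inner_add_left, real_inner_smul_left, real_inner_smul_left,
    real_inner_self_eq_norm_sq, hν, real_inner_comm ν e, neg_mul, div_mul_cancel₀ _ hne] at h1
  linarith

theorem ball_inv (hΩ : Tube e r0 Ω) {y : E n} {r : ℝ} (hb : ball y r ⊆ Ω) (t : ℝ) :
    ball (y + t • e) r ⊆ Ω := by
  intro z hz
  have h1 : z - t • e ∈ Ω := hb (by
    rw [mem_ball, dist_eq_norm] at hz ⊢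
    have e1 : z - t • e - y = z - (y + t • e) := by abel
    rwa [e1])
  have h2 := hΩ.inv _ h1 t
  rwa [sub_add_cancel] at h2

theorem ball_normal (hΩ : Tube e r0 Ω) {w ν x y : E n} {r1 : ℝ} (hr1 : 0 < r1) (hb1 : ball y r1 ⊆ Ω)
    (hxy : x ∈ ball y r1) (hne : x ≠ y) (hw : w ∈ frontier Ω) (hν : ‖ν‖ = 1)
    (hb : ball (w + r0 • ν) r0 ⊆ Ω) (hx : x = w + dw Ω x • ν) (hd : dw Ω x ≤ r1) :
    ‖(1 / ‖y - x‖) • (y - x) - ν‖ ^ 2 ≤ 2 * dw Ω x / r1 := by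
  have hN : 0 < ‖y - x‖ := norm_pos_iff.2 (sub_ne_zero.2 hne.symm)
  have hN1 : ‖y - x‖ < r1 := by
    rw [mem_ball, dist_comm, dist_eq_norm] at hxy
    exact hxy
  have h1 := GEO_ball_half hΩ hw hν hb hr1 hb1
  have h2 : r1 - dw Ω x ≤ ⟪y - x, ν⟫ := by
    have e1 : y - x = (y - w) - dw Ω x • ν := by
      nth_rewrite 1 [hx]
      abel
    rw [e1, inner_sub_left, real_inner_smul_left, real_inner_self_eq_norm_sq, hν]
    linarith
  have h3 : ‖(1 / ‖y - x‖) • (y - x) - ν‖ ^ 2 = 2 - 2 * (⟪y - x, ν⟫ / ‖y - x‖) := by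
    rw [norm_sub_sq_real, real_inner_smul_left, norm_smul, Real.norm_eq_abs,
      abs_of_pos (by positivity), hν, one_div_mul_cancel hN.ne']
    ring
  have h4 : (r1 - dw Ω x) / r1 ≤ ⟪y - x, ν⟫ / ‖y - x‖ := by
    calc (r1 - dw Ω x) / r1 ≤ (r1 - dw Ω x) / ‖y - x‖ :=
          div_le_div_of_nonneg_left (by linarith) hN hN1.le
      _ ≤ ⟪y - x, ν⟫ / ‖y - x‖ := div_le_div_of_nonneg_right h2 hN.le
  rw [h3]
  have h5 : (r1 - dw Ω x) / r1 = 1 - dw Ω x / r1 := by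
    rw [sub_div, div_self hr1.ne']
  rw [h5] at h4
  have h6 : 2 * dw Ω x / r1 = 2 * (dw Ω x / r1) := by ring
  rw [h6]
  linarith

theorem dw_tang (hΩ : Tube e r0 Ω) {w ν T : E n} (hw : w ∈ frontier Ω) (hν : ‖ν‖ = 1)
    (hb : ball (w + r0 • ν) r0 ⊆ Ω) (hT : ‖T‖ = 1) (hTν : ⟪T, ν⟫ = 0) {d s : ℝ} (hd : 0 < d)
    (hd0 : d ≤ r0 / 2) (hs : s ^ 2 ≤ r0 * d / 4) : d / 2 ≤ dw Ω (w + d • ν + s • T) := by
  have hwn := GEO_notMem hΩ hw
  have hr := hΩ.r0pos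
  refine le_dw ⟨w, hwn⟩ ?_
  intro z hz
  apply hb
  rw [mem_ball] at hz ⊢
  have h1 : dist z (w + r0 • ν) ≤ dist z (w + d • ν + s • T) +
      dist (w + d • ν + s • T) (w + r0 • ν) := dist_triangle _ _ _
  have h2 : dist (w + d • ν + s • T) (w + r0 • ν) ≤ r0 - d / 2 := by
    rw [dist_eq_norm]
    have e1 : w + d • ν + s • T - (w + r0 • ν) = (d - r0) • ν + s • T := by
      rw [sub_smul]
      abel
    rw [e1]
    apply le_of_sq_le_sq _ (by linarith)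
    rw [norm_add_sq_real, real_inner_smul_left, real_inner_smul_right, real_inner_comm, hTν,
      norm_smul, norm_smul, hν, hT, Real.norm_eq_abs, Real.norm_eq_abs, mul_one, mul_one, sq_abs,
      sq_abs]
    nlinarith
  linarith

/-- Points close to a frontier point `w0` are on normals from frontier points close to `w0`. -/
theorem near_close (hΩ : Tube e r0 Ω) (hne : (Ωᶜ).Nonempty) {w0 : E n} (hw0 : w0 ∈ frontier Ω)
    {x : E n} (hx : x ∈ Ω) :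
    ∃ w ν : E n, w ∈ frontier Ω ∧ ‖ν‖ = 1 ∧ ball (w + r0 • ν) r0 ⊆ Ω ∧ x = w + dw Ω x • ν ∧
      ‖w - w0‖ ≤ 2 * ‖x - w0‖ := by
  obtain ⟨w, ν, hw, hν, hb, hxw⟩ := near hΩ hne hx
  refine ⟨w, ν, hw, hν, hb, hxw, ?_⟩
  have h1 : dw Ω x ≤ ‖x - w0‖ := by
    rw [← dist_eq_norm]
    exact infDist_le_dist_of_mem (GEO_notMem hΩ hw0)
  have h2 : ‖w - x‖ = dw Ω x := by
    have e1 : w - x = -(dw Ω x • ν) := by
      nth_rewrite 1 [hxw]
      abel
    rw [e1, norm_neg, norm_smul, hν, mul_one, Real.norm_eq_abs, abs_of_nonneg (dw_nonneg x)]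
  have h3 : ‖w - w0‖ ≤ ‖w - x‖ + ‖x - w0‖ := norm_sub_le_norm_sub_add_norm_sub _ _ _
  linarith

/-- Bounded slabs of the closed tube are compact. -/
theorem slab_compact (hΩ : Tube e r0 Ω) (A B : ℝ) :
    IsCompact {x | x ∈ closure Ω ∧ A ≤ ⟪x, e⟫ ∧ ⟪x, e⟫ ≤ B} := by
  obtain ⟨R, hR⟩ := hΩ.bdd
  have hcl : ∀ x ∈ closure Ω, ‖x - ⟪x, e⟫ • e‖ ≤ R := by
    have hc : IsClosed {x : E n | ‖x - ⟪x, e⟫ • e‖ ≤ R} :=
      isClosed_le (by fun_prop) continuous_const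
    exact fun x hx => closure_minimal (fun y hy => hR y hy) hc hx
  refine Metric.isCompact_of_isClosed_isBounded ?_ ?_
  · have hc1 : IsClosed {x : E n | A ≤ ⟪x, e⟫} := isClosed_le continuous_const (by fun_prop)
    have hc2 : IsClosed {x : E n | ⟪x, e⟫ ≤ B} := isClosed_le (by fun_prop) continuous_const
    exact isClosed_closure.inter (hc1.inter hc2)
  · rw [isBounded_iff_forall_norm_le]
    refine ⟨R + (|A| + |B|), ?_⟩
    rintro x ⟨hx, h1, h2⟩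
    have h3 := hcl x hx
    have h4 : ‖x‖ ≤ ‖x - ⟪x, e⟫ • e‖ + ‖⟪x, e⟫ • e‖ := by
      have e1 : x = (x - ⟪x, e⟫ • e) + ⟪x, e⟫ • e := by abel
      nth_rewrite 1 [e1]
      exact norm_add_le _ _
    have h5 : ‖⟪x, e⟫ • e‖ ≤ |A| + |B| := by
      rw [norm_smul, hΩ.unit, mul_one, Real.norm_eq_abs, abs_le]
      constructor
      · have := neg_abs_le A
        have := abs_nonneg B
        linarith
      · have := le_abs_self B
        have := abs_nonneg A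
        linarith
    linarith

end Pool.Agent.TWC
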