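import Pool.Agent.TWC.EXPW
import Pool.Agent.TWC.LB
import Pool.Agent.TWC.GEO

/-!
# TWC PHI: `k d ≤ Φ ≤ C d`, and the linear bound for subsolutions vanishing off the tube

* `lin_wall`: a subsolution `u ≤ M0` with `u = 0` off `Ω` satisfies `u x ≤ C dw x`, `C = C(M0)`. Let `M ≥ M0`
  with `M^(p-2) ≥ C0` (`lb` constants, `κ' = κ = ka p`, `b = c e`). For `x ∈ Ω`, `x = w + d ν` (`near`): if
  `d ≤ 1/K1` apply `lb` with `b0 = w`, `r = 1` (`u = 0` where `<x-w,ν> ≤ 0` by `half`): `u x ≤ C1 M d`;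
  otherwise `u x ≤ M ≤ M K1 d`. Off `Ω`: `0`.
* `phi_bdd`: `Φ` is bounded: continuous, invariant, zero off `Ω`; compact cross section (`slab_compact`).
* `phi_lower`: let `Φ x1 > 0` (`x1 ∈ Ω`), `r ≤ r0` with `ball x1 r ⊆ Ω` and `Φ ≥ μ > 0` on
  `closedBall x1 (r/4)` (continuity). `expw` with `O = Ω`, `v = Φ` (monotone: invariant; `c ≥ 0`), `L` with
  `|x1' - y| ≤ L r` for suitable translates `x1' = x1 + t e` with `<x1',e> = <y,e>` (cross section
  bounded; `Φ ≥ μ` also on the translated ball): for every `y` with `ball y r ⊆ Ω` and all `x`: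
  `Φ x ≥ c2 (μ/r)(r - |x - (y - c s e)|)`, and by invariance of `Φ` (replace `x` by `x - c s e`)
  `Φ x ≥ c2 (μ/r)(r - |x-y|)`. For `x = w + d ν`, `d ≤ r`: `y = w + r ν`: `Φ x ≥ c2 (μ/r) d`. For `d ≥ r`: `y = x`:
  `Φ x ≥ c2 μ ≥ k d` since `dw` is bounded (`dw_bdd`).
-/

open Set Metric Filter Topology
open scoped RealInnerProductSpace

noncomputable section

namespace Pool.Agent.TWC

variable {n : ℕ} {p c : ℝ} {e : E n} {r0 : ℝ} {Ω : Set (E n)} {Φ : E n → ℝ}

theorem lin_wall (hp : 2 < p) (hΩ : Tube e r0 Ω) (hne : (Ωᶜ).Nonempty) (M0 : ℝ) :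
    ∃ C, 0 < C ∧ ∀ u : E n → ℝ, Sub p (c • e) (ka p) u → (∀ x ∉ Ω, u x = 0) → (∀ x, u x ≤ M0) →
      ∀ x, u x ≤ C * dw Ω x := by
  have hκ : 0 ≤ ka p := by
    unfold ka
    have : 0 < p - 2 := by linarith
    positivity
  obtain ⟨C0, C1, K1, hC0, hC1, hK1, hlb⟩ := lb (n := n) hp (c • e) hκ
  have hp2 : 0 < p - 2 := by linarith
  set M : ℝ := max (max M0 1) (C0 ^ (1 / (p - 2))) with hM
  have hM0 : M0 ≤ M := (le_max_left _ _).trans (le_max_left _ _)
  have hM1 : 1 ≤ M := (le_max_right _ _).trans (le_max_left _ _)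
  have hMC : C0 ≤ M ^ (p - 2) := by
    have h1 : C0 ^ (1 / (p - 2)) ≤ M := le_max_right _ _
    have h2 := Real.rpow_le_rpow (Real.rpow_nonneg hC0.le _) h1 hp2.le
    rwa [← Real.rpow_mul hC0.le, one_div_mul_cancel hp2.ne', Real.rpow_one] at h2
  refine ⟨max (C1 * M) (M * K1), lt_of_lt_of_le (by positivity) (le_max_left _ _), ?_⟩
  intro u hu hoff hle x
  by_cases hx : x ∈ Ω
  · obtain ⟨w, ν, hw, hν, hb, hxw⟩ := near hΩ hne hx
    have hd := dw_nonneg (Ω := Ω) x
    have e1 : x - w = dw Ω x • ν := by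
      nth_rewrite 1 [hxw]
      abel
    have hn : ‖x - w‖ = dw Ω x := by
      rw [e1, norm_smul, hν, mul_one, Real.norm_eq_abs, abs_of_nonneg hd]
    have hi : ⟪x - w, ν⟫ = dw Ω x := by
      rw [e1, real_inner_smul_left, real_inner_self_eq_norm_sq, hν]
      ring
    rcases le_or_gt (dw Ω x) (1 / K1) with h | h
    · have h1 := hlb (ka p) hκ le_rfl u hu w ν 1 M hν one_pos le_rfl (by linarith)
        (by rw [div_one, mul_one]; exact hMC) (fun y _ => (hle y).trans hM0)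
        (fun y _ hy => hoff y fun hyΩ => absurd (half hΩ hw hν hb hyΩ) (not_lt.2 hy)) x
        (by rw [mem_closedBall, dist_eq_norm, hn]; exact h) (by rw [hi]; exact hd)
      rw [hi, div_one] at h1
      exact h1.trans (mul_le_mul_of_nonneg_right (le_max_left _ _) hd)
    · have h1 : 1 ≤ K1 * dw Ω x := by
        rw [div_lt_iff₀ (by linarith)] at h
        linarith
      calc u x ≤ M := (hle x).trans hM0
        _ ≤ M * (K1 * dw Ω x) := by nlinarith
        _ = (M * K1) * dw Ω x := by ring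
        _ ≤ _ := mul_le_mul_of_nonneg_right (le_max_right _ _) hd
  · rw [hoff x hx]
    exact mul_nonneg (le_trans (by positivity) (le_max_left _ _)) (dw_nonneg x)

theorem phi_bdd (hΩ : Tube e r0 Ω) (hΦ : Prof p c e Ω Φ) : ∃ C, 0 < C ∧ ∀ x, Φ x ≤ C := by
  obtain ⟨B, hB⟩ := ((slab_compact hΩ 0 0).image hΦ.cont).bddAbove
  refine ⟨max B 1, lt_of_lt_of_le one_pos (le_max_right _ _), fun x => ?_⟩
  by_cases hx : x ∈ Ω
  · have h1 := hB (mem_image_of_mem Φ (show x + (-⟪x, e⟫) • e ∈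
      {x | x ∈ closure Ω ∧ 0 ≤ ⟪x, e⟫ ∧ ⟪x, e⟫ ≤ 0} from by
        have h2 : ⟪x + (-⟪x, e⟫) • e, e⟫ = (0 : ℝ) := by
          rw [inner_add_left, real_inner_smul_left, real_inner_self_eq_norm_sq, hΩ.unit]
          ring
        exact ⟨subset_closure (hΩ.inv x hx _), h2.ge, h2.le⟩))
    rw [hΦ.inv] at h1
    exact h1.trans (le_max_left _ _)
  · rw [hΦ.off x hx]
    exact le_trans zero_le_one (le_max_right _ _)

theorem phi_lower (hp : 2 < p) (hc : 0 ≤ c) (hΩ : Tube e r0 Ω) (hne : (Ωᶜ).Nonempty)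
    (hΦ : Prof p c e Ω Φ) : ∃ k, 0 < k ∧ ∀ x, k * dw Ω x ≤ Φ x := by
  obtain ⟨x1, hx1⟩ := hΦ.nontriv
  have hx1Ω : x1 ∈ Ω := by
    by_contra h
    rw [hΦ.off x1 h] at hx1
    exact lt_irrefl _ hx1
  have hinv' : ∀ x, ∀ t : ℝ, Φ (x - t • e) = Φ x := fun x t => by
    have h := hΦ.inv x (-t)
    rwa [neg_smul, ← sub_eq_add_neg] at h
  set μ : ℝ := Φ x1 / 2 with hμ
  have hμ0 : 0 < μ := by positivity
  obtain ⟨ε, hε, hεb⟩ := Metric.isOpen_iff.1 hΩ.isOpen x1 hx1Ω
  obtain ⟨δ, hδ, hδb⟩ := Metric.isOpen_iff.1 (isOpen_lt continuous_const hΦ.cont :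
    IsOpen {x | μ < Φ x}) x1 (by show μ < Φ x1; rw [hμ]; linarith)
  obtain ⟨R, hR⟩ := hΩ.bdd
  obtain ⟨D, hD⟩ := dw_bdd hΩ hne
  have hr0 := hΩ.r0pos
  set r : ℝ := min r0 (min ε δ) with hr
  have hrp : 0 < r := lt_min hr0 (lt_min hε hδ)
  have hr1 : r ≤ r0 := min_le_left _ _
  have hr2 : r ≤ ε := (min_le_right _ _).trans (min_le_left _ _)
  have hr3 : r ≤ δ := (min_le_right _ _).trans (min_le_right _ _)
  have hκ : 0 ≤ ka p := by
    unfold ka
    have : 0 < p - 2 := by linarith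
    positivity
  obtain ⟨C, c2, hC, hc2, hexp⟩ := expw hp n (L := 2 * |R| / r) (by positivity)
  have key : ∀ y, ball y r ⊆ Ω → ∀ x, c2 * (μ / r) * (r - ‖x - y‖) ≤ Φ x := by
    intro y hy x
    have hyΩ : y ∈ Ω := hy (mem_ball_self hrp)
    have h1 := hexp c e (ka p) hc hκ Ω Φ hΩ.isOpen hΩ.convex
      (fun z hz t _ => by
        have := hΩ.inv z hz (-t)
        rwa [neg_smul, ← sub_eq_add_neg] at this) hΦ.sup
      (fun z t _ => (hinv' z t).ge) (x1 + (⟪y, e⟫ - ⟪x1, e⟫) • e) y r μ hrp hμ0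
      (ball_inv hΩ ((ball_subset_ball hr2).trans hεb) _) hy
      (by
        have e1 : x1 + (⟪y, e⟫ - ⟪x1, e⟫) • e - y =
            (x1 - ⟪x1, e⟫ • e) - (y - ⟪y, e⟫ • e) := by
          rw [sub_smul]
          abel
        rw [e1, div_mul_cancel₀ _ hrp.ne']
        have h2 := norm_sub_le (x1 - ⟪x1, e⟫ • e) (y - ⟪y, e⟫ • e)
        have h3 := hR x1 hx1Ω
        have h4 := hR y hyΩ
        have h5 := le_abs_self R
        linarith)
      (by
        intro z hz
        have h2 := hδb (show z - (⟪y, e⟫ - ⟪x1, e⟫) • e ∈ ball x1 δ from by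
          rw [mem_ball, dist_eq_norm]
          have e1 : z - (⟪y, e⟫ - ⟪x1, e⟫) • e - x1 =
            z - (x1 + (⟪y, e⟫ - ⟪x1, e⟫) • e) := by abel
          rw [e1]
          linarith)
        have h3 : μ < Φ (z - (⟪y, e⟫ - ⟪x1, e⟫) • e) := h2
        rw [hinv'] at h3
        exact h3.le) (C * r ^ p / μ ^ (p - 2)) le_rfl (x - (c * (C * r ^ p / μ ^ (p - 2))) • e)
    rw [hinv', sub_sub_sub_cancel_right] at h1
    exact h1
  have hA : 0 < c2 * (μ / r) := by positivity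
  have hDp : 0 < max D 1 := lt_of_lt_of_le one_pos (le_max_right _ _)
  refine ⟨min (c2 * (μ / r)) (c2 * μ / max D 1), lt_min hA (by positivity), fun x => ?_⟩
  by_cases hx : x ∈ Ω
  · obtain ⟨w, ν, hw, hν, hb, hxw⟩ := near hΩ hne hx
    have hd := dw_nonneg (Ω := Ω) x
    rcases le_total (dw Ω x) r with h | h
    · have h1 := key (w + r • ν) (by
        intro z hz
        apply hb
        rw [mem_ball] at hz ⊢
        have h2 : dist z (w + r0 • ν) ≤ dist z (w + r • ν) + dist (w + r • ν) (w + r0 • ν) :=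
          dist_triangle _ _ _
        have h3 : dist (w + r • ν) (w + r0 • ν) = r0 - r := by
          rw [dist_eq_norm]
          have e1 : w + r • ν - (w + r0 • ν) = (r - r0) • ν := by
            rw [sub_smul]
            abel
          rw [e1, norm_smul, hν, mul_one, Real.norm_eq_abs, abs_of_nonpos (by linarith)]
          ring
        linarith) x
      have e2 : x - (w + r • ν) = (dw Ω x - r) • ν := by
        nth_rewrite 1 [hxw]
        rw [sub_smul]
        abel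
      rw [e2, norm_smul, hν, mul_one, Real.norm_eq_abs, abs_of_nonpos (by linarith)] at h1
      have e3 : r - -(dw Ω x - r) = dw Ω x := by ring
      rw [e3] at h1
      exact (mul_le_mul_of_nonneg_right (min_le_left _ _) hd).trans h1
    · have h1 := key x ((ball_subset_ball h).trans (ball_dw hΩ)) x
      rw [sub_self, norm_zero, sub_zero] at h1
      have e3 : c2 * (μ / r) * r = c2 * μ := by field_simp
      rw [e3] at h1
      calc min (c2 * (μ / r)) (c2 * μ / max D 1) * dw Ω x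
          ≤ c2 * μ / max D 1 * dw Ω x := mul_le_mul_of_nonneg_right (min_le_right _ _) hd
        _ ≤ c2 * μ / max D 1 * max D 1 :=
            mul_le_mul_of_nonneg_left ((hD x).trans (le_max_left _ _)) (by positivity)
        _ = c2 * μ := div_mul_cancel₀ _ hDp.ne'
        _ ≤ Φ x := h1
  · have h1 : dw Ω x = 0 := infDist_zero_of_mem hx
    rw [h1, mul_zero]
    exact hΦ.nn x

end Pool.Agent.TWC
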