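import Pool.Agent.TWC.Defs3
import Pool.Agent.TWC.PRO
import Pool.Agent.TWC.KE
import Pool.Agent.TWC.PHI

/-!
# TWC SLO: slopes of `log W` in the axial direction

`far_ratio`: far to the left `W ≥ k dw ≥ (k/C) Φ` (`left`; `Φ ≤ C dw` by `lin_wall` applied to `Φ`).
`far_slope`: let `lam1 > 0`, `L = max 1 (log(C/k)/lam1)`, `<x,e> ≤ -R - L - 1`, `0 < δ ≤ 1`: `log_conc` on the segment
from `x` to `x + L e` (`s = δ/L`): `W (x + δ e) ≥ W x^(1-δ/L) W (x + L e)^(δ/L)` and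
`W (x + L e) ≥ (k/C) Φ x ≥ (k/C) W x`. So `W (x + δ e) ≥ (k/C)^(δ/L) W x ≥ exp(-lam1 δ) W x`.
`far_strict`: if `exp(-lam L0) < k/C`, `<x,e> ≤ -R`, `x ∈ Ω`:
`exp(-lam L0) W (x - L0 e) < (k/C) W (x - L0 e) ≤ (k/C) Φ x ≤ W x` (`W (x - L0 e) > 0`).
`max_slope`: `x` a maximum point of `W` with `W x > 0`. By `gd_max`, `gd_cont`: gradients `P'` at points `y'`
near `x` satisfy `|P'| ≤ lam1 W x/2 ≤ lam1 W y'`. For `y` near `x`, small `δ > 0`, `y' = y + δ e`, `P'` the gradient at `y'`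
(`gd_exists`): `W(y)^q ≤ W(y')^q + q W(y')^(q-1) <P',y-y'> ≤ W(y')^q (1 + q δ |P'|/W(y'))`, so (power `m`,
`1 + a ≤ exp a`, `q m = 1`) `W y ≤ W y' exp(δ |P'|/W(y')) ≤ exp(lam1 δ) W y'`.
-/

open Set Metric Filter Topology
open scoped RealInnerProductSpace

noncomputable section

namespace Pool.Agent.TWC

variable {n : ℕ} {p c : ℝ} {e : E n} {r0 : ℝ} {Ω : Set (E n)} {Φ W : E n → ℝ}

private theorem SLO_dw_pos (hΩ : Tube e r0 Ω) (hne : (Ωᶜ).Nonempty) {x : E n} (hx : x ∈ Ω) :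
    0 < dw Ω x :=
  (hΩ.isOpen.isClosed_compl.notMem_iff_infDist_pos hne).1 fun h => h hx

private theorem SLO_base (hp : 2 < p) (hΩ : Tube e r0 Ω) (hne : (Ωᶜ).Nonempty)
    (hΦ : Prof p c e Ω Φ) (hW : WP p c e Ω Φ W) :
    ∃ R K : ℝ, 0 < K ∧ (∀ x ∈ Ω, ⟪x, e⟫ ≤ -R → 0 < W x) ∧
      ∀ x, ⟪x, e⟫ ≤ -R → K * Φ x ≤ W x := by
  obtain ⟨R, k, hk, hR⟩ := hW.left
  obtain ⟨C0, hC0, hb⟩ := phi_bdd hΩ hΦ
  obtain ⟨C, hC, hl⟩ := lin_wall (c := c) (e := e) hp hΩ hne C0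
  refine ⟨R, k / C, div_pos hk hC,
    fun x hx hxR => (mul_pos hk (SLO_dw_pos hΩ hne hx)).trans_le (hR x hxR), fun x hxR => ?_⟩
  have h1 := hl Φ hΦ.sub hΦ.off hb x
  have h2 := hR x hxR
  calc k / C * Φ x ≤ k / C * (C * dw Ω x) := by gcongr
    _ = k * dw Ω x := by field_simp
    _ ≤ W x := h2

private theorem SLO_inner (hΩ : Tube e r0 Ω) (x : E n) (t : ℝ) :
    ⟪x + t • e, e⟫ = ⟪x, e⟫ + t := by
  rw [inner_add_left, real_inner_smul_left, real_inner_self_eq_norm_sq, hΩ.unit]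
  ring

theorem far_strict (hp : 2 < p) (hΩ : Tube e r0 Ω) (hne : (Ωᶜ).Nonempty) (hΦ : Prof p c e Ω Φ)
    (hW : WP p c e Ω Φ W) {lam : ℝ} (hlam : 0 < lam) :
    ∃ L0 R : ℝ, 0 < L0 ∧ ∀ x ∈ Ω, ⟪x, e⟫ ≤ -R →
      Real.exp (-(lam * L0)) * W (x - L0 • e) < W x := by
  obtain ⟨R, K, hK, hpos, hle⟩ := SLO_base hp hΩ hne hΦ hW
  refine ⟨|Real.log K| / lam + 1, R, by positivity, ?_⟩
  set L0 := |Real.log K| / lam + 1 with hL0
  have hL0p : 0 < L0 := by positivity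
  have hexp : Real.exp (-(lam * L0)) < K := by
    have h1 : lam * L0 = |Real.log K| + lam := by
      rw [hL0]
      field_simp
    calc Real.exp (-(lam * L0)) < Real.exp (Real.log K) := by
          rw [Real.exp_lt_exp, h1]
          have := neg_abs_le (Real.log K)
          linarith
      _ = K := Real.exp_log hK
  intro x hx hxR
  have hx' : x - L0 • e ∈ Ω := by
    have := hΩ.inv x hx (-L0)
    rwa [neg_smul, ← sub_eq_add_neg] at this
  have hin : ⟪x - L0 • e, e⟫ ≤ -R := by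
    have := SLO_inner hΩ x (-L0)
    rw [neg_smul, ← sub_eq_add_neg] at this
    rw [this]
    linarith
  have h1 : 0 < W (x - L0 • e) := hpos _ hx' hin
  have h2 : Φ (x - L0 • e) = Φ x := by
    have := hΦ.inv x (-L0)
    rwa [neg_smul, ← sub_eq_add_neg] at this
  calc Real.exp (-(lam * L0)) * W (x - L0 • e) < K * W (x - L0 • e) :=
        mul_lt_mul_of_pos_right hexp h1
    _ ≤ K * Φ (x - L0 • e) := mul_le_mul_of_nonneg_left (hW.lePhi _) hK.le
    _ = K * Φ x := by rw [h2]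
    _ ≤ W x := hle x hxR

theorem far_slope (hp : 2 < p) (hΩ : Tube e r0 Ω) (hne : (Ωᶜ).Nonempty) (hΦ : Prof p c e Ω Φ)
    (hW : WP p c e Ω Φ W) {lam1 : ℝ} (hlam1 : 0 < lam1) :
    ∃ R : ℝ, ∀ x ∈ Ω, ⟪x, e⟫ ≤ -R → ∀ δ : ℝ, 0 < δ → δ ≤ 1 →
      W x ≤ Real.exp (lam1 * δ) * W (x + δ • e) := by
  obtain ⟨R, K, hK, hpos, hle⟩ := SLO_base hp hΩ hne hΦ hW
  set L := |Real.log K| / lam1 + 1 with hL
  have hL1 : 1 ≤ L := by
    have : 0 ≤ |Real.log K| / lam1 := by positivity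
    linarith
  have hLp : 0 < L := by linarith
  have hexp : Real.exp (-(lam1 * L)) ≤ K := by
    have h1 : lam1 * L = |Real.log K| + lam1 := by
      rw [hL]
      field_simp
    calc Real.exp (-(lam1 * L)) ≤ Real.exp (Real.log K) := by
          rw [Real.exp_le_exp, h1]
          have := neg_abs_le (Real.log K)
          linarith
      _ = K := Real.exp_log hK
  refine ⟨R + L, fun x hx hxR δ hδ hδ1 => ?_⟩
  have hx' : x + L • e ∈ Ω := hΩ.inv x hx L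
  have hin : ⟪x + L • e, e⟫ ≤ -R := by
    rw [SLO_inner hΩ]
    linarith
  have hWx : 0 < W x := hpos x hx (by linarith)
  have hWx' : 0 < W (x + L • e) := hpos _ hx' hin
  have hs0 : 0 ≤ δ / L := by positivity
  have hs1 : δ / L ≤ 1 := by
    rw [div_le_one hLp]
    linarith
  have h1 := log_conc hp hW.qs (x := x) (y := x + L • e) hWx hWx' hs0 hs1
  have h2 : (1 - δ / L) • x + (δ / L) • (x + L • e) = x + δ • e := by
    rw [smul_add, ← add_assoc, ← add_smul, smul_smul, div_mul_cancel₀ _ hLp.ne', sub_add_cancel,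
      one_smul]
  rw [h2] at h1
  have h3 : K * W x ≤ W (x + L • e) := by
    calc K * W x ≤ K * Φ x := mul_le_mul_of_nonneg_left (hW.lePhi _) hK.le
      _ = K * Φ (x + L • e) := by rw [hΦ.inv x L]
      _ ≤ W (x + L • e) := hle _ hin
  have h4 : Real.exp (-(lam1 * L)) * W x ≤ W (x + L • e) :=
    (mul_le_mul_of_nonneg_right hexp hWx.le).trans h3
  have h5 : (Real.exp (-(lam1 * L)) * W x) ^ (δ / L) ≤ W (x + L • e) ^ (δ / L) :=
    Real.rpow_le_rpow (by positivity) h4 hs0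
  have h6 : W x ^ (1 - δ / L) * (Real.exp (-(lam1 * L)) * W x) ^ (δ / L) =
      Real.exp (-(lam1 * δ)) * W x := by
    rw [Real.mul_rpow (Real.exp_pos _).le hWx.le, ← Real.exp_mul]
    have h7 : -(lam1 * L) * (δ / L) = -(lam1 * δ) := by field_simp
    rw [h7, mul_left_comm, ← Real.rpow_add hWx, sub_add_cancel, Real.rpow_one]
  have h8 : Real.exp (-(lam1 * δ)) * W x ≤ W (x + δ • e) := by
    rw [← h6]
    exact (mul_le_mul_of_nonneg_left h5 (by positivity)).trans h1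
  calc W x = Real.exp (lam1 * δ) * (Real.exp (-(lam1 * δ)) * W x) := by
        rw [← mul_assoc, ← Real.exp_add, add_neg_cancel, Real.exp_zero, one_mul]
    _ ≤ Real.exp (lam1 * δ) * W (x + δ • e) :=
        mul_le_mul_of_nonneg_left h8 (Real.exp_pos _).le

theorem max_slope (hp : 2 < p) (hΩ : Tube e r0 Ω) (hW : WP p c e Ω Φ W) {lam1 : ℝ}
    (hlam1 : 0 < lam1) {x : E n} (hx : 0 < W x) (hmax : ∀ y, W y ≤ W x) :
    ∃ r δ0 : ℝ, 0 < r ∧ 0 < δ0 ∧ ∀ y ∈ ball x r, ∀ δ : ℝ, 0 < δ → δ ≤ δ0 →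
      W y ≤ Real.exp (lam1 * δ) * W (y + δ • e) := by
  have hgd : Gd p (Po W) W x 0 := gd_max hp hW.qs hx fun y _ => hmax y
  obtain ⟨δ1, hδ1, h1⟩ := gd_cont hp hW.qs hx hgd (ε := lam1 * (W x / 2)) (by positivity)
  obtain ⟨δ2, hδ2, h2⟩ := Metric.continuousAt_iff.1 hW.cont.continuousAt (W x / 2) (half_pos hx)
  have hr : 0 < min δ1 δ2 / 2 := half_pos (lt_min hδ1 hδ2)
  refine ⟨min δ1 δ2 / 2, min δ1 δ2 / 2, hr, hr, fun y hy δ hδ hδ0 => ?_⟩
  have hyn : ‖y - x‖ < min δ1 δ2 / 2 := by rwa [mem_ball_iff_norm] at hy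
  have hbig : ∀ z : E n, ‖z - x‖ < δ2 → W x / 2 < W z := by
    intro z hz
    have h3 := h2 (by rwa [dist_eq_norm] : dist z x < δ2)
    rw [Real.dist_eq] at h3
    have := (abs_lt.1 h3).1
    linarith
  have hm1 : min δ1 δ2 ≤ δ1 := min_le_left _ _
  have hm2 : min δ1 δ2 ≤ δ2 := min_le_right _ _
  have hy2 : W x / 2 < W y := hbig y (by linarith)
  set y' := y + δ • e with hy'
  have hy'n : ‖y' - x‖ < min δ1 δ2 := by
    have h3 : y' - x = (y - x) + δ • e := by rw [hy']; abel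
    rw [h3]
    refine (norm_add_le _ _).trans_lt ?_
    rw [norm_smul, hΩ.unit, mul_one, Real.norm_eq_abs, abs_of_pos hδ]
    linarith
  have hy'2 : W x / 2 < W y' := hbig y' (by linarith)
  have hyP : y ∈ Po W := (half_pos hx).trans hy2
  have hy'P : y' ∈ Po W := (half_pos hx).trans hy'2
  have hWy : 0 < W y := hyP
  have hWy' : 0 < W y' := hy'P
  obtain ⟨P', hP'⟩ := gd_exists hp hW.qs hy'P
  have h3 := h1 y' P' (by linarith) hP'
  rw [sub_zero] at h3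
  have h4 := hP' y hyP
  have hq : 0 < qq p := by
    unfold qq
    exact div_pos (by linarith) (by linarith)
  have h5 : ⟪P', y - y'⟫ ≤ lam1 * δ * W y' := by
    have h6 : y - y' = (-δ) • e := by
      rw [hy', neg_smul]
      abel
    rw [h6]
    refine (real_inner_le_norm _ _).trans ?_
    rw [norm_smul, hΩ.unit, mul_one, Real.norm_eq_abs, abs_neg, abs_of_pos hδ]
    calc ‖P'‖ * δ ≤ lam1 * (W x / 2) * δ := mul_le_mul_of_nonneg_right h3 hδ.le
      _ ≤ lam1 * W y' * δ := by gcongr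
      _ = lam1 * δ * W y' := by ring
  have h7 : W y ^ qq p ≤ (Real.exp (lam1 * δ) * W y') ^ qq p := by
    rw [Real.mul_rpow (Real.exp_pos _).le hWy'.le, ← Real.exp_mul]
    have h8 : qq p * W y' ^ (qq p - 1) * ⟪P', y - y'⟫ ≤
        lam1 * δ * qq p * W y' ^ qq p := by
      have h9 : W y' ^ qq p = W y' ^ (qq p - 1) * W y' := by
        rw [← Real.rpow_add_one hWy'.ne', sub_add_cancel]
      have h10 : 0 ≤ W y' ^ (qq p - 1) := Real.rpow_nonneg hWy'.le _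
      rw [h9]
      calc qq p * W y' ^ (qq p - 1) * ⟪P', y - y'⟫
          ≤ qq p * W y' ^ (qq p - 1) * (lam1 * δ * W y') :=
            mul_le_mul_of_nonneg_left h5 (by positivity)
        _ = lam1 * δ * qq p * (W y' ^ (qq p - 1) * W y') := by ring
    have h11 := Real.add_one_le_exp (lam1 * δ * qq p)
    have h12 : 0 ≤ W y' ^ qq p := Real.rpow_nonneg hWy'.le _
    calc W y ^ qq p ≤ W y' ^ qq p + lam1 * δ * qq p * W y' ^ qq p := by linarith
      _ = (lam1 * δ * qq p + 1) * W y' ^ qq p := by ring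
      _ ≤ Real.exp (lam1 * δ * qq p) * W y' ^ qq p := mul_le_mul_of_nonneg_right h11 h12
  exact (Real.rpow_le_rpow_iff hWy.le (by positivity) hq).1 h7

end Pool.Agent.TWC
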