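import Pool.Agent.TWC.GAPS
import Pool.Agent.TWC.CLF
import Pool.Agent.TWC.SLO

/-!
# TWC FPT: on the slow set `W ≤ exp(lam1 δ) ψ(· + δ e)`

`lam1 > 0` arbitrary. `R` from `far_slope`. For `x ∈ FS` with `<x,e> ≤ -R`, `0 < δ ≤ 1`:
`W x ≤ exp(lam1 δ) W (x + δ e) ≤ exp(lam1 δ) ψ (x + δ e)`. The set `Q = {x ∈ FS : <x,e> ≥ -R}` has compact closure
(`fs_compact`). Each `x ∈ closure Q` has `r, δ1 > 0` with `W y ≤ exp(lam1 δ) ψ (y + δ e)` for `y ∈ Ω ∩ ball x r`,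
`0 < δ ≤ δ1`: by `clf`:
- `x ∈ Wl`: `gap_wall` (`σ = -δ`), `W y ≤ (1-η) ψ (y + δ e)`;
- `x ∈ FS` and `x ∈ Nn W`: `gap_int`;
- `x ∈ FS`, `x ∉ Nn W`: then `W y ≤ W x` for all `y`, `max_slope`.
Finite subcover: a common `δ0`.
-/

open Set Metric Filter Topology
open scoped RealInnerProductSpace

noncomputable section

namespace Pool.Agent.TWC

variable {n : ℕ} {p c : ℝ} {e : E n} {r0 : ℝ} {Ω : Set (E n)} {Φ W ψ : E n → ℝ}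

private theorem FPT_gap {lam1 : ℝ} (hlam1 : 0 < lam1) (hψ : ∀ x, 0 ≤ ψ x) {x : E n}
    (h : Gap e Ω W ψ x) : ∃ r δ1 : ℝ, 0 < r ∧ 0 < δ1 ∧ ∀ y ∈ Ω ∩ ball x r, ∀ δ : ℝ, 0 < δ →
      δ ≤ δ1 → W y ≤ Real.exp (lam1 * δ) * ψ (y + δ • e) := by
  obtain ⟨r, η, s0, hr, hη, hη1, hs0, h⟩ := h
  refine ⟨r, s0, hr, hs0, fun y hy δ hδ hδ1 => ?_⟩
  have h1 := h y hy (-δ) (by rw [abs_neg, abs_of_pos hδ]; exact hδ1)
  rw [neg_smul, sub_neg_eq_add] at h1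
  refine h1.trans (mul_le_mul_of_nonneg_right ?_ (hψ _))
  have h2 : (1 : ℝ) ≤ Real.exp (lam1 * δ) := Real.one_le_exp (by positivity)
  linarith

theorem fpt (hp : 2 < p) (hc : 0 < c) (hΩ : Tube e r0 Ω) (hne : (Ωᶜ).Nonempty)
    (hΦ : Prof p c e Ω Φ) (hW : WP p c e Ω Φ W) (hψ : Above p c e Ω W ψ)
    (hlt : ∀ x ∈ Nn W, W x < ψ x) {lam L0 lam1 : ℝ} (hL0 : 0 < L0) (hlam1 : 0 < lam1) :
    ∃ δ0 > 0, ∀ δ : ℝ, 0 < δ → δ ≤ δ0 → ∀ x ∈ FS e W lam L0,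
      W x ≤ Real.exp (lam1 * δ) * ψ (x + δ • e) := by
  obtain ⟨R, hR⟩ := far_slope hp hΩ hne hΦ hW hlam1
  have hloc : ∀ x ∈ closure (FS e W lam L0), ∃ r δ1 : ℝ, 0 < r ∧ 0 < δ1 ∧
      ∀ y ∈ Ω ∩ ball x r, ∀ δ : ℝ, 0 < δ → δ ≤ δ1 →
        W y ≤ Real.exp (lam1 * δ) * ψ (y + δ • e) := by
    intro x hx
    rcases clf hp hc hΩ hne hW hL0 hx with h | h
    · by_cases hn : x ∈ Nn W
      · exact FPT_gap hlam1 hψ.sup.nn (gap_int hW hψ h.1 (hlt x hn))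
      · have hmax : ∀ y, W y ≤ W x := by
          intro y
          by_contra hc'
          push Not at hc'
          exact hn ⟨h.1, y, hc'⟩
        obtain ⟨r, δ1, hr, hδ1, h1⟩ := max_slope hp hΩ hW hlam1 h.1 hmax
        refine ⟨r, δ1, hr, hδ1, fun y hy δ hδ hδ' => (h1 y hy.2 δ hδ hδ').trans ?_⟩
        exact mul_le_mul_of_nonneg_left (hψ.le _) (Real.exp_pos _).le
    · exact FPT_gap hlam1 hψ.sup.nn (gap_wall hp hc hΩ hne hΦ hW hψ hlt h)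
  set Q : Set (E n) := {x | x ∈ FS e W lam L0 ∧ -R ≤ ⟪x, e⟫} with hQ
  have hcomp : IsCompact (closure Q) :=
    fs_compact hΩ hW lam L0 R (fun x hx => hx.1.1) (fun x hx => hx.2)
  have hsub : closure Q ⊆ closure (FS e W lam L0) := closure_mono fun x hx => hx.1
  have key : ∃ δ0 > 0, ∀ δ : ℝ, 0 < δ → δ ≤ δ0 → ∀ y ∈ closure Q ∩ Ω,
      W y ≤ Real.exp (lam1 * δ) * ψ (y + δ • e) := by
    refine hcomp.induction_on (p := fun S => ∃ δ0 > 0, ∀ δ : ℝ, 0 < δ → δ ≤ δ0 → ∀ y ∈ S ∩ Ω,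
      W y ≤ Real.exp (lam1 * δ) * ψ (y + δ • e)) ?_ ?_ ?_ ?_
    · exact ⟨1, one_pos, fun δ _ _ y hy => absurd hy.1 (notMem_empty _)⟩
    · rintro S T hST ⟨δ0, h0, h1⟩
      exact ⟨δ0, h0, fun δ hδ hδ' y hy => h1 δ hδ hδ' y ⟨hST hy.1, hy.2⟩⟩
    · rintro S T ⟨δ0, h0, h1⟩ ⟨δ2, h2, h3⟩
      refine ⟨min δ0 δ2, lt_min h0 h2, fun δ hδ hδ' y hy => ?_⟩
      rcases hy.1 with h | h
      · exact h1 δ hδ (hδ'.trans (min_le_left _ _)) y ⟨h, hy.2⟩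
      · exact h3 δ hδ (hδ'.trans (min_le_right _ _)) y ⟨h, hy.2⟩
    · intro x hx
      obtain ⟨r, δ1, hr, hδ1, h1⟩ := hloc x (hsub hx)
      exact ⟨ball x r, mem_nhdsWithin_of_mem_nhds (ball_mem_nhds x hr), δ1, hδ1,
        fun δ hδ hδ' y hy => h1 y ⟨hy.2, hy.1⟩ δ hδ hδ'⟩
  obtain ⟨δ0, h0, h1⟩ := key
  refine ⟨min δ0 1, lt_min h0 one_pos, fun δ hδ hδ' x hx => ?_⟩
  have hxΩ : x ∈ Ω := po_sub hW hx.1
  by_cases hxR : ⟪x, e⟫ ≤ -R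
  · exact (hR x hxΩ hxR δ hδ (hδ'.trans (min_le_right _ _))).trans
      (mul_le_mul_of_nonneg_left (hψ.le _) (Real.exp_pos _).le)
  · push Not at hxR
    exact h1 δ hδ (hδ'.trans (min_le_left _ _)) x ⟨subset_closure ⟨hx, hxR.le⟩, hxΩ⟩

end Pool.Agent.TWC
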