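import Pool.Agent.TWC.Defs

/-!
# TWC YF: the explicit exact family

`y0 = M0^(-(p-2)) > 0`, `y τ = 1 + (y0 - 1) e^(-τ)` (positive for `τ ≥ 0`, `y' = 1 - y`),
`M = y^(-ka p)`, `σ = σ0 + c log (y/y0)`. Then `M^(p-2) = 1/y` (`ka p = 1/(p-2)`),
`M' = -ka p y^(-ka p - 1) (1 - y) = ka p M (1 - 1/y) = ka p M (1 - M^(p-2))` and
`σ' = c (1-y)/y = c (M^(p-2) - 1) = -c (1 - M^(p-2))`. As `τ → ∞`: `y → 1`, `M → 1`,
`σ → σ0 - c log y0 = σ0 + c (p-2) log M0`. `y` is between `y0` and `1` (monotone), so `M` is between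
`M0` and `1` and `σ` is between `σ0` and its limit.
-/

open Set Metric Filter Topology

noncomputable section

namespace Pool.Agent.TWC

theorem yf {p : ℝ} (hp : 2 < p) (c σ0 : ℝ) {M0 : ℝ} (hM0 : 0 < M0) :
    ∃ M σ : ℝ → ℝ, M 0 = M0 ∧ σ 0 = σ0 ∧ (∀ τ, 0 ≤ τ → 0 < M τ) ∧ ContinuousOn M (Ici 0) ∧
      ContinuousOn σ (Ici 0) ∧
      (∀ τ, 0 < τ → HasDerivAt M (ka p * M τ * (1 - M τ ^ (p - 2))) τ) ∧
      (∀ τ, 0 < τ → HasDerivAt σ (-c * (1 - M τ ^ (p - 2))) τ) ∧
      Tendsto M atTop (𝓝 1) ∧ Tendsto σ atTop (𝓝 (σ0 + c * (p - 2) * Real.log M0)) ∧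
      (∀ τ, 0 ≤ τ → min M0 1 ≤ M τ ∧ M τ ≤ max M0 1) ∧
      (∀ τ, 0 ≤ τ → |σ τ - σ0| ≤ |c * (p - 2) * Real.log M0|) := by
  have hp2 : 0 < p - 2 := by linarith
  have hka : ka p * (p - 2) = 1 := by
    unfold ka
    field_simp
  have hka0 : 0 < ka p := by
    unfold ka
    positivity
  obtain ⟨y0, hy0⟩ : ∃ y0 : ℝ, y0 = M0 ^ (-(p - 2)) := ⟨_, rfl⟩
  have hy0pos : 0 < y0 := by
    rw [hy0]
    positivity
  have hM0y : y0 ^ (-(ka p)) = M0 := by
    rw [hy0, ← Real.rpow_mul hM0.le]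
    have : -(p - 2) * -(ka p) = 1 := by linarith
    rw [this, Real.rpow_one]
  have hlog0 : Real.log y0 = -((p - 2) * Real.log M0) := by
    rw [hy0, Real.log_rpow hM0]
    ring
  obtain ⟨y, hy⟩ : ∃ y : ℝ → ℝ, ∀ τ, y τ = 1 + (y0 - 1) * Real.exp (-τ) := ⟨_, fun _ => rfl⟩
  have hy' : y = fun τ => 1 + (y0 - 1) * Real.exp (-τ) := funext hy
  have hexp : ∀ τ : ℝ, 0 ≤ τ → Real.exp (-τ) ≤ 1 := fun τ hτ => Real.exp_le_one_iff.2 (by linarith)
  have hexp0 : ∀ τ : ℝ, 0 < Real.exp (-τ) := fun τ => Real.exp_pos _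
  have hyz : y 0 = y0 := by
    rw [hy]
    simp
  have hyge : ∀ τ, 0 ≤ τ → min y0 1 ≤ y τ ∧ y τ ≤ max y0 1 := by
    intro τ hτ
    rw [hy]
    have h1 := hexp τ hτ
    have h2 := hexp0 τ
    rcases le_total y0 1 with h3 | h3
    · rw [min_eq_left h3, max_eq_right h3]
      constructor <;> nlinarith
    · rw [min_eq_right h3, max_eq_left h3]
      constructor <;> nlinarith
  have hypos : ∀ τ, 0 ≤ τ → 0 < y τ := fun τ hτ =>
    lt_of_lt_of_le (lt_min hy0pos one_pos) (hyge τ hτ).1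
  have hcont : Continuous y := by
    rw [hy']
    fun_prop
  have hder : ∀ τ, HasDerivAt y (1 - y τ) τ := by
    intro τ
    have h1 : HasDerivAt (fun τ : ℝ => Real.exp (-τ)) (Real.exp (-τ) * (-1)) τ :=
      (hasDerivAt_neg τ).exp
    have h2 := (h1.const_mul (y0 - 1)).const_add 1
    have h3 : 1 - y τ = (y0 - 1) * (Real.exp (-τ) * (-1)) := by
      rw [hy]
      ring
    rw [h3, hy']
    exact h2
  have hlim : Tendsto y atTop (𝓝 1) := by
    have h1 : Tendsto (fun τ : ℝ => 1 + (y0 - 1) * Real.exp (-τ)) atTop (𝓝 (1 + (y0 - 1) * 0)) :=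
      (Real.tendsto_exp_neg_atTop_nhds_zero.const_mul (y0 - 1)).const_add 1
    rw [hy']
    simpa using h1
  have hMp : ∀ τ, 0 ≤ τ → (y τ ^ (-(ka p))) ^ (p - 2) = (y τ)⁻¹ := by
    intro τ hτ
    rw [← Real.rpow_mul (hypos τ hτ).le]
    have : -(ka p) * (p - 2) = -1 := by linarith
    rw [this, Real.rpow_neg_one]
  have hlogy : ∀ τ, 0 ≤ τ → |Real.log (y τ) - Real.log y0| ≤ |Real.log y0| := by
    intro τ hτ
    obtain ⟨h1, h2⟩ := hyge τ hτ
    rcases le_total y0 1 with h3 | h3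
    · rw [min_eq_left h3] at h1
      rw [max_eq_right h3] at h2
      have h4 := Real.log_le_log hy0pos h1
      have h5 := Real.log_nonpos (hypos τ hτ).le h2
      have h6 := Real.log_nonpos hy0pos.le h3
      rw [abs_of_nonneg (by linarith), abs_of_nonpos h6]
      linarith
    · rw [min_eq_right h3] at h1
      rw [max_eq_left h3] at h2
      have h4 := Real.log_le_log (hypos τ hτ) h2
      have h5 := Real.log_nonneg h1
      have h6 := Real.log_nonneg h3
      rw [abs_of_nonpos (by linarith), abs_of_nonneg h6]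
      linarith
  refine ⟨fun τ => y τ ^ (-(ka p)), fun τ => σ0 + c * (Real.log (y τ) - Real.log y0), ?_, ?_, ?_,
    ?_, ?_, ?_, ?_, ?_, ?_, ?_, ?_⟩
  · show y 0 ^ (-(ka p)) = M0
    rw [hyz, hM0y]
  · show σ0 + c * (Real.log (y 0) - Real.log y0) = σ0
    rw [hyz]
    ring
  · intro τ hτ
    have := hypos τ hτ
    show 0 < y τ ^ (-(ka p))
    positivity
  · exact hcont.continuousOn.rpow_const fun τ hτ => Or.inl (hypos τ hτ).ne'
  · exact continuousOn_const.add (continuousOn_const.mul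
      ((hcont.continuousOn.log fun τ hτ => (hypos τ hτ).ne').sub continuousOn_const))
  · intro τ hτ
    have h0 := hypos τ hτ.le
    have h1 := (hder τ).rpow_const (p := -(ka p)) (Or.inl h0.ne')
    have h2 : (1 - y τ) * -(ka p) * y τ ^ (-(ka p) - 1) =
        ka p * y τ ^ (-(ka p)) * (1 - (y τ ^ (-(ka p))) ^ (p - 2)) := by
      rw [hMp τ hτ.le, Real.rpow_sub_one h0.ne']
      field_simp
      ring
    rw [h2] at h1
    exact h1
  · intro τ hτ
    have h0 := hypos τ hτ.le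
    have h1 := (((hder τ).log h0.ne').sub_const (Real.log y0)).const_mul c
    have h3 := h1.const_add σ0
    have h2 : c * ((1 - y τ) / y τ) = -c * (1 - (y τ ^ (-(ka p))) ^ (p - 2)) := by
      rw [hMp τ hτ.le]
      field_simp
      ring
    rw [h2] at h3
    exact h3
  · have h1 := hlim.rpow_const (p := -(ka p)) (Or.inl one_ne_zero)
    rw [Real.one_rpow] at h1
    exact h1
  · have h1 := ((((hlim.log one_ne_zero).sub_const (Real.log y0)).const_mul c).const_add σ0)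
    rw [Real.log_one, hlog0] at h1
    have h2 : σ0 + c * (0 - -((p - 2) * Real.log M0)) = σ0 + c * (p - 2) * Real.log M0 := by ring
    rw [h2] at h1
    rw [hlog0]
    exact h1
  · intro τ hτ
    obtain ⟨h1, h2⟩ := hyge τ hτ
    have hn : -(ka p) ≤ 0 := by linarith
    show min M0 1 ≤ y τ ^ (-(ka p)) ∧ y τ ^ (-(ka p)) ≤ max M0 1
    rcases le_total y0 1 with h3 | h3
    · rw [min_eq_left h3] at h1
      rw [max_eq_right h3] at h2
      have h4 := Real.rpow_le_rpow_of_nonpos hy0pos h1 hn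
      have h5 := Real.rpow_le_rpow_of_nonpos (hypos τ hτ) h2 hn
      rw [hM0y] at h4
      rw [Real.one_rpow] at h5
      exact ⟨le_trans (min_le_right _ _) h5, le_trans h4 (le_max_left _ _)⟩
    · rw [min_eq_right h3] at h1
      rw [max_eq_left h3] at h2
      have h4 := Real.rpow_le_rpow_of_nonpos (hypos τ hτ) h2 hn
      have h5 := Real.rpow_le_rpow_of_nonpos one_pos h1 hn
      rw [hM0y] at h4
      rw [Real.one_rpow] at h5
      exact ⟨le_trans (min_le_left _ _) h4, le_trans h5 (le_max_right _ _)⟩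
  · intro τ hτ
    show |σ0 + c * (Real.log (y τ) - Real.log y0) - σ0| ≤ |c * (p - 2) * Real.log M0|
    have h1 : σ0 + c * (Real.log (y τ) - Real.log y0) - σ0 =
        c * (Real.log (y τ) - Real.log y0) := by ring
    have h2 : |c * (p - 2) * Real.log M0| = |c| * |Real.log y0| := by
      rw [hlog0, abs_neg, mul_assoc, abs_mul]
    rw [h1, h2, abs_mul]
    exact mul_le_mul_of_nonneg_left (hlogy τ hτ) (abs_nonneg c)

end Pool.Agent.TWC
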