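import Pool.Agent.TWC.C1
import Pool.Agent.TWC.YF

/-!
# TWC RAT: the ratio lemma

`u ≤ M0 ψ(· - σ0 e)`, `M0 ≥ 1`, implies `u ≤ ψ(· - (σ0 + c (p-2) log M0) e)`, provided `u ≤ ψ` shifted,
up to small errors, far to the left.

Proof. Take `M, σ` from `yf` (`M ≥ 1`, `|σ| ≤ S := |σ0| + |c (p-2) log M0|`), `T > 0`, `η > 0`, and `R ≥ 0`
from `hleft` for `η` and `S`; let `R1` be from `hright`. `K = {x ∈ closure Ω : -R - 1 ≤ <x,e> ≤ R1 + 1} ×
[0,T]` (compact: closed, bounded since `|x - <x,e> e| ≤` const on `closure Ω`). Apply `c1` with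
`O₁ = O₂ = Ω`, `κ = ka p`, `lam = ka p + 1`. A violation `M ψ(x - σ e) + η < u x` at `(x,τ) ∈ K` implies:
`u x > 0`, so `x ∈ Ω`, and `x - σ e ∈ Ω` by invariance; `<x,e> > -R` (otherwise
`u x ≤ ψ(x - σ e) + η ≤ M ψ(x - σ e) + η`); `<x,e> < R1`; `τ ≠ 0` (`M 0 = M0`, `σ 0 = σ0`, hypothesis);
so `(x,τ)` has a full past neighbourhood in `K` (`Ω` open). Hence
`u x ≤ M τ ψ(x - σ τ e) + η e^(lam τ)` for all `x` with `-R-1 ≤ <x,e>` and `τ ∈ [0,T]`; for `<x,e> ≤ -R`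
it holds by `hleft`. (`x ∉ Ω`: `u x = 0`.) Let `η → 0` at fixed `τ`, then `τ → ∞` (continuity of `ψ`).
-/

open Set Metric Filter Topology
open scoped RealInnerProductSpace

noncomputable section

namespace Pool.Agent.TWC

variable {n : ℕ} {p : ℝ}

private theorem RAT_compact {e : E n} {r0 : ℝ} {Ω : Set (E n)} (hΩ : Tube e r0 Ω) (a b : ℝ) :
    IsCompact (closure Ω ∩ {x : E n | a ≤ ⟪x, e⟫ ∧ ⟪x, e⟫ ≤ b}) := by
  have hc : Continuous fun x : E n => (⟪x, e⟫ : ℝ) := continuous_id.inner continuous_const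
  obtain ⟨R, hR⟩ := hΩ.bdd
  refine Metric.isCompact_of_isClosed_isBounded ?_ ?_
  · refine isClosed_closure.inter ?_
    exact (isClosed_le continuous_const hc).inter (isClosed_le hc continuous_const)
  · rw [isBounded_iff_forall_norm_le]
    refine ⟨R + (|a| + |b|), fun x hx => ?_⟩
    have hcl : closure Ω ⊆ {x : E n | ‖x - (⟪x, e⟫ : ℝ) • e‖ ≤ R} := by
      refine closure_minimal (fun y hy => hR y hy) (isClosed_le ?_ continuous_const)
      exact (continuous_id.sub (hc.smul continuous_const)).norm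
    have h1 : ‖x - (⟪x, e⟫ : ℝ) • e‖ ≤ R := hcl hx.1
    have h2 : x = (x - (⟪x, e⟫ : ℝ) • e) + (⟪x, e⟫ : ℝ) • e := by abel
    have h3 : ‖(⟪x, e⟫ : ℝ) • e‖ ≤ |a| + |b| := by
      rw [norm_smul, hΩ.unit, mul_one, Real.norm_eq_abs, abs_le]
      obtain ⟨h4, h5⟩ := hx.2
      constructor
      · have := neg_abs_le a
        have := abs_nonneg b
        linarith
      · have := le_abs_self b
        have := abs_nonneg a
        linarith
    calc ‖x‖ = ‖(x - (⟪x, e⟫ : ℝ) • e) + (⟪x, e⟫ : ℝ) • e‖ := by rw [← h2]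
      _ ≤ ‖x - (⟪x, e⟫ : ℝ) • e‖ + ‖(⟪x, e⟫ : ℝ) • e‖ := norm_add_le _ _
      _ ≤ R + (|a| + |b|) := add_le_add h1 h3

theorem ratio (hp : 2 < p) {e : E n} {r0 c : ℝ} {Ω : Set (E n)} (hΩ : Tube e r0 Ω) {u ψ : E n → ℝ}
    (hu : Sub p (c • e) (ka p) u) (hoff : ∀ x ∉ Ω, u x = 0)
    (hψ : Sup p (c • e) (ka p) Ω ψ) {σ0 M0 : ℝ} (hM0 : 1 ≤ M0)
    (hleft : ∀ η > 0, ∀ S, ∃ R, ∀ x, ∀ s : ℝ, |s| ≤ S → ⟪x, e⟫ ≤ -R → u x ≤ ψ (x - s • e) + η)
    (hright : ∃ R, ∀ x, R ≤ ⟪x, e⟫ → u x = 0)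
    (h : ∀ x, u x ≤ M0 * ψ (x - σ0 • e)) :
    ∀ x, u x ≤ ψ (x - (σ0 + c * (p - 2) * Real.log M0) • e) := by
  have hp2 : 0 < p - 2 := by linarith
  have hka0 : 0 < ka p := by
    unfold ka
    positivity
  have hM0pos : 0 < M0 := lt_of_lt_of_le one_pos hM0
  obtain ⟨M, σ, hMz, hσz, hMpos, hMc, hσc, hM', hσ', hMlim, hσlim, hMb, hσb⟩ := yf hp c σ0 hM0pos
  have hM1 : ∀ τ, 0 ≤ τ → 1 ≤ M τ := by
    intro τ hτ
    have h1 := (hMb τ hτ).1
    rwa [min_eq_right hM0] at h1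
  obtain ⟨S, hS⟩ : ∃ S : ℝ, S = |σ0| + |c * (p - 2) * Real.log M0| := ⟨_, rfl⟩
  have hσS : ∀ τ, 0 ≤ τ → |σ τ| ≤ S := by
    intro τ hτ
    have h1 := hσb τ hτ
    have h2 : |σ τ| ≤ |σ0| + |σ τ - σ0| := by
      have h3 := abs_add_le σ0 (σ τ - σ0)
      have h4 : σ0 + (σ τ - σ0) = σ τ := by ring
      rwa [h4] at h3
    rw [hS]
    linarith
  obtain ⟨R1, hR1⟩ := hright
  have hlam : ka p < ka p + 1 := by linarith
  have key : ∀ η > 0, ∀ x, ∀ τ, 0 ≤ τ →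
      u x ≤ M τ * ψ (x - σ τ • e) + η * Real.exp ((ka p + 1) * τ) := by
    intro η hη x T hT
    obtain ⟨R, hR⟩ := hleft η hη S
    have hψM : ∀ y, ∀ τ, 0 ≤ τ → ψ y ≤ M τ * ψ y := by
      intro y τ hτ
      have h1 := hM1 τ hτ
      have h2 := hψ.nn y
      nlinarith
    have hMψ : ∀ y, ∀ τ, 0 ≤ τ → 0 ≤ M τ * ψ y := fun y τ hτ =>
      mul_nonneg (hMpos τ hτ).le (hψ.nn y)
    have hexp1 : η ≤ η * Real.exp ((ka p + 1) * T) := by
      have h1 : 1 ≤ Real.exp ((ka p + 1) * T) := Real.one_le_exp (by positivity)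
      nlinarith
    by_cases hxΩ : x ∈ Ω
    swap
    · rw [hoff x hxΩ]
      have := hMψ (x - σ T • e) T hT
      linarith
    by_cases hxl : ⟪x, e⟫ ≤ -R
    · have h1 := hR x (σ T) (hσS T hT) hxl
      have h2 := hψM (x - σ T • e) T hT
      linarith
    by_cases hxr : R1 ≤ ⟪x, e⟫
    · rw [hR1 x hxr]
      have := hMψ (x - σ T • e) T hT
      linarith
    push Not at hxl hxr
    have hK := (RAT_compact hΩ (-R - 1) (R1 + 1)).prod (isCompact_Icc (a := (0 : ℝ)) (b := T))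
    have hmem : (x, T) ∈ (closure Ω ∩ {x : E n | -R - 1 ≤ ⟪x, e⟫ ∧ ⟪x, e⟫ ≤ R1 + 1}) ×ˢ
        Icc (0 : ℝ) T := by
      refine ⟨⟨subset_closure hxΩ, ?_, ?_⟩, hT, le_rfl⟩
      · show -R - 1 ≤ ⟪x, e⟫
        linarith
      · show ⟪x, e⟫ ≤ R1 + 1
        linarith
    refine c1 hp hka0.le hlam hu.usc hΩ.isOpen hΩ.isOpen (fun z _ => hu.sb z (mem_univ z)) hψ hMpos
      hMc hσc hM' hσ' hK (fun z hz => hz.2.1) hη.le ?_ x T hmem
    intro y τ hyK hviol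
    have hτ0 : 0 ≤ τ := hyK.2.1
    have hτT : τ ≤ T := hyK.2.2
    have h1 := hMψ (y - σ τ • e) τ hτ0
    have hyΩ : y ∈ Ω := by
      by_contra h2
      rw [hoff y h2] at hviol
      linarith
    have hyl : -R < ⟪y, e⟫ := by
      by_contra h2
      push Not at h2
      have h3 := hR y (σ τ) (hσS τ hτ0) h2
      have h4 := hψM (y - σ τ • e) τ hτ0
      linarith
    have hyr : ⟪y, e⟫ < R1 := by
      by_contra h2
      push Not at h2
      rw [hR1 y h2] at hviol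
      linarith
    have hτpos : 0 < τ := by
      rcases hτ0.lt_or_eq with h2 | h2
      · exact h2
      · exfalso
        rw [← h2, hMz, hσz] at hviol
        have h3 := h y
        linarith
    refine ⟨hyΩ, ?_, ?_⟩
    · have h2 := hΩ.inv y hyΩ (-σ τ)
      rwa [neg_smul, ← sub_eq_add_neg] at h2
    · obtain ⟨r1, hr1, hball⟩ := Metric.isOpen_iff.1 hΩ.isOpen y hyΩ
      refine ⟨min r1 (min τ 1), lt_min hr1 (lt_min hτpos one_pos), ?_⟩
      intro w t hw ht1 ht2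
      have hw1 : ‖w - y‖ < r1 := lt_of_lt_of_le hw (min_le_left _ _)
      have hw2 : ‖w - y‖ < 1 := lt_of_lt_of_le hw ((min_le_right _ _).trans (min_le_right _ _))
      have hr2 : min r1 (min τ 1) ≤ τ := (min_le_right _ _).trans (min_le_left _ _)
      have hwΩ : w ∈ Ω := hball (by rwa [mem_ball, dist_eq_norm])
      have hin : |(⟪w, e⟫ : ℝ) - ⟪y, e⟫| ≤ 1 := by
        rw [← inner_sub_left]
        have h2 := abs_real_inner_le_norm (w - y) e
        rw [hΩ.unit, mul_one] at h2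
        linarith
      rw [abs_le] at hin
      refine ⟨⟨subset_closure hwΩ, ?_, ?_⟩, ?_, ?_⟩
      · show -R - 1 ≤ ⟪w, e⟫
        linarith [hin.1]
      · show ⟪w, e⟫ ≤ R1 + 1
        linarith [hin.2]
      · show 0 ≤ t
        linarith
      · show t ≤ T
        linarith
  have key2 : ∀ x, ∀ τ, 0 ≤ τ → u x ≤ M τ * ψ (x - σ τ • e) := by
    intro x τ hτ
    refine le_of_forall_pos_le_add fun ε hε => ?_
    have he : 0 < Real.exp ((ka p + 1) * τ) := Real.exp_pos _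
    have h1 := key (ε / Real.exp ((ka p + 1) * τ)) (div_pos hε he) x τ hτ
    rwa [div_mul_cancel₀ _ he.ne'] at h1
  intro x
  have hlim : Tendsto (fun τ => M τ * ψ (x - σ τ • e)) atTop
      (𝓝 (1 * ψ (x - (σ0 + c * (p - 2) * Real.log M0) • e))) := by
    refine hMlim.mul ?_
    have h1 : Tendsto (fun τ => x - σ τ • e) atTop
        (𝓝 (x - (σ0 + c * (p - 2) * Real.log M0) • e)) :=
      tendsto_const_nhds.sub (hσlim.smul_const e)
    exact (hψ.cont.tendsto _).comp h1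
  rw [one_mul] at hlim
  refine ge_of_tendsto hlim ?_
  filter_upwards [eventually_ge_atTop (0 : ℝ)] with τ hτ using key2 x τ hτ

end Pool.Agent.TWC
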