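import Pool.Agent.TWC.WA
import Pool.Agent.TWC.JTB
import Pool.Agent.TWC.PAL

/-!
# TWC WD: `W` is a supersolution in `Ω ∩ {height < 0}` (Perron bump)

`W = WW` is continuous (hypothesis). Let `x0 ∈ Ω`, `<x0,e> < 0`, `LJ W x0 P X`. Suppose
`G0 := pA P X + <c e,P> + κ W x0 > 0` (`κ = ka p`).
If `W x0 = Φ x0`: since `W ≤ Φ`, `LJ Φ x0 P X` (`W y ≤ Φ y`), contradiction to `Φ` supersolution.
So `W x0 < Φ x0`. For small `ε > 0` put `ϕ y = W x0 + <P,y-x0> + 1/2 X (y-x0)(y-x0) - 2ε|y-x0|^2`; by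
continuity (`pA_cont`) there are `r > 0`, `ε > 0` such that on `closedBall x0 r` (contained in
`Ω ∩ {height < 0}`): `pA p ∇ϕ(y) (X - 4ε ip) + <ce,∇ϕ y> + κ ϕ y ≥ G0/2` (here `∇ϕ(y)` is the Riesz vector of
the derivative; if `X` is not symmetric replace it by its symmetric part, which has the same
quadratic form and trace), `ϕ y + r' ≤ Φ y` for some `r' > 0`, and `W y ≥ ϕ y + ε|y-x0|^2`. Let
`δ = min(r', ε r^2/4)`, `ϕδ = ϕ + δ`, and
`w' y = max (W y) (ϕδ y)` on `ball x0 r`, `w' = W` elsewhere. Near the sphere (`|y-x0| ≥ r/√2... > r/2 + `)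
`W y ≥ ϕ y + ε |y-x0|^2 > ϕδ y` as soon as `ε|y-x0|^2 > δ`, so `w' = W` near and outside the sphere and `w'` is
continuous. `w' ∈ FF`: nonnegative; `≤ Φ`; zero for heights `≥ 0`; `Sb`: at `x` with `w' x = W x` and jet of
`w'`: it is a jet of `W ≤ w'` (`uj_local`); at `x` with `w' x = ϕδ x > W x`, `x ∈ ball x0 r`, a jet `(P',X')` of
`w' ≥ ϕδ` (touching at `x`) satisfies `P' = ∇ϕ x` and `X' ≥ X - 4ε ip` (`uj_touch`, `t2` of quadratic
polynomials), so `pA P' X' + <ce,P'> + κ w' x ≥ G0/2 + κ δ > 0` (`pA_mono`). By `ww_max`: `w' ≤ W`; but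
`w' x0 ≥ ϕ x0 + δ = W x0 + δ`. Contradiction.
-/

open Set Metric Filter Topology
open scoped RealInnerProductSpace

noncomputable section

namespace Pool.Agent.TWC

variable {n : ℕ} {p c : ℝ} {e : E n} {r0 : ℝ} {Ω : Set (E n)} {Φ : E n → ℝ}

private theorem pA_contX (hp : 2 < p) (Z : Bil n) : Continuous fun P : E n => pA p P Z := by
  have h1 : Continuous fun P : E n => (P, Z) := by fun_prop
  have h2 := (pA_cont (n := n) hp).comp h1
  exact h2

private theorem pA_Y (Q : E n) (X : Bil n) (s : ℝ) :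
    pA p Q (X - s • (ip : Bil n)) = pA p Q X - s * pA p Q (ip : Bil n) := by
  have h : X - s • (ip : Bil n) = X + (-s) • (ip : Bil n) := by
    ext v w
    simp only [sub_apply, add_apply, smul_apply, smul_eq_mul]
    ring
  rw [h, pA_form_add, pA_form_smul]
  ring

/-- The gradient of the quadratic polynomial with form `X - 4 ε ip` at the point with increment `d`. -/
private def gq (P : E n) (X : Bil n) (ε : ℝ) (d : E n) : E n :=
  P + (InnerProductSpace.toDual ℝ (E n)).symm ((1 / 2 : ℝ) • (X d + X.flip d)) - (4 * ε) • d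

private theorem gq_inner (P : E n) (X : Bil n) (ε : ℝ) (d h : E n) :
    ⟪gq P X ε d, h⟫ = ⟪P, h⟫ + 1 / 2 * (X d h + X h d) - 4 * ε * ⟪d, h⟫ := by
  unfold gq
  rw [inner_sub_left, inner_add_left, InnerProductSpace.toDual_symm_apply, real_inner_smul_left]
  simp only [smul_apply, add_apply, ContinuousLinearMap.flip_apply, smul_eq_mul]

private theorem gq_cont (P : E n) (X : Bil n) :
    Continuous fun z : E n × ℝ => gq P X z.2 z.1 := by
  unfold gq
  have h0 : Continuous fun z : E n × ℝ => X z.1 + X.flip z.1 :=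
    (X.continuous.comp continuous_fst).add (X.flip.continuous.comp continuous_fst)
  have h1 : Continuous fun z : E n × ℝ => (1 / 2 : ℝ) • (X z.1 + X.flip z.1) :=
    h0.const_smul (1 / 2 : ℝ)
  have h2 := (InnerProductSpace.toDual ℝ (E n)).symm.continuous.comp h1
  have h3 : Continuous fun z : E n × ℝ => (4 * z.2) • z.1 :=
    (continuous_const.mul continuous_snd).smul continuous_fst
  exact (continuous_const.add h2).sub h3

private theorem gq_zero (P : E n) (X : Bil n) : gq P X 0 0 = P := by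
  unfold gq
  simp

/-- Exact expansion of quadratic polynomials. -/
private theorem quad_lj (a : ℝ) (P : E n) (X : Bil n) (ε : ℝ) (x0 x : E n) :
    LJ (fun y => a + ⟪P, y - x0⟫ + 1 / 2 * (X - (4 * ε) • (ip : Bil n)) (y - x0) (y - x0)) x
      (gq P X ε (x - x0)) (X - (4 * ε) • (ip : Bil n)) := by
  intro η hη
  refine ⟨1, one_pos, fun y _ => ?_⟩
  have hy : y - x0 = (x - x0) + (y - x) := by abel
  have h1 := gq_inner P X ε (x - x0) (y - x)
  have hZ : ∀ v w : E n, (X - (4 * ε) • (ip : Bil n)) v w = X v w - 4 * ε * ⟪v, w⟫ := by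
    intro v w
    simp only [sub_apply, smul_apply, smul_eq_mul]
    rw [ip_apply]
  have h2 : X (y - x0) (y - x0) = X (x - x0) (x - x0) + X (x - x0) (y - x) + X (y - x) (x - x0)
      + X (y - x) (y - x) := by
    rw [hy]
    simp only [map_add, add_apply]
    ring
  have h2' : ⟪y - x0, y - x0⟫ = ⟪x - x0, x - x0⟫ + 2 * ⟪x - x0, y - x⟫ + ⟪y - x, y - x⟫ := by
    rw [hy, inner_add_left, inner_add_right, inner_add_right, real_inner_comm (x - x0) (y - x)]
    ring
  have h3 : ⟪P, y - x0⟫ = ⟪P, x - x0⟫ + ⟪P, y - x⟫ := by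
    rw [hy, inner_add_right]
  have h4 : 0 ≤ η * ‖y - x‖ ^ 2 := by positivity
  show a + ⟪P, x - x0⟫ + 1 / 2 * (X - (4 * ε) • (ip : Bil n)) (x - x0) (x - x0)
      + ⟪gq P X ε (x - x0), y - x⟫
      + 1 / 2 * (X - (4 * ε) • (ip : Bil n)) (y - x) (y - x) - η * ‖y - x‖ ^ 2 ≤
      a + ⟪P, y - x0⟫ + 1 / 2 * (X - (4 * ε) • (ip : Bil n)) (y - x0) (y - x0)
  rw [h1, hZ, hZ, hZ, h2, h2', h3]
  linarith

private theorem quad_cont (a : ℝ) (P : E n) (X : Bil n) (x0 : E n) :
    Continuous (fun y => a + ⟪P, y - x0⟫ + 1 / 2 * X (y - x0) (y - x0)) := by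
  have h1 : Continuous fun y : E n => y - x0 := continuous_id.sub continuous_const
  have h2 : Continuous fun y : E n => X (y - x0) (y - x0) :=
    (X.continuous.comp h1).clm_apply h1
  exact (continuous_const.add (continuous_const.inner h1)).add (continuous_const.mul h2)

theorem ww_sp (hp : 2 < p) (hΩ : Tube e r0 Ω) (hΦ : Prof p c e Ω Φ)
    (hcont : Continuous (WW p c e Φ)) :
    Sp p (c • e) (ka p) (Ω ∩ {x | ⟪x, e⟫ < 0}) (WW p c e Φ) := by
  intro x0 hx0 P X hJ
  by_contra hG
  push Not at hG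
  set W := WW p c e Φ with hWdef
  obtain ⟨hsub, hle, hri⟩ := ww_mem hp hΩ hΦ
  rw [← hWdef] at hsub hle hri
  obtain ⟨hxΩ, hxh⟩ := hx0
  rw [mem_ofPred_eq] at hxh
  -- the contact case
  rcases (hle x0).lt_or_eq with hlt | heq
  swap
  · have hJ' : LJ Φ x0 P X := by
      intro ε hε
      obtain ⟨r, hr, h⟩ := hJ ε hε
      refine ⟨r, hr, fun y hy => ?_⟩
      rw [← heq]
      exact (h y hy).trans (hle y)
    have := hΦ.sup.sp x0 hxΩ P X hJ'
    rw [← heq] at this
    linarith
  -- continuity of the operator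
  have hGc : Continuous fun z : (E n × ℝ) × ℝ =>
      pA p (gq P X z.1.2 z.1.1) X - 4 * z.1.2 * pA p (gq P X z.1.2 z.1.1) (ip : Bil n) +
        ⟪c • e, gq P X z.1.2 z.1.1⟫ + ka p * z.2 := by
    have h1 : Continuous fun z : (E n × ℝ) × ℝ => gq P X z.1.2 z.1.1 :=
      (gq_cont P X).comp continuous_fst
    have h2 : ∀ Z : Bil n, Continuous fun z : (E n × ℝ) × ℝ => pA p (gq P X z.1.2 z.1.1) Z := by
      intro Z
      exact (pA_contX hp Z).comp h1
    have h3 : Continuous fun z : (E n × ℝ) × ℝ => 4 * z.1.2 :=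
      continuous_const.mul (continuous_snd.comp continuous_fst)
    exact (((h2 X).sub (h3.mul (h2 ip))).add (continuous_const.inner h1)).add
      (continuous_const.mul continuous_snd)
  have hG0 : 0 < (fun z : (E n × ℝ) × ℝ =>
      pA p (gq P X z.1.2 z.1.1) X - 4 * z.1.2 * pA p (gq P X z.1.2 z.1.1) (ip : Bil n) +
        ⟪c • e, gq P X z.1.2 z.1.1⟫ + ka p * z.2) ((0, 0), W x0) := by
    show 0 < pA p (gq P X 0 0) X - 4 * (0 : ℝ) * pA p (gq P X 0 0) (ip : Bil n) +
        ⟪c • e, gq P X 0 0⟫ + ka p * W x0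
    rw [gq_zero]
    linarith
  obtain ⟨ρ, hρ, hball⟩ := Metric.mem_nhds_iff.1 (hGc.continuousAt.eventually (lt_mem_nhds hG0))
  -- choice of the constants
  set ε : ℝ := ρ / 2 with hε
  have hε0 : 0 < ε := by positivity
  set Y : Bil n := X - (4 * ε) • (ip : Bil n) with hY
  set ϕ : E n → ℝ := fun y => W x0 + ⟪P, y - x0⟫ + 1 / 2 * Y (y - x0) (y - x0) with hϕ
  have hϕc : Continuous ϕ := quad_cont _ _ _ _
  have hϕ0 : ϕ x0 = W x0 := by simp [hϕ]
  obtain ⟨r1, hr1, hJ1⟩ := hJ ε hε0
  set g : ℝ := min ((Φ x0 - W x0) / 2) (ρ / 2) with hg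
  have hg0 : 0 < g := lt_min (by linarith) (by positivity)
  have hev : ∀ᶠ y in 𝓝 x0, y ∈ Ω ∧ ⟪y, e⟫ < 0 ∧ ϕ y + g < Φ y ∧ |ϕ y - W x0| < ρ / 2 := by
    have e1 : ∀ᶠ y in 𝓝 x0, y ∈ Ω := hΩ.isOpen.mem_nhds hxΩ
    have e2 : ∀ᶠ y in 𝓝 x0, ⟪y, e⟫ < 0 :=
      (continuous_id.inner continuous_const).continuousAt.eventually (gt_mem_nhds hxh)
    have e3 : ∀ᶠ y in 𝓝 x0, 0 < Φ y - (ϕ y + g) := by
      refine (hΦ.cont.sub (hϕc.add continuous_const)).continuousAt.eventually (lt_mem_nhds ?_)
      have := min_le_left ((Φ x0 - W x0) / 2) (ρ / 2)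
      show 0 < Φ x0 - (ϕ x0 + g)
      rw [hϕ0]
      linarith
    have e4 : ∀ᶠ y in 𝓝 x0, |ϕ y - W x0| < ρ / 2 := by
      refine (hϕc.sub continuous_const).abs.continuousAt.eventually (gt_mem_nhds ?_)
      show |ϕ x0 - W x0| < ρ / 2
      rw [hϕ0, sub_self, abs_zero]
      positivity
    filter_upwards [e1, e2, e3, e4] with y h1 h2 h3 h4
    exact ⟨h1, h2, by linarith, h4⟩
  obtain ⟨r2, hr2, hev2⟩ := Metric.mem_nhds_iff.1 hev
  set r : ℝ := min (min r1 r2) ρ with hr
  have hr0 : 0 < r := lt_min (lt_min hr1 hr2) hρ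
  have hrr1 : r ≤ r1 := (min_le_left _ _).trans (min_le_left _ _)
  have hrr2 : r ≤ r2 := (min_le_left _ _).trans (min_le_right _ _)
  have hrρ : r ≤ ρ := min_le_right _ _
  set δ : ℝ := min g (ε * r ^ 2 / 4) / 2 with hδ
  have hδ0 : 0 < δ := by
    have : 0 < min g (ε * r ^ 2 / 4) := lt_min hg0 (by positivity)
    positivity
  have hδg : δ < g := by
    have h1 : min g (ε * r ^ 2 / 4) ≤ g := min_le_left _ _
    have : δ * 2 = min g (ε * r ^ 2 / 4) := by rw [hδ]; ring
    linarith
  have hδr : δ < ε * r ^ 2 / 4 := by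
    have h1 : min g (ε * r ^ 2 / 4) ≤ ε * r ^ 2 / 4 := min_le_right _ _
    have : δ * 2 = min g (ε * r ^ 2 / 4) := by rw [hδ]; ring
    linarith
  have hgρ : g ≤ ρ / 2 := min_le_right _ _
  have hin : ∀ y, ‖y - x0‖ < r → y ∈ Ω ∧ ⟪y, e⟫ < 0 ∧ ϕ y + g < Φ y ∧ |ϕ y - W x0| < ρ / 2 := by
    intro y hy
    apply hev2
    rw [mem_ball, dist_eq_norm]
    linarith
  have hJr : ∀ y, ‖y - x0‖ < r → ϕ y + ε * ‖y - x0‖ ^ 2 ≤ W y := by
    intro y hy
    have h1 := hJ1 y (by linarith)
    have h2 : Y (y - x0) (y - x0) = X (y - x0) (y - x0) - 4 * ε * ‖y - x0‖ ^ 2 := by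
      rw [hY]
      simp only [sub_apply, smul_apply, smul_eq_mul]
      rw [ip_apply, real_inner_self_eq_norm_sq]
    simp only [hϕ]
    rw [h2]
    linarith
  -- the competitor
  classical
  set w : E n → ℝ := fun y => if ‖y - x0‖ < r then max (W y) (ϕ y + δ) else W y with hw
  have hwW : ∀ y, W y ≤ w y := by
    intro y
    simp only [hw]
    split_ifs
    · exact le_max_left _ _
    · exact le_rfl
  have hwout : ∀ y, r / 2 ≤ ‖y - x0‖ → w y = W y := by
    intro y hy
    simp only [hw]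
    split_ifs with h
    · apply max_eq_left
      have h1 := hJr y h
      have h2 : (r / 2) ^ 2 ≤ ‖y - x0‖ ^ 2 := by gcongr
      have h3 : ε * (r / 2) ^ 2 ≤ ε * ‖y - x0‖ ^ 2 := by gcongr
      have h4 : ε * (r / 2) ^ 2 = ε * r ^ 2 / 4 := by ring
      linarith
    · rfl
  have hwin : ∀ y, ‖y - x0‖ < r → w y = max (W y) (ϕ y + δ) := by
    intro y hy
    simp only [hw, if_pos hy]
  have hwc : ∀ x, ContinuousAt w x := by
    intro x
    by_cases hx : ‖x - x0‖ < r
    · have h1 : ContinuousAt (fun y => max (W y) (ϕ y + δ)) x :=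
        (hcont.max (hϕc.add continuous_const)).continuousAt
      refine h1.congr ?_
      have h2 : ∀ᶠ y in 𝓝 x, ‖y - x0‖ < r :=
        (continuous_id.sub continuous_const).norm.continuousAt.eventually (gt_mem_nhds hx)
      filter_upwards [h2] with y hy
      exact (hwin y hy).symm
    · have h1 : ContinuousAt W x := hcont.continuousAt
      refine h1.congr ?_
      push Not at hx
      have h2 : ∀ᶠ y in 𝓝 x, r / 2 < ‖y - x0‖ :=
        (continuous_id.sub continuous_const).norm.continuousAt.eventually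
          (lt_mem_nhds (show r / 2 < ‖id x - x0‖ by simp only [id]; linarith))
      filter_upwards [h2] with y hy
      exact (hwout y hy.le).symm
  have hwcont : Continuous w := continuous_iff_continuousAt.2 hwc
  have hwsb : Sb p (c • e) (ka p) univ w := by
    intro x _ P' X' hJ'
    by_cases hx : w x = W x
    · have h1 : UJ W x P' X' := uj_local hJ' ⟨1, one_pos, fun y _ => hwW y⟩ hx.symm
      have h2 := hsub.sb x (mem_univ _) P' X' h1
      rw [hx]
      exact h2
    · have hxr : ‖x - x0‖ < r := by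
        by_contra h
        push Not at h
        exact hx (hwout x (by linarith))
      have hxw : w x = ϕ x + δ := by
        rw [hwin x hxr] at hx ⊢
        rcases max_choice (W x) (ϕ x + δ) with h | h
        · exact absurd h hx
        · exact h
      have hLJ : LJ (fun y => ϕ y + δ) x (gq P X ε (x - x0)) Y := by
        intro η hη
        obtain ⟨s, hs, h⟩ := quad_lj (W x0) P X ε x0 x η hη
        rw [← hY] at h
        refine ⟨s, hs, fun y hy => ?_⟩
        have := h y hy
        simp only [hϕ]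
        linarith
      have htouch := uj_touch hJ' hLJ ⟨r - ‖x - x0‖, by linarith, fun y hy => by
        have h1 : ‖y - x0‖ < r := by
          have : ‖y - x0‖ ≤ ‖y - x‖ + ‖x - x0‖ := norm_sub_le_norm_sub_add_norm_sub _ _ _
          linarith
        rw [hwin y h1]
        exact le_max_right _ _⟩ hxw.symm
      obtain ⟨hP, hX⟩ := htouch
      have hmem : ((x - x0, ε), w x) ∈ ball (((0 : E n), (0 : ℝ)), W x0) ρ := by
        rw [mem_ball, Prod.dist_eq, Prod.dist_eq]
        refine max_lt (max_lt ?_ ?_) ?_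
        · simp only [dist_zero_right]
          linarith
        · rw [dist_zero_right]
          simp only [Real.norm_eq_abs, abs_of_pos hε0]
          rw [hε]
          linarith
        · rw [Real.dist_eq, hxw]
          have h1 := (hin x hxr).2.2.2
          have h2 : |ϕ x + δ - W x0| ≤ |ϕ x - W x0| + |δ| := by
            have : ϕ x + δ - W x0 = (ϕ x - W x0) + δ := by ring
            rw [this]
            exact abs_add_le _ _
          rw [abs_of_pos hδ0] at h2
          linarith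
      have hpos := hball hmem
      simp only [mem_ofPred_eq] at hpos
      have hYp : pA p (gq P X ε (x - x0)) Y = pA p (gq P X ε (x - x0)) X -
          4 * ε * pA p (gq P X ε (x - x0)) (ip : Bil n) := by
        rw [hY, pA_Y]
      have hmono : pA p P' Y ≤ pA p P' X' := pA_mono hp hX
      rw [hP] at hmono ⊢
      linarith
  have hwFF : w ∈ FF p c e Φ := by
    refine ⟨⟨fun x => (hsub.nn x).trans (hwW x), hwcont.upperSemicontinuous, hwsb⟩, ?_, ?_⟩
    · intro x
      by_cases hx : ‖x - x0‖ < r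
      · rw [hwin x hx]
        refine max_le (hle x) ?_
        have := (hin x hx).2.2.1
        linarith
      · push Not at hx
        rw [hwout x (by linarith)]
        exact hle x
    · intro x hx
      have hxr : r ≤ ‖x - x0‖ := by
        by_contra h
        push Not at h
        have := (hin x h).2.1
        linarith
      rw [hwout x (by linarith)]
      exact hri x hx
  have hmax := ww_max hΩ hΦ hwFF x0
  rw [← hWdef] at hmax
  have h0 : ‖x0 - x0‖ < r := by simpa using hr0
  rw [hwin x0 h0, hϕ0] at hmax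
  have := le_max_right (W x0) (W x0 + δ)
  linarith

end Pool.Agent.TWC
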