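import Pool.Agent.TWC.CST
import Pool.Agent.TWC.PAL
import Pool.Agent.TWC.JTB

/-!
# TWC HLT: linear growth from a moving inner ball up to the boundary of a moving ball

`v ≥ 0` supersolution on `O`, `v ≥ μ` on the moving balls `closedBall (y0 - cτ e) (r/2)`, `0 ≤ τ ≤ T`,
the balls `ball (y0 - cτ e) r` are in `O`. Then `v x ≥ c0 (μ/r)(r - |x - y(T)|)`, `y(τ) = y0 - cτ e`,
with `T = C r^p/μ^(p-2)`.

Let `α = 4 (n+p)/(p-1)` (any `α ≥ 4(n+p-2)/(p-1)`, `α ≥ 1`), `ε = μ`,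
`B x τ = ε (exp(-α |x-y(τ)|^2/r^2) - exp(-α ϱ(τ)^2/r^2))` where `ϱ^2 = r^2/4 + 2 b0 τ`,
`b0 = (p-1)(α/4) (ε α e^(-α)/r)^(p-2)`, `T = 3 r^2/(8 b0)` (so `ϱ(T) = r`; `T = C r^p/μ^(p-2)` with an
explicit `C = C(n,p)`). Apply `cs'` with `K = {(x,τ) : 0 ≤ τ ≤ T, |x - y(τ)| ≤ r}` (compact), drift
`b = c e`.
A violation `v x < B x τ`: then `B x τ > 0` so `|x-y(τ)| < ϱ(τ) ≤ r`, so `x ∈ O`; `B ≤ ε = μ`, so
`|x - y(τ)| > r/2` (otherwise `v x ≥ μ ≥ B`); hence `ϱ(τ) > r/2`, `τ > 0`. Being strictly inside, the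
slice and past neighbourhoods are in `K` (`y` is continuous).
With `z = x - y(τ)`, `g = ε exp(-α|z|^2/r^2)`: `P = -(2α/r^2) g z`,
`X = g ((4α^2/r^4) rk z - (2α/r^2) ip)` (smooth function of `x`; `t2_comp` with `t2_normSq`, or
`t2_of_contDiffAt`), and
`pA p P X = |P|^(p-2) g (2α/r^2) ((p-1) 2α |z|^2/r^2 - (n+p-2))` (`P` is parallel to `z`; `pA_rk`,
`pA_ip`); since `|z| ≥ r/2` and `α ≥ 4(n+p-2)/(p-1)` the bracket is `≥ (p-1) α/4`; and
`|P| ≥ ε α e^(-α)/r` (`r/2 ≤ |z| ≤ r`). So `pA ≥ g (2α/r^2) b0`.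
Time derivative (two sided, hence `DtL`): `a = ε exp(-αϱ^2/r^2) α 2 b0/r^2 + c<∇B... >`: precisely
`∂_τ B = ⟪P, -y'⟫ + ε e^(-αϱ^2/r^2) (α/r^2)(ϱ^2)' = <P, c e> + ε e^(-αϱ^2/r^2) 2 α b0/r^2`
`≤ <c e, P> + g 2 α b0/r^2 ≤ <c e,P> + pA p P X + κ B` (as `|z| ≤ ϱ`, `κ B ≥ 0`). So `cs'` applies.
At `τ = T`: `B = μ (exp(-α|z|^2/r^2) - e^(-α)) ≥ μ e^(-α) α (1 - |z|^2/r^2) ≥ μ e^(-α) α (1-|z|/r)` for
`|z| ≤ r`; for `|z| > r` the claim is trivial (`v ≥ 0`). So `c0 = α e^(-α)`.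
-/

open Set Metric Filter Topology
open scoped RealInnerProductSpace

noncomputable section

namespace Pool.Agent.TWC

variable {n : ℕ} {p : ℝ}

private theorem dtL_of_hasDerivAt {f : ℝ → ℝ} {τ a : ℝ} (h : HasDerivAt f a τ) : DtL f τ a := by
  intro ε hε
  have h1 := (hasDerivAt_iff_isLittleO.1 h).def hε
  obtain ⟨r, hr, hb⟩ := Metric.eventually_nhds_iff.1 h1
  refine ⟨r, hr, fun s hs hsr => ?_⟩
  have h2 := hb (y := τ - s) (by rw [Real.dist_eq]; rw [sub_sub_cancel_left, abs_neg, abs_of_pos hs]; exact hsr)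
  rw [smul_eq_mul, sub_sub_cancel_left, Real.norm_eq_abs, Real.norm_eq_abs, abs_neg, abs_of_pos hs] at h2
  have h3 := (abs_le.1 h2).1
  linarith

private theorem hlt_norm_pow {N q : ℝ} (hN : 0 < N) : N ^ (q - 4) * N ^ 2 = N ^ (q - 2) := by
  rw [← Real.rpow_natCast, ← Real.rpow_add hN]
  congr 1
  push_cast
  ring

/-- the value of the operator on the jet of a function of `|y - x0|²` -/
private theorem hlt_pA (hp : 2 < p) {n : ℕ} (z : E n) (F1 F2 : ℝ) (h1 : F1 ≠ 0) (hz : z ≠ 0) :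
    pA p (F1 • ((2 : ℝ) • z)) (F1 • ((2 : ℝ) • ip) + F2 • rk ((2 : ℝ) • z)) =
      (2 * |F1| * ‖z‖) ^ (p - 2) * (2 * F1 * (n + p - 2) + F2 * (p - 1) * (4 * ‖z‖ ^ 2)) := by
  have hN : ‖F1 • ((2 : ℝ) • z)‖ = 2 * |F1| * ‖z‖ := by
    rw [norm_smul, norm_smul, Real.norm_eq_abs, Real.norm_eq_abs, abs_of_pos (by norm_num : (0:ℝ) < 2)]
    ring
  have hN0 : 0 < 2 * |F1| * ‖z‖ :=
    mul_pos (mul_pos (by norm_num) (abs_pos.2 h1)) (norm_pos_iff.2 hz)
  have hi : ⟪(2 : ℝ) • z, F1 • ((2 : ℝ) • z)⟫ ^ 2 = (2 * |F1| * ‖z‖) ^ 2 * (4 * ‖z‖ ^ 2) := by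
    rw [inner_smul_right, real_inner_self_eq_norm_sq, norm_smul, Real.norm_eq_abs,
      abs_of_pos (by norm_num : (0:ℝ) < 2)]
    have : |F1| ^ 2 = F1 ^ 2 := sq_abs F1
    calc (F1 * (2 * ‖z‖) ^ 2) ^ 2 = F1 ^ 2 * (4 * ‖z‖ ^ 2) * (4 * ‖z‖ ^ 2) := by ring
      _ = |F1| ^ 2 * (4 * ‖z‖ ^ 2) * (4 * ‖z‖ ^ 2) := by rw [this]
      _ = _ := by ring
  have hn2 : ‖(2 : ℝ) • z‖ ^ 2 = 4 * ‖z‖ ^ 2 := by
    rw [norm_smul, Real.norm_eq_abs, abs_of_pos (by norm_num : (0:ℝ) < 2)]; ring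
  rw [pA_form_add, pA_form_smul, pA_form_smul, pA_form_smul, pA_ip hp, pA_rk hp, hi, hN, hn2]
  have e := hlt_norm_pow (q := p) hN0
  calc F1 * (2 * ((↑n + p - 2) * (2 * |F1| * ‖z‖) ^ (p - 2))) +
      F2 * ((2 * |F1| * ‖z‖) ^ (p - 2) * (4 * ‖z‖ ^ 2) +
        (p - 2) * (2 * |F1| * ‖z‖) ^ (p - 4) * ((2 * |F1| * ‖z‖) ^ 2 * (4 * ‖z‖ ^ 2)))
      = F1 * (2 * ((↑n + p - 2) * (2 * |F1| * ‖z‖) ^ (p - 2))) +
      F2 * ((2 * |F1| * ‖z‖) ^ (p - 2) * (4 * ‖z‖ ^ 2) +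
        (p - 2) * ((2 * |F1| * ‖z‖) ^ (p - 4) * (2 * |F1| * ‖z‖) ^ 2) * (4 * ‖z‖ ^ 2)) := by ring
    _ = _ := by rw [e]; ring

private theorem hlt_t2 {n : ℕ} (x0 x : E n) (μ k K1 : ℝ) :
    T2 (fun y : E n => μ * (Real.exp (-k * ‖y - x0‖ ^ 2) - K1)) x
      ((μ * (Real.exp (-k * ‖x - x0‖ ^ 2) * (-k))) • ((2 : ℝ) • (x - x0)))
      ((μ * (Real.exp (-k * ‖x - x0‖ ^ 2) * (-k))) • ((2 : ℝ) • ip) +
        (μ * (Real.exp (-k * ‖x - x0‖ ^ 2) * (-k) * (-k))) • rk ((2 : ℝ) • (x - x0))) := by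
  have hd : ∀ t : ℝ, HasDerivAt (fun t : ℝ => μ * (Real.exp (-k * t) - K1))
      (μ * (Real.exp (-k * t) * (-k))) t := by
    intro t
    have h1 : HasDerivAt (fun t : ℝ => -k * t) (-k) t := by
      simpa using (hasDerivAt_id t).const_mul (-k)
    exact ((h1.exp).sub_const K1).const_mul μ
  have hd2 : ∀ t : ℝ, HasDerivAt (fun t : ℝ => μ * (Real.exp (-k * t) * (-k)))
      (μ * (Real.exp (-k * t) * (-k) * (-k))) t := by
    intro t
    have h1 : HasDerivAt (fun t : ℝ => -k * t) (-k) t := by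
      simpa using (hasDerivAt_id t).const_mul (-k)
    exact ((h1.exp).mul_const (-k)).const_mul μ
  have e1 : deriv (fun t : ℝ => μ * (Real.exp (-k * t) - K1)) =
      fun t => μ * (Real.exp (-k * t) * (-k)) := funext fun t => (hd t).deriv
  have hF : ContDiffAt ℝ 2 (fun t : ℝ => μ * (Real.exp (-k * t) - K1)) (‖x - x0‖ ^ 2) := by
    apply ContDiff.contDiffAt
    fun_prop
  have h := t2_comp (u := fun y : E n => ‖y - x0‖ ^ 2) (x := x) hF (t2_normSq x0)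
  rw [e1, (hd2 _).deriv] at h
  exact h

theorem hlt (hp : 2 < p) (n : ℕ) :
    ∃ C c0 : ℝ, 0 < C ∧ 0 < c0 ∧ ∀ (c : ℝ) (e : E n) (κ : ℝ), 0 ≤ κ → ∀ (O : Set (E n)) (v : E n → ℝ),
      Sup p (c • e) κ O v → ∀ (y0 : E n) (r μ : ℝ), 0 < r → 0 < μ →
      (∀ τ, 0 ≤ τ → τ ≤ C * r ^ p / μ ^ (p - 2) → ∀ x, ‖x - (y0 - (c * τ) • e)‖ ≤ r / 2 → μ ≤ v x) →
      (∀ τ, 0 ≤ τ → τ ≤ C * r ^ p / μ ^ (p - 2) → ball (y0 - (c * τ) • e) r ⊆ O) →
      ∀ x, c0 * (μ / r) * (r - ‖x - (y0 - (c * (C * r ^ p / μ ^ (p - 2))) • e)‖) ≤ v x := by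
  have hn0 : (0 : ℝ) ≤ n := Nat.cast_nonneg n
  have hp1 : 0 < p - 1 := by linarith
  set α : ℝ := 4 * (n + p) / (p - 1) with hα
  have hαpos : 0 < α := by rw [hα]; positivity
  have hα4 : (p - 1) * (α / 4) = n + p := by rw [hα]; field_simp
  set D : ℝ := (p - 1) * (α / 4) * (α * Real.exp (-α)) ^ (p - 2) with hD
  have hc0 : 0 < α * Real.exp (-α) := by positivity
  have hDpos : 0 < D := by rw [hD]; positivity
  refine ⟨3 / (8 * D), α * Real.exp (-α), by positivity, hc0, ?_⟩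
  intro c e κ hκ O v hv y0 r μ hr hμ hvμ hball
  set T : ℝ := 3 / (8 * D) * r ^ p / μ ^ (p - 2) with hT
  have hTpos : 0 < T := by rw [hT]; positivity
  set b0 : ℝ := (p - 1) * (α / 4) * (μ * (α * Real.exp (-α)) / r) ^ (p - 2) with hb0
  have hb0pos : 0 < b0 := by rw [hb0]; positivity
  have hb0T : 2 * b0 * T = 3 / 4 * r ^ 2 := by
    have h1 : (μ * (α * Real.exp (-α)) / r) ^ (p - 2) =
        μ ^ (p - 2) * (α * Real.exp (-α)) ^ (p - 2) / r ^ (p - 2) := by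
      rw [Real.div_rpow (by positivity) hr.le, Real.mul_rpow hμ.le hc0.le]
    have h2 : r ^ p = r ^ (p - 2) * r ^ 2 := by
      rw [← Real.rpow_natCast r 2, ← Real.rpow_add hr]
      congr 1; push_cast; ring
    rw [hb0, hT, h1, h2]
    have h3 : (p - 1) * (α / 4) * (α * Real.exp (-α)) ^ (p - 2) = D := rfl
    have h4 : μ ^ (p - 2) ≠ 0 := by positivity
    have h5 : r ^ (p - 2) ≠ 0 := by positivity
    calc 2 * ((p - 1) * (α / 4) * (μ ^ (p - 2) * (α * Real.exp (-α)) ^ (p - 2) / r ^ (p - 2))) *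
          (3 / (8 * D) * (r ^ (p - 2) * r ^ 2) / μ ^ (p - 2))
        = 2 * (((p - 1) * (α / 4) * (α * Real.exp (-α)) ^ (p - 2)) * μ ^ (p - 2) / r ^ (p - 2)) *
          (3 / (8 * D) * (r ^ (p - 2) * r ^ 2) / μ ^ (p - 2)) := by ring
      _ = 2 * (D * μ ^ (p - 2) / r ^ (p - 2)) *
          (3 / (8 * D) * (r ^ (p - 2) * r ^ 2) / μ ^ (p - 2)) := by rw [h3]
      _ = 3 / 4 * r ^ 2 := by field_simp; ring
  set k : ℝ := α / r ^ 2 with hk
  have hkpos : 0 < k := by rw [hk]; positivity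
  set y : ℝ → E n := fun τ => y0 - (c * τ) • e with hy
  have hyc : Continuous y := by rw [hy]; fun_prop
  set B : E n → ℝ → ℝ := fun x τ =>
    μ * (Real.exp (-k * ‖x - y τ‖ ^ 2) - Real.exp (-k * (r ^ 2 / 4 + 2 * b0 * τ))) with hB
  set K : Set (E n × ℝ) := {z | 0 ≤ z.2 ∧ z.2 ≤ T ∧ ‖z.1 - y z.2‖ ≤ r} with hK
  have hKc : IsCompact K := by
    have h1 : IsCompact (closedBall (0 : E n) r ×ˢ Icc (0 : ℝ) T) :=
      (isCompact_closedBall _ _).prod isCompact_Icc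
    have h2 : K = (fun z : E n × ℝ => (y z.2 + z.1, z.2)) '' (closedBall (0 : E n) r ×ˢ Icc (0 : ℝ) T) := by
      ext ⟨a, t⟩
      constructor
      · rintro ⟨h3, h4, h5⟩
        refine ⟨(a - y t, t), ⟨?_, ⟨h3, h4⟩⟩, ?_⟩
        · rw [mem_closedBall, dist_zero_right]; exact h5
        · simp
      · rintro ⟨⟨a', t'⟩, ⟨h3, h4⟩, h5⟩
        simp only [Prod.mk.injEq] at h5
        obtain ⟨rfl, rfl⟩ := h5
        rw [mem_closedBall, dist_zero_right] at h3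
        refine ⟨h4.1, h4.2, ?_⟩
        simpa using h3
    rw [h2]
    exact h1.image (by fun_prop)
  have hBc : Continuous (fun z : E n × ℝ => B z.1 z.2) := by
    rw [hB]
    fun_prop
  have hcomp := cs' hκ (p := p) (b := c • e) (κ := κ) (O := O)
    (hv.cont.lowerSemicontinuous) hv.sp (B := B) hKc
    (hBc.upperSemicontinuous.upperSemicontinuousOn K) (by
    rintro x τ ⟨hτ0, hτT, hxr⟩ hlt'
    simp only at hτ0 hτT hxr
    have hBpos : 0 < B x τ := lt_of_le_of_lt (hv.nn x) hlt'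
    set z : E n := x - y τ with hz
    have hEpos : 0 < Real.exp (-k * (r ^ 2 / 4 + 2 * b0 * τ)) := Real.exp_pos _
    have hBx : B x τ = μ * (Real.exp (-k * ‖z‖ ^ 2) - Real.exp (-k * (r ^ 2 / 4 + 2 * b0 * τ))) := rfl
    have hlt1 : Real.exp (-k * (r ^ 2 / 4 + 2 * b0 * τ)) < Real.exp (-k * ‖z‖ ^ 2) := by
      rw [hBx] at hBpos
      have := pos_of_mul_pos_right hBpos hμ.le
      linarith
    have hzρ : ‖z‖ ^ 2 < r ^ 2 / 4 + 2 * b0 * τ := by
      have := Real.exp_lt_exp.1 hlt1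
      nlinarith
    have hρ : r ^ 2 / 4 + 2 * b0 * τ ≤ r ^ 2 := by
      have : 2 * b0 * τ ≤ 2 * b0 * T := mul_le_mul_of_nonneg_left hτT (by positivity)
      rw [hb0T] at this
      linarith
    have hzr : ‖z‖ < r := by
      have : ‖z‖ ^ 2 < r ^ 2 := lt_of_lt_of_le hzρ hρ
      exact lt_of_pow_lt_pow_left₀ 2 hr.le this
    have hxO : x ∈ O := by
      apply hball τ hτ0 hτT
      rw [mem_ball, dist_eq_norm]
      exact hzr
    have hBμ : B x τ ≤ μ := by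
      rw [hBx]
      have h1 : Real.exp (-k * ‖z‖ ^ 2) ≤ 1 := by
        apply Real.exp_le_one_iff.2
        have : 0 ≤ k * ‖z‖ ^ 2 := by positivity
        linarith
      nlinarith
    have hzhalf : r / 2 < ‖z‖ := by
      by_contra hcon
      push Not at hcon
      have := hvμ τ hτ0 hτT x hcon
      linarith
    have hτpos : 0 < τ := by
      have h1 : r ^ 2 / 4 < ‖z‖ ^ 2 := by
        have : (r / 2) ^ 2 < ‖z‖ ^ 2 := pow_lt_pow_left₀ hzhalf (by positivity) (by norm_num)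
        nlinarith
      have h2 : 0 < 2 * b0 * τ := by linarith
      exact pos_of_mul_pos_right h2 (by positivity)
    have hz0 : z ≠ 0 := by
      intro h0
      rw [h0, norm_zero] at hzhalf
      linarith
    refine ⟨?_, hxO, ?_, ?_⟩
    · refine ⟨min τ ((r - ‖z‖) / (|c| * ‖e‖ + 1)), lt_min hτpos (div_pos (by linarith) (by positivity)), ?_⟩
      intro s hs0 hs
      have hs1 : s < τ := lt_of_lt_of_le hs (min_le_left _ _)
      have hs2 : s < (r - ‖z‖) / (|c| * ‖e‖ + 1) := lt_of_lt_of_le hs (min_le_right _ _)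
      refine ⟨by simp only; linarith, by simp only; linarith, ?_⟩
      simp only
      have h1 : x - y (τ - s) = z - (c * s) • e := by
        rw [hz, hy]
        simp only
        rw [mul_sub, sub_smul]
        abel
      rw [h1]
      have h2 : ‖(c * s) • e‖ ≤ s * (|c| * ‖e‖ + 1) := by
        rw [norm_smul, Real.norm_eq_abs, abs_mul, abs_of_nonneg hs0]
        nlinarith [norm_nonneg e, abs_nonneg c]
      have h3 : s * (|c| * ‖e‖ + 1) < r - ‖z‖ := (lt_div_iff₀ (by positivity)).1 hs2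
      have h4 := norm_sub_le z ((c * s) • e)
      linarith
    · refine ⟨r - ‖z‖, by linarith, ?_⟩
      intro w hw
      refine ⟨hτ0, hτT, ?_⟩
      simp only
      have h1 : w - y τ = (w - x) + z := by rw [hz]; abel
      rw [h1]
      have := norm_add_le (w - x) z
      linarith
    · -- the jets
      set G : ℝ := Real.exp (-k * ‖z‖ ^ 2) with hG
      have hGpos : 0 < G := Real.exp_pos _
      have hT2 := hlt_t2 (y τ) x μ k (Real.exp (-k * (r ^ 2 / 4 + 2 * b0 * τ)))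
      have hder : HasDerivAt (B x) (μ * (G * (-k * (2 * ⟪z, c • e⟫)) -
          Real.exp (-k * (r ^ 2 / 4 + 2 * b0 * τ)) * (-k * (2 * b0)))) τ := by
        have d1 : HasDerivAt (fun τ : ℝ => ‖x - y τ‖ ^ 2) (2 * ⟪z, c • e⟫) τ := by
          have d2 : HasDerivAt (fun τ : ℝ => x - y τ) (c • e) τ := by
            have d3 : HasDerivAt (fun τ : ℝ => (c * τ) • e) (c • e) τ := by
              have d4 : HasDerivAt (fun τ : ℝ => c * τ) c τ := by
                simpa using (hasDerivAt_id τ).const_mul c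
              exact d4.smul_const e
            have d5 := (d3.const_sub y0).const_sub x
            simpa using d5
          exact d2.norm_sq
        have d2 : HasDerivAt (fun τ : ℝ => -k * ‖x - y τ‖ ^ 2) (-k * (2 * ⟪z, c • e⟫)) τ :=
          d1.const_mul (-k)
        have d3 : HasDerivAt (fun τ : ℝ => -k * (r ^ 2 / 4 + 2 * b0 * τ)) (-k * (2 * b0)) τ := by
          have d4 : HasDerivAt (fun τ : ℝ => r ^ 2 / 4 + 2 * b0 * τ) (2 * b0) τ := by
            simpa using ((hasDerivAt_id τ).const_mul (2 * b0)).const_add (r ^ 2 / 4)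
          exact d4.const_mul (-k)
        exact ((d2.exp).sub (d3.exp)).const_mul μ
      refine ⟨_, _, _, dtL_of_hasDerivAt hder, hT2.2, ?_⟩
      set F1 : ℝ := μ * (G * (-k)) with hF1
      have hF1neg : F1 < 0 := by
        rw [hF1]
        have : 0 < μ * (G * k) := by positivity
        linarith
      have hpA := hlt_pA hp z F1 (μ * (G * (-k) * (-k))) hF1neg.ne hz0
      have habs : |F1| = μ * G * k := by
        rw [abs_of_neg hF1neg, hF1]; ring
      rw [hpA, habs]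
      -- lower bound of the norm of the gradient
      have hGe : Real.exp (-α) ≤ G := by
        rw [hG]
        apply Real.exp_le_exp.2
        have : k * ‖z‖ ^ 2 ≤ k * r ^ 2 :=
          mul_le_mul_of_nonneg_left (pow_le_pow_left₀ (norm_nonneg _) hzr.le 2) hkpos.le
        have h2 : k * r ^ 2 = α := by rw [hk]; field_simp
        linarith
      have hPlow : μ * (α * Real.exp (-α)) / r ≤ 2 * (μ * G * k) * ‖z‖ := by
        have h1 : μ * G * k * r ≤ 2 * (μ * G * k) * ‖z‖ := by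
          have : 0 < μ * G * k := by positivity
          nlinarith
        refine le_trans ?_ h1
        have h2 : μ * G * k * r = μ * (α * G) / r := by rw [hk]; field_simp
        rw [h2]
        apply div_le_div_of_nonneg_right _ hr.le
        apply mul_le_mul_of_nonneg_left _ hμ.le
        exact mul_le_mul_of_nonneg_left hGe hαpos.le
      have hpow : (μ * (α * Real.exp (-α)) / r) ^ (p - 2) ≤ (2 * (μ * G * k) * ‖z‖) ^ (p - 2) :=
        Real.rpow_le_rpow (by positivity) hPlow (by linarith)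
      have hbr : 2 * (μ * G * k) * ((p - 1) * (α / 4)) ≤
          2 * (μ * (G * (-k))) * (↑n + p - 2) + μ * (G * (-k) * (-k)) * (p - 1) * (4 * ‖z‖ ^ 2) := by
        have h1 : α / 4 ≤ k * ‖z‖ ^ 2 := by
          have h2 : (r / 2) ^ 2 ≤ ‖z‖ ^ 2 := pow_le_pow_left₀ (by positivity) hzhalf.le 2
          have h3 : k * (r / 2) ^ 2 = α / 4 := by rw [hk]; field_simp; ring
          rw [← h3]
          exact mul_le_mul_of_nonneg_left h2 hkpos.le
        have h4 : 0 < μ * G * k := by positivity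
        have h5 : (n : ℝ) + p - 2 + (p - 1) * (α / 4) ≤ 2 * ((p - 1) * (k * ‖z‖ ^ 2)) := by
          have : (p - 1) * (α / 4) ≤ (p - 1) * (k * ‖z‖ ^ 2) := mul_le_mul_of_nonneg_left h1 hp1.le
          linarith
        have h6 := mul_le_mul_of_nonneg_left h5 h4.le
        nlinarith [h6]
      have hbr0 : 0 ≤ 2 * (μ * G * k) * ((p - 1) * (α / 4)) := by positivity
      have hmain : 2 * (μ * G * k) * b0 ≤ (2 * (μ * G * k) * ‖z‖) ^ (p - 2) *
          (2 * (μ * (G * (-k))) * (↑n + p - 2) + μ * (G * (-k) * (-k)) * (p - 1) * (4 * ‖z‖ ^ 2)) := by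
        calc 2 * (μ * G * k) * b0 = (μ * (α * Real.exp (-α)) / r) ^ (p - 2) *
              (2 * (μ * G * k) * ((p - 1) * (α / 4))) := by rw [hb0]; ring
          _ ≤ _ := mul_le_mul hpow hbr hbr0 (by positivity)
      have hinner : ⟪c • e, F1 • ((2 : ℝ) • z)⟫ = μ * (G * (-k * (2 * ⟪z, c • e⟫))) := by
        rw [inner_smul_right, inner_smul_right, real_inner_comm, hF1]
        ring
      have hκB : 0 ≤ κ * B x τ := mul_nonneg hκ hBpos.le
      have htime : μ * (G * (-k * (2 * ⟪z, c • e⟫)) -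
          Real.exp (-k * (r ^ 2 / 4 + 2 * b0 * τ)) * (-k * (2 * b0))) ≤
          μ * (G * (-k * (2 * ⟪z, c • e⟫))) + 2 * (μ * G * k) * b0 := by
        have h1 : μ * (2 * k * b0) * Real.exp (-k * (r ^ 2 / 4 + 2 * b0 * τ)) ≤ μ * (2 * k * b0) * G :=
          mul_le_mul_of_nonneg_left hlt1.le (by positivity)
        nlinarith [h1]
      have hlast : ⟪c • e, F1 • ((2 : ℝ) • (x - y τ))⟫ = ⟪c • e, F1 • ((2 : ℝ) • z)⟫ := rfl
      rw [hlast, hinner]
      linarith)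
  intro x
  set z : E n := x - y T with hz
  show α * Real.exp (-α) * (μ / r) * (r - ‖z‖) ≤ v x
  by_cases hzr : ‖z‖ ≤ r
  · have h1 := hcomp x T ⟨hTpos.le, le_rfl, hzr⟩
    refine le_trans ?_ h1
    have h2 : -k * (r ^ 2 / 4 + 2 * b0 * T) = -α := by
      rw [hb0T, hk]; field_simp; ring
    show _ ≤ μ * (Real.exp (-k * ‖x - y T‖ ^ 2) - Real.exp (-k * (r ^ 2 / 4 + 2 * b0 * T)))
    rw [h2, ← hz]
    set s : ℝ := ‖z‖ / r with hs
    have hs0 : 0 ≤ s := by positivity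
    have hs1 : s ≤ 1 := by rw [hs, div_le_one hr]; exact hzr
    have h3 : -k * ‖z‖ ^ 2 = -α + α * (1 - s ^ 2) := by
      rw [hs, hk]; field_simp; ring
    rw [h3, Real.exp_add]
    have h4 : α * (1 - s ^ 2) + 1 ≤ Real.exp (α * (1 - s ^ 2)) := Real.add_one_le_exp _
    have h5 : 1 - s ≤ 1 - s ^ 2 := by nlinarith
    have hE : 0 < Real.exp (-α) := Real.exp_pos _
    have h6 : α * Real.exp (-α) * (μ / r) * (r - ‖z‖) = μ * (Real.exp (-α) * (α * (1 - s))) := by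
      rw [hs]; field_simp
    rw [h6]
    apply mul_le_mul_of_nonneg_left _ hμ.le
    have h7 : Real.exp (-α) * (α * (1 - s)) ≤ Real.exp (-α) * (Real.exp (α * (1 - s ^ 2)) - 1) := by
      apply mul_le_mul_of_nonneg_left _ hE.le
      have : α * (1 - s) ≤ α * (1 - s ^ 2) := mul_le_mul_of_nonneg_left h5 hαpos.le
      linarith
    linarith
  · push Not at hzr
    have h1 : α * Real.exp (-α) * (μ / r) * (r - ‖z‖) ≤ 0 := by
      apply mul_nonpos_of_nonneg_of_nonpos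
      · positivity
      · linarith
    linarith [hv.nn x]

end Pool.Agent.TWC
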