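import Pool.Agent.TWC.WA
import Pool.Agent.TWC.RAT
import Pool.Agent.TWC.HLT
import Pool.Agent.TWC.PHI

/-!
# TWC WE: comparison of `W` with a travelling wave `φ`

* `wave_bdd`: `φ` is continuous, close to the bounded `Φ` for heights `≤ -R`, zero for heights `≥ R'`, zero
  off `Ω`, and the middle slab is compact.
* `wave_le_phi`: `φ ≤ C dw` (`lin_wall`) `≤ (C/k) Φ` (`phi_lower`), `M0 = max 1 (C/k)`; `ratio` with `u = φ`,
  `ψ = Φ`, `σ0 = 0` (`hleft`: `φ x ≤ Φ x + η = Φ (x - s e) + η` for `<x,e> ≤ -R`). Conclusion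
  `φ x ≤ Φ (x - σ e) = Φ x`.
* `wave_left`: `∃ R, k > 0: k dw x ≤ φ x` for `<x,e> ≤ -R`. `Φ ≥ k1 dw` (`phi_lower`); `μ = k1 r0/4`; let `R1` be
  such that `|φ - Φ| ≤ μ` for `<x,e> ≤ -R1`: then `φ ≥ μ` at points with `dw ≥ r0/2`, `<x,e> ≤ -R1`. Let
  `x ∈ Ω`, `<x,e> ≤ -R1 - c T - 2 r0 - 1` (`T = C r0^p/μ^(p-2)` from `hlt`). If `dw x ≥ r0/2`: `φ x ≥ μ ≥ k dw x`
  (`dw` bounded). Otherwise `x = w + d ν`, `y = w + r0 ν`, `y0 = y + c T e`: on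
  `closedBall (y0 - cτ e) (r0/2)`: `dw ≥ r0/2` (`ball (y0 - cτ e) r0 ⊆ Ω`, `ball_inv`, `le_dw`, `dw_lip`) and
  heights `≤ -R1`, so `φ ≥ μ`; `hlt` (`O = Ω`): `φ x ≥ c0 (μ/r0)(r0 - |x - y|) = c0 (μ/r0) d`. (`c ≥ 0`.)
* `wave_mem`: if `φ = 0` for heights `≥ 0` then `φ ∈ FF`.
* `ww_le_wave`: `W ≤ φ(· - S1 e)`: `W ≤ Φ ≤ C dw` (`lin_wall` for `Φ`). With `R, k` of `wave_left`, `R ≥ 0`: for
  heights `< 0`: `φ (x - R e) ≥ k dw x ≥ (k/C) Φ x ≥ (k/C) W x`. `M0 = max 1 (C/k)`, `σ0 = R`; `ratio` with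
  `u = W`, `ψ = φ` (`hleft`: `W x ≤ Φ x = Φ (x - s e) ≤ φ (x - s e) + η` for `<x,e> ≤ -R'-S`). `S1 = R + c (p-2) log M0`.
-/

open Set Metric Filter Topology
open scoped RealInnerProductSpace

noncomputable section

namespace Pool.Agent.TWC

variable {n : ℕ} {p c : ℝ} {e : E n} {r0 : ℝ} {Ω : Set (E n)} {Φ φ : E n → ℝ}

theorem wave_bdd (hΩ : Tube e r0 Ω) (hΦ : Prof p c e Ω Φ) (hφ : Wave p c e Ω Φ φ) :
    ∃ C, ∀ x, φ x ≤ C := by
  obtain ⟨C0, hC0, hC⟩ := phi_bdd hΩ hΦ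
  obtain ⟨R, hR⟩ := hφ.lim 1 one_pos
  obtain ⟨R', hR'⟩ := hφ.right
  have hK := slab_compact hΩ (-R) R'
  obtain ⟨C1, hC1⟩ := hK.bddAbove_image hφ.sup.cont.continuousOn
  refine ⟨max (C0 + 1) (max C1 0), fun x => ?_⟩
  by_cases hx : x ∈ Ω
  swap
  · rw [hφ.off x hx]
    exact (le_max_right _ _).trans (le_max_right _ _)
  rcases le_total ⟪x, e⟫ (-R) with h1 | h1
  · have h2 := abs_le.1 (hR x h1)
    have h3 := hC x
    refine le_trans ?_ (le_max_left _ _)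
    linarith [h2.2]
  · rcases le_total R' ⟪x, e⟫ with h2 | h2
    · rw [hR' x h2]
      exact (le_max_right _ _).trans (le_max_right _ _)
    · have h3 : φ x ≤ C1 := hC1 ⟨x, ⟨subset_closure hx, h1, h2⟩, rfl⟩
      exact h3.trans ((le_max_left _ _).trans (le_max_right _ _))

theorem wave_le_phi (hp : 2 < p) (hc : 0 ≤ c) (hΩ : Tube e r0 Ω) (hne : (Ωᶜ).Nonempty)
    (hΦ : Prof p c e Ω Φ) (hφ : Wave p c e Ω Φ φ) : ∀ x, φ x ≤ Φ x := by
  obtain ⟨Cb, hCb⟩ := wave_bdd hΩ hΦ hφ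
  obtain ⟨C, hC, hlin⟩ := lin_wall (c := c) hp hΩ hne Cb
  obtain ⟨k, hk, hlow⟩ := phi_lower hp hc hΩ hne hΦ
  have hinv : ∀ x, ∀ s : ℝ, Φ (x - s • e) = Φ x := by
    intro x s
    have h1 := hΦ.inv x (-s)
    rwa [neg_smul, ← sub_eq_add_neg] at h1
  have h1 : ∀ x, φ x ≤ max 1 (C / k) * Φ (x - (0 : ℝ) • e) := by
    intro x
    rw [hinv]
    have h2 := hlin φ hφ.sub hφ.off hCb x
    have h3 := hlow x
    have h4 := hΦ.nn x
    have h5 : C * dw Ω x ≤ C / k * Φ x := by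
      have h6 : C / k * (k * dw Ω x) ≤ C / k * Φ x :=
        mul_le_mul_of_nonneg_left h3 (div_pos hC hk).le
      have h7 : C / k * (k * dw Ω x) = C * dw Ω x := by
        field_simp
      rwa [h7] at h6
    have h8 : C / k * Φ x ≤ max 1 (C / k) * Φ x :=
      mul_le_mul_of_nonneg_right (le_max_right _ _) h4
    linarith
  have h2 := ratio hp hΩ hφ.sub hφ.off hΦ.sup (σ0 := 0) (le_max_left 1 (C / k)) ?_ hφ.right h1
  · intro x
    have h3 := h2 x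
    rwa [hinv] at h3
  · intro η hη S
    obtain ⟨R, hR⟩ := hφ.lim η hη
    refine ⟨R, fun x s _ hx => ?_⟩
    rw [hinv]
    have h3 := (abs_le.1 (hR x hx)).2
    linarith

theorem wave_left (hp : 2 < p) (hc : 0 ≤ c) (hΩ : Tube e r0 Ω) (hne : (Ωᶜ).Nonempty)
    (hΦ : Prof p c e Ω Φ) (hφ : Wave p c e Ω Φ φ) :
    ∃ R k : ℝ, 0 ≤ R ∧ 0 < k ∧ ∀ x, ⟪x, e⟫ ≤ -R → k * dw Ω x ≤ φ x := by
  obtain ⟨k1, hk1, hlow⟩ := phi_lower hp hc hΩ hne hΦ
  obtain ⟨C, c0, hC, hc0, hhlt⟩ := hlt hp n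
  have hr0 := hΩ.r0pos
  have hp2 : 0 < p - 2 := by linarith
  have hka0 : 0 < ka p := by
    unfold ka
    positivity
  obtain ⟨μ, hμ⟩ : ∃ μ : ℝ, μ = k1 * r0 / 4 := ⟨_, rfl⟩
  have hμpos : 0 < μ := by
    rw [hμ]
    positivity
  obtain ⟨R1, hR1⟩ := hφ.lim μ hμpos
  have hbig : ∀ x, r0 / 2 ≤ dw Ω x → ⟪x, e⟫ ≤ -R1 → μ ≤ φ x := by
    intro x h1 h2
    have h3 := (abs_le.1 (hR1 x h2)).1
    have h4 := hlow x
    have h5 : k1 * (r0 / 2) ≤ k1 * dw Ω x := mul_le_mul_of_nonneg_left h1 hk1.le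
    rw [hμ] at h3 ⊢
    linarith
  obtain ⟨T, hT⟩ : ∃ T : ℝ, T = C * r0 ^ p / μ ^ (p - 2) := ⟨_, rfl⟩
  have hTpos : 0 < T := by
    rw [hT]
    positivity
  have hcT : 0 ≤ c * T := mul_nonneg hc hTpos.le
  obtain ⟨Cd, hCd⟩ := dw_bdd hΩ hne
  have hCd0 : 0 < max Cd 1 := lt_of_lt_of_le one_pos (le_max_right _ _)
  refine ⟨|R1| + c * T + 2 * r0 + 1, min (c0 * (μ / r0)) (μ / max Cd 1), ?_, ?_, ?_⟩
  · have := abs_nonneg R1
    positivity
  · exact lt_min (by positivity) (by positivity)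
  intro x hx
  have hR1a := le_abs_self R1
  by_cases hxΩ : x ∈ Ω
  swap
  · have h1 : dw Ω x = 0 := by
      refine le_antisymm ?_ (dw_nonneg x)
      by_contra h2
      push Not at h2
      exact hxΩ ((dw_pos hΩ hne).1 h2)
    rw [h1, mul_zero]
    exact hφ.sub.nn x
  rcases le_or_gt (r0 / 2) (dw Ω x) with hd | hd
  · have h1 := hbig x hd (by linarith)
    have h2 : min (c0 * (μ / r0)) (μ / max Cd 1) * dw Ω x ≤ μ / max Cd 1 * max Cd 1 :=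
      mul_le_mul (min_le_right _ _) ((hCd x).trans (le_max_left _ _)) (dw_nonneg x) (by positivity)
    rw [div_mul_cancel₀ _ hCd0.ne'] at h2
    linarith
  · obtain ⟨w, ν, hw, hν, hb, hxw⟩ := near hΩ hne hxΩ
    obtain ⟨d, hdd⟩ : ∃ d : ℝ, d = dw Ω x := ⟨_, rfl⟩
    rw [← hdd] at hxw hd ⊢
    have hνe := nu_perp hΩ hw hν hb
    have hye : ⟪w + r0 • ν, e⟫ = ⟪x, e⟫ := by
      rw [hxw, inner_add_left, inner_add_left, real_inner_smul_left, real_inner_smul_left, hνe,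
        mul_zero, mul_zero]
    have hee : ⟪e, e⟫ = (1 : ℝ) := by
      rw [real_inner_self_eq_norm_sq, hΩ.unit, one_pow]
    have hcen : ∀ τ : ℝ, (w + r0 • ν + (c * T) • e) - (c * τ) • e =
        (w + r0 • ν) + (c * T - c * τ) • e := by
      intro τ
      rw [sub_smul]
      abel
    have hcball : ∀ τ : ℝ, ball ((w + r0 • ν + (c * T) • e) - (c * τ) • e) r0 ⊆ Ω := by
      intro τ
      rw [hcen]
      exact ball_inv hΩ hb _
    have h1 := hhlt c e (ka p) hka0.le Ω φ hφ.sup (w + r0 • ν + (c * T) • e) r0 μ hr0 hμpos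
      (by
        intro τ hτ0 hτT z hz
        have hzb : ball z (r0 / 2) ⊆ Ω := by
          intro y hy
          refine hcball τ ?_
          rw [mem_ball, dist_eq_norm] at hy ⊢
          have h2 : y - (w + r0 • ν + (c * T) • e - (c * τ) • e) =
            (y - z) + (z - (w + r0 • ν + (c * T) • e - (c * τ) • e)) := by abel
          rw [h2]
          have h3 := norm_add_le (y - z) (z - (w + r0 • ν + (c * T) • e - (c * τ) • e))
          linarith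
        refine hbig z (le_dw hne hzb) ?_
        have h2 : ⟪z, e⟫ = ⟪z - (w + r0 • ν + (c * T) • e - (c * τ) • e), e⟫ +
            (⟪x, e⟫ + (c * T - c * τ)) := by
          rw [hcen, inner_sub_left, inner_add_left, real_inner_smul_left, hye, hee]
          ring
        have h3 := abs_real_inner_le_norm (z - (w + r0 • ν + (c * T) • e - (c * τ) • e)) e
        rw [hΩ.unit, mul_one] at h3
        have h4 := (abs_le.1 h3).2
        have h5 : 0 ≤ c * τ := mul_nonneg hc hτ0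
        linarith)
      (fun τ _ _ => hcball τ) x
    rw [← hT] at h1
    have h2 : x - (w + r0 • ν + (c * T) • e - (c * T) • e) = (d - r0) • ν := by
      rw [hxw, sub_smul]
      abel
    rw [h2, norm_smul, hν, mul_one, Real.norm_eq_abs, abs_of_nonpos (by linarith)] at h1
    have h3 : c0 * (μ / r0) * (r0 - -(d - r0)) = c0 * (μ / r0) * d := by ring
    rw [h3] at h1
    have h4 : 0 ≤ d := by
      rw [hdd]
      exact dw_nonneg x
    exact le_trans (mul_le_mul_of_nonneg_right (min_le_left _ _) h4) h1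

theorem wave_mem (hp : 2 < p) (hc : 0 ≤ c) (hΩ : Tube e r0 Ω) (hne : (Ωᶜ).Nonempty)
    (hΦ : Prof p c e Ω Φ) (hφ : Wave p c e Ω Φ φ) (h0 : ∀ x, 0 ≤ ⟪x, e⟫ → φ x = 0) :
    φ ∈ FF p c e Φ := by
  exact ⟨hφ.sub, wave_le_phi hp hc hΩ hne hΦ hφ, h0⟩

theorem ww_le_wave (hp : 2 < p) (hc : 0 ≤ c) (hΩ : Tube e r0 Ω) (hne : (Ωᶜ).Nonempty)
    (hΦ : Prof p c e Ω Φ) (hφ : Wave p c e Ω Φ φ) :
    ∃ S1, 0 ≤ S1 ∧ ∀ x, WW p c e Φ x ≤ φ (x - S1 • e) := by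
  obtain ⟨hWsub, hWΦ, hW0⟩ := ww_mem hp hΩ hΦ
  obtain ⟨R, k, hR, hk, hleft⟩ := wave_left hp hc hΩ hne hΦ hφ
  obtain ⟨Cb, hCb0, hCb⟩ := phi_bdd hΩ hΦ
  obtain ⟨C, hC, hlin⟩ := lin_wall (c := c) hp hΩ hne Cb
  have hΦlin := hlin Φ hΦ.sub hΦ.off hCb
  have hee : ⟪e, e⟫ = (1 : ℝ) := by
    rw [real_inner_self_eq_norm_sq, hΩ.unit, one_pow]
  have hinv : ∀ x, ∀ s : ℝ, Φ (x - s • e) = Φ x := by
    intro x s
    have h1 := hΦ.inv x (-s)
    rwa [neg_smul, ← sub_eq_add_neg] at h1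
  have hdinv : ∀ x, ∀ s : ℝ, dw Ω (x - s • e) = dw Ω x := by
    intro x s
    have h1 := dw_inv hΩ x (-s)
    rwa [neg_smul, ← sub_eq_add_neg] at h1
  have hht : ∀ x, ∀ s : ℝ, ⟪x - s • e, e⟫ = ⟪x, e⟫ - s := by
    intro x s
    rw [inner_sub_left, real_inner_smul_left, hee, mul_one]
  have hp2 : 0 < p - 2 := by linarith
  have hM1 : 1 ≤ max 1 (C / k) := le_max_left _ _
  have h1 : ∀ x, WW p c e Φ x ≤ max 1 (C / k) * φ (x - R • e) := by
    intro x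
    have h2 := hφ.sub.nn (x - R • e)
    rcases le_or_gt 0 ⟪x, e⟫ with h3 | h3
    · rw [hW0 x h3]
      positivity
    · have h4 := hleft (x - R • e) (by
        rw [hht]
        linarith)
      rw [hdinv] at h4
      have h5 := hΦlin x
      have h6 := hWΦ x
      have h7 : C / k * (k * dw Ω x) ≤ C / k * φ (x - R • e) :=
        mul_le_mul_of_nonneg_left h4 (div_pos hC hk).le
      have h8 : C / k * (k * dw Ω x) = C * dw Ω x := by
        field_simp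
      have h9 : C / k * φ (x - R • e) ≤ max 1 (C / k) * φ (x - R • e) :=
        mul_le_mul_of_nonneg_right (le_max_right _ _) h2
      linarith
  have hoff : ∀ x ∉ Ω, WW p c e Φ x = 0 := by
    intro x hx
    refine le_antisymm ?_ (hWsub.nn x)
    rw [← hΦ.off x hx]
    exact hWΦ x
  obtain ⟨S, hS⟩ : ∃ S : ℝ, S = R + c * (p - 2) * Real.log (max 1 (C / k)) := ⟨_, rfl⟩
  have hmain : ∀ x, WW p c e Φ x ≤ φ (x - S • e) := by
    rw [hS]
    refine ratio hp hΩ hWsub hoff hφ.sup hM1 ?_ ⟨0, hW0⟩ h1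
    intro η hη S
    obtain ⟨R', hR'⟩ := hφ.lim η hη
    refine ⟨R' + S, fun x s hs hx => ?_⟩
    have h2 := (abs_le.1 (hR' (x - s • e) (by
      rw [hht]
      have := (abs_le.1 hs).1
      linarith))).1
    rw [hinv] at h2
    have h3 := hWΦ x
    linarith
  refine ⟨⌈S⌉₊, Nat.zero_le _, fun x => ?_⟩
  have h2 : S ≤ (⌈S⌉₊ : ℝ) := Nat.le_ceil S
  rw [← Nat.cast_smul_eq_nsmul ℝ]
  have h3 := ww_mono hp hΩ hΦ (x - ((⌈S⌉₊ : ℝ) - S) • e) ((⌈S⌉₊ : ℝ) - S) (by linarith)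
  rw [sub_add_cancel] at h3
  have h4 := hmain (x - ((⌈S⌉₊ : ℝ) - S) • e)
  have h5 : x - ((⌈S⌉₊ : ℝ) - S) • e - S • e = x - (⌈S⌉₊ : ℝ) • e := by
    rw [sub_smul]
    abel
  rw [h5] at h4
  exact h3.trans h4

end Pool.Agent.TWC
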