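import Pool.Agent.TWC.WC
import Pool.Agent.TWC.WD
import Pool.Agent.TWC.WE

/-!
# TWC WF: the package `WP` for `W`

Assembly: `φ` a wave with `φ = 0` for heights `≥ 0`, so `φ ∈ FF` (`wave_mem`), continuous (`hφ.sup.cont`) and
positive somewhere (`wave_left` at a point of `Ω` far to the left; `dw > 0` on `Ω`). `ww_mem`, `ww_max`,
`ww_mono`, `ww_open`, `ww_sp`; `left` from `φ ≤ W`; `qs.sb` is the restriction of `sub.sb`.
-/

open Set Metric Filter Topology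
open scoped RealInnerProductSpace

noncomputable section

namespace Pool.Agent.TWC

variable {n : ℕ} {p c : ℝ} {e : E n} {r0 : ℝ} {Ω : Set (E n)} {Φ φ : E n → ℝ}

private theorem WF_pos (hp : 2 < p) (hc : 0 < c) (hΩ : Tube e r0 Ω) (hne : (Ωᶜ).Nonempty)
    (hΦ : Prof p c e Ω Φ) (hφ : Wave p c e Ω Φ φ) : ∃ x, 0 < φ x := by
  obtain ⟨R, k, hR, hk, h⟩ := wave_left hp hc.le hΩ hne hΦ hφ
  obtain ⟨x0, hx0⟩ := hΩ.nonempty
  have hx1 : x0 + (-R - ⟪x0, e⟫) • e ∈ Ω := hΩ.inv x0 hx0 _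
  refine ⟨x0 + (-R - ⟪x0, e⟫) • e, ?_⟩
  have h1 : ⟪x0 + (-R - ⟪x0, e⟫) • e, e⟫ ≤ -R := by
    rw [inner_add_left, real_inner_smul_left, real_inner_self_eq_norm_sq, hΩ.unit]
    apply le_of_eq
    ring
  have h2 := h _ h1
  have h3 := (dw_pos hΩ hne).2 hx1
  exact lt_of_lt_of_le (mul_pos hk h3) h2

theorem ww_wp (hp : 2 < p) (hc : 0 < c) (hΩ : Tube e r0 Ω) (hne : (Ωᶜ).Nonempty)
    (hΦ : Prof p c e Ω Φ) (hφ : Wave p c e Ω Φ φ) (h0 : ∀ x, 0 ≤ ⟪x, e⟫ → φ x = 0) :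
    WP p c e Ω Φ (WW p c e Φ) := by
  have hmem := wave_mem hp hc.le hΩ hne hΦ hφ h0
  have hW := ww_mem hp hΩ hΦ
  obtain ⟨ho, hconv, hconc, hlin, hcont⟩ :=
    ww_open hp hc hΩ hne hΦ ⟨φ, hmem, hφ.sup.cont, WF_pos hp hc hΩ hne hΦ hφ⟩
  have hle := ww_max hΩ hΦ hmem
  refine
    { cont := hcont
      sub := hW.1
      sup := ⟨hW.1.nn, hcont, ww_sp hp hΩ hΦ hcont⟩
      lePhi := hW.2.1
      off := fun x hx => le_antisymm ((hW.2.1 x).trans (hΦ.off x hx).le) (hW.1.nn x)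
      right := hW.2.2
      mono := ww_mono hp hΩ hΦ
      qs := ⟨ho, hconv, fun x hx => hx, hconc, fun x _ => hW.1.sb x (mem_univ x)⟩
      left := ?_
      lin := hlin }
  obtain ⟨R, k, hR, hk, h⟩ := wave_left hp hc.le hΩ hne hΦ hφ
  exact ⟨R, k, hk, fun x hx => (h x hx).trans (hle x)⟩

theorem wave_le_ww (hp : 2 < p) (hc : 0 < c) (hΩ : Tube e r0 Ω) (hne : (Ωᶜ).Nonempty)
    (hΦ : Prof p c e Ω Φ) (hφ : Wave p c e Ω Φ φ) (h0 : ∀ x, 0 ≤ ⟪x, e⟫ → φ x = 0) :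
    ∀ x, φ x ≤ WW p c e Φ x :=
  ww_max hΩ hΦ (wave_mem hp hc.le hΩ hne hΦ hφ h0)

end Pool.Agent.TWC
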