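import Pool.Agent.TWC.VPT
import Pool.Agent.TWC.FPT
import Pool.Agent.TWC.COI
import Pool.Agent.TWC.RAT
import Pool.Agent.TWC.WF

/-!
# TWC UNI: a normalised travelling wave is the maximal subsolution `W`

`φ` a wave, `φ = 0` for heights `≥ 0`, and positive at heights arbitrarily close to `0`. `W = WW p c e Φ`.
`φ ≤ W` (`wave_le_ww`). Let `S* = sInf {S ≥ 0 : W ≤ φ(· - S e)}` (nonempty by `ww_le_wave`); by continuity of `φ`
the infimum is attained: `W ≤ ψ := φ(· - S* e)`. Suppose `S* > 0`. `Above p c e Ω W ψ`: translation (`Sup` is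
translation invariant: `uj_shift` applied to `-φ`, `Ω` invariant). There is `x1` with `ψ x1 > 0`, `<x1,e> > 0`
(`φ x > 0`, `<x,e> > -S*`, `x1 = x + S* e`). `casea`: `W < ψ` on `Nn W`. Let `lam = 2/(c(p-2))`,
`lam1 = 1/(2c(p-2))`; `L0, R` from `far_strict` for `lam`. `vpt`, `fpt`: a `δ > 0`, `δ ≤ S*`, with
`W x ≤ exp(lam1 δ) ψ (x + δ e)` for all `x` (`ψ ≥ 0`, `exp ≥ 1`). `ratio` with `M0 = exp(lam1 δ) ≥ 1`, `σ0 = -δ`:
`W x ≤ ψ (x - (-δ + c(p-2) lam1 δ) e) = ψ (x + (δ/2) e) = φ (x - (S* - δ/2) e)`, contradicting the minimality.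
(`hleft` of `ratio`: `W x ≤ Φ x = Φ (x - s e - S* e) ≤ φ (x - s e - S* e) + η` for `<x,e>` very negative, uniformly in
`|s| ≤ S`.) So `S* = 0` and `W ≤ φ`.
-/

open Set Metric Filter Topology
open scoped RealInnerProductSpace

noncomputable section

namespace Pool.Agent.TWC

variable {n : ℕ} {p c : ℝ} {e : E n} {r0 : ℝ} {Ω : Set (E n)} {Φ φ : E n → ℝ}

private theorem UNI_lj_shift {u : E n → ℝ} {x P : E n} {X : Bil n} (a : E n)
    (h : LJ (fun y => u (y - a)) x P X) : LJ u (x - a) P X := by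
  have h1 := uj_neg.2 h
  have h2 : UJ (fun y => (fun z => -u z) (y - a)) x (-P) (-X) := h1
  exact uj_neg.1 ((uj_shift a).1 h2)

private theorem UNI_sup (hΩ : Tube e r0 Ω) (hφ : Sup p (c • e) (ka p) Ω φ) (S : ℝ) :
    Sup p (c • e) (ka p) Ω (fun x => φ (x - S • e)) := by
  refine ⟨fun x => hφ.nn _, hφ.cont.comp (by fun_prop), ?_⟩
  intro x hx P X hJ
  have h1 := UNI_lj_shift (S • e) hJ
  have h2 : x - S • e ∈ Ω := by
    have := hΩ.inv x hx (-S)
    rwa [neg_smul, ← sub_eq_add_neg] at this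
  exact hφ.sp _ h2 P X h1

theorem uni (hp : 2 < p) (hc : 0 < c) (hΩ : Tube e r0 Ω) (hne : (Ωᶜ).Nonempty)
    (hΦ : Prof p c e Ω Φ) (hφ : Wave p c e Ω Φ φ) (h0 : ∀ x, 0 ≤ ⟪x, e⟫ → φ x = 0)
    (h1 : ∀ ε > 0, ∃ x, 0 < φ x ∧ -ε < ⟪x, e⟫) : φ = WW p c e Φ := by
  have hW := ww_wp hp hc hΩ hne hΦ hφ h0
  have hle := wave_le_ww hp hc hΩ hne hΦ hφ h0
  set W := WW p c e Φ with hWdef
  have hp2 : 0 < p - 2 := by linarith
  have hee : ⟪e, e⟫ = (1:ℝ) := by rw [real_inner_self_eq_norm_sq, hΩ.unit, one_pow]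
  set A : Set ℝ := {S | 0 ≤ S ∧ ∀ x, W x ≤ φ (x - S • e)} with hA
  have hAne : A.Nonempty := by
    obtain ⟨S1, hS1, h⟩ := ww_le_wave hp hc.le hΩ hne hΦ hφ
    refine ⟨(S1 : ℝ), by exact_mod_cast hS1, fun x => ?_⟩
    have h2 := h x
    first
      | exact h2
      | (rw [← Nat.cast_smul_eq_nsmul ℝ] at h2; exact h2)
  have hAbdd : BddBelow A := ⟨0, fun S hS => hS.1⟩
  have hAcl : IsClosed A := by
    have e1 : A = Ici 0 ∩ ⋂ x, {S : ℝ | W x ≤ φ (x - S • e)} := by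
      ext S
      simp [hA]
    rw [e1]
    refine isClosed_Ici.inter (isClosed_iInter fun x => ?_)
    refine isClosed_le continuous_const (hφ.sup.cont.comp ?_)
    fun_prop
  set S := sInf A with hS
  have hSA : S ∈ A := hAcl.csInf_mem hAne hAbdd
  rcases hSA.1.lt_or_eq with hpos | hzero
  swap
  · funext x
    refine le_antisymm (hle x) ?_
    have := hSA.2 x
    rw [← hzero, zero_smul, sub_zero] at this
    exact this
  exfalso
  have hψ : Above p c e Ω W (fun x => φ (x - S • e)) := by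
    refine ⟨UNI_sup hΩ hφ.sup S, fun x hx => hφ.off _ fun h => hx ?_, hSA.2⟩
    have := hΩ.inv _ h S
    rwa [sub_add_cancel] at this
  have hx1 : ∃ x, 0 < (fun x => φ (x - S • e)) x ∧ 0 < ⟪x, e⟫ := by
    obtain ⟨x, hx, hxe⟩ := h1 S hpos
    refine ⟨x + S • e, ?_, ?_⟩
    · show 0 < φ (x + S • e - S • e)
      rw [add_sub_cancel_right]
      exact hx
    · rw [inner_add_left, real_inner_smul_left, hee]
      linarith
  have hlt := casea hp hc hΩ hne hW hψ hx1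
  have hcp : 0 < c * (p - 2) := by positivity
  obtain ⟨L0, R, hL0, hfar⟩ := far_strict (lam := 2 / (c * (p - 2))) hp hΩ hne hΦ hW (by positivity)
  obtain ⟨δ1, hδ1, hv⟩ := vpt hp hc hΩ hne hΦ hW hψ hlt (lam := 2 / (c * (p - 2)))
    (by rw [mul_div_cancel₀ _ hcp.ne']; norm_num) hL0 hfar
  obtain ⟨δ2, hδ2, hf⟩ := fpt hp hc hΩ hne hΦ hW hψ hlt (lam := 2 / (c * (p - 2)))
    (lam1 := 1 / (2 * (c * (p - 2)))) hL0 (by positivity)
  set δ := min (min δ1 δ2) S with hδ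
  have hδ0 : 0 < δ := lt_min (lt_min hδ1 hδ2) hpos
  have hδ1' : δ ≤ δ1 := (min_le_left _ _).trans (min_le_left _ _)
  have hδ2' : δ ≤ δ2 := (min_le_left _ _).trans (min_le_right _ _)
  have hδS : δ ≤ S := min_le_right _ _
  set M0 := Real.exp (1 / (2 * (c * (p - 2))) * δ) with hM0
  have hM01 : 1 ≤ M0 := Real.one_le_exp (by positivity)
  have hall : ∀ x, W x ≤ M0 * (fun x => φ (x - S • e)) (x - (-δ) • e) := by
    intro x
    have e1 : x - (-δ) • e = x + δ • e := by rw [neg_smul, sub_neg_eq_add]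
    rw [e1]
    by_cases hx : x ∈ FS e W (2 / (c * (p - 2))) L0
    · exact hf δ hδ0 hδ2' x hx
    · have h2 := hv δ hδ0 hδ1' x hx
      have h3 : 0 ≤ (fun x => φ (x - S • e)) (x + δ • e) := hψ.sup.nn _
      nlinarith
  have hleft : ∀ η > 0, ∀ S', ∃ R, ∀ x, ∀ s : ℝ, |s| ≤ S' → ⟪x, e⟫ ≤ -R →
      W x ≤ (fun x => φ (x - S • e)) (x - s • e) + η := by
    intro η hη S'
    obtain ⟨R', hR'⟩ := hφ.lim η hη
    refine ⟨R' + S', fun x s hs hx => ?_⟩
    have e1 : x - s • e - S • e = x + (-(s + S)) • e := by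
      rw [neg_smul, add_smul]
      abel
    have e2 : ⟪x + (-(s + S)) • e, e⟫ ≤ -R' := by
      rw [inner_add_left, real_inner_smul_left, hee]
      have := neg_le_of_abs_le hs
      linarith
    have h2 := abs_le.1 (hR' _ e2)
    rw [hΦ.inv] at h2
    have h3 := hW.lePhi x
    show W x ≤ φ (x - s • e - S • e) + η
    rw [e1]
    linarith [h2.1]
  have hfin := ratio hp hΩ hW.sub hW.off hψ.sup hM01 hleft ⟨0, hW.right⟩ hall
  have hlog : c * (p - 2) * Real.log M0 = δ / 2 := by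
    rw [hM0, Real.log_exp]
    field_simp
  rw [hlog] at hfin
  have hmem : S - δ / 2 ∈ A := by
    refine ⟨by linarith, fun x => ?_⟩
    have h2 := hfin x
    have e1 : x - (-δ + δ / 2) • e - S • e = x - (S - δ / 2) • e := by
      module
    have h3 : W x ≤ φ (x - (-δ + δ / 2) • e - S • e) := h2
    rwa [e1] at h3
  have h4 := csInf_le hAbdd hmem
  linarith

end Pool.Agent.TWC
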