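import Pool.Agent.TWC.VIS
import Pool.Agent.TWC.UNI

/-!
# TWC FINA: every travelling wave is a translate of the maximal subsolution

`φ~ = ext0 Ω φ` (`Wave` by `vis_wave`), `Φ~` (`Prof` by `vis_prof`), `Ω = cyl D`, `e = axis N`.
`h0 = sSup {<x,e> | 0 < φ~ x}` (nonempty by `wave_left`, bounded above by `right`). `φ1 x = φ~ (x + h0 e)` is again
a `Wave` with the same `Φ~` (translation: `uj_shift`; `Φ~` invariant), zero for heights `≥ 0`: for heights `> 0` by
the definition of `h0`; for height `0` by continuity; positive at heights arbitrarily close to `0`. `uni`: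
`φ1 = WW`. So `φ~ x = WW (x - h0 e)`.
* `fin_tw`: `WP` for `WW` (`ww_wp`), translated; `Sup` on all of `Ω` from `Wave`; `bdd` from `wave_bdd`. The
  positivity set and `QS` are translated (`Po φ~ = Po WW + h0 e`).
* `fin_mono`: `WP.mono`. * `fin_shift`: the identity.
-/

open Set Metric Filter Topology MeasureTheory
open scoped RealInnerProductSpace ContDiff

noncomputable section

namespace Pool.Agent.TWC

variable {N : ℕ} {D : Set (E N)} {r0 p c : ℝ} {Φ : E N → ℝ} {φ : E (N + 1) → ℝ}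

private theorem FINA_in {n : ℕ} {e : E n} {r : ℝ} {Ω : Set (E n)} (hΩ : Tube e r Ω) (x : E n)
    (a : ℝ) : ⟪x - a • e, e⟫ = ⟪x, e⟫ - a := by
  rw [inner_sub_left, real_inner_smul_left, real_inner_self_eq_norm_sq, hΩ.unit]
  ring

private theorem FINA_mem {n : ℕ} {e : E n} {r : ℝ} {Ω : Set (E n)} (hΩ : Tube e r Ω) {x : E n}
    (a : ℝ) : x - a • e ∈ Ω ↔ x ∈ Ω := by
  constructor
  · intro h
    have := hΩ.inv _ h a
    rwa [sub_add_cancel] at this
  · intro h
    have := hΩ.inv _ h (-a)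
    rwa [neg_smul, ← sub_eq_add_neg] at this

private theorem FINA_shift {n : ℕ} {e : E n} {r p c : ℝ} {Ω : Set (E n)} {Φ φ : E n → ℝ}
    (hΩ : Tube e r Ω) (hΦ : Prof p c e Ω Φ) (hφ : Wave p c e Ω Φ φ) (a : ℝ) :
    Wave p c e Ω Φ (fun x => φ (x - a • e)) := by
  have hsc : Continuous fun x : E n => x - a • e := by fun_prop
  refine
    { off := fun x hx => hφ.off _ fun h => hx ((FINA_mem hΩ a).1 h)
      sub := ⟨fun x => hφ.sub.nn _, UpperSemicontinuous.comp hφ.sub.usc hsc, ?_⟩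
      sup := ⟨fun x => hφ.sup.nn _, hφ.sup.cont.comp hsc, ?_⟩
      lim := ?_
      right := ?_ }
  · intro x _ P X h
    exact hφ.sub.sb _ (mem_univ _) P X ((uj_shift (a • e)).1 h)
  · intro x hx P X h
    refine hφ.sup.sp _ ((FINA_mem hΩ a).2 hx) P X ?_
    have h1 := uj_neg.2 h
    exact uj_neg.1 ((uj_shift (u := fun y => -φ y) (a • e)).1 h1)
  · intro η hη
    obtain ⟨R, hR⟩ := hφ.lim η hη
    refine ⟨R + |a|, fun x hx => ?_⟩
    have h1 : Φ x = Φ (x - a • e) := by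
      have := hΦ.inv x (-a)
      rw [neg_smul, ← sub_eq_add_neg] at this
      exact this.symm
    rw [h1]
    refine hR _ ?_
    rw [FINA_in hΩ]
    linarith [neg_abs_le a]
  · obtain ⟨R, hR⟩ := hφ.right
    refine ⟨R + |a|, fun x hx => hR _ ?_⟩
    rw [FINA_in hΩ]
    linarith [le_abs_self a]

private theorem FINA_main {n : ℕ} {e : E n} {r p c : ℝ} {Ω : Set (E n)} {Φ φ : E n → ℝ}
    (hp : 2 < p) (hc : 0 < c) (hΩ : Tube e r Ω) (hne : (Ωᶜ).Nonempty)
    (hΦ : Prof p c e Ω Φ) (hφ : Wave p c e Ω Φ φ) :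
    ∃ h0 : ℝ, (∀ x, φ x = WW p c e Φ (x - h0 • e)) ∧ WP p c e Ω Φ (WW p c e Φ) := by
  have hpos : ∃ x, 0 < φ x := by
    obtain ⟨R, k, hR, hk, h⟩ := wave_left hp hc.le hΩ hne hΦ hφ
    obtain ⟨x0, hx0⟩ := hΩ.nonempty
    have hx1 : x0 - (R + ⟪x0, e⟫) • e ∈ Ω := (FINA_mem hΩ _).2 hx0
    refine ⟨x0 - (R + ⟪x0, e⟫) • e, ?_⟩
    have h2 := h (x0 - (R + ⟪x0, e⟫) • e) (by
      rw [FINA_in hΩ]
      linarith)
    have h3 := (dw_pos hΩ hne).2 hx1
    exact lt_of_lt_of_le (mul_pos hk h3) h2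
  obtain ⟨R, hR⟩ := hφ.right
  set S : Set ℝ := {h | ∃ x, 0 < φ x ∧ ⟪x, e⟫ = h} with hS
  have hSb : BddAbove S := by
    refine ⟨R, ?_⟩
    rintro h ⟨x, hx, rfl⟩
    by_contra hcon
    rw [hR x (not_le.1 hcon).le] at hx
    exact lt_irrefl _ hx
  have hSn : S.Nonempty := by
    obtain ⟨x, hx⟩ := hpos
    exact ⟨_, x, hx, rfl⟩
  set h0 := sSup S with hh0
  have hw := FINA_shift hΩ hΦ hφ (-h0)
  have hz : ∀ x, 0 < ⟪x, e⟫ → φ (x - (-h0) • e) = 0 := by
    intro x hx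
    by_contra hcon
    have h1 : 0 < φ (x - (-h0) • e) := lt_of_le_of_ne (hφ.sub.nn _) (Ne.symm hcon)
    have h2 : ⟪x - (-h0) • e, e⟫ ≤ h0 := le_csSup hSb ⟨_, h1, rfl⟩
    rw [FINA_in hΩ] at h2
    linarith
  have hz0 : ∀ x, 0 ≤ ⟪x, e⟫ → φ (x - (-h0) • e) = 0 := by
    intro x hx
    have hg : Continuous fun t : ℝ => φ ((x - (-t) • e) - (-h0) • e) := by
      have h1 := hφ.sup.cont
      have h2 : Continuous fun t : ℝ => (x - (-t) • e) - (-h0) • e := by fun_prop
      exact h1.comp h2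
    have h1 : IsClosed {t : ℝ | φ ((x - (-t) • e) - (-h0) • e) = 0} :=
      isClosed_eq hg continuous_const
    have h2 : Ioi (0:ℝ) ⊆ {t : ℝ | φ ((x - (-t) • e) - (-h0) • e) = 0} := by
      intro t ht
      refine hz _ ?_
      rw [FINA_in hΩ]
      have : (0:ℝ) < t := ht
      linarith
    have h3 := closure_minimal h2 h1
    rw [closure_Ioi] at h3
    have h4 : φ ((x - (-(0:ℝ)) • e) - (-h0) • e) = 0 := h3 (mem_Ici.2 le_rfl)
    rwa [neg_zero, zero_smul, sub_zero] at h4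
  have h1 : ∀ ε > 0, ∃ x, 0 < φ (x - (-h0) • e) ∧ -ε < ⟪x, e⟫ := by
    intro ε hε
    obtain ⟨h, ⟨y, hy, rfl⟩, hlt⟩ := exists_lt_of_lt_csSup hSn (by linarith : h0 - ε < sSup S)
    refine ⟨y - h0 • e, ?_, ?_⟩
    · rwa [neg_smul, sub_neg_eq_add, sub_add_cancel]
    · rw [FINA_in hΩ]
      linarith
  have h2 := uni hp hc hΩ hne hΦ hw hz0 h1
  refine ⟨h0, fun x => ?_, ww_wp hp hc hΩ hne hΦ hw hz0⟩
  rw [← h2]
  simp only [neg_smul, sub_neg_eq_add, sub_add_cancel]

theorem fin_shift (hp : 2 < p) (hc : 0 < c) (hN : 0 < N) (hD : Dom r0 D) (h : IsWave p c D Φ φ) :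
    ∃ h0 : ℝ, ∀ x, ext0 (cyl D) φ x =
      WW p c (axis N) (ext0 (cyl D) fun x => Φ (zq x)) (x - h0 • axis N) := by
  obtain ⟨h0, h1, -⟩ := FINA_main hp hc (cyl_tube hN hD) (cyl_compl hN hD)
    (vis_prof hp hN hD h) (vis_wave hp hN hD h)
  exact ⟨h0, h1⟩

theorem fin_tw (hp : 2 < p) (hc : 0 < c) (hN : 0 < N) (hD : Dom r0 D) (h : IsWave p c D Φ φ) :
    TW p c (axis N) (cyl D) (ext0 (cyl D) φ) := by
  have hΩ := cyl_tube hN hD
  have hne := cyl_compl hN hD
  have hΦ := vis_prof hp hN hD h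
  have hφ := vis_wave hp hN hD h
  obtain ⟨h0, h1, hW⟩ := FINA_main hp hc hΩ hne hΦ hφ
  generalize ext0 (cyl D) φ = f at hφ h1 ⊢
  generalize ext0 (cyl D) (fun x => Φ (zq x)) = P at hΦ hφ h1 hW
  generalize WW p c (axis N) P = W at h1 hW
  have hPo : Po f = (fun x => x - h0 • axis N) ⁻¹' Po W := by
    ext x
    simp only [Po, mem_ofPred_eq, mem_preimage, h1]
  have hco : ∀ (x y : E (N + 1)) (a b : ℝ), a + b = 1 →
      (a • x + b • y) - h0 • axis N = a • (x - h0 • axis N) + b • (y - h0 • axis N) := by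
    intro x y a b hab
    have : h0 • axis N = (a + b) • (h0 • axis N) := by rw [hab, one_smul]
    rw [smul_sub, smul_sub]
    nth_rewrite 1 [this]
    rw [add_smul]
    abel
  have hcv : Convex ℝ (Po f) := by
    intro x hx y hy a b ha hb hab
    rw [hPo] at hx hy ⊢
    rw [mem_preimage, hco x y a b hab]
    exact hW.qs.convex hx hy ha hb hab
  obtain ⟨R, k, -, hk, hl⟩ := wave_left hp hc.le hΩ hne hΦ hφ
  exact
    { cont := hφ.sup.cont
      sub := hφ.sub
      sup := hφ.sup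
      off := hφ.off
      qs :=
        { isOpen := by
            rw [hPo]
            exact hW.qs.isOpen.preimage (by fun_prop)
          convex := hcv
          pos := fun x hx => hx
          conc := by
            refine ⟨hcv, fun x hx y hy a b ha hb hab => ?_⟩
            rw [hPo] at hx hy
            have h2 := hW.qs.conc.2 hx hy ha hb hab
            simp only [h1]
            rw [hco x y a b hab]
            exact h2
          sb := fun x _ => hφ.sub.sb x (mem_univ x) }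
      left := ⟨R, k, hk, hl⟩
      right := hφ.right
      bdd := wave_bdd hΩ hΦ hφ }

theorem fin_mono (hp : 2 < p) (hc : 0 < c) (hN : 0 < N) (hD : Dom r0 D) (h : IsWave p c D Φ φ)
    (x : E (N + 1)) {t : ℝ} (ht : 0 ≤ t) :
    ext0 (cyl D) φ (x + t • axis N) ≤ ext0 (cyl D) φ x := by
  obtain ⟨h0, h1, hW⟩ := FINA_main hp hc (cyl_tube hN hD) (cyl_compl hN hD)
    (vis_prof hp hN hD h) (vis_wave hp hN hD h)
  rw [h1, h1]
  have h2 : x + t • axis N - h0 • axis N = (x - h0 • axis N) + t • axis N := by abel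
  rw [h2]
  exact hW.mono _ t ht

end Pool.Agent.TWC
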