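import Pool.Agent.TWC.JTB

/-!
# TWC PWJ: helper facts for the barriers of FRT and ZP

Jets of `C (max g 0)^β` where `g > 0`, and one sided time derivatives.
-/

open Set Metric Filter Topology
open scoped RealInnerProductSpace

noncomputable section

namespace Pool.Agent.TWC

variable {n : ℕ}

theorem pospow_ev {C β t0 : ℝ} (h0 : 0 < t0) :
    (fun t : ℝ => C * (max t 0) ^ β) =ᶠ[𝓝 t0] fun t => C * t ^ β := by
  filter_upwards [lt_mem_nhds h0] with t ht
  rw [max_eq_left ht.le]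

theorem pospow_hasDeriv {C β t0 : ℝ} (h0 : 0 < t0) :
    HasDerivAt (fun t : ℝ => C * (max t 0) ^ β) (C * β * t0 ^ (β - 1)) t0 := by
  have h := (Real.hasDerivAt_rpow_const (x := t0) (p := β) (Or.inl h0.ne')).const_mul C
  refine (h.congr_of_eventuallyEq (pospow_ev h0)).congr_deriv ?_
  ring

theorem t2_pospow {C β : ℝ} {g : E n → ℝ} {x P : E n} {X : Bil n} (hg : T2 g x P X)
    (hx : 0 < g x) :
    T2 (fun y => C * (max (g y) 0) ^ β) x ((C * β * g x ^ (β - 1)) • P)
      ((C * β * g x ^ (β - 1)) • X + (C * β * (β - 1) * g x ^ (β - 2)) • rk P) := by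
  have hc : ContDiffAt ℝ 2 (fun t : ℝ => C * (max t 0) ^ β) (g x) := by
    refine ContDiffAt.congr_of_eventuallyEq ?_ (pospow_ev hx)
    exact contDiffAt_const.mul (Real.contDiffAt_rpow_const_of_ne hx.ne')
  have h := t2_comp hc hg
  have h1 : deriv (fun t : ℝ => C * (max t 0) ^ β) (g x) = C * β * g x ^ (β - 1) :=
    (pospow_hasDeriv hx).deriv
  have h2 : deriv (deriv (fun t : ℝ => C * (max t 0) ^ β)) (g x)
      = C * β * (β - 1) * g x ^ (β - 2) := by
    have he : deriv (fun t : ℝ => C * (max t 0) ^ β) =ᶠ[𝓝 (g x)]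
        fun t => C * β * t ^ (β - 1) := by
      filter_upwards [lt_mem_nhds hx] with t ht
      exact (pospow_hasDeriv ht).deriv
    have h3 := (Real.hasDerivAt_rpow_const (x := g x) (p := β - 1)
      (Or.inl hx.ne')).const_mul (C * β)
    rw [he.deriv_eq, h3.deriv]
    have : β - 1 - 1 = β - 2 := by ring
    rw [this]
    ring
  rw [h1, h2] at h
  exact h

theorem dtU_of_hasDerivAt {f : ℝ → ℝ} {τ a : ℝ} (h : HasDerivAt f a τ) : DtU f τ a := by
  intro ε hε
  have h1 := (hasDerivAt_iff_isLittleO.1 h).def hε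
  rw [Metric.eventually_nhds_iff] at h1
  obtain ⟨r, hr, h1⟩ := h1
  refine ⟨r, hr, fun s hs hsr => ?_⟩
  have h0 : dist (τ - s) τ < r := by
    rw [Real.dist_eq, show τ - s - τ = -s by ring, abs_neg, abs_of_pos hs]
    exact hsr
  have h2 := h1 h0
  rw [show τ - s - τ = -s by ring] at h2
  simp only [smul_eq_mul, Real.norm_eq_abs, abs_neg, abs_of_pos hs] at h2
  have h3 := (abs_le.1 h2).2
  linarith

theorem dtL_of_hasDerivAt {f : ℝ → ℝ} {τ a : ℝ} (h : HasDerivAt f a τ) : DtL f τ a := by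
  intro ε hε
  have h1 := (hasDerivAt_iff_isLittleO.1 h).def hε
  rw [Metric.eventually_nhds_iff] at h1
  obtain ⟨r, hr, h1⟩ := h1
  refine ⟨r, hr, fun s hs hsr => ?_⟩
  have h0 : dist (τ - s) τ < r := by
    rw [Real.dist_eq, show τ - s - τ = -s by ring, abs_neg, abs_of_pos hs]
    exact hsr
  have h2 := h1 h0
  rw [show τ - s - τ = -s by ring] at h2
  simp only [smul_eq_mul, Real.norm_eq_abs, abs_neg, abs_of_pos hs] at h2
  have h3 := (abs_le.1 h2).1
  linarith

/-- At a zero with growth `L s^β`, `β > 1`, in the past. -/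
theorem dtU_zero {f : ℝ → ℝ} {τ L β r0 : ℝ} (hβ : 1 < β) (hr0 : 0 < r0) (h0 : f τ = 0)
    (h : ∀ s, 0 < s → s < r0 → f (τ - s) ≤ L * s ^ β) : DtU f τ 0 := by
  intro ε hε
  have hc : Tendsto (fun s : ℝ => L * s ^ (β - 1)) (𝓝 0) (𝓝 (L * (0 : ℝ) ^ (β - 1))) := by
    refine Tendsto.const_mul L ?_
    exact (Real.continuousAt_rpow_const 0 (β - 1) (Or.inr (by linarith))).tendsto
  rw [Real.zero_rpow (by linarith), mul_zero] at hc
  have h1 := hc.eventually (gt_mem_nhds hε)
  rw [Metric.eventually_nhds_iff] at h1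
  obtain ⟨r, hr, h1⟩ := h1
  refine ⟨min r r0, lt_min hr hr0, fun s hs hsr => ?_⟩
  have h2 := h s hs (hsr.trans_le (min_le_right _ _))
  have h30 : dist s 0 < r := by
    rw [Real.dist_eq, sub_zero, abs_of_pos hs]
    exact hsr.trans_le (min_le_left _ _)
  have h3 := h1 h30
  have h4 : s ^ β = s ^ (β - 1) * s := by
    rw [← Real.rpow_add_one hs.ne']; ring_nf
  rw [h0]
  have h5 : L * s ^ (β - 1) * s ≤ ε * s := mul_le_mul_of_nonneg_right h3.le hs.le
  calc f (τ - s) ≤ L * s ^ β := h2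
    _ = L * s ^ (β - 1) * s := by rw [h4]; ring
    _ ≤ 0 - s * 0 + ε * s := by linarith

end Pool.Agent.TWC
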