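import Pool.Agent.TWC.CST
import Pool.Agent.TWC.PAL
import Pool.Agent.TWC.PWJ

/-!
# TWC FRT: a subsolution strictly below a planar front vanishes near the front point

Equation with `κ = 0`. `e0` unit vector, `ce = <b,e0> > 0`, `β = be p`, `Ce > 0` with
`(β Ce)^(p-2) β = ce`. Near `x0`: `u ≤ Ce (max s 0)^β`, `s = -<x-x0,e0>`, strictly where `s > 0`.
Claim: `u = 0` near `x0`.

Pressure form: for `f > 0` and `B = Ce f^β`, `F' = Ce β f^(β-1)`, `pA_chain` and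
`(Ce β)^(p-2) f^((β-1)(p-2)) = (ce/β) f`, `(p-1)(β-1) = β` give
`(1) pA p ∇B D²B + <b,∇B> = F' ((ce/β) f pA p ∇f D²f + ce |∇f|^p + <b,∇f>)`.
Let `τ = (x-x0) + s e0` (tangential part, `τ ⊥ e0`) and
`f(x,t) = s - ε (l s + θ(t) - M |τ|^2)`, `B(x,t) = Ce (max f 0)^β`.
`∇f = -(1-εl) e0 + 2εM τ`, `D²f = 2εM (ip - rk e0)`.
Parameters: fix `ϱ ≤ 1`, `ϱ ≤ R/4`; `M = 2/ϱ^2`; `l ≥ 1` large; `s1 = s1(l)` with `l s1 ≤ 1`, `s1 ≤ R/4`; then
`ε` small. On `D = {0 ≤ s ≤ s1, |τ| ≤ ϱ} ⊆ ball x0 R`: `|f| ≤ 2 s1 + 2 ε`; and for `ε ≤ ε(l)`: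
`|∇f|^2 = (1-εl)^2 + 4ε²M²|τ|^2`, so `|∇f|^p ≤ 1 - p ε l + C_l ε^2`;
`pA p ∇f D²f ≤ |∇f|^(p-2) 2εM(n+p)`; `<b,∇f> ≤ -(1-εl) ce + 2εM|b|ϱ`. Sum in (1):
`≤ ε (-(p-1) ce l + (ce/β)(2 s1 + 2ε) 4 M (n+p) + 2 M |b| ϱ) + C_l ε² ≤ -ε` if first `l` is large
(depending on `M, ϱ, b`, and `s1 ≤ 1`), then `ε` small. So at points with `f > 0` (F' > 0):
`pA + <b,∇B> ≤ -ε F'`.
Time: `θ(t) = -1 + t` for `0 ≤ t ≤ 2`: `∂_t B = -F' ε θ' = -ε F'`. So `∂_t B ≥ pA + <b,∇B>`: supersolution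
(with `κ = 0`). Apply `cs` with `K = {(x,t) : 0 ≤ s ≤ s1, |τ| ≤ ϱ, 0 ≤ t ≤ 2}`, `O = ball x0 R`.
No violation at: `t = 0`: `l s + θ - M|τ|^2 ≤ 1 - 1 = 0`, so `f ≥ s`, `B ≥ Ce s^β ≥ u`; `s = 0`: `u = 0`
(hypothesis `u ≤ Ce·0`, `u ≥ 0`); `|τ| = ϱ`: `l s + θ - Mϱ² ≤ 1 + 1 - 2 = 0`, `f ≥ s`; `s = s1`: by the
strict inequality, upper semicontinuity and compactness of `{s = s1, |τ| ≤ ϱ}`:
`u ≤ Ce s1^β - σ` for some `σ > 0`, and `B ≥ Ce (s1 - 2ε)^β ≥ Ce s1^β - σ` for `ε` small. At the other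
points: interior; if `f > 0`: classical, second alternative (`a = -ε F'`); if `f ≤ 0`:
`B = 0`, and `f(x,t-h) = f(x,t) + ε h ≤ ε h` so `B(x,t-h) ≤ Ce (εh)^β = o(h)`: first alternative with
`a = 0`. Conclusion at `t = 2`: near `x0` with `s ≥ 0`: `f = s - ε (l s + 1 - M|τ|²) < 0`, so `u = 0`; and
`u = 0` for `s ≤ 0`.
-/

open Set Metric Filter Topology
open scoped RealInnerProductSpace

noncomputable section

namespace Pool.Agent.TWC

variable {n : ℕ} {p : ℝ}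

/-- The barrier phase. -/
def frF (x0 e0 : E n) (ε l M t : ℝ) (x : E n) : ℝ :=
  -(ε * (t - 1)) + ⟪-(1 - ε * l) • e0, x - x0⟫ + ε * M * ‖x - x0‖ ^ 2
    + -(ε * M) * ⟪e0, x - x0⟫ ^ 2

/-- Squared norm of the tangential part. -/
def frN (x0 e0 : E n) (x : E n) : ℝ := ‖x - x0‖ ^ 2 - ⟪e0, x - x0⟫ ^ 2

/-- Gradient of the phase. -/
def frG (x0 e0 : E n) (ε l M : ℝ) (x : E n) : E n :=
  -(1 - ε * l) • e0 + (2 * ε * M) • ((x - x0) - ⟪e0, x - x0⟫ • e0)

/-- Hessian of the phase. -/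
def frH (e0 : E n) (ε M : ℝ) : Bil n := (2 * ε * M) • ip + (-(2 * ε * M)) • rk e0

theorem frF_eq (x0 e0 : E n) (ε l M t : ℝ) (x : E n) :
    frF x0 e0 ε l M t x = -⟪x - x0, e0⟫
      - ε * (l * (-⟪x - x0, e0⟫) + (t - 1) - M * frN x0 e0 x) := by
  unfold frF frN
  have h : ⟪x - x0, e0⟫ = ⟪e0, x - x0⟫ := real_inner_comm _ _
  rw [inner_smul_left, h]
  simp only [conj_trivial]
  ring

theorem frF_t2 (x0 e0 : E n) (ε l M t : ℝ) (x : E n) :
    T2 (frF x0 e0 ε l M t) x (frG x0 e0 ε l M x) (frH e0 ε M) := by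
  have h1 : T2 (fun _ : E n => -(ε * (t - 1))) x 0 0 := t2_const _
  have h2 : T2 (fun y : E n => (0 : ℝ) + ⟪-(1 - ε * l) • e0, y - x0⟫) x (-(1 - ε * l) • e0) 0 :=
    t2_lin 0 _ x0
  have h3 := t2_smul (ε * M) (t2_normSq (x := x) x0)
  have h4 := t2_smul (-(ε * M)) (t2_sq (x := x) x0 e0)
  have h := t2_add (t2_add (t2_add h1 h2) h3) h4
  have e1 : (fun y : E n => -(ε * (t - 1)) + ((0 : ℝ) + ⟪-(1 - ε * l) • e0, y - x0⟫)
      + ε * M * ‖y - x0‖ ^ 2 + -(ε * M) * ⟪e0, y - x0⟫ ^ 2) = frF x0 e0 ε l M t := by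
    funext y
    unfold frF
    ring
  have e2 : (0 : E n) + -(1 - ε * l) • e0 + (ε * M) • (2 : ℝ) • (x - x0)
      + -(ε * M) • (2 * ⟪e0, x - x0⟫) • e0 = frG x0 e0 ε l M x := by
    unfold frG
    module
  have e3 : (0 : Bil n) + 0 + (ε * M) • (2 : ℝ) • ip + -(ε * M) • (2 : ℝ) • rk e0
      = frH e0 ε M := by
    unfold frH
    module
  rw [e1, e2, e3] at h
  exact h

theorem frN_nonneg {x0 e0 : E n} (he0 : ‖e0‖ = 1) (x : E n) : 0 ≤ frN x0 e0 x := by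
  have h := abs_real_inner_le_norm e0 (x - x0)
  rw [he0, one_mul] at h
  have h2 := pow_le_pow_left₀ (abs_nonneg _) h 2
  rw [sq_abs] at h2
  unfold frN
  linarith

theorem fr_tau {x0 e0 : E n} (he0 : ‖e0‖ = 1) (x : E n) :
    ⟪e0, (x - x0) - ⟪e0, x - x0⟫ • e0⟫ = 0 ∧
      ‖(x - x0) - ⟪e0, x - x0⟫ • e0‖ ^ 2 = frN x0 e0 x := by
  have h1 : ⟪e0, e0⟫ = (1 : ℝ) := by rw [real_inner_self_eq_norm_sq, he0]; norm_num
  constructor
  · rw [inner_sub_right, inner_smul_right, h1]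
    ring
  · unfold frN
    rw [norm_sub_sq_real, norm_smul, mul_pow, he0, inner_smul_right, real_inner_comm e0]
    simp only [Real.norm_eq_abs, sq_abs]
    ring

theorem frG_sq {x0 e0 : E n} (he0 : ‖e0‖ = 1) (ε l M : ℝ) (x : E n) :
    ‖frG x0 e0 ε l M x‖ ^ 2 = (1 - ε * l) ^ 2 + 4 * ε ^ 2 * M ^ 2 * frN x0 e0 x := by
  obtain ⟨h1, h2⟩ := fr_tau (x0 := x0) he0 x
  unfold frG
  rw [norm_add_sq_real, norm_smul, norm_smul, mul_pow, mul_pow, h2, inner_smul_left,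
    inner_smul_right, h1, he0]
  simp only [Real.norm_eq_abs, sq_abs]
  ring

/-- The main inequality. -/
theorem fr_key (hp : 2 < p) {b e0 x0 : E n} (he0 : ‖e0‖ = 1) (hce : 0 < ⟪b, e0⟫) {Ce : ℝ}
    (hCe : 0 < Ce) (hCe' : (be p * Ce) ^ (p - 2) * be p = ⟪b, e0⟫) {ε l M ϱ : ℝ} (hε : 0 < ε)
    (hM : 0 < M) (hϱ : 0 < ϱ)
    (hl : 1 + ⟪b, e0⟫ + 6 * (⟪b, e0⟫ / be p) * M * (n + p) + 2 * M * ‖b‖ * ϱ
      ≤ (p - 1) * ⟪b, e0⟫ * l)
    (h1 : ((1 - ε * l) ^ 2 + 4 * ε ^ 2 * M ^ 2 * ϱ ^ 2) ^ (p / 2) ≤ 1 - p * l * ε + ε)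
    (h2 : (1 - ε * l) ^ 2 + 4 * ε ^ 2 * M ^ 2 * ϱ ^ 2 ≤ 1)
    {x : E n} (hN : frN x0 e0 x ≤ ϱ ^ 2) {f : ℝ} (hf : 0 < f) (hf3 : f ≤ 3) :
    pA p ((Ce * be p * f ^ (be p - 1)) • frG x0 e0 ε l M x)
      ((Ce * be p * f ^ (be p - 1)) • frH e0 ε M
        + (Ce * be p * (be p - 1) * f ^ (be p - 2)) • rk (frG x0 e0 ε l M x))
      + ⟪b, (Ce * be p * f ^ (be p - 1)) • frG x0 e0 ε l M x⟫
      ≤ -(ε * (Ce * be p * f ^ (be p - 1))) := by
  set G := frG x0 e0 ε l M x with hG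
  set ce := ⟪b, e0⟫ with hcedef
  have hp2 : 0 < p - 2 := by linarith
  have hβ : 0 < be p := by unfold be; exact div_pos (by linarith) hp2
  have hβ1 : (be p - 1) * (p - 2) = 1 := by unfold be; field_simp; ring
  have hβ2 : (p - 1) * (be p - 1) = be p := by
    unfold be; field_simp; ring
  set F1 := Ce * be p * f ^ (be p - 1) with hF1
  have hF1pos : 0 < F1 := by positivity
  have hsq : ‖G‖ ^ 2 ≤ (1 - ε * l) ^ 2 + 4 * ε ^ 2 * M ^ 2 * ϱ ^ 2 := by
    rw [hG, frG_sq he0]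
    have : 4 * ε ^ 2 * M ^ 2 * frN x0 e0 x ≤ 4 * ε ^ 2 * M ^ 2 * ϱ ^ 2 :=
      mul_le_mul_of_nonneg_left hN (by positivity)
    linarith
  have hG1 : ‖G‖ ≤ 1 := by
    have : ‖G‖ ^ 2 ≤ 1 ^ 2 := by linarith
    exact le_of_sq_le_sq this (by norm_num)
  have hGp : ‖G‖ ^ p ≤ 1 - p * l * ε + ε := by
    have e1 : ‖G‖ ^ p = (‖G‖ ^ 2) ^ (p / 2) := by
      rw [← Real.rpow_natCast, ← Real.rpow_mul (norm_nonneg _)]
      congr 1
      push_cast
      ring
    rw [e1]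
    exact (Real.rpow_le_rpow (by positivity) hsq (by linarith)).trans h1
  have hGp2 : ‖G‖ ^ (p - 2) ≤ 1 := Real.rpow_le_one (norm_nonneg _) hG1 hp2.le
  have hpAH : pA p G (frH e0 ε M) ≤ 2 * ε * M * (n + p) := by
    unfold frH
    rw [pA_form_add, pA_form_smul, pA_form_smul, pA_ip hp]
    have h3 : 0 ≤ pA p G (rk e0) := le_trans (by positivity) (pA_rk_ge hp G e0)
    have h4 : (n + p - 2) * ‖G‖ ^ (p - 2) ≤ n + p := by
      have h5 : (n + p - 2) * ‖G‖ ^ (p - 2) ≤ (n + p - 2) * 1 := by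
        refine mul_le_mul_of_nonneg_left hGp2 ?_
        have : (0 : ℝ) ≤ n := Nat.cast_nonneg n
        linarith
      linarith
    have h6 : 2 * ε * M * ((n + p - 2) * ‖G‖ ^ (p - 2)) ≤ 2 * ε * M * (n + p) :=
      mul_le_mul_of_nonneg_left h4 (by positivity)
    have h7 : 0 ≤ 2 * ε * M * pA p G (rk e0) := by positivity
    linarith
  have hbG : ⟪b, G⟫ ≤ -(1 - ε * l) * ce + 2 * ε * M * (‖b‖ * ϱ) := by
    obtain ⟨h3, h4⟩ := fr_tau (x0 := x0) he0 x
    rw [hG]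
    unfold frG
    rw [inner_add_right, inner_smul_right, inner_smul_right]
    have h5 : ‖(x - x0) - ⟪e0, x - x0⟫ • e0‖ ≤ ϱ := by
      refine le_of_sq_le_sq ?_ hϱ.le
      rw [h4]
      exact hN
    have h6 : ⟪b, (x - x0) - ⟪e0, x - x0⟫ • e0⟫ ≤ ‖b‖ * ϱ :=
      (real_inner_le_norm _ _).trans (mul_le_mul_of_nonneg_left h5 (norm_nonneg _))
    have h7 := mul_le_mul_of_nonneg_left h6 (show 0 ≤ 2 * ε * M by positivity)
    linarith
  rw [pA_chain hp hF1pos, inner_smul_right]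
  have hF1p : F1 ^ (p - 2) = ce / be p * f := by
    rw [hF1, Real.mul_rpow (by positivity) (by positivity), ← Real.rpow_mul hf.le, hβ1,
      Real.rpow_one, ← hCe', mul_comm Ce (be p)]
    field_simp
  have hbf : (p - 1) * (Ce * be p * (be p - 1) * f ^ (be p - 2)) * (ce / be p * f)
      = ce * F1 := by
    have e2 : f ^ (be p - 1) = f ^ (be p - 2) * f := by
      rw [← Real.rpow_add_one hf.ne']
      ring_nf
    rw [hF1, e2]
    have e3 : (p - 1) * (Ce * be p * (be p - 1) * f ^ (be p - 2)) * (ce / be p * f)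
        = ((p - 1) * (be p - 1)) * (Ce * (f ^ (be p - 2) * f) * ce) := by
      field_simp
    rw [e3, hβ2]
    ring
  have hsum : F1 ^ (p - 2) * (F1 * pA p G (frH e0 ε M)
      + (p - 1) * (Ce * be p * (be p - 1) * f ^ (be p - 2)) * ‖G‖ ^ p) + F1 * ⟪b, G⟫
      = F1 * (ce / be p * f * pA p G (frH e0 ε M) + ce * ‖G‖ ^ p + ⟪b, G⟫) := by
    rw [hF1p]
    have : ce / be p * f * ((p - 1) * (Ce * be p * (be p - 1) * f ^ (be p - 2)) * ‖G‖ ^ p)
        = (ce * F1) * ‖G‖ ^ p := by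
      rw [← hbf]; ring
    linarith
  rw [hsum]
  have hbr : ce / be p * f * pA p G (frH e0 ε M) + ce * ‖G‖ ^ p + ⟪b, G⟫ ≤ -ε := by
    have h3 : ce / be p * f * pA p G (frH e0 ε M) ≤ ce / be p * 3 * (2 * ε * M * (n + p)) := by
      have h4 : ce / be p * f * pA p G (frH e0 ε M)
          ≤ ce / be p * f * (2 * ε * M * (n + p)) :=
        mul_le_mul_of_nonneg_left hpAH (by positivity)
      have h5 : ce / be p * f * (2 * ε * M * (n + p)) ≤ ce / be p * 3 * (2 * ε * M * (n + p)) := by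
        refine mul_le_mul_of_nonneg_right (mul_le_mul_of_nonneg_left hf3 (by positivity)) ?_
        have : (0 : ℝ) ≤ n := Nat.cast_nonneg n
        have : (0 : ℝ) < n + p := by linarith
        positivity
      exact h4.trans h5
    have h6 : ce * ‖G‖ ^ p ≤ ce * (1 - p * l * ε + ε) := mul_le_mul_of_nonneg_left hGp hce.le
    have h7 := mul_le_mul_of_nonneg_left hl hε.le
    have h8 : ε * (1 + ce + 6 * (ce / be p) * M * (n + p) + 2 * M * ‖b‖ * ϱ)
        = ε + ε * ce + ce / be p * 3 * (2 * ε * M * (n + p)) + 2 * ε * M * (‖b‖ * ϱ) := by ring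
    nlinarith [h3, h6, h7, h8, hbG]
  have := mul_le_mul_of_nonneg_left hbr hF1pos.le
  linarith

theorem frt (hp : 2 < p) {b e0 x0 : E n} (he0 : ‖e0‖ = 1) (hce : 0 < ⟪b, e0⟫) {Ce : ℝ} (hCe : 0 < Ce)
    (hCe' : (be p * Ce) ^ (p - 2) * be p = ⟪b, e0⟫) {R : ℝ} (hR : 0 < R) {u : E n → ℝ}
    (hnn : ∀ x, 0 ≤ u x) (husc : UpperSemicontinuous u) (hsb : Sb p b 0 (ball x0 R) u)
    (hle : ∀ x ∈ ball x0 R, u x ≤ Ce * (max (-⟪x - x0, e0⟫) 0) ^ be p)
    (hlt : ∀ x ∈ ball x0 R, ⟪x - x0, e0⟫ < 0 → u x < Ce * (-⟪x - x0, e0⟫) ^ be p) :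
    ∃ r > 0, ∀ x ∈ ball x0 r, u x = 0 := by
  have hp2 : 0 < p - 2 := by linarith
  have hβ : 0 < be p := by unfold be; exact div_pos (by linarith) hp2
  have hβ1 : 1 < be p := by unfold be; rw [lt_div_iff₀ hp2]; linarith
  have hn0 : (0 : ℝ) ≤ n := Nat.cast_nonneg n
  -- parameters
  set ce := ⟪b, e0⟫ with hcedef
  obtain ⟨ϱ, hϱ, hϱR⟩ : ∃ ϱ : ℝ, 0 < ϱ ∧ ϱ = R / 4 := ⟨R / 4, by linarith, rfl⟩
  obtain ⟨M, hM, hMϱ⟩ : ∃ M : ℝ, 0 < M ∧ M * ϱ ^ 2 = 2 :=
    ⟨2 / ϱ ^ 2, by positivity, by field_simp⟩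
  set A0 := 1 + ce + 6 * (ce / be p) * M * (n + p) + 2 * M * ‖b‖ * ϱ with hA0
  have hA0pos : 0 < A0 := by
    have : 0 ≤ 6 * (ce / be p) * M * (n + p) := by
      have : (0 : ℝ) < n + p := by linarith
      positivity
    have : 0 ≤ 2 * M * ‖b‖ * ϱ := by positivity
    linarith
  obtain ⟨l, hl1, hl⟩ : ∃ l : ℝ, 1 ≤ l ∧ A0 ≤ (p - 1) * ce * l := by
    have hpc : 0 < (p - 1) * ce := mul_pos (by linarith) hce
    refine ⟨A0 / ((p - 1) * ce) + 1, ?_, ?_⟩
    · have := div_pos hA0pos hpc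
      linarith
    · rw [mul_add, mul_div_cancel₀ _ hpc.ne']
      linarith
  obtain ⟨s1, hs1, hs1R, hs11, hls1⟩ : ∃ s1 : ℝ, 0 < s1 ∧ s1 ≤ R / 4 ∧ s1 ≤ 1 ∧ l * s1 ≤ 1 := by
    refine ⟨min (R / 4) (1 / l), lt_min (by linarith) (by positivity), min_le_left _ _, ?_, ?_⟩
    · refine (min_le_right _ _).trans ?_
      rw [div_le_one (by linarith)]
      exact hl1
    · calc l * min (R / 4) (1 / l) ≤ l * (1 / l) :=
            mul_le_mul_of_nonneg_left (min_le_right _ _) (by linarith)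
        _ = 1 := by field_simp
  -- the compact region
  have hScont : Continuous fun x : E n => -⟪x - x0, e0⟫ := by fun_prop
  have hNcont : Continuous fun x : E n => frN x0 e0 x := by unfold frN; fun_prop
  have hnorm : ∀ x : E n, ‖x - x0‖ ^ 2 = frN x0 e0 x + (-⟪x - x0, e0⟫) ^ 2 := by
    intro x
    unfold frN
    rw [real_inner_comm e0 (x - x0)]
    ring
  have hDball : ∀ x : E n, 0 ≤ -⟪x - x0, e0⟫ → -⟪x - x0, e0⟫ ≤ s1 → frN x0 e0 x ≤ ϱ ^ 2 →
      x ∈ ball x0 R := by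
    intro x h1 h2 h3
    rw [mem_ball, dist_eq_norm]
    have h4 := hnorm x
    have h5 : (-⟪x - x0, e0⟫) ^ 2 ≤ (R / 4) ^ 2 := pow_le_pow_left₀ h1 (h2.trans hs1R) 2
    have h6 : ‖x - x0‖ ^ 2 < R ^ 2 := by rw [h4]; rw [hϱR] at h3; nlinarith
    exact lt_of_pow_lt_pow_left₀ 2 hR.le h6
  -- strictness on the side s = s1
  obtain ⟨σ, hσ, hσu⟩ : ∃ σ : ℝ, 0 < σ ∧ ∀ x : E n, -⟪x - x0, e0⟫ = s1 → frN x0 e0 x ≤ ϱ ^ 2 →
      u x ≤ Ce * s1 ^ be p - σ := by
    set Sg : Set (E n) := {x | -⟪x - x0, e0⟫ = s1 ∧ frN x0 e0 x ≤ ϱ ^ 2} with hSg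
    have hcl : IsClosed Sg := (isClosed_eq hScont continuous_const).inter
      (isClosed_le hNcont continuous_const)
    have hcomp : IsCompact Sg := by
      refine (isCompact_closedBall x0 R).of_isClosed_subset hcl ?_
      rintro x ⟨h1, h2⟩
      exact ball_subset_closedBall (hDball x (by rw [h1]; exact hs1.le) (by rw [h1]) h2)
    by_cases hne : Sg.Nonempty
    · obtain ⟨x, hx, hmax⟩ := (husc.upperSemicontinuousOn Sg).exists_isMaxOn hne hcomp
      have h1 : u x < Ce * s1 ^ be p := by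
        have := hlt x (hDball x (by rw [hx.1]; exact hs1.le) (by rw [hx.1]) hx.2)
          (by have := hx.1; linarith)
        rwa [hx.1] at this
      refine ⟨Ce * s1 ^ be p - u x, by linarith, fun y hy1 hy2 => ?_⟩
      have := hmax (show y ∈ Sg from ⟨hy1, hy2⟩)
      have h3 : u y ≤ u x := this
      linarith
    · refine ⟨1, one_pos, fun y hy1 hy2 => ?_⟩
      exact absurd ⟨y, hy1, hy2⟩ hne
  -- choice of ε
  obtain ⟨ε, hε, hE1, hE2, hE4, hE5⟩ : ∃ ε : ℝ, 0 < ε ∧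
      ((1 - ε * l) ^ 2 + 4 * ε ^ 2 * M ^ 2 * ϱ ^ 2) ^ (p / 2) ≤ 1 - p * l * ε + ε ∧
      (1 - ε * l) ^ 2 + 4 * ε ^ 2 * M ^ 2 * ϱ ^ 2 ≤ 1 ∧ ε ≤ 1 / 2 ∧
      Ce * s1 ^ be p - σ ≤ Ce * (max (s1 - 2 * ε) 0) ^ be p := by
    have hy : HasDerivAt (fun ε : ℝ => (1 - ε * l) ^ 2 + 4 * ε ^ 2 * M ^ 2 * ϱ ^ 2) (-(2 * l)) 0 := by
      have h1 : HasDerivAt (fun ε : ℝ => 1 - ε * l) (-l) 0 := by
        have := ((hasDerivAt_id (0 : ℝ)).mul_const l).const_sub 1
        simpa using this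
      have h2 : HasDerivAt (fun ε : ℝ => (1 - ε * l) ^ 2) (-(2 * l)) 0 := by
        have := h1.pow 2
        refine this.congr_deriv ?_
        simp
      have h3 : HasDerivAt (fun ε : ℝ => 4 * ε ^ 2 * M ^ 2 * ϱ ^ 2) 0 0 := by
        have := ((((hasDerivAt_id (0 : ℝ)).pow 2).const_mul 4).mul_const (M ^ 2)).mul_const (ϱ ^ 2)
        refine this.congr_deriv ?_
        simp
      exact (h2.fun_add h3).congr_deriv (by ring)
    have hy0 : (fun ε : ℝ => (1 - ε * l) ^ 2 + 4 * ε ^ 2 * M ^ 2 * ϱ ^ 2) 0 = 1 := by norm_num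
    have hψ : HasDerivAt (fun ε : ℝ => ((1 - ε * l) ^ 2 + 4 * ε ^ 2 * M ^ 2 * ϱ ^ 2) ^ (p / 2))
        (-(p * l)) 0 := by
      have h1 := hy.rpow_const (p := p / 2) (Or.inl (by norm_num))
      refine h1.congr_deriv ?_
      norm_num
      ring
    have he1 : ∀ᶠ ε in 𝓝[>] (0 : ℝ),
        ((1 - ε * l) ^ 2 + 4 * ε ^ 2 * M ^ 2 * ϱ ^ 2) ^ (p / 2) ≤ 1 - p * l * ε + ε := by
      have h1 := (hasDerivAt_iff_isLittleO.1 hψ).def one_pos
      have h2 := h1.filter_mono (nhdsWithin_le_nhds : 𝓝[>] (0 : ℝ) ≤ 𝓝 0)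
      filter_upwards [h2, self_mem_nhdsWithin] with ε h3 h4
      simp only [sub_zero, smul_eq_mul, Real.norm_eq_abs, one_mul, abs_of_pos (show 0 < ε from h4)]
        at h3
      have h5 := (abs_le.1 h3).2
      norm_num at h5
      linarith
    have he2 : ∀ᶠ ε in 𝓝[>] (0 : ℝ), (1 - ε * l) ^ 2 + 4 * ε ^ 2 * M ^ 2 * ϱ ^ 2 ≤ 1 := by
      have h1 := (hasDerivAt_iff_isLittleO.1 hy).def one_pos
      have h2 := h1.filter_mono (nhdsWithin_le_nhds : 𝓝[>] (0 : ℝ) ≤ 𝓝 0)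
      filter_upwards [h2, self_mem_nhdsWithin] with ε h3 h4
      simp only [sub_zero, smul_eq_mul, Real.norm_eq_abs, one_mul, abs_of_pos (show 0 < ε from h4)]
        at h3
      have h5 := (abs_le.1 h3).2
      norm_num at h5
      have h6 : 0 < ε := h4
      nlinarith
    have he4 : ∀ᶠ ε in 𝓝[>] (0 : ℝ), ε ≤ 1 / 2 :=
      (eventually_le_nhds (show (0 : ℝ) < 1 / 2 by norm_num)).filter_mono nhdsWithin_le_nhds
    have he5 : ∀ᶠ ε in 𝓝[>] (0 : ℝ),
        Ce * s1 ^ be p - σ ≤ Ce * (max (s1 - 2 * ε) 0) ^ be p := by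
      have hc : Continuous fun ε : ℝ => Ce * (max (s1 - 2 * ε) 0) ^ be p := by
        refine continuous_const.mul (Continuous.rpow_const (by fun_prop) ?_)
        intro x
        exact Or.inr hβ.le
      have h1 := hc.tendsto 0
      rw [mul_zero, sub_zero, max_eq_left hs1.le] at h1
      have h2 := h1.eventually (lt_mem_nhds (show Ce * s1 ^ be p - σ < Ce * s1 ^ be p by linarith))
      exact (h2.mono fun _ h => h.le).filter_mono nhdsWithin_le_nhds
    obtain ⟨ε, h, hε⟩ := ((he1.and (he2.and (he4.and he5))).and self_mem_nhdsWithin).exists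
    exact ⟨ε, hε, h.1, h.2.1, h.2.2.1, h.2.2.2⟩
  -- the space time set and the barrier
  set K : Set (E n × ℝ) := {z | (0 ≤ -⟪z.1 - x0, e0⟫ ∧ -⟪z.1 - x0, e0⟫ ≤ s1 ∧
    frN x0 e0 z.1 ≤ ϱ ^ 2) ∧ (0 ≤ z.2 ∧ z.2 ≤ 2)} with hK
  have hKcl : IsClosed K := by
    have c1 : Continuous fun z : E n × ℝ => -⟪z.1 - x0, e0⟫ := hScont.comp continuous_fst
    have c2 : Continuous fun z : E n × ℝ => frN x0 e0 z.1 := hNcont.comp continuous_fst
    exact ((isClosed_le continuous_const c1).inter ((isClosed_le c1 continuous_const).inter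
      (isClosed_le c2 continuous_const))).inter ((isClosed_le continuous_const continuous_snd).inter
      (isClosed_le continuous_snd continuous_const))
  have hKc : IsCompact K := by
    refine ((isCompact_closedBall x0 R).prod (isCompact_Icc (a := (0 : ℝ)) (b := 2))).of_isClosed_subset
      hKcl ?_
    rintro ⟨x, t⟩ ⟨⟨h1, h2, h3⟩, h4, h5⟩
    exact ⟨ball_subset_closedBall (hDball x h1 h2 h3), h4, h5⟩
  set B : E n → ℝ → ℝ := fun x t => Ce * (max (frF x0 e0 ε l M t x) 0) ^ be p with hB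
  have hfcont : Continuous fun z : E n × ℝ => frF x0 e0 ε l M z.2 z.1 := by
    unfold frF
    fun_prop
  have hBc : Continuous fun z : E n × ℝ => B z.1 z.2 := by
    refine continuous_const.mul (Continuous.rpow_const (by fun_prop) ?_)
    intro x
    exact Or.inr hβ.le
  have hBnn : ∀ x t, 0 ≤ B x t := fun x t =>
    mul_nonneg hCe.le (Real.rpow_nonneg (le_max_right _ _) _)
  have hmono : ∀ a c : ℝ, a ≤ c → Ce * (max a 0) ^ be p ≤ Ce * (max c 0) ^ be p := by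
    intro a c h
    exact mul_le_mul_of_nonneg_left (Real.rpow_le_rpow (le_max_right _ _)
      (max_le_max h le_rfl) hβ.le) hCe.le
  have hcmp := cs (le_refl (0 : ℝ)) husc hsb hKc (hBc.lowerSemicontinuous.lowerSemicontinuousOn K)
    (B := B) ?_
  · -- conclusion
    have hMN : ∀ᶠ x in 𝓝 x0, M * frN x0 e0 x < 1 / 2 ∧ frN x0 e0 x < ϱ ^ 2 := by
      have h0 : frN x0 e0 x0 = 0 := by unfold frN; simp
      have c1 := (continuous_const.mul hNcont).tendsto (x := x0) (f := fun x => M * frN x0 e0 x)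
      have c2 := hNcont.tendsto x0
      simp only [h0, mul_zero] at c1 c2
      exact (c1.eventually (gt_mem_nhds (by norm_num))).and
        (c2.eventually (gt_mem_nhds (by positivity)))
    have hS : ∀ᶠ x in 𝓝 x0, -⟪x - x0, e0⟫ < s1 ∧ -⟪x - x0, e0⟫ < ε / 2 := by
      have c1 := hScont.tendsto x0
      simp only [sub_self, inner_zero_left, neg_zero] at c1
      exact (c1.eventually (gt_mem_nhds hs1)).and (c1.eventually (gt_mem_nhds (by positivity)))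
    have hb : ∀ᶠ x in 𝓝 x0, x ∈ ball x0 R := ball_mem_nhds x0 hR
    obtain ⟨r, hr, h⟩ := Metric.eventually_nhds_iff_ball.1 (hMN.and (hS.and hb))
    refine ⟨r, hr, fun x hx => ?_⟩
    obtain ⟨⟨h1, h2⟩, ⟨h3, h4⟩, h5⟩ := h x hx
    refine le_antisymm ?_ (hnn x)
    by_cases hs : 0 ≤ -⟪x - x0, e0⟫
    · have h6 := hcmp x 2 ⟨⟨hs, h3.le, h2.le⟩, by norm_num, by norm_num⟩
      have h7 : frF x0 e0 ε l M 2 x ≤ 0 := by
        rw [frF_eq]
        have h8 : 0 ≤ l * (-⟪x - x0, e0⟫) := mul_nonneg (by linarith) hs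
        nlinarith
      rw [hB] at h6
      simp only [max_eq_right h7, Real.zero_rpow hβ.ne', mul_zero] at h6
      exact h6
    · have h6 := hle x h5
      rw [max_eq_right (by linarith), Real.zero_rpow hβ.ne', mul_zero] at h6
      exact h6
  · -- verification of the hypotheses of the comparison
    rintro x t ⟨⟨hs0, hss, hNx⟩, ht0, ht2⟩ hviol
    simp only at hs0 hss hNx ht0 ht2
    have hxball := hDball x hs0 hss hNx
    have hle' := hle x hxball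
    have hfeq := frF_eq x0 e0 ε l M t x
    have hMN : M * frN x0 e0 x ≤ 2 := by
      rw [← hMϱ]
      exact mul_le_mul_of_nonneg_left hNx hM.le
    have hMN0 : 0 ≤ M * frN x0 e0 x := mul_nonneg hM.le (frN_nonneg he0 x)
    have hls : l * (-⟪x - x0, e0⟫) ≤ 1 :=
      (mul_le_mul_of_nonneg_left hss (by linarith)).trans hls1
    have hls0 : 0 ≤ l * (-⟪x - x0, e0⟫) := mul_nonneg (by linarith) hs0
    -- f < s at a violation
    have hfs : frF x0 e0 ε l M t x < -⟪x - x0, e0⟫ := by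
      by_contra hcon
      push Not at hcon
      have := hle'.trans (hmono _ _ hcon)
      exact absurd hviol (not_lt.2 this)
    have hdef : 0 < l * (-⟪x - x0, e0⟫) + (t - 1) - M * frN x0 e0 x := by
      rw [hfeq] at hfs
      have : 0 < ε * (l * (-⟪x - x0, e0⟫) + (t - 1) - M * frN x0 e0 x) := by linarith
      exact (mul_pos_iff_of_pos_left hε).1 this
    have htpos : 0 < t := by
      rcases ht0.lt_or_eq with h | h
      · exact h
      · rw [← h] at hdef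
        linarith
    have hNlt : frN x0 e0 x < ϱ ^ 2 := by
      rcases hNx.lt_or_eq with h | h
      · exact h
      · rw [h, hMϱ] at hdef
        linarith
    have hspos : 0 < -⟪x - x0, e0⟫ := by
      rcases hs0.lt_or_eq with h | h
      · exact h
      · rw [← h, max_self, Real.zero_rpow hβ.ne', mul_zero] at hle'
        exact absurd hviol (not_lt.2 (hle'.trans (hBnn x t)))
    have hslt : -⟪x - x0, e0⟫ < s1 := by
      rcases hss.lt_or_eq with h | h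
      · exact h
      · have h1 := hσu x h hNx
        have h2 : s1 - 2 * ε ≤ frF x0 e0 ε l M t x := by
          rw [hfeq, h]
          have : l * s1 + (t - 1) - M * frN x0 e0 x ≤ 2 := by linarith
          nlinarith
        have h3 := hE5.trans (hmono _ _ h2)
        exact absurd hviol (not_lt.2 (h1.trans h3))
    refine ⟨⟨t, htpos, fun h hh0 hht => ⟨⟨hs0, hss, hNx⟩, by simp only; linarith,
      by simp only; linarith⟩⟩, ?_⟩
    have hBt : ∀ h : ℝ, B x (t - h) = Ce * (max (frF x0 e0 ε l M t x + ε * h) 0) ^ be p := by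
      intro h
      rw [hB]
      simp only
      rw [frF_eq, frF_eq]
      congr 3
      ring
    by_cases hf : 0 < frF x0 e0 ε l M t x
    · right
      refine ⟨hxball, ?_, ?_⟩
      · have hev : ∀ᶠ y in 𝓝 x, 0 < -⟪y - x0, e0⟫ ∧ -⟪y - x0, e0⟫ < s1 ∧
            frN x0 e0 y < ϱ ^ 2 :=
          ((hScont.tendsto x).eventually (lt_mem_nhds hspos)).and
            (((hScont.tendsto x).eventually (gt_mem_nhds hslt)).and
            ((hNcont.tendsto x).eventually (gt_mem_nhds hNlt)))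
        obtain ⟨r, hr, h⟩ := Metric.eventually_nhds_iff.1 hev
        refine ⟨r, hr, fun y hy => ?_⟩
        obtain ⟨h1, h2, h3⟩ := h (by rw [dist_eq_norm]; exact hy)
        exact ⟨⟨h1.le, h2.le, h3.le⟩, ht0, ht2⟩
      · have hT := t2_pospow (C := Ce) (β := be p) (frF_t2 x0 e0 ε l M t x) hf
        have hf3 : frF x0 e0 ε l M t x ≤ 3 := by
          rw [hfeq]
          have h1 : -3 ≤ l * (-⟪x - x0, e0⟫) + (t - 1) - M * frN x0 e0 x := by linarith
          have h2 := mul_le_mul_of_nonneg_left h1 hε.le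
          linarith
        refine ⟨-(ε * (Ce * be p * frF x0 e0 ε l M t x ^ (be p - 1))), _, _, ?_, hT.1, ?_⟩
        · refine dtU_of_hasDerivAt ?_
          have h1 := pospow_hasDeriv (C := Ce) (β := be p) hf
          have h2 : HasDerivAt (fun t' : ℝ => frF x0 e0 ε l M t' x) (-ε) t := by
            have h3 := (((hasDerivAt_id t).sub_const 1).const_mul ε).neg.add_const
              (⟪-(1 - ε * l) • e0, x - x0⟫ + ε * M * ‖x - x0‖ ^ 2
                + -(ε * M) * ⟪e0, x - x0⟫ ^ 2)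
            refine (h3.congr_deriv (by ring)).congr_of_eventuallyEq ?_
            refine Filter.Eventually.of_forall fun t' => ?_
            simp only [frF, id, Pi.neg_apply]
            ring
          have h3 := HasDerivAt.comp t (h₂ := fun t : ℝ => Ce * (max t 0) ^ be p) h1 h2
          refine (h3.congr_deriv (by ring)).congr_of_eventuallyEq ?_
          exact Filter.Eventually.of_forall fun t' => rfl
        · rw [zero_mul, add_zero]
          exact fr_key hp he0 hce hCe hCe' hε hM hϱ hl hE1 hE2 hNx hf hf3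
    · left
      push Not at hf
      refine ⟨0, le_refl 0, ?_⟩
      refine dtU_zero hβ1 one_pos (L := Ce * ε ^ be p) ?_ ?_
      · rw [hB]
        simp only [max_eq_right hf, Real.zero_rpow hβ.ne', mul_zero]
      · intro h hh0 hh1
        rw [hBt]
        refine (hmono _ (ε * h) (by linarith)).trans ?_
        rw [max_eq_left (by positivity), Real.mul_rpow hε.le hh0.le]
        exact le_of_eq (by ring)

end Pool.Agent.TWC
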