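import Pool.Agent.TWC.SCS
import Pool.Agent.TWC.KE
import Pool.Agent.TWC.JTA
import Pool.Agent.TWC.PAL

/-!
# TWC LTQ: local touching lemma for a q-concave subsolution and a supersolution

`u` QS on `S`, `v` continuous supersolution on `S`, `f` of class C² near `z ∈ S`, `u + f - v` has a local
maximum at `z`; `P` the gradient of `u` at `z` (`Gd`), `P ≠ 0`, `P + ∇f ≠ 0`. Then there is a symmetric `X`
with `X ≤ (1-q)|P|^2/u + 1`, `0 ≤ pA P X + <b,P> + κ u z` and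
`pA (P + ∇f) (X + D²f) + <b, P + ∇f> + κ v z ≤ 0`.

Proof. `Λ = (1-q)|P|^2/u z + 1/2`, `ρ ≤ 1` from `qs_semi`, also such that the maximum property and C²
regularity of `f` hold on `closedBall z ρ`. For `δ > 0` maximise on `closedBall z (ρ/2) × closedBall z (ρ/2)`
`Θ(x,y) = u x + f x - v y - |x-z|^4 - |x-y|^2/(2δ)`. As `δ → 0` (along `δ = 1/k`): `Θ(x_δ,y_δ) ≥ Θ(z,z)`;
`|x_δ-y_δ|^2/δ` is bounded, so `x_δ - y_δ → 0`; any limit point `x` of `x_δ` satisfies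
`(u+f-v) x - |x-z|^4 ≥ (u+f-v) z + limsup |x_δ-y_δ|^2/(2δ)`, so `x = z` and `|x_δ-y_δ|^2/δ → 0`. Put
`p_δ = (x_δ-y_δ)/δ`. For small `δ` both points are interior. The majorant inequality at `(x_δ,y_δ)` for
`u x + (-v) y`: gradients `p_δ - ∇f(x_δ) + 4|x_δ-z|^2(x_δ-z)` and `-p_δ`, form
`B((a,b),(a,b)) = |a-b|^2/δ - D²f(x_δ)(a,a) + 12 |x_δ-z|^2 |a|^2` (an upper bound of the Hessian of
`|x-z|^4` is `12|x-z|^2`; Taylor of order two for `f` at `x_δ`). `scs` (with `w = -v`, radius `ρ/2`, error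
`δ' = δ`) gives `x', y', P', Q', X', Y'`; `X' ≤ (Λ + δ)`, and with `a = b`:
`Y' a a ≤ -X' a a - D²f(x_δ)(a,a) + (12|x_δ-z|^2 + 2δ)|a|^2`.
`UJ u x' P' X'` gives `Gd p S u x' P'` (`uj_gd`) and `x' → z`, so `P' → P` (`gd_cont`); hence
`p_δ → P + ∇f(z)` and `Q' → -(P + ∇f z)`. From `Sb` for `u`: `pA p P' X' ≥ -C`, `|P'| ≥ |P|/2`, so `X'` is
bounded (`pA_lower`, `opNorm_le_of_quad`); take a convergent subsequence `X' → X` (symmetric,
`X ≤ Λ`, and `0 ≤ pA P X + <b,P> + κ u z` by `pA_cont`; `u` is continuous at `z`).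
`UJ (-v) y' Q' Y'` gives `0 ≤ pA p Q' Y' + <b,Q'> - κ v y'` (`Sp`, `uj_neg`), and by `pA_mono`
`pA p Q' Y' ≤ pA p Q' (-X' - D²f(x_δ) + small ip)`. In the limit (`pA_neg`):
`0 ≤ -pA p (P+∇f) (X + D²f) - <b,P+∇f> - κ v z`.
-/

set_option maxSynthPendingDepth 3

open Set Metric Filter Topology
open scoped RealInnerProductSpace

noncomputable section

namespace Pool.Agent.TWC

variable {n : ℕ} {p : ℝ} {b : E n} {κ : ℝ} {S : Set (E n)} {u : E n → ℝ}

private theorem LTQ_pow4 (z : E n) : T2 (fun y => (‖y - z‖ ^ 2) ^ 2) z 0 0 := by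
  rw [jtb_iff]
  intro ε hε
  refine ⟨min 1 ε, lt_min one_pos hε, fun y hy => ?_⟩
  have h1 : ‖y - z‖ < 1 := hy.trans_le (min_le_left _ _)
  have h2 : ‖y - z‖ < ε := hy.trans_le (min_le_right _ _)
  have h0 := norm_nonneg (y - z)
  have e : (‖y - z‖ ^ 2) ^ 2 - (‖z - z‖ ^ 2) ^ 2 - ⟪(0 : E n), y - z⟫
      - 1 / 2 * (0 : Bil n) (y - z) (y - z) = (‖y - z‖ ^ 2) ^ 2 := by
    simp
  rw [e, abs_of_nonneg (by positivity)]
  have h3 : ‖y - z‖ ^ 2 ≤ ε := by nlinarith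
  calc (‖y - z‖ ^ 2) ^ 2 = ‖y - z‖ ^ 2 * ‖y - z‖ ^ 2 := by ring
    _ ≤ ε * ‖y - z‖ ^ 2 := mul_le_mul_of_nonneg_right h3 (by positivity)

private theorem LTQ_cd4 (z : E n) : ContDiff ℝ 2 (fun y : E n => (‖y - z‖ ^ 2) ^ 2) :=
  ((contDiff_norm_sq ℝ).comp (contDiff_id.sub contDiff_const)).pow 2

/-- the function `|x-z|^4 - f x` -/
private theorem LTQ_g {f : E n → ℝ} {z : E n} (hf : ContDiffAt ℝ 2 f z) :
    gradient (fun x => (‖x - z‖ ^ 2) ^ 2 - f x) z = -gradient f z ∧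
    (∀ a, fderiv ℝ (fderiv ℝ (fun x => (‖x - z‖ ^ 2) ^ 2 - f x)) z a a
      = -fderiv ℝ (fderiv ℝ f) z a a) ∧
    ContDiffAt ℝ 2 (fun x => (‖x - z‖ ^ 2) ^ 2 - f x) z := by
  have hg : ContDiffAt ℝ 2 (fun x => (‖x - z‖ ^ 2) ^ 2 - f x) z :=
    (LTQ_cd4 z).contDiffAt.sub hf
  have h1 := t2_of_contDiffAt hg
  have h2 := t2_add (LTQ_pow4 z) (t2_smul (-1) (t2_of_contDiffAt hf))
  have e : (fun y => (‖y - z‖ ^ 2) ^ 2 + -1 * f y) = fun x => (‖x - z‖ ^ 2) ^ 2 - f x := by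
    funext y
    ring
  rw [e] at h2
  have h3 := uj_lj h1.1 h2.2
  have h4 := uj_lj h2.1 h1.2
  refine ⟨?_, fun a => ?_, hg⟩
  · rw [h3.1]
    simp
  · have h5 := h3.2 a
    have h6 := h4.2 a
    have e2 : ((0 : Bil n) + (-1 : ℝ) • fderiv ℝ (fderiv ℝ f) z) a a
        = -fderiv ℝ (fderiv ℝ f) z a a := by
      simp
    rw [e2] at h5 h6
    exact le_antisymm h6 h5

private theorem LTQ_near {g : E n → ℝ} {z : E n} (hg : ContDiffAt ℝ 2 g z) {ε : ℝ} (hε : 0 < ε) :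
    ∃ r > 0, ∀ x, ‖x - z‖ < r → ContDiffAt ℝ 2 g x ∧ ‖gradient g x - gradient g z‖ < ε ∧
      ‖fderiv ℝ (fderiv ℝ g) x - fderiv ℝ (fderiv ℝ g) z‖ < ε := by
  have h1 : ContDiffAt ℝ 1 (fderiv ℝ g) z := hg.fderiv_right (by norm_num)
  have h2 : ContDiffAt ℝ 0 (fderiv ℝ (fderiv ℝ g)) z := h1.fderiv_right (by norm_num)
  have c1 : ContinuousAt (gradient g) z :=
    (InnerProductSpace.toDual ℝ (E n)).symm.continuous.continuousAt.comp h1.continuousAt
  have e0 := hg.eventually (by simp)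
  have e1 := Metric.tendsto_nhds.1 c1.tendsto ε hε
  have e2 := Metric.tendsto_nhds.1 h2.continuousAt.tendsto ε hε
  obtain ⟨r, hr, h⟩ := Metric.eventually_nhds_iff.1 (e0.and (e1.and e2))
  refine ⟨r, hr, fun x hx => ?_⟩
  have := h (y := x) (by rwa [dist_eq_norm])
  rw [dist_eq_norm, dist_eq_norm] at this
  exact this

private theorem LTQ_max {u g v : E n → ℝ} {z : E n} {R : ℝ} (hR : 0 < R)
    (hu : ContinuousOn u (closedBall z R)) (hg : ContinuousOn g (closedBall z R))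
    (hv : Continuous v)
    (hmax : ∀ x ∈ closedBall z R, u x - g x - v x + (‖x - z‖ ^ 2) ^ 2 ≤ u z - g z - v z)
    {ε : ℝ} (hε : 0 < ε) :
    ∃ (c : ℝ) (x0 y0 : E n), 0 ≤ c ∧ ‖x0 - z‖ < ε ∧ ‖y0 - z‖ < ε ∧
      ∀ x ∈ closedBall z R, ∀ y ∈ closedBall z R,
        u x - g x - v y - c / 2 * ‖x - y‖ ^ 2 ≤ u x0 - g x0 - v y0 - c / 2 * ‖x0 - y0‖ ^ 2 := by
  have hK : IsCompact (closedBall z R) := isCompact_closedBall z R
  have hz : z ∈ closedBall z R := mem_closedBall_self hR.le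
  obtain ⟨C1, hC1⟩ := hK.exists_bound_of_continuousOn (hu.sub hg)
  obtain ⟨C2, hC2⟩ := hK.exists_bound_of_continuousOn hv.continuousOn
  have hη : 0 < ((ε / 2) ^ 2) ^ 2 := by positivity
  have huc := hK.uniformContinuousOn_of_continuous hv.continuousOn
  rw [Metric.uniformContinuousOn_iff] at huc
  obtain ⟨δ, hδ, hδv⟩ := huc _ hη
  set δ1 := min δ (ε / 2) with hδ1
  have hδ1p : 0 < δ1 := lt_min hδ (by positivity)
  set C := |C1| + |C2| + |u z - g z - v z| with hC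
  have hC0 : 0 ≤ C := by positivity
  set c := 2 * (C + 1) / δ1 ^ 2 with hc
  have hcp : 0 < c := by positivity
  obtain ⟨⟨x0, y0⟩, ⟨hx0, hy0⟩, hm⟩ := (hK.prod hK).exists_isMaxOn ⟨(z, z), hz, hz⟩
    (f := fun q : E n × E n => u q.1 - g q.1 - v q.2 - c / 2 * ‖q.1 - q.2‖ ^ 2)
    ((((hu.sub hg).comp continuousOn_fst fun q hq => hq.1).sub
      (hv.comp continuous_snd).continuousOn).sub
        (by fun_prop : Continuous fun q : E n × E n => c / 2 * ‖q.1 - q.2‖ ^ 2).continuousOn)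
  have hx0' : x0 ∈ closedBall z R := hx0
  have hy0' : y0 ∈ closedBall z R := hy0
  have hm' : ∀ x ∈ closedBall z R, ∀ y ∈ closedBall z R,
      u x - g x - v y - c / 2 * ‖x - y‖ ^ 2 ≤ u x0 - g x0 - v y0 - c / 2 * ‖x0 - y0‖ ^ 2 :=
    fun x hx y hy => hm (show (x, y) ∈ closedBall z R ×ˢ closedBall z R from ⟨hx, hy⟩)
  have h1 := hm' z hz z hz
  rw [sub_self, norm_zero] at h1
  have h2 : |u x0 - g x0| ≤ C1 := hC1 x0 hx0'
  have h3 : |v y0| ≤ C2 := hC2 y0 hy0'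
  have h4 : c / 2 * ‖x0 - y0‖ ^ 2 ≤ C := by
    have a1 := (abs_le.1 h2).2
    have a2 := (abs_le.1 h3).1
    have a3 := neg_abs_le (u z - g z - v z)
    have a4 := le_abs_self C1
    have a5 := le_abs_self C2
    rw [hC]
    nlinarith
  have h5 : ‖x0 - y0‖ < δ1 := by
    by_contra hcon
    push Not at hcon
    have b1 : δ1 ^ 2 ≤ ‖x0 - y0‖ ^ 2 := pow_le_pow_left₀ hδ1p.le hcon 2
    have b2 : c / 2 * δ1 ^ 2 = C + 1 := by
      rw [hc]
      field_simp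
    have b3 : c / 2 * δ1 ^ 2 ≤ c / 2 * ‖x0 - y0‖ ^ 2 := mul_le_mul_of_nonneg_left b1 (by positivity)
    linarith
  have h6 : v x0 - v y0 < ((ε / 2) ^ 2) ^ 2 := by
    have := hδv x0 hx0' y0 hy0' (by rw [dist_eq_norm]; exact h5.trans_le (min_le_left _ _))
    rw [Real.dist_eq] at this
    exact (le_abs_self _).trans_lt this
  have h7 := hmax x0 hx0'
  have h8 : (‖x0 - z‖ ^ 2) ^ 2 < ((ε / 2) ^ 2) ^ 2 := by
    have : 0 ≤ c / 2 * ‖x0 - y0‖ ^ 2 := by positivity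
    have e0 : c / 2 * (0:ℝ) ^ 2 = 0 := by ring
    rw [e0] at h1
    linarith
  have h9 : ‖x0 - z‖ < ε / 2 := by
    have b1 := lt_of_pow_lt_pow_left₀ 2 (by positivity) h8
    exact lt_of_pow_lt_pow_left₀ 2 (by positivity) b1
  refine ⟨c, x0, y0, hcp.le, by linarith, ?_, hm'⟩
  have b1 : ‖y0 - z‖ ≤ ‖y0 - x0‖ + ‖x0 - z‖ := norm_sub_le_norm_sub_add_norm_sub _ _ _
  rw [norm_sub_rev y0 x0] at b1
  have b2 : δ1 ≤ ε / 2 := min_le_right _ _
  linarith

/-- the form of the majorant -/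
private def LTQ_B (c : ℝ) (G : Bil n) : (E n × E n) →L[ℝ] (E n × E n) →L[ℝ] ℝ :=
  c • (ip : Bil n).bilinearComp
      (ContinuousLinearMap.fst ℝ (E n) (E n) - ContinuousLinearMap.snd ℝ (E n) (E n))
      (ContinuousLinearMap.fst ℝ (E n) (E n) - ContinuousLinearMap.snd ℝ (E n) (E n))
    + G.bilinearComp (ContinuousLinearMap.fst ℝ (E n) (E n)) (ContinuousLinearMap.fst ℝ (E n) (E n))

private theorem LTQ_B_apply (c : ℝ) (G : Bil n) (a b : E n) :
    LTQ_B c G (a, b) (a, b) = c * ‖a - b‖ ^ 2 + G a a := by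
  have h : LTQ_B c G (a, b) (a, b) = c * ⟪a - b, a - b⟫ + G a a := rfl
  rw [h, real_inner_self_eq_norm_sq]

private theorem LTQ_approx (hp : 2 < p) (hQ : QS p b κ S u) {v : E n → ℝ} (hv : Continuous v)
    {f : E n → ℝ} {z : E n} (hz : z ∈ S) (hf : ContDiffAt ℝ 2 f z)
    (hmax : ∃ r > 0, ∀ x, ‖x - z‖ < r → u x + f x - v x ≤ u z + f z - v z) {P : E n}
    (hP : Gd p S u z P) {Λ : ℝ} (hΛ0 : 0 ≤ Λ) (hΛ : (1 - qq p) * ‖P‖ ^ 2 / u z < Λ) {ε : ℝ}
    (hε : 0 < ε) :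
    ∃ (x y P' Q' : E n) (X Y : Bil n), ‖x - z‖ < ε ∧ ‖y - z‖ < ε ∧
      ‖P' + Q' + gradient f z‖ < ε ∧
      (∀ a c, X a c = X c a) ∧ UJ u x P' X ∧ UJ (fun y => -v y) y Q' Y ∧
      (∀ a, X a a + Y a a + fderiv ℝ (fderiv ℝ f) z a a ≤ ε * ‖a‖ ^ 2) ∧
      ∀ a, X a a ≤ (Λ + ε) * ‖a‖ ^ 2 := by
  obtain ⟨ρ1, hρ1, hB, hconc⟩ := qs_semi hp hQ hz hP hΛ
  obtain ⟨r, hr, hm⟩ := hmax
  obtain ⟨hg1, hg2, hgc⟩ := LTQ_g hf
  set g : E n → ℝ := fun x => (‖x - z‖ ^ 2) ^ 2 - f x with hg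
  obtain ⟨r2, hr2, hnear⟩ := LTQ_near hgc (ε := ε / 4) (by positivity)
  set R := min (min ρ1 1) (min r r2) / 2 with hR
  have hRp : 0 < R := by positivity
  have R1 : 2 * R ≤ ρ1 := by
    have : 2 * R = min (min ρ1 1) (min r r2) := by rw [hR]; ring
    rw [this]
    exact (min_le_left _ _).trans (min_le_left _ _)
  have R2 : 2 * R ≤ 1 := by
    have : 2 * R = min (min ρ1 1) (min r r2) := by rw [hR]; ring
    rw [this]
    exact (min_le_left _ _).trans (min_le_right _ _)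
  have R3 : 2 * R ≤ r := by
    have : 2 * R = min (min ρ1 1) (min r r2) := by rw [hR]; ring
    rw [this]
    exact (min_le_right _ _).trans (min_le_left _ _)
  have R4 : 2 * R ≤ r2 := by
    have : 2 * R = min (min ρ1 1) (min r r2) := by rw [hR]; ring
    rw [this]
    exact (min_le_right _ _).trans (min_le_right _ _)
  clear_value R
  have hsub : closedBall z R ⊆ closedBall z ρ1 := closedBall_subset_closedBall (by linarith)
  have cu : ContinuousOn u (closedBall z R) := (qs_cont hp hQ).mono (hsub.trans hB)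
  have cg : ContinuousOn g (closedBall z R) := by
    intro x hx
    rw [mem_closedBall, dist_eq_norm] at hx
    exact (hnear x (by linarith)).1.continuousAt.continuousWithinAt
  have hε1 : 0 < min (R / 2) (ε / 4) := by positivity
  obtain ⟨c, x0, y0, hc, hx0, hy0, hmm⟩ := LTQ_max hRp cu cg hv (fun x hx => by
    rw [mem_closedBall, dist_eq_norm] at hx
    have h1 := hm x (by linarith)
    have e1 : g x = (‖x - z‖ ^ 2) ^ 2 - f x := rfl
    have e2 : g z = - f z := by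
      show (‖z - z‖ ^ 2) ^ 2 - f z = - f z
      simp
    rw [e1, e2]
    linarith) hε1
  have hx0R : ‖x0 - z‖ < R / 2 := hx0.trans_le (min_le_left _ _)
  have hy0R : ‖y0 - z‖ < R / 2 := hy0.trans_le (min_le_left _ _)
  have hx0e : ‖x0 - z‖ < ε / 4 := hx0.trans_le (min_le_right _ _)
  have hy0e : ‖y0 - z‖ < ε / 4 := hy0.trans_le (min_le_right _ _)
  obtain ⟨hgx, hgx1, hgx2⟩ := hnear x0 (by linarith)
  have hsub2 : closedBall x0 (R / 2) ⊆ closedBall z R := by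
    intro x hx
    rw [mem_closedBall, dist_eq_norm] at hx ⊢
    have : ‖x - z‖ ≤ ‖x - x0‖ + ‖x0 - z‖ := norm_sub_le_norm_sub_add_norm_sub _ _ _
    linarith
  set G : Bil n := fderiv ℝ (fderiv ℝ g) x0 with hG
  have key : ∀ η > 0, ∃ r > 0, ∀ x y, ‖x - x0‖ < r → ‖y - y0‖ < r →
      u x + (fun y => -v y) y ≤ u x0 + (fun y => -v y) y0
        + ⟪c • (x0 - y0) + gradient g x0, x - x0⟫ + ⟪-(c • (x0 - y0)), y - y0⟫ +
        1 / 2 * LTQ_B c G (x - x0, y - y0) (x - x0, y - y0)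
        + η * (‖x - x0‖ ^ 2 + ‖y - y0‖ ^ 2) := by
    intro η hη
    obtain ⟨r3, hr3, hU⟩ := (t2_of_contDiffAt hgx).1 η hη
    refine ⟨min r3 (R / 2), lt_min hr3 (by positivity), fun x y hx hy => ?_⟩
    have hxr : ‖x - x0‖ < r3 := hx.trans_le (min_le_left _ _)
    have hxR : ‖x - x0‖ < R / 2 := hx.trans_le (min_le_right _ _)
    have hyR : ‖y - y0‖ < R / 2 := hy.trans_le (min_le_right _ _)
    have mx : x ∈ closedBall z R := hsub2 (by rw [mem_closedBall, dist_eq_norm]; exact hxR.le)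
    have my : y ∈ closedBall z R := by
      rw [mem_closedBall, dist_eq_norm]
      have : ‖y - z‖ ≤ ‖y - y0‖ + ‖y0 - z‖ := norm_sub_le_norm_sub_add_norm_sub _ _ _
      linarith
    have h1 := hmm x mx y my
    have h2 := hU x hxr
    have e1 : x - y = (x0 - y0) + ((x - x0) - (y - y0)) := by abel
    have e2 : ‖x - y‖ ^ 2 = ‖x0 - y0‖ ^ 2 + 2 * ⟪x0 - y0, (x - x0) - (y - y0)⟫
        + ‖(x - x0) - (y - y0)‖ ^ 2 := by
      rw [e1]
      exact norm_add_sq_real _ _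
    rw [LTQ_B_apply, inner_add_left, inner_neg_left, inner_smul_left, inner_smul_left]
    rw [e2, inner_sub_right] at h1
    simp only [conj_trivial]
    have h3 : 0 ≤ η * ‖y - y0‖ ^ 2 := by positivity
    nlinarith
  obtain ⟨x, y, P', Q', X, Y, s1, s2, s3, s4, s5, s6, s7, s8, s9, s10, s11, s12⟩ :=
    scs (u := u) (w := fun y => -v y) (ρ := R / 2) (Λ := Λ) (by positivity) (by linarith) hΛ0
      (cu.mono hsub2).upperSemicontinuousOn
      (hconc.subset (hsub2.trans hsub) (convex_closedBall _ _))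
      hv.neg.continuousOn.upperSemicontinuousOn key (δ := ε / 8) (by positivity)
  refine ⟨x, y, P', Q', X, Y, ?_, ?_, ?_, s7, s9, s10, fun a => ?_, fun a => ?_⟩
  · have : ‖x - z‖ ≤ ‖x - x0‖ + ‖x0 - z‖ := norm_sub_le_norm_sub_add_norm_sub _ _ _
    linarith
  · have : ‖y - z‖ ≤ ‖y - y0‖ + ‖y0 - z‖ := norm_sub_le_norm_sub_add_norm_sub _ _ _
    linarith
  · have e : P' + Q' + gradient f z = (P' - (c • (x0 - y0) + gradient g x0))
        + (Q' - -(c • (x0 - y0))) + (gradient g x0 - gradient g z) := by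
      rw [hg1]
      abel
    rw [e]
    have a1 := norm_add_le ((P' - (c • (x0 - y0) + gradient g x0))
        + (Q' - -(c • (x0 - y0)))) (gradient g x0 - gradient g z)
    have a2 := norm_add_le (P' - (c • (x0 - y0) + gradient g x0)) (Q' - -(c • (x0 - y0)))
    linarith
  · have a1 := s11 a a
    rw [LTQ_B_apply, sub_self, norm_zero] at a1
    have a2 : |(G - fderiv ℝ (fderiv ℝ g) z) a a| ≤ ‖G - fderiv ℝ (fderiv ℝ g) z‖ * ‖a‖ ^ 2 :=
      jtb_form_bound _ a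
    have a3 : (G - fderiv ℝ (fderiv ℝ g) z) a a = G a a - fderiv ℝ (fderiv ℝ g) z a a := rfl
    rw [a3, hg2 a] at a2
    have a4 := (abs_le.1 a2).2
    have a5 : ‖G - fderiv ℝ (fderiv ℝ g) z‖ * ‖a‖ ^ 2 ≤ ε / 4 * ‖a‖ ^ 2 :=
      mul_le_mul_of_nonneg_right hgx2.le (by positivity)
    have a6 : 0 ≤ ε * ‖a‖ ^ 2 := by positivity
    nlinarith
  · refine (s12 a).trans (mul_le_mul_of_nonneg_right ?_ (by positivity))
    linarith

theorem ltq (hp : 2 < p) (hQ : QS p b κ S u) {v : E n → ℝ} (hv : Continuous v)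
    (hsp : Sp p b κ S v) {f : E n → ℝ} {z : E n} (hz : z ∈ S) (hf : ContDiffAt ℝ 2 f z)
    (hmax : ∃ r > 0, ∀ x, ‖x - z‖ < r → u x + f x - v x ≤ u z + f z - v z) {P : E n}
    (hP : Gd p S u z P) (hP0 : P ≠ 0) (hPf : P + gradient f z ≠ 0) :
    ∃ X : Bil n, (∀ a c, X a c = X c a) ∧
      (∀ a, X a a ≤ ((1 - qq p) * ‖P‖ ^ 2 / u z + 1) * ‖a‖ ^ 2) ∧
      0 ≤ pA p P X + ⟪b, P⟫ + κ * u z ∧
      pA p (P + gradient f z) (X + fderiv ℝ (fderiv ℝ f) z) + ⟪b, P + gradient f z⟫ + κ * v z ≤ 0 := by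
  have hq1 : 0 < 1 - qq p := by
    have hp0 : (0:ℝ) < p := by linarith
    have : 1 - qq p = 2 / p := by
      unfold qq
      field_simp
      ring
    rw [this]
    positivity
  have huz : 0 < u z := hQ.pos z hz
  set Λ0 := (1 - qq p) * ‖P‖ ^ 2 / u z with hΛ0
  have hΛ0p : 0 ≤ Λ0 := by positivity
  obtain ⟨rS, hrS, hSb⟩ := Metric.isOpen_iff.1 hQ.isOpen z hz
  have hε : ∀ k : ℕ, 0 < min (1 / ((k : ℝ) + 1)) rS := fun k => by positivity
  have ha : ∀ k : ℕ, ∃ (x y P' Q' : E n) (X Y : Bil n), ‖x - z‖ < min (1 / ((k : ℝ) + 1)) rS ∧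
      ‖y - z‖ < min (1 / ((k : ℝ) + 1)) rS ∧
      ‖P' + Q' + gradient f z‖ < min (1 / ((k : ℝ) + 1)) rS ∧
      (∀ a c, X a c = X c a) ∧ UJ u x P' X ∧ UJ (fun y => -v y) y Q' Y ∧
      (∀ a, X a a + Y a a + fderiv ℝ (fderiv ℝ f) z a a ≤
        min (1 / ((k : ℝ) + 1)) rS * ‖a‖ ^ 2) ∧
      ∀ a, X a a ≤ (Λ0 + 1 / 2 + min (1 / ((k : ℝ) + 1)) rS) * ‖a‖ ^ 2 := fun k =>
    LTQ_approx hp hQ hv hz hf hmax hP (Λ := Λ0 + 1 / 2) (by linarith) (by linarith) (hε k)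
  choose x y Pk Qk Xk Yk a1 a2 a3 a4 a5 a6 a7 a8 using ha
  set U : Ultrafilter ℕ := Filter.hyperfilter ℕ with hU
  have hUt : (U : Filter ℕ) ≤ atTop := Nat.hyperfilter_le_atTop
  have l0 : Tendsto (fun k : ℕ => 1 / ((k : ℝ) + 1)) U (𝓝 0) :=
    tendsto_one_div_add_atTop_nhds_zero_nat.mono_left hUt
  have lε : Tendsto (fun k : ℕ => min (1 / ((k : ℝ) + 1)) rS) U (𝓝 0) :=
    squeeze_zero (fun k => (hε k).le) (fun k => min_le_left _ _) l0
  have lx : Tendsto x U (𝓝 z) := by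
    rw [tendsto_iff_norm_sub_tendsto_zero]
    exact squeeze_zero (fun k => norm_nonneg _) (fun k => (a1 k).le) lε
  have ly : Tendsto y U (𝓝 z) := by
    rw [tendsto_iff_norm_sub_tendsto_zero]
    exact squeeze_zero (fun k => norm_nonneg _) (fun k => (a2 k).le) lε
  have l3 : Tendsto (fun k => Pk k + Qk k + gradient f z) U (𝓝 0) := by
    rw [tendsto_zero_iff_norm_tendsto_zero]
    exact squeeze_zero (fun k => norm_nonneg _) (fun k => (a3 k).le) lε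
  have hxS : ∀ k, x k ∈ S := fun k => hSb (by
    rw [mem_ball, dist_eq_norm]
    exact (a1 k).trans_le (min_le_right _ _))
  have hyS : ∀ k, y k ∈ S := fun k => hSb (by
    rw [mem_ball, dist_eq_norm]
    exact (a2 k).trans_le (min_le_right _ _))
  have lP : Tendsto Pk U (𝓝 P) := by
    rw [Metric.tendsto_nhds]
    intro ε hε'
    obtain ⟨δ, hδ, hd⟩ := gd_cont hp hQ hz hP (ε := ε / 2) (by positivity)
    filter_upwards [Metric.tendsto_nhds.1 lx δ hδ] with k hk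
    rw [dist_eq_norm] at hk ⊢
    have := hd (x k) (Pk k) hk (uj_gd hp hQ (hxS k) (a5 k))
    linarith
  have lQ : Tendsto (fun k => -Qk k) U (𝓝 (P + gradient f z)) := by
    have h1 : Tendsto (fun k => Pk k + gradient f z - (Pk k + Qk k + gradient f z)) U
        (𝓝 (P + gradient f z - 0)) := (lP.add_const _).sub l3
    rw [sub_zero] at h1
    refine h1.congr fun k => ?_
    abel
  have lu : Tendsto (fun k => u (x k)) U (𝓝 (u z)) := by
    have h1 : ContinuousAt u z := (qs_cont hp hQ).continuousAt (hQ.isOpen.mem_nhds hz)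
    exact h1.tendsto.comp lx
  have lv : Tendsto (fun k => v (y k)) U (𝓝 (v z)) := (hv.tendsto z).comp ly
  -- bound for the forms
  have hPn : 0 < ‖P‖ := norm_pos_iff.2 hP0
  set C := ‖b‖ * (‖P‖ + 1) + |κ| * (u z + 1) with hC
  have hC0 : 0 ≤ C := by positivity
  set C3 := ((n + p) * (Λ0 + 3 / 2) + C / (‖P‖ / 2) ^ (p - 2)) + (Λ0 + 3 / 2) with hC3
  have hC30 : 0 ≤ C3 := by
    have hp0 : (0:ℝ) < p := by linarith
    positivity
  have hXb : ∀ᶠ k in (U : Filter ℕ), Xk k ∈ closedBall (0 : Bil n) C3 := by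
    have e1 : ∀ᶠ k in (U : Filter ℕ), ‖P‖ / 2 < ‖Pk k‖ :=
      lP.norm.eventually (lt_mem_nhds (by linarith))
    have e2 : ∀ᶠ k in (U : Filter ℕ), ‖Pk k‖ < ‖P‖ + 1 :=
      lP.norm.eventually (gt_mem_nhds (by linarith))
    have e3 : ∀ᶠ k in (U : Filter ℕ), u (x k) < u z + 1 :=
      lu.eventually (gt_mem_nhds (by linarith))
    filter_upwards [e1, e2, e3] with k k1 k2 k3
    have h1 := hQ.sb (x k) (hxS k) (Pk k) (Xk k) (a5 k)
    have h2 := hQ.pos (x k) (hxS k)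
    have h3 : |⟪b, Pk k⟫| ≤ ‖b‖ * (‖P‖ + 1) :=
      (abs_real_inner_le_norm _ _).trans (mul_le_mul_of_nonneg_left k2.le (norm_nonneg _))
    have h4 : κ * u (x k) ≤ |κ| * (u z + 1) := by
      calc κ * u (x k) ≤ |κ| * u (x k) := mul_le_mul_of_nonneg_right (le_abs_self _) h2.le
        _ ≤ |κ| * (u z + 1) := mul_le_mul_of_nonneg_left k3.le (abs_nonneg _)
    have h5 : -C ≤ pA p (Pk k) (Xk k) := by
      have := le_abs_self (⟪b, Pk k⟫ : ℝ)
      linarith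
    have h6 : ∀ a, Xk k a a ≤ (Λ0 + 3 / 2) * ‖a‖ ^ 2 := fun a => by
      refine (a8 k a).trans (mul_le_mul_of_nonneg_right ?_ (by positivity))
      have h7 : min (1 / ((k : ℝ) + 1)) rS ≤ 1 := (min_le_left _ _).trans (by
        rw [div_le_one (by positivity)]
        have : (0:ℝ) ≤ k := Nat.cast_nonneg k
        linarith)
      linarith
    have h8 := pA_lower hp (c0 := ‖P‖ / 2) (C := C) (L := Λ0 + 3 / 2) (by positivity) hC0
      (by linarith) k1.le h6 h5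
    rw [mem_closedBall_zero_iff]
    refine opNorm_le_of_quad (a4 k) hC30 fun w => ?_
    have h9 : 0 ≤ ‖w‖ ^ 2 := by positivity
    have hp0 : (0:ℝ) < p := by linarith
    have h10 : 0 ≤ ((n + p) * (Λ0 + 3 / 2) + C / (‖P‖ / 2) ^ (p - 2)) := by positivity
    rw [abs_le]
    constructor
    · refine le_trans ?_ (h8 w)
      rw [hC3]
      nlinarith [mul_nonneg (by linarith : (0:ℝ) ≤ Λ0 + 3 / 2) h9]
    · refine (h6 w).trans ?_
      rw [hC3]
      nlinarith [mul_nonneg h10 h9]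
  obtain ⟨X, -, hX⟩ := (isCompact_closedBall (0 : Bil n) C3).ultrafilter_le_nhds (U.map Xk)
    (by rw [le_principal_iff]; exact hXb)
  have lX : Tendsto Xk U (𝓝 X) := hX
  have lXa : ∀ a c, Tendsto (fun k => Xk k a c) U (𝓝 (X a c)) := fun a c => by
    have hc : Continuous fun Z : Bil n => Z a c := by fun_prop
    exact (hc.tendsto X).comp lX
  refine ⟨X, fun a c => ?_, fun a => ?_, ?_, ?_⟩
  · exact tendsto_nhds_unique (lXa a c) ((lXa c a).congr fun k => (a4 k c a))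
  · have h1 : Tendsto (fun k : ℕ => (Λ0 + 1 / 2 + min (1 / ((k : ℝ) + 1)) rS) * ‖a‖ ^ 2) U
        (𝓝 ((Λ0 + 1 / 2 + 0) * ‖a‖ ^ 2)) := (tendsto_const_nhds.add lε).mul_const _
    have h2 := le_of_tendsto_of_tendsto' (lXa a a) h1 fun k => a8 k a
    refine h2.trans (mul_le_mul_of_nonneg_right ?_ (by positivity))
    linarith
  · have h1 : Tendsto (fun k => pA p (Pk k) (Xk k) + ⟪b, Pk k⟫ + κ * u (x k)) U
        (𝓝 (pA p P X + ⟪b, P⟫ + κ * u z)) :=
      ((((pA_cont hp).tendsto (P, X)).comp (lP.prodMk_nhds lX)).add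
        (tendsto_const_nhds.inner lP)).add (lu.const_mul κ)
    exact ge_of_tendsto' h1 fun k => hQ.sb (x k) (hxS k) (Pk k) (Xk k) (a5 k)
  · have h0 : Tendsto (fun k => Xk k + fderiv ℝ (fderiv ℝ f) z
        + (-(min (1 / ((k : ℝ) + 1)) rS)) • (ip : Bil n)) U
        (𝓝 (X + fderiv ℝ (fderiv ℝ f) z + (-(0:ℝ)) • (ip : Bil n))) :=
      (lX.add_const _).add (lε.neg.smul_const _)
    rw [neg_zero, zero_smul, add_zero] at h0
    have h1 : Tendsto (fun k => pA p (-Qk k) (Xk k + fderiv ℝ (fderiv ℝ f) z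
        + (-(min (1 / ((k : ℝ) + 1)) rS)) • (ip : Bil n)) + ⟪b, -Qk k⟫ + κ * v (y k)) U
        (𝓝 (pA p (P + gradient f z) (X + fderiv ℝ (fderiv ℝ f) z)
          + ⟪b, P + gradient f z⟫ + κ * v z)) :=
      ((((pA_cont hp).tendsto (P + gradient f z, X + fderiv ℝ (fderiv ℝ f) z)).comp
        (lQ.prodMk_nhds h0)).add (tendsto_const_nhds.inner lQ)).add (lv.const_mul κ)
    refine le_of_tendsto' h1 fun k => ?_
    have h2 : LJ v (y k) (-Qk k) (-Yk k) := by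
      rw [← uj_neg]
      simpa using a6 k
    have h3 := hsp (y k) (hyS k) _ _ h2
    have h4 : pA p (-Qk k) (Xk k + fderiv ℝ (fderiv ℝ f) z
        + (-(min (1 / ((k : ℝ) + 1)) rS)) • (ip : Bil n)) ≤ pA p (-Qk k) (-Yk k) := by
      refine pA_mono hp fun w => ?_
      have h5 := a7 k w
      have e1 : (Xk k + fderiv ℝ (fderiv ℝ f) z
          + (-(min (1 / ((k : ℝ) + 1)) rS)) • (ip : Bil n)) w w
          = Xk k w w + fderiv ℝ (fderiv ℝ f) z w w - min (1 / ((k : ℝ) + 1)) rS * ‖w‖ ^ 2 := by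
        show Xk k w w + fderiv ℝ (fderiv ℝ f) z w w
          + (-(min (1 / ((k : ℝ) + 1)) rS)) * ⟪w, w⟫ = _
        rw [real_inner_self_eq_norm_sq]
        ring
      have e2 : (-Yk k) w w = -(Yk k w w) := rfl
      rw [e1, e2]
      linarith
    linarith

end Pool.Agent.TWC
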