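import Pool.Agent.TWC.NRM
import Pool.Agent.TWC.LTQ
import Pool.Agent.TWC.JTB

/-!
# TWC HPF: Hopf lemma at the wall

`W` QS on `S ⊇ Ω ∩ ball w0 ρ`, `k d ≤ W ≤ C d` there; `v ≥ 0` continuous, supersolution on `S`, `W < v` on
`Ω ∩ ball w0 ρ`. Then `W + η d ≤ v` near `w0` for some `η > 0`.

Proof. Take `ρ', c', C'` from `nrm` (write `ρ` for `ρ'`), and `r1 ≤ r0` so small that `4 r1 ≤ ρ` and the
smallness below holds. For `w ∈ frontier Ω`, `|w-w0| < ρ/4`, normal `ν_w`, let `y = w + r1 ν_w`; then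
`ball y r1 ⊆ ball (w + r0 ν_w) r0 ⊆ Ω`, `ball y r1 ⊆ ball w0 ρ`. For `x ∈ ball y r1`, `x ≠ y`, put
`ϱ = r1 - |x-y| ≤ d = dw x ≤ 2 r1`, `N = (y-x)/|y-x| = ∇ϱ`.
(angle) if `d ≤ r1`: by `ball_normal`, `|N - ν_x| ≤ sqrt(2d/r1)` where `x = w_x + d ν_x`; by `nrm` the unit
vector `P/|P|` satisfies `|P/|P| - ν_x| ≤ C3 sqrt d`; so `|N - P/|P|| ≤ C4 sqrt d`, (`C4` depends on `r1`) also
true for `d > r1` (trivial bound 2). Only the region `r1/2 ≤ |x-y| < r1` is used.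
For the sign: `<N,P> ≥ 0` is needed when `d` is small: if `C4 sqrt d ≤ 1` then `<N,P> ≥ 0`. Let `d1 = 1/C4²`.
Barrier `h = H(ϱ)`, `H(0) = 0`, `H'(ϱ) = exp(2K sqrt ϱ)` for `ϱ > 0` (so `H'' = K H'/sqrt ϱ`), i.e.
`H ϱ = ∫ t in 0..ϱ, exp(2K sqrt t)`; `ϱ ≤ H ≤ e^(2K)·ϱ` for `ϱ ≤ 1`. Annulus `A = {0 ≤ ϱ ≤ ϱ1}`,
`ϱ1 = ϱ1(K) ≤ min(r1/2, 1, 1/K²)`.
For `η > 0` small, `v - W - η h ≥ 0` on `ϱ = 0` (`v ≥ W`, also at wall points by continuity: `W = lim ≤ C d`,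
set `W = 0`... use: at points of the sphere in `Ω` `v ≥ W`; near a wall point of the sphere `W → 0`) and on
`ϱ = ϱ1` (there `d ≥ ϱ1`; the set of all such `x` for all `w` is contained in the compact set
`{x : dw x ≥ ϱ1, |x-w0| ≤ 3ρ/4}` on which `v - W ≥ δ > 0`; `η H(ϱ1) ≤ δ`): `η` uniform in `w`.
Suppose `v - W - η h` has a negative infimum on the open annulus; since it is `≥ 0` near the boundary up
to `o(1)`, it is attained at some `x` in the open annulus (`W` continuous on `Ω`, `0 ≤ W ≤ C d`). `ltq` at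
`x` (`f = η h`, C² near `x` since `0 < ϱ`, `x ≠ y`), `P` gradient of `W`, `c' ≤ |P| ≤ C'`; `Q = η H' N`,
`|Q| ≤ c'/2`, and `P + Q ≠ 0`. `X ≤ (1-q)|P|²/W + 1 ≤ C5/d`; `pA P X ≥ -C`; so `|X| ≤ C6/d`. Subtract:
(1) `0 ≥ pA R (X + η D²h) - pA P X + <b,Q> + κ(v-W)`, `R = P + Q`. `κ(v - W) ≥ 0`.
`pA R X - pA P X = ((|R|/|P|)^(p-2) - 1) pA P X + |R|^(p-2)(p-2)(X(R^,R^) - X(P^,P^))` (`R^ = R/|R|`). Case
`d ≤ d1`: `|R| ≥ |P|` so the first term is `≥ -C η H'` (`pA P X ≥ -C`, `(|R|/|P|)^(p-2) - 1 ≤ C η H'`);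
`|R^ - P^| ≤ C η H' |N - P^| ≤ C η H' sqrt d`; `|X(R^,R^) - X(P^,P^)| ≤ 2|X||R^-P^| ≤ C η H'/sqrt d
≤ C η H'/sqrt ϱ`. Case `d > d1`: `|X| ≤ C`, use `pA_lip`: `≥ -C η H'`. So
(2) `pA R X - pA P X ≥ -C7 η H' (1 + 1/sqrt ϱ)`, `C7` independent of `K, η`.
`D²h = H'' rk N - (H'/|x-y|)(ip - rk N)`; `pA R D²h ≥ |R|^(p-2)(H'' - (n+p-2) H' 2/r1) ≥ c8 H'' - C8 H'`.
With (1): `0 ≥ η H' (c8 K/sqrt ϱ - C8 - C7(1+1/sqrt ϱ) - |b|) > 0` for `K` large (`ϱ ≤ 1`): contradiction.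
Hence `v ≥ W + η h ≥ W + η ϱ` on the annulus; at `x = w + d ν_w` (`d ≤ ϱ1`), `ϱ = d`. Every `x ∈ Ω` near `w0` is
of this form with `|w-w0| ≤ 2|x-w0|` (`near_close`).
-/

open Set Metric Filter Topology
open scoped RealInnerProductSpace

noncomputable section

namespace Pool.Agent.TWC

variable {n : ℕ} {p : ℝ} {b : E n} {κ : ℝ} {S : Set (E n)} {W : E n → ℝ}

private theorem HPF_rpow (r c0 C0 : ℝ) (hc : 0 < c0) :
    ∃ M, 0 ≤ M ∧ ∀ s ∈ Icc c0 C0, ∀ t ∈ Icc c0 C0, |s ^ r - t ^ r| ≤ M * |s - t| := by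
  have h1 : ContinuousOn (fun t : ℝ => r * t ^ (r - 1)) (Icc c0 C0) :=
    continuousOn_const.mul (continuousOn_id.rpow_const fun t ht =>
      Or.inl (by have := ht.1; simp only [id]; linarith [hc]))
  obtain ⟨M1, hM1⟩ := isCompact_Icc.exists_bound_of_continuousOn h1
  refine ⟨max 0 M1, le_max_left _ _, fun s hs t ht => ?_⟩
  have := (convex_Icc c0 C0).norm_image_sub_le_of_norm_hasDerivWithin_le
    (f := fun t : ℝ => t ^ r) (f' := fun t => r * t ^ (r - 1)) (C := max 0 M1)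
    (fun x hx => (Real.hasDerivAt_rpow_const
      (Or.inl (by have := hx.1; linarith [hc]))).hasDerivWithinAt)
    (fun x hx => (hM1 x hx).trans (le_max_right _ _)) ht hs
  simpa [Real.norm_eq_abs] using this

private theorem HPF_unit {A ν : E n} (hν : ‖ν‖ = 1) (hA : A ≠ 0) :
    ‖(1 / ‖A‖) • A - ν‖ ≤ 2 * ‖A - ν‖ := by
  have hA' : 0 < ‖A‖ := norm_pos_iff.2 hA
  have h1 : ‖(1 / ‖A‖) • A - A‖ ≤ ‖A - ν‖ := by
    have h2 : (1 / ‖A‖) • A - A = (1 / ‖A‖ - 1) • A := by rw [sub_smul, one_smul]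
    have h3 : |1 / ‖A‖ - 1| * ‖A‖ = |‖ν‖ - ‖A‖| := by
      rw [hν]
      nth_rewrite 2 [← abs_of_pos hA']
      rw [← abs_mul]
      congr 1
      field_simp
    rw [h2, norm_smul, Real.norm_eq_abs, h3]
    rw [norm_sub_rev]
    exact abs_norm_sub_norm_le ν A
  calc ‖(1 / ‖A‖) • A - ν‖ = ‖((1 / ‖A‖) • A - A) + (A - ν)‖ := by congr 1; abel
    _ ≤ ‖(1 / ‖A‖) • A - A‖ + ‖A - ν‖ := norm_add_le _ _
    _ ≤ _ := by linarith

private theorem HPF_pA {P : E n} (hP : P ≠ 0) (X : Bil n) :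
    pA p P X = ‖P‖ ^ (p - 2) * (tr X + (p - 2) * X ((1 / ‖P‖) • P) ((1 / ‖P‖) • P)) := by
  have h : 0 < ‖P‖ := norm_pos_iff.2 hP
  have h1 : X ((1 / ‖P‖) • P) ((1 / ‖P‖) • P) = X P P / ‖P‖ ^ 2 := by
    simp only [map_smul, smul_apply, smul_eq_mul]
    field_simp
  have h2 : ‖P‖ ^ (p - 2) = ‖P‖ ^ (p - 4) * ‖P‖ ^ 2 := by
    rw [show p - 2 = (p - 4) + (2 : ℕ) by push_cast; ring, Real.rpow_add h, Real.rpow_natCast]
  unfold pA
  rw [h1, h2]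
  field_simp

private theorem HPF_near (hp : 2 < p) {c1 C1 CA : ℝ} (hc1 : 0 < c1) (hCA : 0 ≤ CA) :
    ∃ K, 0 < K ∧ ∀ (P N : E n) (X : Bil n) (q : ℝ), c1 ≤ ‖P‖ → ‖P‖ ≤ C1 → ‖N‖ = 1 → 0 < q →
      q ≤ c1 → ‖N - (1 / ‖P‖) • P‖ ≤ 1 → -CA ≤ pA p P X →
      -(K * q * (1 + ‖X‖ * ‖N - (1 / ‖P‖) • P‖)) ≤ pA p (P + q • N) X - pA p P X := by
  obtain ⟨M, hM0, hM⟩ := HPF_rpow (p - 2) c1 (2 * C1) hc1
  set K := M * CA / c1 ^ (p - 2) + |(2 * C1)| ^ (p - 2) * (p - 2) * (4 / c1) + 1 with hK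
  have hp2 : 0 < p - 2 := by linarith
  have hc1p : 0 < c1 ^ (p - 2) := by positivity
  have hK1 : 0 ≤ M * CA / c1 ^ (p - 2) := by positivity
  have hK2 : 0 ≤ |(2 * C1)| ^ (p - 2) * (p - 2) * (4 / c1) := by positivity
  refine ⟨K, by rw [hK]; linarith, ?_⟩
  intro P N X q hP hP' hN hq hq' hθ hpA
  have hC1 : 0 < C1 := hc1.trans_le (hP.trans hP')
  rw [abs_of_pos (by positivity : 0 < 2 * C1)] at hK hK2
  have hPpos : 0 < ‖P‖ := hc1.trans_le hP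
  have hP0 : P ≠ 0 := norm_pos_iff.1 hPpos
  set Ph : E n := (1 / ‖P‖) • P with hPh
  have hPhn : ‖Ph‖ = 1 := by
    rw [hPh, norm_smul, Real.norm_eq_abs, abs_of_pos (by positivity)]
    field_simp
  have hPPh : P = ‖P‖ • Ph := by
    rw [hPh, smul_smul, mul_one_div_cancel hPpos.ne', one_smul]
  set θ := ‖N - Ph‖ with hθd
  have hθ0 : 0 ≤ θ := norm_nonneg _
  set R := P + q • N with hR
  have hin : 1 / 2 ≤ ⟪Ph, N⟫ := by
    have h1 := norm_sub_sq_real N Ph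
    rw [hN, hPhn, real_inner_comm] at h1
    have h2 : θ ^ 2 ≤ 1 := by nlinarith
    rw [← hθd] at h1
    linarith
  have hRsq : ‖R‖ ^ 2 = ‖P‖ ^ 2 + 2 * q * (‖P‖ * ⟪Ph, N⟫) + q ^ 2 := by
    have h1 := norm_add_sq_real P (q • N)
    rw [← hR, norm_smul, hN, mul_one, Real.norm_eq_abs, sq_abs, real_inner_smul_right] at h1
    have h2 : ⟪P, N⟫ = ‖P‖ * ⟪Ph, N⟫ := by
      conv_lhs => rw [hPPh]
      rw [real_inner_smul_left]
    rw [h2] at h1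
    linarith
  have hRP : ‖P‖ ≤ ‖R‖ := by
    have h1 : 0 ≤ 2 * q * (‖P‖ * ⟪Ph, N⟫) := by
      have : 0 ≤ ⟪Ph, N⟫ := by linarith
      positivity
    have h2 : ‖P‖ ^ 2 ≤ ‖R‖ ^ 2 := by nlinarith
    exact (sq_le_sq₀ (norm_nonneg _) (norm_nonneg _)).1 h2
  have hRpos : 0 < ‖R‖ := hPpos.trans_le hRP
  have hR0 : R ≠ 0 := norm_pos_iff.1 hRpos
  have hRle : ‖R‖ ≤ ‖P‖ + q := by
    rw [hR]
    refine (norm_add_le _ _).trans ?_
    rw [norm_smul, hN, mul_one, Real.norm_eq_abs, abs_of_pos hq]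
  have hR2 : ‖R‖ ≤ 2 * C1 := by linarith
  -- the direction of R
  have hdir : ‖(1 / ‖R‖) • R - Ph‖ ≤ 2 * (q / c1 * θ) := by
    set s := ‖P‖ + q with hs
    have hs0 : 0 < s := by rw [hs]; linarith
    set A := (1 / s) • R with hA
    have hA0 : A ≠ 0 := by
      rw [hA]; exact smul_ne_zero (by positivity) hR0
    have hAn : ‖A‖ = ‖R‖ / s := by
      rw [hA, norm_smul, Real.norm_eq_abs, abs_of_pos (by positivity)]
      ring
    have h1 : (1 / ‖A‖) • A = (1 / ‖R‖) • R := by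
      rw [hAn, hA, smul_smul]
      congr 1
      field_simp
    have h2 : A - Ph = (q / s) • (N - Ph) := by
      have h3 : R = ‖P‖ • Ph + q • N := by rw [← hPPh]
      have h4 : Ph = (1 / s) • (s • Ph) := by
        rw [smul_smul, one_div_mul_cancel hs0.ne', one_smul]
      have h5 : A - Ph = (1 / s) • (R - s • Ph) := by
        rw [smul_sub, ← h4]
      rw [h5, h3, hs, add_smul]
      have h6 : ‖P‖ • Ph + q • N - (‖P‖ • Ph + q • Ph) = q • (N - Ph) := by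
        rw [smul_sub]; abel
      rw [h6, smul_smul]
      congr 1
      ring
    have h3 := HPF_unit hPhn hA0
    rw [h1, h2, norm_smul, Real.norm_eq_abs, abs_of_pos (by positivity)] at h3
    refine h3.trans ?_
    have h4 : q / s ≤ q / c1 := by
      apply div_le_div_of_nonneg_left hq.le hc1
      rw [hs]; linarith
    have := mul_le_mul_of_nonneg_right h4 hθ0
    linarith
  set Rh : E n := (1 / ‖R‖) • R with hRh
  have hRhn : ‖Rh‖ = 1 := by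
    rw [hRh, norm_smul, Real.norm_eq_abs, abs_of_pos (by positivity)]
    field_simp
  have hXd : |X Rh Rh - X Ph Ph| ≤ 2 * ‖X‖ * ‖Rh - Ph‖ := by
    have h1 : X Rh Rh - X Ph Ph = X (Rh - Ph) Rh + X Ph (Rh - Ph) := by
      simp only [map_sub, sub_apply]; ring
    rw [h1]
    refine (abs_add_le _ _).trans ?_
    have h2 := X.le_opNorm₂ (Rh - Ph) Rh
    have h3 := X.le_opNorm₂ Ph (Rh - Ph)
    rw [Real.norm_eq_abs, hRhn] at h2
    rw [Real.norm_eq_abs, hPhn] at h3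
    linarith
  have e1 : pA p R X = ‖R‖ ^ (p - 2) * (tr X + (p - 2) * X Rh Rh) := HPF_pA hR0 X
  have e2 : pA p P X = ‖P‖ ^ (p - 2) * (tr X + (p - 2) * X Ph Ph) := HPF_pA hP0 X
  have ha : ‖P‖ ^ (p - 2) ≤ ‖R‖ ^ (p - 2) := Real.rpow_le_rpow hPpos.le hRP hp2.le
  have hb0 : c1 ^ (p - 2) ≤ ‖P‖ ^ (p - 2) := Real.rpow_le_rpow hc1.le hP hp2.le
  have hb1 : 0 < ‖P‖ ^ (p - 2) := by positivity
  have hRb : ‖R‖ ^ (p - 2) ≤ (2 * C1) ^ (p - 2) := Real.rpow_le_rpow hRpos.le hR2 hp2.le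
  have hdiff : ‖R‖ ^ (p - 2) - ‖P‖ ^ (p - 2) ≤ M * q := by
    have h1 := hM ‖R‖ ⟨hP.trans hRP, hR2⟩ ‖P‖ ⟨hP, by linarith⟩
    have h2 : |‖R‖ - ‖P‖| ≤ q := by
      rw [abs_of_nonneg (by linarith)]; linarith
    exact (le_abs_self _).trans (h1.trans (mul_le_mul_of_nonneg_left h2 hM0))
  have e3 : pA p R X - pA p P X = (‖R‖ ^ (p - 2) - ‖P‖ ^ (p - 2)) / ‖P‖ ^ (p - 2) * pA p P X +
      ‖R‖ ^ (p - 2) * (p - 2) * (X Rh Rh - X Ph Ph) := by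
    rw [e1]
    nth_rewrite 2 [e2]
    rw [e2]
    field_simp
    ring
  have t1 : -(M * CA / c1 ^ (p - 2) * q) ≤
      (‖R‖ ^ (p - 2) - ‖P‖ ^ (p - 2)) / ‖P‖ ^ (p - 2) * pA p P X := by
    have h1 : 0 ≤ (‖R‖ ^ (p - 2) - ‖P‖ ^ (p - 2)) / ‖P‖ ^ (p - 2) :=
      div_nonneg (by linarith) hb1.le
    have h2 : (‖R‖ ^ (p - 2) - ‖P‖ ^ (p - 2)) / ‖P‖ ^ (p - 2) ≤ M * q / c1 ^ (p - 2) :=
      div_le_div₀ (by positivity) hdiff hc1p hb0
    have h3 := mul_le_mul_of_nonneg_left hpA h1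
    have h4 := mul_le_mul_of_nonneg_right h2 hCA
    have h5 : M * q / c1 ^ (p - 2) * CA = M * CA / c1 ^ (p - 2) * q := by ring
    linarith
  have t2 : -((2 * C1) ^ (p - 2) * (p - 2) * (4 / c1) * q * (‖X‖ * θ)) ≤
      ‖R‖ ^ (p - 2) * (p - 2) * (X Rh Rh - X Ph Ph) := by
    have h1 : |‖R‖ ^ (p - 2) * (p - 2) * (X Rh Rh - X Ph Ph)| ≤
        (2 * C1) ^ (p - 2) * (p - 2) * (4 / c1) * q * (‖X‖ * θ) := by
      rw [abs_mul, abs_of_nonneg (by positivity : 0 ≤ ‖R‖ ^ (p - 2) * (p - 2))]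
      have h2 : |X Rh Rh - X Ph Ph| ≤ 2 * ‖X‖ * (2 * (q / c1 * θ)) :=
        hXd.trans (mul_le_mul_of_nonneg_left hdir (by positivity))
      calc ‖R‖ ^ (p - 2) * (p - 2) * |X Rh Rh - X Ph Ph|
          ≤ (2 * C1) ^ (p - 2) * (p - 2) * (2 * ‖X‖ * (2 * (q / c1 * θ))) :=
            mul_le_mul (mul_le_mul_of_nonneg_right hRb hp2.le) h2 (abs_nonneg _) (by positivity)
        _ = _ := by ring
    exact (abs_le.1 h1).1
  rw [e3]
  have hXθ : 0 ≤ ‖X‖ * θ := by positivity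
  have f1 : M * CA / c1 ^ (p - 2) * q ≤ M * CA / c1 ^ (p - 2) * q * (1 + ‖X‖ * θ) :=
    le_mul_of_one_le_right (by positivity) (by linarith)
  have f2 : (2 * C1) ^ (p - 2) * (p - 2) * (4 / c1) * q * (‖X‖ * θ) ≤
      (2 * C1) ^ (p - 2) * (p - 2) * (4 / c1) * q * (1 + ‖X‖ * θ) :=
    mul_le_mul_of_nonneg_left (by linarith) (by positivity)
  have f3 : 0 ≤ q * (1 + ‖X‖ * θ) := by positivity
  have f4 : K * q * (1 + ‖X‖ * θ) = M * CA / c1 ^ (p - 2) * q * (1 + ‖X‖ * θ) +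
      (2 * C1) ^ (p - 2) * (p - 2) * (4 / c1) * q * (1 + ‖X‖ * θ) + q * (1 + ‖X‖ * θ) := by
    rw [hK]; ring
  linarith

private theorem HPF_diff (hp : 2 < p) {c1 C1 CA L0 r1 C4 : ℝ} (hc1 : 0 < c1) (hCA : 0 ≤ CA)
    (hL0 : 0 ≤ L0) (hr1 : 0 < r1) (hC4 : 0 < C4) :
    ∃ K, 0 < K ∧ ∀ (P N : E n) (X : Bil n) (q d : ℝ), c1 ≤ ‖P‖ → ‖P‖ ≤ C1 → ‖N‖ = 1 → 0 < q →
      q ≤ c1 / 2 → 0 < d → -CA ≤ pA p P X → ‖X‖ ≤ L0 / d →
      (d ≤ r1 → ‖N - (1 / ‖P‖) • P‖ ≤ C4 * Real.sqrt d) →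
      -(K * q * (1 + 1 / Real.sqrt d)) ≤ pA p (P + q • N) X - pA p P X := by
  obtain ⟨K1, hK1, H1⟩ := HPF_near (n := n) (p := p) (C1 := C1) hp hc1 hCA
  obtain ⟨K2, hK2, H2⟩ := pA_lip (n := n) (p := p) (c0 := c1 / 2) (C0 := 2 * C1) hp (by positivity)
  set d1 := min r1 (1 / C4 ^ 2) with hd1
  have hd1pos : 0 < d1 := lt_min hr1 (by positivity)
  refine ⟨K1 * (1 + L0 * C4) + K2 * L0 / d1, by positivity, ?_⟩
  intro P N X q d hP hP' hN hq hq' hd hpA hX hang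
  have hsd : 0 < Real.sqrt d := Real.sqrt_pos.2 hd
  have hss : Real.sqrt d * Real.sqrt d = d := Real.mul_self_sqrt hd.le
  by_cases hcase : d ≤ d1
  · have h1 := hang (hcase.trans (min_le_left _ _))
    have h2 : C4 * Real.sqrt d ≤ 1 := by
      have h3 : d ≤ 1 / C4 ^ 2 := hcase.trans (min_le_right _ _)
      rw [le_div_iff₀ (by positivity)] at h3
      by_contra h4
      push Not at h4
      nlinarith
    have h3 := H1 P N X q hP hP' hN hq (by linarith) (h1.trans h2) hpA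
    have h4 : ‖X‖ * ‖N - (1 / ‖P‖) • P‖ ≤ L0 * C4 * (1 / Real.sqrt d) := by
      calc ‖X‖ * ‖N - (1 / ‖P‖) • P‖ ≤ L0 / d * (C4 * Real.sqrt d) :=
            mul_le_mul hX h1 (norm_nonneg _) (by positivity)
        _ = L0 * C4 * (1 / Real.sqrt d) := by
            nth_rewrite 1 [← hss]
            field_simp
    have h5 : 0 < 1 / Real.sqrt d := by positivity
    have h6 : 0 ≤ L0 * C4 := by positivity
    have h7 : K1 * q * (1 + ‖X‖ * ‖N - (1 / ‖P‖) • P‖) ≤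
        K1 * q * ((1 + L0 * C4) * (1 + 1 / Real.sqrt d)) :=
      mul_le_mul_of_nonneg_left (by nlinarith) (by positivity)
    have h8 : 0 ≤ K2 * L0 / d1 * q * (1 + 1 / Real.sqrt d) := by positivity
    have h9 : (K1 * (1 + L0 * C4) + K2 * L0 / d1) * q * (1 + 1 / Real.sqrt d) =
      K1 * q * ((1 + L0 * C4) * (1 + 1 / Real.sqrt d)) +
        K2 * L0 / d1 * q * (1 + 1 / Real.sqrt d) := by ring
    linarith
  · push Not at hcase
    have hnq : ‖q • N‖ = q := by rw [norm_smul, hN, mul_one, Real.norm_eq_abs, abs_of_pos hq]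
    have h1 : c1 / 2 ≤ ‖P + q • N‖ := by
      have := norm_sub_norm_le P (-(q • N))
      rw [norm_neg, hnq, sub_neg_eq_add] at this
      linarith
    have h2 : ‖P + q • N‖ ≤ 2 * C1 := by
      have := norm_add_le P (q • N)
      rw [hnq] at this
      linarith
    have h3 := H2 (P + q • N) P X h1 h2 (by linarith) (by linarith)
    rw [add_sub_cancel_left, hnq] at h3
    have h4 : ‖X‖ ≤ L0 / d1 :=
      hX.trans (div_le_div_of_nonneg_left hL0 hd1pos hcase.le)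
    have h5 : K2 * q * ‖X‖ ≤ K2 * q * (L0 / d1) := mul_le_mul_of_nonneg_left h4 (by positivity)
    have h6 := (abs_le.1 h3).1
    have h7 : 0 < 1 / Real.sqrt d := by positivity
    have h8 : K2 * L0 / d1 * q ≤ K2 * L0 / d1 * q * (1 + 1 / Real.sqrt d) :=
      le_mul_of_one_le_right (by positivity) (by linarith)
    have h9 : 0 ≤ K1 * (1 + L0 * C4) * q * (1 + 1 / Real.sqrt d) := by positivity
    have h10 : (K1 * (1 + L0 * C4) + K2 * L0 / d1) * q * (1 + 1 / Real.sqrt d) =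
      K1 * (1 + L0 * C4) * q * (1 + 1 / Real.sqrt d) +
        K2 * L0 / d1 * q * (1 + 1 / Real.sqrt d) := by ring
    have h11 : K2 * q * (L0 / d1) = K2 * L0 / d1 * q := by ring
    linarith


/-! ### The barrier -/

private def HPF_F (η B r1 : ℝ) (t : ℝ) : ℝ :=
  η * ((r1 ^ 2 - t) + B * ((r1 ^ 2 - t) * Real.sqrt (r1 ^ 2 - t)))

private theorem HPF_F_cd (η B r1 : ℝ) {t : ℝ} (ht : 0 < r1 ^ 2 - t) :
    ContDiffAt ℝ 2 (HPF_F η B r1) t := by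
  unfold HPF_F
  have h1 : ContDiffAt ℝ 2 (fun t : ℝ => r1 ^ 2 - t) t := by fun_prop
  have h2 : ContDiffAt ℝ 2 (fun t : ℝ => Real.sqrt (r1 ^ 2 - t)) t := h1.sqrt ht.ne'
  exact contDiffAt_const.mul (h1.add (contDiffAt_const.mul (h1.mul h2)))

private theorem HPF_F_d1 (η B r1 : ℝ) {t : ℝ} (ht : 0 < r1 ^ 2 - t) :
    HasDerivAt (HPF_F η B r1) (-(η * (1 + 3 / 2 * B * Real.sqrt (r1 ^ 2 - t)))) t := by
  have hs : 0 < Real.sqrt (r1 ^ 2 - t) := Real.sqrt_pos.2 ht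
  have hss : Real.sqrt (r1 ^ 2 - t) * Real.sqrt (r1 ^ 2 - t) = r1 ^ 2 - t :=
    Real.mul_self_sqrt ht.le
  have h1 : HasDerivAt (fun t : ℝ => r1 ^ 2 - t) (-1) t := by
    simpa using (hasDerivAt_id t).const_sub (r1 ^ 2)
  have h2 := h1.sqrt ht.ne'
  have h3 := ((h1.add ((h1.mul h2).const_mul B)).const_mul η)
  refine h3.congr_deriv ?_
  have h4 : (r1 ^ 2 - t) * (-1 / (2 * Real.sqrt (r1 ^ 2 - t))) =
      -(1 / 2) * Real.sqrt (r1 ^ 2 - t) := by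
    nth_rewrite 1 [← hss]
    field_simp
  rw [h4]
  ring

private theorem HPF_F_d2 (η B r1 : ℝ) {t : ℝ} (ht : 0 < r1 ^ 2 - t) :
    deriv (deriv (HPF_F η B r1)) t = η * (3 / 4 * B / Real.sqrt (r1 ^ 2 - t)) := by
  have hs : 0 < Real.sqrt (r1 ^ 2 - t) := Real.sqrt_pos.2 ht
  have h0 : deriv (HPF_F η B r1) =ᶠ[𝓝 t]
      fun t => -(η * (1 + 3 / 2 * B * Real.sqrt (r1 ^ 2 - t))) := by
    have h1 : ∀ᶠ s in 𝓝 t, 0 < r1 ^ 2 - s :=
      (isOpen_lt continuous_const (by fun_prop)).mem_nhds ht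
    filter_upwards [h1] with s hs
    exact (HPF_F_d1 η B r1 hs).deriv
  rw [h0.deriv_eq]
  have h1 : HasDerivAt (fun t : ℝ => r1 ^ 2 - t) (-1) t := by
    simpa using (hasDerivAt_id t).const_sub (r1 ^ 2)
  have h2 := h1.sqrt ht.ne'
  have h3 := ((h2.const_mul (3 / 2 * B)).const_add 1).const_mul η |>.neg
  have h4 := h3.deriv
  have h5 : (fun t => -(η * (1 + 3 / 2 * B * Real.sqrt (r1 ^ 2 - t)))) =
    -fun y => η * (1 + 3 / 2 * B * Real.sqrt (r1 ^ 2 - y)) := rfl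
  rw [h5, h4]
  field_simp
  ring

private def HPF_f (η B r1 : ℝ) (y x : E n) : ℝ := HPF_F η B r1 (‖x - y‖ ^ 2)

private theorem HPF_f_cd (η B r1 : ℝ) {y z : E n} (hz : 0 < r1 ^ 2 - ‖z - y‖ ^ 2) :
    ContDiffAt ℝ 2 (HPF_f η B r1 y) z := by
  have h1 : ContDiffAt ℝ 2 (fun x : E n => ‖x - y‖ ^ 2) z :=
    ((contDiff_norm_sq ℝ).comp (contDiff_id.sub contDiff_const)).contDiffAt
  exact (HPF_F_cd η B r1 hz).comp z h1

private theorem HPF_f_t2 (η B r1 : ℝ) {y z : E n} (hz : 0 < r1 ^ 2 - ‖z - y‖ ^ 2) :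
    gradient (HPF_f η B r1 y) z =
      (2 * (η * (1 + 3 / 2 * B * Real.sqrt (r1 ^ 2 - ‖z - y‖ ^ 2)))) • (y - z) ∧
    ∀ v, (((-(2 * (η * (1 + 3 / 2 * B * Real.sqrt (r1 ^ 2 - ‖z - y‖ ^ 2))))) • (ip : Bil n)) +
      (4 * (η * (3 / 4 * B / Real.sqrt (r1 ^ 2 - ‖z - y‖ ^ 2)))) • rk (y - z)) v v ≤
      (fderiv ℝ (fderiv ℝ (HPF_f η B r1 y)) z) v v := by
  have h1 := t2_of_contDiffAt (HPF_f_cd η B r1 hz)
  have h2 := t2_comp (F := HPF_F η B r1) (u := fun x : E n => ‖x - y‖ ^ 2) (x := z)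
    (HPF_F_cd η B r1 hz) (t2_normSq y)
  rw [HPF_F_d2 η B r1 hz, (HPF_F_d1 η B r1 hz).deriv] at h2
  obtain ⟨h3, h4⟩ := uj_lj h1.1 h2.2
  refine ⟨?_, fun v => ?_⟩
  · rw [h3, smul_smul, ← neg_sub z y, smul_neg, ← neg_smul]
    congr 1
    ring
  · refine le_trans (le_of_eq ?_) (h4 v)
    have e1 : rk ((2 : ℝ) • (z - y)) v v = 4 * rk (y - z) v v := by
      rw [rk_apply, rk_apply, real_inner_smul_left, ← neg_sub z y, inner_neg_left]
      ring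
    rw [add_apply, add_apply, add_apply, add_apply, smul_apply, smul_apply, smul_apply,
      smul_apply, smul_apply, smul_apply, smul_apply, smul_apply, smul_apply, smul_apply, e1]
    simp only [smul_eq_mul]
    ring


/-! ### The comparison in one ball -/

private theorem HPF_point (hp : 2 < p) {c1 C1 K r1 B : ℝ} (hc1 : 0 < c1) (hcC : c1 ≤ C1)
    (hK : 0 < K) (hr1 : 0 < r1) (hr1' : r1 ≤ 1 / 2)
    (hB : (2 * C1) ^ (p - 2) * (n + p - 2) * (2 / r1) + ‖b‖ + 2 * K <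
      (c1 / 2) ^ (p - 2) * (3 / 10 * r1 * B)) (hB0 : 0 < B) {η : ℝ} (hη : 0 < η)
    {y z P : E n} {X Z : Bil n} {d : ℝ} (hd : 0 < d)
    (hz : 0 < r1 ^ 2 - ‖z - y‖ ^ 2) (hz2 : B * Real.sqrt (r1 ^ 2 - ‖z - y‖ ^ 2) ≤ 1)
    (hz3 : r1 / 2 ≤ ‖z - y‖) (hzd : r1 ^ 2 - ‖z - y‖ ^ 2 ≤ d)
    (hηc : η * 5 ≤ c1) (hP : c1 ≤ ‖P‖) (hP' : ‖P‖ ≤ C1)
    (hZ : ∀ v, (((-(2 * (η * (1 + 3 / 2 * B * Real.sqrt (r1 ^ 2 - ‖z - y‖ ^ 2))))) •
      (ip : Bil n)) + (4 * (η * (3 / 4 * B / Real.sqrt (r1 ^ 2 - ‖z - y‖ ^ 2)))) •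
      rk (y - z)) v v ≤ Z v v) {vz uz : ℝ} (huv : uz ≤ vz)
    (hdiff : ∀ q, 0 < q → q ≤ c1 / 2 →
      -(K * q * (1 + 1 / Real.sqrt d)) ≤
        pA p (P + q • ((1 / ‖y - z‖) • (y - z))) X - pA p P X)
    (h1 : 0 ≤ pA p P X + ⟪b, P⟫ + uz)
    (h2 : pA p (P + (2 * (η * (1 + 3 / 2 * B * Real.sqrt (r1 ^ 2 - ‖z - y‖ ^ 2)))) • (y - z))
      (X + Z) + ⟪b, P + (2 * (η * (1 + 3 / 2 * B * Real.sqrt (r1 ^ 2 - ‖z - y‖ ^ 2)))) • (y - z)⟫ +
      vz ≤ 0) : False := by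
  set τ := r1 ^ 2 - ‖z - y‖ ^ 2 with hτ
  set D := ‖z - y‖ with hD
  have hD' : ‖y - z‖ = D := norm_sub_rev y z
  rw [hD'] at hdiff
  have hD0 : 0 < D := by linarith
  have hDr : D < r1 := by
    by_contra h
    push Not at h
    nlinarith
  have hsτ : 0 < Real.sqrt τ := Real.sqrt_pos.2 hz
  have hτ1 : τ ≤ 1 := by nlinarith
  have hsτ1 : Real.sqrt τ ≤ 1 := by
    exact Real.sqrt_le_one.2 hτ1
  set g1 := 1 + 3 / 2 * B * Real.sqrt τ with hg1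
  have hg1a : 1 ≤ g1 := by
    have : 0 ≤ 3 / 2 * B * Real.sqrt τ := by positivity
    linarith
  have hg1b : g1 ≤ 5 / 2 := by rw [hg1]; linarith
  set q := 2 * (η * g1) * D with hq
  have hq0 : 0 < q := by positivity
  have hqc : q ≤ c1 / 2 := by
    have e1 : η * g1 ≤ η * (5 / 2) := mul_le_mul_of_nonneg_left hg1b hη.le
    have e2 : q ≤ 2 * (η * (5 / 2)) * (1 / 2) := by
      rw [hq]
      exact mul_le_mul (by linarith) (by linarith) hD0.le (by positivity)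
    linarith
  have hQ : (2 * (η * g1)) • (y - z) = q • ((1 / D) • (y - z)) := by
    rw [smul_smul]
    congr 1
    rw [hq]
    field_simp
  set N : E n := (1 / D) • (y - z) with hN
  have hNn : ‖N‖ = 1 := by
    rw [hN, norm_smul, hD', Real.norm_eq_abs, abs_of_pos (by positivity)]
    field_simp
  have e0 := hdiff q hq0 hqc
  rw [hQ] at h2
  set R := P + q • N with hR
  have hqN : ‖q • N‖ = q := by rw [norm_smul, hNn, mul_one, Real.norm_eq_abs, abs_of_pos hq0]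
  have hRa : c1 / 2 ≤ ‖R‖ := by
    have := norm_sub_norm_le P (-(q • N))
    rw [norm_neg, hqN, sub_neg_eq_add] at this
    linarith
  have hRb : ‖R‖ ≤ 2 * C1 := by
    have := norm_add_le P (q • N)
    rw [hqN] at this
    linarith
  have hp2 : 0 < p - 2 := by linarith
  have hRa' : (c1 / 2) ^ (p - 2) ≤ ‖R‖ ^ (p - 2) :=
    Real.rpow_le_rpow (by positivity) hRa hp2.le
  have hRb' : ‖R‖ ^ (p - 2) ≤ (2 * C1) ^ (p - 2) :=
    Real.rpow_le_rpow (norm_nonneg _) hRb hp2.le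
  have hRn : 0 ≤ ‖R‖ ^ (p - 2) := by positivity
  -- the operator on the Hessian of the barrier
  have eZ : ‖R‖ ^ (p - 2) * (4 * (η * (3 / 4 * B / Real.sqrt τ))) * D ^ 2 -
      2 * (η * g1) * ((n + p - 2) * ‖R‖ ^ (p - 2)) ≤ pA p R Z := by
    refine le_trans ?_ (pA_mono hp hZ)
    rw [pA_form_add, pA_form_smul, pA_form_smul, pA_ip hp]
    have h3 := pA_rk_ge hp R (y - z)
    rw [hD'] at h3
    have h4 := mul_le_mul_of_nonneg_left h3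
      (by positivity : 0 ≤ 4 * (η * (3 / 4 * B / Real.sqrt τ)))
    linarith
  have eb : -(‖b‖ * q) ≤ ⟪b, R⟫ - ⟪b, P⟫ := by
    rw [hR, inner_add_right, add_sub_cancel_left]
    have := abs_real_inner_le_norm b (q • N)
    rw [hqN] at this
    exact (abs_le.1 this).1
  rw [pA_form_add] at h2
  have hmain : -(K * q * (1 + 1 / Real.sqrt d)) +
      (‖R‖ ^ (p - 2) * (4 * (η * (3 / 4 * B / Real.sqrt τ))) * D ^ 2 -
      2 * (η * g1) * ((n + p - 2) * ‖R‖ ^ (p - 2))) - ‖b‖ * q ≤ 0 := by linarith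
  -- comparison with q
  set σ := 1 / Real.sqrt τ with hσ
  have hσ1 : 1 ≤ σ := by
    rw [hσ, le_div_iff₀ hsτ]; linarith
  have f1 : 1 / Real.sqrt d ≤ σ := by
    rw [hσ]
    exact one_div_le_one_div_of_le hsτ (Real.sqrt_le_sqrt hzd)
  have f2 : (c1 / 2) ^ (p - 2) * (3 / 10 * r1 * B) * (q * σ) ≤
      ‖R‖ ^ (p - 2) * (4 * (η * (3 / 4 * B / Real.sqrt τ))) * D ^ 2 := by
    have k1 : 3 / 10 * r1 * B * (q * σ) ≤ 4 * (η * (3 / 4 * B / Real.sqrt τ)) * D ^ 2 := by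
      have k2 : 4 * (η * (3 / 4 * B / Real.sqrt τ)) * D ^ 2 = 3 * η * B * σ * D * D := by
        rw [hσ]; field_simp
      have k3 : 3 / 10 * r1 * B * (q * σ) = 3 / 5 * η * B * σ * D * (g1 * r1) := by
        rw [hq]; ring
      rw [k2, k3]
      have k4 : g1 * r1 ≤ 5 / 2 * r1 := mul_le_mul_of_nonneg_right hg1b hr1.le
      have k5 : 3 / 5 * η * B * σ * D * (g1 * r1) ≤ 3 / 5 * η * B * σ * D * (5 * D) :=
        mul_le_mul_of_nonneg_left (by linarith) (by positivity)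
      calc _ ≤ _ := k5
        _ = _ := by ring
    calc (c1 / 2) ^ (p - 2) * (3 / 10 * r1 * B) * (q * σ)
        = (c1 / 2) ^ (p - 2) * (3 / 10 * r1 * B * (q * σ)) := by ring
      _ ≤ ‖R‖ ^ (p - 2) * (4 * (η * (3 / 4 * B / Real.sqrt τ)) * D ^ 2) :=
          mul_le_mul hRa' k1 (by positivity) hRn
      _ = _ := by ring
  have hn : (0 : ℝ) ≤ n := Nat.cast_nonneg n
  have f3 : 2 * (η * g1) * ((n + p - 2) * ‖R‖ ^ (p - 2)) ≤
      (2 * C1) ^ (p - 2) * (n + p - 2) * (2 / r1) * (q * σ) := by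
    have k1 : 2 * (η * g1) ≤ 2 / r1 * q := by
      have k2 : 2 / r1 * q = 2 * (η * g1) * (2 * D / r1) := by
        rw [hq]; ring
      rw [k2]
      refine le_mul_of_one_le_right (by positivity) ?_
      rw [le_div_iff₀ hr1]
      linarith
    have k3 : (n + p - 2) * ‖R‖ ^ (p - 2) ≤ (n + p - 2) * (2 * C1) ^ (p - 2) :=
      mul_le_mul_of_nonneg_left hRb' (by linarith)
    have hC1 : 0 < C1 := by linarith
    calc 2 * (η * g1) * ((n + p - 2) * ‖R‖ ^ (p - 2))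
        ≤ 2 / r1 * q * ((n + p - 2) * (2 * C1) ^ (p - 2)) :=
          mul_le_mul k1 k3 (mul_nonneg (by linarith) hRn) (by positivity)
      _ = (2 * C1) ^ (p - 2) * (n + p - 2) * (2 / r1) * q := by ring
      _ ≤ (2 * C1) ^ (p - 2) * (n + p - 2) * (2 / r1) * (q * σ) := by
          refine mul_le_mul_of_nonneg_left (le_mul_of_one_le_right hq0.le hσ1) ?_
          have : (0 : ℝ) ≤ n + p - 2 := by linarith
          positivity
  have f4 : K * q * (1 + 1 / Real.sqrt d) ≤ 2 * K * (q * σ) := by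
    have : 1 + 1 / Real.sqrt d ≤ 2 * σ := by linarith
    have := mul_le_mul_of_nonneg_left this (by positivity : 0 ≤ K * q)
    linarith
  have f5 : ‖b‖ * q ≤ ‖b‖ * (q * σ) :=
    mul_le_mul_of_nonneg_left (le_mul_of_one_le_right hq0.le hσ1) (norm_nonneg _)
  have hqσ : 0 < q * σ := by positivity
  have f6 := mul_lt_mul_of_pos_right hB hqσ
  linarith

private theorem HPF_single (hp : 2 < p) {κ : ℝ} (hκ : 0 ≤ κ) {e : E n} {r0 : ℝ} {Ω : Set (E n)}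
    (hΩ : Tube e r0 Ω) (hQ : QS p b κ S W) {w0 : E n} {ρ' ρ k C c1 C1 : ℝ} (hρ' : ρ' ≤ ρ)
    (hk : 0 < k) (hS : Ω ∩ ball w0 ρ ⊆ S) (hne : (Ωᶜ).Nonempty)
    (hw0 : w0 ∉ Ω) (h1 : ∀ x ∈ Ω ∩ ball w0 ρ, k * dw Ω x ≤ W x)
    (h2 : ∀ x ∈ Ω ∩ ball w0 ρ, W x ≤ C * dw Ω x) (hc1 : 0 < c1) (hC1 : 0 < C1)
    (hnrm : ∀ x ∈ Ω ∩ ball w0 ρ', ∀ w ν : E n,
      w ∈ frontier Ω → ‖ν‖ = 1 → ball (w + r0 • ν) r0 ⊆ Ω → x = w + dw Ω x • ν →
      ∀ P, Gd p S W x P →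
        c1 ≤ ⟪P, ν⟫ ∧ ‖P‖ ≤ C1 ∧ ‖P - ⟪P, ν⟫ • ν‖ ≤ C1 * Real.sqrt (dw Ω x))
    {v : E n → ℝ} (hv : Continuous v)
    (hsp : Sp p b κ S v) (hlt : ∀ x ∈ Ω ∩ ball w0 ρ, W x < v x)
    {K r1 B τ1 δ η : ℝ} (hK : 0 < K) (hr1 : 0 < r1) (hr1' : r1 ≤ 1 / 2)
    (hdiff : ∀ (P N : E n) (X : Bil n) (q d : ℝ), c1 ≤ ‖P‖ → ‖P‖ ≤ C1 → ‖N‖ = 1 → 0 < q →
      q ≤ c1 / 2 → 0 < d → -(‖b‖ * C1 + κ * (|C| * ρ')) ≤ pA p P X →
      ‖X‖ ≤ ((n + p) * ((1 - qq p) * C1 ^ 2 / k + ρ') +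
        (‖b‖ * C1 + κ * (|C| * ρ')) / c1 ^ (p - 2) * ρ') / d →
      (d ≤ r1 → ‖N - (1 / ‖P‖) • P‖ ≤ (Real.sqrt (2 / r1) + 2 * C1 / c1) * Real.sqrt d) →
      -(K * q * (1 + 1 / Real.sqrt d)) ≤ pA p (P + q • N) X - pA p P X)
    (hB : (2 * C1) ^ (p - 2) * (n + p - 2) * (2 / r1) + ‖b‖ + 2 * K <
      (c1 / 2) ^ (p - 2) * (3 / 10 * r1 * B)) (hB0 : 0 < B) (hτ0 : 0 < τ1)
    (hτ1 : τ1 ≤ 3 * r1 ^ 2 / 4) (hτ2 : B * Real.sqrt τ1 ≤ 1)
    (hδ : ∀ x, τ1 ≤ dw Ω x → ‖x - w0‖ ≤ ρ' / 2 → W x + δ ≤ v x) (hη : 0 < η) (hηδ : η ≤ δ)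
    (hηc : η * 5 ≤ c1) {y : E n} (hy1 : ball y r1 ⊆ Ω) (hy2 : ball y r1 ⊆ ball w0 (ρ' / 2)) :
    ∀ x, 0 < r1 ^ 2 - ‖x - y‖ ^ 2 → r1 ^ 2 - ‖x - y‖ ^ 2 ≤ τ1 →
      W x + η * (r1 ^ 2 - ‖x - y‖ ^ 2) ≤ v x := by
  have hρ0 : 0 < ρ' := by
    have h3 := hy2 (mem_ball_self hr1)
    rw [mem_ball] at h3
    have := dist_nonneg (x := y) (y := w0)
    linarith
  have hball : ∀ x, 0 < r1 ^ 2 - ‖x - y‖ ^ 2 → x ∈ ball y r1 := by
    intro x hx
    rw [mem_ball, dist_eq_norm]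
    by_contra h
    push Not at h
    nlinarith [norm_nonneg (x - y)]
  have hmem : ∀ x, 0 < r1 ^ 2 - ‖x - y‖ ^ 2 → x ∈ Ω ∩ ball w0 ρ' := by
    intro x hx
    refine ⟨hy1 (hball x hx), ?_⟩
    have := hy2 (hball x hx)
    rw [mem_ball] at this ⊢
    linarith
  have hmem' : ∀ x, 0 < r1 ^ 2 - ‖x - y‖ ^ 2 → x ∈ Ω ∩ ball w0 ρ := fun x hx =>
    ⟨(hmem x hx).1, ball_subset_ball hρ' (hmem x hx).2⟩
  -- bounds for the barrier
  have hf1 : ∀ x, 0 < r1 ^ 2 - ‖x - y‖ ^ 2 →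
      η * (r1 ^ 2 - ‖x - y‖ ^ 2) ≤ HPF_f η B r1 y x := by
    intro x hx
    unfold HPF_f HPF_F
    refine mul_le_mul_of_nonneg_left ?_ hη.le
    have : 0 ≤ B * ((r1 ^ 2 - ‖x - y‖ ^ 2) * Real.sqrt (r1 ^ 2 - ‖x - y‖ ^ 2)) := by positivity
    linarith
  have hf2 : ∀ x, 0 < r1 ^ 2 - ‖x - y‖ ^ 2 → r1 ^ 2 - ‖x - y‖ ^ 2 ≤ τ1 →
      HPF_f η B r1 y x ≤ 2 * η * (r1 ^ 2 - ‖x - y‖ ^ 2) := by
    intro x hx hx'
    unfold HPF_f HPF_F
    have h3 : B * Real.sqrt (r1 ^ 2 - ‖x - y‖ ^ 2) ≤ 1 :=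
      (mul_le_mul_of_nonneg_left (Real.sqrt_le_sqrt hx') hB0.le).trans hτ2
    have h4 := mul_le_mul_of_nonneg_left h3 hx.le
    have h5 : (r1 ^ 2 - ‖x - y‖ ^ 2) + B * ((r1 ^ 2 - ‖x - y‖ ^ 2) *
        Real.sqrt (r1 ^ 2 - ‖x - y‖ ^ 2)) ≤ 2 * (r1 ^ 2 - ‖x - y‖ ^ 2) := by linarith
    have := mul_le_mul_of_nonneg_left h5 hη.le
    linarith
  intro x0 hx0 hx0'
  refine le_trans (by linarith [hf1 x0 hx0]) (?_ : W x0 + HPF_f η B r1 y x0 ≤ v x0)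
  by_contra hcon
  push Not at hcon
  set Fn : E n → ℝ := fun x => v x - W x - HPF_f η B r1 y x with hFn
  set m0 := Fn x0 with hm0
  have hm0neg : m0 < 0 := by
    rw [hm0, hFn]
    show v x0 - W x0 - HPF_f η B r1 y x0 < 0
    linarith
  set σ := min (r1 ^ 2 - ‖x0 - y‖ ^ 2) (-m0 / (4 * η)) with hσ
  have hσ0 : 0 < σ := lt_min hx0 (div_pos (by linarith) (by positivity))
  have hση : 4 * η * σ ≤ -m0 := by
    have : σ ≤ -m0 / (4 * η) := min_le_right _ _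
    rw [le_div_iff₀ (by positivity)] at this
    linarith
  set A : Set (E n) := {x | σ ≤ r1 ^ 2 - ‖x - y‖ ^ 2 ∧ r1 ^ 2 - ‖x - y‖ ^ 2 ≤ τ1} with hA
  have hAc : IsCompact A := by
    refine Metric.isCompact_of_isClosed_isBounded ?_ ?_
    · have hc : Continuous fun x : E n => r1 ^ 2 - ‖x - y‖ ^ 2 := by fun_prop
      exact (isClosed_le continuous_const hc).inter (isClosed_le hc continuous_const)
    · exact isBounded_ball.subset (fun x hx => hball x (hσ0.trans_le hx.1))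
  have hFc : ContinuousOn Fn A := by
    intro x hx
    have hx1 : 0 < r1 ^ 2 - ‖x - y‖ ^ 2 := hσ0.trans_le hx.1
    have hxS : x ∈ S := hS (hmem' x hx1)
    have hW : ContinuousAt W x := (qs_cont hp hQ).continuousAt (hQ.isOpen.mem_nhds hxS)
    exact ((hv.continuousAt.sub hW).sub (HPF_f_cd η B r1 hx1).continuousAt).continuousWithinAt
  have hx0A : x0 ∈ A := ⟨min_le_left _ _, hx0'⟩
  obtain ⟨z, hzA, hzmin⟩ := hAc.exists_isMinOn ⟨x0, hx0A⟩ hFc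
  have hzm : Fn z ≤ m0 := hzmin hx0A
  have hz0 : 0 < r1 ^ 2 - ‖z - y‖ ^ 2 := hσ0.trans_le hzA.1
  have hzΩ := hmem z hz0
  have hzΩ' := hmem' z hz0
  have hzS : z ∈ S := hS hzΩ'
  -- distance to the wall
  have hzb : ‖z - y‖ < r1 := by
    have := hball z hz0
    rwa [mem_ball, dist_eq_norm] at this
  have hdz : r1 - ‖z - y‖ ≤ dw Ω z := by
    refine le_dw hne ?_
    intro x hx
    apply hy1
    rw [mem_ball, dist_eq_norm] at hx ⊢
    have : ‖x - y‖ ≤ ‖x - z‖ + ‖z - y‖ := by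
      have := norm_add_le (x - z) (z - y)
      rwa [sub_add_sub_cancel] at this
    linarith
  have hτd : r1 ^ 2 - ‖z - y‖ ^ 2 ≤ dw Ω z := by
    have h3 : r1 ^ 2 - ‖z - y‖ ^ 2 = (r1 - ‖z - y‖) * (r1 + ‖z - y‖) := by ring
    have h4 : (r1 - ‖z - y‖) * (r1 + ‖z - y‖) ≤ (r1 - ‖z - y‖) * 1 :=
      mul_le_mul_of_nonneg_left (by linarith) (by linarith)
    linarith
  have hd0 : 0 < dw Ω z := hz0.trans_le hτd
  -- the minimum point is not on the boundary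
  have hzτ : r1 ^ 2 - ‖z - y‖ ^ 2 < τ1 := by
    refine lt_of_le_of_ne hzA.2 fun heq => ?_
    have h3 := hδ z (by rw [← heq]; exact hτd) (by
      have := hy2 (hball z hz0)
      rw [mem_ball, dist_eq_norm] at this
      exact this.le)
    have h4 := hf2 z hz0 hzA.2
    have h5 : r1 ^ 2 - ‖z - y‖ ^ 2 ≤ 1 / 2 := by nlinarith [norm_nonneg (z - y)]
    have h6 : 2 * η * (r1 ^ 2 - ‖z - y‖ ^ 2) ≤ η := by nlinarith
    have h7 : Fn z = v z - W z - HPF_f η B r1 y z := rfl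
    linarith
  have hzσ : σ < r1 ^ 2 - ‖z - y‖ ^ 2 := by
    refine lt_of_le_of_ne hzA.1 fun heq => ?_
    have h3 := hlt z hzΩ'
    have h4 := hf2 z hz0 hzA.2
    rw [← heq] at h4
    have h7 : Fn z = v z - W z - HPF_f η B r1 y z := rfl
    linarith
  have hmax : ∃ r > 0, ∀ x, ‖x - z‖ < r →
      W x + HPF_f η B r1 y x - v x ≤ W z + HPF_f η B r1 y z - v z := by
    have hc : Continuous fun x : E n => r1 ^ 2 - ‖x - y‖ ^ 2 := by fun_prop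
    have h3 : {x : E n | σ < r1 ^ 2 - ‖x - y‖ ^ 2 ∧ r1 ^ 2 - ‖x - y‖ ^ 2 < τ1} ∈ 𝓝 z :=
      ((isOpen_lt continuous_const hc).inter (isOpen_lt hc continuous_const)).mem_nhds
        ⟨hzσ, hzτ⟩
    obtain ⟨r, hr, H⟩ := Metric.mem_nhds_iff.1 h3
    refine ⟨r, hr, fun x hx => ?_⟩
    have h4 := H (by rw [mem_ball, dist_eq_norm]; exact hx)
    have h5 : Fn z ≤ Fn x := hzmin ⟨h4.1.le, h4.2.le⟩
    have h6 : Fn z = v z - W z - HPF_f η B r1 y z := rfl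
    have h7 : Fn x = v x - W x - HPF_f η B r1 y x := rfl
    linarith
  obtain ⟨P, hP⟩ := gd_exists hp hQ hzS
  obtain ⟨w, ν, hw, hν, hb, hzw⟩ := near hΩ hne hzΩ.1
  obtain ⟨n1, n2, n3⟩ := hnrm z hzΩ w ν hw hν hb hzw P hP
  have hPc : c1 ≤ ‖P‖ := by
    have := real_inner_le_norm P ν
    rw [hν, mul_one] at this
    linarith
  have hP0 : P ≠ 0 := norm_pos_iff.1 (hc1.trans_le hPc)
  obtain ⟨hg, hZ⟩ := HPF_f_t2 η B r1 hz0
  have hz2 : B * Real.sqrt (r1 ^ 2 - ‖z - y‖ ^ 2) ≤ 1 :=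
    (mul_le_mul_of_nonneg_left (Real.sqrt_le_sqrt hzA.2) hB0.le).trans hτ2
  have hz3 : r1 / 2 ≤ ‖z - y‖ := by
    by_contra h
    push Not at h
    nlinarith [norm_nonneg (z - y)]
  have hcoef : 2 * (η * (1 + 3 / 2 * B * Real.sqrt (r1 ^ 2 - ‖z - y‖ ^ 2))) ≤ 5 * η := by
    have : η * (1 + 3 / 2 * B * Real.sqrt (r1 ^ 2 - ‖z - y‖ ^ 2)) ≤ η * (5 / 2) :=
      mul_le_mul_of_nonneg_left (by linarith) hη.le
    linarith
  have hcoef0 : 0 ≤ 2 * (η * (1 + 3 / 2 * B * Real.sqrt (r1 ^ 2 - ‖z - y‖ ^ 2))) := by positivity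
  have hPf : P + gradient (HPF_f η B r1 y) z ≠ 0 := by
    intro h
    have h3 : ‖P‖ = ‖gradient (HPF_f η B r1 y) z‖ := by
      rw [eq_neg_of_add_eq_zero_left h, norm_neg]
    rw [hg, norm_smul, Real.norm_eq_abs, abs_of_nonneg hcoef0, norm_sub_rev y z] at h3
    have h4 : 2 * (η * (1 + 3 / 2 * B * Real.sqrt (r1 ^ 2 - ‖z - y‖ ^ 2))) * ‖z - y‖ ≤
        5 * η * (1 / 2) := mul_le_mul hcoef (by linarith) (norm_nonneg _) (by positivity)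
    linarith
  obtain ⟨X, hXs, hXu, hX1, hX2⟩ := ltq hp hQ hv hsp hzS (HPF_f_cd η B r1 hz0) hmax hP hP0 hPf
  rw [hg] at hX2
  -- the bound for X
  have hdρ : dw Ω z ≤ ρ' := by
    have h3 : infDist z Ωᶜ ≤ dist z w0 := infDist_le_dist_of_mem hw0
    have h4 := hzΩ.2
    rw [mem_ball] at h4
    unfold dw
    linarith
  have hWz : W z ≤ |C| * ρ' := by
    refine (h2 z hzΩ').trans ?_
    exact mul_le_mul (le_abs_self C) hdρ hd0.le (abs_nonneg C)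
  have hWz' : k * dw Ω z ≤ W z := h1 z hzΩ'
  have hCA : -(‖b‖ * C1 + κ * (|C| * ρ')) ≤ pA p P X := by
    have h3 := abs_real_inner_le_norm b P
    have h4 : ‖b‖ * ‖P‖ ≤ ‖b‖ * C1 := mul_le_mul_of_nonneg_left n2 (norm_nonneg _)
    have h5 := le_abs_self ⟪b, P⟫
    have h6 := mul_le_mul_of_nonneg_left hWz hκ
    linarith
  have hCA0 : 0 ≤ ‖b‖ * C1 + κ * (|C| * ρ') := by positivity
  have hq1 : 0 ≤ 1 - qq p := by
    have : qq p = 1 - 2 / p := by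
      unfold qq
      field_simp
    rw [this]
    have : 0 < 2 / p := by positivity
    linarith
  have hn : (0 : ℝ) ≤ n := Nat.cast_nonneg n
  set L := ((1 - qq p) * C1 ^ 2 / k + ρ') / dw Ω z with hL
  have hL0 : 0 ≤ L := by positivity
  have hXL : ∀ a, X a a ≤ L * ‖a‖ ^ 2 := by
    intro a
    refine (hXu a).trans (mul_le_mul_of_nonneg_right ?_ (by positivity))
    rw [hL, add_div]
    refine add_le_add ?_ ?_
    · have h3 : ‖P‖ ^ 2 ≤ C1 ^ 2 := pow_le_pow_left₀ (norm_nonneg _) n2 2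
      calc (1 - qq p) * ‖P‖ ^ 2 / W z ≤ (1 - qq p) * C1 ^ 2 / (k * dw Ω z) :=
            div_le_div₀ (by positivity) (mul_le_mul_of_nonneg_left h3 hq1) (by positivity) hWz'
        _ = _ := by rw [div_div]
    · rw [le_div_iff₀ hd0]; linarith
  have hlow := pA_lower hp hc1 hCA0 hL0 hPc hXL hCA
  have hXn : ‖X‖ ≤ (n + p) * L + (‖b‖ * C1 + κ * (|C| * ρ')) / c1 ^ (p - 2) := by
    refine opNorm_le_of_quad hXs (by positivity) fun a => ?_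
    rw [abs_le]
    refine ⟨by linarith [hlow a], (hXL a).trans (mul_le_mul_of_nonneg_right ?_ (by positivity))⟩
    have h3 : L ≤ (n + p) * L := le_mul_of_one_le_left hL0 (by linarith)
    have h4 : 0 ≤ (‖b‖ * C1 + κ * (|C| * ρ')) / c1 ^ (p - 2) := by positivity
    linarith
  have hXd : ‖X‖ ≤ ((n + p) * ((1 - qq p) * C1 ^ 2 / k + ρ') +
      (‖b‖ * C1 + κ * (|C| * ρ')) / c1 ^ (p - 2) * ρ') / dw Ω z := by
    refine hXn.trans ?_
    have h3 : ((n + p) * ((1 - qq p) * C1 ^ 2 / k + ρ') +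
        (‖b‖ * C1 + κ * (|C| * ρ')) / c1 ^ (p - 2) * ρ') / dw Ω z = (n + p) * L +
        (‖b‖ * C1 + κ * (|C| * ρ')) / c1 ^ (p - 2) * (ρ' / dw Ω z) := by
      rw [hL]; ring
    rw [h3]
    have h4 : 1 ≤ ρ' / dw Ω z := by
      rw [le_div_iff₀ hd0]; linarith
    have h5 := le_mul_of_one_le_right
      (by positivity : 0 ≤ (‖b‖ * C1 + κ * (|C| * ρ')) / c1 ^ (p - 2)) h4
    linarith
  -- the angle
  have hyz : y - z ≠ 0 := by
    intro h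
    rw [norm_sub_rev, h, norm_zero] at hz3
    linarith
  have hyzn : 0 < ‖y - z‖ := norm_pos_iff.2 hyz
  have hang : dw Ω z ≤ r1 → ‖(1 / ‖y - z‖) • (y - z) - (1 / ‖P‖) • P‖ ≤
      (Real.sqrt (2 / r1) + 2 * C1 / c1) * Real.sqrt (dw Ω z) := by
    intro hdr
    have h3 := ball_normal hΩ hr1 hy1 (hball z hz0) (fun h => hyz (by rw [h, sub_self])) hw hν hb
      hzw hdr
    have h4 : ‖(1 / ‖y - z‖) • (y - z) - ν‖ ≤ Real.sqrt (2 / r1) * Real.sqrt (dw Ω z) := by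
      rw [← Real.sqrt_mul (by positivity)]
      apply Real.le_sqrt_of_sq_le
      refine h3.trans (le_of_eq ?_)
      ring
    have hin : 0 < ⟪P, ν⟫ := hc1.trans_le n1
    have h5 : ‖(1 / ‖P‖) • P - ν‖ ≤ 2 * C1 / c1 * Real.sqrt (dw Ω z) := by
      set A' : E n := (1 / ⟪P, ν⟫) • P with hA'
      have hA'0 : A' ≠ 0 := smul_ne_zero (by positivity) hP0
      have hA'n : ‖A'‖ = ‖P‖ / ⟪P, ν⟫ := by
        rw [hA', norm_smul, Real.norm_eq_abs, abs_of_pos (by positivity)]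
        ring
      have h6 : (1 / ‖A'‖) • A' = (1 / ‖P‖) • P := by
        rw [hA'n, hA', smul_smul]
        congr 1
        field_simp
      have h7 : A' - ν = (1 / ⟪P, ν⟫) • (P - ⟪P, ν⟫ • ν) := by
        rw [smul_sub, smul_smul, one_div_mul_cancel hin.ne', one_smul]
      have h8 := HPF_unit hν hA'0
      rw [h6, h7, norm_smul, Real.norm_eq_abs, abs_of_pos (by positivity)] at h8
      refine h8.trans ?_
      have h9 : 1 / ⟪P, ν⟫ ≤ 1 / c1 := one_div_le_one_div_of_le hc1 n1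
      have h10 : 1 / ⟪P, ν⟫ * ‖P - ⟪P, ν⟫ • ν‖ ≤ 1 / c1 * (C1 * Real.sqrt (dw Ω z)) :=
        mul_le_mul h9 n3 (norm_nonneg _) (by positivity)
      calc _ ≤ 2 * (1 / c1 * (C1 * Real.sqrt (dw Ω z))) := by linarith
        _ = _ := by ring
    calc ‖(1 / ‖y - z‖) • (y - z) - (1 / ‖P‖) • P‖
        = ‖((1 / ‖y - z‖) • (y - z) - ν) - ((1 / ‖P‖) • P - ν)‖ := by congr 1; abel
      _ ≤ ‖(1 / ‖y - z‖) • (y - z) - ν‖ + ‖(1 / ‖P‖) • P - ν‖ := norm_sub_le _ _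
      _ ≤ _ := by linarith
  have hNn : ‖(1 / ‖y - z‖) • (y - z)‖ = 1 := by
    rw [norm_smul, Real.norm_eq_abs, abs_of_pos (by positivity)]
    field_simp
  refine HPF_point (b := b) (n := n) hp hc1 (hPc.trans n2) hK hr1 hr1' hB hB0 hη hd0 hz0 hz2 hz3 hτd
    hηc hPc n2 hZ (X := X) (uz := κ * W z) (vz := κ * v z)
    (mul_le_mul_of_nonneg_left (hlt z hzΩ').le hκ) ?_ hX1 hX2
  intro q hq hq'
  exact hdiff P _ X q _ hPc n2 hNn hq hq' hd0 hCA hXd hang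

theorem hpf (hp : 2 < p) (hκ : 0 ≤ κ) {e : E n} {r0 : ℝ} {Ω : Set (E n)} (hΩ : Tube e r0 Ω)
    (hQ : QS p b κ S W) {w0 : E n} (hw0 : w0 ∈ frontier Ω) {ρ k C : ℝ} (hρ : 0 < ρ) (hk : 0 < k)
    (hS : Ω ∩ ball w0 ρ ⊆ S) (h1 : ∀ x ∈ Ω ∩ ball w0 ρ, k * dw Ω x ≤ W x)
    (h2 : ∀ x ∈ Ω ∩ ball w0 ρ, W x ≤ C * dw Ω x) {v : E n → ℝ} (hv : Continuous v)
    (hv0 : ∀ x, 0 ≤ v x) (hsp : Sp p b κ S v) (hlt : ∀ x ∈ Ω ∩ ball w0 ρ, W x < v x) :
    ∃ r η : ℝ, 0 < r ∧ 0 < η ∧ ∀ x ∈ Ω ∩ ball w0 r, W x + η * dw Ω x ≤ v x := by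
  obtain ⟨ρ', c1, C1, hρ', hρρ, hc1, hC1, hnrm⟩ := nrm hp hΩ hQ hw0 hρ hk hS h1 h2
  have hw0n : w0 ∉ Ω := by
    rw [hΩ.isOpen.frontier_eq] at hw0
    exact hw0.2
  have hne : (Ωᶜ).Nonempty := ⟨w0, hw0n⟩
  have hr0 := hΩ.r0pos
  set r1 := min (min r0 (1 / 2)) (ρ' / 8) with hr1d
  have hr1 : 0 < r1 := lt_min (lt_min hr0 (by norm_num)) (by positivity)
  have hr1a : r1 ≤ r0 := (min_le_left _ _).trans (min_le_left _ _)
  have hr1b : r1 ≤ 1 / 2 := (min_le_left _ _).trans (min_le_right _ _)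
  have hr1c : r1 ≤ ρ' / 8 := min_le_right _ _
  have hn : (0 : ℝ) ≤ n := Nat.cast_nonneg n
  have hq1 : 0 ≤ 1 - qq p := by
    have : qq p = 1 - 2 / p := by
      unfold qq
      field_simp
    rw [this]
    have : 0 < 2 / p := by positivity
    linarith
  have hCA0 : 0 ≤ ‖b‖ * C1 + κ * (|C| * ρ') := by positivity
  obtain ⟨K, hK, hdiff⟩ := HPF_diff (n := n) (p := p) (c1 := c1) (C1 := C1)
    (CA := ‖b‖ * C1 + κ * (|C| * ρ'))
    (L0 := (n + p) * ((1 - qq p) * C1 ^ 2 / k + ρ') +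
        (‖b‖ * C1 + κ * (|C| * ρ')) / c1 ^ (p - 2) * ρ') (r1 := r1)
    (C4 := Real.sqrt (2 / r1) + 2 * C1 / c1) hp hc1 hCA0 (by positivity) hr1 (by positivity)
  set A := (2 * C1) ^ (p - 2) * (n + p - 2) * (2 / r1) + ‖b‖ + 2 * K with hA
  have hA0 : 0 < A := by
    have : (0 : ℝ) ≤ n + p - 2 := by linarith
    rw [hA]; positivity
  set B := (A + 1) / ((c1 / 2) ^ (p - 2) * (3 / 10 * r1)) with hB
  have hB0 : 0 < B := by positivity
  have hBA : A < (c1 / 2) ^ (p - 2) * (3 / 10 * r1 * B) := by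
    have : (c1 / 2) ^ (p - 2) * (3 / 10 * r1 * B) = A + 1 := by
      rw [hB]; field_simp
    linarith
  set τ1 := min (3 * r1 ^ 2 / 4) (1 / B ^ 2) with hτ1
  have hτ0 : 0 < τ1 := lt_min (by positivity) (by positivity)
  have hτB : B * Real.sqrt τ1 ≤ 1 := by
    have h3 : Real.sqrt τ1 ≤ 1 / B := by
      rw [Real.sqrt_le_left (by positivity)]
      exact (min_le_right _ _).trans (le_of_eq (one_div_pow B 2).symm)
    calc B * Real.sqrt τ1 ≤ B * (1 / B) := mul_le_mul_of_nonneg_left h3 hB0.le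
      _ = 1 := by field_simp
  -- the gap away from the wall
  have hdc : Continuous fun x : E n => dw Ω x := continuous_infDist_pt _
  set Kc : Set (E n) := {x | τ1 ≤ dw Ω x ∧ ‖x - w0‖ ≤ ρ' / 2} with hKc
  have hKcc : IsCompact Kc := by
    refine Metric.isCompact_of_isClosed_isBounded ?_ ?_
    · exact (isClosed_le continuous_const hdc).inter (isClosed_le
        (continuous_id.sub continuous_const).norm continuous_const)
    · refine isBounded_closedBall.subset (s := Kc) (t := closedBall w0 (ρ' / 2)) ?_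
      intro x hx
      rw [mem_closedBall, dist_eq_norm]
      exact hx.2
  have hKsub : ∀ x ∈ Kc, x ∈ Ω ∩ ball w0 ρ := by
    intro x hx
    refine ⟨(dw_pos hΩ hne).1 (hτ0.trans_le hx.1), ?_⟩
    rw [mem_ball, dist_eq_norm]
    linarith [hx.2]
  have hFc : ContinuousOn (fun x => v x - W x) Kc := by
    intro x hx
    have hxS : x ∈ S := hS (hKsub x hx)
    have hW : ContinuousAt W x := (qs_cont hp hQ).continuousAt (hQ.isOpen.mem_nhds hxS)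
    exact (hv.continuousAt.sub hW).continuousWithinAt
  obtain ⟨δ, hδ0, hδ⟩ := hKcc.exists_forall_le' hFc (a := 0)
    (fun x hx => by linarith [hlt x (hKsub x hx)])
  set η := min (c1 / 5) δ with hηd
  have hη : 0 < η := lt_min (by positivity) hδ0
  have hηc : η * 5 ≤ c1 := by
    have : η ≤ c1 / 5 := min_le_left _ _
    linarith
  set r := min (ρ' / 8) (min (r1 / 2) (τ1 / (2 * r1))) with hrd
  have hr : 0 < r := lt_min (by positivity) (lt_min (by positivity) (by positivity))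
  refine ⟨r, η * r1, hr, by positivity, ?_⟩
  intro x hx
  obtain ⟨w, ν, hw, hν, hb, hxw, hwc⟩ := near_close hΩ hne hw0 hx.1
  have hxr : ‖x - w0‖ < r := by
    have := hx.2
    rwa [mem_ball, dist_eq_norm] at this
  have hd0 : 0 < dw Ω x := (dw_pos hΩ hne).2 hx.1
  have hdr : dw Ω x < r := by
    have h3 : infDist x Ωᶜ ≤ dist x w0 := infDist_le_dist_of_mem hw0n
    rw [dist_eq_norm] at h3
    unfold dw
    linarith
  have hr8 : r ≤ ρ' / 8 := min_le_left _ _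
  have hrr1 : r ≤ r1 / 2 := (min_le_right _ _).trans (min_le_left _ _)
  have hrτ : r ≤ τ1 / (2 * r1) := (min_le_right _ _).trans (min_le_right _ _)
  set y := w + r1 • ν with hy
  have hy1 : ball y r1 ⊆ Ω := by
    refine Subset.trans ?_ hb
    intro z hz
    rw [mem_ball, dist_eq_norm] at hz ⊢
    have h3 : z - (w + r0 • ν) = (z - y) + (r1 - r0) • ν := by
      rw [hy, sub_smul]; abel
    rw [h3]
    refine (norm_add_le _ _).trans_lt ?_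
    rw [norm_smul, hν, mul_one, Real.norm_eq_abs, abs_of_nonpos (by linarith)]
    linarith
  have hy2 : ball y r1 ⊆ ball w0 (ρ' / 2) := by
    intro z hz
    rw [mem_ball, dist_eq_norm] at hz ⊢
    have h3 : z - w0 = (z - y) + (r1 • ν + (w - w0)) := by rw [hy]; abel
    rw [h3]
    refine (norm_add_le _ _).trans_lt ?_
    have h4 := norm_add_le (r1 • ν) (w - w0)
    rw [norm_smul, hν, mul_one, Real.norm_eq_abs, abs_of_pos hr1] at h4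
    linarith
  have key := HPF_single hp hκ hΩ hQ hρρ hk hS hne hw0n h1 h2 hc1 hC1 hnrm hv hsp hlt hK hr1 hr1b
    hdiff hBA hB0 hτ0 (min_le_left _ _) hτB
    (fun x hx1 hx2 => by linarith [hδ x ⟨hx1, hx2⟩]) hη (min_le_right _ _) hηc hy1 hy2 x
  have hxy : ‖x - y‖ = r1 - dw Ω x := by
    have h3 : x - y = (dw Ω x - r1) • ν := by
      conv_lhs => rw [hxw]
      rw [hy, sub_smul]; abel
    rw [h3, norm_smul, hν, mul_one, Real.norm_eq_abs, abs_of_nonpos (by linarith)]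
    ring
  rw [hxy] at key
  have h3 : r1 ^ 2 - (r1 - dw Ω x) ^ 2 = dw Ω x * (2 * r1 - dw Ω x) := by ring
  rw [h3] at key
  have h4 : 0 < dw Ω x * (2 * r1 - dw Ω x) := mul_pos hd0 (by linarith)
  have h5 : dw Ω x * (2 * r1 - dw Ω x) ≤ τ1 := by
    rw [le_div_iff₀ (by positivity)] at hrτ
    nlinarith
  have h6 := key h4 h5
  have h7 : η * r1 * dw Ω x ≤ η * (dw Ω x * (2 * r1 - dw Ω x)) := by
    have h8 : r1 * dw Ω x ≤ dw Ω x * (2 * r1 - dw Ω x) := by nlinarith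
    calc η * r1 * dw Ω x = η * (r1 * dw Ω x) := by ring
      _ ≤ _ := mul_le_mul_of_nonneg_left h8 hη.le
  linarith

end Pool.Agent.TWC
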