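import Pool.Agent.TWC.Defs3
import Pool.Agent.TWC.HPF
import Pool.Agent.TWC.W1
import Pool.Agent.TWC.PHI

/-!
# TWC GAPS: ratio gaps

`gap_int`: `0 < W x < ψ x`, `x ∈ Ω`: by continuity of `W` and of `(y,σ) ↦ ψ (y - σ e)`.

`gap_wall`: `x ∈ Wl e Ω W`, `W < ψ` on `Nn W`. Let `t > 0` with `x + t e ∈ closure (Po W)` (a frontier point,
`frontier_inv`). `w1` at `w0 = x + t e` with `L = t` and with `L = t/2`: `W ≥ k dw` on `Ω ∩ ball x r` and on
`Ω ∩ ball (x + t0 e) r`, `t0 = t/2` (common `k, r`). `W ≤ C dw` (`lin_wall`, `W ≤ Φ` bounded by `phi_bdd`). For `r`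
smaller, `W` on `Ω ∩ ball x r` is below some value of `W` (`W > 0` somewhere), so `Ω ∩ ball x r ⊆ Nn W ⊆ Po W` and
`W < ψ` there. `hpf` (`S = Po W`, `b = c e`, `κ = ka p`): `W + η dw ≤ ψ` on `Ω ∩ ball x r'`. Let `y ∈ Ω ∩ ball x (r'/2)`,
`|σ| ≤ s0 ≤ r'/2`: `ψ (y - σ e) ≥ W (y - σ e) + η dw y` (`dw_inv`), and
`W (y - σ e) ≥ θ^(|σ|/t0) W y` with `θ = min 1 (k/C)`: for `σ ≥ 0` by monotonicity; for `σ = -s < 0` by
`log_conc` on the segment from `y` to `y + t0 e`:
`W (y + s e) ≥ W y^(1-s/t0) W (y + t0 e)^(s/t0)`, `W (y + t0 e) ≥ k dw y ≥ (k/C) W y`. Since `dw y ≥ W y/C`: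
`ψ (y - σ e) ≥ (θ^(s0/t0) + η/C) W y ≥ (1 + η/(2C)) W y` for `s0` small. `1 - η' = (1 + η/(2C))^(-1)`.
-/

open Set Metric Filter Topology
open scoped RealInnerProductSpace

noncomputable section

namespace Pool.Agent.TWC

variable {n : ℕ} {p c : ℝ} {e : E n} {r0 : ℝ} {Ω : Set (E n)} {Φ W ψ : E n → ℝ}

theorem gap_int (hW : WP p c e Ω Φ W) (hψ : Above p c e Ω W ψ) {x : E n} (hx : 0 < W x)
    (hlt : W x < ψ x) : Gap e Ω W ψ x := by
  have hψx : 0 < ψ x := hx.trans hlt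
  set η : ℝ := (ψ x - W x) / (2 * ψ x) with hη
  have hη0 : 0 < η := div_pos (by linarith) (by positivity)
  have hη1 : η < 1 := by
    rw [hη, div_lt_one (by positivity)]
    linarith
  have hval : (1 - η) * ψ x = (ψ x + W x) / 2 := by
    rw [hη]
    field_simp
    ring
  have hcont : Continuous fun z : E n × ℝ => (1 - η) * ψ (z.1 - z.2 • e) - W z.1 := by
    have h1 : Continuous fun z : E n × ℝ => z.1 - z.2 • e :=
      continuous_fst.sub (continuous_snd.smul continuous_const)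
    exact (continuous_const.mul (hψ.sup.cont.comp h1)).sub (hW.cont.comp continuous_fst)
  have h0 : 0 < (fun z : E n × ℝ => (1 - η) * ψ (z.1 - z.2 • e) - W z.1) (x, 0) := by
    show 0 < (1 - η) * ψ (x - (0 : ℝ) • e) - W x
    rw [zero_smul, sub_zero, hval]
    linarith
  obtain ⟨ρ, hρ, hb⟩ := Metric.mem_nhds_iff.1 (hcont.continuousAt.eventually (lt_mem_nhds h0))
  refine ⟨ρ, η, ρ / 2, hρ, hη0, hη1, by positivity, ?_⟩
  rintro y ⟨_, hy⟩ σ hσ
  have hm : (y, σ) ∈ ball (x, (0 : ℝ)) ρ := by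
    rw [mem_ball, Prod.dist_eq]
    refine max_lt hy ?_
    rw [Real.dist_eq, sub_zero]
    show |σ| < ρ
    linarith
  have := hb hm
  simp only [mem_ofPred_eq] at this
  linarith

theorem gap_wall (hp : 2 < p) (hc : 0 < c) (hΩ : Tube e r0 Ω) (hne : (Ωᶜ).Nonempty)
    (hΦ : Prof p c e Ω Φ) (hW : WP p c e Ω Φ W) (hψ : Above p c e Ω W ψ)
    (hlt : ∀ x ∈ Nn W, W x < ψ x) {x : E n} (hx : x ∈ Wl e Ω W) : Gap e Ω W ψ x := by
  obtain ⟨hxf, hxcl, t, ht, hxt⟩ := hx
  have hka : 0 ≤ ka p := by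
    unfold ka
    exact div_nonneg zero_le_one (by linarith)
  have hw0 : x + t • e ∈ frontier Ω := frontier_inv hΩ hxf t
  obtain ⟨r1, k1, hr1, hk1, h1⟩ := w1 hp hc hΩ hne hW hw0 hxt ht
  obtain ⟨r2, k2, hr2, hk2, h2⟩ := w1 hp hc hΩ hne hW hw0 hxt (half_pos ht)
  rw [add_sub_cancel_right] at h1
  have he2 : x + t • e - (t / 2) • e = x + (t / 2) • e := by
    rw [add_sub_assoc, ← sub_smul]
    congr 2
    ring
  rw [he2] at h2
  set t0 : ℝ := t / 2 with ht0
  have ht0' : 0 < t0 := half_pos ht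
  set k : ℝ := min k1 k2 with hk
  have hk0 : 0 < k := lt_min hk1 hk2
  obtain ⟨M0, hM0, hΦM⟩ := phi_bdd hΩ hΦ
  obtain ⟨C, hC, hlw⟩ := lin_wall (c := c) hp hΩ hne M0
  have hWC : ∀ y, W y ≤ C * dw Ω y := hlw W hW.sub hW.off fun y => (hW.lePhi y).trans (hΦM y)
  have hnn : ∀ y, 0 ≤ W y := hW.sub.nn
  obtain ⟨y0, hy0⟩ : (Po W).Nonempty := closure_nonempty_iff.1 ⟨x, hxcl⟩
  have hy0' : 0 < W y0 := hy0
  have hxΩ : x ∉ Ω := by
    intro h
    rw [hΩ.isOpen.frontier_eq] at hxf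
    exact hxf.2 h
  -- a small radius
  set ρ : ℝ := min (min r1 r2) (W y0 / C) with hρ
  have hρ0 : 0 < ρ := lt_min (lt_min hr1 hr2) (by positivity)
  have hρ1 : ρ ≤ r1 := (min_le_left _ _).trans (min_le_left _ _)
  have hρ2 : ρ ≤ r2 := (min_le_left _ _).trans (min_le_right _ _)
  have hρ3 : ρ ≤ W y0 / C := min_le_right _ _
  have hlow : ∀ y ∈ Ω ∩ ball x ρ, k * dw Ω y ≤ W y := by
    rintro y ⟨hyΩ, hy⟩
    refine le_trans ?_ (h1 y ⟨hyΩ, ball_subset_ball hρ1 hy⟩)
    exact mul_le_mul_of_nonneg_right (min_le_left _ _) (dw_nonneg y)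
  have hpos : ∀ y ∈ Ω ∩ ball x ρ, 0 < W y := by
    intro y hy
    exact lt_of_lt_of_le (mul_pos hk0 ((dw_pos hΩ hne).2 hy.1)) (hlow y hy)
  have hNn : ∀ y ∈ Ω ∩ ball x ρ, y ∈ Nn W := by
    intro y hy
    refine ⟨hpos y hy, y0, ?_⟩
    have h3 : dw Ω y ≤ dist y x := infDist_le_dist_of_mem hxΩ
    have h4 : dist y x < ρ := hy.2
    calc W y ≤ C * dw Ω y := hWC y
      _ ≤ C * dist y x := by gcongr
      _ < C * ρ := by gcongr
      _ ≤ C * (W y0 / C) := by gcongr
      _ = W y0 := by field_simp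
  obtain ⟨r', η', hr', hη', hhpf⟩ := hpf hp hka hΩ hW.qs hxf hρ0 hk0 (fun y hy => hpos y hy)
    hlow (fun y _ => hWC y) hψ.sup.cont hψ.sup.nn
    (fun y hy => hψ.sup.sp y (po_sub hW hy)) (fun y hy => hlt y (hNn y hy))
  -- the exponent
  set θ : ℝ := min 1 (k / C) with hθ
  have hθ0 : 0 < θ := lt_min one_pos (by positivity)
  have hθ1 : θ ≤ 1 := min_le_left _ _
  set g : ℝ := η' / (2 * C) with hg
  have hg0 : 0 < g := by positivity
  have hcts : Continuous fun s : ℝ => θ ^ (s / t0) :=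
    continuous_const.rpow (continuous_id.div_const t0) fun s => Or.inl hθ0.ne'
  have hθev : ∀ᶠ s in 𝓝 (0 : ℝ), 1 - g < θ ^ (s / t0) := by
    refine hcts.continuousAt.eventually (lt_mem_nhds ?_)
    show 1 - g < θ ^ ((0 : ℝ) / t0)
    rw [zero_div, Real.rpow_zero]
    linarith
  obtain ⟨δ, hδ, hδb⟩ := Metric.mem_nhds_iff.1 hθev
  set r4 : ℝ := min r' ρ / 2 with hr4
  have hr40 : 0 < r4 := by
    have : 0 < min r' ρ := lt_min hr' hρ0
    positivity
  have hr4' : 2 * r4 ≤ r' := by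
    have : min r' ρ ≤ r' := min_le_left _ _
    rw [hr4]
    linarith
  have hr4ρ : 2 * r4 ≤ ρ := by
    have : min r' ρ ≤ ρ := min_le_right _ _
    rw [hr4]
    linarith
  set s0 : ℝ := min (min r4 t0) (δ / 2) with hs0
  have hs00 : 0 < s0 := lt_min (lt_min hr40 ht0') (by positivity)
  have hs0r : s0 ≤ r4 := (min_le_left _ _).trans (min_le_left _ _)
  have hs0t : s0 ≤ t0 := (min_le_left _ _).trans (min_le_right _ _)
  have hs0δ : s0 ≤ δ / 2 := min_le_right _ _
  refine ⟨r4, g / (1 + g), s0, hr40, by positivity, ?_, hs00, ?_⟩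
  · rw [div_lt_one (by positivity)]
    linarith
  rintro y ⟨hyΩ, hy⟩ σ hσ
  have hyρ : y ∈ Ω ∩ ball x ρ := ⟨hyΩ, ball_subset_ball (by linarith) hy⟩
  have hWy : 0 < W y := hpos y hyρ
  -- the lower bound for the shift
  have hshift : (1 - g) * W y ≤ W (y - σ • e) := by
    rcases le_or_gt 0 σ with hσ0 | hσ0
    · have h3 := hW.mono (y - σ • e) σ hσ0
      rw [sub_add_cancel] at h3
      have h4 : (1 - g) * W y ≤ 1 * W y := by
        apply mul_le_mul_of_nonneg_right _ hWy.le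
        linarith
      linarith
    · set s : ℝ := -σ with hs
      have hs1 : 0 < s := by linarith
      have hss0 : s ≤ s0 := by
        rw [abs_of_neg hσ0] at hσ
        exact hσ
      have hτ0 : 0 ≤ s / t0 := by positivity
      have hτ1 : s / t0 ≤ 1 := by
        rw [div_le_one ht0']
        linarith
      have hyt : y + t0 • e ∈ Ω ∩ ball (x + t0 • e) r2 := by
        refine ⟨hΩ.inv y hyΩ t0, ?_⟩
        rw [mem_ball, dist_add_right]
        have : dist y x < ρ := hyρ.2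
        linarith
      have hWt : k * dw Ω y ≤ W (y + t0 • e) := by
        have h3 := h2 _ hyt
        rw [dw_inv hΩ] at h3
        refine le_trans ?_ h3
        exact mul_le_mul_of_nonneg_right (min_le_right _ _) (dw_nonneg y)
      have hdy : 0 < dw Ω y := (dw_pos hΩ hne).2 hyΩ
      have hWtpos : 0 < W (y + t0 • e) := lt_of_lt_of_le (mul_pos hk0 hdy) hWt
      have hWtθ : θ * W y ≤ W (y + t0 • e) := by
        calc θ * W y ≤ (k / C) * W y := mul_le_mul_of_nonneg_right (min_le_right _ _) hWy.le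
          _ ≤ (k / C) * (C * dw Ω y) := by
              have := hWC y
              gcongr
          _ = k * dw Ω y := by field_simp
          _ ≤ _ := hWt
      have hlc := log_conc hp hW.qs (show y ∈ Po W from hWy)
        (show y + t0 • e ∈ Po W from hWtpos) hτ0 hτ1
      have hpt : (1 - s / t0) • y + (s / t0) • (y + t0 • e) = y - σ • e := by
        have e1 : (s / t0) * t0 = s := div_mul_cancel₀ _ ht0'.ne'
        rw [smul_add, smul_smul, e1, sub_smul, one_smul, hs, neg_smul]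
        abel
      rw [hpt] at hlc
      refine le_trans ?_ hlc
      have h5 : (θ * W y) ^ (s / t0) ≤ W (y + t0 • e) ^ (s / t0) :=
        Real.rpow_le_rpow (by positivity) hWtθ hτ0
      have h6 : (θ * W y) ^ (s / t0) = θ ^ (s / t0) * W y ^ (s / t0) :=
        Real.mul_rpow hθ0.le hWy.le
      have h7 : W y ^ (1 - s / t0) * W y ^ (s / t0) = W y := by
        rw [← Real.rpow_add hWy]
        simp
      have h8 : 1 - g < θ ^ (s / t0) := by
        have : s ∈ ball (0 : ℝ) δ := by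
          rw [mem_ball, Real.dist_eq, sub_zero, abs_of_pos hs1]
          linarith
        exact hδb this
      calc (1 - g) * W y ≤ θ ^ (s / t0) * W y := mul_le_mul_of_nonneg_right h8.le hWy.le
        _ = W y ^ (1 - s / t0) * (θ ^ (s / t0) * W y ^ (s / t0)) := by
            nth_rewrite 1 [← h7]
            ring
        _ ≤ W y ^ (1 - s / t0) * W (y + t0 • e) ^ (s / t0) := by
            rw [← h6]
            exact mul_le_mul_of_nonneg_left h5 (Real.rpow_nonneg hWy.le _)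
  have hyσ : y - σ • e ∈ Ω ∩ ball x r' := by
    constructor
    · have := hΩ.inv y hyΩ (-σ)
      rwa [neg_smul, ← sub_eq_add_neg] at this
    · rw [mem_ball, dist_eq_norm]
      have e1 : y - σ • e - x = (y - x) - σ • e := by abel
      have h3 : ‖y - x‖ < r4 := by rwa [mem_ball, dist_eq_norm] at hy
      have h4 : ‖σ • e‖ = |σ| := by rw [norm_smul, hΩ.unit, mul_one, Real.norm_eq_abs]
      rw [e1]
      have h5 := norm_sub_le (y - x) (σ • e)
      rw [h4] at h5
      linarith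
  have h9 := hhpf _ hyσ
  have hdw : dw Ω (y - σ • e) = dw Ω y := by
    have := dw_inv hΩ y (-σ)
    rwa [neg_smul, ← sub_eq_add_neg] at this
  rw [hdw] at h9
  have h10 : W y / C ≤ dw Ω y := by
    rw [div_le_iff₀ hC]
    have := hWC y
    linarith
  have h11 : (1 + g) * W y ≤ ψ (y - σ • e) := by
    have h12 : η' * (W y / C) ≤ η' * dw Ω y := by gcongr
    have h13 : η' * (W y / C) = 2 * g * W y := by
      rw [hg]
      field_simp
    linarith
  have h14 : 1 - g / (1 + g) = 1 / (1 + g) := by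
    field_simp
    ring
  rw [h14, div_mul_eq_mul_div, one_mul, le_div_iff₀ (by positivity)]
  linarith

end Pool.Agent.TWC
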