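import Pool.Agent.TWC.JTA
import Pool.Agent.TWC.JTB
import Pool.Agent.TWC.PAL
import Pool.Agent.TWC.Defs2

/-!
# TWC GVS: the equation for `g = u^q`

`q = (p-2)/p`, `m = 1/q`, `(m-1)(p-2) = 2`, `(p-1)(m-1) = 2(p-1)/(p-2) =: k0`.
For `g > 0`, `u = g^m`, `F' = m g^(m-1)`, `F'' = m(m-1) g^(m-2)`, `F'^(p-2) = m^(p-2) g^2`, and by `pA_chain`
`pA (F'Γ) (F' B + F'' rk Γ) = F' m^(p-2) (g^2 pA Γ B + k0 g |Γ|^p)`; `<b, F'Γ> = F' <b,Γ>`,
`κ u = F' κ g/m`. So `Sb` for `u` is the viscosity inequality with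
`al g = m^(p-2) g^2`, `blg g Γ = m^(p-2) k0 g |Γ|^p + <b,Γ> + κ g/m` for `g`.

* `gvs`: `Sub p b κ u` implies `VS p al blg univ (u^q)`. At points with `u x > 0`: if `UJ (u^q) x Γ B` then
  `uj_pow` with exponent `m` applied to the function `u^q` (`(u^q)^m = u`) gives the jet of `u`; divide by
  `F' > 0`. At points with `u x = 0`: `uj_zero` gives `Γ = 0`, and `al 0 = 0`, `blg 0 0 = 0`.
* `sb_of_gvs`: conversely if `w ≥ 0` and at every `x` with `w x > 0` and every `UJ (w^q) x Γ B` the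
  inequality `0 ≤ al (w x^q) pA Γ B + blg (w x^q) Γ` holds, then `Sb p b κ univ w` (at zeros `uj_zero`; at
  positive points `uj_pow` with exponent `q`: `Γ = q w^(q-1) P`, `B = q w^(q-1) X + q(q-1)w^(q-2) rk P`,
  and then the identity above, with `P = F'Γ`, `X = F' B + F'' rk Γ`; the rank one terms cancel:
  `F' q(q-1) w^(q-2) + F'' (q w^(q-1))^2 = 0`).
-/

open Set Metric Filter Topology
open scoped RealInnerProductSpace

noncomputable section

namespace Pool.Agent.TWC

variable {n : ℕ} {p : ℝ} {b : E n} {κ : ℝ}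

/-- Coefficient of the equation for `g`. -/
def al (p : ℝ) (g : ℝ) : ℝ := mm p ^ (p - 2) * g ^ 2

/-- Lower order part of the equation for `g`. -/
def blg (p : ℝ) (b : E n) (κ g : ℝ) (Γ : E n) : ℝ :=
  mm p ^ (p - 2) * (2 * (p - 1) / (p - 2)) * g * ‖Γ‖ ^ p + ⟪b, Γ⟫ + κ * g / mm p

private theorem GVS_qpos (hp : 2 < p) : 0 < qq p := div_pos (by linarith) (by linarith)

private theorem GVS_mpos (hp : 2 < p) : 0 < mm p := div_pos (by linarith) (by linarith)

private theorem GVS_qm (hp : 2 < p) : qq p * mm p = 1 := by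
  unfold qq mm
  have h1 : p ≠ 0 := by linarith
  have h2 : p - 2 ≠ 0 := by linarith
  field_simp

private theorem GVS_m1 (hp : 2 < p) : mm p - 1 = 2 / (p - 2) := by
  unfold mm
  have h2 : p - 2 ≠ 0 := by linarith
  field_simp
  ring

/-- The change of the equation under `u = g^m`. -/
private theorem GVS_key (hp : 2 < p) {g : ℝ} (hg : 0 < g) (Γ : E n) (B : Bil n) :
    pA p ((mm p * g ^ (mm p - 1)) • Γ)
        ((mm p * g ^ (mm p - 1)) • B + (mm p * (mm p - 1) * g ^ (mm p - 2)) • rk Γ) +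
      ⟪b, (mm p * g ^ (mm p - 1)) • Γ⟫ + κ * g ^ mm p =
      (mm p * g ^ (mm p - 1)) * (al p g * pA p Γ B + blg p b κ g Γ) := by
  have hm := GVS_mpos hp
  have hF : 0 < mm p * g ^ (mm p - 1) := by positivity
  have h2 : p - 2 ≠ 0 := by linarith
  rw [pA_chain hp hF, real_inner_smul_right]
  have e1 : (mm p * g ^ (mm p - 1)) ^ (p - 2) = mm p ^ (p - 2) * g ^ 2 := by
    rw [Real.mul_rpow hm.le (by positivity), ← Real.rpow_mul hg.le, GVS_m1 hp,
      div_mul_cancel₀ _ h2]
    norm_num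
  have e2 : mm p * (mm p - 1) * g ^ (mm p - 2) =
      (mm p * g ^ (mm p - 1)) * (2 / (p - 2)) / g := by
    rw [GVS_m1 hp, show mm p - 2 = (mm p - 1) - 1 by ring, Real.rpow_sub_one hg.ne', GVS_m1 hp]
    ring
  have e3 : g ^ mm p = (mm p * g ^ (mm p - 1)) * g / mm p := by
    rw [Real.rpow_sub_one hg.ne']
    field_simp
  rw [e1, e2, e3]
  generalize mm p * g ^ (mm p - 1) = F
  unfold al blg
  generalize mm p ^ (p - 2) = M
  field_simp
  ring

theorem gvs (hp : 2 < p) {u : E n → ℝ} (hu : Sub p b κ u) :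
    VS p (al p) (blg p b κ) univ (fun x => u x ^ qq p) := by
  intro x _ Γ B h
  have hq := GVS_qpos hp
  have hm := GVS_mpos hp
  have hnn : ∀ y, 0 ≤ u y ^ qq p := fun y => Real.rpow_nonneg (hu.nn y) _
  rcases (hu.nn x).eq_or_lt with hx | hx
  · have h0 : u x ^ qq p = 0 := by
      rw [← hx, Real.zero_rpow hq.ne']
    obtain ⟨hΓ, _⟩ := uj_zero hnn h0 h
    change 0 ≤ al p (u x ^ qq p) * pA p Γ B + blg p b κ (u x ^ qq p) Γ
    rw [h0, hΓ]
    unfold al blg
    simp
  · have hg : 0 < u x ^ qq p := Real.rpow_pos_of_pos hx _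
    have h1 := uj_pow hm hnn hg h
    have h2 : (fun y => (u y ^ qq p) ^ mm p) = u := by
      funext y
      rw [← Real.rpow_mul (hu.nn y), GVS_qm hp, Real.rpow_one]
    rw [h2] at h1
    have h3 := hu.sb x (mem_univ _) _ _ h1
    have h4 : u x = (u x ^ qq p) ^ mm p := (congrFun h2 x).symm
    have h5 := GVS_key (b := b) (κ := κ) hp hg Γ B
    rw [← h4] at h5
    rw [h5] at h3
    exact nonneg_of_mul_nonneg_right h3 (by positivity)

private theorem GVS_mod {V : Type*} [AddCommGroup V] [Module ℝ V] {a b' c d e : ℝ}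
    (h1 : a * b' = 1) (h2 : a * c + d * e = 0) (X Y : V) :
    a • (b' • X + c • Y) + d • e • Y = X := by
  rw [smul_add, smul_smul, smul_smul, smul_smul, h1, one_smul, add_assoc, ← add_smul, h2,
    zero_smul, add_zero]

theorem sb_of_gvs (hp : 2 < p) {w : E n → ℝ} (hw : ∀ x, 0 ≤ w x)
    (h : ∀ x, 0 < w x → ∀ Γ B, UJ (fun y => w y ^ qq p) x Γ B →
      0 ≤ al p (w x ^ qq p) * pA p Γ B + blg p b κ (w x ^ qq p) Γ) : Sb p b κ univ w := by
  intro x _ P X hj
  have hq := GVS_qpos hp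
  have hm := GVS_mpos hp
  rcases (hw x).eq_or_lt with hx | hx
  · obtain ⟨hP, _⟩ := uj_zero hw hx.symm hj
    rw [hP, pA_zero hp, ← hx]
    simp
  · have h1 := h x hx _ _ (uj_pow hq hw hx hj)
    have hg : 0 < w x ^ qq p := Real.rpow_pos_of_pos hx _
    have hF : 0 < mm p * (w x ^ qq p) ^ (mm p - 1) := by positivity
    have h2 := mul_nonneg hF.le h1
    rw [← GVS_key (b := b) (κ := κ) hp hg] at h2
    have hmq : mm p * qq p = 1 := by rw [mul_comm, GVS_qm hp]
    have e0 : (w x ^ qq p) ^ mm p = w x := by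
      rw [← Real.rpow_mul hx.le, GVS_qm hp, Real.rpow_one]
    have e1 : (w x ^ qq p) ^ (mm p - 1) = w x / w x ^ qq p := by
      rw [Real.rpow_sub_one hg.ne', e0]
    have e2 : (w x ^ qq p) ^ (mm p - 2) = w x / (w x ^ qq p * w x ^ qq p) := by
      rw [show mm p - 2 = (mm p - 1) - 1 by ring, Real.rpow_sub_one hg.ne', e1]
      field_simp
    have e3 : w x ^ (qq p - 1) = w x ^ qq p / w x := Real.rpow_sub_one hx.ne' _
    have e4 : w x ^ (qq p - 2) = w x ^ qq p / (w x * w x) := by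
      rw [show qq p - 2 = (qq p - 1) - 1 by ring, Real.rpow_sub_one hx.ne', e3]
      field_simp
    rw [e0, e1, e2, e3, e4] at h2
    have f1 : (mm p * (w x / w x ^ qq p)) * (qq p * (w x ^ qq p / w x)) = 1 := by
      have : (mm p * (w x / w x ^ qq p)) * (qq p * (w x ^ qq p / w x)) = mm p * qq p := by
        field_simp
      rw [this, hmq]
    have f2 : (mm p * (w x / w x ^ qq p)) * (qq p * (qq p - 1) * (w x ^ qq p / (w x * w x))) +
        (mm p * (mm p - 1) * (w x / (w x ^ qq p * w x ^ qq p))) *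
          (qq p * (w x ^ qq p / w x)) ^ 2 = 0 := by
      have : (mm p * (w x / w x ^ qq p)) * (qq p * (qq p - 1) * (w x ^ qq p / (w x * w x))) +
        (mm p * (mm p - 1) * (w x / (w x ^ qq p * w x ^ qq p))) *
          (qq p * (w x ^ qq p / w x)) ^ 2 =
          ((mm p * qq p) * (qq p - 1) + (mm p * qq p) * ((mm p * qq p) - qq p)) / w x := by
        field_simp
      rw [this, hmq]
      ring
    have g1 : (mm p * (w x / w x ^ qq p)) • (qq p * (w x ^ qq p / w x)) • P = P := by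
      rw [smul_smul, f1, one_smul]
    have g2 : (mm p * (w x / w x ^ qq p)) • ((qq p * (w x ^ qq p / w x)) • X +
        (qq p * (qq p - 1) * (w x ^ qq p / (w x * w x))) • rk P) +
        (mm p * (mm p - 1) * (w x / (w x ^ qq p * w x ^ qq p))) •
          rk ((qq p * (w x ^ qq p / w x)) • P) = X := by
      rw [jtb_rk_smul]
      exact GVS_mod f1 f2 X (rk P)
    rw [g1, g2] at h2
    exact h2

end Pool.Agent.TWC
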