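import Pool.Agent.TWC.SUML
import Pool.Agent.TWC.JTA
import Pool.Agent.TWC.GEO

/-!
# TWC INV: comparison for axially invariant functions

`u` axially invariant subsolution vanishing off `Ω`, `Φ` axially invariant continuous supersolution,
`Φ > 0` on `Ω`, `u ≤ M Φ`. Then `u ≤ Φ`.

Proof. Let `M* = inf {M ≥ 1 : u ≤ M Φ}`, so `u ≤ M* Φ`; suppose `M* > 1`. Choose `1 < M < M*` with
`M^(p-1) > M*` (possible since `M*^(p-1) > M*`). Then `u - MΦ` is positive somewhere. Let `D0 = {x ∈ closure Ω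
: <x,e> = 0}`, compact; by invariance `m0 = max over D0 of (u - MΦ) > 0` (usc) is the maximum over the
whole space (`u = 0 ≤ MΦ` off `Ω`). For `δ > 0` maximise
`Ψ(x,y) = u x - M Φ y - |x-y|^2/(2δ)` over `x ∈ D0`, `y ∈ D1 = {y ∈ closure Ω...}`; simply over
`x, y ∈ D0`. The maximum over `D0 × D0` is the maximum over all pairs: translating along `e` we may
assume `<x,e> = 0`; replacing `y` by `y - <y,e> e` does not change `Φ y` and decreases `|x-y|`; and for
`x ∉ Ω`, `u x = 0` so `Ψ ≤ 0`; for `y ∉ closure Ω`: we must also allow these; use `D2 = {y : <y,e> = 0,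
|y| ≤ R}` for `y`, `R` large, instead of `D0`: for `|y| > R` the penalisation makes `Ψ < 0`. At a maximum
point `(x,y) = (x_δ,y_δ)` (`Ψ ≥ m0`): `|x-y|^2 ≤ 2δ sup u`; as `δ → 0` any limit point `x` of `x_δ` has
`u x - MΦ x ≥ m0` and `|x_δ-y_δ|²/δ → 0`. In particular `x ∈ Ω`, so `x_δ, y_δ ∈ Ω` for small `δ`. `P =
(x_δ - y_δ)/δ`, `<P,e> = 0`. Majorant inequality of `sumL` for `u` and `w = -MΦ`: gradients `P, -P`, form
`(1/δ) <a-a', c-c'>`. `VS` for `w` as in C1: `α = M^(-(p-1))`, `β r Q = M^(-1)(<ce,Q> + κ r)`.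
If `P ≠ 0`: `X + Y ≤ 0` on the diagonal, so `pA P X + pA P Y ≤ 0`;
`pA P X ≥ -κ u x` (`<ce,P> = 0`), `pA P Y ≥ -M^(p-2) κ w = M^(p-1) κ Φ y`. So `u x_δ ≥ M^(p-1) Φ y_δ`
(`κ = ka p > 0`). If `P = 0`: `sumL0`: `0 ≤ κ w`, so `Φ y_δ = 0`, impossible for `y_δ ∈ Ω`.
Let `δ → 0`: `u x_δ` converges to a value `≤ u x` and `Φ y_δ → Φ x`: `u x ≥ M^(p-1) Φ x`; but `u x ≤ M* Φ x` and
`Φ x > 0` (`x ∈ Ω`): `M* ≥ M^(p-1)`, a contradiction.
-/

open Set Metric Filter Topology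
open scoped RealInnerProductSpace

noncomputable section

namespace Pool.Agent.TWC

variable {n : ℕ} {p c : ℝ} {e : E n} {r0 : ℝ} {Ω : Set (E n)} {Φ : E n → ℝ}

private def INV_B (δ : ℝ) : (E n × E n) →L[ℝ] (E n × E n) →L[ℝ] ℝ :=
  (1 / δ) • ((innerSL ℝ).bilinearComp
    (ContinuousLinearMap.fst ℝ (E n) (E n) - ContinuousLinearMap.snd ℝ (E n) (E n))
    (ContinuousLinearMap.fst ℝ (E n) (E n) - ContinuousLinearMap.snd ℝ (E n) (E n)))

private theorem INV_B_apply (δ : ℝ) (a b : E n) :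
    INV_B (n := n) δ (a, b) (a, b) = 1 / δ * ‖a - b‖ ^ 2 := by
  rw [← real_inner_self_eq_norm_sq]
  rfl

/-- The viscosity inequality of `w = -M Φ`. -/
private theorem INV_vs (hp : 2 < p) {κ M : ℝ} (hM : 0 < M) {b : E n} {O : Set (E n)} {v : E n → ℝ}
    (hv : Sp p b κ O v) :
    VS p (fun _ => (1 / M) ^ (p - 2) * (1 / M)) (fun r Q => 1 / M * (⟪b, Q⟫ + κ * r)) O
      (fun y => -(M * v y)) := by
  intro y hy Q Y h
  have hM' : 0 < 1 / M := by positivity
  have h1 := uj_smul hM' h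
  have h2 : (fun z => 1 / M * -(M * v z)) = fun z => -v z := by
    funext z
    field_simp
  rw [h2] at h1
  have e1 : (1 / M) • Q = -(-((1 / M) • Q)) := (neg_neg _).symm
  have e2 : (1 / M) • Y = -(-((1 / M) • Y)) := by
    ext
    simp
  have h3 : LJ v y (-((1 / M) • Q)) (-((1 / M) • Y)) := by
    apply uj_neg.1
    rw [← e1, ← e2]
    exact h1
  have h4 := hv y hy _ _ h3
  rw [pA_neg, pA_form_neg, pA_form_smul, pA_scale hp hM', inner_neg_right,
    real_inner_smul_right] at h4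
  have e3 : κ * v y = -(1 / M * (κ * -(M * v y))) := by
    field_simp
  rw [e3] at h4
  show 0 ≤ (1 / M) ^ (p - 2) * (1 / M) * pA p Q Y + 1 / M * (⟪b, Q⟫ + κ * -(M * v y))
  linarith

private theorem INV_step (hp : 2 < p) (hΩ : Tube e r0 Ω) (hΦ : Prof p c e Ω Φ)
    {u : E n → ℝ} (hu : Sub p (c • e) (ka p) u) (hoff : ∀ x ∉ Ω, u x = 0)
    (hinv : ∀ x, ∀ t : ℝ, u (x + t • e) = u x) {M1 M : ℝ} (hM1 : 0 < M1)
    (h1 : ∀ x, u x ≤ M1 * Φ x) (hM : 0 < M) (hMM : M1 < M ^ (p - 1)) :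
    ∀ x, u x ≤ M * Φ x := by
  by_contra hcon
  push Not at hcon
  obtain ⟨z, hz⟩ := hcon
  have hκ : 0 < ka p := by
    unfold ka
    apply one_div_pos.2
    linarith
  -- a violating point at height zero
  set x1 : E n := z + (-⟪z, e⟫) • e with hx1
  have hx1e : ⟪x1, e⟫ = 0 := by
    rw [hx1, inner_add_left, real_inner_smul_left, real_inner_self_eq_norm_sq, hΩ.unit]
    ring
  have hx1v : M * Φ x1 < u x1 := by
    rw [hx1, hinv, hΦ.inv]
    exact hz
  set m0 : ℝ := u x1 - M * Φ x1 with hm0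
  have hm0p : 0 < m0 := by
    rw [hm0]
    linarith
  have hpos_mem : ∀ x, 0 < u x → x ∈ Ω := by
    intro x hx
    by_contra hxn
    rw [hoff x hxn] at hx
    exact lt_irrefl _ hx
  have hx1Ω : x1 ∈ Ω := by
    apply hpos_mem
    have := mul_nonneg hM.le (hΦ.nn x1)
    linarith
  -- the compact set
  have hD0 := slab_compact hΩ 0 0
  set D0 : Set (E n) := {x | x ∈ closure Ω ∧ 0 ≤ ⟪x, e⟫ ∧ ⟪x, e⟫ ≤ 0} with hD0def
  obtain ⟨R, hR⟩ := hD0.isBounded.exists_norm_le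
  have hx1D : x1 ∈ D0 := ⟨subset_closure hx1Ω, hx1e.ge, hx1e.le⟩
  have hR0 : 0 ≤ R := (norm_nonneg x1).trans (hR x1 hx1D)
  obtain ⟨CΦ, hCΦ⟩ := (isCompact_closedBall (0 : E n) (R + 1)).exists_bound_of_continuousOn
    hΦ.cont.continuousOn
  have hCu : ∀ x ∈ D0, u x ≤ M1 * CΦ := by
    intro x hx
    refine (h1 x).trans (mul_le_mul_of_nonneg_left ?_ hM1.le)
    have h2 := hCΦ x (by
      rw [mem_closedBall_zero_iff]
      linarith [hR x hx])
    exact (le_abs_self _).trans h2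
  have hCu0 : 0 < M1 * CΦ := by
    have := hCu x1 hx1D
    have h2 := mul_nonneg hM.le (hΦ.nn x1)
    linarith
  -- uniform continuity
  have hMp : 0 < M ^ (p - 1) := Real.rpow_pos_of_pos hM _
  set ε : ℝ := (M ^ (p - 1) - M1) * m0 / (2 * M1 * M ^ (p - 1)) with hε
  have hε0 : 0 < ε := by
    rw [hε]
    have : 0 < M ^ (p - 1) - M1 := by linarith
    positivity
  have huc := (isCompact_closedBall (0 : E n) (R + 1)).uniformContinuousOn_of_continuous
    hΦ.cont.continuousOn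
  rw [Metric.uniformContinuousOn_iff] at huc
  obtain ⟨ρ0, hρ0, huc⟩ := huc ε hε0
  set ρ : ℝ := min ρ0 1 with hρ
  have hρp : 0 < ρ := lt_min hρ0 one_pos
  set δ : ℝ := ρ ^ 2 / (4 * (M1 * CΦ)) with hδ
  have hδ0 : 0 < δ := by positivity
  -- maximisation
  set K : Set (E n × E n) := (D0 ×ˢ closedBall (0 : E n) (R + 1)) ∩ {z | ‖z.1 - z.2‖ ≤ 1} with hK
  have hKc : IsCompact K := by
    refine (hD0.prod (isCompact_closedBall _ _)).inter_right ?_
    exact isClosed_le (by fun_prop) continuous_const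
  have hKmem : ∀ x y : E n, x ∈ D0 → ‖x - y‖ ≤ 1 → (x, y) ∈ K := by
    intro x y hx hxy
    refine ⟨⟨hx, ?_⟩, hxy⟩
    rw [mem_closedBall_zero_iff]
    have h2 : ‖y‖ ≤ ‖x‖ + ‖x - y‖ := by
      have e1 : y = x - (x - y) := by abel
      nth_rewrite 1 [e1]
      exact norm_sub_le _ _
    linarith [hR x hx]
  set Ψ : E n × E n → ℝ := fun z => u z.1 + (-(M * Φ z.2) - 1 / (2 * δ) * ‖z.1 - z.2‖ ^ 2) with hΨ
  have hΨu : UpperSemicontinuous Ψ := by
    have h2 : UpperSemicontinuous fun z : E n × E n => u z.1 := hu.usc.comp continuous_fst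
    have h3 : Continuous fun z : E n × E n => -(M * Φ z.2) - 1 / (2 * δ) * ‖z.1 - z.2‖ ^ 2 := by
      have := hΦ.cont
      fun_prop
    exact h2.add h3.upperSemicontinuous
  have hK11 : (x1, x1) ∈ K := hKmem x1 x1 hx1D (by simp)
  obtain ⟨⟨x0, y0⟩, hxy, hmax⟩ := (hΨu.upperSemicontinuousOn K).exists_isMaxOn ⟨_, hK11⟩ hKc
  have hmax' : ∀ x y, (x, y) ∈ K → Ψ (x, y) ≤ Ψ (x0, y0) := fun x y h => hmax h
  have hx0D : x0 ∈ D0 := hxy.1.1
  have hm : m0 ≤ u x0 - M * Φ y0 - 1 / (2 * δ) * ‖x0 - y0‖ ^ 2 := by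
    have h2 := hmax' x1 x1 hK11
    simp only [hΨ, sub_self, norm_zero] at h2
    rw [hm0]
    linarith
  have hq0 : 0 ≤ 1 / (2 * δ) * ‖x0 - y0‖ ^ 2 := by positivity
  have hΦy0 : 0 ≤ M * Φ y0 := mul_nonneg hM.le (hΦ.nn y0)
  have hux0 : m0 ≤ u x0 := by linarith
  have hx0Ω : x0 ∈ Ω := hpos_mem x0 (by linarith)
  have hd : ‖x0 - y0‖ < ρ := by
    have h2 : 1 / (2 * δ) * ‖x0 - y0‖ ^ 2 ≤ M1 * CΦ := by
      have := hCu x0 hx0D
      linarith
    have h3 : ‖x0 - y0‖ ^ 2 ≤ 2 * δ * (M1 * CΦ) := by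
      have h4 : ‖x0 - y0‖ ^ 2 = 2 * δ * (1 / (2 * δ) * ‖x0 - y0‖ ^ 2) := by
        field_simp
      rw [h4]
      exact mul_le_mul_of_nonneg_left h2 (by positivity)
    have h5 : 2 * δ * (M1 * CΦ) = ρ ^ 2 / 2 := by
      rw [hδ]
      have hC := hCu0.ne'
      generalize M1 * CΦ = C' at hC ⊢
      field_simp
      ring
    rw [h5] at h3
    have h6 : ‖x0 - y0‖ ^ 2 < ρ ^ 2 := by
      have : 0 < ρ ^ 2 := by positivity
      linarith
    exact lt_of_pow_lt_pow_left₀ 2 hρp.le h6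
  have hd1 : ‖x0 - y0‖ < 1 := hd.trans_le (min_le_right _ _)
  have hΦd : |Φ x0 - Φ y0| < ε := by
    have h2 := huc x0 (by
      rw [mem_closedBall_zero_iff]
      linarith [hR x0 hx0D]) y0 hxy.1.2 (by
      rw [dist_eq_norm]
      exact hd.trans_le (min_le_left _ _))
    rwa [Real.dist_eq] at h2
  have hΦx0 : m0 / M1 ≤ Φ x0 := by
    rw [div_le_iff₀ hM1]
    linarith [h1 x0]
  have hεm : ε * (2 * M ^ (p - 1)) = (M ^ (p - 1) - M1) * (m0 / M1) := by
    rw [hε]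
    field_simp
  have hΦy0p : 0 < Φ y0 := by
    have h2 : ε * (2 * M ^ (p - 1)) < M ^ (p - 1) * (m0 / M1) := by
      rw [hεm]
      have h3 : 0 < M1 * (m0 / M1) := by positivity
      linarith [sub_mul (M ^ (p - 1)) M1 (m0 / M1)]
    have h3 : ε * 2 < m0 / M1 := by
      by_contra h4
      push Not at h4
      have h5 := mul_le_mul_of_nonneg_left h4 hMp.le
      linarith
    have h4 := (abs_lt.1 hΦd).2
    linarith
  have hy0Ω : y0 ∈ Ω := by
    by_contra hyn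
    rw [hΦ.off y0 hyn] at hΦy0p
    exact lt_irrefl _ hΦy0p
  -- orthogonality
  have horth : ⟪x0 - y0, e⟫ = 0 := by
    have h2 : ‖x0 - (y0 + ⟪x0 - y0, e⟫ • e)‖ ^ 2 = ‖x0 - y0‖ ^ 2 - ⟪x0 - y0, e⟫ ^ 2 := by
      have e1 : x0 - (y0 + ⟪x0 - y0, e⟫ • e) = (x0 - y0) - ⟪x0 - y0, e⟫ • e := by abel
      rw [e1, norm_sub_sq_real, real_inner_smul_right, norm_smul, hΩ.unit, mul_one,
        Real.norm_eq_abs, sq_abs]
      ring
    have h3 : ‖x0 - (y0 + ⟪x0 - y0, e⟫ • e)‖ ≤ 1 := by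
      have h4 : ‖x0 - (y0 + ⟪x0 - y0, e⟫ • e)‖ ^ 2 ≤ 1 ^ 2 := by
        rw [h2]
        have := norm_nonneg (x0 - y0)
        nlinarith [sq_nonneg ⟪x0 - y0, e⟫]
      exact le_of_sq_le_sq h4 zero_le_one
    have h4 := hmax' x0 _ (hKmem x0 _ hx0D h3)
    simp only [hΨ] at h4
    rw [hΦ.inv, h2] at h4
    have h5 : 1 / (2 * δ) * ⟪x0 - y0, e⟫ ^ 2 ≤ 0 := by
      have := mul_sub (1 / (2 * δ)) (‖x0 - y0‖ ^ 2) (⟪x0 - y0, e⟫ ^ 2)
      linarith
    have h6 : 0 < 1 / (2 * δ) := by positivity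
    have h7 : ⟪x0 - y0, e⟫ ^ 2 ≤ 0 := by
      by_contra h8
      push Not at h8
      have := mul_pos h6 h8
      linarith
    have h8 := sq_nonneg ⟪x0 - y0, e⟫
    exact pow_eq_zero_iff (two_ne_zero) |>.1 (le_antisymm h7 h8)
  set P : E n := (1 / δ) • (x0 - y0) with hP
  -- the majorant inequality
  have hmaj : ∀ η > 0, ∃ r > 0, ∀ x y, ‖x - x0‖ < r → ‖y - y0‖ < r →
      u x + -(M * Φ y) ≤ u x0 + -(M * Φ y0) + ⟪P, x - x0⟫ + ⟪-P, y - y0⟫ +
        1 / 2 * INV_B (n := n) δ (x - x0, y - y0) (x - x0, y - y0) +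
          η * (‖x - x0‖ ^ 2 + ‖y - y0‖ ^ 2) := by
    intro η hη
    obtain ⟨r1, hr1, hball⟩ := Metric.isOpen_iff.1 hΩ.isOpen x0 hx0Ω
    refine ⟨min r1 ((1 - ‖x0 - y0‖) / 2), lt_min hr1 (by linarith), fun x y hx hy => ?_⟩
    have hxΩ : x ∈ Ω := hball (by
      rw [mem_ball, dist_eq_norm]
      exact hx.trans_le (min_le_left _ _))
    have hx2 : ‖x - x0‖ < (1 - ‖x0 - y0‖) / 2 := hx.trans_le (min_le_right _ _)
    have hy2 : ‖y - y0‖ < (1 - ‖x0 - y0‖) / 2 := hy.trans_le (min_le_right _ _)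
    have hxy1 : ‖x - y‖ ≤ 1 := by
      have e1 : x - y = (x - x0) + (x0 - y0) - (y - y0) := by abel
      rw [e1]
      have h2 := norm_sub_le ((x - x0) + (x0 - y0)) (y - y0)
      have h3 := norm_add_le (x - x0) (x0 - y0)
      linarith
    have hshift : (x + (-⟪x, e⟫) • e) - (y + (-⟪x, e⟫) • e) = x - y := by abel
    have hmem : (x + (-⟪x, e⟫) • e, y + (-⟪x, e⟫) • e) ∈ K := by
      apply hKmem
      · have h0 : ⟪x + (-⟪x, e⟫) • e, e⟫ = 0 := by
          rw [inner_add_left, real_inner_smul_left, real_inner_self_eq_norm_sq, hΩ.unit]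
          ring
        exact ⟨subset_closure (hΩ.inv x hxΩ _), h0.ge, h0.le⟩
      · rw [hshift]
        exact hxy1
    have h2 := hmax' _ _ hmem
    simp only [hΨ] at h2
    rw [hshift, hinv, hΦ.inv] at h2
    have e2 : ‖x - y‖ ^ 2 = ‖x0 - y0‖ ^ 2 + 2 * ⟪x0 - y0, (x - x0) - (y - y0)⟫ +
        ‖(x - x0) - (y - y0)‖ ^ 2 := by
      rw [← norm_add_sq_real]
      congr 2
      abel
    rw [e2] at h2
    have e3 : ⟪P, x - x0⟫ + ⟪-P, y - y0⟫ = 1 / δ * ⟪x0 - y0, (x - x0) - (y - y0)⟫ := by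
      rw [hP, inner_neg_left, real_inner_smul_left, real_inner_smul_left,
        inner_sub_right (x0 - y0) (x - x0) (y - y0)]
      ring
    rw [INV_B_apply]
    have e4 : 1 / (2 * δ) * (‖x0 - y0‖ ^ 2 + 2 * ⟪x0 - y0, (x - x0) - (y - y0)⟫ +
        ‖(x - x0) - (y - y0)‖ ^ 2) = 1 / (2 * δ) * ‖x0 - y0‖ ^ 2 +
        1 / δ * ⟪x0 - y0, (x - x0) - (y - y0)⟫ +
        1 / 2 * (1 / δ * ‖(x - x0) - (y - y0)‖ ^ 2) := by
      field_simp
    rw [e4] at h2
    have h5 : 0 ≤ η * (‖x - x0‖ ^ 2 + ‖y - y0‖ ^ 2) := by positivity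
    linarith
  have hwc : Continuous fun y => -(M * Φ y) := by
    have := hΦ.cont
    fun_prop
  have hVS2 := INV_vs hp hM hΦ.sup.sp
  have hM' : 0 < 1 / M := by positivity
  have hα₂ : 0 < (1 / M) ^ (p - 2) * (1 / M) := mul_pos (Real.rpow_pos_of_pos hM' _) hM'
  rcases eq_or_ne P 0 with hP0 | hP0
  · have h2 := sumL0 (p := p) hp (u := u) (w := fun y => -(M * Φ y)) (x0 := x0) (y0 := y0) (P := P)
      (B := INV_B δ) (hu.usc.upperSemicontinuousOn _) (hwc.upperSemicontinuous.upperSemicontinuousOn _)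
      (by
        intro η hη
        obtain ⟨r, hr, H⟩ := hmaj η hη
        refine ⟨r, hr, fun x y hx hy => ?_⟩
        have := H x y hx hy
        have e1 : ⟪-P, y - y0⟫ = 0 := by rw [hP0, neg_zero, inner_zero_left]
        rw [e1, add_zero] at this
        exact this) (hΩ.isOpen.mem_nhds hy0Ω) hVS2 continuousAt_const hα₂ (by fun_prop)
    simp only [inner_zero_right, zero_add] at h2
    have h3 : 0 < 1 / M * (ka p * (M * Φ y0)) := by positivity
    linarith [h2, h3]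
  · have hVS1 : VS p (fun _ => (1 : ℝ)) (fun r Q => ⟪c • e, Q⟫ + ka p * r) univ u := by
      intro x hx Q X h
      have := hu.sb x hx Q X h
      show 0 ≤ (1 : ℝ) * pA p Q X + (⟪c • e, Q⟫ + ka p * u x)
      linarith
    obtain ⟨X, Y, -, -, hXY, h2, h3⟩ := sumL (p := p) hp (u := u) (w := fun y => -(M * Φ y))
      (x0 := x0) (y0 := y0) (P := P) (Q := -P) (B := INV_B δ)
      (hu.usc.upperSemicontinuousOn _) (hwc.upperSemicontinuous.upperSemicontinuousOn _)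
      hmaj Filter.univ_mem (hΩ.isOpen.mem_nhds hy0Ω) hVS1 hVS2 continuousAt_const
      continuousAt_const one_pos hα₂ (by fun_prop) (by fun_prop) hP0 (neg_ne_zero.2 hP0)
    have hPe : ⟪c • e, P⟫ = 0 := by
      rw [hP, real_inner_smul_left, real_inner_smul_right, real_inner_comm, horth]
      ring
    simp only [inner_neg_right, hPe, pA_neg] at h2 h3
    have h4 : pA p P X + pA p P Y ≤ 0 := by
      have h5 := pA_sum_le hp (P := P) (X := X) (Y := Y) (δ := 0) (fun v => by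
        have := hXY v v
        rw [INV_B_apply, sub_self, norm_zero] at this
        linarith)
      linarith
    set a : ℝ := (1 / M) ^ (p - 2) * (1 / M) with ha
    have haM : a * M ^ (p - 1) = 1 := by
      have e1 : M ^ (p - 1) = M ^ (p - 2) * M := by
        have : p - 1 = (p - 2) + 1 := by ring
        rw [this, Real.rpow_add hM, Real.rpow_one]
      rw [ha, e1, Real.div_rpow zero_le_one hM.le, Real.one_rpow]
      have := Real.rpow_pos_of_pos hM (p - 2)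
      field_simp
    have h5 : ka p * Φ y0 ≤ a * pA p P Y := by
      have e1 : 1 / M * (-0 + ka p * -(M * Φ y0)) = -(ka p * Φ y0) := by
        field_simp
        ring
      rw [e1] at h3
      linarith
    have h6 : -(ka p * u x0) ≤ pA p P X := by linarith
    have h7 : ka p * Φ y0 * M ^ (p - 1) ≤ pA p P Y := by
      have h8 := mul_le_mul_of_nonneg_right h5 hMp.le
      have e1 : a * pA p P Y * M ^ (p - 1) = pA p P Y := by
        calc a * pA p P Y * M ^ (p - 1) = (a * M ^ (p - 1)) * pA p P Y := by ring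
          _ = pA p P Y := by rw [haM, one_mul]
      rwa [e1] at h8
    have h8 : Φ y0 * M ^ (p - 1) ≤ u x0 := by
      have h9 : ka p * (Φ y0 * M ^ (p - 1)) ≤ ka p * u x0 := by linarith
      exact le_of_mul_le_mul_left h9 hκ
    have h9 := h1 x0
    have h10 := (abs_lt.1 hΦd).2
    have h11 : (M ^ (p - 1) - M1) * Φ x0 ≤ M ^ (p - 1) * (Φ x0 - Φ y0) := by linarith
    have h12 : M ^ (p - 1) * (Φ x0 - Φ y0) ≤ M ^ (p - 1) * ε :=
      mul_le_mul_of_nonneg_left h10.le hMp.le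
    have h13 : (M ^ (p - 1) - M1) * (m0 / M1) ≤ (M ^ (p - 1) - M1) * Φ x0 :=
      mul_le_mul_of_nonneg_left hΦx0 (by linarith)
    rw [← hεm] at h13
    have h14 : 0 < ε * M ^ (p - 1) := by positivity
    linarith

theorem inv_cmp (hp : 2 < p) (hΩ : Tube e r0 Ω) (hΦ : Prof p c e Ω Φ) (hpos : ∀ x ∈ Ω, 0 < Φ x)
    {u : E n → ℝ} (hu : Sub p (c • e) (ka p) u) (hoff : ∀ x ∉ Ω, u x = 0)
    (hinv : ∀ x, ∀ t : ℝ, u (x + t • e) = u x) {M : ℝ} (hM : ∀ x, u x ≤ M * Φ x) :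
    ∀ x, u x ≤ Φ x := by
  set S : Set ℝ := {t | 1 ≤ t ∧ ∀ x, u x ≤ t * Φ x} with hS
  have hne : S.Nonempty := by
    refine ⟨max M 1, le_max_right _ _, fun x => (hM x).trans ?_⟩
    exact mul_le_mul_of_nonneg_right (le_max_left _ _) (hΦ.nn x)
  have hbdd : BddBelow S := ⟨1, fun t ht => ht.1⟩
  set T : ℝ := sInf S with hT
  have hT1 : 1 ≤ T := le_csInf hne fun t ht => ht.1
  have hTS : ∀ x, u x ≤ T * Φ x := by
    intro x
    rcases (hΦ.nn x).eq_or_lt with h0 | h0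
    · obtain ⟨t, ht⟩ := hne
      have := ht.2 x
      rw [← h0, mul_zero] at this ⊢
      exact this
    · rw [← div_le_iff₀ h0]
      refine le_csInf hne fun t ht => ?_
      rw [div_le_iff₀ h0]
      exact ht.2 x
  rcases hT1.eq_or_lt with h1 | h1
  · intro x
    have := hTS x
    rwa [← h1, one_mul] at this
  · exfalso
    have hT0 : 0 < T := by linarith
    -- choose `t` between
    have hlt : T ^ (1 / (p - 1)) < T := by
      have h2 : 1 / (p - 1) < 1 := by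
        rw [div_lt_one (by linarith)]
        linarith
      calc T ^ (1 / (p - 1)) < T ^ (1 : ℝ) := Real.rpow_lt_rpow_of_exponent_lt h1 h2
        _ = T := Real.rpow_one T
    have hgt : 1 < T ^ (1 / (p - 1)) := Real.one_lt_rpow h1 (by
      apply one_div_pos.2
      linarith)
    obtain ⟨t, ht1, ht2⟩ := exists_between hlt
    have ht0 : 0 < t := by linarith
    have htp : T < t ^ (p - 1) := by
      have h3 := Real.rpow_lt_rpow (by linarith) ht1 (show 0 < p - 1 by linarith)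
      rwa [← Real.rpow_mul hT0.le, one_div_mul_cancel (by linarith), Real.rpow_one] at h3
    have h4 := INV_step hp hΩ hΦ hu hoff hinv hT0 hTS ht0 htp
    have h5 : T ≤ t := csInf_le hbdd ⟨by linarith, h4⟩
    linarith

end Pool.Agent.TWC
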