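import Pool.Agent.TWC.GEO
import Pool.Agent.TWC.KE

/-!
# TWC NRM: the gradient near the wall where `k d ≤ W ≤ C d`

`W` QS on `S ⊇ Ω ∩ ball w0 ρ`, `w0 ∈ frontier Ω`, `k d ≤ W ≤ C d` on `Ω ∩ ball w0 ρ`, `d = dw Ω`. For
`x = w + d ν` close to `w0` (as in `near`), `P` with `Gd p S W x P`: `<P,ν> ≥ c'`, `|P| ≤ C'` and the
tangential part satisfies `|P - <P,ν> ν| ≤ C' sqrt d`.

Proof. `g = W^q`, `Γ = q W^(q-1) P` supergradient of `g` on `S`; `P = m W^(1-q) Γ` (`m = 1/q`). Let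
`|x - w0| < ρ'` with `ρ'` small (`ρ' ≤ ρ/(4(K+1))`, `ρ' ≤ r0/(4(K+1))`, `K` below), `d = dw x ≤ ρ'`.
(upper, normal) for `0 < ε < d`, `y = w + ε ν ∈ Ω ∩ ball w0 ρ` (`|w-w0| ≤ 2|x-w0|`):
`0 ≤ g y ≤ g x - (d-ε)<Γ,ν>`, `ε → 0`: `<Γ,ν> ≤ g x/d`, so `<P,ν> ≤ m W/d ≤ m C`.
(lower, normal) `K` with `(k (K+1))^q ≥ 2 C^q`, `K ≥ 1`. `y = w + (K+1) d ν`, `dw y = (K+1) d`
(`dw_normal`, `(K+1)d ≤ r0`): `(k(K+1)d)^q ≤ g y ≤ g x + K d <Γ,ν> ≤ (C d)^q + K d <Γ,ν>`, so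
`<Γ,ν> ≥ (C d)^q/(K d)`, and `<P,ν> ≥ m (k d)^(1-q) C^q d^(q-1)/K = c'`.
(tangential) let `T ⊥ ν`, `|T| = 1`, `s = sqrt(r0 d)/2`. `y = x - s T`: `dw y ≥ d/2 > 0` (`dw_tang`), so
`y ∈ Ω ∩ ball w0 ρ` for `ρ'` small, `0 ≤ g y ≤ g x - s <Γ,T>`, so `<Γ,T> ≤ g x/s ≤ (Cd)^q 2/sqrt(r0 d)` and
`<P,T> ≤ m (C d)^(1-q) (C d)^q 2/sqrt(r0 d) = C'' sqrt d`. Take `T` the normalised tangential part.
`|P|` is bounded by the sum.
-/

open Set Metric Filter Topology
open scoped RealInnerProductSpace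

noncomputable section

namespace Pool.Agent.TWC

variable {n : ℕ} {p : ℝ} {b : E n} {κ : ℝ} {S : Set (E n)} {W : E n → ℝ}

private theorem NRM_key {a b t q : ℝ} (ha : 0 < a) (hb : 0 ≤ b)
    (h : b ^ q ≤ a ^ q + q * a ^ (q - 1) * t) : 0 ≤ a + q * t := by
  have h1 : 0 < a ^ (q - 1) := Real.rpow_pos_of_pos ha _
  have h2 : a ^ q = a ^ (q - 1) * a := by
    rw [← Real.rpow_add_one ha.ne']
    congr 1
    ring
  have h3 : 0 ≤ b ^ q := Real.rpow_nonneg hb _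
  rw [h2] at h
  have h4 : 0 ≤ a ^ (q - 1) * (a + q * t) := by
    calc 0 ≤ b ^ q := h3
      _ ≤ a ^ (q - 1) * a + q * a ^ (q - 1) * t := h
      _ = a ^ (q - 1) * (a + q * t) := by ring
  exact nonneg_of_mul_nonneg_right h4 h1

private theorem NRM_key2 {a b t q : ℝ} (ha : 0 < a)
    (h : b ^ q ≤ a ^ q + q * a ^ (q - 1) * t) (h' : 2 * a ^ q ≤ b ^ q) : a ≤ q * t := by
  have h1 : 0 < a ^ (q - 1) := Real.rpow_pos_of_pos ha _
  have h2 : a ^ q = a ^ (q - 1) * a := by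
    rw [← Real.rpow_add_one ha.ne']
    congr 1
    ring
  rw [h2] at h h'
  have h4 : a ^ (q - 1) * a ≤ a ^ (q - 1) * (q * t) := by
    have : q * a ^ (q - 1) * t = a ^ (q - 1) * (q * t) := by ring
    linarith
  exact le_of_mul_le_mul_left h4 h1

theorem nrm (hp : 2 < p) {e : E n} {r0 : ℝ} {Ω : Set (E n)} (hΩ : Tube e r0 Ω)
    (hQ : QS p b κ S W) {w0 : E n} (hw0 : w0 ∈ frontier Ω) {ρ k C : ℝ} (hρ : 0 < ρ) (hk : 0 < k)
    (hS : Ω ∩ ball w0 ρ ⊆ S) (h1 : ∀ x ∈ Ω ∩ ball w0 ρ, k * dw Ω x ≤ W x)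
    (h2 : ∀ x ∈ Ω ∩ ball w0 ρ, W x ≤ C * dw Ω x) :
    ∃ ρ' c' C' : ℝ, 0 < ρ' ∧ ρ' ≤ ρ ∧ 0 < c' ∧ 0 < C' ∧ ∀ x ∈ Ω ∩ ball w0 ρ', ∀ w ν : E n,
      w ∈ frontier Ω → ‖ν‖ = 1 → ball (w + r0 • ν) r0 ⊆ Ω → x = w + dw Ω x • ν →
      ∀ P, Gd p S W x P →
        c' ≤ ⟪P, ν⟫ ∧ ‖P‖ ≤ C' ∧ ‖P - ⟪P, ν⟫ • ν‖ ≤ C' * Real.sqrt (dw Ω x) := by
  have hr0 := hΩ.r0pos
  have hw0n : w0 ∉ Ω := by
    have := hw0
    rw [hΩ.isOpen.frontier_eq] at this
    exact this.2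
  have hne : (Ωᶜ).Nonempty := ⟨w0, hw0n⟩
  have hq0 : 0 < qq p := by
    unfold qq
    exact div_pos (by linarith) (by linarith)
  -- C ≥ k > 0
  have hC : 0 < C := by
    have hw0' : w0 ∈ closure Ω := frontier_subset_closure hw0
    obtain ⟨x, hx, hx'⟩ := Metric.mem_closure_iff.1 hw0' ρ hρ
    have hxb : x ∈ Ω ∩ ball w0 ρ := ⟨hx, by rw [mem_ball, dist_comm]; exact hx'⟩
    have hd := (dw_pos hΩ hne).2 hx
    have h3 := h1 x hxb
    have h4 := h2 x hxb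
    have h5 : 0 < k * dw Ω x := mul_pos hk hd
    by_contra hc
    push Not at hc
    nlinarith
  -- K
  obtain ⟨K, hK1, hK2⟩ : ∃ K : ℝ, 1 ≤ K ∧ 2 * C ^ qq p ≤ (k * (K + 1)) ^ qq p := by
    refine ⟨max 1 ((2 : ℝ) ^ (1 / qq p) * C / k), le_max_left _ _, ?_⟩
    have h3 : (2 : ℝ) ^ (1 / qq p) * C ≤ k * (max 1 ((2 : ℝ) ^ (1 / qq p) * C / k) + 1) := by
      have h4 : (2 : ℝ) ^ (1 / qq p) * C / k ≤ max 1 ((2 : ℝ) ^ (1 / qq p) * C / k) + 1 := by
        linarith [le_max_right 1 ((2 : ℝ) ^ (1 / qq p) * C / k)]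
      rw [div_le_iff₀ hk] at h4
      linarith
    have h5 : 2 * C ^ qq p = ((2 : ℝ) ^ (1 / qq p) * C) ^ qq p := by
      rw [Real.mul_rpow (by positivity) hC.le, ← Real.rpow_mul (by norm_num),
        one_div_mul_cancel hq0.ne', Real.rpow_one]
    rw [h5]
    exact Real.rpow_le_rpow (by positivity) h3 hq0.le
  have hK0 : 0 < K := by linarith
  set q := qq p with hqdef
  set A : ℝ := 2 * C / q with hA
  set B : ℝ := 2 * C / (q * Real.sqrt r0) with hB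
  have hsr0 : 0 < Real.sqrt r0 := Real.sqrt_pos.2 hr0
  have hA0 : 0 < A := by positivity
  have hB0 : 0 < B := by positivity
  refine ⟨min (ρ / (K + 3)) (min (r0 / (K + 1)) (ρ ^ 2 / r0)), k / (q * K),
    A + B * Real.sqrt r0 + B, by positivity, ?_, by positivity, by positivity, ?_⟩
  · refine (min_le_left _ _).trans ?_
    rw [div_le_iff₀ (by linarith)]
    nlinarith
  rintro x ⟨hxΩ, hxb⟩ w ν hw hν hb hxw P hP
  set ρ' : ℝ := min (ρ / (K + 3)) (min (r0 / (K + 1)) (ρ ^ 2 / r0)) with hρ'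
  have hρ1 : (K + 3) * ρ' ≤ ρ := by
    have := min_le_left (ρ / (K + 3)) (min (r0 / (K + 1)) (ρ ^ 2 / r0))
    rw [← hρ', le_div_iff₀ (by linarith)] at this
    linarith
  have hρ2 : (K + 1) * ρ' ≤ r0 := by
    have := (min_le_right (ρ / (K + 3)) (min (r0 / (K + 1)) (ρ ^ 2 / r0))).trans (min_le_left _ _)
    rw [← hρ', le_div_iff₀ (by linarith)] at this
    linarith
  have hρ3 : ρ' * r0 ≤ ρ ^ 2 := by
    have := (min_le_right (ρ / (K + 3)) (min (r0 / (K + 1)) (ρ ^ 2 / r0))).trans (min_le_right _ _)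
    rwa [← hρ', le_div_iff₀ hr0] at this
  set d := dw Ω x with hd
  have hd0 : 0 < d := (dw_pos hΩ hne).2 hxΩ
  have hxw0 : ‖x - w0‖ < ρ' := by rwa [mem_ball, dist_eq_norm] at hxb
  have hdr : d < ρ' := by
    refine lt_of_le_of_lt ?_ hxw0
    rw [← dist_eq_norm]
    exact infDist_le_dist_of_mem hw0n
  have hρ'0 : 0 < ρ' := hd0.trans hdr
  have hxρ : x ∈ Ω ∩ ball w0 ρ := ⟨hxΩ, by
    rw [mem_ball, dist_eq_norm]
    nlinarith⟩
  have hW1 := h1 x hxρ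
  have hW2 := h2 x hxρ
  have hWx : 0 < W x := lt_of_lt_of_le (mul_pos hk hd0) hW1
  have hww0 : ‖w - w0‖ < 2 * ρ' := by
    have e1 : w - w0 = (x - w0) - d • ν := by
      nth_rewrite 1 [hxw]
      abel
    rw [e1]
    refine (norm_sub_le _ _).trans_lt ?_
    rw [norm_smul, hν, mul_one, Real.norm_eq_abs, abs_of_pos hd0]
    linarith
  have hνν : ⟪ν, ν⟫ = (1 : ℝ) := by
    rw [real_inner_self_eq_norm_sq, hν]
    norm_num
  -- points on the normal
  have hnorm : ∀ t : ℝ, 0 < t → t ≤ (K + 1) * d → (w + t • ν ∈ Ω ∩ ball w0 ρ) ∧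
      dw Ω (w + t • ν) = t ∧ w + t • ν - x = (t - d) • ν := by
    intro t ht ht'
    have ht2 : t ≤ r0 := by nlinarith
    have h3 := dw_normal hΩ hw hν hb ht.le ht2
    refine ⟨⟨(dw_pos hΩ hne).1 (by rw [h3]; exact ht), ?_⟩, h3, ?_⟩
    · rw [mem_ball, dist_eq_norm]
      have e1 : w + t • ν - w0 = (w - w0) + t • ν := by abel
      rw [e1]
      refine (norm_add_le _ _).trans_lt ?_
      rw [norm_smul, hν, mul_one, Real.norm_eq_abs, abs_of_pos ht]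
      nlinarith
    · nth_rewrite 1 [hxw]
      rw [sub_smul]
      abel
  -- upper normal
  have hup : ⟪P, ν⟫ ≤ A := by
    obtain ⟨h3, h4, h5⟩ := hnorm (d / 2) (by linarith) (by nlinarith)
    have h6 := hP _ (hS h3)
    rw [h5, real_inner_smul_right] at h6
    have h7 := NRM_key hWx ((mul_nonneg hk.le (dw_nonneg _)).trans (h1 _ h3)) h6
    rw [hA, le_div_iff₀ hq0]
    nlinarith
  -- lower normal
  have hlow : k / (q * K) ≤ ⟪P, ν⟫ := by
    obtain ⟨h3, h4, h5⟩ := hnorm ((K + 1) * d) (by positivity) le_rfl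
    have h6 := hP _ (hS h3)
    rw [h5, real_inner_smul_right] at h6
    have h8 : 2 * W x ^ q ≤ W (w + ((K + 1) * d) • ν) ^ q := by
      have h9 : W x ^ q ≤ (C * d) ^ q := Real.rpow_le_rpow hWx.le hW2 hq0.le
      have h10 : (k * (K + 1) * d) ^ q ≤ W (w + ((K + 1) * d) • ν) ^ q := by
        refine Real.rpow_le_rpow (by positivity) ?_ hq0.le
        have := h1 _ h3
        rw [h4] at this
        linarith
      rw [Real.mul_rpow (by positivity) hd0.le] at h9 h10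
      have h11 : 0 < d ^ q := Real.rpow_pos_of_pos hd0 _
      nlinarith
    have h7 := NRM_key2 hWx h6 h8
    rw [div_le_iff₀ (by positivity)]
    have h12 : k * d ≤ q * (((K + 1) * d - d) * ⟪P, ν⟫) := hW1.trans h7
    have h13 : q * (((K + 1) * d - d) * ⟪P, ν⟫) = ⟪P, ν⟫ * (q * K) * d := by ring
    rw [h13] at h12
    exact le_of_mul_le_mul_right h12 hd0
  -- tangential
  set V : E n := P - ⟪P, ν⟫ • ν with hV
  have hVν : ⟪V, ν⟫ = 0 := by
    rw [hV, inner_sub_left, real_inner_smul_left, hνν]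
    ring
  have htan : ‖V‖ ≤ B * Real.sqrt d := by
    by_cases hV0 : V = 0
    · rw [hV0, norm_zero]
      positivity
    have hVn : 0 < ‖V‖ := norm_pos_iff.2 hV0
    set T : E n := (1 / ‖V‖) • V with hT
    have hTn : ‖T‖ = 1 := by
      rw [hT, norm_smul, Real.norm_eq_abs, abs_of_pos (by positivity), one_div_mul_cancel hVn.ne']
    have hTν : ⟪T, ν⟫ = 0 := by
      rw [hT, real_inner_smul_left, hVν, mul_zero]
    have hPT : ⟪P, T⟫ = ‖V‖ := by
      have e1 : P = V + ⟪P, ν⟫ • ν := by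
        rw [hV]
        abel
      have e2 : ⟪P, T⟫ = ⟪V, T⟫ := by
        nth_rewrite 1 [e1]
        rw [inner_add_left, real_inner_smul_left, real_inner_comm T ν, hTν, mul_zero, add_zero]
      rw [e2, hT, real_inner_smul_right, real_inner_self_eq_norm_sq]
      field_simp
    set s : ℝ := Real.sqrt (r0 * d) / 2 with hs
    have hs0 : 0 < s := by positivity
    have hs2 : s ^ 2 = r0 * d / 4 := by
      rw [hs, div_pow, Real.sq_sqrt (by positivity)]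
      norm_num
    have hdr2 : d ≤ r0 / 2 := by nlinarith
    have h3 := dw_tang hΩ hw hν hb (T := -T) (by rw [norm_neg, hTn])
      (by rw [inner_neg_left, hTν, neg_zero]) hd0 hdr2 (s := s) (by rw [hs2])
    have h4 : w + d • ν + s • (-T) = x - s • T := by
      rw [smul_neg, ← hxw]
      abel
    rw [h4] at h3
    have h5 : x - s • T ∈ Ω ∩ ball w0 ρ := by
      refine ⟨(dw_pos hΩ hne).1 (by linarith), ?_⟩
      rw [mem_ball, dist_eq_norm]
      have e1 : x - s • T - w0 = (x - w0) - s • T := by abel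
      rw [e1]
      refine (norm_sub_le _ _).trans_lt ?_
      rw [norm_smul, hTn, mul_one, Real.norm_eq_abs, abs_of_pos hs0]
      have h6 : s ≤ ρ / 2 := by
        apply le_of_sq_le_sq _ (by linarith)
        rw [hs2]
        nlinarith
      nlinarith
    have h6 := hP _ (hS h5)
    have e2 : x - s • T - x = -(s • T) := by abel
    rw [e2, inner_neg_right, real_inner_smul_right, hPT] at h6
    have h7 := NRM_key hWx ((mul_nonneg hk.le (dw_nonneg _)).trans (h1 _ h5)) h6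
    -- q s ‖V‖ ≤ C d
    have h8 : q * (s * ‖V‖) ≤ C * d := by nlinarith
    have h9 : Real.sqrt (r0 * d) = Real.sqrt r0 * Real.sqrt d := Real.sqrt_mul hr0.le d
    have h10 : d = Real.sqrt d * Real.sqrt d := (Real.mul_self_sqrt hd0.le).symm
    have hsd : 0 < Real.sqrt d := Real.sqrt_pos.2 hd0
    have h11 : ‖V‖ * (q * Real.sqrt r0) * Real.sqrt d ≤ 2 * C * Real.sqrt d * Real.sqrt d := by
      have e3 : q * (s * ‖V‖) = ‖V‖ * (q * Real.sqrt r0) * Real.sqrt d / 2 := by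
        rw [hs, h9]
        ring
      rw [e3] at h8
      have e4 : C * d = C * Real.sqrt d * Real.sqrt d := by
        nth_rewrite 1 [h10]
        ring
      rw [e4] at h8
      linarith
    have h12 := le_of_mul_le_mul_right h11 hsd
    rw [hB, div_mul_eq_mul_div, le_div_iff₀ (by positivity)]
    exact h12
  have hdr0 : Real.sqrt d ≤ Real.sqrt r0 := by
    apply Real.sqrt_le_sqrt
    nlinarith
  refine ⟨hlow, ?_, ?_⟩
  · have h3 : ‖P‖ ≤ ‖V‖ + ‖⟪P, ν⟫ • ν‖ := by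
      have e1 : P = V + ⟪P, ν⟫ • ν := by
        rw [hV]
        abel
      nth_rewrite 1 [e1]
      exact norm_add_le _ _
    have h4 : ‖⟪P, ν⟫ • ν‖ ≤ A := by
      have h5 : 0 ≤ ⟪P, ν⟫ := le_trans (by positivity) hlow
      rw [norm_smul, hν, mul_one, Real.norm_eq_abs, abs_of_nonneg h5]
      exact hup
    have h6 : B * Real.sqrt d ≤ B * Real.sqrt r0 := mul_le_mul_of_nonneg_left hdr0 hB0.le
    linarith
  · refine htan.trans ?_
    apply mul_le_mul_of_nonneg_right _ (Real.sqrt_nonneg _)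
    have : 0 < B * Real.sqrt r0 := by positivity
    linarith

end Pool.Agent.TWC
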