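import Pool.Agent.TWC.JTA
import Pool.Agent.TWC.PAL

/-!
# TWC PER: upper semicontinuous envelopes; suprema of families of subsolutions

`uenv f x = inf {a | f ≤ a near x}`, for `f` bounded (`0 ≤ f ≤ C`).
* `le_uenv`, `uenv_le_of`: from the definition (the set is bounded below by `f x`, resp. by `0`, and
  contains `C`).
* `uenv_usc`: if `uenv f x < a` there are `a' < a`, `r > 0` with `f ≤ a'` on `ball x r`; for
  `y ∈ ball x r`: `uenv f y ≤ a' < a`.
* `uenv_seq`: for every `δ > 0` there is `y` with `|y-x| < δ`, `f y > uenv f x - δ`.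

`per`: let `W x = sSup {w x | w ∈ F}` and `Ws = uenv W`. Let `x ∈ O` (open), `UJ Ws x P X`, `ε > 0`,
`ϕ y = Ws x + <P,y-x> + 1/2 X (y-x)(y-x) + 2 ε |y-x|^2`, `r > 0` with `Ws y ≤ ϕ y - ε|y-x|^2` for
`|y-x| ≤ r`, `closedBall x r ⊆ O`. For `k` choose `y_k → x` and `w_k ∈ F` with `w_k y_k ≥ Ws x - 1/k`.
Let `z_k` be a maximum point of the usc function `w_k - ϕ` on `closedBall x r`. As `w_k ≤ W ≤ Ws`:
`o(1) ≤ (w_k - ϕ) y_k ≤ (w_k - ϕ) z_k ≤ - ε |z_k - x|^2`, so `z_k → x` and `w_k z_k → Ws x`. For large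
`k`, `z_k` is interior, `UJ w_k z_k P_k (X + 4 ε ip)` with `P_k → P` (gradient of the quadratic
polynomial `ϕ` at `z_k`, see STAB for the non symmetric `X`), so
`0 ≤ pA p P_k (X + 4 ε ip) + <b,P_k> + κ w_k z_k`. Let `k → ∞`, then `ε → 0` (`pA_cont`).
-/

open Set Metric Filter Topology
open scoped RealInnerProductSpace

noncomputable section

namespace Pool.Agent.TWC

variable {n : ℕ} {p : ℝ} {b : E n} {κ : ℝ}

private theorem uset_bdd {f : E n → ℝ} (x : E n) :
    BddBelow {a | ∃ r > 0, ∀ y, ‖y - x‖ < r → f y ≤ a} := by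
  refine ⟨f x, ?_⟩
  rintro a ⟨r, hr, h⟩
  exact h x (by simpa using hr)

theorem le_uenv {f : E n → ℝ} (hf : ∃ C, ∀ x, f x ≤ C) (x : E n) : f x ≤ uenv f x := by
  obtain ⟨C, hC⟩ := hf
  refine le_csInf ⟨C, 1, one_pos, fun y _ => hC y⟩ ?_
  rintro a ⟨r, hr, h⟩
  exact h x (by simpa using hr)

theorem uenv_le_of {f : E n → ℝ} (h0 : ∀ x, 0 ≤ f x) {x : E n} {a : ℝ}
    (h : ∃ r > 0, ∀ y, ‖y - x‖ < r → f y ≤ a) : uenv f x ≤ a :=
  csInf_le (uset_bdd x) h

theorem uenv_usc {f : E n → ℝ} (h0 : ∀ x, 0 ≤ f x) (hf : ∃ C, ∀ x, f x ≤ C) :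
    UpperSemicontinuous (uenv f) := by
  intro x a ha
  obtain ⟨C, hC⟩ := hf
  obtain ⟨a', ⟨r, hr, h⟩, ha'⟩ := exists_lt_of_csInf_lt
    (⟨C, 1, one_pos, fun y _ => hC y⟩ : {a | ∃ r > 0, ∀ y, ‖y - x‖ < r → f y ≤ a}.Nonempty) ha
  have hb : ball x r ∈ 𝓝 x := ball_mem_nhds x hr
  filter_upwards [hb] with y hy
  rw [mem_ball, dist_eq_norm] at hy
  refine lt_of_le_of_lt (uenv_le_of h0 ⟨r - ‖y - x‖, by linarith, fun z hz => h z ?_⟩) ha'
  calc ‖z - x‖ = ‖(z - y) + (y - x)‖ := by congr 1; abel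
    _ ≤ ‖z - y‖ + ‖y - x‖ := norm_add_le _ _
    _ < r := by linarith

theorem uenv_seq {f : E n → ℝ} (h0 : ∀ x, 0 ≤ f x) (x : E n) {δ : ℝ} (hδ : 0 < δ) :
    ∃ y, ‖y - x‖ < δ ∧ uenv f x - δ < f y := by
  by_contra hcon
  push Not at hcon
  have := uenv_le_of h0 (x := x) ⟨δ, hδ, fun y hy => hcon y hy⟩
  linarith

/-- The gradient at `z` of the quadratic polynomial. -/
private def gradP (P x : E n) (X : Bil n) (e : ℝ) (z : E n) : E n :=
  P + (1 / 2 : ℝ) • (InnerProductSpace.toDual ℝ (E n)).symm (X (z - x) + X.flip (z - x))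
    + (4 * e) • (z - x)

private theorem gradP_cont (P x : E n) (X : Bil n) (e : ℝ) : Continuous (gradP P x X e) := by
  unfold gradP
  fun_prop

private theorem gradP_self (P x : E n) (X : Bil n) (e : ℝ) : gradP P x X e x = P := by
  simp [gradP]

private def quadP (c : ℝ) (P x : E n) (X : Bil n) (e : ℝ) (y : E n) : ℝ :=
  c + ⟪P, y - x⟫ + 1 / 2 * X (y - x) (y - x) + 2 * e * ‖y - x‖ ^ 2

private theorem quadP_cont (c : ℝ) (P x : E n) (X : Bil n) (e : ℝ) : Continuous (quadP c P x X e) := by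
  unfold quadP
  fun_prop

private def Xe (X : Bil n) (e : ℝ) : Bil n := X + (4 * e) • ip

private theorem quadP_exp (c : ℝ) (P x : E n) (X : Bil n) (e : ℝ) (z y : E n) :
    quadP c P x X e y = quadP c P x X e z + ⟪gradP P x X e z, y - z⟫
      + 1 / 2 * Xe X e (y - z) (y - z) := by
  unfold quadP gradP Xe
  have h1 : y - x = (y - z) + (z - x) := by abel
  rw [h1]
  generalize y - z = u
  generalize z - x = v
  have hd : ⟪(InnerProductSpace.toDual ℝ (E n)).symm (X v + X.flip v), u⟫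
      = X v u + X u v := by
    rw [InnerProductSpace.toDual_symm_apply]
    simp
  have hip : (ip : Bil n) u u = ‖u‖ ^ 2 := by
    unfold ip
    rw [innerSL_apply_apply, real_inner_self_eq_norm_sq]
  have hn : ‖u + v‖ ^ 2 = ‖u‖ ^ 2 + 2 * ⟪v, u⟫ + ‖v‖ ^ 2 := by
    rw [norm_add_sq_real, real_inner_comm]
  have hx1 : X (u + v) (u + v) = X u u + X u v + X v u + X v v := by
    rw [map_add]
    simp only [add_apply, map_add]
    ring
  have hx2 : (X + (4 * e) • (ip : Bil n)) u u = X u u + 4 * e * ‖u‖ ^ 2 := by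
    simp only [add_apply, smul_apply, smul_eq_mul, hip]
  rw [hx1, hx2, hn, inner_add_left, inner_add_left, real_inner_smul_left, real_inner_smul_left, hd,
    inner_add_right]
  ring

private theorem quadP_uj (c : ℝ) (P x : E n) (X : Bil n) (e : ℝ) (z : E n) :
    UJ (quadP c P x X e) z (gradP P x X e z) (Xe X e) := by
  intro ε hε
  refine ⟨1, one_pos, fun y _ => ?_⟩
  rw [quadP_exp c P x X e z y]
  have : 0 ≤ ε * ‖y - z‖ ^ 2 := by positivity
  linarith

private theorem pair_cont (Y : Bil n) : Continuous fun P : E n => ((P, Y) : E n × Bil n) := by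
  exact Continuous.prodMk continuous_id continuous_const

private theorem pA_cont_left (hp : 2 < p) (Y : Bil n) : Continuous fun P : E n => pA p P Y := by
  have h := (pA_cont (n := n) hp)
  have h2 := pair_cont Y
  have h3 := h.comp h2
  exact h3

private theorem theta_cont (hp : 2 < p) (Y : Bil n) (g : E n → E n) (hg : Continuous g) :
    Continuous fun zs : E n × ℝ => pA p (g zs.1) Y + ⟪b, g zs.1⟫ + κ * zs.2 := by
  have h1 : Continuous fun zs : E n × ℝ => g zs.1 := hg.comp continuous_fst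
  have h3 : Continuous fun zs : E n × ℝ => pA p (g zs.1) Y := (pA_cont_left hp Y).comp h1
  have h4 : Continuous fun zs : E n × ℝ => ⟪b, g zs.1⟫ := continuous_const.inner h1
  have h5 : Continuous fun zs : E n × ℝ => κ * zs.2 := continuous_const.mul continuous_snd
  exact (h3.add h4).add h5

theorem per (hp : 2 < p) {F : Set (E n → ℝ)} (hne : F.Nonempty) {C : ℝ}
    (hC : ∀ w ∈ F, ∀ x, w x ≤ C) (h0 : ∀ w ∈ F, ∀ x, 0 ≤ w x)
    (husc : ∀ w ∈ F, UpperSemicontinuous w) {O : Set (E n)} (hO : IsOpen O)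
    (hsb : ∀ w ∈ F, Sb p b κ O w) :
    Sb p b κ O (uenv fun x => sSup {a | ∃ w ∈ F, w x = a}) := by
  set W : E n → ℝ := fun x => sSup {a | ∃ w ∈ F, w x = a} with hW
  have hWb : ∀ x, BddAbove {a | ∃ w ∈ F, w x = a} := fun x => ⟨C, by
    rintro a ⟨w, hw, rfl⟩; exact hC w hw x⟩
  have hWn : ∀ x, {a | ∃ w ∈ F, w x = a}.Nonempty := fun x => by
    obtain ⟨w, hw⟩ := hne; exact ⟨w x, w, hw, rfl⟩
  have hleW : ∀ w ∈ F, ∀ x, w x ≤ W x := fun w hw x => le_csSup (hWb x) ⟨w, hw, rfl⟩
  have hWC : ∀ x, W x ≤ C := fun x => csSup_le (hWn x) (by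
    rintro a ⟨w, hw, rfl⟩; exact hC w hw x)
  have hW0 : ∀ x, 0 ≤ W x := fun x => by
    obtain ⟨w, hw⟩ := hne
    exact (h0 w hw x).trans (hleW w hw x)
  have hWs : ∀ x, W x ≤ uenv W x := le_uenv ⟨C, hWC⟩
  intro x hx P X hJ
  -- the inequality with a small parameter
  have key : ∀ e > 0, 0 ≤ pA p P (Xe X e) + ⟪b, P⟫ + κ * uenv W x := by
    intro e he
    by_contra hneg
    push Not at hneg
    set φ := quadP (uenv W x) P x X e with hφ
    have hφx : φ x = uenv W x := by simp [hφ, quadP]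
    have hφc : Continuous φ := quadP_cont _ _ _ _ _
    have hΘc := theta_cont (b := b) (κ := κ) hp (Xe X e) (gradP P x X e) (gradP_cont P x X e)
    have hΘx : (fun zs : E n × ℝ =>
        pA p (gradP P x X e zs.1) (Xe X e) + ⟪b, gradP P x X e zs.1⟫ + κ * zs.2)
          (x, uenv W x) < 0 := by
      simpa [gradP_self] using hneg
    have hev := (hΘc.tendsto (x, uenv W x)).eventually (gt_mem_nhds hΘx)
    obtain ⟨η, hη, hball⟩ := Metric.eventually_nhds_iff.1 hev
    obtain ⟨r0, hr0, hJ'⟩ := hJ e he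
    obtain ⟨r1, hr1, hr1O⟩ := Metric.isOpen_iff.1 hO x hx
    set r := min r0 r1 / 2 with hr
    have hrpos : 0 < r := by positivity
    have hrr0 : r < r0 := by
      have := min_le_left r0 r1
      have : 0 < min r0 r1 := lt_min hr0 hr1
      rw [hr]; linarith
    have hrr1 : r < r1 := by
      have := min_le_right r0 r1
      have : 0 < min r0 r1 := lt_min hr0 hr1
      rw [hr]; linarith
    -- upper bound of the envelope
    have hup : ∀ y, ‖y - x‖ ≤ r → uenv W y ≤ φ y - e * ‖y - x‖ ^ 2 := by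
      intro y hy
      have := hJ' y (by linarith)
      simp only [hφ, quadP]
      linarith
    obtain ⟨η1, hη1, hη1'⟩ := Metric.continuous_iff.1 hφc x (η / 2) (by positivity)
    set m := min (min η1 η) r with hm
    have hmpos : 0 < m := lt_min (lt_min hη1 hη) hrpos
    set ρ := min (η / 2) (e * m ^ 2) with hρ
    have hρpos : 0 < ρ := lt_min (by positivity) (by positivity)
    obtain ⟨δ1, hδ1, hδ1'⟩ := Metric.continuous_iff.1 hφc x (ρ / 2) (by positivity)
    set δ := min (min (ρ / 2) δ1) r with hδ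
    have hδpos : 0 < δ := lt_min (lt_min (by positivity) hδ1) hrpos
    obtain ⟨y, hy1, hy2⟩ := uenv_seq hW0 x hδpos
    obtain ⟨_, ⟨w, hwF, rfl⟩, hwy⟩ := exists_lt_of_lt_csSup (hWn y) hy2
    have hyr : y ∈ closedBall x r := by
      rw [mem_closedBall, dist_eq_norm]
      exact hy1.le.trans (min_le_right _ _)
    have husc' : UpperSemicontinuousOn (fun y => w y + -φ y) (closedBall x r) :=
      ((husc w hwF).add (hφc.neg.upperSemicontinuous)).upperSemicontinuousOn _
    obtain ⟨z, hzr, hz⟩ := UpperSemicontinuousOn.exists_isMaxOn ⟨y, hyr⟩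
      (isCompact_closedBall x r) husc'
    have hzmax : ∀ y ∈ closedBall x r, w y - φ y ≤ w z - φ z := fun y hy => by
      have := hz hy
      simp only [mem_ofPred_eq] at this
      linarith
    rw [mem_closedBall, dist_eq_norm] at hzr
    have hwz : w z ≤ φ z - e * ‖z - x‖ ^ 2 := ((hleW w hwF z).trans (hWs z)).trans (hup z hzr)
    have hdy : |φ y - φ x| < ρ / 2 := by
      have := hδ1' y (by rw [dist_eq_norm]; exact hy1.trans_le ((min_le_left _ _).trans (min_le_right _ _)))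
      rwa [Real.dist_eq] at this
    have hδρ : δ ≤ ρ / 2 := (min_le_left _ _).trans (min_le_left _ _)
    have hlow : -ρ < w y - φ y := by
      have := (abs_lt.1 hdy).2
      rw [hφx] at this
      linarith
    have hzy := hzmax y hyr
    have hz1 : e * ‖z - x‖ ^ 2 < ρ := by linarith
    have hz2 : ‖z - x‖ < m := by
      have h1 : e * ‖z - x‖ ^ 2 < e * m ^ 2 := hz1.trans_le (min_le_right _ _)
      have h2 : ‖z - x‖ ^ 2 < m ^ 2 := lt_of_mul_lt_mul_left h1 he.le
      exact lt_of_pow_lt_pow_left₀ 2 hmpos.le h2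
    have hz3 : ‖z - x‖ < r := hz2.trans_le (min_le_right _ _)
    have hz4 : |φ z - φ x| < η / 2 := by
      have := hη1' z (by rw [dist_eq_norm]; exact hz2.trans_le ((min_le_left _ _).trans (min_le_left _ _)))
      rwa [Real.dist_eq] at this
    have hz5 : ‖z - x‖ < η := hz2.trans_le ((min_le_left _ _).trans (min_le_right _ _))
    have hz6 : |w z - uenv W x| < η := by
      rw [← hφx]
      have h3 : ρ ≤ η / 2 := min_le_left _ _
      have h4 : 0 ≤ e * ‖z - x‖ ^ 2 := by positivity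
      obtain ⟨h5, h6⟩ := abs_lt.1 hz4
      rw [abs_lt]
      constructor <;> linarith
    have hjet : UJ w z (gradP P x X e z) (Xe X e) := by
      refine uj_of_max (quadP_uj (uenv W x) P x X e z) ⟨r - ‖z - x‖, by linarith, fun y' hy' => ?_⟩
      refine hzmax y' ?_
      rw [mem_closedBall, dist_eq_norm]
      calc ‖y' - x‖ = ‖(y' - z) + (z - x)‖ := by congr 1; abel
        _ ≤ ‖y' - z‖ + ‖z - x‖ := norm_add_le _ _
        _ ≤ r := by linarith
    have hzO : z ∈ O := hr1O (by rw [mem_ball, dist_eq_norm]; linarith)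
    have hfin := hsb w hwF z hzO _ _ hjet
    have hlt := hball (y := (z, w z)) (by
      rw [Prod.dist_eq, max_lt_iff, dist_eq_norm, Real.dist_eq]
      exact ⟨hz5, hz6⟩)
    simp only at hlt
    linarith
  -- let the parameter tend to zero
  have hlin : ∀ e > 0, 0 ≤ (pA p P X + ⟪b, P⟫ + κ * uenv W x) + e * (4 * pA p P ip) := by
    intro e he
    have := key e he
    rw [Xe, pA_form_add, pA_form_smul] at this
    linarith
  by_contra hneg
  push Not at hneg
  set A := pA p P X + ⟪b, P⟫ + κ * uenv W x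
  set B := 4 * pA p P (ip : Bil n)
  have hA : 0 < -A := by linarith
  have := hlin (-A / (2 * (|B| + 1))) (by positivity)
  have hB : -A / (2 * (|B| + 1)) * B ≤ -A / 2 := by
    rw [div_mul_eq_mul_div, div_le_div_iff₀ (by positivity) (by norm_num)]
    nlinarith [le_abs_self B, abs_nonneg B]
  linarith

end Pool.Agent.TWC
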