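import Pool.Agent.TWC.ENVB
import Pool.Agent.TWC.INV
import Pool.Agent.TWC.PHI

/-!
# TWC PHIQ: the profile is q-concave

`Φ^q` is concave on `Ω`. Let `0 < t < 1`, `K = closure Ω`, `w = env p K Φ t`.
* `Hcpt K Φ t`: given `x = t y + (1-t) z`, replace `y` by `y' = y + (h - <y,e>) e`, `h = <x,e>`, and `z` by
  `z' = z + (h - <z,e>) e`: still in `K`, `t y' + (1-t) z' = x` (heights: `h = t<y,e> + (1-t)<z,e>`), same
  values of `Φ`, and `|y' - h e| ≤ R` (bounded cross section), `|h| ≤ |x|`.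
* `hS`: `z ∈ K`, `Φ z = 0`: `z ∈ frontier Ω` (`Φ > 0` on `Ω` by `phi_lower`). With the normal `ν` at `z`,
  `x = z + s ν`, `s ≤ r0`: `Φ x ≥ k s > A s^m` for `s` small since `m > 1` (`dw_normal`).
* `env_sub` (`b = c e`, `κ = ka p`): `w` is a subsolution; `w = 0` off `Ω`: for `x ∉ closure Ω` there is no
  pair; for `x ∈ frontier Ω` and `t y + (1-t) z = x` with `y, z ∈ closure Ω`: by `half` (closed version) both
  `<y-x,ν> ≥ 0`, `<z-x,ν> ≥ 0` with weighted sum zero, so both vanish, so `y, z ∉ Ω`, `Φ y = Φ z = 0`.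
* `w` is invariant (translate pairs), `w ≤ C` (`env_le`), so `w ≤ C' dw` (`lin_wall`) `≤ (C'/k) Φ`.
* `inv_cmp`: `w ≤ Φ`. With `env_ge`: `(t Φ(y)^q + (1-t) Φ(z)^q)^m ≤ Φ(t y + (1-t) z)`; take powers `q`.
-/

open Set Metric Filter Topology
open scoped RealInnerProductSpace

noncomputable section

namespace Pool.Agent.TWC

variable {n : ℕ} {p c : ℝ} {e : E n} {r0 : ℝ} {Ω : Set (E n)} {Φ : E n → ℝ}

private theorem PHIQ_clinv (hΩ : Tube e r0 Ω) {x : E n} (hx : x ∈ closure Ω) (s : ℝ) :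
    x + s • e ∈ closure Ω :=
  map_mem_closure (f := fun z : E n => z + s • e) (by fun_prop) hx (fun z hz => hΩ.inv z hz s)

private theorem PHIQ_cross (hΩ : Tube e r0 Ω) : ∃ R, ∀ x ∈ closure Ω, ‖x - ⟪x, e⟫ • e‖ ≤ R := by
  obtain ⟨R, hR⟩ := hΩ.bdd
  have hc : Continuous fun x : E n => (⟪x, e⟫ : ℝ) := continuous_id.inner continuous_const
  refine ⟨R, fun x hx => ?_⟩
  have hcl : closure Ω ⊆ {x : E n | ‖x - (⟪x, e⟫ : ℝ) • e‖ ≤ R} := by
    refine closure_minimal (fun y hy => hR y hy) (isClosed_le ?_ continuous_const)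
    exact (continuous_id.sub (hc.smul continuous_const)).norm
  exact hcl hx

private theorem PHIQ_hcpt (hΩ : Tube e r0 Ω) (hΦ : Prof p c e Ω Φ) (t : ℝ) :
    Hcpt (closure Ω) Φ t := by
  intro R
  obtain ⟨R1, hR1⟩ := PHIQ_cross hΩ
  refine ⟨R1 + R, fun x hx y hy z hz hxyz => ?_⟩
  have hh : |(⟪x, e⟫ : ℝ)| ≤ R := by
    have := abs_real_inner_le_norm x e
    rw [hΩ.unit, mul_one] at this
    exact this.trans hx
  have key : ∀ y ∈ closure Ω, ‖y + (⟪x, e⟫ - ⟪y, e⟫) • e‖ ≤ R1 + R := by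
    intro y hy
    have e1 : y + (⟪x, e⟫ - ⟪y, e⟫) • e = (y - ⟪y, e⟫ • e) + ⟪x, e⟫ • e := by
      rw [sub_smul]
      abel
    rw [e1]
    refine (norm_add_le _ _).trans (add_le_add (hR1 y hy) ?_)
    rw [norm_smul, hΩ.unit, mul_one, Real.norm_eq_abs]
    exact hh
  refine ⟨y + (⟪x, e⟫ - ⟪y, e⟫) • e, PHIQ_clinv hΩ hy _, z + (⟪x, e⟫ - ⟪z, e⟫) • e,
    PHIQ_clinv hΩ hz _, ?_, key y hy, key z hz, (hΦ.inv _ _).ge, (hΦ.inv _ _).ge⟩
  have e2 : (⟪x, e⟫ : ℝ) = t * ⟪y, e⟫ + (1 - t) * ⟪z, e⟫ := by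
    rw [← hxyz, inner_add_left, real_inner_smul_left, real_inner_smul_left]
  have e3 : t • (y + (⟪x, e⟫ - ⟪y, e⟫) • e) + (1 - t) • (z + (⟪x, e⟫ - ⟪z, e⟫) • e) =
      (t • y + (1 - t) • z) + (⟪x, e⟫ - (t * ⟪y, e⟫ + (1 - t) * ⟪z, e⟫)) • e := by
    module
  rw [e3, ← e2, sub_self, zero_smul, add_zero, hxyz]

private theorem PHIQ_mm (hp : 2 < p) : 1 < mm p ∧ 0 < qq p ∧ mm p * qq p = 1 := by
  have h2 : 0 < p - 2 := by linarith
  have h3 : 0 < p := by linarith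
  refine ⟨?_, ?_, ?_⟩
  · unfold mm
    rw [lt_div_iff₀ h2]
    linarith
  · unfold qq
    positivity
  · unfold mm qq
    field_simp

private theorem PHIQ_hS (hp : 2 < p) (hc : 0 ≤ c) (hΩ : Tube e r0 Ω) (hne : (Ωᶜ).Nonempty)
    (hΦ : Prof p c e Ω Φ) : ∀ z ∈ closure Ω, Φ z = 0 → ∀ A > 0, ∀ r > 0,
      ∃ x, ‖x - z‖ < r ∧ A * ‖x - z‖ ^ mm p < Φ x := by
  intro z hz hz0 A hA r hr
  obtain ⟨k, hk, hlow⟩ := phi_lower hp hc hΩ hne hΦ
  have hzn : z ∉ Ω := by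
    intro hzΩ
    have h1 := (dw_pos hΩ hne).2 hzΩ
    have h2 := hlow z
    rw [hz0] at h2
    have := mul_pos hk h1
    linarith
  have hzf : z ∈ frontier Ω := by
    rw [hΩ.isOpen.frontier_eq]
    exact ⟨hz, hzn⟩
  obtain ⟨ν, hν, hb⟩ := hΩ.intball z hzf
  have hm := (PHIQ_mm hp).1
  have hm1 : 0 < mm p - 1 := by linarith
  have hlim : Tendsto (fun s : ℝ => A * s ^ (mm p - 1)) (𝓝[>] 0) (𝓝 (A * 0)) := by
    refine Tendsto.const_mul A ?_
    have h1 : ContinuousAt (fun s : ℝ => s ^ (mm p - 1)) 0 :=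
      Real.continuousAt_rpow_const _ _ (Or.inr hm1.le)
    have h2 := h1.tendsto
    simp only [Real.zero_rpow hm1.ne'] at h2
    exact h2.mono_left nhdsWithin_le_nhds
  rw [mul_zero] at hlim
  have ev1 := hlim.eventually_lt_const hk
  have ev2 : ∀ᶠ s in 𝓝[>] (0:ℝ), s < min r r0 :=
    mem_nhdsWithin_of_mem_nhds (Iio_mem_nhds (lt_min hr hΩ.r0pos))
  have ev3 : ∀ᶠ s in 𝓝[>] (0:ℝ), 0 < s := self_mem_nhdsWithin
  obtain ⟨s, hs1, hs2, hs3⟩ := (ev1.and (ev2.and ev3)).exists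
  have hn : ‖z + s • ν - z‖ = s := by
    rw [add_sub_cancel_left, norm_smul, hν, mul_one, Real.norm_eq_abs, abs_of_pos hs3]
  refine ⟨z + s • ν, ?_, ?_⟩
  · rw [hn]
    exact hs2.trans_le (min_le_left _ _)
  · rw [hn]
    have h1 := hlow (z + s • ν)
    rw [dw_normal hΩ hzf hν hb hs3.le (hs2.le.trans (min_le_right _ _))] at h1
    refine lt_of_lt_of_le ?_ h1
    have h2 : s ^ mm p = s ^ (mm p - 1) * s := by
      rw [← Real.rpow_add_one hs3.ne']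
      ring_nf
    rw [h2, ← mul_assoc]
    exact mul_lt_mul_of_pos_right hs1 hs3

private theorem PHIQ_inv (hΩ : Tube e r0 Ω) (hΦ : Prof p c e Ω Φ) (t : ℝ) (x : E n) (s : ℝ) :
    env p (closure Ω) Φ t (x + s • e) = env p (closure Ω) Φ t x := by
  unfold env
  congr 1
  ext a
  simp only [mem_setOf_eq]
  refine or_congr Iff.rfl ⟨?_, ?_⟩
  · rintro ⟨y, hy, z, hz, h1, h2⟩
    refine ⟨y + (-s) • e, PHIQ_clinv hΩ hy _, z + (-s) • e, PHIQ_clinv hΩ hz _, ?_, ?_⟩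
    · have e1 : t • (y + (-s) • e) + (1 - t) • (z + (-s) • e) =
          (t • y + (1 - t) • z) - s • e := by module
      rw [e1, h1]
      abel
    · rw [hΦ.inv, hΦ.inv]
      exact h2
  · rintro ⟨y, hy, z, hz, h1, h2⟩
    refine ⟨y + s • e, PHIQ_clinv hΩ hy _, z + s • e, PHIQ_clinv hΩ hz _, ?_, ?_⟩
    · have e1 : t • (y + s • e) + (1 - t) • (z + s • e) =
          (t • y + (1 - t) • z) + s • e := by module
      rw [e1, h1]
    · rw [hΦ.inv, hΦ.inv]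
      exact h2

private theorem PHIQ_off (hp : 2 < p) (hΩ : Tube e r0 Ω) (hΦ : Prof p c e Ω Φ) {t : ℝ}
    (ht : 0 < t) (ht1 : t < 1) (hb : ∃ C, ∀ x, Φ x ≤ C) :
    ∀ x ∉ Ω, env p (closure Ω) Φ t x = 0 := by
  intro x hx
  have hnn := env_nonneg (K := closure Ω) hp hΦ.nn hb ht ht1 x
  by_contra hne0
  have hpos : 0 < env p (closure Ω) Φ t x := lt_of_le_of_ne hnn (Ne.symm hne0)
  obtain ⟨y, hy, z, hz, h1, h2⟩ := env_attained hp isClosed_closure hΦ.nn hΦ.sub.usc hb ht ht1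
    (PHIQ_hcpt hΩ hΦ t) hpos
  have hxc : x ∈ closure Ω := by
    rw [← h1]
    exact hΩ.convex.closure hy hz ht.le (by linarith) (by ring)
  have hxf : x ∈ frontier Ω := by
    rw [hΩ.isOpen.frontier_eq]
    exact ⟨hxc, hx⟩
  obtain ⟨ν, hν, hbν⟩ := hΩ.intball x hxf
  have hcl : ∀ y ∈ closure Ω, 0 ≤ ⟪y - x, ν⟫ := by
    intro y hy
    have hsub : closure Ω ⊆ {y : E n | 0 ≤ ⟪y - x, ν⟫} := by
      refine closure_minimal (fun y hy => (half hΩ hxf hν hbν hy).le) (isClosed_le continuous_const ?_)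
      exact (continuous_id.sub continuous_const).inner continuous_const
    exact hsub hy
  have hy1 := hcl y hy
  have hz1 := hcl z hz
  have hsum : t * ⟪y - x, ν⟫ + (1 - t) * ⟪z - x, ν⟫ = 0 := by
    rw [← real_inner_smul_left, ← real_inner_smul_left, ← inner_add_left]
    have : t • (y - x) + (1 - t) • (z - x) = (t • y + (1 - t) • z) - x := by module
    rw [this, h1, sub_self, inner_zero_left]
  have ht2 : 0 < 1 - t := by linarith
  have hy0 : Φ y = 0 := by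
    refine hΦ.off y fun hyΩ => ?_
    have h3 := half hΩ hxf hν hbν hyΩ
    have h4 := mul_pos ht h3
    have h5 := mul_nonneg ht2.le hz1
    linarith
  have hz0 : Φ z = 0 := by
    refine hΦ.off z fun hzΩ => ?_
    have h3 := half hΩ hxf hν hbν hzΩ
    have h4 := mul_pos ht2 h3
    have h5 := mul_nonneg ht.le hy1
    linarith
  obtain ⟨hm, hq, -⟩ := PHIQ_mm hp
  rw [hy0, hz0, Real.zero_rpow hq.ne', mul_zero, mul_zero, add_zero,
    Real.zero_rpow (by linarith)] at h2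
  exact hne0 h2

theorem phi_q (hp : 2 < p) (hc : 0 ≤ c) (hΩ : Tube e r0 Ω) (hne : (Ωᶜ).Nonempty)
    (hΦ : Prof p c e Ω Φ) {y z : E n} (hy : y ∈ closure Ω) (hz : z ∈ closure Ω) {t : ℝ}
    (ht : 0 < t) (ht1 : t < 1) :
    t * Φ y ^ qq p + (1 - t) * Φ z ^ qq p ≤ Φ (t • y + (1 - t) • z) ^ qq p := by
  obtain ⟨C, hC, hCb⟩ := phi_bdd hΩ hΦ
  obtain ⟨k, hk, hlow⟩ := phi_lower hp hc hΩ hne hΦ
  have hb : ∃ C, ∀ x, Φ x ≤ C := ⟨C, hCb⟩
  have hka : 0 ≤ ka p := by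
    unfold ka
    have : 0 < p - 2 := by linarith
    positivity
  have hsub : Sub p (c • e) (ka p) (env p (closure Ω) Φ t) :=
    env_sub hp hka isClosed_closure hΦ.sub hb
      (fun x hx => hΦ.off x fun h => hx (subset_closure h)) ht ht1 (PHIQ_hcpt hΩ hΦ t)
      (PHIQ_hS hp hc hΩ hne hΦ)
  have hoff := PHIQ_off hp hΩ hΦ ht ht1 hb
  obtain ⟨C', hC', hlin⟩ := lin_wall (c := c) hp hΩ hne C
  have hw1 := hlin _ hsub hoff (fun x => env_le hp hΦ.nn hCb ht ht1 x)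
  have hpos : ∀ x ∈ Ω, 0 < Φ x := fun x hx =>
    lt_of_lt_of_le (mul_pos hk ((dw_pos hΩ hne).2 hx)) (hlow x)
  have hM : ∀ x, env p (closure Ω) Φ t x ≤ C' / k * Φ x := by
    intro x
    refine (hw1 x).trans ?_
    have h1 : C' * dw Ω x = C' / k * (k * dw Ω x) := by
      field_simp
    rw [h1]
    exact mul_le_mul_of_nonneg_left (hlow x) (by positivity)
  have hle := inv_cmp hp hΩ hΦ hpos hsub hoff (PHIQ_inv hΩ hΦ t) hM
  have hge := (env_ge hp hΦ.nn hb ht ht1 hy hz).trans (hle _)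
  obtain ⟨hm, hq, hmq⟩ := PHIQ_mm hp
  have hbase : 0 ≤ t * Φ y ^ qq p + (1 - t) * Φ z ^ qq p := by
    have h1 := Real.rpow_nonneg (hΦ.nn y) (qq p)
    have h2 := Real.rpow_nonneg (hΦ.nn z) (qq p)
    have h3 : 0 ≤ 1 - t := by linarith
    positivity
  have h1 := Real.rpow_le_rpow (Real.rpow_nonneg hbase _) hge hq.le
  rw [← Real.rpow_mul hbase, hmq, Real.rpow_one] at h1
  exact h1

end Pool.Agent.TWC
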