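import Pool.Agent.TWC.Defs
import Pool.Agent.VSC.Sum

/-!
# TWC SCS: the theorem on sums when the first function is semiconcave

Same as `sum2` (see `Pool.Agent.VSC.sums_inner` and `Pool.Agent.VSC.sums_gen`, whose proofs are to be
copied and adapted), with the extra conclusion `X a a ≤ (Λ + δ) |a|^2` when `u - Λ/2 |x|^2` is concave
on `closedBall x0 ρ`.

`E n` is an inner product space, so no coordinate change is needed. Reduction to the inner version: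
choose `r ≤ min ρ 1` from the hypothesis for `ε = δ/8`; on `K₁ = K₂ = closedBall 0 (r/2)` put
`u' ξ = u (x0 + ξ) - u x0 - <P,ξ>`, `v' ξ = w (y0 + ξ) - w y0 - <Q,ξ>`, and let `A` be the symmetric operator
on `WithLp 2 (E n × E n)` of the (symmetrised) form `B + 2 ε ip`.
Inner version: follow `sums_inner` verbatim but take `e` smaller so that `lam = 1/e + α` also
satisfies `lam > Λ'` and `Λ'^2/(lam - Λ') ≤ δ`, `Λ' = max Λ 0`. The form there is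
`X = H₁₁ - lam`, where `f (ζ + k) = f ζ + <qq,k> + 1/2 <H k,k> + o`, `f z = cf u lam m₁ z.fst + cf v lam m₂
z.snd`. Restricting to `k = i1 a`: `cf u lam m₁` has the second order expansion with Hessian `H₁₁` at
`ζ.fst`. New step: `ξ ↦ cf u lam m₁ ξ - lam^2/(2(lam - Λ')) |ξ|^2` is midpoint concave:
`cf u lam m ξ = max over x ∈ K₁ of (u x - Λ'/2 |x|^2) - (lam-Λ')/2 |x - (lam/(lam-Λ')) ξ|^2 +
lam^2/(2(lam-Λ')) |ξ|^2`
(complete the square; `cf_eq`, `IsSel`), and for the maximisers `x_± = m (ξ ± k)`, the midpoint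
`(x_+ + x_-)/2 ∈ K₁` (ball) gives
`cf (ξ+k) + cf (ξ-k) - 2 cf ξ ≤ lam^2/(lam-Λ') |k|^2`
(concavity of the first bracket, convexity of the square). Hence
`<H₁₁ k,k> ≤ lam^2/(lam-Λ') |k|^2` (divide by `t^2`, `k → t k`, `t → 0`) and
`<X k,k> ≤ (lam^2/(lam-Λ') - lam) |k|^2 = (Λ' + Λ'^2/(lam-Λ'))|k|^2 ≤ (Λ' + δ)|k|^2`.
(`u'` differs from `u` by an affine function, so it has the same semiconcavity constant; the
translation changes `|x|^2` by an affine function.)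
-/

open Set Metric Filter Topology
open scoped RealInnerProductSpace
open Pool.Agent.VSC WithLp

noncomputable section

namespace Pool.Agent.TWC

variable {n : ℕ}

private theorem SCS_semi {E : Type*} [NormedAddCommGroup E] [InnerProductSpace ℝ E] {K : Set E}
    {u : E → ℝ} {lam L' : ℝ} {m : E → E} (hm : IsSel K u lam m) (hp : 0 < lam - L')
    (hconc : ConcaveOn ℝ K (fun x => u x - L' / 2 * ‖x‖ ^ 2)) (ξ k : E) :
    cf u lam m (ξ + k) + cf u lam m (ξ - k) - 2 * cf u lam m ξ ≤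
      lam ^ 2 / (lam - L') * ‖k‖ ^ 2 := by
  set x₁ := m (ξ + k) with hx₁
  set x₂ := m (ξ - k) with hx₂
  have hx₁K : x₁ ∈ K := hm.1 _
  have hx₂K : x₂ ∈ K := hm.1 _
  have hmid : (1 / 2 : ℝ) • x₁ + (1 / 2 : ℝ) • x₂ ∈ K :=
    hconc.1 hx₁K hx₂K (by norm_num) (by norm_num) (by norm_num)
  have h1 := hconc.2 hx₁K hx₂K (by norm_num : (0 : ℝ) ≤ 1 / 2) (by norm_num : (0 : ℝ) ≤ 1 / 2)
    (by norm_num)
  set x₀ : E := (1 / 2 : ℝ) • x₁ + (1 / 2 : ℝ) • x₂ with hx₀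
  have h2 := hm.2 ξ x₀ hmid
  have e1 := cf_eq u lam m (ξ + k)
  have e2 := cf_eq u lam m (ξ - k)
  have e3 : cf u lam m ξ = u (m ξ) - lam / 2 * ‖m ξ - ξ‖ ^ 2 + lam / 2 * ‖ξ‖ ^ 2 := rfl
  rw [← hx₁] at e1
  rw [← hx₂] at e2
  have e4 : ‖x₀ - ξ‖ ^ 2 = ‖x₀‖ ^ 2 - 2 * ⟪x₀, ξ⟫ + ‖ξ‖ ^ 2 := norm_sub_sq_real _ _
  have e5 : ⟪x₀, ξ⟫ = 1 / 2 * ⟪x₁, ξ⟫ + 1 / 2 * ⟪x₂, ξ⟫ := by
    rw [hx₀, inner_add_left, real_inner_smul_left, real_inner_smul_left]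
  have e6 : ‖x₁‖ ^ 2 + ‖x₂‖ ^ 2 - 2 * ‖x₀‖ ^ 2 = 1 / 2 * ‖x₁ - x₂‖ ^ 2 := by
    have a1 : ‖x₀‖ ^ 2 = 1 / 4 * ‖x₁‖ ^ 2 + 1 / 2 * ⟪x₁, x₂⟫ + 1 / 4 * ‖x₂‖ ^ 2 := by
      rw [hx₀, norm_add_sq_real, norm_smul, norm_smul, real_inner_smul_left,
        real_inner_smul_right, Real.norm_eq_abs, abs_of_pos (by norm_num : (0 : ℝ) < 1 / 2)]
      ring
    rw [a1, norm_sub_sq_real]
    ring
  have e7 : ⟪x₁, ξ + k⟫ = ⟪x₁, ξ⟫ + ⟪x₁, k⟫ := inner_add_right _ _ _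
  have e8 : ⟪x₂, ξ - k⟫ = ⟪x₂, ξ⟫ - ⟪x₂, k⟫ := inner_sub_right _ _ _
  have e9 : ⟪x₁, k⟫ - ⟪x₂, k⟫ = ⟪x₁ - x₂, k⟫ := (inner_sub_left _ _ _).symm
  simp only [smul_eq_mul] at h1
  have h3 : ⟪x₁ - x₂, k⟫ ≤ ‖x₁ - x₂‖ * ‖k‖ := real_inner_le_norm _ _
  have h4 : lam * ⟪x₁ - x₂, k⟫ - (lam - L') / 4 * ‖x₁ - x₂‖ ^ 2 ≤
      lam ^ 2 / (lam - L') * ‖k‖ ^ 2 := by
    have a1 : 0 ≤ ‖(lam - L') • (x₁ - x₂) - (2 * lam) • k‖ ^ 2 := sq_nonneg _
    rw [norm_sub_sq_real, norm_smul, norm_smul, real_inner_smul_left, real_inner_smul_right,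
      Real.norm_eq_abs, Real.norm_eq_abs, mul_pow, mul_pow, sq_abs, sq_abs] at a1
    have a2 : lam ^ 2 / (lam - L') * ‖k‖ ^ 2 = lam ^ 2 * ‖k‖ ^ 2 / (lam - L') := by ring
    rw [a2, le_div_iff₀ hp]
    linear_combination (1 / 4) * a1
  rw [e1, e2, e3, e7, e8]
  rw [e4, e5] at h2
  linear_combination 2 * h1 + 2 * h2 + h4 + (-(lam - L') / 2) * e6 + lam * e9

/-- Theorem on sums for usc functions on compact subsets of inner product spaces, quadratic majorant. -/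
private theorem SCS_inner {E F : Type*} [NormedAddCommGroup E] [InnerProductSpace ℝ E]
    [NormedAddCommGroup F] [InnerProductSpace ℝ F] [FiniteDimensional ℝ E] [FiniteDimensional ℝ F]
    {K₁ : Set E} {K₂ : Set F} (hK₁ : IsCompact K₁) (hK₂ : IsCompact K₂) (h0₁ : (0 : E) ∈ K₁)
    (h0₂ : (0 : F) ∈ K₂) {u : E → ℝ} {v : F → ℝ} (hu : UpperSemicontinuousOn u K₁) (hv : UpperSemicontinuousOn v K₂)
    (hu0 : u 0 = 0) (hv0 : v 0 = 0) {A : WithLp 2 (E × F) →L[ℝ] WithLp 2 (E × F)} (hA : ∀ a b, ⟪A a, b⟫ = ⟪a, A b⟫)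
    (h : ∀ x ∈ K₁, ∀ y ∈ K₂, u x + v y ≤ 1 / 2 * ⟪A (toLp 2 (x, y)), (toLp 2 (x, y) : WithLp 2 (E × F))⟫)
    {δ : ℝ} (hδ : 0 < δ) {L' : ℝ} (hL' : 0 ≤ L')
    (hconc : ConcaveOn ℝ K₁ (fun x => u x - L' / 2 * ‖x‖ ^ 2)) :
    ∃ x ∈ K₁, ∃ y ∈ K₂, ∃ (p : E) (q : F) (X : E →L[ℝ] E) (Y : F →L[ℝ] F),
      ‖x‖ < δ ∧ ‖y‖ < δ ∧ |u x| < δ ∧ |v y| < δ ∧ ‖p‖ < δ ∧ ‖q‖ < δ ∧
      (∀ a b, ⟪X a, b⟫ = ⟪a, X b⟫) ∧ (∀ a b, ⟪Y a, b⟫ = ⟪a, Y b⟫) ∧
      (∀ ε > 0, ∀ᶠ k in 𝓝 (0 : E), x + k ∈ K₁ → u (x + k) ≤ u x + ⟪p, k⟫ + 1 / 2 * ⟪X k, k⟫ + ε * ‖k‖ ^ 2) ∧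
      (∀ ε > 0, ∀ᶠ k in 𝓝 (0 : F), y + k ∈ K₂ → v (y + k) ≤ v y + ⟪q, k⟫ + 1 / 2 * ⟪Y k, k⟫ + ε * ‖k‖ ^ 2) ∧
      (∀ a b, ⟪X a, a⟫ + ⟪Y b, b⟫ ≤
        ⟪A (toLp 2 (a, b)), (toLp 2 (a, b) : WithLp 2 (E × F))⟫ + δ * (‖a‖ ^ 2 + ‖b‖ ^ 2)) ∧
      ∀ a, ⟪X a, a⟫ ≤ (L' + δ) * ‖a‖ ^ 2 := by
  set α : ℝ := ‖A‖ with hα
  have hα0 : 0 ≤ α := norm_nonneg A
  set e : ℝ := min (δ / (2 * (α ^ 2 + 1))) (1 / (L' + L' ^ 2 / δ + 1)) with he
  have he0 : 0 < e := lt_min (by positivity) (by positivity)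
  have heα : e * α ^ 2 ≤ δ / 2 := by
    have h1 : e ≤ δ / (2 * (α ^ 2 + 1)) := min_le_left _ _
    rw [le_div_iff₀ (by positivity)] at h1
    nlinarith
  set lam : ℝ := 1 / e + α with hlam
  have hlam0 : 0 < lam := by positivity
  have hlamL : L' + L' ^ 2 / δ + 1 ≤ lam := by
    have h1 : e ≤ 1 / (L' + L' ^ 2 / δ + 1) := min_le_right _ _
    have h2 : L' + L' ^ 2 / δ + 1 ≤ 1 / e := by
      rw [le_div_iff₀ (by positivity)] at h1 ⊢
      linarith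
    linarith
  have hLd : 0 ≤ L' ^ 2 / δ := by positivity
  have hlamp : 0 < lam - L' := by linarith
  obtain ⟨m₁, hm₁⟩ := exists_isSel hK₁ ⟨0, h0₁⟩ hu lam
  obtain ⟨m₂, hm₂⟩ := exists_isSel hK₂ ⟨0, h0₂⟩ hv lam
  have hs₁ := hm₁.subG hK₁
  have hs₂ := hm₂.subG hK₂
  set f : WithLp 2 (E × F) → ℝ := fun z => cf u lam m₁ z.fst + cf v lam m₂ z.snd with hf
  have hfG := subG_sum hs₁ hs₂
  set C : WithLp 2 (E × F) →L[ℝ] WithLp 2 (E × F) :=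
    A + e • (A.comp A) + lam • ContinuousLinearMap.id ℝ _ with hC
  have hCa : ∀ k, C k = A k + e • A (A k) + lam • k := fun k => rfl
  have hCs : ∀ a b, ⟪C a, b⟫ = ⟪a, C b⟫ := by
    intro a b
    rw [hCa, hCa, inner_add_left, inner_add_left, inner_add_right, inner_add_right, real_inner_smul_left,
      real_inner_smul_left, real_inner_smul_right, real_inner_smul_right, hA, hA, hA]
  have hCq : ∀ k, ⟪C k, k⟫ = ⟪A k, k⟫ + e * ‖A k‖ ^ 2 + lam * ‖k‖ ^ 2 := by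
    intro k
    rw [hCa, inner_add_left, inner_add_left, real_inner_smul_left, real_inner_smul_left, hA (A k) k,
      real_inner_self_eq_norm_sq, real_inner_self_eq_norm_sq]
  have hc0 : 0 ≤ cf u lam m₁ 0 := by
    have := hm₁.2 0 0 h0₁
    simp only [cf, sub_self, norm_zero] at this ⊢
    rw [hu0] at this
    linarith
  have hd0 : 0 ≤ cf v lam m₂ 0 := by
    have := hm₂.2 0 0 h0₂
    simp only [cf, sub_self, norm_zero] at this ⊢
    rw [hv0] at this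
    linarith
  have htouch : ∀ z, f z ≤ f 0 + 1 / 2 * ⟪C z, z⟫ := by
    intro z
    have h1 := h _ (hm₁.1 z.fst) _ (hm₂.1 z.snd)
    have h2 := quad_bound hA he0 (toLp 2 (m₁ z.fst, m₂ z.snd)) z
    have h3 : ‖(toLp 2 (m₁ z.fst, m₂ z.snd) : WithLp 2 (E × F)) - z‖ ^ 2 =
        ‖m₁ z.fst - z.fst‖ ^ 2 + ‖m₂ z.snd - z.snd‖ ^ 2 := prod_norm_sq_eq_of_L2 _
    have h4 : ‖z‖ ^ 2 = ‖z.fst‖ ^ 2 + ‖z.snd‖ ^ 2 := prod_norm_sq_eq_of_L2 _
    have h5 : f 0 = cf u lam m₁ 0 + cf v lam m₂ 0 := rfl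
    have h6 : f z = u (m₁ z.fst) - lam / 2 * ‖m₁ z.fst - z.fst‖ ^ 2 + lam / 2 * ‖z.fst‖ ^ 2 +
      (v (m₂ z.snd) - lam / 2 * ‖m₂ z.snd - z.snd‖ ^ 2 + lam / 2 * ‖z.snd‖ ^ 2) := rfl
    rw [← hα, ← hlam, h3] at h2
    rw [hCq, h4, h5, h6]
    nlinarith
  -- the bound for the values
  obtain ⟨Λ₁, hΛ₁⟩ := hs₁.bdd
  obtain ⟨Λ₂, hΛ₂⟩ := hs₂.bdd
  set Λ : ℝ := |Λ₁| + |Λ₂| with hΛ
  have hΛ0 : 0 ≤ Λ := by positivity
  set M : ℝ := 1 + lam + 1 / lam + Λ + α / lam ^ 2 with hM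
  have hM0 : 0 < M := by positivity
  set d : ℝ := min 1 (δ / M) with hd
  have hd0' : 0 < d := lt_min one_pos (by positivity)
  have hd1 : d ≤ 1 := min_le_left _ _
  have hdM : d * M ≤ δ := by
    have : d ≤ δ / M := min_le_right _ _
    rwa [le_div_iff₀ hM0] at this
  have hdM' : d + d * lam + d * (1 / lam) + d * Λ + d * (α / lam ^ 2) ≤ δ := by
    have : d * M = d + d * lam + d * (1 / lam) + d * Λ + d * (α / lam ^ 2) := by rw [hM]; ring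
    linarith
  obtain ⟨ζ, qq, H, hζ, hqq, hSq, hHs, -, hHle, hexp⟩ := exists_second_order hfG hCs htouch (half_pos hδ) hd0'
  set x := m₁ ζ.fst with hx
  set y := m₂ ζ.snd with hy
  have hSq' : lam • (toLp 2 (x, y) : WithLp 2 (E × F)) = qq := by
    rw [← hSq]; rfl
  have hz : ‖(toLp 2 (x, y) : WithLp 2 (E × F))‖ < d * (1 / lam) := by
    have h1 : lam * ‖(toLp 2 (x, y) : WithLp 2 (E × F))‖ < d := by
      rw [← hSq', norm_smul, Real.norm_eq_abs, abs_of_pos hlam0] at hqq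
      exact hqq
    rw [mul_one_div, lt_div_iff₀ hlam0]
    linarith
  have hp0 : 0 ≤ d * lam := by positivity
  have hp1 : 0 ≤ d * (1 / lam) := by positivity
  have hp2 : 0 ≤ d * Λ := by positivity
  have hp3 : 0 ≤ d * (α / lam ^ 2) := by positivity
  have hxn : ‖x‖ ≤ ‖(toLp 2 (x, y) : WithLp 2 (E × F))‖ := WithLp.norm_fst_le _ (toLp 2 (x, y) : WithLp 2 (E × F))
  have hyn : ‖y‖ ≤ ‖(toLp 2 (x, y) : WithLp 2 (E × F))‖ := WithLp.norm_snd_le _ (toLp 2 (x, y) : WithLp 2 (E × F))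
  have hζ1 : ‖ζ.fst‖ ≤ ‖ζ‖ := WithLp.norm_fst_le _ ζ
  have hζ2 : ‖ζ.snd‖ ≤ ‖ζ‖ := WithLp.norm_snd_le _ ζ
  have hq1 : ‖qq.fst‖ ≤ ‖qq‖ := WithLp.norm_fst_le _ qq
  have hq2 : ‖qq.snd‖ ≤ ‖qq‖ := WithLp.norm_snd_le _ qq
  have hxK : x ∈ K₁ := hm₁.1 _
  have hyK : y ∈ K₂ := hm₂.1 _
  -- lower bounds of the values
  have hux : -(d * Λ + d * lam / 2) ≤ u x := by
    have h1 := hs₁.ineq 0 ζ.fst
    have h2 : cf u lam m₁ ζ.fst = u x - lam / 2 * ‖x - ζ.fst‖ ^ 2 + lam / 2 * ‖ζ.fst‖ ^ 2 := rfl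
    have h3 := abs_real_inner_le_norm (lam • m₁ 0) ζ.fst
    have h4 := (hΛ₁ 0).trans (le_abs_self Λ₁)
    have h5 : ‖lam • m₁ 0‖ * ‖ζ.fst‖ ≤ Λ * d :=
      mul_le_mul (by linarith [abs_nonneg Λ₂]) (by linarith) (norm_nonneg _) hΛ0
    have h6 := (abs_le.1 h3).1
    rw [sub_zero] at h1
    have h7 : lam / 2 * ‖ζ.fst‖ ^ 2 ≤ lam / 2 * d := by
      refine mul_le_mul_of_nonneg_left ?_ (by positivity)
      have := norm_nonneg ζ.fst
      nlinarith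
    have h8 : 0 ≤ lam / 2 * ‖x - ζ.fst‖ ^ 2 := by positivity
    linarith
  have hvy : -(d * Λ + d * lam / 2) ≤ v y := by
    have h1 := hs₂.ineq 0 ζ.snd
    have h2 : cf v lam m₂ ζ.snd = v y - lam / 2 * ‖y - ζ.snd‖ ^ 2 + lam / 2 * ‖ζ.snd‖ ^ 2 := rfl
    have h3 := abs_real_inner_le_norm (lam • m₂ 0) ζ.snd
    have h4 := (hΛ₂ 0).trans (le_abs_self Λ₂)
    have h5 : ‖lam • m₂ 0‖ * ‖ζ.snd‖ ≤ Λ * d :=
      mul_le_mul (by linarith [abs_nonneg Λ₁]) (by linarith) (norm_nonneg _) hΛ0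
    have h6 := (abs_le.1 h3).1
    rw [sub_zero] at h1
    have h7 : lam / 2 * ‖ζ.snd‖ ^ 2 ≤ lam / 2 * d := by
      refine mul_le_mul_of_nonneg_left ?_ (by positivity)
      have := norm_nonneg ζ.snd
      nlinarith
    have h8 : 0 ≤ lam / 2 * ‖y - ζ.snd‖ ^ 2 := by positivity
    linarith
  have huv : u x + v y ≤ d * (α / lam ^ 2) / 2 := by
    have h1 := h x hxK y hyK
    have h2 := inner_le_opNorm A (toLp 2 (x, y) : WithLp 2 (E × F))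
    rw [← hα] at h2
    have h3 : ‖(toLp 2 (x, y) : WithLp 2 (E × F))‖ ^ 2 ≤ (d * (1 / lam)) ^ 2 :=
      pow_le_pow_left₀ (norm_nonneg _) hz.le 2
    have h4 : (d * (1 / lam)) ^ 2 ≤ d * (1 / lam ^ 2) := by
      rw [mul_pow, one_div_pow]
      refine mul_le_mul_of_nonneg_right ?_ (by positivity)
      nlinarith
    have h5 : α * ‖(toLp 2 (x, y) : WithLp 2 (E × F))‖ ^ 2 ≤ α * (d * (1 / lam ^ 2)) :=
      mul_le_mul_of_nonneg_left (h3.trans h4) hα0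
    have h6 : α * (d * (1 / lam ^ 2)) = d * (α / lam ^ 2) := by ring
    linarith
  -- the forms
  set X : E →L[ℝ] E := (fstL 2 ℝ E F).comp (H.comp (i1 E F)) - lam • ContinuousLinearMap.id ℝ E with hX
  set Y : F →L[ℝ] F := (sndL 2 ℝ E F).comp (H.comp (i2 E F)) - lam • ContinuousLinearMap.id ℝ F with hY
  have hXi : ∀ a b, ⟪X a, b⟫ = ⟪H (i1 E F a), i1 E F b⟫ - lam * ⟪a, b⟫ := by
    intro a b
    have : X a = (H (i1 E F a)).fst - lam • a := rfl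
    rw [this, inner_sub_left, real_inner_smul_left, inner_i1]
  have hYi : ∀ a b, ⟪Y a, b⟫ = ⟪H (i2 E F a), i2 E F b⟫ - lam * ⟪a, b⟫ := by
    intro a b
    have : Y a = (H (i2 E F a)).snd - lam • a := rfl
    rw [this, inner_sub_left, real_inner_smul_left, inner_i2]
  refine ⟨x, hxK, y, hyK, qq.fst - lam • ζ.fst, qq.snd - lam • ζ.snd, X, Y, by linarith, by linarith, ?_, ?_, ?_, ?_,
    ?_, ?_, ?_, ?_, ?_, ?_⟩
  · rw [abs_lt]
    constructor <;> linarith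
  · rw [abs_lt]
    constructor <;> linarith
  · have h1 := norm_sub_le qq.fst (lam • ζ.fst)
    have h2 : ‖lam • ζ.fst‖ = lam * ‖ζ.fst‖ := by rw [norm_smul, Real.norm_eq_abs, abs_of_pos hlam0]
    have h3 : lam * ‖ζ.fst‖ ≤ lam * d := mul_le_mul_of_nonneg_left (by linarith) hlam0.le
    linarith
  · have h1 := norm_sub_le qq.snd (lam • ζ.snd)
    have h2 : ‖lam • ζ.snd‖ = lam * ‖ζ.snd‖ := by rw [norm_smul, Real.norm_eq_abs, abs_of_pos hlam0]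
    have h3 : lam * ‖ζ.snd‖ ≤ lam * d := mul_le_mul_of_nonneg_left (by linarith) hlam0.le
    linarith
  · intro a b
    rw [hXi, real_inner_comm (X b) a, hXi, hHs, real_inner_comm, real_inner_comm b a]
  · intro a b
    rw [hYi, real_inner_comm (Y b) a, hYi, hHs, real_inner_comm, real_inner_comm b a]
  · intro ε hε
    have hcv : Tendsto (i1 E F) (𝓝 0) (𝓝 0) := by
      have := (i1 E F).continuous.tendsto 0
      rwa [map_zero] at this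
    filter_upwards [hcv.eventually (hexp ε hε)] with k hk hkK
    have h1 := hm₁.magic ζ.fst k hkK
    have h2 := (abs_le.1 hk).2
    have h3 : f (ζ + i1 E F k) = cf u lam m₁ (ζ.fst + k) + cf v lam m₂ (ζ.snd + 0) := rfl
    have h4 : f ζ = cf u lam m₁ ζ.fst + cf v lam m₂ ζ.snd := rfl
    have h2' : f (ζ + i1 E F k) - f ζ - ⟪qq, i1 E F k⟫ - 1 / 2 * ⟪H (i1 E F k), i1 E F k⟫ ≤ ε * ‖i1 E F k‖ ^ 2 := h2
    rw [h3, h4, add_zero, inner_i1, norm_i1] at h2'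
    rw [hXi, inner_sub_left, real_inner_smul_left, real_inner_self_eq_norm_sq]
    linarith
  · intro ε hε
    have hcv : Tendsto (i2 E F) (𝓝 0) (𝓝 0) := by
      have := (i2 E F).continuous.tendsto 0
      rwa [map_zero] at this
    filter_upwards [hcv.eventually (hexp ε hε)] with k hk hkK
    have h1 := hm₂.magic ζ.snd k hkK
    have h2 := (abs_le.1 hk).2
    have h3 : f (ζ + i2 E F k) = cf u lam m₁ (ζ.fst + 0) + cf v lam m₂ (ζ.snd + k) := rfl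
    have h4 : f ζ = cf u lam m₁ ζ.fst + cf v lam m₂ ζ.snd := rfl
    have h2' : f (ζ + i2 E F k) - f ζ - ⟪qq, i2 E F k⟫ - 1 / 2 * ⟪H (i2 E F k), i2 E F k⟫ ≤ ε * ‖i2 E F k‖ ^ 2 := h2
    rw [h3, h4, add_zero, inner_i2, norm_i2] at h2'
    rw [hYi, inner_sub_left, real_inner_smul_left, real_inner_self_eq_norm_sq]
    linarith
  · intro a b
    rw [hXi, hYi, real_inner_self_eq_norm_sq, real_inner_self_eq_norm_sq]
    have h1 := hHle (toLp 2 (a, b))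
    rw [hCq] at h1
    have h2 : ‖(toLp 2 (a, b) : WithLp 2 (E × F))‖ ^ 2 = ‖a‖ ^ 2 + ‖b‖ ^ 2 := prod_norm_sq_eq_of_L2 _
    have h3 : ⟪H (toLp 2 (a, b)), (toLp 2 (a, b) : WithLp 2 (E × F))⟫ =
        ⟪H (i1 E F a), i1 E F a⟫ + ⟪H (i2 E F b), i2 E F b⟫ := by
      have h4 := block_diag hHs hexp a b
      have h5 : ⟪H (i2 E F b), i1 E F a⟫ = 0 := by rw [hHs, real_inner_comm, h4]
      rw [toLp_eq, map_add, inner_add_left, inner_add_right, inner_add_right, h4, h5]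
      ring
    have h6 : ‖A (toLp 2 (a, b))‖ ^ 2 ≤ α ^ 2 * ‖(toLp 2 (a, b) : WithLp 2 (E × F))‖ ^ 2 := by
      rw [← mul_pow]
      exact pow_le_pow_left₀ (norm_nonneg _) (A.le_opNorm _) 2
    have h7 : e * ‖A (toLp 2 (a, b))‖ ^ 2 ≤ δ / 2 * ‖(toLp 2 (a, b) : WithLp 2 (E × F))‖ ^ 2 := by
      have h8 := mul_le_mul_of_nonneg_left h6 he0.le
      have h9 := mul_le_mul_of_nonneg_right heα (sq_nonneg ‖(toLp 2 (a, b) : WithLp 2 (E × F))‖)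
      linarith
    rw [h3] at h1
    rw [h2] at h1 h7
    linarith
  · -- the new bound
    set c : ℝ := lam ^ 2 / (lam - L') with hc
    have hsemi : ∀ ξ k : E, cf u lam m₁ (ξ + k) + cf u lam m₁ (ξ - k) - 2 * cf u lam m₁ ξ ≤
        c * ‖k‖ ^ 2 := fun ξ k => SCS_semi hm₁ hlamp hconc ξ k
    set M : E →L[ℝ] E := (fstL 2 ℝ E F).comp (H.comp (i1 E F)) - c • ContinuousLinearMap.id ℝ E with hM'
    have hMi : ∀ a, ⟪M a, a⟫ = ⟪H (i1 E F a), i1 E F a⟫ - c * ‖a‖ ^ 2 := by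
      intro a
      have h1 : M a = (H (i1 E F a)).fst - c • a := rfl
      rw [h1, inner_sub_left, real_inner_smul_left, inner_i1, real_inner_self_eq_norm_sq]
    have hM0 : ∀ a, ⟪M a, a⟫ ≤ 0 := by
      refine scale_nonpos fun ε hε => ?_
      have hcv : Tendsto (i1 E F) (𝓝 0) (𝓝 0) := by
        have := (i1 E F).continuous.tendsto 0
        rwa [map_zero] at this
      have hcn : Tendsto (fun k : E => i1 E F (-k)) (𝓝 0) (𝓝 0) := by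
        have h1 : Tendsto (fun k : E => -k) (𝓝 0) (𝓝 0) := by
          simpa using (continuous_neg (G := E)).tendsto 0
        exact hcv.comp h1
      filter_upwards [hcv.eventually (hexp (ε / 2) (half_pos hε)),
        hcn.eventually (hexp (ε / 2) (half_pos hε))] with k hk hk'
      have h1 := (abs_le.1 hk).1
      have h2 := (abs_le.1 hk').1
      have h3 : f (ζ + i1 E F k) = cf u lam m₁ (ζ.fst + k) + cf v lam m₂ (ζ.snd + 0) := rfl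
      have h4 : f (ζ + i1 E F (-k)) = cf u lam m₁ (ζ.fst + -k) + cf v lam m₂ (ζ.snd + 0) := rfl
      have h5 : f ζ = cf u lam m₁ ζ.fst + cf v lam m₂ ζ.snd := rfl
      have h1' : -(ε / 2 * ‖i1 E F k‖ ^ 2) ≤
        f (ζ + i1 E F k) - f ζ - ⟪qq, i1 E F k⟫ - 1 / 2 * ⟪H (i1 E F k), i1 E F k⟫ := h1
      have h2' : -(ε / 2 * ‖i1 E F (-k)‖ ^ 2) ≤
        f (ζ + i1 E F (-k)) - f ζ - ⟪qq, i1 E F (-k)⟫ - 1 / 2 * ⟪H (i1 E F (-k)), i1 E F (-k)⟫ := h2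
      rw [h3, h5, add_zero, norm_i1] at h1'
      rw [h4, h5, add_zero, norm_i1, norm_neg, map_neg, map_neg, inner_neg_left, inner_neg_right,
        inner_neg_right, neg_neg, ← sub_eq_add_neg] at h2'
      have h6 := hsemi ζ.fst k
      rw [hMi]
      linarith
    intro a
    have h1 := hM0 a
    rw [hMi] at h1
    rw [hXi, real_inner_self_eq_norm_sq]
    have h2 : c - lam ≤ L' + δ := by
      have h3 : c - lam = L' + L' ^ 2 / (lam - L') := by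
        rw [hc]
        field_simp
        ring
      have h4 : L' ^ 2 / (lam - L') ≤ δ := by
        rw [div_le_iff₀ hlamp]
        have h5 : L' ^ 2 / δ ≤ lam - L' := by linarith
        rw [div_le_iff₀ hδ] at h5
        linarith
      linarith
    have h3 := mul_le_mul_of_nonneg_right h2 (sq_nonneg ‖a‖)
    linarith

private theorem SCS_usc {u : E n → ℝ} {x0 : E n} {D K : Set (E n)}
    (hu : UpperSemicontinuousOn u D) (hK : ∀ ξ ∈ K, x0 + ξ ∈ D) (P : E n) :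
    UpperSemicontinuousOn (fun ξ => u (x0 + ξ) - u x0 - ⟪P, ξ⟫) K := by
  have hc : Continuous fun ξ : E n => x0 + ξ := by fun_prop
  have h1 : UpperSemicontinuousOn (fun ξ : E n => u (x0 + ξ)) K := by
    intro ξ hξ t ht
    have h2 := hu _ (hK ξ hξ) t ht
    have h3 : Tendsto (fun ξ : E n => x0 + ξ) (𝓝[K] ξ) (𝓝[D] (x0 + ξ)) := by
      refine tendsto_nhdsWithin_iff.2 ⟨(hc.tendsto ξ).mono_left nhdsWithin_le_nhds, ?_⟩
      filter_upwards [self_mem_nhdsWithin] with η hη using hK η hη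
    exact h3.eventually h2
  have h2 : UpperSemicontinuousOn (fun ξ : E n => -u x0 - ⟪P, ξ⟫) K :=
    (by fun_prop : Continuous fun ξ : E n => -u x0 - ⟪P, ξ⟫).continuousOn.upperSemicontinuousOn
  have h3 := h1.add h2
  have h4 : (fun ξ => u (x0 + ξ) - u x0 - ⟪P, ξ⟫) =
      fun ξ : E n => u (x0 + ξ) + (-u x0 - ⟪P, ξ⟫) := by
    funext ξ
    ring
  rw [h4]
  exact h3

private theorem SCS_jet {u : E n → ℝ} {x0 P p ξ : E n} {X : E n →L[ℝ] E n} {r : ℝ}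
    (hξ : ‖ξ‖ < r)
    (h : ∀ ε > 0, ∀ᶠ k in 𝓝 (0 : E n), ξ + k ∈ closedBall (0 : E n) r →
      u (x0 + (ξ + k)) - u x0 - ⟪P, ξ + k⟫ ≤ u (x0 + ξ) - u x0 - ⟪P, ξ⟫ + ⟪p, k⟫ +
        1 / 2 * ⟪X k, k⟫ + ε * ‖k‖ ^ 2) :
    UJ u (x0 + ξ) (P + p) ((ip : Bil n).comp X) := by
  intro ε hε
  obtain ⟨s, hs, h1⟩ := Metric.eventually_nhds_iff.1 (h ε hε)
  refine ⟨min s (r - ‖ξ‖), lt_min hs (by linarith), fun y hy => ?_⟩
  set k : E n := y - (x0 + ξ) with hk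
  have hks : ‖k‖ < s := hy.trans_le (min_le_left _ _)
  have hkr : ‖k‖ < r - ‖ξ‖ := hy.trans_le (min_le_right _ _)
  have h2 : ξ + k ∈ closedBall (0 : E n) r := by
    rw [mem_closedBall, dist_zero_right]
    exact (norm_add_le _ _).trans (by linarith)
  have h3 := h1 (by rwa [dist_zero_right]) h2
  have h4 : x0 + (ξ + k) = y := by
    rw [hk]
    abel
  rw [h4, inner_add_right] at h3
  have h5 : ((ip : Bil n).comp X) k k = ⟪X k, k⟫ := rfl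
  rw [h5, inner_add_left]
  linarith

theorem scs {u w : E n → ℝ} {x0 y0 P Q : E n} {B : (E n × E n) →L[ℝ] (E n × E n) →L[ℝ] ℝ}
    {ρ Λ : ℝ} (hρ : 0 < ρ) (hρ1 : ρ ≤ 1) (hΛ : 0 ≤ Λ)
    (hu : UpperSemicontinuousOn u (closedBall x0 ρ))
    (hsc : ConcaveOn ℝ (closedBall x0 ρ) (fun x => u x - Λ / 2 * ‖x‖ ^ 2))
    (hw : UpperSemicontinuousOn w (closedBall y0 1))
    (h : ∀ ε > 0, ∃ r > 0, ∀ x y, ‖x - x0‖ < r → ‖y - y0‖ < r →
      u x + w y ≤ u x0 + w y0 + ⟪P, x - x0⟫ + ⟪Q, y - y0⟫ +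
        1 / 2 * B (x - x0, y - y0) (x - x0, y - y0) + ε * (‖x - x0‖ ^ 2 + ‖y - y0‖ ^ 2))
    {δ : ℝ} (hδ : 0 < δ) :
    ∃ (x y P' Q' : E n) (X Y : Bil n), ‖x - x0‖ < δ ∧ ‖y - y0‖ < δ ∧ |u x - u x0| < δ ∧
      |w y - w y0| < δ ∧ ‖P' - P‖ < δ ∧ ‖Q' - Q‖ < δ ∧ (∀ a b, X a b = X b a) ∧
      (∀ a b, Y a b = Y b a) ∧ UJ u x P' X ∧ UJ w y Q' Y ∧
      (∀ a b, X a a + Y b b ≤ B (a, b) (a, b) + δ * (‖a‖ ^ 2 + ‖b‖ ^ 2)) ∧
      ∀ a, X a a ≤ (Λ + δ) * ‖a‖ ^ 2 := by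
  obtain ⟨r, hr, hmaj⟩ := h (δ / 8) (by positivity)
  set r₁ : ℝ := min (r / 2) ρ with hr₁
  have hr₁0 : 0 < r₁ := lt_min (by positivity) hρ
  have hr₁r : r₁ < r := (min_le_left _ _).trans_lt (by linarith)
  have hr₁ρ : r₁ ≤ ρ := min_le_right _ _
  set K : Set (E n) := closedBall 0 r₁ with hK
  have hKc : IsCompact K := isCompact_closedBall _ _
  have hKn : ∀ ξ, ξ ∈ K ↔ ‖ξ‖ ≤ r₁ := fun ξ => by rw [hK, mem_closedBall, dist_zero_right]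
  have h0K : (0 : E n) ∈ K := by rw [hKn, norm_zero]; exact hr₁0.le
  have hmx : ∀ ξ ∈ K, x0 + ξ ∈ closedBall x0 ρ := fun ξ hξ => by
    rw [mem_closedBall, dist_eq_norm, add_sub_cancel_left]
    exact ((hKn ξ).1 hξ).trans hr₁ρ
  have hmy : ∀ ξ ∈ K, y0 + ξ ∈ closedBall y0 1 := fun ξ hξ => by
    rw [mem_closedBall, dist_eq_norm, add_sub_cancel_left]
    exact ((hKn ξ).1 hξ).trans (hr₁ρ.trans hρ1)
  set u' : E n → ℝ := fun ξ => u (x0 + ξ) - u x0 - ⟪P, ξ⟫ with hu'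
  set w' : E n → ℝ := fun ξ => w (y0 + ξ) - w y0 - ⟪Q, ξ⟫ with hw'
  have hu'c : UpperSemicontinuousOn u' K := SCS_usc hu hmx P
  have hw'c : UpperSemicontinuousOn w' K := SCS_usc hw hmy Q
  have hu'0 : u' 0 = 0 := by simp [hu']
  have hw'0 : w' 0 = 0 := by simp [hw']
  -- the operator
  set L : WithLp 2 (E n × E n) →L[ℝ] E n × E n :=
    (fstL 2 ℝ (E n) (E n)).prod (sndL 2 ℝ (E n) (E n)) with hL
  have hLa : ∀ z : WithLp 2 (E n × E n), L z = (z.fst, z.snd) := fun z => rfl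
  set b : WithLp 2 (E n × E n) →L[ℝ] WithLp 2 (E n × E n) →L[ℝ] ℝ :=
    (1 / 2 : ℝ) • (B.bilinearComp L L + (B.bilinearComp L L).flip) with hb
  have hba : ∀ z z', b z z' = 1 / 2 * (B (L z) (L z') + B (L z') (L z)) := fun z z' => rfl
  set A : WithLp 2 (E n × E n) →L[ℝ] WithLp 2 (E n × E n) :=
    opOf b + (δ / 4) • ContinuousLinearMap.id ℝ _ with hA
  have hAa : ∀ z z', ⟪A z, z'⟫ = 1 / 2 * (B (L z) (L z') + B (L z') (L z)) + δ / 4 * ⟪z, z'⟫ := by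
    intro z z'
    have h1 : A z = opOf b z + (δ / 4) • z := rfl
    rw [h1, inner_add_left, inner_opOf, hba, real_inner_smul_left]
  have hAs : ∀ z z', ⟪A z, z'⟫ = ⟪z, A z'⟫ := by
    intro z z'
    rw [real_inner_comm (A z') z, hAa, hAa, real_inner_comm z z']
    ring
  have hAq : ∀ x y : E n, ⟪A (toLp 2 (x, y)), (toLp 2 (x, y) : WithLp 2 (E n × E n))⟫ =
      B (x, y) (x, y) + δ / 4 * (‖x‖ ^ 2 + ‖y‖ ^ 2) := by
    intro x y
    have h2 : ‖(toLp 2 (x, y) : WithLp 2 (E n × E n))‖ ^ 2 = ‖x‖ ^ 2 + ‖y‖ ^ 2 :=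
      prod_norm_sq_eq_of_L2 _
    rw [hAa, real_inner_self_eq_norm_sq, h2, hLa]
    change 1 / 2 * (B (x, y) (x, y) + B (x, y) (x, y)) + _ = _
    ring
  have hmaj' : ∀ ξ ∈ K, ∀ η ∈ K, u' ξ + w' η ≤
      1 / 2 * ⟪A (toLp 2 (ξ, η)), (toLp 2 (ξ, η) : WithLp 2 (E n × E n))⟫ := by
    intro ξ hξ η hη
    have h1 := hmaj (x0 + ξ) (y0 + η) (by
      rw [add_sub_cancel_left]
      exact ((hKn ξ).1 hξ).trans_lt hr₁r) (by
      rw [add_sub_cancel_left]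
      exact ((hKn η).1 hη).trans_lt hr₁r)
    rw [add_sub_cancel_left, add_sub_cancel_left] at h1
    rw [hAq]
    have h5 : u' ξ = u (x0 + ξ) - u x0 - ⟪P, ξ⟫ := rfl
    have h6 : w' η = w (y0 + η) - w y0 - ⟪Q, η⟫ := rfl
    rw [h5, h6]
    linarith
  have hconc : ConcaveOn ℝ K (fun ξ => u' ξ - Λ / 2 * ‖ξ‖ ^ 2) := by
    refine ⟨convex_closedBall _ _, fun ξ hξ η hη a c ha hc hac => ?_⟩
    have h1 := hsc.2 (hmx ξ hξ) (hmx η hη) ha hc hac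
    have h2 : a • (x0 + ξ) + c • (x0 + η) = x0 + (a • ξ + c • η) := by
      have h3 : c = 1 - a := by linarith
      rw [h3]
      module
    rw [h2] at h1
    simp only [smul_eq_mul, hu'] at h1 ⊢
    rw [norm_add_sq_real x0 ξ, norm_add_sq_real x0 η, norm_add_sq_real x0 (a • ξ + c • η)] at h1
    rw [inner_add_right, real_inner_smul_right, real_inner_smul_right] at h1
    rw [inner_add_right, real_inner_smul_right, real_inner_smul_right]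
    have h4 : a = 1 - c := by linarith
    subst h4
    nlinarith
  -- the small parameter
  set M : ℝ := 2 * (1 + ‖P‖ + ‖Q‖) with hM
  have hM0 : 0 < M := by positivity
  set d : ℝ := min (r₁ / 2) (δ / M) with hd
  have hd0 : 0 < d := lt_min (by positivity) (by positivity)
  have hdr : d < r₁ := (min_le_left _ _).trans_lt (by linarith)
  have hdM : 2 * d + 2 * (d * ‖P‖) + 2 * (d * ‖Q‖) ≤ δ := by
    have h1 : d ≤ δ / M := min_le_right _ _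
    rw [le_div_iff₀ hM0] at h1
    have h2 : d * M = 2 * d + 2 * (d * ‖P‖) + 2 * (d * ‖Q‖) := by rw [hM]; ring
    linarith
  have q1 : 0 ≤ d * ‖P‖ := by positivity
  have q2 : 0 ≤ d * ‖Q‖ := by positivity
  obtain ⟨ξ, hξ, η, hη, p, q, X, Y, c1, c2, c3, c4, c5, c6, c7, c8, c9, c10, c11, c12⟩ :=
    SCS_inner hKc hKc h0K h0K hu'c hw'c hu'0 hw'0 hAs hmaj' hd0 hΛ hconc
  have hXa : ∀ a b' : E n, ((ip : Bil n).comp X) a b' = ⟪X a, b'⟫ := fun a b' => rfl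
  have hYa : ∀ a b' : E n, ((ip : Bil n).comp Y) a b' = ⟪Y a, b'⟫ := fun a b' => rfl
  refine ⟨x0 + ξ, y0 + η, P + p, Q + q, (ip : Bil n).comp X, (ip : Bil n).comp Y,
    ?_, ?_, ?_, ?_, ?_, ?_, ?_, ?_, ?_, ?_, ?_, ?_⟩
  · rw [add_sub_cancel_left]; linarith
  · rw [add_sub_cancel_left]; linarith
  · have h1 : u (x0 + ξ) - u x0 = u' ξ + ⟪P, ξ⟫ := by simp only [hu']; ring
    have h2 : |⟪P, ξ⟫| ≤ d * ‖P‖ := by
      refine (abs_real_inner_le_norm _ _).trans ?_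
      have := mul_le_mul_of_nonneg_left c1.le (norm_nonneg P)
      linarith
    rw [h1]
    refine (abs_add_le _ _).trans_lt ?_
    linarith
  · have h1 : w (y0 + η) - w y0 = w' η + ⟪Q, η⟫ := by simp only [hw']; ring
    have h2 : |⟪Q, η⟫| ≤ d * ‖Q‖ := by
      refine (abs_real_inner_le_norm _ _).trans ?_
      have := mul_le_mul_of_nonneg_left c2.le (norm_nonneg Q)
      linarith
    rw [h1]
    refine (abs_add_le _ _).trans_lt ?_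
    linarith
  · rw [add_sub_cancel_left]; linarith
  · rw [add_sub_cancel_left]; linarith
  · intro a b'
    rw [hXa, hXa, c7, real_inner_comm]
  · intro a b'
    rw [hYa, hYa, c8, real_inner_comm]
  · exact SCS_jet (c1.trans hdr) (fun ε hε => c9 ε hε)
  · exact SCS_jet (c2.trans hdr) (fun ε hε => c10 ε hε)
  · intro a b'
    have h1 := c11 a b'
    rw [hAq] at h1
    rw [hXa, hYa]
    have h2 : (δ / 4 + d) * (‖a‖ ^ 2 + ‖b'‖ ^ 2) ≤ δ * (‖a‖ ^ 2 + ‖b'‖ ^ 2) :=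
      mul_le_mul_of_nonneg_right (by linarith) (by positivity)
    linarith
  · intro a
    rw [hXa]
    refine (c12 a).trans (mul_le_mul_of_nonneg_right (by linarith) (by positivity))

end Pool.Agent.TWC
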