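import Pool.Agent.TWC.JTA
import Pool.Agent.TWC.PAL

/-!
# TWC STAB: stability of viscosity sub and supersolutions under locally uniform limits

`stab_sb`. Let `x ∈ O`, `UJ U x P X`. Fix `ε > 0` and put
`ϕ y = U x + <P,y-x> + 1/2 X (y-x) (y-x) + 2 ε |y-x|^2`. There is `r > 0` (smaller than the radius of the
hypothesis at `x`) with `U y ≤ ϕ y - ε |y-x|^2` for `|y-x| ≤ r`. For `i`, the usc function `u i - ϕ`
attains its maximum on `closedBall x r` at `y_i`. With `δ_i = sup` of `|u i - U|` on the ball: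
`-δ_i ≤ (u i - ϕ) x ≤ (u i - ϕ) y_i ≤ δ_i - ε |y_i - x|^2`, so `|y_i - x|^2 ≤ 2 δ_i/ε`: for eventually
all `i` the point `y_i` is interior, and `UJ (u i) y_i P_i (X + 4 ε ip)` (`uj_of_max`, the expansion
of the quadratic polynomial `ϕ` at `y_i`: gradient `P_i` with `|P_i - P| ≤ C |y_i - x|`; `X` may be
non symmetric, use its symmetric part: the gradient of `1/2 X (y-x) (y-x)` at `y_i` is the Riesz vector
of `1/2 (X (y_i - x) · + X · (y_i - x))`, and the form may be kept as `X`). Also `u i y_i → U x` (because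
`ϕ y_i - δ_i ≤ ...`: `(u i) y_i ≥ ϕ y_i - δ_i` and `≤ ϕ y_i + δ_i`). So
`0 ≤ pA p P_i (X + 4 ε ip) + <b,P_i> + κ_i u_i(y_i)`; pass to the limit along the filter (`δ_i → 0` in
the sense of eventually small) with `pA_cont`: `0 ≤ pA p P (X + 4 ε ip) + <b,P> + κ U x`; `ε → 0`.

`stab_sp` is `stab_sb` for `-v`.
-/

open Set Metric Filter Topology
open scoped RealInnerProductSpace

noncomputable section

namespace Pool.Agent.TWC

variable {n : ℕ} {p : ℝ} {b : E n} {κ : ℝ}

private def STAB_phi (ε c : ℝ) (x P : E n) (X : Bil n) (y : E n) : ℝ :=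
  c + ⟪P, y - x⟫ + 1 / 2 * X (y - x) (y - x) + 2 * ε * ‖y - x‖ ^ 2

private def STAB_G (ε : ℝ) (x P : E n) (X : Bil n) (z : E n) : E n :=
  P + (InnerProductSpace.toDual ℝ (E n)).symm ((1 / 2 : ℝ) • (X (z - x) + X.flip (z - x))) +
    (4 * ε) • (z - x)

private theorem STAB_G_cont (ε : ℝ) (x P : E n) (X : Bil n) : Continuous (STAB_G ε x P X) := by
  unfold STAB_G
  have h0 : Continuous fun z : E n => z - x := by fun_prop
  have h1 : Continuous fun z : E n => X (z - x) + X.flip (z - x) :=
    (X.continuous.comp h0).add (X.flip.continuous.comp h0)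
  have h1' : Continuous fun z : E n => (1 / 2 : ℝ) • (X (z - x) + X.flip (z - x)) :=
    h1.const_smul (1 / 2 : ℝ)
  have h2 := (InnerProductSpace.toDual ℝ (E n)).symm.continuous.comp h1'
  have h3 : Continuous fun z : E n => (4 * ε) • (z - x) := h0.const_smul (4 * ε)
  exact (continuous_const.add h2).add h3

private theorem STAB_G_self (ε : ℝ) (x P : E n) (X : Bil n) : STAB_G ε x P X x = P := by
  unfold STAB_G
  rw [sub_self, map_zero, map_zero, add_zero, smul_zero, map_zero, smul_zero, add_zero, add_zero]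

private theorem STAB_phi_cont (ε c : ℝ) (x P : E n) (X : Bil n) : Continuous (STAB_phi ε c x P X) := by
  unfold STAB_phi
  have h0 : Continuous fun z : E n => z - x := by fun_prop
  have h1 : Continuous fun z : E n => X (z - x) (z - x) := (X.continuous.comp h0).clm_apply h0
  fun_prop

private theorem STAB_phi_self (ε c : ℝ) (x P : E n) (X : Bil n) : STAB_phi ε c x P X x = c := by
  unfold STAB_phi
  simp

private theorem STAB_ip (h : E n) : (ip : Bil n) h h = ‖h‖ ^ 2 := by
  rw [← real_inner_self_eq_norm_sq]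
  rfl

private theorem STAB_exp (ε c : ℝ) (x P : E n) (X : Bil n) (z y : E n) :
    STAB_phi ε c x P X y = STAB_phi ε c x P X z + ⟪STAB_G ε x P X z, y - z⟫ +
      1 / 2 * (X + (4 * ε) • (ip : Bil n)) (y - z) (y - z) := by
  have e1 : y - x = (z - x) + (y - z) := by abel
  unfold STAB_phi STAB_G
  rw [e1]
  generalize z - x = a
  generalize y - z = h
  rw [inner_add_left, inner_add_left, InnerProductSpace.toDual_symm_apply, real_inner_smul_left,
    inner_add_right, norm_add_sq_real]
  simp only [map_add, add_apply, smul_apply,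
    ContinuousLinearMap.flip_apply, smul_eq_mul, STAB_ip]
  ring

private theorem STAB_uj (ε c : ℝ) (x P : E n) (X : Bil n) (z : E n) :
    UJ (STAB_phi ε c x P X) z (STAB_G ε x P X z) (X + (4 * ε) • (ip : Bil n)) := by
  intro δ hδ
  refine ⟨1, one_pos, fun y _ => ?_⟩
  rw [STAB_exp ε c x P X z y]
  have : 0 ≤ δ * ‖y - z‖ ^ 2 := by positivity
  linarith

theorem stab_sb (hp : 2 < p) {ι : Type*} {l : Filter ι} [l.NeBot] {O : Set (E n)} {u : ι → E n → ℝ}
    {U : E n → ℝ} {κs : ι → ℝ} (hκ : Tendsto κs l (𝓝 κ))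
    (husc : ∀ i, UpperSemicontinuous (u i))
    (hsb : ∀ x ∈ O, ∃ r > 0, ∀ᶠ i in l, Sb p b (κs i) (ball x r) (u i))
    (hlim : ∀ x ∈ O, ∃ r > 0, ∀ ε > 0, ∀ᶠ i in l, ∀ y ∈ ball x r, |u i y - U y| ≤ ε) :
    Sb p b κ O U := by
  intro x hx P X hU
  obtain ⟨r2, hr2, hsb2⟩ := hsb x hx
  obtain ⟨r3, hr3, hlim3⟩ := hlim x hx
  -- it suffices to have the inequality with a small room
  have main : ∀ ε : ℝ, 0 < ε → 0 ≤ pA p P (X + (4 * ε) • (ip : Bil n)) + ⟪b, P⟫ + κ * U x := by
    intro ε hε
    obtain ⟨r1, hr1, h1⟩ := hU ε hε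
    set r : ℝ := min r1 (min r2 r3) / 2 with hr
    have hm : 0 < min r1 (min r2 r3) := lt_min hr1 (lt_min hr2 hr3)
    have hr0 : 0 < r := by positivity
    have hrr1 : r < r1 := by
      have := min_le_left r1 (min r2 r3)
      linarith
    have hrr2 : r < r2 := by
      have := (min_le_right r1 (min r2 r3)).trans (min_le_left r2 r3)
      linarith
    have hrr3 : r < r3 := by
      have := (min_le_right r1 (min r2 r3)).trans (min_le_right r2 r3)
      linarith
    set ϕ := STAB_phi ε (U x) x P X with hϕ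
    have hϕc : Continuous ϕ := STAB_phi_cont ε (U x) x P X
    have hϕx : ϕ x = U x := STAB_phi_self ε (U x) x P X
    -- maximum points
    have hex : ∀ i, ∃ y ∈ closedBall x r, IsMaxOn (fun y => u i y + -ϕ y) (closedBall x r) y := by
      intro i
      refine UpperSemicontinuousOn.exists_isMaxOn ⟨x, mem_closedBall_self hr0.le⟩
        (isCompact_closedBall x r) ?_
      have hcont : UpperSemicontinuous (fun y => -ϕ y) := hϕc.neg.upperSemicontinuous
      exact ((husc i).add hcont).upperSemicontinuousOn _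
    choose y hy hmax using hex
    have hmax' : ∀ i, ∀ z ∈ closedBall x r, u i z - ϕ z ≤ u i (y i) - ϕ (y i) := by
      intro i z hz
      have := hmax i hz
      simp only [Set.mem_ofPred_eq] at this
      linarith
    have hin : ∀ i, ‖y i - x‖ ≤ r := fun i => by
      have := hy i
      rwa [mem_closedBall, dist_eq_norm] at this
    have hUphi : ∀ i, U (y i) ≤ ϕ (y i) - ε * ‖y i - x‖ ^ 2 := by
      intro i
      have := h1 (y i) ((hin i).trans_lt hrr1)
      rw [hϕ]
      unfold STAB_phi
      linarith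
    -- estimates
    have hest : ∀ δ : ℝ, 0 < δ → ∀ᶠ i in l, ε * ‖y i - x‖ ^ 2 ≤ 2 * δ ∧
        |u i (y i) - ϕ (y i)| ≤ δ := by
      intro δ hδ
      filter_upwards [hlim3 δ hδ] with i hi
      have a1 := hi x (mem_ball_self hr3)
      have a2 := hi (y i) (by
        rw [mem_ball, dist_eq_norm]
        exact (hin i).trans_lt hrr3)
      have a3 := hmax' i x (mem_closedBall_self hr0.le)
      have a4 := hUphi i
      rw [abs_le] at a1 a2
      rw [hϕx] at a3
      have a5 : 0 ≤ ε * ‖y i - x‖ ^ 2 := by positivity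
      refine ⟨by linarith, ?_⟩
      rw [abs_le]
      constructor <;> linarith
    have hy_lim : Tendsto y l (𝓝 x) := by
      rw [tendsto_iff_norm_sub_tendsto_zero]
      rw [Metric.tendsto_nhds]
      intro η hη
      have hη2 : 0 < ε * η ^ 2 / 4 := by positivity
      filter_upwards [hest _ hη2] with i hi
      rw [Real.dist_eq, sub_zero, abs_of_nonneg (norm_nonneg _)]
      have h5 : ‖y i - x‖ ^ 2 < η ^ 2 := by
        have h6 := hi.1
        have h7 : 2 * (ε * η ^ 2 / 4) = ε * (η ^ 2 / 2) := by ring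
        rw [h7] at h6
        have h8 := le_of_mul_le_mul_left h6 hε
        have h9 : 0 < η ^ 2 := by positivity
        linarith
      exact lt_of_pow_lt_pow_left₀ 2 hη.le h5
    have hϕ_lim : Tendsto (fun i => ϕ (y i)) l (𝓝 (U x)) := by
      have := (hϕc.tendsto x).comp hy_lim
      rwa [hϕx] at this
    have hu_lim : Tendsto (fun i => u i (y i)) l (𝓝 (U x)) := by
      have h5 : Tendsto (fun i => u i (y i) - ϕ (y i)) l (𝓝 0) := by
        rw [Metric.tendsto_nhds]
        intro η hη
        filter_upwards [hest (η / 2) (by positivity)] with i hi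
        rw [Real.dist_eq, sub_zero]
        linarith [hi.2]
      have h6 := h5.add hϕ_lim
      simpa using h6
    have hG_lim : Tendsto (fun i => STAB_G ε x P X (y i)) l (𝓝 P) := by
      have := ((STAB_G_cont ε x P X).tendsto x).comp hy_lim
      rwa [STAB_G_self] at this
    have hpA_lim : Tendsto (fun i => pA p (STAB_G ε x P X (y i)) (X + (4 * ε) • (ip : Bil n))) l
        (𝓝 (pA p P (X + (4 * ε) • (ip : Bil n)))) := by
      have h5 := (pA_cont (n := n) hp).tendsto (P, X + (4 * ε) • (ip : Bil n))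
      have h6 : Tendsto (fun i => (STAB_G ε x P X (y i), X + (4 * ε) • (ip : Bil n))) l
          (𝓝 (P, X + (4 * ε) • (ip : Bil n))) := hG_lim.prodMk_nhds tendsto_const_nhds
      have h7 := h5.comp h6
      simpa only [Function.comp_def] using h7
    have hb_lim : Tendsto (fun i => ⟪b, STAB_G ε x P X (y i)⟫) l (𝓝 ⟪b, P⟫) :=
      tendsto_const_nhds.inner hG_lim
    have hfin := (hpA_lim.add hb_lim).add (hκ.mul hu_lim)
    refine ge_of_tendsto hfin ?_
    filter_upwards [hsb2, Metric.tendsto_nhds.1 hy_lim r hr0] with i h5 h6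
    have h7 : ‖y i - x‖ < r := by rwa [dist_eq_norm] at h6
    refine h5 (y i) ?_ _ _ (uj_of_max (STAB_uj ε (U x) x P X (y i)) ?_)
    · rw [mem_ball]
      exact h6.trans hrr2
    · refine ⟨r - ‖y i - x‖, by linarith, fun z hz => hmax' i z ?_⟩
      rw [mem_closedBall, dist_eq_norm]
      have := norm_sub_le_norm_sub_add_norm_sub z (y i) x
      linarith
  have hA : ∀ ε : ℝ, 0 < ε → 0 ≤ (pA p P X + ⟪b, P⟫ + κ * U x) + ε * (4 * pA p P (ip : Bil n)) := by
    intro ε hε
    have := main ε hε
    rw [pA_form_add, pA_form_smul] at this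
    linarith
  by_contra hneg
  push Not at hneg
  set A := pA p P X + ⟪b, P⟫ + κ * U x
  set B := 4 * pA p P (ip : Bil n)
  rcases le_or_gt B 0 with hB | hB
  · have := hA 1 one_pos
    linarith
  · have := hA (-A / (2 * B)) (by
      apply div_pos <;> linarith)
    have h5 : -A / (2 * B) * B = -A / 2 := by field_simp
    rw [h5] at this
    linarith

theorem stab_sp (hp : 2 < p) {ι : Type*} {l : Filter ι} [l.NeBot] {O : Set (E n)} {v : ι → E n → ℝ}
    {V : E n → ℝ} {κs : ι → ℝ} (hκ : Tendsto κs l (𝓝 κ))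
    (hlsc : ∀ i, LowerSemicontinuous (v i))
    (hsp : ∀ x ∈ O, ∃ r > 0, ∀ᶠ i in l, Sp p b (κs i) (ball x r) (v i))
    (hlim : ∀ x ∈ O, ∃ r > 0, ∀ ε > 0, ∀ᶠ i in l, ∀ y ∈ ball x r, |v i y - V y| ≤ ε) :
    Sp p b κ O V := by
  have h := stab_sb (p := p) (b := b) (κ := κ) hp (O := O) (u := fun i y => -v i y)
    (U := fun y => -V y) hκ (fun i => (hlsc i).neg) (by
      intro x hx
      obtain ⟨r, hr, h1⟩ := hsp x hx
      refine ⟨r, hr, ?_⟩
      filter_upwards [h1] with i hi
      intro z hz P X hU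
      have h2 : LJ (v i) z (-P) (-X) := uj_neg.1 (by
        have e1 : -(-X) = X := by
          ext
          simp
        rw [neg_neg, e1]
        exact hU)
      have h3 := hi z hz _ _ h2
      rw [pA_neg, pA_form_neg, inner_neg_right] at h3
      simp only [mul_neg]
      linarith) (by
      intro x hx
      obtain ⟨r, hr, h1⟩ := hlim x hx
      refine ⟨r, hr, fun ε hε => ?_⟩
      filter_upwards [h1 ε hε] with i hi
      intro z hz
      have h2 := hi z hz
      rw [← abs_neg]
      have e1 : -(-v i z - -V z) = v i z - V z := by ring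
      rwa [e1])
  intro x hx P X hL
  have h1 := h x hx (-P) (-X) (uj_neg.2 hL)
  rw [pA_neg, pA_form_neg, inner_neg_right] at h1
  simp only [mul_neg] at h1
  linarith

end Pool.Agent.TWC
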