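import Pool.Agent.TWC.Defs
import Pool.Agent.VSC.Sum

/-!
# TWC SUM2: the theorem on sums in our notation

Direct from `Pool.Agent.VSC.sums_gen` (theorem on sums for upper semicontinuous functions on compact
sets): take `K₁ = closedBall x0 1`, `K₂ = closedBall y0 1`, `P = innerSL ℝ P`, `Q = innerSL ℝ Q`, and
`δ' = min δ (1/2)`. The output functionals `p, q` are `innerSL ℝ P'`, `innerSL ℝ Q'` with
`P' = (InnerProductSpace.toDual ℝ (E n)).symm p` (an isometry, so `‖P' - P‖ < δ`). As the output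
points are at distance `< 1/2` from the centres, the expansions relative to the balls are expansions
in full neighbourhoods (shrink the radius to be at most `1/2`).
-/

open Set Metric Filter Topology
open scoped RealInnerProductSpace

noncomputable section

namespace Pool.Agent.TWC

variable {n : ℕ}

private theorem sum2_dual (P : E n) (v : E n) : innerSL ℝ P v = ⟪P, v⟫ := rfl

theorem sum2 {u w : E n → ℝ} {x0 y0 P Q : E n} {B : (E n × E n) →L[ℝ] (E n × E n) →L[ℝ] ℝ}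
    (hu : UpperSemicontinuousOn u (closedBall x0 1)) (hw : UpperSemicontinuousOn w (closedBall y0 1))
    (h : ∀ ε > 0, ∃ r > 0, ∀ x y, ‖x - x0‖ < r → ‖y - y0‖ < r →
      u x + w y ≤ u x0 + w y0 + ⟪P, x - x0⟫ + ⟪Q, y - y0⟫ +
        1 / 2 * B (x - x0, y - y0) (x - x0, y - y0) + ε * (‖x - x0‖ ^ 2 + ‖y - y0‖ ^ 2))
    {δ : ℝ} (hδ : 0 < δ) :
    ∃ (x y P' Q' : E n) (X Y : Bil n), ‖x - x0‖ < δ ∧ ‖y - y0‖ < δ ∧ |u x - u x0| < δ ∧
      |w y - w y0| < δ ∧ ‖P' - P‖ < δ ∧ ‖Q' - Q‖ < δ ∧ (∀ a b, X a b = X b a) ∧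
      (∀ a b, Y a b = Y b a) ∧ UJ u x P' X ∧ UJ w y Q' Y ∧
      ∀ a b, X a a + Y b b ≤ B (a, b) (a, b) + δ * (‖a‖ ^ 2 + ‖b‖ ^ 2) := by
  have hδ' : 0 < min δ (1 / 2) := lt_min hδ (by norm_num)
  obtain ⟨x, hx, y, hy, P', Q', X, Y, h1, h2, h3, h4, h5, h6, h7, h8, h9, h10, h11⟩ :=
    Pool.Agent.VSC.sums_gen (isCompact_closedBall x0 1) (isCompact_closedBall y0 1) hu hw
      (mem_closedBall_self zero_le_one) (mem_closedBall_self zero_le_one) (innerSL ℝ P)
      (innerSL ℝ Q) B (by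
        intro ε hε
        obtain ⟨r, hr, H⟩ := h ε hε
        exact ⟨r, hr, fun x _ y _ hx hy => H x y hx hy⟩) hδ'
  have hnorm : ∀ (p : E n →L[ℝ] ℝ) (P : E n), ‖(InnerProductSpace.toDual ℝ (E n)).symm p - P‖ =
      ‖p - innerSL ℝ P‖ := by
    intro p P
    have e1 : P = (InnerProductSpace.toDual ℝ (E n)).symm (innerSL ℝ P) :=
      ((InnerProductSpace.toDual ℝ (E n)).symm_apply_apply P).symm
    conv_lhs => rw [e1]
    rw [← map_sub, LinearIsometryEquiv.norm_map]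
  have hin : ∀ (p : E n →L[ℝ] ℝ) (v : E n),
      ⟪(InnerProductSpace.toDual ℝ (E n)).symm p, v⟫ = p v := fun p v =>
    InnerProductSpace.toDual_symm_apply
  have hloc : ∀ {f : E n → ℝ} {z z0 : E n} {p : E n →L[ℝ] ℝ} {Z : Bil n},
      ‖z - z0‖ < min δ (1 / 2) →
      (∀ ε > 0, ∃ r > 0, ∀ t ∈ closedBall z0 1, ‖t - z‖ < r →
        f t ≤ f z + p (t - z) + 1 / 2 * Z (t - z) (t - z) + ε * ‖t - z‖ ^ 2) →
      UJ f z ((InnerProductSpace.toDual ℝ (E n)).symm p) Z := by
    intro f z z0 p Z hz H ε hε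
    obtain ⟨r, hr, H'⟩ := H ε hε
    refine ⟨min r (1 / 2), lt_min hr (by norm_num), fun t ht => ?_⟩
    have e1 : t ∈ closedBall z0 1 := by
      rw [mem_closedBall, dist_eq_norm]
      have e2 : t - z0 = (t - z) + (z - z0) := by abel
      rw [e2]
      refine (norm_add_le _ _).trans ?_
      have e3 : ‖t - z‖ < 1 / 2 := ht.trans_le (min_le_right _ _)
      have e4 : ‖z - z0‖ < 1 / 2 := hz.trans_le (min_le_right _ _)
      linarith
    rw [hin]
    exact H' t e1 (ht.trans_le (min_le_left _ _))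
  refine ⟨x, y, (InnerProductSpace.toDual ℝ (E n)).symm P', (InnerProductSpace.toDual ℝ (E n)).symm Q',
    X, Y, h1.trans_le (min_le_left _ _), h2.trans_le (min_le_left _ _),
    h3.trans_le (min_le_left _ _), h4.trans_le (min_le_left _ _), ?_, ?_, h7, h8, hloc h1 h9,
    hloc h2 h10, fun a b => ?_⟩
  · rw [hnorm]
    exact h5.trans_le (min_le_left _ _)
  · rw [hnorm]
    exact h6.trans_le (min_le_left _ _)
  · refine (h11 a b).trans ?_
    have : min δ (1 / 2) ≤ δ := min_le_left _ _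
    gcongr

end Pool.Agent.TWC
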