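import Pool.Agent.TWC.TDF

/-!
# TWC TAA: Arzela-Ascoli along an ultrafilter

Let `F` be an ultrafilter with `F ≤ atTop` (`Filter.hyperfilter ℕ`, or `Ultrafilter.of atTop`). For each `y`,
`f k y ∈ [-C,C]` eventually, so the ultrafilter `F.map (f · y)` converges: `IsCompact.ultrafilter_le_nhds`
(`isCompact_Icc`); let `U y` be the limit. Equicontinuity passes to the limit: for `|y|, |z| ≤ R`, `|y - z| < η`:
`|U y - U z| ≤ ε` (`le_of_tendsto`), so `U` is continuous. Locally uniform convergence: given `R, ε` take `η` for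
`R + 1`, `ε/3`, a finite `η`-net of `closedBall 0 R` consisting of points of `closedBall 0 R`
(`IsCompact.elim_nhds_subcover` / `finite_cover_balls`), convergence at the finitely many points, and
`|f y - U y| ≤ |f y - f y'| + |f y' - U y'| + |U y' - U y| ≤ ε`.
-/

open Set Metric Filter Topology
open scoped RealInnerProductSpace

noncomputable section

namespace Pool.Agent.TWC

variable {n : ℕ}

theorem aal {f : ℕ → E n → ℝ}
    (hb : ∀ R : ℝ, ∃ C : ℝ, ∀ᶠ k in atTop, ∀ y, ‖y‖ ≤ R → |f k y| ≤ C)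
    (he : ∀ R : ℝ, ∀ ε > 0, ∃ η > 0, ∀ᶠ k in atTop, ∀ y z, ‖y‖ ≤ R → ‖z‖ ≤ R → ‖y - z‖ < η →
      |f k y - f k z| ≤ ε) :
    ∃ (F : Filter ℕ) (U : E n → ℝ), F.NeBot ∧ F ≤ atTop ∧ Continuous U ∧
      ∀ R : ℝ, ∀ ε > 0, ∀ᶠ k in F, ∀ y, ‖y‖ ≤ R → |f k y - U y| ≤ ε := by
  obtain ⟨F, hF⟩ : ∃ F : Ultrafilter ℕ, (F : Filter ℕ) ≤ atTop :=
    ⟨Ultrafilter.of atTop, Ultrafilter.of_le atTop⟩
  have hlim : ∀ y : E n, ∃ a : ℝ, Tendsto (fun k => f k y) F (𝓝 a) := by
    intro y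
    obtain ⟨C, hC⟩ := hb ‖y‖
    have h1 : ((F.map fun k => f k y : Ultrafilter ℝ) : Filter ℝ) ≤ 𝓟 (Icc (-C) C) := by
      rw [le_principal_iff, Ultrafilter.coe_map, mem_map]
      filter_upwards [hF hC] with k hk
      exact abs_le.1 (hk y le_rfl)
    obtain ⟨a, -, ha⟩ := isCompact_Icc.ultrafilter_le_nhds _ h1
    exact ⟨a, ha⟩
  choose U hU using hlim
  have heq : ∀ R : ℝ, ∀ ε > 0, ∃ η > 0, ∀ y z, ‖y‖ ≤ R → ‖z‖ ≤ R → ‖y - z‖ < η →
      |U y - U z| ≤ ε := by
    intro R ε hε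
    obtain ⟨η, hη, h1⟩ := he R ε hε
    refine ⟨η, hη, fun y z hy hz hyz => ?_⟩
    have h2 : Tendsto (fun k => |f k y - f k z|) F (𝓝 |U y - U z|) := ((hU y).sub (hU z)).abs
    refine le_of_tendsto h2 ?_
    filter_upwards [hF h1] with k hk
    exact hk y z hy hz hyz
  refine ⟨F, U, inferInstance, hF, ?_, ?_⟩
  · rw [continuous_iff_continuousAt]
    intro y
    rw [Metric.continuousAt_iff]
    intro ε hε
    obtain ⟨η, hη, h1⟩ := heq (‖y‖ + 1) (ε / 2) (half_pos hε)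
    refine ⟨min η 1, lt_min hη one_pos, fun z hz => ?_⟩
    rw [dist_eq_norm] at hz
    have hz1 : ‖z‖ ≤ ‖y‖ + 1 := by
      have h2 : ‖z‖ ≤ ‖z - y‖ + ‖y‖ := by
        simpa using norm_add_le (z - y) y
      linarith [hz.trans_le (min_le_right η 1)]
    have h3 := h1 z y hz1 (by linarith) (hz.trans_le (min_le_left _ _))
    rw [Real.dist_eq]
    linarith
  · intro R ε hε
    obtain ⟨η₁, hη₁, h1⟩ := he R (ε / 3) (by positivity)
    obtain ⟨η₂, hη₂, h2⟩ := heq R (ε / 3) (by positivity)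
    have hη : 0 < min η₁ η₂ := lt_min hη₁ hη₂
    obtain ⟨t, htK, ht, hcov⟩ := finite_cover_balls_of_compact
      (isCompact_closedBall (0 : E n) R) hη
    have h3 : ∀ᶠ k in (F : Filter ℕ), ∀ y ∈ t, |f k y - U y| ≤ ε / 3 := by
      rw [ht.eventually_all]
      intro y _
      have h4 := (hU y).eventually (Metric.closedBall_mem_nhds _ (by positivity : 0 < ε / 3))
      filter_upwards [h4] with k hk
      rw [← Real.dist_eq]
      exact hk
    filter_upwards [h3, hF h1] with k hk1 hk2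
    intro y hy
    have hyK : y ∈ closedBall (0 : E n) R := by rwa [mem_closedBall_zero_iff]
    obtain ⟨y', hy', hyy'⟩ := mem_iUnion₂.1 (hcov hyK)
    have hy'R : ‖y'‖ ≤ R := by
      have := htK hy'
      rwa [mem_closedBall_zero_iff] at this
    rw [mem_ball, dist_eq_norm] at hyy'
    have a1 := hk2 y y' hy hy'R (hyy'.trans_le (min_le_left _ _))
    have a2 := hk1 y' hy'
    have a3 := h2 y y' hy hy'R (hyy'.trans_le (min_le_right _ _))
    rw [abs_le] at a1 a2 a3 ⊢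
    constructor <;> linarith

end Pool.Agent.TWC
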