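import Pool.Agent.TWC.TDF
import Pool.Agent.TWC.LB

/-!
# TWC TEQ: equicontinuity of bounded q-concave subsolutions

`u ≥ 0` subsolution on the whole space, `Po u` open convex, `Po u ≠ univ`, `u^q` concave on `Po u`, `u ≤ M` on
`closedBall 0 (R+3)`. Then `u` has on `closedBall 0 R` a modulus of continuity depending only on
`n, p, b, κ, R, M`.

`eq_lin`: `u y ≤ C infDist y (Po u)ᶜ` for `|y| ≤ R + 1`, `C = C(n,p,b,κ,M)`. Let `C0, C1, K1` from `lb` and `M' = max M
(C0^(1/(p-2))) + 1`, so that `C0 ≤ M'^(p-2)`, `M ≤ M'`. Let `d = infDist y (Po u)ᶜ`; if `y ∉ Po u`: `u y = 0`. Else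
`d > 0`; let `b0` be a nearest point of the closed set `(Po u)ᶜ`, `|y - b0| = d`. If `d > 1/K1`: `u y ≤ M ≤ M K1 d`.
If `d ≤ 1/K1 ≤ 1`: `ν' = (y - b0)/d`. `ball y d ⊆ Po u`; the supporting functional of the open convex set `Po u` at
`b0` has direction `ν'` (as in the proof of `half` in GEO: `f z < f b0` on `Po u`, Riesz vector `m` of `-f`,
`<z - b0, m> > 0` on `ball y d`, so `m = |m| ν'`), so `<z - b0, ν'> > 0` for `z ∈ Po u`, and `u z = 0` if
`<z - b0, ν'> ≤ 0`. `lb` with radius `1`, `M'` (`closedBall b0 1 ⊆ closedBall 0 (R+3)`): `u y ≤ C1 M' <y - b0, ν'> =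
C1 M' d`.
`eq_lip`: a concave function `g` with `0 ≤ g ≤ G` on `ball y δ` satisfies `|g z - g y| ≤ 4 (G/δ) |z - y|` for
`|z - y| ≤ δ/4`. For `t = |z - y| > 0`, the point `w = y - (δ/2)(z - y)/t` is in the ball, and
`y = (t/(t+δ/2)) w + ((δ/2)/(t+δ/2)) z`, so `g y ≥ ((δ/2)/(t+δ/2)) g z`, `g z - g y ≤ (2t/δ) g y ≤ (2G/δ) t`. For the other
inequality exchange `y` and `z` (`ball z (3δ/4) ⊆ ball y δ`, use `w = z - (δ/2)(y-z)/t`).
`eqc`: let `ε > 0`, `G = max M 1`... with `g = u^q ≤ G := (max M 0 + 1)^q`, `u = g^m`. Let `δ = ε/(4 C + 4)`, `δ ≤ 1`. Let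
`|y|, |z| ≤ R`, `|y - z| < η ≤ δ/4`. If `infDist y (Po u)ᶜ < δ` then `infDist z (Po u)ᶜ < 2δ` (1-Lipschitz) and both
values are in `[0, 2 C δ] ⊆ [0, ε]`. Otherwise `ball y δ ⊆ Po u`, contained in `closedBall 0 (R+3)`, and `eq_lip`:
`|g z - g y| ≤ 4 (G/δ) η`; `t ↦ t^m` is uniformly continuous on `[0,G]` (compact), choose `η` accordingly.
-/

open Set Metric Filter Topology
open scoped RealInnerProductSpace

noncomputable section

namespace Pool.Agent.TWC

variable {n : ℕ} {p : ℝ}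

private theorem teq_sup {S : Set (E n)} (hS : Convex ℝ S) (ho : IsOpen S) {y b0 z : E n}
    (hb : b0 ∉ S) (hball : ball y ‖y - b0‖ ⊆ S) (hd : 0 < ‖y - b0‖) (hz : z ∈ S) :
    0 < ⟪z - b0, y - b0⟫ := by
  by_contra h
  push Not at h
  obtain ⟨ε, hε, hε'⟩ := Metric.isOpen_iff.1 ho z hz
  obtain ⟨v, hv⟩ : ∃ v : E n, v = y - b0 := ⟨_, rfl⟩
  rw [← hv] at h hball hd
  have hk : 0 < ε / (2 * ‖v‖) := by positivity
  obtain ⟨z', hz'⟩ : ∃ z' : E n, z' = z - (ε / (2 * ‖v‖)) • v := ⟨_, rfl⟩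
  have hz'S : z' ∈ S := by
    apply hε'
    rw [mem_ball, dist_eq_norm]
    have h1 : z' - z = -((ε / (2 * ‖v‖)) • v) := by rw [hz']; abel
    rw [h1, norm_neg, norm_smul, Real.norm_of_nonneg hk.le]
    have h2 : ε / (2 * ‖v‖) * ‖v‖ = ε / 2 := by field_simp
    rw [h2]; linarith
  have hneg : ⟪z' - b0, v⟫ < 0 := by
    have h1 : z' - b0 = (z - b0) - (ε / (2 * ‖v‖)) • v := by rw [hz']; abel
    rw [h1, inner_sub_left, real_inner_smul_left, real_inner_self_eq_norm_sq]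
    have h2 : 0 < ε / (2 * ‖v‖) * ‖v‖ ^ 2 := by positivity
    linarith
  obtain ⟨u, hu⟩ : ∃ u : E n, u = z' - b0 := ⟨_, rfl⟩
  rw [← hu] at hneg
  have hu0 : 0 < ‖u‖ := by
    rw [norm_pos_iff]
    intro h0
    rw [h0, inner_zero_left] at hneg
    exact lt_irrefl _ hneg
  obtain ⟨s, hs⟩ : ∃ s : ℝ, s = -⟪u, v⟫ / ‖u‖ ^ 2 := ⟨_, rfl⟩
  have hs0 : 0 < s := by
    rw [hs]
    apply div_pos (by linarith) (by positivity)
  have hsu : s * ‖u‖ ^ 2 = -⟪u, v⟫ := by
    rw [hs]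
    field_simp
  have hw : b0 - s • u ∈ S := by
    apply hball
    rw [mem_ball, dist_eq_norm]
    have h1 : b0 - s • u - y = -(v + s • u) := by rw [hv]; abel
    rw [h1, norm_neg]
    have h2 : ‖v + s • u‖ ^ 2 < ‖v‖ ^ 2 := by
      rw [norm_add_sq_real, real_inner_smul_right, norm_smul, Real.norm_of_nonneg hs0.le,
        real_inner_comm]
      have h3 : (s * ‖u‖) ^ 2 = s * (s * ‖u‖ ^ 2) := by ring
      rw [h3, hsu]
      nlinarith
    exact lt_of_pow_lt_pow_left₀ 2 (norm_nonneg v) h2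
  apply hb
  have h1 : (1 / (1 + s)) • (b0 - s • u) + (s / (1 + s)) • z' = b0 := by
    have h2 : z' = b0 + u := by rw [hu]; abel
    rw [h2, smul_sub, smul_smul, smul_add]
    have h3 : 1 / (1 + s) * s = s / (1 + s) := by ring
    rw [h3]
    have h4 : (1 / (1 + s)) • b0 + (s / (1 + s)) • b0 = b0 := by
      rw [← add_smul]
      have : 1 / (1 + s) + s / (1 + s) = 1 := by field_simp
      rw [this, one_smul]
    calc (1 / (1 + s)) • b0 - (s / (1 + s)) • u + ((s / (1 + s)) • b0 + (s / (1 + s)) • u)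
        = (1 / (1 + s)) • b0 + (s / (1 + s)) • b0 := by abel
      _ = b0 := h4
  rw [← h1]
  exact hS hw hz'S (by positivity) (by positivity) (by field_simp)

theorem eq_lin (hp : 2 < p) (b : E n) {κ : ℝ} (hκ : 0 ≤ κ) (M : ℝ) :
    ∃ C : ℝ, 0 < C ∧ ∀ κ', 0 ≤ κ' → κ' ≤ κ → ∀ (u : E n → ℝ) (R : ℝ), Sub p b κ' u →
      IsOpen (Po u) → Convex ℝ (Po u) → ((Po u)ᶜ).Nonempty →
      (∀ x, ‖x‖ ≤ R + 3 → u x ≤ M) → ∀ y, ‖y‖ ≤ R + 1 → u y ≤ C * infDist y (Po u)ᶜ := by
  obtain ⟨C0, C1, K1, hC0, hC1, hK1, H⟩ := lb (n := n) hp b hκ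
  obtain ⟨M', hM'⟩ : ∃ M' : ℝ, M' = max M (C0 ^ (1 / (p - 2))) + 1 := ⟨_, rfl⟩
  have hp2 : 0 < p - 2 := by linarith
  have hcpos : 0 < C0 ^ (1 / (p - 2)) := Real.rpow_pos_of_pos hC0 _
  have hMM : M ≤ M' := by rw [hM']; linarith [le_max_left M (C0 ^ (1 / (p - 2)))]
  have hCM : C0 ^ (1 / (p - 2)) ≤ M' := by
    rw [hM']; linarith [le_max_right M (C0 ^ (1 / (p - 2)))]
  have hM0 : 0 < M' := lt_of_lt_of_le hcpos hCM
  have hCC : C0 ≤ M' ^ (p - 2) := by
    have h1 : C0 = (C0 ^ (1 / (p - 2))) ^ (p - 2) := by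
      rw [← Real.rpow_mul hC0.le, one_div, inv_mul_cancel₀ hp2.ne', Real.rpow_one]
    rw [h1]
    exact Real.rpow_le_rpow hcpos.le hCM hp2.le
  refine ⟨C1 * M' + M' * K1, by positivity, ?_⟩
  intro κ' h0 h1 u R hu ho hc hne hM y hy
  have hnn := hu.nn
  by_cases hyS : y ∈ Po u
  swap
  · have : u y = 0 := le_antisymm (not_lt.1 hyS) (hnn y)
    rw [this]
    have := infDist_nonneg (x := y) (s := (Po u)ᶜ)
    positivity
  have hcl : IsClosed (Po u)ᶜ := ho.isClosed_compl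
  obtain ⟨b0, hb0, hd⟩ := hcl.exists_infDist_eq_dist hne y
  rw [dist_eq_norm] at hd
  have hyb : y ≠ b0 := by
    rintro rfl
    exact hb0 hyS
  have hd0 : 0 < ‖y - b0‖ := norm_pos_iff.2 (sub_ne_zero.2 hyb)
  rw [hd]
  by_cases hbig : 1 / K1 < ‖y - b0‖
  · have h2 : u y ≤ M' := (hM y (by linarith)).trans hMM
    have h3 : 1 ≤ K1 * ‖y - b0‖ := by
      rw [div_lt_iff₀ (by linarith)] at hbig
      linarith
    have h4 : M' * 1 ≤ M' * (K1 * ‖y - b0‖) := mul_le_mul_of_nonneg_left h3 hM0.le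
    have h5 : 0 ≤ C1 * M' * ‖y - b0‖ := by positivity
    nlinarith
  · have hbig := not_lt.1 hbig
    have hK1' : 1 / K1 ≤ 1 := by
      rw [div_le_one (by linarith)]
      exact hK1
    have hball : ball y ‖y - b0‖ ⊆ Po u := by
      intro x hx
      by_contra hxs
      have h2 : infDist y (Po u)ᶜ ≤ dist y x := infDist_le_dist_of_mem hxs
      rw [mem_ball, dist_comm] at hx
      rw [hd] at h2
      linarith
    obtain ⟨d, hdd⟩ : ∃ d : ℝ, d = ‖y - b0‖ := ⟨_, rfl⟩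
    rw [← hdd] at hd0
    have hν : ‖(1 / d) • (y - b0)‖ = 1 := by
      rw [norm_smul, Real.norm_of_nonneg (by positivity), ← hdd]
      field_simp
    have hin : ⟪y - b0, (1 / d) • (y - b0)⟫ = d := by
      rw [real_inner_smul_right, real_inner_self_eq_norm_sq, ← hdd]
      field_simp
    have hb0n : ‖b0‖ ≤ R + 2 := by
      have h2 : b0 = y - (y - b0) := by abel
      rw [h2]
      refine (norm_sub_le _ _).trans ?_
      linarith
    have h6 := H κ' h0 h1 u hu b0 ((1 / d) • (y - b0)) 1 M' hν one_pos le_rfl hM0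
      (by simpa using hCC) ?_ ?_ y ?_ ?_
    · rw [hin] at h6
      rw [← hdd]
      have h7 : 0 ≤ M' * K1 * d := by positivity
      rw [div_one] at h6
      nlinarith
    · intro x hx
      rw [mem_closedBall, dist_eq_norm] at hx
      refine (hM x ?_).trans hMM
      have h2 : x = b0 + (x - b0) := by abel
      rw [h2]
      refine (norm_add_le _ _).trans ?_
      linarith
    · intro x hx hxn
      refine le_antisymm ?_ (hnn x)
      by_contra hpos
      have h2 := teq_sup hc ho hb0 hball (by rw [← hdd]; exact hd0) (show x ∈ Po u from not_le.1 hpos)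
      rw [real_inner_smul_right] at hxn
      have : 0 < 1 / d * ⟪x - b0, y - b0⟫ := by positivity
      linarith
    · rw [mem_closedBall, dist_eq_norm]
      exact hbig
    · rw [hin]
      exact hd0.le

private theorem teq_one {g : E n → ℝ} {y a b : E n} {δ G : ℝ} (hδ : 0 < δ)
    (hg : ConcaveOn ℝ (ball y δ) g) (h0 : ∀ x ∈ ball y δ, 0 ≤ g x) (h1 : ∀ x ∈ ball y δ, g x ≤ G)
    (ha : ‖a - y‖ ≤ δ / 4) (hb : ‖b - y‖ ≤ δ / 4) (hab : 0 < ‖b - a‖) :
    g b - g a ≤ 4 * (G / δ) * ‖b - a‖ := by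
  obtain ⟨t, ht⟩ : ∃ t : ℝ, t = ‖b - a‖ := ⟨_, rfl⟩
  rw [← ht] at hab ⊢
  obtain ⟨w, hw⟩ : ∃ w : E n, w = a - ((δ / 2) / t) • (b - a) := ⟨_, rfl⟩
  have haB : a ∈ ball y δ := by
    rw [mem_ball, dist_eq_norm]; linarith
  have hbB : b ∈ ball y δ := by
    rw [mem_ball, dist_eq_norm]; linarith
  have hwB : w ∈ ball y δ := by
    rw [mem_ball, dist_eq_norm]
    have h2 : w - y = (a - y) - ((δ / 2) / t) • (b - a) := by rw [hw]; abel
    rw [h2]
    refine lt_of_le_of_lt (norm_sub_le _ _) ?_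
    rw [norm_smul, Real.norm_of_nonneg (by positivity), ← ht]
    have h3 : δ / 2 / t * t = δ / 2 := by field_simp
    rw [h3]; linarith
  have hsum : 0 < t + δ / 2 := by positivity
  have hcomb : (t / (t + δ / 2)) • w + ((δ / 2) / (t + δ / 2)) • b = a := by
    have h2 : ((δ / 2) / (t + δ / 2)) • b = ((δ / 2) / (t + δ / 2)) • a +
        ((δ / 2) / (t + δ / 2)) • (b - a) := by
      rw [← smul_add]
      congr 1
      abel
    have h3 : t / (t + δ / 2) * (δ / 2 / t) = (δ / 2) / (t + δ / 2) := by field_simp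
    rw [hw, smul_sub, smul_smul, h3, h2]
    have h4 : (t / (t + δ / 2)) • a + ((δ / 2) / (t + δ / 2)) • a = a := by
      rw [← add_smul]
      have : t / (t + δ / 2) + (δ / 2) / (t + δ / 2) = 1 := by
        rw [← add_div]
        exact div_self hsum.ne'
      rw [this, one_smul]
    calc (t / (t + δ / 2)) • a - ((δ / 2) / (t + δ / 2)) • (b - a) +
          (((δ / 2) / (t + δ / 2)) • a + ((δ / 2) / (t + δ / 2)) • (b - a))
        = (t / (t + δ / 2)) • a + ((δ / 2) / (t + δ / 2)) • a := by abel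
      _ = a := h4
  have hcc := hg.2 hwB hbB (show 0 ≤ t / (t + δ / 2) by positivity)
    (show 0 ≤ (δ / 2) / (t + δ / 2) by positivity)
    (by rw [← add_div]; exact div_self hsum.ne')
  rw [hcomb, smul_eq_mul, smul_eq_mul] at hcc
  have hgw := h0 w hwB
  have hga := h0 a haB
  have hgaG := h1 a haB
  have hG0 : 0 ≤ G := hga.trans hgaG
  have h5 : (δ / 2) / (t + δ / 2) * g b ≤ g a := by
    have : 0 ≤ t / (t + δ / 2) * g w := by positivity
    linarith
  have h6 : (δ / 2) * g b ≤ (t + δ / 2) * g a := by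
    have h7 := mul_le_mul_of_nonneg_left h5 hsum.le
    have h8 : (t + δ / 2) * ((δ / 2) / (t + δ / 2) * g b) = (δ / 2) * g b := by field_simp
    rw [h8] at h7
    exact h7
  have h9 : (δ / 2) * (g b - g a) ≤ t * G := by
    have : t * g a ≤ t * G := mul_le_mul_of_nonneg_left hgaG hab.le
    nlinarith
  have h10 : g b - g a ≤ 2 * (t * G) / δ := by
    rw [le_div_iff₀ hδ]
    linarith
  have h11 : 2 * (t * G) / δ ≤ 4 * (G / δ) * t := by
    have h12 : 2 * (t * G) / δ = 2 * (G / δ) * t := by ring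
    rw [h12]
    have : 0 ≤ G / δ * t := by positivity
    linarith
  exact h10.trans h11

theorem eq_lip {g : E n → ℝ} {y z : E n} {δ G : ℝ} (hδ : 0 < δ)
    (hg : ConcaveOn ℝ (ball y δ) g) (h0 : ∀ x ∈ ball y δ, 0 ≤ g x) (h1 : ∀ x ∈ ball y δ, g x ≤ G)
    (hz : ‖z - y‖ ≤ δ / 4) : |g z - g y| ≤ 4 * (G / δ) * ‖z - y‖ := by
  by_cases hzy : z = y
  · rw [hzy, sub_self, abs_zero, sub_self, norm_zero, mul_zero]
  have hpos : 0 < ‖z - y‖ := norm_pos_iff.2 (sub_ne_zero.2 hzy)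
  have hyy : ‖y - y‖ ≤ δ / 4 := by rw [sub_self, norm_zero]; positivity
  rw [abs_le]
  constructor
  · have h2 := teq_one hδ hg h0 h1 hz hyy (by rw [norm_sub_rev]; exact hpos)
    rw [norm_sub_rev y z] at h2
    linarith
  · exact teq_one hδ hg h0 h1 hyy hz hpos

theorem eqc (hp : 2 < p) (b : E n) {κ : ℝ} (hκ : 0 ≤ κ) (R M : ℝ) {ε : ℝ} (hε : 0 < ε) :
    ∃ η > 0, ∀ κ', 0 ≤ κ' → κ' ≤ κ → ∀ u : E n → ℝ, Sub p b κ' u →
      IsOpen (Po u) → Convex ℝ (Po u) → ((Po u)ᶜ).Nonempty →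
      ConcaveOn ℝ (Po u) (fun x => u x ^ qq p) →
      (∀ x, ‖x‖ ≤ R + 3 → u x ≤ M) → ∀ y z, ‖y‖ ≤ R → ‖z‖ ≤ R → ‖y - z‖ < η →
      |u y - u z| ≤ ε := by
  obtain ⟨C, hC, HC⟩ := eq_lin (n := n) hp b hκ M
  have hq : 0 < qq p := by
    unfold qq
    apply div_pos <;> linarith
  have hm : 0 ≤ mm p := by
    unfold mm
    apply div_nonneg <;> linarith
  have hqm : qq p * mm p = 1 := by
    unfold qq mm
    have h1 : p - 2 ≠ 0 := by linarith
    have h2 : p ≠ 0 := by linarith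
    field_simp
  obtain ⟨G, hG⟩ : ∃ G : ℝ, G = (max M 0 + 1) ^ qq p := ⟨_, rfl⟩
  have hM0 : 0 ≤ max M 0 := le_max_right _ _
  have hG0 : 0 < G := by
    rw [hG]
    apply Real.rpow_pos_of_pos
    linarith
  obtain ⟨δ, hδd⟩ : ∃ δ : ℝ, δ = min 1 (ε / (2 * C)) := ⟨_, rfl⟩
  have hδ : 0 < δ := by
    rw [hδd]
    apply lt_min one_pos
    positivity
  have hδ1 : δ ≤ 1 := by rw [hδd]; exact min_le_left _ _
  have hδ2 : 2 * C * δ ≤ ε := by
    have h1 : δ ≤ ε / (2 * C) := by rw [hδd]; exact min_le_right _ _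
    rw [le_div_iff₀ (by positivity)] at h1
    linarith
  have huc : UniformContinuousOn (fun t : ℝ => t ^ mm p) (Icc 0 G) :=
    isCompact_Icc.uniformContinuousOn_of_continuous
      ((Real.continuous_rpow_const hm).continuousOn)
  obtain ⟨θ, hθ, hθ'⟩ := Metric.uniformContinuousOn_iff.1 huc ε hε
  have hGd : 0 < 4 * (G / δ) + 1 := by positivity
  refine ⟨min (δ / 4) (θ / (4 * (G / δ) + 1)), lt_min (by positivity) (by positivity), ?_⟩
  intro κ' h0 h1 u hu ho hc hne hcv hM y z hy hz hyz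
  have hyz1 : ‖y - z‖ < δ / 4 := lt_of_lt_of_le hyz (min_le_left _ _)
  have hyz2 : ‖y - z‖ < θ / (4 * (G / δ) + 1) := lt_of_lt_of_le hyz (min_le_right _ _)
  have hnn := hu.nn
  by_cases hsm : infDist y (Po u)ᶜ < δ
  · have hz2 : infDist z (Po u)ᶜ ≤ 2 * δ := by
      have h2 := infDist_le_infDist_add_dist (s := (Po u)ᶜ) (x := z) (y := y)
      rw [dist_comm, dist_eq_norm] at h2
      linarith
    have hy3 := HC κ' h0 h1 u R hu ho hc hne hM y (by linarith)
    have hz3 := HC κ' h0 h1 u R hu ho hc hne hM z (by linarith)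
    have hy4 : u y ≤ ε := by
      refine hy3.trans (le_trans ?_ hδ2)
      have := mul_le_mul_of_nonneg_left hsm.le hC.le
      nlinarith
    have hz4 : u z ≤ ε := by
      refine hz3.trans (le_trans ?_ hδ2)
      have := mul_le_mul_of_nonneg_left hz2 hC.le
      nlinarith
    rw [abs_le]
    constructor
    · linarith [hnn y]
    · linarith [hnn z]
  · have hsm := not_lt.1 hsm
    have hball : ball y δ ⊆ Po u := by
      intro x hx
      by_contra hxs
      have h2 : infDist y (Po u)ᶜ ≤ dist y x := infDist_le_dist_of_mem hxs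
      rw [mem_ball, dist_comm] at hx
      linarith
    have hub : ∀ x ∈ ball y δ, u x ^ qq p ≤ G := by
      intro x hx
      rw [hG]
      apply Real.rpow_le_rpow (hnn x) _ hq.le
      have h2 : ‖x‖ ≤ R + 3 := by
        rw [mem_ball, dist_eq_norm] at hx
        have h3 : x = y + (x - y) := by abel
        rw [h3]
        refine (norm_add_le _ _).trans ?_
        linarith
      have h3 := hM x h2
      have h4 : M ≤ max M 0 := le_max_left _ _
      linarith
    have hg0 : ∀ x, 0 ≤ u x ^ qq p := fun x => Real.rpow_nonneg (hnn x) _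
    have hlip := eq_lip (g := fun x => u x ^ qq p) (z := z) hδ (hcv.subset hball (convex_ball _ _))
      (fun x _ => hg0 x) hub (by rw [norm_sub_rev]; exact hyz1.le)
    have hyB : y ∈ ball y δ := mem_ball_self hδ
    have hzB : z ∈ ball y δ := by
      rw [mem_ball, dist_comm, dist_eq_norm]
      linarith
    have hid : ∀ x, (u x ^ qq p) ^ mm p = u x := by
      intro x
      rw [← Real.rpow_mul (hnn x), hqm, Real.rpow_one]
    have h5 := hθ' (u y ^ qq p) ⟨hg0 y, hub y hyB⟩ (u z ^ qq p) ⟨hg0 z, hub z hzB⟩ (by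
      rw [dist_comm, Real.dist_eq]
      refine lt_of_le_of_lt hlip ?_
      rw [norm_sub_rev]
      rw [lt_div_iff₀ hGd] at hyz2
      have := norm_nonneg (y - z)
      nlinarith)
    simp only [hid] at h5
    rw [Real.dist_eq] at h5
    exact h5.le

end Pool.Agent.TWC
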