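import Pool.Agent.TWC.TCA
import Pool.Agent.TWC.JTA
import Pool.Agent.TWC.PAL

/-!
# TWC TSC: scaling

`u_r y = bl p φ P0 r y = r^(-β) φ (P0 + r y)`, `β = be p`, `(β-1)(p-2) = 1`. By `uj_scale` (`s = r^(-β)`):
`UJ u_r y P' X'` iff `UJ φ (P0 + r y) P X` with `P' = r^(1-β) P`, `X' = r^(2-β) X`. Since
`r^((1-β)(p-2)) = r^(-1)`: `pA p P' X' = r^(1-β) pA p P X`, `<b,P'> = r^(1-β) <b,P>`,
`κ r u_r = r^(1-β) κ φ (P0 + r y)`. So sub and supersolutions are mapped to sub and supersolutions with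
`κ` replaced by `κ r`. (`pA_scale`, `pA_form_smul`; for `Sp` use `lj_neg`/`uj_neg` or the same proof; write
`P = r^(β-1) P'` etc. to invert.)
The positivity set of `u_r` is `{y | P0 + r y ∈ Po φ}`, contained in `TT (Po φ) P0`.
`bl_inf_le`: for `z ∉ T = TT (Po φ) P0` the point `P0 + r z` is not in `Po φ`, and
`dist (P0 + r y) (P0 + r z) = r dist y z`; take the infimum over `z ∈ Tᶜ` (nonempty).
`bl_conc`: `u_r^q = r^(-βq) φ(P0 + r ·)^q`, a composition with an affine map.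
-/

open Set Metric Filter Topology
open scoped RealInnerProductSpace

noncomputable section

namespace Pool.Agent.TWC

variable {n : ℕ} {p : ℝ} {b : E n} {κ : ℝ} {φ : E n → ℝ} {P0 : E n} {r : ℝ}

private theorem TSC_key (hp : 2 < p) (hr : 0 < r) :
    (r ^ (-be p) * r) ^ (p - 2) * (r ^ (-be p) * r ^ 2) = r ^ (-be p) * r := by
  have h1 : r ^ (-be p) * r = r ^ (-be p + 1) := by
    rw [Real.rpow_add hr, Real.rpow_one]
  have h2 : (r ^ (-be p) * r) ^ (p - 2) = r⁻¹ := by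
    rw [h1, ← Real.rpow_mul hr.le]
    have h3 : (-be p + 1) * (p - 2) = -1 := by
      have h4 : p - 2 ≠ 0 := by linarith
      unfold be
      field_simp
      ring
    rw [h3, Real.rpow_neg_one]
  rw [h2]
  field_simp

private theorem TSC_alg (hp : 2 < p) (hr : 0 < r) (P : E n) (X : Bil n) (t : ℝ) :
    pA p ((r ^ (-be p) * r) • P) ((r ^ (-be p) * r ^ 2) • X) + ⟪b, (r ^ (-be p) * r) • P⟫ +
      κ * r * (r ^ (-be p) * t) = (r ^ (-be p) * r) * (pA p P X + ⟪b, P⟫ + κ * t) := by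
  have hs : 0 < r ^ (-be p) := Real.rpow_pos_of_pos hr _
  rw [pA_scale hp (by positivity), pA_form_smul, inner_smul_right]
  have h1 : (r ^ (-be p) * r) ^ (p - 2) * (r ^ (-be p) * r ^ 2 * pA p P X) =
      ((r ^ (-be p) * r) ^ (p - 2) * (r ^ (-be p) * r ^ 2)) * pA p P X := by ring
  rw [h1, TSC_key hp hr]
  ring

private theorem TSC_inv {a : ℝ} (ha : 0 < a) (P : E n) : a • (a⁻¹ • P) = P := by
  rw [smul_smul, mul_inv_cancel₀ ha.ne', one_smul]

private theorem TSC_invB {a : ℝ} (ha : 0 < a) (X : Bil n) : a • (a⁻¹ • X) = X := by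
  rw [smul_smul, mul_inv_cancel₀ ha.ne', one_smul]

private theorem TSC_neg {a : ℝ} (ha : 0 < a) (P : E n) : a • (-(a⁻¹ • P)) = -P := by
  rw [smul_neg, TSC_inv ha]

private theorem TSC_negB {a : ℝ} (ha : 0 < a) (X : Bil n) : a • (-(a⁻¹ • X)) = -X := by
  ext v w
  show a * -(a⁻¹ * X v w) = -(X v w)
  field_simp

private theorem TSC_contmap (P0 : E n) (r : ℝ) : Continuous (fun y : E n => P0 + r • y) :=
  continuous_const.add (continuous_id.const_smul r)

theorem bl_sub (hp : 2 < p) (h : Sub p b κ φ) (hr : 0 < r) : Sub p b (κ * r) (bl p φ P0 r) := by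
  have hs : 0 < r ^ (-be p) := Real.rpow_pos_of_pos hr _
  refine ⟨fun x => mul_nonneg hs.le (h.nn _), ?_, ?_⟩
  · intro x a ha
    have ha' : r ^ (-be p) * φ (P0 + r • x) < a := ha
    have h1 : φ (P0 + r • x) < a / r ^ (-be p) := by
      rw [lt_div_iff₀ hs, mul_comm]
      exact ha'
    have h2 := (TSC_contmap P0 r).continuousAt.eventually (h.usc (P0 + r • x) _ h1)
    filter_upwards [h2] with y hy
    show r ^ (-be p) * φ (P0 + r • y) < a
    rw [lt_div_iff₀ hs, mul_comm] at hy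
    exact hy
  · intro x _ P X hX
    have ha : 0 < r ^ (-be p) * r := by positivity
    have hb : 0 < r ^ (-be p) * r ^ 2 := by positivity
    have h1 : UJ (fun y => r ^ (-be p) * φ (P0 + r • y)) x
        ((r ^ (-be p) * r) • ((r ^ (-be p) * r)⁻¹ • P))
        ((r ^ (-be p) * r ^ 2) • ((r ^ (-be p) * r ^ 2)⁻¹ • X)) := by
      rw [TSC_inv ha, TSC_invB hb]
      exact hX
    rw [uj_scale hs hr] at h1
    have h2 := h.sb _ (mem_univ _) _ _ h1
    have h3 := TSC_alg (κ := κ) (b := b) hp hr ((r ^ (-be p) * r)⁻¹ • P)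
      ((r ^ (-be p) * r ^ 2)⁻¹ • X) (φ (P0 + r • x))
    rw [TSC_inv ha, TSC_invB hb] at h3
    show 0 ≤ pA p P X + ⟪b, P⟫ + κ * r * (r ^ (-be p) * φ (P0 + r • x))
    rw [h3]
    exact mul_nonneg ha.le h2

theorem bl_sup (hp : 2 < p) {O : Set (E n)} (h : Sup p b κ O φ) (hr : 0 < r) :
    Sup p b (κ * r) {y | P0 + r • y ∈ O} (bl p φ P0 r) := by
  have hs : 0 < r ^ (-be p) := Real.rpow_pos_of_pos hr _
  refine ⟨fun x => mul_nonneg hs.le (h.nn _), ?_, ?_⟩
  · exact continuous_const.mul (h.cont.comp (TSC_contmap P0 r))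
  · intro x hx P X hX
    have ha : 0 < r ^ (-be p) * r := by positivity
    have hb : 0 < r ^ (-be p) * r ^ 2 := by positivity
    have h1 : UJ (fun y => r ^ (-be p) * (-φ (P0 + r • y))) x
        ((r ^ (-be p) * r) • (-((r ^ (-be p) * r)⁻¹ • P)))
        ((r ^ (-be p) * r ^ 2) • (-((r ^ (-be p) * r ^ 2)⁻¹ • X))) := by
      rw [TSC_neg ha, TSC_negB hb]
      have h0 := uj_neg.2 hX
      have e : (fun y => r ^ (-be p) * (-φ (P0 + r • y))) = fun y => -bl p φ P0 r y := by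
        funext y
        unfold bl
        ring
      rw [e]
      exact h0
    rw [uj_scale (u := fun z => -φ z) hs hr] at h1
    have h2 := h.sp _ hx _ _ (uj_neg.1 h1)
    have h3 := TSC_alg (κ := κ) (b := b) hp hr ((r ^ (-be p) * r)⁻¹ • P)
      ((r ^ (-be p) * r ^ 2)⁻¹ • X) (φ (P0 + r • x))
    rw [TSC_inv ha, TSC_invB hb] at h3
    show pA p P X + ⟪b, P⟫ + κ * r * (r ^ (-be p) * φ (P0 + r • x)) ≤ 0
    rw [h3]
    exact mul_nonpos_of_nonneg_of_nonpos ha.le h2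

theorem bl_cont (h : Continuous φ) : Continuous (bl p φ P0 r) :=
  continuous_const.mul (h.comp (TSC_contmap P0 r))

theorem bl_po (hr : 0 < r) (y : E n) : y ∈ Po (bl p φ P0 r) ↔ P0 + r • y ∈ Po φ := by
  have hs : 0 < r ^ (-be p) := Real.rpow_pos_of_pos hr _
  show 0 < r ^ (-be p) * φ (P0 + r • y) ↔ 0 < φ (P0 + r • y)
  exact mul_pos_iff_of_pos_left hs

theorem bl_open (hr : 0 < r) (h : IsOpen (Po φ)) : IsOpen (Po (bl p φ P0 r)) := by
  have h1 : Po (bl p φ P0 r) = (fun y : E n => P0 + r • y) ⁻¹' Po φ := by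
    ext y
    exact bl_po hr y
  rw [h1]
  exact h.preimage (TSC_contmap P0 r)

private theorem TSC_comb (P0 x y : E n) (r a c : ℝ) (hac : a + c = 1) :
    P0 + r • (a • x + c • y) = a • (P0 + r • x) + c • (P0 + r • y) := by
  have h1 : P0 = (a + c) • P0 := by rw [hac, one_smul]
  calc P0 + r • (a • x + c • y) = (a + c) • P0 + r • (a • x + c • y) := by rw [← h1]
    _ = a • (P0 + r • x) + c • (P0 + r • y) := by module

theorem bl_convex (hr : 0 < r) (h : Convex ℝ (Po φ)) : Convex ℝ (Po (bl p φ P0 r)) := by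
  intro x hx y hy a c ha hc hac
  rw [bl_po hr] at hx hy ⊢
  rw [TSC_comb P0 x y r a c hac]
  exact h hx hy ha hc hac

theorem bl_conc (hr : 0 < r) (h0 : ∀ x, 0 ≤ φ x) (h : ConcaveOn ℝ (Po φ) (fun x => φ x ^ qq p)) :
    ConcaveOn ℝ (Po (bl p φ P0 r)) (fun x => bl p φ P0 r x ^ qq p) := by
  have hs : 0 < r ^ (-be p) := Real.rpow_pos_of_pos hr _
  refine ⟨bl_convex hr h.1, ?_⟩
  intro x hx y hy a c ha hc hac
  rw [bl_po hr] at hx hy
  have h1 := h.2 hx hy ha hc hac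
  have e : ∀ z, bl p φ P0 r z ^ qq p = (r ^ (-be p)) ^ qq p * φ (P0 + r • z) ^ qq p := fun z =>
    Real.mul_rpow hs.le (h0 _)
  simp only [e, TSC_comb P0 x y r a c hac, smul_eq_mul] at h1 ⊢
  have h2 : 0 ≤ (r ^ (-be p)) ^ qq p := by positivity
  have h3 := mul_le_mul_of_nonneg_left h1 h2
  calc a * ((r ^ (-be p)) ^ qq p * φ (P0 + r • x) ^ qq p) +
      c * ((r ^ (-be p)) ^ qq p * φ (P0 + r • y) ^ qq p) =
      (r ^ (-be p)) ^ qq p * (a * φ (P0 + r • x) ^ qq p + c * φ (P0 + r • y) ^ qq p) := by ring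
    _ ≤ _ := h3

theorem bl_po_sub (hr : 0 < r) : Po (bl p φ P0 r) ⊆ TT (Po φ) P0 := by
  intro y hy
  exact ⟨r, hr, (bl_po hr y).1 hy⟩

theorem bl_inf_le (hr : 0 < r) (hT : ((TT (Po φ) P0)ᶜ).Nonempty) (y : E n) :
    infDist (P0 + r • y) (Po φ)ᶜ ≤ r * infDist y (TT (Po φ) P0)ᶜ := by
  have h1 : infDist (P0 + r • y) (Po φ)ᶜ / r ≤ infDist y (TT (Po φ) P0)ᶜ := by
    rw [Metric.le_infDist hT]
    intro z hz
    have hz' : P0 + r • z ∈ (Po φ)ᶜ := fun h => hz ⟨r, hr, h⟩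
    rw [div_le_iff₀ hr]
    have h2 := Metric.infDist_le_dist_of_mem (x := P0 + r • y) hz'
    have h3 : dist (P0 + r • y) (P0 + r • z) = dist y z * r := by
      rw [dist_eq_norm, dist_eq_norm, add_sub_add_left_eq_sub, ← smul_sub, norm_smul,
        Real.norm_of_nonneg hr.le, mul_comm]
    rw [← h3]
    exact h2
  rw [div_le_iff₀ hr] at h1
  rw [mul_comm]
  exact h1

end Pool.Agent.TWC
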