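import Pool.Agent.TWC.TGR
import Pool.Agent.TWC.TAA
import Pool.Agent.TWC.TSC
import Pool.Agent.TWC.TEQ

/-!
# TWC TBA: existence of the blow up limit

`u_k = bl p φ P0 (rr k)`, `rr k = 1/(k+1)`, growth `φ x ≤ C |x - P0|^β` for `|x - P0| < r1`. Apply `aal` to `f = u_k`.
Bound: for `|y| ≤ R` and `rr k * (|R| + 1) < r1` (eventually): `0 ≤ u_k y ≤ (rr k)^(-β) C (rr k |y|)^β = C |y|^β ≤ C |R|^β`
(if `R < 0` there is no `y`; use `(|R| + 1)^β`).
Equicontinuity: `eqc` with `κ = ka p`, `κ' = ka p * rr k ≤ ka p`, `M = C (|R| + 4)^β`; hypotheses: `bl_sub`, `bl_open`,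
`bl_convex`, `bl_conc` (`φ ≥ 0`), the complement of `Po u_k` contains `0` (`P0 ∉ Po φ`, `ctx_P0`), and
`|x| ≤ R + 3` implies `u_k x ≤ C (|R|+4)^β` for large `k`.
-/

open Set Metric Filter Topology
open scoped RealInnerProductSpace

noncomputable section

namespace Pool.Agent.TWC

variable {n : ℕ} {p c : ℝ} {e : E n} {r0 : ℝ} {Ω : Set (E n)} {φ : E n → ℝ} {P0 ν : E n}

theorem rr_pos (k : ℕ) : 0 < rr k := by
  unfold rr
  positivity

theorem rr_le_one (k : ℕ) : rr k ≤ 1 := by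
  unfold rr
  rw [div_le_one (by positivity)]
  have : (0 : ℝ) ≤ k := Nat.cast_nonneg k
  linarith

theorem rr_tendsto : Tendsto rr atTop (𝓝 0) := by
  exact tendsto_one_div_add_atTop_nhds_zero_nat

private theorem tba_bd {C r1 : ℝ} (hp : 2 < p) (hC : 0 < C) (hφ : ∀ x, 0 ≤ φ x)
    (hg : ∀ x, ‖x - P0‖ < r1 → φ x ≤ C * ‖x - P0‖ ^ be p) {r ρ : ℝ} (hr : 0 < r) (hρ : 0 ≤ ρ)
    (h1 : r * ρ < r1) {y : E n} (hy : ‖y‖ ≤ ρ) :
    0 ≤ bl p φ P0 r y ∧ bl p φ P0 r y ≤ C * ρ ^ be p := by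
  have hb : 0 < be p := by
    unfold be
    apply div_pos <;> linarith
  have hrp : 0 < r ^ (-be p) := Real.rpow_pos_of_pos hr _
  constructor
  · unfold bl
    exact mul_nonneg hrp.le (hφ _)
  · unfold bl
    have h2 : ‖P0 + r • y - P0‖ = r * ‖y‖ := by
      rw [add_sub_cancel_left, norm_smul, Real.norm_of_nonneg hr.le]
    have h3 : r * ‖y‖ ≤ r * ρ := mul_le_mul_of_nonneg_left hy hr.le
    have h4 := hg (P0 + r • y) (by rw [h2]; linarith)
    rw [h2] at h4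
    have h5 : (r * ‖y‖) ^ be p = r ^ be p * ‖y‖ ^ be p := Real.mul_rpow hr.le (norm_nonneg y)
    rw [h5] at h4
    have h6 : r ^ (-be p) * r ^ be p = 1 := by
      rw [← Real.rpow_add hr, neg_add_cancel, Real.rpow_zero]
    have h7 : ‖y‖ ^ be p ≤ ρ ^ be p := Real.rpow_le_rpow (norm_nonneg y) hy hb.le
    calc r ^ (-be p) * φ (P0 + r • y) ≤ r ^ (-be p) * (C * (r ^ be p * ‖y‖ ^ be p)) :=
          mul_le_mul_of_nonneg_left h4 hrp.le
      _ = (r ^ (-be p) * r ^ be p) * (C * ‖y‖ ^ be p) := by ring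
      _ = C * ‖y‖ ^ be p := by rw [h6, one_mul]
      _ ≤ C * ρ ^ be p := mul_le_mul_of_nonneg_left h7 hC.le

private theorem tba_ev {r1 : ℝ} (hr1 : 0 < r1) (ρ : ℝ) : ∀ᶠ k in atTop, rr k * ρ < r1 := by
  have h1 : Tendsto (fun k => rr k * ρ) atTop (𝓝 (0 * ρ)) := rr_tendsto.mul_const ρ
  rw [zero_mul] at h1
  exact h1.eventually (gt_mem_nhds hr1)

theorem bu_exists (h : Ctx p c e r0 Ω φ P0 ν) {C r1 : ℝ} (hC : 0 < C) (hr1 : 0 < r1)
    (hg : ∀ x, ‖x - P0‖ < r1 → φ x ≤ C * ‖x - P0‖ ^ be p) :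
    ∃ (F : Filter ℕ) (U : E n → ℝ), F.NeBot ∧ F ≤ atTop ∧ Continuous U ∧
      ∀ R : ℝ, ∀ ε > 0, ∀ᶠ k in F, ∀ y, ‖y‖ ≤ R → |bl p φ P0 (rr k) y - U y| ≤ ε := by
  have hp := h.hp
  have hnn := h.tw.sub.nn
  have hka : 0 ≤ ka p := by
    unfold ka
    apply div_nonneg <;> linarith
  apply aal (f := fun k => bl p φ P0 (rr k))
  · intro R
    refine ⟨C * (|R| + 1) ^ be p, ?_⟩
    filter_upwards [tba_ev hr1 (|R| + 1)] with k hk
    intro y hy
    have hR : ‖y‖ ≤ |R| + 1 := by linarith [le_abs_self R]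
    have h2 := tba_bd hp hC hnn hg (rr_pos k) (by positivity) hk hR
    rw [abs_of_nonneg h2.1]
    exact h2.2
  · intro R ε hε
    obtain ⟨η, hη, hH⟩ := eqc (n := n) hp (c • e) hka R (C * (|R| + 4) ^ be p) hε
    refine ⟨η, hη, ?_⟩
    filter_upwards [tba_ev hr1 (|R| + 4)] with k hk
    intro y z hy hz hyz
    have hrk := rr_pos k
    refine hH (ka p * rr k) (mul_nonneg hka hrk.le) ?_ (bl p φ P0 (rr k))
      (bl_sub hp h.tw.sub hrk) (bl_open hrk h.tw.qs.isOpen) (bl_convex hrk h.tw.qs.convex)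
      ⟨0, ?_⟩ (bl_conc hrk hnn h.tw.qs.conc) ?_ y z hy hz hyz
    · have := mul_le_mul_of_nonneg_left (rr_le_one k) hka
      linarith
    · intro h0
      rw [bl_po hrk, smul_zero, add_zero] at h0
      exact ctx_P0 h h0
    · intro x hx
      have hR : ‖x‖ ≤ |R| + 4 := by linarith [le_abs_self R]
      exact (tba_bd hp hC hnn hg hrk (by positivity) hk hR).2

end Pool.Agent.TWC
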