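import Pool.Agent.TWC.TBA
import Pool.Agent.TWC.STAB

/-!
# TWC TBU: properties of the blow up limit

`u_k = bl p φ P0 (rr k) → U` locally uniformly along `F ≤ atTop`, `T = TT (Po φ) P0`. Claim: `BU p c e ν T U`.

* pointwise convergence `Tendsto (fun k => u_k y) F (𝓝 (U y))`. `nn`: limit of `u_k ≥ 0`. `off`: if `y ∉ T` then
  `P0 + rr k y ∉ Po φ`, `u_k y = 0` for all `k` (`bl_po_sub`).
* `sub`: `stab_sb` with `κs k = ka p * rr k → 0` (`rr_tendsto.mono_left hF`), `bl_sub`; usc since `u_k` is continuous;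
  `U` continuous hence usc. (The form of the hypotheses: any radius, `O = univ`.)
* `sp`: `stab_sp` with `O = Hs ν`. Let `x ∈ Hs ν`, `r = <x,ν>/2`. For `y ∈ ball x r`: `<y,ν> ≥ <x,ν>/2`, and
  `dw_lower`: `dw (P0 + rr k y) ≥ rr k (<x,ν>/2 - rr k (|x|+r)²/(2 r0)) > 0` for large `k`, so `P0 + rr k y ∈ Ω`
  (`dw_pos`). So `Sp p (c e) (ka p * rr k) (ball x r) u_k` eventually (`bl_sup`, restrict).
* `conc`: for `y, z ∈ T`, `w = a y + b z`: by `tt_compact` for the compact set `{y, z}` (or `segment`), eventually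
  `P0 + rr k y`, `P0 + rr k z ∈ Po φ`, so `u_k(w)^q ≥ a u_k(y)^q + b u_k(z)^q` (`bl_conc`); pass to the limit
  (`Tendsto.rpow_const`, `q ≥ 0`, `le_of_tendsto_of_tendsto`). `T` convex by `cn`.
* `gin`: the constant `C` of `gin`. Let `y ∈ T`, `32 infDist y Tᶜ ≤ <y,ν>`. `Tᶜ` is nonempty (`0`). For large `k`:
  `P0 + rr k y ∈ Po φ`, and `dw (P0 + rr k y) ≥ rr k <y,ν> - (rr k)²|y|²/(2 r0) ≥ rr k <y,ν>/2 ≥ 16 rr k infDist y Tᶜ ≥
  16 infDist (P0 + rr k y) (Po φ)ᶜ` (`bl_inf_le`; `<y,ν> > 0` as `T ⊆ Hs ν`). So `φ (P0 + rr k y) ≤ C (rr k infDist y Tᶜ)^β`,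
  i.e. `u_k y ≤ C (infDist y Tᶜ)^β`; limit.
-/

open Set Metric Filter Topology
open scoped RealInnerProductSpace

noncomputable section

namespace Pool.Agent.TWC

variable {n : ℕ} {p c : ℝ} {e : E n} {r0 : ℝ} {Ω : Set (E n)} {φ : E n → ℝ} {P0 ν : E n}

private theorem tbu_pt {F : Filter ℕ} {U : E n → ℝ}
    (hlim : ∀ R : ℝ, ∀ ε > 0, ∀ᶠ k in F, ∀ y, ‖y‖ ≤ R → |bl p φ P0 (rr k) y - U y| ≤ ε) (y : E n) :
    Tendsto (fun k => bl p φ P0 (rr k) y) F (𝓝 (U y)) := by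
  rw [Metric.tendsto_nhds]
  intro ε hε
  filter_upwards [hlim ‖y‖ (ε / 2) (by positivity)] with k hk
  have h1 := hk y le_rfl
  rw [Real.dist_eq]
  linarith

theorem bu (h : Ctx p c e r0 Ω φ P0 ν) {F : Filter ℕ} [F.NeBot] (hF : F ≤ atTop) {U : E n → ℝ}
    (hU : Continuous U)
    (hlim : ∀ R : ℝ, ∀ ε > 0, ∀ᶠ k in F, ∀ y, ‖y‖ ≤ R → |bl p φ P0 (rr k) y - U y| ≤ ε) :
    BU p c e ν (TT (Po φ) P0) U := by
  have hpt := tbu_pt hlim
  have hrr : Tendsto rr F (𝓝 0) := rr_tendsto.mono_left hF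
  have hbs : ∀ k, Sub p (c • e) (ka p * rr k) (bl p φ P0 (rr k)) :=
    fun k => bl_sub h.hp h.tw.sub (rr_pos k)
  have hnn : ∀ k y, 0 ≤ bl p φ P0 (rr k) y := fun k y => (hbs k).nn y
  have hκ : Tendsto (fun k => ka p * rr k) F (𝓝 0) := by
    have := hrr.const_mul (ka p)
    simpa using this
  have hUnn : ∀ y, 0 ≤ U y := fun y =>
    ge_of_tendsto (hpt y) (Eventually.of_forall fun k => hnn k y)
  have hcn := cn h
  have hC0 := h.tw.qs
  have hlim' : ∀ (x : E n) (r : ℝ), ∀ ε > 0, ∀ᶠ k in F, ∀ y ∈ ball x r,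
      |bl p φ P0 (rr k) y - U y| ≤ ε := by
    intro x r ε hε
    filter_upwards [hlim (‖x‖ + r) ε hε] with k hk
    intro y hy
    apply hk
    rw [mem_ball, dist_eq_norm] at hy
    have h1 : ‖y‖ ≤ ‖y - x‖ + ‖x‖ := by
      have := norm_add_le (y - x) x
      rwa [sub_add_cancel] at this
    linarith
  have hTne : ((TT (Po φ) P0)ᶜ).Nonempty := ⟨0, tt_zero (ctx_P0 h)⟩
  refine ⟨hU, hUnn, ?_, ⟨hUnn, hU.upperSemicontinuous, ?_⟩, ?_, ?_, ?_⟩
  · intro y hy
    have h1 : ∀ k, bl p φ P0 (rr k) y = 0 := by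
      intro k
      have h2 : y ∉ Po (bl p φ P0 (rr k)) := fun h3 => hy (bl_po_sub (rr_pos k) h3)
      have h3 : ¬ 0 < bl p φ P0 (rr k) y := h2
      exact le_antisymm (not_lt.1 h3) (hnn k y)
    have h2 := hpt y
    simp only [h1] at h2
    exact tendsto_nhds_unique h2 tendsto_const_nhds
  · refine stab_sb (u := fun k => bl p φ P0 (rr k)) h.hp hκ (fun k => (bl_cont h.tw.cont).upperSemicontinuous) ?_ ?_
    · intro x _
      refine ⟨1, one_pos, Eventually.of_forall fun k => ?_⟩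
      intro y _ P X hX
      exact (hbs k).sb y (mem_univ y) P X hX
    · intro x _
      exact ⟨1, one_pos, hlim' x 1⟩
  · refine stab_sp (v := fun k => bl p φ P0 (rr k)) h.hp hκ (fun k => (bl_cont h.tw.cont).lowerSemicontinuous) ?_ ?_
    · intro x hx
      have hx' : 0 < ⟪x, ν⟫ := hx
      refine ⟨⟪x, ν⟫ / 2, by positivity, ?_⟩
      have h1 : Tendsto (fun k => rr k * ((‖x‖ + ⟪x, ν⟫ / 2) ^ 2 / (2 * r0))) F (𝓝 0) := by
        have := hrr.mul_const ((‖x‖ + ⟪x, ν⟫ / 2) ^ 2 / (2 * r0))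
        simpa using this
      have hr0 := h.tube.r0pos
      filter_upwards [h1.eventually (gt_mem_nhds (by positivity : (0 : ℝ) < ⟪x, ν⟫ / 2))] with k hk
      intro y hy P X hX
      refine (bl_sup h.hp h.tw.sup (rr_pos k)).sp y ?_ P X hX
      show P0 + rr k • y ∈ Ω
      rw [← dw_pos h.tube h.ne]
      refine lt_of_lt_of_le ?_ (dw_lower h.tube h.ne h.nu h.ib (rr k) y)
      rw [mem_ball, dist_eq_norm] at hy
      have h2 : ‖y‖ ≤ ‖x‖ + ⟪x, ν⟫ / 2 := by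
        have := norm_add_le (y - x) x
        rw [sub_add_cancel] at this
        linarith
      have h3 : ⟪x, ν⟫ / 2 < ⟪y, ν⟫ := by
        have h4 : |⟪y - x, ν⟫| ≤ ‖y - x‖ * ‖ν‖ := abs_real_inner_le_norm _ _
        rw [h.nu, mul_one] at h4
        have h5 := (abs_le.1 h4).1
        rw [inner_sub_left] at h5
        linarith
      have h4 : ‖y‖ ^ 2 ≤ (‖x‖ + ⟪x, ν⟫ / 2) ^ 2 := by
        apply pow_le_pow_left₀ (norm_nonneg _) h2
      have h5 : rr k * (‖y‖ ^ 2 / (2 * r0)) ≤ rr k * ((‖x‖ + ⟪x, ν⟫ / 2) ^ 2 / (2 * r0)) := by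
        apply mul_le_mul_of_nonneg_left _ (rr_pos k).le
        exact div_le_div_of_nonneg_right h4 (by positivity)
      have h6 : rr k * ⟪y, ν⟫ - rr k ^ 2 * ‖y‖ ^ 2 / (2 * r0)
          = rr k * (⟪y, ν⟫ - rr k * (‖y‖ ^ 2 / (2 * r0))) := by ring
      rw [h6]
      apply mul_pos (rr_pos k)
      linarith
    · intro x _
      exact ⟨1, one_pos, hlim' x 1⟩
  · refine ⟨hcn.convex, ?_⟩
    intro y hy z hz a b ha hb hab
    have hq : 0 ≤ qq p := by
      have := h.hp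
      unfold qq
      apply div_nonneg <;> linarith
    obtain ⟨s, hs, hs'⟩ := tt_compact hC0.isOpen hC0.convex h.cl
      ((Set.toFinite {y, z}).isCompact) (by
        intro w hw
        rcases hw with rfl | hw
        · exact hy
        · rw [mem_singleton_iff] at hw
          rw [hw]
          exact hz)
    have h1 : ∀ w, Tendsto (fun k => bl p φ P0 (rr k) w ^ qq p) F (𝓝 (U w ^ qq p)) :=
      fun w => (hpt w).rpow_const (Or.inr hq)
    have h2 := ((h1 y).const_mul a).add ((h1 z).const_mul b)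
    refine le_of_tendsto_of_tendsto h2 (h1 (a • y + b • z)) ?_
    filter_upwards [hrr.eventually (gt_mem_nhds hs)] with k hk
    have hy' : y ∈ Po (bl p φ P0 (rr k)) :=
      (bl_po (rr_pos k) y).2 (hs' (rr k) (rr_pos k) hk.le y (by simp))
    have hz' : z ∈ Po (bl p φ P0 (rr k)) :=
      (bl_po (rr_pos k) z).2 (hs' (rr k) (rr_pos k) hk.le z (by simp))
    exact (bl_conc (rr_pos k) h.tw.sub.nn hC0.conc).2 hy' hz' ha hb hab
  · obtain ⟨C, hC, hg⟩ := gin h.hp h.hc h.tube h.ne h.tw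
    refine ⟨C, hC, ?_⟩
    intro y hy hyν
    have hyp : 0 < ⟪y, ν⟫ := hcn.subH hy
    have hr0 := h.tube.r0pos
    have hbe : 0 ≤ be p := by
      have := h.hp
      unfold be
      apply div_nonneg <;> linarith
    obtain ⟨s, hs, hs'⟩ := tt_compact hC0.isOpen hC0.convex h.cl
      (isCompact_singleton (x := y)) (by
        intro w hw
        rw [mem_singleton_iff] at hw
        rw [hw]
        exact hy)
    have h1 : Tendsto (fun k => rr k * (‖y‖ ^ 2 / (2 * r0))) F (𝓝 0) := by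
      have := hrr.mul_const (‖y‖ ^ 2 / (2 * r0))
      simpa using this
    refine le_of_tendsto (hpt y) ?_
    filter_upwards [hrr.eventually (gt_mem_nhds hs),
      h1.eventually (gt_mem_nhds (by positivity : (0 : ℝ) < ⟪y, ν⟫ / 2))] with k hk hk2
    have hk3 := rr_pos k
    have h2 : P0 + rr k • y ∈ Po φ := hs' (rr k) hk3 hk.le y (mem_singleton y)
    have h3 := bl_inf_le (φ := φ) (P0 := P0) hk3 hTne y
    have h4 := dw_lower h.tube h.ne h.nu h.ib (rr k) y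
    have h5 : 16 * infDist (P0 + rr k • y) (Po φ)ᶜ ≤ dw Ω (P0 + rr k • y) := by
      have h6 : rr k * ⟪y, ν⟫ - rr k ^ 2 * ‖y‖ ^ 2 / (2 * r0)
          = rr k * (⟪y, ν⟫ - rr k * (‖y‖ ^ 2 / (2 * r0))) := by ring
      rw [h6] at h4
      have h7 : rr k * (⟪y, ν⟫ / 2) ≤ rr k * (⟪y, ν⟫ - rr k * (‖y‖ ^ 2 / (2 * r0))) := by
        apply mul_le_mul_of_nonneg_left _ hk3.le
        linarith
      have h8 : rr k * (32 * infDist y (TT (Po φ) P0)ᶜ) ≤ rr k * ⟪y, ν⟫ :=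
        mul_le_mul_of_nonneg_left hyν hk3.le
      linarith
    have h6 := hg _ h2 h5
    have hi : 0 ≤ infDist y (TT (Po φ) P0)ᶜ := infDist_nonneg
    have h7 : infDist (P0 + rr k • y) (Po φ)ᶜ ^ be p
        ≤ rr k ^ be p * infDist y (TT (Po φ) P0)ᶜ ^ be p := by
      rw [← Real.mul_rpow hk3.le hi]
      exact Real.rpow_le_rpow infDist_nonneg h3 hbe
    have h8 : rr k ^ (-be p) * rr k ^ be p = 1 := by
      rw [← Real.rpow_add hk3]
      simp
    have hp1 : 0 < rr k ^ (-be p) := Real.rpow_pos_of_pos hk3 _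
    show rr k ^ (-be p) * φ (P0 + rr k • y) ≤ _
    calc rr k ^ (-be p) * φ (P0 + rr k • y)
        ≤ rr k ^ (-be p) * (C * (rr k ^ be p * infDist y (TT (Po φ) P0)ᶜ ^ be p)) := by
          apply mul_le_mul_of_nonneg_left _ hp1.le
          exact h6.trans (mul_le_mul_of_nonneg_left h7 hC.le)
      _ = (rr k ^ (-be p) * rr k ^ be p) * (C * infDist y (TT (Po φ) P0)ᶜ ^ be p) := by ring
      _ = C * infDist y (TT (Po φ) P0)ᶜ ^ be p := by rw [h8, one_mul]

end Pool.Agent.TWC
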