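import Pool.Agent.TWC.TDF

/-!
# TWC TCA: the tangent cone of an open convex set at a closure point

`S` open convex, `P0 ∈ closure S`, `P0 ∉ S`, `T = TT S P0 = {h | ∃ s > 0, P0 + s h ∈ S}`.

* `tt_down`: for `0 < s' ≤ s` the point `P0 + s' h = (1 - s'/s) P0 + (s'/s)(P0 + s h)` is in the open segment
  from a closure point to an interior point (`Convex.openSegment_closure_interior_subset_interior` or
  `Convex.combo_closure_interior_mem_interior`, `S` is open: `interior S = S`).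
* `tt_open`: if `P0 + s h ∈ S` then `P0 + s h' ∈ S` for `h'` near `h` (`S` open, continuity).
* `tt_smul`: `P0 + (s/t)(t h) = P0 + s h`. `tt_convex`: by `tt_down` use the common value `s = min s₁ s₂`.
* `tt_zero`: `P0 + s 0 = P0 ∉ S`. `tt_mem`: the definition.
* `tt_compact`: each `h ∈ C` has `s_h > 0` with `P0 + s_h h ∈ S`, and then `P0 + s_h h' ∈ S` for `h'` in an open
  neighbourhood; finite subcover (`IsCompact.elim_nhds_subcover` or `IsCompact.induction_on`), minimum of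
  the `s_h`, `tt_down`.
* `tt_add`: `t ∈ T`, `x ∈ closure T`: `(t + x)/2` is in the open segment between an interior and a closure point of
  the convex open set `T`; then `tt_smul` with factor `2`.
* `tt_nonempty`: `x ∈ S` gives `x - P0 ∈ T` (`s = 1`).
-/

open Set Metric Filter Topology
open scoped RealInnerProductSpace

noncomputable section

namespace Pool.Agent.TWC

variable {n : ℕ} {S : Set (E n)} {P0 : E n}

theorem tt_mem {r : ℝ} (hr : 0 < r) {h : E n} (hh : P0 + r • h ∈ S) : h ∈ TT S P0 := by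
  exact ⟨r, hr, hh⟩

theorem tt_down (ho : IsOpen S) (hc : Convex ℝ S) (hcl : P0 ∈ closure S) {h : E n} {s s' : ℝ}
    (hs' : 0 < s') (hle : s' ≤ s) (hh : P0 + s • h ∈ S) : P0 + s' • h ∈ S := by
  have hs : 0 < s := lt_of_lt_of_le hs' hle
  have h1 : (1 - s' / s) • P0 + (s' / s) • (P0 + s • h) ∈ interior S :=
    hc.combo_closure_interior_mem_interior hcl (by rwa [ho.interior_eq])
      (by rw [sub_nonneg, div_le_one hs]; exact hle) (by positivity) (by ring)
  rw [ho.interior_eq] at h1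
  have e1 : (1 - s' / s) • P0 + (s' / s) • (P0 + s • h) = P0 + s' • h := by
    rw [smul_add, smul_smul, div_mul_cancel₀ _ hs.ne', sub_smul, one_smul]
    abel
  rwa [e1] at h1

theorem tt_open (ho : IsOpen S) : IsOpen (TT S P0) := by
  rw [isOpen_iff_mem_nhds]
  rintro h ⟨s, hs, hh⟩
  have hc : Continuous fun h : E n => P0 + s • h := by fun_prop
  filter_upwards [(ho.preimage hc).mem_nhds hh] with h' hh'
  exact ⟨s, hs, hh'⟩

theorem tt_smul {h : E n} (hh : h ∈ TT S P0) {t : ℝ} (ht : 0 < t) : t • h ∈ TT S P0 := by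
  obtain ⟨s, hs, hh⟩ := hh
  refine ⟨s / t, by positivity, ?_⟩
  rwa [smul_smul, div_mul_cancel₀ _ ht.ne']

theorem tt_convex (ho : IsOpen S) (hc : Convex ℝ S) (hcl : P0 ∈ closure S) :
    Convex ℝ (TT S P0) := by
  rintro x ⟨s₁, hs₁, hx⟩ y ⟨s₂, hs₂, hy⟩ a b ha hb hab
  have hs : 0 < min s₁ s₂ := lt_min hs₁ hs₂
  refine ⟨min s₁ s₂, hs, ?_⟩
  have h1 := tt_down ho hc hcl hs (min_le_left _ _) hx
  have h2 := tt_down ho hc hcl hs (min_le_right _ _) hy
  have h3 := hc h1 h2 ha hb hab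
  have e1 : a • (P0 + min s₁ s₂ • x) + b • (P0 + min s₁ s₂ • y) =
      (a + b) • P0 + min s₁ s₂ • (a • x + b • y) := by module
  rwa [e1, hab, one_smul] at h3

theorem tt_zero (hP : P0 ∉ S) : (0 : E n) ∉ TT S P0 := by
  rintro ⟨s, _, h⟩
  rw [smul_zero, add_zero] at h
  exact hP h

theorem tt_nonempty (hne : S.Nonempty) : (TT S P0).Nonempty := by
  obtain ⟨x, hx⟩ := hne
  refine ⟨x - P0, 1, one_pos, ?_⟩
  rwa [one_smul, add_sub_cancel]

theorem tt_compact (ho : IsOpen S) (hc : Convex ℝ S) (hcl : P0 ∈ closure S) {C : Set (E n)}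
    (hC : IsCompact C) (hCT : C ⊆ TT S P0) :
    ∃ s : ℝ, 0 < s ∧ ∀ s' : ℝ, 0 < s' → s' ≤ s → ∀ h ∈ C, P0 + s' • h ∈ S := by
  refine hC.induction_on (p := fun C => ∃ s : ℝ, 0 < s ∧ ∀ s' : ℝ, 0 < s' → s' ≤ s →
    ∀ h ∈ C, P0 + s' • h ∈ S) ?_ ?_ ?_ ?_
  · exact ⟨1, one_pos, fun _ _ _ h hh => absurd hh (notMem_empty h)⟩
  · rintro A B hAB ⟨s, hs, h1⟩
    exact ⟨s, hs, fun s' a b h hh => h1 s' a b h (hAB hh)⟩
  · rintro A B ⟨s, hs, h1⟩ ⟨t, ht, h2⟩
    refine ⟨min s t, lt_min hs ht, ?_⟩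
    rintro s' a b h (hh | hh)
    · exact h1 s' a (b.trans (min_le_left _ _)) h hh
    · exact h2 s' a (b.trans (min_le_right _ _)) h hh
  · intro h hh
    obtain ⟨s, hs, h1⟩ := hCT hh
    have hcont : Continuous fun h : E n => P0 + s • h := by fun_prop
    exact ⟨_, mem_nhdsWithin_of_mem_nhds ((ho.preimage hcont).mem_nhds h1), s, hs,
      fun s' a b h' hh' => tt_down ho hc hcl a b hh'⟩

theorem tt_add {T : Set (E n)} (ho : IsOpen T) (hc : Convex ℝ T)
    (hs : ∀ h ∈ T, ∀ s : ℝ, 0 < s → s • h ∈ T) {t x : E n} (ht : t ∈ T) (hx : x ∈ closure T) :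
    t + x ∈ T := by
  have h1 : (1 / 2 : ℝ) • x + (1 / 2 : ℝ) • t ∈ interior T :=
    hc.combo_closure_interior_mem_interior hx (by rwa [ho.interior_eq])
      (by norm_num) (by norm_num) (by norm_num)
  rw [ho.interior_eq] at h1
  have h2 := hs _ h1 2 two_pos
  have e1 : (2 : ℝ) • ((1 / 2 : ℝ) • x + (1 / 2 : ℝ) • t) = t + x := by module
  rwa [e1] at h2

end Pool.Agent.TWC
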