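import Pool.Agent.TWC.TCA
import Pool.Agent.TWC.GEO

/-!
# TWC TCB: the tangent cone of the positivity set at a wall point

* `dw_lower`: for all `s`, `h`: `s <h,ν> - s²|h|²/(2 r0) ≤ dw Ω (P0 + s h)`. With `A = |s h - r0 ν|² =
  r0² - 2 s r0 <h,ν> + s²|h|²` one has `r0 - √A ≥ s <h,ν> - s²|h|²/(2 r0)`, because
  `r0 - (that) = (r0² + A)/(2 r0) ≥ √A`. If `√A < r0` the ball of radius `r0 - √A` around `P0 + s h` is in
  `ball (P0 + r0 ν) r0 ⊆ Ω`: `le_dw`. If `√A ≥ r0` the left side is `≤ 0 ≤ dw`.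
* `po_sub`: `Po φ ⊆ Ω` (`tw.off`). `P0 ∉ Po φ` because `P0 ∉ Ω` (`Ω` open, `P0` in the frontier).
* `cn`: `he`, `hν` clear; `eν` from `nu_perp` (symmetry of the inner product); openness, convexity, cone,
  nonemptiness from TCA (`Po φ` is open convex by `tw.qs`, nonempty since `P0` is in its closure).
  `subH`: `P0 + s h ∈ Po φ ⊆ Ω`, `half` gives `0 < <s h, ν>`.
  `left`: let `h ∈ Hs ν`. By `dw_lower`, `dw_pos` there is `s > 0` with `P0 + s h ∈ Ω`. With `R, k` from `tw.left`: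
  for every `t` with `<P0 + s h, e> - t ≤ -R` the point `P0 + s h - t e` is in `Ω`, `dw > 0` (`dw_pos`), so
  `φ (P0 + s h - t e) > 0`. Hence (all large `t`) `h - (t/s) e ∈ TT`. (For `left` choose `t ≥ 0`.)
  `negE`: apply this to `h = ν`: `ν - t e ∈ T` for all large `t`; so `(1/t) ν - e ∈ T`, and it tends to `-e` as
  `t → ∞`.
-/

open Set Metric Filter Topology
open scoped RealInnerProductSpace

noncomputable section

namespace Pool.Agent.TWC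

variable {n : ℕ} {p c : ℝ} {e : E n} {r0 : ℝ} {Ω : Set (E n)} {φ : E n → ℝ} {P0 ν : E n}

theorem dw_lower (hΩ : Tube e r0 Ω) (hne : (Ωᶜ).Nonempty) (hν : ‖ν‖ = 1)
    (hb : ball (P0 + r0 • ν) r0 ⊆ Ω) (s : ℝ) (h : E n) :
    s * ⟪h, ν⟫ - s ^ 2 * ‖h‖ ^ 2 / (2 * r0) ≤ dw Ω (P0 + s • h) := by
  have hr := hΩ.r0pos
  obtain ⟨ρ, hρ⟩ : ∃ ρ, ρ = ‖s • h - r0 • ν‖ := ⟨_, rfl⟩
  have h1 : ρ ^ 2 = s ^ 2 * ‖h‖ ^ 2 - 2 * r0 * (s * ⟪h, ν⟫) + r0 ^ 2 := by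
    rw [hρ, norm_sub_sq_real, norm_smul, norm_smul, real_inner_smul_left, real_inner_smul_right,
      hν, Real.norm_eq_abs, Real.norm_eq_abs, mul_pow, mul_pow, sq_abs, sq_abs]
    ring
  have h2 : s * ⟪h, ν⟫ - s ^ 2 * ‖h‖ ^ 2 / (2 * r0) = (r0 ^ 2 - ρ ^ 2) / (2 * r0) := by
    rw [h1]
    field_simp
    ring
  have h3 : (r0 ^ 2 - ρ ^ 2) / (2 * r0) ≤ r0 - ρ := by
    rw [div_le_iff₀ (by positivity)]
    nlinarith [sq_nonneg (r0 - ρ)]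
  have h4 : ball (P0 + s • h) (r0 - ρ) ⊆ Ω := by
    refine (ball_subset_ball' ?_).trans hb
    have h5 : dist (P0 + s • h) (P0 + r0 • ν) = ρ := by
      rw [dist_eq_norm, hρ]
      congr 1
      abel
    rw [h5]
    linarith
  rw [h2]
  exact h3.trans (le_dw hne h4)

theorem ctx_po (h : Ctx p c e r0 Ω φ P0 ν) : Po φ ⊆ Ω := by
  intro x hx
  by_contra hn
  have h1 : 0 < φ x := hx
  rw [h.tw.off x hn] at h1
  exact lt_irrefl _ h1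

private theorem TCB_notMem (h : Ctx p c e r0 Ω φ P0 ν) : P0 ∉ Ω := by
  have h1 := h.fr
  rw [h.tube.isOpen.frontier_eq] at h1
  exact h1.2

theorem ctx_P0 (h : Ctx p c e r0 Ω φ P0 ν) : P0 ∉ Po φ :=
  fun h1 => TCB_notMem h (ctx_po h h1)

private theorem TCB_left (h : Ctx p c e r0 Ω φ P0 ν) {g : E n} (hg : g ∈ Hs ν) :
    ∃ t₀ : ℝ, 0 ≤ t₀ ∧ ∀ t : ℝ, t₀ ≤ t → g - t • e ∈ TT (Po φ) P0 := by
  have hr := h.tube.r0pos
  have hg' : 0 < ⟪g, ν⟫ := hg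
  obtain ⟨s, hs, hsΩ⟩ : ∃ s : ℝ, 0 < s ∧ P0 + s • g ∈ Ω := by
    refine ⟨r0 * ⟪g, ν⟫ / (‖g‖ ^ 2 + 1), by positivity, ?_⟩
    rw [← dw_pos h.tube h.ne]
    refine lt_of_lt_of_le ?_ (dw_lower h.tube h.ne h.nu h.ib _ g)
    have h1 : 0 < ‖g‖ ^ 2 + 1 := by positivity
    have h2 : r0 * ⟪g, ν⟫ / (‖g‖ ^ 2 + 1) * ⟪g, ν⟫ -
        (r0 * ⟪g, ν⟫ / (‖g‖ ^ 2 + 1)) ^ 2 * ‖g‖ ^ 2 / (2 * r0) =
        r0 * ⟪g, ν⟫ ^ 2 * (‖g‖ ^ 2 + 2) / (2 * (‖g‖ ^ 2 + 1) ^ 2) := by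
      field_simp
      ring
    rw [h2]
    positivity
  obtain ⟨R, k, hk, hR⟩ := h.tw.left
  refine ⟨max 0 ((⟪P0 + s • g, e⟫ + R) / s), le_max_left _ _, fun t ht => ?_⟩
  have h1 : (⟪P0 + s • g, e⟫ + R) / s ≤ t := (le_max_right _ _).trans ht
  rw [div_le_iff₀ hs] at h1
  refine ⟨s, hs, ?_⟩
  have h2 : P0 + s • (g - t • e) = P0 + s • g + (-(t * s)) • e := by
    rw [smul_sub, smul_smul, neg_smul, mul_comm s t]
    abel
  rw [h2]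
  have h3 : P0 + s • g + (-(t * s)) • e ∈ Ω := h.tube.inv _ hsΩ _
  have h4 : ⟪P0 + s • g + (-(t * s)) • e, e⟫ ≤ -R := by
    rw [inner_add_left, real_inner_smul_left (r := -(t * s)), real_inner_self_eq_norm_sq,
      h.tube.unit]
    linarith
  have h5 : 0 < dw Ω (P0 + s • g + (-(t * s)) • e) := (dw_pos h.tube h.ne).2 h3
  have h6 := hR _ h4
  have h7 : 0 < k * dw Ω (P0 + s • g + (-(t * s)) • e) := mul_pos hk h5
  exact lt_of_lt_of_le h7 h6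

theorem cn (h : Ctx p c e r0 Ω φ P0 ν) : Cn e ν (TT (Po φ) P0) := by
  have ho := h.tw.qs.isOpen
  have hc := h.tw.qs.convex
  refine ⟨h.tube.unit, h.nu, ?_, tt_open ho, tt_convex ho hc h.cl,
    tt_nonempty (closure_nonempty_iff.1 ⟨P0, h.cl⟩), fun g hg t ht => tt_smul hg ht, ?_, ?_, ?_⟩
  · rw [real_inner_comm]
    exact nu_perp h.tube h.fr h.nu h.ib
  · rintro g ⟨s, hs, hgs⟩
    have h1 := half h.tube h.fr h.nu h.ib (ctx_po h hgs)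
    rw [add_sub_cancel_left, real_inner_smul_left] at h1
    exact (mul_pos_iff_of_pos_left hs).1 h1
  · intro g hg
    obtain ⟨t₀, ht₀, h1⟩ := TCB_left h hg
    exact ⟨t₀, ht₀, h1 t₀ le_rfl⟩
  · have hν : ν ∈ Hs ν := by
      change 0 < ⟪ν, ν⟫
      rw [real_inner_self_eq_norm_sq, h.nu]
      norm_num
    obtain ⟨t₀, ht₀, h1⟩ := TCB_left h hν
    have h2 : Tendsto (fun t : ℝ => t⁻¹ • ν - e) atTop (𝓝 (-e)) := by
      have h3 := (tendsto_inv_atTop_zero (𝕜 := ℝ)).smul_const ν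
      have h4 := h3.sub_const e
      simpa using h4
    refine mem_closure_of_tendsto h2 ?_
    filter_upwards [eventually_ge_atTop t₀, eventually_gt_atTop 0] with t ht ht0
    have h5 : t⁻¹ • (ν - t • e) ∈ TT (Po φ) P0 := tt_smul (h1 t ht) (inv_pos.2 ht0)
    rwa [smul_sub, smul_smul, inv_mul_cancel₀ ht0.ne', one_smul] at h5

end Pool.Agent.TWC
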