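import Pool.Agent.TWC.TDF

/-!
# TWC TCC: a frontier direction of a proper tangent cone

Let `T ≠ H = Hs ν`. Since `T ⊆ H`, `T` is open and nonempty and `H` is convex (preconnected), the frontier of
`T` meets `H`: otherwise `H ⊆ T ∪ (closure T)ᶜ`, both open, disjoint, and `T ∩ H ≠ ∅`, so `H ⊆ T`
(`IsPreconnected.subset_left_of_subset_union`, or `IsPreconnected` and `frontier`:
`isPreconnected_iff`, `IsPreconnected.inter_frontier_nonempty`). Let `x1 ∈ H ∩ frontier T`,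
`a = <x1,ν> > 0`. As `x1 ∈ closure T` there is `t0 ∈ T` with `|t0 - x1| < a/4`. `Tᶜ` is closed and contains `x1`
(`T` open); let `x0 ∈ Tᶜ` be a nearest point to `t0` (`IsClosed.exists_infDist_eq_dist`), `ρ = |t0 - x0| ≤
|t0 - x1|`, `ρ > 0`. `|x0 - x1| < a/2`, so `<x0,ν> ≥ a/2 > 0`. `ball t0 ρ ⊆ T`. Put `e0 = (x0 - t0)/ρ`:
`t0 = x0 - ρ e0`.
Supporting functional at `x0` (`geometric_hahn_banach_open_point`): `f y < f x0` for `y ∈ T`; let `m` be its Riesz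
vector, `<y - x0, m> < 0` for `y ∈ T`. For `y = t0 + s m/|m|`, `s < ρ` (`m ≠ 0`): `<t0 - x0, m> + s|m| < 0`, so
`ρ |m| ≤ <x0 - t0, m> = ρ <e0,m>`, hence `m = |m| e0` (equality in Cauchy-Schwarz:
`|m - |m| e0|² = 2|m|² - 2|m|<e0,m> ≤ 0`). So `<y - x0, e0> < 0` for `y ∈ T`.
Cone: for `y ∈ T`, `s > 0`: `s <y,e0> < <x0,e0>`; `s → 0`: `0 ≤ <x0,e0>`; `s → ∞`: `<y,e0> ≤ 0`, and as `x0 ∈ closure T`
(it is the limit of `t0 + s e0`, `s ↑ ρ`), `<x0,e0> ≤ 0`. So `<x0,e0> = 0`, and `<y,e0> < 0` on `T`.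
`<e,e0> ≥ 0` because `-e ∈ closure T` (`negE`). Suppose `<e,e0> = 0`. Let `δ > 0` be small with
`h = x0 + δ e0 ∈ H`. By `left` there is `t` with `h - t e ∈ T`, but `<h - t e, e0> = δ > 0`: contradiction.
-/

open Set Metric Filter Topology
open scoped RealInnerProductSpace

noncomputable section

namespace Pool.Agent.TWC

variable {n : ℕ} {e ν : E n} {T : Set (E n)}

private theorem TCC_fr (h : Cn e ν T) (hne : T ≠ Hs ν) :
    ∃ x1 ∈ Hs ν, x1 ∈ closure T ∧ x1 ∉ T := by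
  by_contra hcon
  push Not at hcon
  have hconv : Convex ℝ (Hs ν) := by
    intro x hx y hy a b ha hb hab
    show 0 < ⟪a • x + b • y, ν⟫
    have hx' : 0 < ⟪x, ν⟫ := hx
    have hy' : 0 < ⟪y, ν⟫ := hy
    rw [inner_add_left, real_inner_smul_left, real_inner_smul_left]
    rcases ha.eq_or_lt with h0 | h0
    · have h1 : b = 1 := by linarith
      rw [← h0, h1]
      linarith
    · have h1 := mul_pos h0 hx'
      have h2 := mul_nonneg hb hy'.le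
      linarith
  have hex : ∃ z ∈ Hs ν, z ∉ T := by
    by_contra h1
    push Not at h1
    exact hne (Subset.antisymm h.subH h1)
  obtain ⟨z, hzH, hzT⟩ := hex
  obtain ⟨t, ht⟩ := h.nonempty
  have hsub : Hs ν ⊆ T ∪ (closure T)ᶜ := by
    intro x hx
    by_cases hc : x ∈ closure T
    · exact Or.inl (hcon x hx hc)
    · exact Or.inr hc
  obtain ⟨w, -, hw1, hw2⟩ := hconv.isPreconnected T (closure T)ᶜ h.isOpen
    isClosed_closure.isOpen_compl hsub ⟨t, h.subH ht, ht⟩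
    ⟨z, hzH, fun hc => hzT (hcon z hzH hc)⟩
  exact hw2 (subset_closure hw1)

private theorem TCC_normal {t0 x0 m : E n} {ρ : ℝ} (hρ : 0 < ρ) (hb : ball t0 ρ ⊆ T)
    (he0 : ‖ρ⁻¹ • (x0 - t0)‖ = 1) (hm0 : m ≠ 0) (hm : ∀ y ∈ T, ⟪y - x0, m⟫ < 0) :
    m = ‖m‖ • (ρ⁻¹ • (x0 - t0)) := by
  have hmp : 0 < ‖m‖ := norm_pos_iff.2 hm0
  have h1 : ρ * ‖m‖ ≤ ⟪x0 - t0, m⟫ := by
    refine le_of_forall_lt fun c hc => ?_
    have hs : max 0 (c / ‖m‖) < ρ := max_lt hρ ((div_lt_iff₀ hmp).2 hc)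
    have hs0 : 0 ≤ max 0 (c / ‖m‖) := le_max_left _ _
    have hcs : c ≤ max 0 (c / ‖m‖) * ‖m‖ := (div_le_iff₀ hmp).1 (le_max_right _ _)
    have hy : t0 + max 0 (c / ‖m‖) • (‖m‖⁻¹ • m) ∈ T := by
      apply hb
      rw [mem_ball_iff_norm, add_sub_cancel_left, norm_smul, norm_smul, norm_inv, norm_norm,
        inv_mul_cancel₀ hmp.ne', mul_one, Real.norm_of_nonneg hs0]
      exact hs
    have h2 := hm _ hy
    have h3 : t0 + max 0 (c / ‖m‖) • (‖m‖⁻¹ • m) - x0 =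
        -(x0 - t0) + max 0 (c / ‖m‖) • (‖m‖⁻¹ • m) := by abel
    rw [h3, inner_add_left, inner_neg_left, real_inner_smul_left, real_inner_smul_left,
      real_inner_self_eq_norm_sq] at h2
    have h4 : ‖m‖⁻¹ * ‖m‖ ^ 2 = ‖m‖ := by
      rw [pow_two, ← mul_assoc, inv_mul_cancel₀ hmp.ne', one_mul]
    rw [h4] at h2
    linarith
  have h5 : ‖m‖ ≤ ⟪m, ρ⁻¹ • (x0 - t0)⟫ := by
    rw [real_inner_smul_right, real_inner_comm]
    have h6 : ρ⁻¹ * (ρ * ‖m‖) = ‖m‖ := by rw [← mul_assoc, inv_mul_cancel₀ hρ.ne', one_mul]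
    rw [← h6]
    exact mul_le_mul_of_nonneg_left h1 (inv_nonneg.2 hρ.le)
  have h7 : ‖m - ‖m‖ • (ρ⁻¹ • (x0 - t0))‖ ^ 2 ≤ 0 := by
    rw [norm_sub_sq_real, real_inner_smul_right, norm_smul (‖m‖), he0, norm_norm, mul_one]
    nlinarith
  have h8 : ‖m - ‖m‖ • (ρ⁻¹ • (x0 - t0))‖ = 0 := by
    have := sq_nonneg ‖m - ‖m‖ • (ρ⁻¹ • (x0 - t0))‖
    exact pow_eq_zero_iff two_ne_zero |>.1 (le_antisymm h7 this)
  exact sub_eq_zero.1 (norm_eq_zero.1 h8)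

theorem fr0 (h : Cn e ν T) (hne : T ≠ Hs ν) :
    ∃ (x0 e0 : E n) (ρ : ℝ), Fr0 e ν T x0 e0 ρ := by
  obtain ⟨x1, hx1H, hx1c, hx1T⟩ := TCC_fr h hne
  have ha : 0 < ⟪x1, ν⟫ := hx1H
  obtain ⟨t0, ht0, hd⟩ := Metric.mem_closure_iff.1 hx1c (⟪x1, ν⟫ / 4) (by positivity)
  have hcl : IsClosed Tᶜ := h.isOpen.isClosed_compl
  obtain ⟨x0, hx0, hx0d⟩ := hcl.exists_infDist_eq_dist ⟨x1, hx1T⟩ t0
  set ρ := dist t0 x0 with hρd
  have hρ : 0 < ρ := dist_pos.2 fun heq => hx0 (heq ▸ ht0)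
  have hρ1 : ρ ≤ dist t0 x1 := by
    rw [← hx0d]
    exact infDist_le_dist_of_mem hx1T
  have hball : ball t0 ρ ⊆ T := by
    intro y hy
    by_contra hyT
    have h1 : infDist t0 Tᶜ ≤ dist t0 y := infDist_le_dist_of_mem hyT
    rw [hx0d] at h1
    rw [mem_ball, dist_comm] at hy
    linarith
  have hx0ν : 0 < ⟪x0, ν⟫ := by
    have h1 : ⟪x1 - x0, ν⟫ ≤ ‖x1 - x0‖ * ‖ν‖ := real_inner_le_norm _ _
    rw [h.hν, mul_one, inner_sub_left, ← dist_eq_norm] at h1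
    have h2 : dist x1 x0 ≤ dist x1 t0 + dist t0 x0 := dist_triangle _ _ _
    have h3 : dist t0 x1 = dist x1 t0 := dist_comm _ _
    linarith
  have he0 : ‖ρ⁻¹ • (x0 - t0)‖ = 1 := by
    rw [norm_smul, norm_inv, Real.norm_of_nonneg hρ.le, ← dist_eq_norm, dist_comm x0 t0, ← hρd,
      inv_mul_cancel₀ hρ.ne']
  obtain ⟨f, hf⟩ := geometric_hahn_banach_open_point h.convex h.isOpen hx0
  set m := (InnerProductSpace.toDual ℝ (E n)).symm f with hmd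
  have hmf : ∀ y, ⟪y, m⟫ = f y := fun y => by
    rw [real_inner_comm, hmd, InnerProductSpace.toDual_symm_apply]
  have hm : ∀ y ∈ T, ⟪y - x0, m⟫ < 0 := fun y hy => by
    rw [inner_sub_left, hmf, hmf]
    linarith [hf y hy]
  have hm0 : m ≠ 0 := by
    intro h0
    have := hm t0 ht0
    rw [h0, inner_zero_right] at this
    exact lt_irrefl _ this
  have hmp : 0 < ‖m‖ := norm_pos_iff.2 hm0
  have hmn := TCC_normal hρ hball he0 hm0 hm
  set e0 := ρ⁻¹ • (x0 - t0) with he0d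
  have hA : ∀ y ∈ T, ⟪y, e0⟫ < ⟪x0, e0⟫ := by
    intro y hy
    have h1 := hm y hy
    rw [hmn, real_inner_smul_right, inner_sub_left] at h1
    by_contra h2
    push Not at h2
    have : 0 ≤ ‖m‖ * (⟪y, e0⟫ - ⟪x0, e0⟫) := mul_nonneg hmp.le (by linarith)
    linarith
  have hA' : ∀ y ∈ T, ∀ s : ℝ, 0 < s → s * ⟪y, e0⟫ < ⟪x0, e0⟫ := by
    intro y hy s hs
    have := hA _ (h.smul y hy s hs)
    rwa [real_inner_smul_left] at this
  have hq0 : 0 ≤ ⟪x0, e0⟫ := by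
    by_contra hq
    push Not at hq
    have h1 := hA' t0 ht0
    have h2 : ⟪t0, e0⟫ < 0 := by linarith [h1 1 one_pos]
    have h3 := h1 (⟪x0, e0⟫ / (2 * ⟪t0, e0⟫)) (div_pos_of_neg_of_neg hq (by linarith))
    have h4 : ⟪x0, e0⟫ / (2 * ⟪t0, e0⟫) * ⟪t0, e0⟫ = ⟪x0, e0⟫ / 2 := by
      have h5 := h2.ne
      rw [div_mul_eq_mul_div, mul_comm 2, ← div_div, mul_div_cancel_right₀ _ h5]
    rw [h4] at h3
    linarith
  have hB : ∀ y ∈ T, ⟪y, e0⟫ ≤ 0 := by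
    intro y hy
    by_contra hq
    push Not at hq
    have h1 := hA' y hy ((⟪x0, e0⟫ + 1) / ⟪y, e0⟫) (by positivity)
    rw [div_mul_cancel₀ _ hq.ne'] at h1
    linarith
  have hBc : ∀ y ∈ closure T, ⟪y, e0⟫ ≤ 0 := by
    have h1 : closure T ⊆ {y | ⟪y, e0⟫ ≤ 0} :=
      closure_minimal hB (isClosed_le (continuous_id.inner continuous_const) continuous_const)
    exact h1
  have hx0c : x0 ∈ closure T := by
    apply closure_mono hball
    rw [closure_ball t0 hρ.ne', mem_closedBall, dist_comm]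
  have hq : ⟪x0, e0⟫ = 0 := le_antisymm (hBc x0 hx0c) hq0
  have hC : ∀ y ∈ T, ⟪y, e0⟫ < 0 := fun y hy => by
    have := hA y hy
    rwa [hq] at this
  have ht0e : x0 - ρ • e0 = t0 := by
    rw [he0d, smul_smul, mul_inv_cancel₀ hρ.ne', one_smul]
    abel
  have hee : 0 ≤ ⟪e, e0⟫ := by
    have := hBc _ h.negE
    rw [inner_neg_left] at this
    linarith
  clear_value e0
  refine ⟨x0, e0, ρ, hρ, he0, hx0ν, hx0, ?_, hC, hq, lt_of_le_of_ne hee fun h0 => ?_⟩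
  · rw [ht0e]
    exact hball
  · have h1 : |⟪e0, ν⟫| ≤ ‖e0‖ * ‖ν‖ := abs_real_inner_le_norm _ _
    rw [he0, h.hν, mul_one] at h1
    have h2 := (abs_le.1 h1).1
    have hH : x0 + (⟪x0, ν⟫ / 2) • e0 ∈ Hs ν := by
      show 0 < ⟪x0 + (⟪x0, ν⟫ / 2) • e0, ν⟫
      rw [inner_add_left, real_inner_smul_left]
      nlinarith
    obtain ⟨t, -, ht⟩ := h.left _ hH
    have h3 := hC _ ht
    rw [inner_sub_left, inner_add_left, real_inner_smul_left, real_inner_smul_left, hq,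
      real_inner_self_eq_norm_sq, he0, ← h0] at h3
    linarith

end Pool.Agent.TWC
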