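import Pool.Agent.TWC.Defs2

/-!
# TWC TDF: definitions for part T (tangency at the wall)
-/

open Set Metric Filter Topology
open scoped RealInnerProductSpace

noncomputable section

namespace Pool.Agent.TWC

variable {n : ℕ}

/-- The open tangent cone at `P0` of an open convex set `S`. -/
def TT (S : Set (E n)) (P0 : E n) : Set (E n) := {h | ∃ s : ℝ, 0 < s ∧ P0 + s • h ∈ S}

/-- The open half space with inner normal `ν`. -/
def Hs (ν : E n) : Set (E n) := {h | 0 < ⟪h, ν⟫}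

/-- Rescaling around `P0`. -/
def bl (p : ℝ) (φ : E n → ℝ) (P0 : E n) (r : ℝ) (y : E n) : ℝ := r ^ (-be p) * φ (P0 + r • y)

/-- The radii of the blow up sequence. -/
def rr (k : ℕ) : ℝ := 1 / ((k : ℝ) + 1)

/-- The situation at a wall point `P0` of the closure of the positivity set, `ν` inner normal. -/
structure Ctx (p c : ℝ) (e : E n) (r0 : ℝ) (Ω : Set (E n)) (φ : E n → ℝ) (P0 ν : E n) : Prop where
  hp : 2 < p
  hc : 0 < c
  tube : Tube e r0 Ω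
  ne : (Ωᶜ).Nonempty
  tw : TW p c e Ω φ
  fr : P0 ∈ frontier Ω
  cl : P0 ∈ closure (Po φ)
  nu : ‖ν‖ = 1
  ib : ball (P0 + r0 • ν) r0 ⊆ Ω

/-- Properties of the tangent cone. -/
structure Cn (e ν : E n) (T : Set (E n)) : Prop where
  he : ‖e‖ = 1
  hν : ‖ν‖ = 1
  eν : ⟪e, ν⟫ = 0
  isOpen : IsOpen T
  convex : Convex ℝ T
  nonempty : T.Nonempty
  smul : ∀ h ∈ T, ∀ s : ℝ, 0 < s → s • h ∈ T
  subH : T ⊆ Hs ν
  left : ∀ h ∈ Hs ν, ∃ t : ℝ, 0 ≤ t ∧ h - t • e ∈ T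
  negE : -e ∈ closure T

/-- A frontier direction `x0` of the cone inside the half space, with an interior tangent ball and the
supporting hyperplane `{⟪., e0⟫ = 0}`. -/
structure Fr0 (e ν : E n) (T : Set (E n)) (x0 e0 : E n) (ρ : ℝ) : Prop where
  rho : 0 < ρ
  unit : ‖e0‖ = 1
  x0nu : 0 < ⟪x0, ν⟫
  x0T : x0 ∉ T
  inball : ball (x0 - ρ • e0) ρ ⊆ T
  sub : ∀ h ∈ T, ⟪h, e0⟫ < 0
  orth : ⟪x0, e0⟫ = 0
  epos : 0 < ⟪e, e0⟫

/-- Properties of the blow up limit. -/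
structure BU (p c : ℝ) (e ν : E n) (T : Set (E n)) (U : E n → ℝ) : Prop where
  cont : Continuous U
  nn : ∀ y, 0 ≤ U y
  off : ∀ y ∉ T, U y = 0
  sub : Sub p (c • e) 0 U
  sp : Sp p (c • e) 0 (Hs ν) U
  conc : ConcaveOn ℝ T (fun y => U y ^ qq p)
  gin : ∃ C : ℝ, 0 < C ∧ ∀ y ∈ T, 32 * infDist y Tᶜ ≤ ⟪y, ν⟫ → U y ≤ C * infDist y Tᶜ ^ be p

/-- The limit of `U` along the direction `x0`. -/
def Vl (U : E n → ℝ) (x0 : E n) (y : E n) : ℝ := ⨆ k : ℕ, U (y + (k : ℝ) • x0)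

end Pool.Agent.TWC
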