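import Pool.Agent.TWC.TDF
import Pool.Agent.TWC.GEO
import Pool.Agent.TWC.BUMP

/-!
# TWC TGI: interior growth bound near the free boundary

`S = Po φ`, `x ∈ S`, `d = infDist x Sᶜ > 0` (`Sᶜ` closed, nonempty, contains `Ωᶜ`), `16 d ≤ dw x`. Claim:
`φ x ≤ C d^β`.

Proof. `m = mm p`, `μ = 2^(-m) φ x`, `ρ' = 2 d/5`. For `|y - x| ≤ ρ'`: `z = 2 y - x` has `|z - x| ≤ 4 d/5 < d`, so
`x, y, z ∈ S` and by concavity of `φ^q` (`q = qq p = 1/m`): `φ y^q ≥ (φ x^q + φ z^q)/2 ≥ φ x^q/2`, so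
`φ y ≥ μ`. `bump` (`O = Ω`, constants `C, c1`), radius `ρ'`: the balls `ball (x - cτ e) (4ρ')` are in `Ω`
(`4 ρ' = 8d/5 ≤ dw x`, `ball_dw`, `ball_inv` with `t = -(c τ)`). With `T0 = C ρ'^p/μ^(p-2)`: `φ ≥ c1 μ > 0` on
`closedBall (x - c T0 e) (3 ρ')`, `3 ρ' = 6d/5`. Suppose `c T0 ≤ d/10`. Let `z ∈ Sᶜ`, `|x - z| = d`
(`IsClosed.exists_infDist_eq_dist`): `|z - (x - c T0 e)| ≤ d + d/10 ≤ 6d/5`, so `φ z > 0`, contradiction. So
`d/10 < c C (2d/5)^p/μ^(p-2) ≤ c C d^p/μ^(p-2)`, `μ^(p-2) ≤ 10 c C d^(p-1)`, and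
`μ ≤ (10 c C)^(1/(p-2)) d^β` (`β = (p-1)/(p-2)`), `φ x = 2^m μ`.
-/

open Set Metric Filter Topology
open scoped RealInnerProductSpace

noncomputable section

namespace Pool.Agent.TWC

variable {n : ℕ} {p c : ℝ} {e : E n} {r0 : ℝ} {Ω : Set (E n)} {φ : E n → ℝ}

theorem gin (hp : 2 < p) (hc : 0 < c) (hΩ : Tube e r0 Ω) (hne : (Ωᶜ).Nonempty)
    (hφ : TW p c e Ω φ) :
    ∃ C : ℝ, 0 < C ∧ ∀ x ∈ Po φ, 16 * infDist x (Po φ)ᶜ ≤ dw Ω x →
      φ x ≤ C * infDist x (Po φ)ᶜ ^ be p := by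
  have hp2 : 0 < p - 2 := by linarith
  have hp0 : 0 < p := by linarith
  obtain ⟨C, c1, hC, hc1, _, hbump⟩ := bump hp n
  have hm0 : 0 < mm p := by
    unfold mm
    positivity
  refine ⟨2 ^ mm p * (5 * c * C) ^ (1 / (p - 2)), by positivity, ?_⟩
  intro x hx hdw
  obtain ⟨w0, hw0⟩ := hne
  have hcl : IsClosed (Po φ)ᶜ := hφ.qs.isOpen.isClosed_compl
  have hneS : ((Po φ)ᶜ).Nonempty := by
    refine ⟨w0, ?_⟩
    intro h
    have h1 : 0 < φ w0 := h
    rw [hφ.off w0 hw0] at h1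
    exact lt_irrefl _ h1
  obtain ⟨d, hd⟩ : ∃ d, d = infDist x (Po φ)ᶜ := ⟨_, rfl⟩
  rw [← hd] at hdw ⊢
  have hd0 : 0 < d := by
    rw [hd]
    exact (hcl.notMem_iff_infDist_pos hneS).1 (fun h => h hx)
  have hball : ∀ y, ‖y - x‖ < d → y ∈ Po φ := by
    intro y hy
    by_contra hyn
    have h1 : infDist x (Po φ)ᶜ ≤ dist x y := infDist_le_dist_of_mem hyn
    rw [← hd, dist_comm, dist_eq_norm] at h1
    linarith
  have hx0 : 0 < φ x := hx
  obtain ⟨μ, hμ⟩ : ∃ μ, μ = (1 / 2 : ℝ) ^ mm p * φ x := ⟨_, rfl⟩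
  have hμ0 : 0 < μ := by
    rw [hμ]
    positivity
  have hqm : qq p * mm p = 1 := by
    unfold qq mm
    field_simp
  have hmu : ∀ y, ‖y - x‖ ≤ 2 * d / 5 → μ ≤ φ y := by
    intro y hy
    have hyS : y ∈ Po φ := hball y (by linarith)
    have hzS : (2 : ℝ) • y - x ∈ Po φ := by
      apply hball
      have e1 : (2 : ℝ) • y - x - x = (2 : ℝ) • (y - x) := by
        rw [smul_sub, two_smul ℝ x]
        abel
      rw [e1, norm_smul, Real.norm_eq_abs, abs_of_pos (by norm_num : (0 : ℝ) < 2)]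
      linarith
    have h1 := hφ.qs.conc.2 hx hzS (by norm_num : (0 : ℝ) ≤ 1 / 2) (by norm_num : (0 : ℝ) ≤ 1 / 2)
      (by norm_num)
    have e2 : (1 / 2 : ℝ) • x + (1 / 2 : ℝ) • ((2 : ℝ) • y - x) = y := by
      rw [smul_sub, smul_smul]
      norm_num
    rw [e2] at h1
    simp only [smul_eq_mul] at h1
    have hz0 : 0 ≤ φ ((2 : ℝ) • y - x) ^ qq p := Real.rpow_nonneg (hφ.sub.nn _) _
    have h2 : 1 / 2 * φ x ^ qq p ≤ φ y ^ qq p := by linarith
    have h3 := Real.rpow_le_rpow (by positivity) h2 hm0.le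
    rw [Real.mul_rpow (by norm_num) (by positivity), ← Real.rpow_mul hx0.le,
      ← Real.rpow_mul (hφ.sub.nn y), hqm, Real.rpow_one, Real.rpow_one] at h3
    rw [hμ]
    exact h3
  obtain ⟨ρ, hρ⟩ : ∃ ρ, ρ = 2 * d / 5 := ⟨_, rfl⟩
  rw [← hρ] at hmu
  have hρ0 : 0 < ρ := by
    rw [hρ]
    positivity
  obtain ⟨T, hT⟩ : ∃ T, T = C * ρ ^ p / μ ^ (p - 2) := ⟨_, rfl⟩
  have hκ : 0 ≤ ka p := by
    unfold ka
    positivity
  have hb := hbump c e (ka p) hκ Ω φ hφ.sup x ρ μ hρ0 hμ0 hmu (by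
    intro τ _ _
    have h1 : ball x (4 * ρ) ⊆ Ω := by
      refine (ball_subset_ball ?_).trans (ball_dw hΩ)
      rw [hρ]
      linarith
    have h2 := ball_inv hΩ h1 (-(c * τ))
    rwa [neg_smul, ← sub_eq_add_neg] at h2)
  rw [← hT] at hb
  have hT0 : 0 < T := by
    rw [hT]
    positivity
  have hlt : d / 5 < c * T := by
    by_contra hcon
    push Not at hcon
    obtain ⟨z, hz1, hz2⟩ := hcl.exists_infDist_eq_dist hneS x
    rw [← hd] at hz2
    have h1 := hb z (by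
      have e1 : z - (x - (c * T) • e) = (z - x) + (c * T) • e := by abel
      rw [e1]
      refine (norm_add_le _ _).trans ?_
      rw [norm_smul, hΩ.unit, mul_one, Real.norm_eq_abs, abs_of_pos (by positivity),
        ← dist_eq_norm, dist_comm, ← hz2, hρ]
      linarith)
    apply hz1
    have h2 : 0 < c1 * μ := by positivity
    exact h2.trans_le h1
  have h1 : μ ^ (p - 2) ≤ 5 * c * C * d ^ (p - 1) := by
    have hμp : 0 < μ ^ (p - 2) := by positivity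
    have h2 : c * T * μ ^ (p - 2) = c * C * ρ ^ p := by
      rw [hT]
      field_simp
    have h3 : ρ ^ p ≤ d ^ p := by
      apply Real.rpow_le_rpow hρ0.le _ hp0.le
      rw [hρ]
      linarith
    have h4 : d ^ p = d ^ (p - 1) * d := by
      rw [← Real.rpow_add_one hd0.ne']
      congr 1
      ring
    have h5 : d / 5 * μ ^ (p - 2) < c * T * μ ^ (p - 2) := mul_lt_mul_of_pos_right hlt hμp
    have h6 : c * C * ρ ^ p ≤ c * C * (d ^ (p - 1) * d) := by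
      rw [← h4]
      exact mul_le_mul_of_nonneg_left h3 (by positivity)
    have h7 : d * μ ^ (p - 2) ≤ d * (5 * c * C * d ^ (p - 1)) := by
      rw [h2] at h5
      nlinarith
    exact le_of_mul_le_mul_left h7 hd0
  have h2 : μ ≤ (5 * c * C) ^ (1 / (p - 2)) * d ^ be p := by
    have h3 := Real.rpow_le_rpow (by positivity) h1 (by positivity : 0 ≤ 1 / (p - 2))
    rw [← Real.rpow_mul hμ0.le, mul_one_div_cancel hp2.ne', Real.rpow_one,
      Real.mul_rpow (by positivity) (by positivity), ← Real.rpow_mul hd0.le] at h3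
    have e1 : (p - 1) * (1 / (p - 2)) = be p := by
      unfold be
      field_simp
    rwa [e1] at h3
  have h3 : φ x = 2 ^ mm p * μ := by
    rw [hμ, ← mul_assoc, ← Real.mul_rpow (by norm_num) (by norm_num)]
    norm_num
  rw [h3, mul_assoc]
  exact mul_le_mul_of_nonneg_left h2 (by positivity)

end Pool.Agent.TWC
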