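import Pool.Agent.TWC.TCB
import Pool.Agent.TWC.TGI

/-!
# TWC TGR: growth at the wall point

`S = Po φ`, `T = TT S P0`, data `x0, e0, ρ` of `Fr0`. Claim: `φ x ≤ C |x - P0|^β` near `P0`.

Let `a = <x0,ν> > 0`, `δ = min ρ (a/128)`, `t1 = x0 - δ e0`. `|t1 - (x0 - ρ e0)| = ρ - δ < ρ`, so `t1 ∈ T`
(`inball`). `<t1,ν> ≥ a - δ ≥ a/2 ≥ 64 δ`. Let `η > 0` with `closedBall t1 η ⊆ T`, `0 < λ ≤ 1/2` with
`2 λ (|t1| + 1) ≤ η`, and `s0 > 0` from `tt_compact` for `closedBall t1 η`; `r1 ≤ s0`, `r1 |t1|² ≤ r0 <t1,ν>`.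
Let `0 < r < r1`.
(1) `P0 + r t1 ∈ S`, `infDist (P0 + r t1) Sᶜ ≤ r δ`, because `P0 + r x0 ∉ S` (`x0 ∉ T`) is at distance `r δ`.
`dw_lower`: `dw (P0 + r t1) ≥ r <t1,ν> - r²|t1|²/(2 r0) ≥ r <t1,ν>/2 ≥ 32 r δ`. By `gin` (constant `C`):
`φ (P0 + r t1) ≤ C (r δ)^β`.
(2) Let `x ∈ S`, `r = |x - P0| < r1` (`r > 0` since `P0 ∉ S`), `v = (x - P0)/r`, `w = (t1 - λ v)/(1-λ)`. `w - t1 =
λ (t1 - v)/(1-λ)`, `|w - t1| ≤ 2 λ (|t1| + 1) ≤ η`, so `y = P0 + r w ∈ S`, and `P0 + r t1 = λ x + (1-λ) y`. By concavity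
`φ(P0 + r t1)^q ≥ λ φ(x)^q + (1-λ) φ(y)^q ≥ λ φ(x)^q`, so `φ x ≤ λ^(-m) φ(P0 + r t1) ≤ λ^(-m) C δ^β r^β`.
(3) If `x ∉ S` then `φ x = 0` (`tw.sub.nn`).
-/

open Set Metric Filter Topology
open scoped RealInnerProductSpace

noncomputable section

namespace Pool.Agent.TWC

variable {n : ℕ} {p c : ℝ} {e : E n} {r0 : ℝ} {Ω : Set (E n)} {φ : E n → ℝ} {P0 ν : E n}

theorem gro (h : Ctx p c e r0 Ω φ P0 ν) {x0 e0 : E n} {ρ : ℝ}
    (hf : Fr0 e ν (TT (Po φ) P0) x0 e0 ρ) :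
    ∃ C r1 : ℝ, 0 < C ∧ 0 < r1 ∧ ∀ x, ‖x - P0‖ < r1 → φ x ≤ C * ‖x - P0‖ ^ be p := by
  have hp := h.hp
  have hr0 := h.tube.r0pos
  have ho := h.tw.qs.isOpen
  have hcv := h.tw.qs.convex
  have hcl := h.cl
  have hP := ctx_P0 h
  have ha : 0 < ⟪x0, ν⟫ := hf.x0nu
  have hρ := hf.rho
  obtain ⟨δ, hδ⟩ : ∃ δ, δ = min ρ (⟪x0, ν⟫ / 128) := ⟨_, rfl⟩
  have hδ0 : 0 < δ := by
    rw [hδ]
    exact lt_min hρ (by positivity)
  have hδρ : δ ≤ ρ := by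
    rw [hδ]
    exact min_le_left _ _
  have hδa : δ ≤ ⟪x0, ν⟫ / 128 := by
    rw [hδ]
    exact min_le_right _ _
  obtain ⟨t1, ht1⟩ : ∃ t1, t1 = x0 - δ • e0 := ⟨_, rfl⟩
  have ht1T : t1 ∈ TT (Po φ) P0 := by
    refine hf.inball ?_
    rw [mem_ball, dist_eq_norm]
    have h1 : t1 - (x0 - ρ • e0) = (ρ - δ) • e0 := by
      rw [ht1]
      module
    rw [h1, norm_smul, hf.unit, Real.norm_eq_abs, abs_of_nonneg (by linarith)]
    linarith
  have ht1ν : 64 * δ ≤ ⟪t1, ν⟫ := by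
    have h1 : |⟪e0, ν⟫| ≤ 1 := by
      have := abs_real_inner_le_norm e0 ν
      rwa [hf.unit, h.nu, one_mul] at this
    have h2 : ⟪t1, ν⟫ = ⟪x0, ν⟫ - δ * ⟪e0, ν⟫ := by
      rw [ht1, inner_sub_left, real_inner_smul_left]
    have h3 : δ * ⟪e0, ν⟫ ≤ δ * 1 := mul_le_mul_of_nonneg_left ((le_abs_self _).trans h1) hδ0.le
    rw [h2]
    linarith
  have hTo : IsOpen (TT (Po φ) P0) := tt_open ho
  obtain ⟨η0, hη0, hball⟩ := Metric.isOpen_iff.1 hTo t1 ht1T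
  obtain ⟨η, hη⟩ : ∃ η, η = η0 / 2 := ⟨_, rfl⟩
  have hηp : 0 < η := by
    rw [hη]
    linarith
  have hcb : closedBall t1 η ⊆ TT (Po φ) P0 :=
    (closedBall_subset_ball (by rw [hη]; linarith)).trans hball
  obtain ⟨s0, hs0, hs⟩ := tt_compact ho hcv hcl (isCompact_closedBall t1 η) hcb
  obtain ⟨k, hk⟩ : ∃ k, k = min (1 / 2) (η / (2 * (‖t1‖ + 1))) := ⟨_, rfl⟩
  have hn1 : 0 < ‖t1‖ + 1 := by positivity
  have hk0 : 0 < k := by
    rw [hk]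
    exact lt_min (by norm_num) (by positivity)
  have hk2 : k ≤ 1 / 2 := by
    rw [hk]
    exact min_le_left _ _
  have hkη : 2 * k * (‖t1‖ + 1) ≤ η := by
    have h1 : k ≤ η / (2 * (‖t1‖ + 1)) := by
      rw [hk]
      exact min_le_right _ _
    rw [le_div_iff₀ (by positivity)] at h1
    linarith
  obtain ⟨r1, hr1⟩ : ∃ r1, r1 = min s0 (r0 * ⟪t1, ν⟫ / (‖t1‖ ^ 2 + 1)) := ⟨_, rfl⟩
  have ht1p : 0 < ⟪t1, ν⟫ := by linarith
  have hr1p : 0 < r1 := by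
    rw [hr1]
    exact lt_min hs0 (by positivity)
  obtain ⟨C, hC, hgin⟩ := gin h.hp h.hc h.tube h.ne h.tw
  have hβ : 0 ≤ be p := by
    unfold be
    exact div_nonneg (by linarith) (by linarith)
  -- the bound on the ray
  have hray : ∀ r : ℝ, 0 < r → r < r1 → φ (P0 + r • t1) ≤ C * (r * δ) ^ be p := by
    intro r hr hrr
    have hrs : r ≤ s0 := (hrr.le).trans (by rw [hr1]; exact min_le_left _ _)
    have hS : P0 + r • t1 ∈ Po φ := hs r hr hrs t1 (mem_closedBall_self hηp.le)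
    have hx0 : P0 + r • x0 ∈ (Po φ)ᶜ := fun h1 => hf.x0T (tt_mem hr h1)
    have hd : infDist (P0 + r • t1) (Po φ)ᶜ ≤ r * δ := by
      refine (infDist_le_dist_of_mem hx0).trans_eq ?_
      rw [dist_eq_norm]
      have h1 : P0 + r • t1 - (P0 + r • x0) = -((r * δ) • e0) := by
        rw [ht1]
        module
      rw [h1, norm_neg, norm_smul, hf.unit, Real.norm_eq_abs, abs_of_pos (by positivity), mul_one]
    have hdw := dw_lower h.tube h.ne h.nu h.ib r t1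
    have hrt : r * ‖t1‖ ^ 2 ≤ r0 * ⟪t1, ν⟫ := by
      have h1 : r ≤ r0 * ⟪t1, ν⟫ / (‖t1‖ ^ 2 + 1) :=
        (hrr.le).trans (by rw [hr1]; exact min_le_right _ _)
      rw [le_div_iff₀ (by positivity)] at h1
      nlinarith
    have h2 : r ^ 2 * ‖t1‖ ^ 2 / (2 * r0) ≤ r * ⟪t1, ν⟫ / 2 := by
      rw [div_le_iff₀ (by positivity)]
      nlinarith
    have h3 : 16 * infDist (P0 + r • t1) (Po φ)ᶜ ≤ dw Ω (P0 + r • t1) := by
      have h4 : r * (64 * δ) ≤ r * ⟪t1, ν⟫ := mul_le_mul_of_nonneg_left ht1ν hr.le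
      nlinarith
    refine (hgin _ hS h3).trans ?_
    exact mul_le_mul_of_nonneg_left (Real.rpow_le_rpow infDist_nonneg hd hβ) hC.le
  have hp2 : (0:ℝ) < p - 2 := by linarith
  have hqm : qq p * mm p = 1 := by
    unfold qq mm
    field_simp
  have hm0 : 0 < mm p := by
    unfold mm
    exact div_pos (by linarith) hp2
  refine ⟨k⁻¹ ^ mm p * C * δ ^ be p, r1, by positivity, hr1p, fun x hx => ?_⟩
  by_cases hxS : x ∈ Po φ
  · have hr : 0 < ‖x - P0‖ := by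
      rw [norm_pos_iff, sub_ne_zero]
      rintro rfl
      exact hP hxS
    obtain ⟨r, hrdef⟩ : ∃ r, r = ‖x - P0‖ := ⟨_, rfl⟩
    rw [← hrdef] at hr hx ⊢
    have hrs : r ≤ s0 := hx.le.trans (by rw [hr1]; exact min_le_left _ _)
    obtain ⟨v, hv⟩ : ∃ v, v = r⁻¹ • (x - P0) := ⟨_, rfl⟩
    have hvn : ‖v‖ = 1 := by
      rw [hv, norm_smul, norm_inv, Real.norm_eq_abs, abs_of_pos hr, ← hrdef, inv_mul_cancel₀ hr.ne']
    have hrv : r • v = x - P0 := by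
      rw [hv, smul_smul, mul_inv_cancel₀ hr.ne', one_smul]
    obtain ⟨w, hw⟩ : ∃ w, w = (1 - k)⁻¹ • (t1 - k • v) := ⟨_, rfl⟩
    have hk1 : 0 < 1 - k := by linarith
    have hww : (1 - k) • w = t1 - k • v := by
      rw [hw, smul_smul, mul_inv_cancel₀ hk1.ne', one_smul]
    have hwb : w ∈ closedBall t1 η := by
      rw [mem_closedBall, dist_eq_norm]
      have h1 : (1 - k) • (w - t1) = k • (t1 - v) := by
        rw [smul_sub, hww]
        module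
      have h2 : (1 - k) * ‖w - t1‖ = k * ‖t1 - v‖ := by
        have := congrArg norm h1
        rwa [norm_smul, norm_smul, Real.norm_eq_abs, Real.norm_eq_abs, abs_of_pos hk1,
          abs_of_pos hk0] at this
      have h3 : ‖t1 - v‖ ≤ ‖t1‖ + 1 := by
        refine (norm_sub_le _ _).trans ?_
        rw [hvn]
      have h4 : k * ‖t1 - v‖ ≤ k * (‖t1‖ + 1) := mul_le_mul_of_nonneg_left h3 hk0.le
      have h5 := norm_nonneg (w - t1)
      nlinarith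
    have hyS : P0 + r • w ∈ Po φ := hs r hr hrs w hwb
    have hcomb : k • x + (1 - k) • (P0 + r • w) = P0 + r • t1 := by
      have h1 : (1 - k) • (P0 + r • w) = (1 - k) • P0 + r • ((1 - k) • w) := by
        rw [smul_add, smul_comm]
      rw [h1, hww]
      have h2 : x = P0 + r • v := by
        rw [hrv]
        abel
      rw [h2]
      module
    have hconc := h.tw.qs.conc.2 hxS hyS hk0.le hk1.le (by ring)
    simp only [smul_eq_mul] at hconc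
    rw [hcomb] at hconc
    have hφx : 0 < φ x := hxS
    have hφy : 0 ≤ φ (P0 + r • w) ^ qq p := Real.rpow_nonneg (le_of_lt hyS) _
    have h1 : φ x ^ qq p ≤ k⁻¹ * φ (P0 + r • t1) ^ qq p := by
      have h2 : k * φ x ^ qq p ≤ φ (P0 + r • t1) ^ qq p := by nlinarith
      rw [inv_mul_eq_div, le_div_iff₀ hk0]
      linarith
    have hφ1 : 0 ≤ φ (P0 + r • t1) := h.tw.sub.nn _
    have h3 : φ x ≤ k⁻¹ ^ mm p * φ (P0 + r • t1) := by
      have h4 := Real.rpow_le_rpow (Real.rpow_nonneg hφx.le _) h1 hm0.le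
      rwa [Real.mul_rpow (inv_nonneg.2 hk0.le) (Real.rpow_nonneg hφ1 _), ← Real.rpow_mul hφx.le,
        ← Real.rpow_mul hφ1, hqm, Real.rpow_one, Real.rpow_one] at h4
    have h5 : k⁻¹ ^ mm p * φ (P0 + r • t1) ≤ k⁻¹ ^ mm p * (C * (r * δ) ^ be p) :=
      mul_le_mul_of_nonneg_left (hray r hr hx) (Real.rpow_nonneg (inv_nonneg.2 hk0.le) _)
    refine (h3.trans h5).trans_eq ?_
    rw [Real.mul_rpow hr.le hδ0.le]
    ring
  · have h1 : φ x ≤ 0 := not_lt.1 hxS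
    refine h1.trans ?_
    positivity

end Pool.Agent.TWC
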