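import Pool.Agent.TWC.PAL
import Pool.Agent.TWC.JTA
import Pool.Agent.TWC.PWJ

/-!
# TWC TPF: planar profiles

`profile_t2`: let `ζ` be of class C² near `s = -<x,e0>`. `y ↦ ζ (-<y,e0>)` has at `x` the expansion with gradient
`-ζ' e0` and form `ζ'' rk e0` (`t2_comp` with `t2_lin 0 (-e0) 0`; `rk (-e0) = rk e0`), and if `ζ' = ζ' s > 0`:
`pA p (-ζ' e0) (ζ'' rk e0) + <b, -ζ' e0> = (p-1) ζ'^(p-2) ζ'' - ζ' <b,e0>` (`pA_chain` with `P = -e0`, `X = 0`,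
`a = ζ'`, or `pA_rk`, `|e0| = 1`).

`front_t2`: `v y = Ce (max (-<y,e0>) 0)^β` with `(β Ce)^(p-2) β = <b,e0>`, at a point with `<x,e0> < 0`: the case
`ζ = Ce s^β` (`t2_pospow`): `ζ' = Ce β s^(β-1)`, `ζ'^(p-2) = (Ce β)^(p-2) s`, `ζ'' = Ce β (β-1) s^(β-2)`,
`(p-1)(β-1) = β`: `(p-1) ζ'^(p-2) ζ'' = β (Ce β)^(p-2) Ce β s^(β-1) = <b,e0> ζ'`. See the proof of `fr_key` in FRT.

`front_sp`: `v` is a supersolution on `{<y,e0> < 0}`: if `LJ v x P X` then by `uj_lj` with the expansion of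
`front_t2`, `P = P1` and `X ≤ X1`, so `pA p P X ≤ pA p P1 X1` (`pA_mono`).
-/

open Set Metric Filter Topology
open scoped RealInnerProductSpace

noncomputable section

namespace Pool.Agent.TWC

variable {n : ℕ} {p : ℝ} {b e0 : E n}

private theorem TPF_lin (x e0 : E n) : T2 (fun y => -⟪y, e0⟫) x (-e0) 0 := by
  have h := t2_lin (x := x) (0 : ℝ) (-e0) (0 : E n)
  have e : (fun y : E n => (0 : ℝ) + ⟪-e0, y - 0⟫) = fun y => -⟪y, e0⟫ := by
    funext y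
    rw [sub_zero, inner_neg_left, zero_add, real_inner_comm]
  rw [e] at h
  exact h

private theorem TPF_zero (c : ℝ) : c • (0 : Bil n) = 0 := by
  ext v w
  simp

private theorem TPF_zadd (X : Bil n) : (0 : Bil n) + X = X := by
  ext v w
  simp

private theorem TPF_pA (P : E n) : pA p P (0 : Bil n) = 0 := by
  unfold pA tr
  simp

private theorem TPF_rk_neg (a : E n) : rk (-a) = rk a := by
  ext v w
  simp [rk]

theorem profile_t2 {ζ : ℝ → ℝ} {x : E n} (hζ : ContDiffAt ℝ 2 ζ (-⟪x, e0⟫)) :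
    T2 (fun y => ζ (-⟪y, e0⟫)) x (-(deriv ζ (-⟪x, e0⟫)) • e0)
      ((deriv (deriv ζ) (-⟪x, e0⟫)) • rk e0) := by
  have h := t2_comp hζ (TPF_lin x e0)
  have e1 : deriv ζ (-⟪x, e0⟫) • -e0 = (-(deriv ζ (-⟪x, e0⟫))) • e0 := by
    rw [smul_neg, neg_smul]
  have e2 : deriv ζ (-⟪x, e0⟫) • (0 : Bil n) + deriv (deriv ζ) (-⟪x, e0⟫) • rk (-e0)
      = deriv (deriv ζ) (-⟪x, e0⟫) • rk e0 := by
    rw [TPF_zero, TPF_zadd, TPF_rk_neg]
  rw [e1, e2] at h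
  exact h

theorem profile_op (hp : 2 < p) (he0 : ‖e0‖ = 1) {a d : ℝ} (ha : 0 < a) :
    pA p (-a • e0) (d • rk e0) + ⟪b, -a • e0⟫ = (p - 1) * a ^ (p - 2) * d - a * ⟪b, e0⟫ := by
  have hn : ‖-a • e0‖ = a := by
    rw [norm_smul, he0, mul_one, norm_neg, Real.norm_eq_abs, abs_of_pos ha]
  have hi : ⟪e0, -a • e0⟫ = -a := by
    rw [inner_smul_right, real_inner_self_eq_norm_sq, he0]
    ring
  rw [pA_form_smul, pA_rk hp, hn, hi, he0, inner_smul_right]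
  have e : a ^ (p - 4) * a ^ 2 = a ^ (p - 2) := by
    rw [← Real.rpow_natCast a 2, ← Real.rpow_add ha]
    norm_num
    congr 1
    ring
  have e2 : (p - 2) * a ^ (p - 4) * (-a) ^ 2 = (p - 2) * a ^ (p - 2) := by
    rw [← e]
    ring
  rw [e2]
  ring

theorem front_t2 (hp : 2 < p) (he0 : ‖e0‖ = 1) {Ce : ℝ} (hCe : 0 < Ce)
    (hCe' : (be p * Ce) ^ (p - 2) * be p = ⟪b, e0⟫) {x : E n} (hx : ⟪x, e0⟫ < 0) :
    ∃ (P : E n) (X : Bil n), P ≠ 0 ∧ T2 (fun y => Ce * (max (-⟪y, e0⟫) 0) ^ be p) x P X ∧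
      pA p P X + ⟪b, P⟫ = 0 := by
  have hp2 : 0 < p - 2 := by linarith
  have hβ : 0 < be p := by unfold be; exact div_pos (by linarith) hp2
  have hβ1 : (be p - 1) * (p - 2) = 1 := by unfold be; field_simp; ring
  have hβ2 : (p - 1) * (be p - 1) = be p := by
    unfold be; field_simp; ring
  have hs : 0 < -⟪x, e0⟫ := by linarith
  obtain ⟨s, hsdef⟩ : ∃ s, s = -⟪x, e0⟫ := ⟨_, rfl⟩
  have hT := t2_pospow (C := Ce) (β := be p) (TPF_lin x e0) hs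
  rw [← hsdef] at hT hs
  have hF : 0 < Ce * be p * s ^ (be p - 1) := by positivity
  refine ⟨_, _, ?_, hT, ?_⟩
  · intro h0
    rw [smul_eq_zero] at h0
    rcases h0 with h0 | h0
    · exact hF.ne' h0
    · rw [neg_eq_zero] at h0
      rw [h0, norm_zero] at he0
      exact zero_ne_one he0
  · obtain ⟨F, hFdef⟩ : ∃ F, F = Ce * be p * s ^ (be p - 1) := ⟨_, rfl⟩
    rw [← hFdef] at hF ⊢
    rw [pA_chain hp hF, norm_neg, he0, Real.one_rpow, inner_smul_right, inner_neg_right]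
    rw [TPF_pA]
    have hF1p : F ^ (p - 2) = ⟪b, e0⟫ / be p * s := by
      rw [hFdef, Real.mul_rpow (by positivity) (by positivity), ← Real.rpow_mul hs.le, hβ1,
        Real.rpow_one, ← hCe', mul_comm Ce (be p)]
      field_simp
    have e2 : s ^ (be p - 1) = s ^ (be p - 2) * s := by
      rw [← Real.rpow_add_one hs.ne']
      ring_nf
    rw [hF1p]
    have e3 : ⟪b, e0⟫ / be p * s * (F * 0 + (p - 1) * (Ce * be p * (be p - 1) * s ^ (be p - 2)) * 1)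
        = ((p - 1) * (be p - 1)) * (Ce * (s ^ (be p - 2) * s) * ⟪b, e0⟫) := by
      field_simp
      ring
    rw [e3, hβ2, hFdef, e2]
    ring

theorem front_sp (hp : 2 < p) (he0 : ‖e0‖ = 1) {Ce : ℝ} (hCe : 0 < Ce)
    (hCe' : (be p * Ce) ^ (p - 2) * be p = ⟪b, e0⟫) {O : Set (E n)} (hO : ∀ y ∈ O, ⟪y, e0⟫ < 0) :
    Sp p b 0 O (fun y => Ce * (max (-⟪y, e0⟫) 0) ^ be p) := by
  intro x hx P X hLJ
  obtain ⟨P1, X1, hP1, hT, heq⟩ := front_t2 hp he0 hCe hCe' (hO x hx)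
  obtain ⟨h1, h2⟩ := uj_lj hT.1 hLJ
  rw [zero_mul, add_zero, ← h1]
  have h3 := pA_mono hp (P := P1) h2
  linarith

end Pool.Agent.TWC
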