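import Pool.Agent.TWC.TPF

/-!
# TWC TPL: planar supersolutions with growth `s^β` are below the front

`V ≥ 0` continuous, supersolution on the whole space (`κ = 0`), `V (y + w) = V y` for `w ⊥ e0`,
`V y ≤ C (max (-<y,e0>) 0)^β`. With `f s = V (-s e0)`: `V y = f (-<y,e0>)`, `f 0 = 0`, `f s ≤ C s^β` (`s ≥ 0`).

Let `A > 0`, `γ = ce/β + A` with `ce = <b,e0>`, and `ζ s = ((A + γ s)^β - A^β)/(β γ)` (C² for `A + γ s > 0`):
`ζ' = (A + γ s)^(β-1) > 0`, `ζ'^(p-2) = A + γ s`, `ζ'' = (β-1) γ (A + γ s)^(β-2)`, and as `(p-1)(β-1) = β`: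
`(p-1) ζ'^(p-2) ζ'' = β γ ζ' = (ce + β A) ζ' > ce ζ'`.
Claim: `f s < ζ s` for all `s > 0`. Suppose `f s1 ≥ ζ s1`. `h = f - ζ` is continuous on `[0,s1]`, `h 0 = 0`, `h s1 ≥ 0`, and
`h s < 0` for small `s > 0`, because `ζ s ≥ A^(β-1) s` (`ζ' ≥ A^(β-1)`; mean value, or Bernoulli) and
`f s ≤ C s^β < A^(β-1) s` if `s^(β-1) < A^(β-1)/(C+1)`. So `h` has a minimum on `[0,s1]` at an interior point `s*`
with `h s* < 0`. Then `V - ζ(-<·,e0>)` has a local minimum at `y* = -s* e0`, so (`uj_neg`, `uj_of_max` for `-V`, and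
`profile_t2`) `LJ V y* P X` with `P = -ζ' e0`, `X = ζ'' rk e0`, and `Sp` with `profile_op` gives
`(p-1) ζ'^(p-2) ζ'' - ce ζ' ≤ 0`: contradiction.
Let `A → 0+` in `f s ≤ ζ_A s`: `ζ_A s → ((ce/β) s)^β/(β (ce/β)) = (ce/β)^(β-1) s^β/β = Ce s^β`, as
`(β Ce)^(p-2) = ce/β` and `β - 1 = 1/(p-2)` give `β Ce = (ce/β)^(β-1)`. (Continuity in `A` at `0`; `β > 0`.)
-/

open Set Metric Filter Topology
open scoped RealInnerProductSpace

noncomputable section

namespace Pool.Agent.TWC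

variable {n : ℕ} {p : ℝ} {b e0 : E n}

private theorem TPL_beta (hp : 2 < p) :
    1 < be p ∧ (p - 1) * (be p - 1) = be p ∧ (be p - 1) * (p - 2) = 1 := by
  unfold be
  have h2 : 0 < p - 2 := by linarith
  refine ⟨?_, ?_, ?_⟩
  · rw [lt_div_iff₀ h2]
    linarith
  · field_simp
    ring
  · field_simp
    ring

private theorem TPL_d1 {K A β s : ℝ} (hs : 0 < A + s) :
    HasDerivAt (fun s : ℝ => K * ((A + s) ^ β - A ^ β)) (K * (β * (A + s) ^ (β - 1))) s := by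
  have h1 : HasDerivAt (fun s : ℝ => A + s) 1 s := (hasDerivAt_id s).const_add A
  have h2 := h1.rpow_const (p := β) (Or.inl hs.ne')
  have h3 := (h2.sub_const (A ^ β)).const_mul K
  rw [one_mul] at h3
  exact h3

private theorem TPL_d2 {K A β s : ℝ} (hs : 0 < A + s) :
    deriv (deriv fun s : ℝ => K * ((A + s) ^ β - A ^ β)) s =
      K * (β * ((β - 1) * (A + s) ^ (β - 2))) := by
  have hev : deriv (fun s : ℝ => K * ((A + s) ^ β - A ^ β)) =ᶠ[𝓝 s]
      fun s => K * (β * (A + s) ^ (β - 1)) := by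
    have h0 : ∀ᶠ r in 𝓝 s, 0 < A + r :=
      (continuous_const.add continuous_id).continuousAt.eventually (lt_mem_nhds hs)
    filter_upwards [h0] with r hr
    exact (TPL_d1 hr).deriv
  rw [hev.deriv_eq]
  have h1 : HasDerivAt (fun s : ℝ => A + s) 1 s := (hasDerivAt_id s).const_add A
  have h2 := (((h1.rpow_const (p := β - 1) (Or.inl hs.ne')).const_mul β).const_mul K).deriv
  rw [h2]
  have h3 : β - 1 - 1 = β - 2 := by ring
  rw [h3]
  ring

private theorem TPL_cd {K A β s : ℝ} (hs : 0 < A + s) :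
    ContDiffAt ℝ 2 (fun s : ℝ => K * ((A + s) ^ β - A ^ β)) s :=
  contDiffAt_const.mul
    (((contDiffAt_const.add contDiffAt_id).rpow_const_of_ne hs.ne').sub contDiffAt_const)

private theorem TPL_pos (hp : 2 < p) {Ce K A s ce : ℝ} (hCe : 0 < Ce) (hK : Ce < K)
    (hCe' : (be p * Ce) ^ (p - 2) * be p = ce) (hs : 0 < A + s) :
    0 < (p - 1) * (K * (be p * (A + s) ^ (be p - 1))) ^ (p - 2) *
        (K * (be p * ((be p - 1) * (A + s) ^ (be p - 2)))) -
      K * (be p * (A + s) ^ (be p - 1)) * ce := by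
  obtain ⟨hb1, hb2, hb3⟩ := TPL_beta hp
  set β := be p with hβ
  have hK0 : 0 < K := hCe.trans hK
  have hβ0 : 0 < β := by linarith
  have h2 : 0 < p - 2 := by linarith
  have e1 : ((A + s) ^ (β - 1)) ^ (p - 2) = A + s := by
    rw [← Real.rpow_mul hs.le, hb3, Real.rpow_one]
  have e2 : (K * (β * (A + s) ^ (β - 1))) ^ (p - 2) = (β * K) ^ (p - 2) * (A + s) := by
    rw [← mul_assoc, mul_comm K β, Real.mul_rpow (mul_nonneg hβ0.le hK0.le)
      (Real.rpow_nonneg hs.le _), e1]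
  have e3 : (A + s) * (A + s) ^ (β - 2) = (A + s) ^ (β - 1) := by
    have h3 : β - 1 = 1 + (β - 2) := by ring
    rw [h3, Real.rpow_add hs, Real.rpow_one]
  have e4 : (p - 1) * (K * (β * (A + s) ^ (β - 1))) ^ (p - 2) *
        (K * (β * ((β - 1) * (A + s) ^ (β - 2)))) =
      ((β * K) ^ (p - 2) * β) * (K * (β * (A + s) ^ (β - 1))) := by
    rw [e2, ← e3]
    calc (p - 1) * ((β * K) ^ (p - 2) * (A + s)) * (K * (β * ((β - 1) * (A + s) ^ (β - 2))))
        = ((p - 1) * (β - 1)) * ((β * K) ^ (p - 2) * (K * (β * ((A + s) * (A + s) ^ (β - 2))))) := by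
          ring
      _ = ((β * K) ^ (p - 2) * β) * (K * (β * ((A + s) * (A + s) ^ (β - 2)))) := by
          rw [hb2]
          ring
  have h5 : (β * Ce) ^ (p - 2) < (β * K) ^ (p - 2) :=
    Real.rpow_lt_rpow (mul_nonneg hβ0.le hCe.le) (mul_lt_mul_of_pos_left hK hβ0) h2
  have h6 : ce < (β * K) ^ (p - 2) * β := by
    rw [← hCe']
    exact mul_lt_mul_of_pos_right h5 hβ0
  have h7 : 0 < K * (β * (A + s) ^ (β - 1)) := by
    have := Real.rpow_pos_of_pos hs (β - 1)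
    positivity
  rw [e4]
  nlinarith

private theorem TPL_small {K A β C s1 : ℝ} (hβ : 1 < β) (hK : 0 < K) (hA : 0 < A)
    (hs1 : 0 < s1) : ∃ s, 0 < s ∧ s < s1 ∧ C * s ^ β < K * ((A + s) ^ β - A ^ β) := by
  have hT : Tendsto (fun s : ℝ => C * s ^ (β - 1)) (𝓝[>] 0) (𝓝 (C * 0 ^ (β - 1))) :=
    (((Real.continuous_rpow_const (by linarith : (0 : ℝ) ≤ β - 1)).tendsto 0).const_mul C).mono_left
      nhdsWithin_le_nhds
  rw [Real.zero_rpow (by linarith : β - 1 ≠ 0), mul_zero] at hT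
  have hAp : 0 < A ^ (β - 1) := Real.rpow_pos_of_pos hA _
  have h1 : ∀ᶠ s : ℝ in 𝓝[>] 0, C * s ^ (β - 1) < K * (β * A ^ (β - 1)) :=
    hT.eventually (gt_mem_nhds (by positivity))
  have h2 : ∀ᶠ s : ℝ in 𝓝[>] 0, s < s1 := nhdsWithin_le_nhds (gt_mem_nhds hs1)
  obtain ⟨s, ⟨hs, hs2⟩, hs3⟩ := ((h1.and h2).and self_mem_nhdsWithin).exists
  have hs0 : 0 < s := hs3
  refine ⟨s, hs0, hs2, ?_⟩
  have e1 : s ^ β = s ^ (β - 1) * s := by
    have h3 : β = (β - 1) + 1 := by ring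
    conv_lhs => rw [h3, Real.rpow_add hs0, Real.rpow_one]
  have e2 : A ^ β = A ^ (β - 1) * A := by
    have h3 : β = (β - 1) + 1 := by ring
    conv_lhs => rw [h3, Real.rpow_add hA, Real.rpow_one]
  have h4 : 1 + β * (s / A) ≤ (1 + s / A) ^ β :=
    one_add_mul_self_le_rpow_one_add (by have : 0 < s / A := by positivity
                                         linarith) hβ.le
  have e3 : (A + s) ^ β = A ^ β * (1 + s / A) ^ β := by
    rw [← Real.mul_rpow hA.le (by positivity)]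
    congr 1
    field_simp
  have h5 : A ^ β + β * A ^ (β - 1) * s ≤ (A + s) ^ β := by
    rw [e3]
    have h6 := mul_le_mul_of_nonneg_left h4 (Real.rpow_nonneg hA.le β)
    refine le_trans (le_of_eq ?_) h6
    rw [e2]
    field_simp
  rw [e1]
  calc C * (s ^ (β - 1) * s) = (C * s ^ (β - 1)) * s := by ring
    _ < (K * (β * A ^ (β - 1))) * s := mul_lt_mul_of_pos_right hs hs0
    _ = K * (β * A ^ (β - 1) * s) := by ring
    _ ≤ K * ((A + s) ^ β - A ^ β) := mul_le_mul_of_nonneg_left (by linarith) hK.le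

private theorem TPL_claim (hp : 2 < p) (he0 : ‖e0‖ = 1) {Ce K A : ℝ} (hCe : 0 < Ce) (hK : Ce < K)
    (hA : 0 < A) (hCe' : (be p * Ce) ^ (p - 2) * be p = ⟪b, e0⟫) {V : E n → ℝ}
    (hV : Continuous V) (hnn : ∀ y, 0 ≤ V y) (hsp : Sp p b 0 univ V)
    (hVf : ∀ y, V y = V (-((-⟪y, e0⟫) • e0))) {C : ℝ}
    (hbd : ∀ y, V y ≤ C * (max (-⟪y, e0⟫) 0) ^ be p) {s1 : ℝ} (hs1 : 0 < s1) :
    V (-(s1 • e0)) ≤ K * ((A + s1) ^ be p - A ^ be p) := by
  obtain ⟨hb1, hb2, hb3⟩ := TPL_beta hp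
  have hK0 : 0 < K := hCe.trans hK
  by_contra hcon
  push Not at hcon
  have hin : ∀ s : ℝ, ⟪-(s • e0), e0⟫ = -s := fun s => by
    rw [inner_neg_left, real_inner_smul_left, real_inner_self_eq_norm_sq, he0]
    ring
  set ζ : ℝ → ℝ := fun s => K * ((A + s) ^ be p - A ^ be p) with hζ
  have hfc : Continuous fun s : ℝ => V (-(s • e0)) :=
    hV.comp (continuous_id.smul continuous_const).neg
  have hζc : ContinuousOn ζ (Icc 0 s1) := fun s hs =>
    (TPL_d1 (K := K) (β := be p) (by linarith [hs.1] : 0 < A + s)).continuousAt.continuousWithinAt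
  obtain ⟨s, hsm, hmin⟩ := isCompact_Icc.exists_isMinOn (nonempty_Icc.2 hs1.le)
    (hfc.continuousOn.sub hζc)
  have hmin' : ∀ t ∈ Icc (0 : ℝ) s1, V (-(s • e0)) - ζ s ≤ V (-(t • e0)) - ζ t := fun t ht =>
    hmin ht
  obtain ⟨s2, hs20, hs21, hs2⟩ := TPL_small (C := C) hb1 hK0 hA hs1
  have hf2 : V (-(s2 • e0)) ≤ C * s2 ^ be p := by
    have := hbd (-(s2 • e0))
    rw [hin, neg_neg, max_eq_left hs20.le] at this
    exact this
  have hneg : V (-(s • e0)) - ζ s < 0 := by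
    have h1 := hmin' s2 ⟨hs20.le, hs21.le⟩
    have h2 : C * s2 ^ be p < ζ s2 := hs2
    linarith
  have hζ0 : ζ 0 = 0 := by
    show K * ((A + 0) ^ be p - A ^ be p) = 0
    rw [add_zero, sub_self, mul_zero]
  have hs0 : s ≠ 0 := by
    intro h0
    rw [h0, hζ0] at hneg
    have := hnn (-((0 : ℝ) • e0))
    linarith
  have hs1' : s ≠ s1 := by
    intro h0
    rw [h0] at hneg
    linarith
  have hsp0 : 0 < s := lt_of_le_of_ne hsm.1 (Ne.symm hs0)
  have hsp1 : s < s1 := lt_of_le_of_ne hsm.2 hs1'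
  have hAs : 0 < A + s := by linarith
  have hy : -⟪-(s • e0), e0⟫ = s := by rw [hin, neg_neg]
  have hT2 := profile_t2 (e0 := e0) (x := -(s • e0)) (ζ := ζ) (by rw [hy]; exact TPL_cd hAs)
  rw [hy, (TPL_d1 (K := K) (β := be p) hAs).deriv, TPL_d2 hAs] at hT2
  have hLJ := uj_neg.2 hT2.2
  have hUJ : UJ (fun y => -V y) (-(s • e0)) (-(-(K * (be p * (A + s) ^ (be p - 1))) • e0))
      (-((K * (be p * ((be p - 1) * (A + s) ^ (be p - 2)))) • rk e0)) := by
    refine uj_of_max hLJ ⟨min s (s1 - s), lt_min hsp0 (by linarith), fun y hy' => ?_⟩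
    have h1 : |⟪y - -(s • e0), e0⟫| ≤ ‖y - -(s • e0)‖ * ‖e0‖ := abs_real_inner_le_norm _ _
    rw [he0, mul_one, inner_sub_left, hin, sub_neg_eq_add] at h1
    have h2 := abs_le.1 (h1.trans hy'.le)
    have h3 : min s (s1 - s) ≤ s := min_le_left _ _
    have h4 : min s (s1 - s) ≤ s1 - s := min_le_right _ _
    have h5 := hmin' (-⟪y, e0⟫) ⟨by linarith [h2.2], by linarith [h2.1]⟩
    rw [← hVf] at h5
    show -V y - -ζ (-⟪y, e0⟫) ≤ -V (-(s • e0)) - -ζ (-⟪-(s • e0), e0⟫)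
    rw [hy]
    linarith
  have hLJV := uj_neg.1 hUJ
  have h6 := hsp _ (mem_univ _) _ _ hLJV
  have ha : 0 < K * (be p * (A + s) ^ (be p - 1)) := by
    have := Real.rpow_pos_of_pos hAs (be p - 1)
    positivity
  rw [profile_op hp he0 ha, zero_mul, add_zero] at h6
  have h7 := TPL_pos hp hCe hK hCe' hAs
  linarith

theorem pl (hp : 2 < p) (he0 : ‖e0‖ = 1) (hce : 0 < ⟪b, e0⟫) {Ce : ℝ} (hCe : 0 < Ce)
    (hCe' : (be p * Ce) ^ (p - 2) * be p = ⟪b, e0⟫) {V : E n → ℝ} (hV : Continuous V)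
    (hnn : ∀ y, 0 ≤ V y) (hsp : Sp p b 0 univ V)
    (hpl : ∀ y w, ⟪w, e0⟫ = 0 → V (y + w) = V y) {C : ℝ} (hC : 0 < C)
    (hbd : ∀ y, V y ≤ C * (max (-⟪y, e0⟫) 0) ^ be p) :
    ∀ y, V y ≤ Ce * (max (-⟪y, e0⟫) 0) ^ be p := by
  obtain ⟨hb1, hb2, hb3⟩ := TPL_beta hp
  have hβ0 : be p ≠ 0 := by linarith
  have hVf : ∀ y, V y = V (-((-⟪y, e0⟫) • e0)) := fun y => by
    have h1 : ⟪y - ⟪y, e0⟫ • e0, e0⟫ = 0 := by
      rw [inner_sub_left, real_inner_smul_left, real_inner_self_eq_norm_sq, he0]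
      ring
    have h2 := hpl (⟪y, e0⟫ • e0) _ h1
    rw [add_sub_cancel] at h2
    rw [h2, neg_smul, neg_neg]
  intro y
  rcases le_or_gt 0 ⟪y, e0⟫ with hy | hy
  · have h1 := hbd y
    rw [max_eq_right (by linarith : -⟪y, e0⟫ ≤ 0), Real.zero_rpow hβ0, mul_zero] at h1 ⊢
    exact h1
  · have hs : 0 < -⟪y, e0⟫ := by linarith
    rw [max_eq_left hs.le, hVf y]
    generalize -⟪y, e0⟫ = s at hs
    have hT : Tendsto (fun A : ℝ => (Ce + A) * ((A + s) ^ be p - A ^ be p)) (𝓝[>] 0)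
        (𝓝 ((Ce + 0) * ((0 + s) ^ be p - 0 ^ be p))) := by
      have hc : Continuous fun A : ℝ => (Ce + A) * ((A + s) ^ be p - A ^ be p) := by
        have hr := Real.continuous_rpow_const (by linarith : (0 : ℝ) ≤ be p)
        exact (continuous_const.add continuous_id).mul
          ((hr.comp (continuous_id.add continuous_const)).sub hr)
      exact (hc.tendsto 0).mono_left nhdsWithin_le_nhds
    rw [add_zero, zero_add, Real.zero_rpow hβ0, sub_zero] at hT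
    refine ge_of_tendsto hT ?_
    filter_upwards [self_mem_nhdsWithin] with A hA
    have hA0 : (0 : ℝ) < A := hA
    exact TPL_claim hp he0 hCe (by linarith) hA0 hCe' hV hnn hsp hVf hbd hs

end Pool.Agent.TWC
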