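import Pool.Agent.TWC.TPF
import Pool.Agent.TWC.SMP
import Pool.Agent.TWC.TDF

/-!
# TWC TST: the blow up limit is strictly below the front

`v y = Ce (max (-<y,e0>) 0)^β`, `U ≤ v` everywhere, `b = c e`. Claim: `U < v` on `Π ∩ H`, `Π = {<y,e0> < 0}`, `H = Hs ν`.

Note `v > 0` on `Π`. Suppose `U z = v z` for some `z ∈ Π ∩ H`. Then `U z > 0`, `z ∈ T` (`off`).
(1) `U > 0` on `T`: if `U z0 = 0`, `z0 ∈ T`, then with `w = z0 + s (z0 - z) ∈ T` for small `s > 0` (`T` open):
`z0 = (s/(1+s)) z + (1/(1+s)) w`, `0 = U(z0)^q ≥ (s/(1+s)) U(z)^q > 0`. So `Po U = T` (`off`) and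
`QS p (c e) 0 T U` (`sub.sb` restricted to `T`).
(2) the coincidence set `A = {y ∈ Π ∩ H : U y = v y}` is open: `y ∈ A` implies `U y = v y > 0`, `y ∈ T`. `front_t2` gives
`T2 v y P X`, `P ≠ 0`; `U ≤ v`, `U y = v y`, so `UJ U y P X` (`uj_local`), and `uj_gd`: `Gd p T U y P`. `smp` with
`S = T`, `u = U`, `v` (continuous; `front_sp` on `T`, since `<h,e0> < 0` on `T`): `U = v` near `y`.
(3) `Π ∩ H` is convex, hence preconnected, open; `A` is open, nonempty, and `{y ∈ Π ∩ H : U y < v y}` is open (continuity).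
So `U = v` on `Π ∩ H`.
(4) The points `y_s = -e + s ν`, `s → 0+`, are in `Π ∩ H`: `<y_s,e0> = -<e,e0> + s <ν,e0> < 0` for small `s` and
`<y_s,ν> = s > 0` (`eν`, `hν`). Hence `U (-e) = v (-e) = Ce <e,e0>^β > 0` (continuity). But `<-e,ν> = 0`, so `-e ∉ H ⊇ T`
and `U (-e) = 0`: contradiction.
So `U z ≠ v z`, and `U z ≤ v z`.
-/

open Set Metric Filter Topology
open scoped RealInnerProductSpace

noncomputable section

namespace Pool.Agent.TWC

variable {n : ℕ} {p c : ℝ} {e ν : E n} {T : Set (E n)} {x0 e0 : E n} {ρ : ℝ} {U : E n → ℝ}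

theorem st (hp : 2 < p) (hc : 0 < c) (h : Cn e ν T) (hf : Fr0 e ν T x0 e0 ρ)
    (hU : BU p c e ν T U) {Ce : ℝ} (hCe : 0 < Ce)
    (hCe' : (be p * Ce) ^ (p - 2) * be p = ⟪c • e, e0⟫)
    (hle : ∀ y, U y ≤ Ce * (max (-⟪y, e0⟫) 0) ^ be p) {y : E n} (hy : 0 < ⟪y, ν⟫)
    (hy' : ⟪y, e0⟫ < 0) : U y < Ce * (-⟪y, e0⟫) ^ be p := by
  have hp2 : 0 < p - 2 := by linarith
  have hp0 : 0 < p := by linarith
  have hβ : 0 < be p := by unfold be; exact div_pos (by linarith) hp2
  have hq : 0 < qq p := by unfold qq; exact div_pos hp2 hp0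
  have _ := hc
  set v : E n → ℝ := fun y => Ce * (max (-⟪y, e0⟫) 0) ^ be p with hvdef
  have hvc : Continuous v := by
    refine continuous_const.mul (Continuous.rpow_const ?_ fun _ => Or.inr hβ.le)
    fun_prop
  have hvpos : ∀ y, ⟪y, e0⟫ < 0 → 0 < v y := by
    intro y hy
    have h1 : 0 < max (-⟪y, e0⟫) 0 := lt_max_of_lt_left (by linarith)
    have h2 := Real.rpow_pos_of_pos h1 (be p)
    simp only [hvdef]
    positivity
  have hvy : v y = Ce * (-⟪y, e0⟫) ^ be p := by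
    simp only [hvdef]
    rw [max_eq_left (by linarith)]
  rw [← hvy]
  refine lt_of_le_of_ne (hle y) fun heq => ?_
  have hmemT : ∀ y, 0 < U y → y ∈ T := by
    intro y hy
    by_contra hn
    rw [hU.off y hn] at hy
    exact lt_irrefl _ hy
  have hUy : 0 < U y := by
    rw [heq]
    exact hvpos y hy'
  have hyT : y ∈ T := hmemT y hUy
  -- positivity on the cone
  have hpos : ∀ z ∈ T, 0 < U z := by
    intro z0 hz0
    refine lt_of_le_of_ne (hU.nn z0) fun h0 => ?_
    have hcont : Continuous fun s : ℝ => z0 + s • (z0 - y) := by fun_prop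
    have h1 : (fun s : ℝ => z0 + s • (z0 - y)) ⁻¹' T ∈ 𝓝 (0 : ℝ) :=
      (h.isOpen.preimage hcont).mem_nhds (by
        show z0 + (0 : ℝ) • (z0 - y) ∈ T
        rw [zero_smul, add_zero]
        exact hz0)
    obtain ⟨ε, hε, hεb⟩ := Metric.mem_nhds_iff.1 h1
    have hw : z0 + (ε / 2) • (z0 - y) ∈ T := hεb (by
      rw [mem_ball, Real.dist_eq, sub_zero, abs_of_pos (by positivity)]
      linarith)
    have hs : 0 < ε / 2 := by positivity
    have h2 := hU.conc.2 hyT hw (by positivity : 0 ≤ (ε / 2) / (1 + ε / 2))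
      (by positivity : 0 ≤ 1 / (1 + ε / 2)) (by field_simp; ring)
    have e1 : ((ε / 2) / (1 + ε / 2)) • y + (1 / (1 + ε / 2)) • (z0 + (ε / 2) • (z0 - y)) =
        z0 := by
      have e2 : (1 + ε / 2) ≠ 0 := by positivity
      have e3 : ((ε / 2) / (1 + ε / 2)) • y + (1 / (1 + ε / 2)) • (z0 + (ε / 2) • (z0 - y)) =
          (1 / (1 + ε / 2)) • ((1 + ε / 2) • z0) := by
        rw [div_eq_mul_one_div (ε / 2), mul_comm (ε / 2), mul_smul, ← smul_add]
        congr 1
        module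
      rw [e3, smul_smul, one_div_mul_cancel e2, one_smul]
    rw [e1] at h2
    simp only [smul_eq_mul] at h2
    rw [← h0, Real.zero_rpow hq.ne'] at h2
    have h3 : 0 < U y ^ qq p := Real.rpow_pos_of_pos hUy _
    have h4 : 0 ≤ U (z0 + (ε / 2) • (z0 - y)) ^ qq p := Real.rpow_nonneg (hU.nn _) _
    have h5 : 0 < (ε / 2) / (1 + ε / 2) * U y ^ qq p := by positivity
    have h6 : 0 ≤ 1 / (1 + ε / 2) * U (z0 + (ε / 2) • (z0 - y)) ^ qq p := by positivity
    linarith
  have hQ : QS p (c • e) 0 T U :=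
    ⟨h.isOpen, h.convex, hpos, hU.conc, fun x _ P X hj => hU.sub.sb x (mem_univ x) P X hj⟩
  -- the coincidence set is open
  have hopen : ∀ z, ⟪z, e0⟫ < 0 → U z = v z → ∃ r > 0, ∀ x ∈ ball z r, U x = v x := by
    intro z hz hUz
    have hzT : z ∈ T := hmemT z (by rw [hUz]; exact hvpos z hz)
    obtain ⟨P, X, hP, hT, _⟩ := front_t2 hp hf.unit hCe hCe' hz
    have hj : UJ U z P X := uj_local hT.1 ⟨1, one_pos, fun x _ => hle x⟩ hUz
    exact smp hp le_rfl hQ hvc (front_sp hp hf.unit hCe hCe' hf.sub) (fun x _ => hle x) hzT hUz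
      (uj_gd hp hQ hzT hj) hP
  set D : Set (E n) := {z | ⟪z, e0⟫ < 0 ∧ 0 < ⟪z, ν⟫} with hD
  have hDc : Convex ℝ D := by
    have c1 : Convex ℝ {z : E n | ⟪z, e0⟫ < 0} := by
      intro a ha b hb s t hs ht hst
      have ha' : ⟪a, e0⟫ < 0 := ha
      have hb' : ⟪b, e0⟫ < 0 := hb
      show ⟪s • a + t • b, e0⟫ < 0
      rw [inner_add_left, real_inner_smul_left, real_inner_smul_left]
      rcases hs.eq_or_lt with h0 | h0
      · rw [← h0] at hst ⊢
        have : t = 1 := by linarith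
        rw [this]
        linarith
      · nlinarith
    have c2 : Convex ℝ {z : E n | 0 < ⟪z, ν⟫} := by
      intro a ha b hb s t hs ht hst
      have ha' : 0 < ⟪a, ν⟫ := ha
      have hb' : 0 < ⟪b, ν⟫ := hb
      show 0 < ⟪s • a + t • b, ν⟫
      rw [inner_add_left, real_inner_smul_left, real_inner_smul_left]
      rcases hs.eq_or_lt with h0 | h0
      · rw [← h0] at hst ⊢
        have : t = 1 := by linarith
        rw [this]
        linarith
      · nlinarith
    exact c1.inter c2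
  have hDo : IsOpen D := by
    have o1 : IsOpen {z : E n | ⟪z, e0⟫ < 0} := isOpen_lt (by fun_prop) continuous_const
    have o2 : IsOpen {z : E n | 0 < ⟪z, ν⟫} := isOpen_lt continuous_const (by fun_prop)
    exact o1.inter o2
  have hA : IsOpen (D ∩ {z | U z = v z}) := by
    rw [Metric.isOpen_iff]
    rintro z ⟨hz, hUz⟩
    obtain ⟨r, hr, hb⟩ := hopen z hz.1 hUz
    obtain ⟨r', hr', hb'⟩ := Metric.isOpen_iff.1 hDo z hz
    exact ⟨min r r', lt_min hr hr', fun x hx =>
      ⟨hb' (ball_subset_ball (min_le_right _ _) hx), hb x (ball_subset_ball (min_le_left _ _) hx)⟩⟩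
  have hB : IsOpen {z | U z < v z} := isOpen_lt hU.cont hvc
  have hall : ∀ z ∈ D, U z = v z := by
    intro z hz
    by_contra hne
    obtain ⟨w, _, hw1, hw2⟩ := hDc.isPreconnected _ _ hA hB
      (fun w hw => by
        rcases (hle w).lt_or_eq with h1 | h1
        · exact Or.inr h1
        · exact Or.inl ⟨hw, h1⟩)
      ⟨y, ⟨hy', hy⟩, ⟨hy', hy⟩, heq⟩ ⟨z, hz, lt_of_le_of_ne (hle z) hne⟩
    have h1 : U w = v w := hw1.2
    have h2 : U w < v w := hw2
    linarith
  have hcl : -e ∈ closure D := by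
    have ht : Tendsto (fun s : ℝ => -e + s • ν) (𝓝[>] 0) (𝓝 (-e)) := by
      have hcont : Continuous fun s : ℝ => -e + s • ν := by fun_prop
      have h1 := hcont.tendsto 0
      rw [zero_smul, add_zero] at h1
      exact h1.mono_left nhdsWithin_le_nhds
    refine mem_closure_of_tendsto ht ?_
    have h2 : ∀ᶠ s : ℝ in 𝓝[>] 0, ⟪-e + s • ν, e0⟫ < 0 := by
      have hcont : Continuous fun s : ℝ => ⟪-e + s • ν, e0⟫ := by fun_prop
      have h3 : ∀ᶠ s : ℝ in 𝓝 0, ⟪-e + s • ν, e0⟫ < 0 :=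
        hcont.continuousAt.eventually_lt continuousAt_const (by
          rw [zero_smul, add_zero, inner_neg_left]
          linarith [hf.epos])
      exact h3.filter_mono nhdsWithin_le_nhds
    filter_upwards [h2, self_mem_nhdsWithin] with s hs1 hs2
    refine ⟨hs1, ?_⟩
    have hs2 : 0 < s := hs2
    show 0 < ⟪-e + s • ν, ν⟫
    rw [inner_add_left, inner_neg_left, h.eν, real_inner_smul_left, real_inner_self_eq_norm_sq,
      h.hν]
    linarith
  have hfin : U (-e) = v (-e) :=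
    closure_minimal hall (isClosed_eq hU.cont hvc) hcl
  have hneT : -e ∉ T := fun hm => by
    have h1 : 0 < ⟪-e, ν⟫ := h.subH hm
    rw [inner_neg_left, h.eν] at h1
    linarith
  have h1 := hvpos (-e) (by rw [inner_neg_left]; linarith [hf.epos])
  rw [← hfin, hU.off _ hneT] at h1
  exact lt_irrefl _ h1

end Pool.Agent.TWC
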