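import Pool.Agent.TWC.TCA

/-!
# TWC TVA: the limit along the direction `x0`

`V y = Vl U x0 y = ⨆ k, U (y + k x0)`; `m = mm p`, `q = qq p = 1/m`.

* `va_absorb`: if `<y,e0> < 0`, then `y + k x0 ∈ T` for all large `k`: by the cone property it is enough that
  `x0 + y/k ∈ T`, and `|x0 + y/k - (x0 - ρ e0)|² = |y|²/k² + 2ρ<y,e0>/k + ρ² < ρ²` if `|y|² < -2ρ<y,e0> k`.
* `x0 ∈ closure T` (limit of `x0 - s e0 ∈ ball (x0 - ρ e0) ρ`, `s → 0`); `tt_add`: `y + k x0 ∈ T` implies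
  `y + k' x0 ∈ T` for `k' ≥ k` (`k' > k`: `(k'-k) x0 ∈ closure T`; by `tt_add`), also for real `k' ≥ k`.
* `va_mono`: if `y + k x0 ∉ T` then `U (y + k x0) = 0 ≤ U (y + k' x0)`. If `y + k x0 ∈ T`: the concave function
  `s ↦ U(y + s x0)^q` is `≥ 0` on `[k,∞)`; for `k ≤ k' < N`:
  `g(k') ≥ ((N-k')/(N-k)) g(k) + ((k'-k)/(N-k)) g(N) ≥ ((N-k')/(N-k)) g(k)`; `N → ∞`: `g(k') ≥ g(k)`, so `U` is larger.
* `va_bd`: constant `C` of `hU.gin`. If `y + k x0 ∈ T`: for `k' ≥ k` large, `w = y + k' x0 ∈ T`, `<w,e0> = <y,e0> < 0`,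
  `infDist w Tᶜ ≤ -<y,e0>` (the point `w - <w,e0> e0` has `<.,e0> = 0`, so it is in `Tᶜ`), and
  `<w,ν> = <y,ν> + k' <x0,ν> ≥ -32 <y,e0>` for large `k'`; so `U (y + k x0) ≤ U w ≤ C (-<y,e0>)^β`. If not in `T` the
  value is `0`.
* `va_tendsto`: monotone and bounded above: `tendsto_atTop_ciSup`. `va_le`: `le_ciSup` at `k = 0`.
* `va_off`: `<y + k x0, e0> = <y,e0> ≥ 0`, so all values are `0`.
* `va_bdd`: `ciSup_le`.
* `va_conc`: for `y, z ∈ Π = {<.,e0> < 0}`, `w = a y + b z`: for large `k` all three points `y + k x0` etc. are in `T`: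
  `U(w + k x0)^q ≥ a U(y + k x0)^q + b U(z + k x0)^q`; limit (`va_tendsto`, continuity of `t ↦ t^q`).
* `va_planar`: if `<y,e0> ≥ 0` both sides are `0`. Otherwise the line `y + s w` is in `Π`, and
  `s ↦ V(y + s w)^q` is concave and `≥ 0` on `ℝ`, hence constant (by the argument in `va_mono` it is nondecreasing in
  both directions); so `V(y + w)^q = V(y)^q` and `V(y+w) = V y` (`V ≥ 0`).
-/

open Set Metric Filter Topology
open scoped RealInnerProductSpace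

noncomputable section

namespace Pool.Agent.TWC

variable {n : ℕ} {p c : ℝ} {e ν : E n} {T : Set (E n)} {x0 e0 : E n} {ρ : ℝ} {U : E n → ℝ}

private theorem TVA_q (hp : 2 < p) : 0 < qq p := div_pos (by linarith) (by linarith)

private theorem TVA_be (hp : 2 < p) : 0 < be p := div_pos (by linarith) (by linarith)

private theorem TVA_cl (h : Cn e ν T) (hf : Fr0 e ν T x0 e0 ρ) : x0 ∈ closure T := by
  rw [Metric.mem_closure_iff]
  intro ε hε
  have hρ := hf.rho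
  have hs : 0 < min ρ (ε / 2) := by positivity
  refine ⟨x0 - (min ρ (ε / 2)) • e0, hf.inball ?_, ?_⟩
  · rw [mem_ball, dist_eq_norm]
    have e1 : x0 - (min ρ (ε / 2)) • e0 - (x0 - ρ • e0) = (ρ - min ρ (ε / 2)) • e0 := by
      rw [sub_smul]
      abel
    rw [e1, norm_smul, hf.unit, mul_one, Real.norm_eq_abs, abs_lt]
    have h2 := min_le_left ρ (ε / 2)
    constructor <;> linarith
  · rw [dist_eq_norm]
    have e1 : x0 - (x0 - (min ρ (ε / 2)) • e0) = (min ρ (ε / 2)) • e0 := by abel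
    rw [e1, norm_smul, hf.unit, mul_one, Real.norm_eq_abs, abs_of_pos hs]
    have h2 := min_le_right ρ (ε / 2)
    linarith

private theorem TVA_add (h : Cn e ν T) (hf : Fr0 e ν T x0 e0 ρ) {y : E n} {s t : ℝ} (hst : s ≤ t)
    (hy : y + s • x0 ∈ T) : y + t • x0 ∈ T := by
  rcases hst.eq_or_lt with rfl | hlt
  · exact hy
  · have hd : 0 < t - s := sub_pos.2 hlt
    have h1 := h.smul _ hy (t - s)⁻¹ (inv_pos.2 hd)
    have h2 := tt_add h.isOpen h.convex h.smul h1 (TVA_cl h hf)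
    have h3 := h.smul _ h2 (t - s) hd
    rw [smul_add, smul_smul, mul_inv_cancel₀ hd.ne', one_smul] at h3
    have e1 : y + s • x0 + (t - s) • x0 = y + t • x0 := by
      rw [sub_smul]
      abel
    rwa [e1] at h3

theorem va_absorb (h : Cn e ν T) (hf : Fr0 e ν T x0 e0 ρ) {y : E n} (hy : ⟪y, e0⟫ < 0) :
    ∃ K : ℕ, ∀ k : ℕ, K ≤ k → y + (k : ℝ) • x0 ∈ T := by
  have hρ := hf.rho
  have hden : 0 < -2 * ρ * ⟪y, e0⟫ := by nlinarith
  obtain ⟨K, hK⟩ := exists_nat_gt (‖y‖ ^ 2 / (-2 * ρ * ⟪y, e0⟫))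
  refine ⟨K + 1, fun k hk => ?_⟩
  have hkK : (K : ℝ) + 1 ≤ k := by exact_mod_cast hk
  have hk0 : (0 : ℝ) < k := by
    have : (0 : ℝ) ≤ K := Nat.cast_nonneg K
    linarith
  have h1 : ‖y‖ ^ 2 < k * (-2 * ρ * ⟪y, e0⟫) := by
    rw [div_lt_iff₀ hden] at hK
    nlinarith
  have h2 : x0 + (k : ℝ)⁻¹ • y ∈ T := by
    apply hf.inball
    rw [mem_ball, dist_eq_norm]
    have e1 : x0 + (k : ℝ)⁻¹ • y - (x0 - ρ • e0) = (k : ℝ)⁻¹ • y + ρ • e0 := by abel
    rw [e1]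
    have h3 : ‖(k : ℝ)⁻¹ • y + ρ • e0‖ ^ 2 < ρ ^ 2 := by
      rw [norm_add_sq_real, norm_smul, norm_smul, real_inner_smul_left, real_inner_smul_right,
        hf.unit, Real.norm_eq_abs, Real.norm_eq_abs, abs_of_pos hρ, abs_of_pos (inv_pos.2 hk0)]
      have h4 : ((k : ℝ)⁻¹ * ‖y‖) ^ 2 + 2 * ((k : ℝ)⁻¹ * (ρ * ⟪y, e0⟫)) < 0 := by
        have e2 : ((k : ℝ)⁻¹ * ‖y‖) ^ 2 + 2 * ((k : ℝ)⁻¹ * (ρ * ⟪y, e0⟫)) =
            (k : ℝ)⁻¹ ^ 2 * (‖y‖ ^ 2 - k * (-2 * ρ * ⟪y, e0⟫)) := by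
          field_simp
          ring
        rw [e2]
        exact mul_neg_of_pos_of_neg (by positivity) (by linarith)
      linarith
    exact lt_of_pow_lt_pow_left₀ 2 hρ.le h3
  have h3 := h.smul _ h2 k hk0
  rw [smul_add, smul_smul, mul_inv_cancel₀ hk0.ne', one_smul, add_comm] at h3
  exact h3

/-- Nonnegative concave functions on a half line are nondecreasing. -/
theorem conc_mono {g : ℝ → ℝ} {a : ℝ} (hg : ConcaveOn ℝ (Ici a) g) (h0 : ∀ s, a ≤ s → 0 ≤ g s) :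
    MonotoneOn g (Ici a) := by
  intro s hs t ht hst
  have hs' : a ≤ s := hs
  have ht' : a ≤ t := ht
  by_contra hlt
  push Not at hlt
  have hne : s < t := by
    rcases hst.eq_or_lt with rfl | h
    · exact absurd hlt (lt_irrefl _)
    · exact h
  have hd : 0 < g s - g t := sub_pos.2 hlt
  have hts : 0 < t - s := sub_pos.2 hne
  have hgt := h0 t ht'
  obtain ⟨N, hN⟩ : ∃ N : ℝ, N = t + (t - s) * (g t + 1) / (g s - g t) := ⟨_, rfl⟩
  have hNt : 0 < N - t := by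
    rw [hN, add_sub_cancel_left]
    positivity
  have hNd : (N - t) * (g s - g t) = (t - s) * (g t + 1) := by
    rw [hN, add_sub_cancel_left, div_mul_cancel₀ _ hd.ne']
  have hNs : 0 < N - s := by linarith
  have h1 := hg.2 hs (show N ∈ Ici a from by rw [mem_Ici]; linarith)
    (show 0 ≤ (N - t) / (N - s) by positivity) (show 0 ≤ (t - s) / (N - s) by positivity)
    (by rw [← add_div, div_eq_one_iff_eq hNs.ne']; ring)
  simp only [smul_eq_mul] at h1
  have e1 : (N - t) / (N - s) * s + (t - s) / (N - s) * N = t := by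
    field_simp
    ring
  rw [e1] at h1
  have h2 : (N - t) * g s + (t - s) * g N ≤ (N - s) * g t := by
    have h3 := mul_le_mul_of_nonneg_left h1 hNs.le
    have e2 : (N - s) * ((N - t) / (N - s) * g s + (t - s) / (N - s) * g N) =
        (N - t) * g s + (t - s) * g N := by
      field_simp
    rwa [e2] at h3
  have h4 := h0 N (by linarith)
  have h5 : 0 ≤ (t - s) * g N := mul_nonneg hts.le h4
  nlinarith

private theorem TVA_rpow (hp : 2 < p) {a b : ℝ} (ha : 0 ≤ a) (hb : 0 ≤ b)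
    (h : a ^ qq p ≤ b ^ qq p) : a ≤ b :=
  (Real.rpow_le_rpow_iff ha hb (TVA_q hp)).1 h

private theorem TVA_lin (y x0 : E n) (a b s t : ℝ) (hab : a + b = 1) :
    y + (a * s + b * t) • x0 = a • (y + s • x0) + b • (y + t • x0) := by
  rw [smul_add, smul_add, smul_smul, smul_smul, add_smul]
  have e1 : a • y + b • y = y := by rw [← add_smul, hab, one_smul]
  have e2 : a • y + (a * s) • x0 + (b • y + (b * t) • x0) =
      (a • y + b • y) + ((a * s) • x0 + (b * t) • x0) := by abel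
  rw [e2, e1]

private theorem TVA_step (hp : 2 < p) (h : Cn e ν T) (hf : Fr0 e ν T x0 e0 ρ)
    (hU : BU p c e ν T U) (y : E n) {s t : ℝ} (hst : s ≤ t) :
    U (y + s • x0) ≤ U (y + t • x0) := by
  by_cases hy : y + s • x0 ∈ T
  · have hc : ConcaveOn ℝ (Ici s) (fun r => U (y + r • x0) ^ qq p) := by
      refine ⟨convex_Ici s, ?_⟩
      intro r1 h1 r2 h2 a b ha hb hab
      have m1 : y + r1 • x0 ∈ T := TVA_add h hf h1 hy
      have m2 : y + r2 • x0 ∈ T := TVA_add h hf h2 hy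
      have h3 := hU.conc.2 m1 m2 ha hb hab
      show a • U (y + r1 • x0) ^ qq p + b • U (y + r2 • x0) ^ qq p ≤
        U (y + (a * r1 + b * r2) • x0) ^ qq p
      rw [TVA_lin y x0 a b r1 r2 hab]
      exact h3
    have h4 := conc_mono hc (fun r _ => Real.rpow_nonneg (hU.nn _) _) (mem_Ici.2 le_rfl)
      (mem_Ici.2 hst) hst
    exact TVA_rpow hp (hU.nn _) (hU.nn _) h4
  · rw [hU.off _ hy]
    exact hU.nn _

theorem va_mono (hp : 2 < p) (h : Cn e ν T) (hf : Fr0 e ν T x0 e0 ρ) (hU : BU p c e ν T U)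
    (y : E n) : Monotone fun k : ℕ => U (y + (k : ℝ) • x0) := by
  intro k k' hkk
  exact TVA_step hp h hf hU y (by exact_mod_cast hkk)

theorem va_bd (hp : 2 < p) (h : Cn e ν T) (hf : Fr0 e ν T x0 e0 ρ) (hU : BU p c e ν T U) :
    ∃ C : ℝ, 0 < C ∧ ∀ (y : E n) (k : ℕ),
      U (y + (k : ℝ) • x0) ≤ C * (max (-⟪y, e0⟫) 0) ^ be p := by
  obtain ⟨C, hC, hg⟩ := hU.gin
  refine ⟨C, hC, fun y k => ?_⟩
  by_cases hk : y + (k : ℝ) • x0 ∈ T
  · have h1 := hf.sub _ hk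
    rw [inner_add_left, real_inner_smul_left, hf.orth, mul_zero, add_zero] at h1
    obtain ⟨K, hK⟩ := exists_nat_gt ((-32 * ⟪y, e0⟫ - ⟪y, ν⟫) / ⟪x0, ν⟫)
    have hx := hf.x0nu
    rw [div_lt_iff₀ hx] at hK
    obtain ⟨m, hm⟩ : ∃ m : ℕ, m = max k K := ⟨_, rfl⟩
    have hkm : (k : ℝ) ≤ m := by
      rw [hm]
      exact_mod_cast le_max_left k K
    have hKm : (K : ℝ) ≤ m := by
      rw [hm]
      exact_mod_cast le_max_right k K
    have hw : y + (m : ℝ) • x0 ∈ T := TVA_add h hf hkm hk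
    have hwe : ⟪y + (m : ℝ) • x0, e0⟫ = ⟪y, e0⟫ := by
      rw [inner_add_left, real_inner_smul_left, hf.orth, mul_zero, add_zero]
    have hwn : ⟪y + (m : ℝ) • x0, ν⟫ = ⟪y, ν⟫ + m * ⟪x0, ν⟫ := by
      rw [inner_add_left, real_inner_smul_left]
    have hinf : infDist (y + (m : ℝ) • x0) Tᶜ ≤ -⟪y, e0⟫ := by
      have hmem : y + (m : ℝ) • x0 - ⟪y, e0⟫ • e0 ∈ Tᶜ := by
        intro hmT
        have h2 := hf.sub _ hmT
        rw [inner_sub_left, hwe, real_inner_smul_left, real_inner_self_eq_norm_sq, hf.unit] at h2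
        linarith
      refine (infDist_le_dist_of_mem hmem).trans ?_
      rw [dist_eq_norm]
      have e1 : y + (m : ℝ) • x0 - (y + (m : ℝ) • x0 - ⟪y, e0⟫ • e0) = ⟪y, e0⟫ • e0 := by abel
      rw [e1, norm_smul, hf.unit, mul_one, Real.norm_eq_abs, abs_of_neg h1]
    have h3 := hg _ hw (by
      rw [hwn]
      nlinarith)
    have h4 := TVA_step hp h hf hU y hkm
    have h5 : infDist (y + (m : ℝ) • x0) Tᶜ ^ be p ≤ (max (-⟪y, e0⟫) 0) ^ be p :=
      Real.rpow_le_rpow infDist_nonneg (hinf.trans (le_max_left _ _)) (TVA_be hp).le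
    exact h4.trans (h3.trans (mul_le_mul_of_nonneg_left h5 hC.le))
  · rw [hU.off _ hk]
    exact mul_nonneg hC.le (Real.rpow_nonneg (le_max_right _ _) _)

private theorem TVA_bddAbove (hp : 2 < p) (h : Cn e ν T) (hf : Fr0 e ν T x0 e0 ρ)
    (hU : BU p c e ν T U) (y : E n) :
    BddAbove (range fun k : ℕ => U (y + (k : ℝ) • x0)) := by
  obtain ⟨C, -, hC⟩ := va_bd hp h hf hU
  refine ⟨C * (max (-⟪y, e0⟫) 0) ^ be p, ?_⟩
  rintro _ ⟨k, rfl⟩
  exact hC y k

theorem va_tendsto (hp : 2 < p) (h : Cn e ν T) (hf : Fr0 e ν T x0 e0 ρ) (hU : BU p c e ν T U)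
    (y : E n) : Tendsto (fun k : ℕ => U (y + (k : ℝ) • x0)) atTop (𝓝 (Vl U x0 y)) :=
  tendsto_atTop_ciSup (va_mono hp h hf hU y) (TVA_bddAbove hp h hf hU y)

theorem va_le (hp : 2 < p) (h : Cn e ν T) (hf : Fr0 e ν T x0 e0 ρ) (hU : BU p c e ν T U)
    (y : E n) : U y ≤ Vl U x0 y := by
  have h1 := le_ciSup (TVA_bddAbove hp h hf hU y) 0
  simp only [Nat.cast_zero, zero_smul, add_zero] at h1
  exact h1

theorem va_nn (hp : 2 < p) (h : Cn e ν T) (hf : Fr0 e ν T x0 e0 ρ) (hU : BU p c e ν T U)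
    (y : E n) : 0 ≤ Vl U x0 y := (hU.nn y).trans (va_le hp h hf hU y)

theorem va_off (h : Cn e ν T) (hf : Fr0 e ν T x0 e0 ρ) (hU : BU p c e ν T U)
    {y : E n} (hy : 0 ≤ ⟪y, e0⟫) : Vl U x0 y = 0 := by
  have h1 : ∀ k : ℕ, U (y + (k : ℝ) • x0) = 0 := by
    intro k
    apply hU.off
    intro hk
    have h2 := hf.sub _ hk
    rw [inner_add_left, real_inner_smul_left, hf.orth, mul_zero, add_zero] at h2
    linarith
  unfold Vl
  simp only [h1, ciSup_const]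

theorem va_bdd (hp : 2 < p) (h : Cn e ν T) (hf : Fr0 e ν T x0 e0 ρ) (hU : BU p c e ν T U) :
    ∃ C : ℝ, 0 < C ∧ ∀ y : E n, Vl U x0 y ≤ C * (max (-⟪y, e0⟫) 0) ^ be p := by
  obtain ⟨C, hC0, hC⟩ := va_bd hp h hf hU
  exact ⟨C, hC0, fun y => ciSup_le fun k => hC y k⟩

theorem va_conc (hp : 2 < p) (h : Cn e ν T) (hf : Fr0 e ν T x0 e0 ρ) (hU : BU p c e ν T U) :
    ConcaveOn ℝ {y : E n | ⟪y, e0⟫ < 0} (fun y => Vl U x0 y ^ qq p) := by
  constructor
  · intro y hy z hz a b ha hb hab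
    have hy' : ⟪y, e0⟫ < 0 := hy
    have hz' : ⟪z, e0⟫ < 0 := hz
    show ⟪a • y + b • z, e0⟫ < 0
    rw [inner_add_left, real_inner_smul_left, real_inner_smul_left]
    rcases ha.eq_or_lt with h0 | h0
    · have hb1 : b = 1 := by linarith
      rw [← h0, hb1]
      linarith
    · nlinarith [mul_neg_of_pos_of_neg h0 hy', mul_nonneg hb (neg_nonneg.2 hz'.le)]
  · intro y hy z hz a b ha hb hab
    obtain ⟨K1, hK1⟩ := va_absorb h hf (y := y) hy
    obtain ⟨K2, hK2⟩ := va_absorb h hf (y := z) hz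
    have hq := TVA_q hp
    have t1 : Tendsto (fun k : ℕ => a • U (y + (k : ℝ) • x0) ^ qq p +
        b • U (z + (k : ℝ) • x0) ^ qq p) atTop
        (𝓝 (a • Vl U x0 y ^ qq p + b • Vl U x0 z ^ qq p)) :=
      (((va_tendsto hp h hf hU y).rpow_const (Or.inr hq.le)).const_smul a).add
        (((va_tendsto hp h hf hU z).rpow_const (Or.inr hq.le)).const_smul b)
    have t2 : Tendsto (fun k : ℕ => U ((a • y + b • z) + (k : ℝ) • x0) ^ qq p) atTop
        (𝓝 (Vl U x0 (a • y + b • z) ^ qq p)) :=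
      (va_tendsto hp h hf hU _).rpow_const (Or.inr hq.le)
    refine le_of_tendsto_of_tendsto t1 t2 ?_
    filter_upwards [eventually_ge_atTop (max K1 K2)] with k hk
    have h1 := hK1 k ((le_max_left _ _).trans hk)
    have h2 := hK2 k ((le_max_right _ _).trans hk)
    have h3 := hU.conc.2 h1 h2 ha hb hab
    have e1 : a • (y + (k : ℝ) • x0) + b • (z + (k : ℝ) • x0) =
        (a • y + b • z) + (k : ℝ) • x0 := by
      rw [smul_add, smul_add]
      have e2 : a • y + a • (k : ℝ) • x0 + (b • z + b • (k : ℝ) • x0) =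
          a • y + b • z + (a • (k : ℝ) • x0 + b • (k : ℝ) • x0) := by abel
      rw [e2, ← add_smul, hab, one_smul]
    rw [e1] at h3
    exact h3

private theorem TVA_half (hp : 2 < p) (h : Cn e ν T) (hf : Fr0 e ν T x0 e0 ρ)
    (hU : BU p c e ν T U) {y w : E n} (hy : ⟪y, e0⟫ < 0) (hw : ⟪w, e0⟫ = 0) :
    Vl U x0 y ≤ Vl U x0 (y + w) := by
  have hc := va_conc hp h hf hU
  have hmem : ∀ r : ℝ, ⟪y + r • w, e0⟫ < 0 := by
    intro r
    rw [inner_add_left, real_inner_smul_left, hw, mul_zero, add_zero]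
    exact hy
  have hg : ConcaveOn ℝ (Ici (0 : ℝ)) (fun r => Vl U x0 (y + r • w) ^ qq p) := by
    refine ⟨convex_Ici 0, ?_⟩
    intro r1 _ r2 _ a b ha hb hab
    have h3 := hc.2 (hmem r1) (hmem r2) ha hb hab
    show a • Vl U x0 (y + r1 • w) ^ qq p + b • Vl U x0 (y + r2 • w) ^ qq p ≤
      Vl U x0 (y + (a * r1 + b * r2) • w) ^ qq p
    rw [TVA_lin y w a b r1 r2 hab]
    exact h3
  have h4 := conc_mono hg (fun r _ => Real.rpow_nonneg (va_nn hp h hf hU _) _)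
    (mem_Ici.2 le_rfl) (mem_Ici.2 zero_le_one) zero_le_one
  simp only [zero_smul, add_zero, one_smul] at h4
  exact TVA_rpow hp (va_nn hp h hf hU _) (va_nn hp h hf hU _) h4

theorem va_planar (hp : 2 < p) (h : Cn e ν T) (hf : Fr0 e ν T x0 e0 ρ) (hU : BU p c e ν T U)
    (y w : E n) (hw : ⟪w, e0⟫ = 0) : Vl U x0 (y + w) = Vl U x0 y := by
  by_cases hy : ⟪y, e0⟫ < 0
  · apply le_antisymm
    · have h1 := TVA_half hp h hf hU (y := y + w) (w := -w)
        (by rw [inner_add_left, hw, add_zero]; exact hy) (by rw [inner_neg_left, hw, neg_zero])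
      rwa [add_neg_cancel_right] at h1
    · exact TVA_half hp h hf hU hy hw
  · push Not at hy
    rw [va_off h hf hU hy, va_off h hf hU (by rw [inner_add_left, hw, add_zero]; exact hy)]

end Pool.Agent.TWC
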