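import Pool.Agent.TWC.TVA
import Pool.Agent.TWC.STAB

/-!
# TWC TVB: the limit `V = Vl U x0` is continuous and a supersolution on the whole space

* `va_cont`. On the open half space `Π = {<y,e0> < 0}` the function `V^q` is concave (`va_conc`), hence continuous
  (`ConcaveOn.continuousOn` for open sets in finite dimension), and `V = (V^q)^m`. At points with `<y,e0> ≥ 0`: `V y = 0`
  and `0 ≤ V z ≤ C (max (-<z,e0>) 0)^β → 0` as `z → y` (squeeze).
* locally uniform convergence: Dini's theorem (`Monotone.tendstoLocallyUniformly_of_forall_tendsto` in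
  `Mathlib.Topology.UniformSpace.Dini`) for `k ↦ U (· + k x0)`, with limit `V` continuous.
* `va_sp`: `stab_sp` (filter `atTop`, `κ = 0`, `κs = 0`, `O = univ`): `U (· + k x0)` is a supersolution on
  `{y | y + k x0 ∈ Hs ν}` (`uj_shift` with `a = -(k x0)`, for `-U`, or directly from the definition of `LJ`), and for
  `y ∈ ball x 1`: `<y + k x0, ν> ≥ -|x| - 1 + k <x0,ν> > 0` for large `k`.
-/

open Set Metric Filter Topology
open scoped RealInnerProductSpace

noncomputable section

namespace Pool.Agent.TWC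

variable {n : ℕ} {p c : ℝ} {e ν : E n} {T : Set (E n)} {x0 e0 : E n} {ρ : ℝ} {U : E n → ℝ}

theorem va_cont (hp : 2 < p) (h : Cn e ν T) (hf : Fr0 e ν T x0 e0 ρ) (hU : BU p c e ν T U) :
    Continuous (Vl U x0) := by
  have hin : Continuous fun y : E n => ⟪y, e0⟫ := by fun_prop
  rw [continuous_iff_continuousAt]
  intro y
  rcases lt_or_ge (⟪y, e0⟫ : ℝ) 0 with hy | hy
  · have ho : IsOpen {y : E n | ⟪y, e0⟫ < 0} := isOpen_lt hin continuous_const
    have h1 : ContinuousAt (fun y => Vl U x0 y ^ qq p) y :=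
      ((va_conc hp h hf hU).continuousOn ho).continuousAt (ho.mem_nhds hy)
    have hm : 0 < mm p := by
      unfold mm
      exact div_pos (by linarith) (by linarith)
    have hqm : qq p * mm p = 1 := by
      have h2 : p - 2 ≠ 0 := by intro h3; linarith
      have h4 : p ≠ 0 := by intro h3; linarith
      unfold qq mm
      field_simp
    have h2 : ContinuousAt (fun y => (Vl U x0 y ^ qq p) ^ mm p) y :=
      h1.rpow_const (Or.inr hm.le)
    have h3 : (fun y => (Vl U x0 y ^ qq p) ^ mm p) = Vl U x0 := by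
      funext z
      rw [← Real.rpow_mul (va_nn hp h hf hU z), hqm, Real.rpow_one]
    rw [h3] at h2
    exact h2
  · obtain ⟨C, hC, hb⟩ := va_bdd hp h hf hU
    have hβ : 0 < be p := by
      unfold be
      exact div_pos (by linarith) (by linarith)
    have h0 : Vl U x0 y = 0 := va_off h hf hU hy
    have hc : Continuous fun z : E n => C * (max (-⟪z, e0⟫) 0) ^ be p := by
      have h1 : Continuous fun z : E n => max (-(⟪z, e0⟫ : ℝ)) 0 := hin.neg.max continuous_const
      exact continuous_const.mul (h1.rpow_const fun z => Or.inr hβ.le)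
    have hl : Tendsto (fun z : E n => C * (max (-⟪z, e0⟫) 0) ^ be p) (𝓝 y) (𝓝 0) := by
      have h1 := hc.tendsto y
      have h2 : max (-(⟪y, e0⟫ : ℝ)) 0 = 0 := max_eq_right (by linarith)
      simp only [h2, Real.zero_rpow hβ.ne', mul_zero] at h1
      exact h1
    show Tendsto (Vl U x0) (𝓝 y) (𝓝 (Vl U x0 y))
    rw [h0]
    exact squeeze_zero (fun z => va_nn hp h hf hU z) hb hl

theorem va_sp (hp : 2 < p) (h : Cn e ν T) (hf : Fr0 e ν T x0 e0 ρ) (hU : BU p c e ν T U) :
    Sp p (c • e) 0 univ (Vl U x0) := by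
  have hsh : ∀ k : ℕ, Continuous fun y : E n => U (y + (k : ℝ) • x0) := fun k =>
    hU.cont.comp (continuous_id.add continuous_const)
  refine stab_sp (p := p) (b := c • e) (κ := 0) hp (ι := ℕ) (l := atTop) (O := univ)
    (v := fun k y => U (y + (k : ℝ) • x0)) (V := Vl U x0) (κs := fun _ => 0)
    tendsto_const_nhds (fun k => (hsh k).lowerSemicontinuous) ?_ ?_
  · intro x _
    refine ⟨1, one_pos, ?_⟩
    obtain ⟨K, hK⟩ := exists_nat_gt ((‖x‖ + 1) / ⟪x0, ν⟫)
    filter_upwards [eventually_ge_atTop K] with k hk y hy P X hJ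
    have h1 : (‖x‖ + 1) < (k : ℝ) * ⟪x0, ν⟫ := by
      have h2 : (‖x‖ + 1) / ⟪x0, ν⟫ < (k : ℝ) := hK.trans_le (by exact_mod_cast hk)
      rwa [div_lt_iff₀ hf.x0nu] at h2
    have hyn : -(‖x‖ + 1) < ⟪y, ν⟫ := by
      have h2 : ‖y‖ < ‖x‖ + 1 := by
        have h3 : ‖y‖ ≤ ‖x‖ + ‖y - x‖ := by
          have := norm_add_le x (y - x)
          rwa [add_sub_cancel] at this
        have h4 : ‖y - x‖ < 1 := by rwa [mem_ball, dist_eq_norm] at hy
        linarith
      have h3 := abs_real_inner_le_norm y ν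
      rw [h.hν, mul_one] at h3
      have h4 := (abs_le.1 h3).1
      linarith
    have hmem : y + (k : ℝ) • x0 ∈ Hs ν := by
      show 0 < ⟪y + (k : ℝ) • x0, ν⟫
      rw [inner_add_left, real_inner_smul_left]
      linarith
    have hJ' : LJ U (y + (k : ℝ) • x0) P X := by
      have h2 := uj_neg.2 hJ
      have h3 : UJ (fun z => (fun w => -U w) (z - (-((k : ℝ) • x0)))) y (-P) (-X) := by
        simpa only [sub_neg_eq_add] using h2
      have h4 := (uj_shift (u := fun w => -U w) (-((k : ℝ) • x0))).1 h3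
      rw [sub_neg_eq_add] at h4
      exact uj_neg.1 h4
    have h5 := hU.sp _ hmem P X hJ'
    simpa using h5
  · intro x _
    refine ⟨1, one_pos, fun ε hε => ?_⟩
    have h1 : TendstoUniformlyOn (fun (k : ℕ) (y : E n) => U (y + (k : ℝ) • x0)) (Vl U x0) atTop
        (closedBall x 1) :=
      Monotone.tendstoUniformlyOn_of_forall_tendsto (isCompact_closedBall x 1)
        (fun k => (hsh k).continuousOn) (fun y _ => va_mono hp h hf hU y)
        (va_cont hp h hf hU).continuousOn (fun y _ => va_tendsto hp h hf hU y)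
    rw [Metric.tendstoUniformlyOn_iff] at h1
    filter_upwards [h1 ε hε] with k hk y hy
    have h2 := hk y (ball_subset_closedBall hy)
    rw [dist_comm, Real.dist_eq] at h2
    exact h2.le

end Pool.Agent.TWC
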