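import Pool.Agent.TWC.TVB
import Pool.Agent.TWC.TPL
import Pool.Agent.TWC.TST
import Pool.Agent.TWC.FRT

/-!
# TWC TZA: the blow up limit vanishes near the frontier direction `x0`

`b = c e`, `ce = <b,e0> = c <e,e0> > 0` (`epos`). Put `Ce = (ce/β)^(1/(p-2))/β`: `Ce > 0`,
`(β Ce)^(p-2) β = ce`. `pl` for `V = Vl U x0` (`va_cont`, `va_nn`, `va_sp`, `va_planar`, `va_bdd`) and `va_le`:
`U y ≤ V y ≤ Ce (max (-<y,e0>) 0)^β` for all `y`. `st`: strict inequality where `<y,ν> > 0`, `<y,e0> < 0`. Let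
`R = <x0,ν> > 0`: on `ball x0 R` one has `<x,ν> > 0` (`|ν| = 1`). `frt` at `x0` with this `R`, `u = U`
(`<x - x0, e0> = <x,e0>` as `<x0,e0> = 0`; `husc` from continuity; `hsb` from `hU.sub.sb`, `κ = 0`).
-/

open Set Metric Filter Topology
open scoped RealInnerProductSpace

noncomputable section

namespace Pool.Agent.TWC

variable {n : ℕ} {p c : ℝ} {e ν : E n} {T : Set (E n)} {x0 e0 : E n} {ρ : ℝ} {U : E n → ℝ}

theorem tza (hp : 2 < p) (hc : 0 < c) (h : Cn e ν T) (hf : Fr0 e ν T x0 e0 ρ)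
    (hU : BU p c e ν T U) : ∃ r > 0, ∀ x ∈ ball x0 r, U x = 0 := by
  have hp2 : 0 < p - 2 := by linarith
  have hβ : 0 < be p := by
    unfold be
    exact div_pos (by linarith) hp2
  have hce : 0 < ⟪c • e, e0⟫ := by
    rw [real_inner_smul_left]
    exact mul_pos hc hf.epos
  -- the constant of the front
  obtain ⟨Ce, hCe, hCe'⟩ : ∃ Ce : ℝ, 0 < Ce ∧ (be p * Ce) ^ (p - 2) * be p = ⟪c • e, e0⟫ := by
    refine ⟨(⟪c • e, e0⟫ / be p) ^ (1 / (p - 2)) / be p, ?_, ?_⟩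
    · have := Real.rpow_pos_of_pos (div_pos hce hβ) (1 / (p - 2))
      exact div_pos this hβ
    · rw [mul_div_cancel₀ _ hβ.ne', ← Real.rpow_mul (div_pos hce hβ).le,
        one_div_mul_cancel hp2.ne', Real.rpow_one, div_mul_cancel₀ _ hβ.ne']
  obtain ⟨C, hC, hbd⟩ := va_bdd hp h hf hU
  have hV := pl hp hf.unit hce hCe hCe' (va_cont hp h hf hU) (va_nn hp h hf hU) (va_sp hp h hf hU)
    (va_planar hp h hf hU) hC hbd
  have hle : ∀ y, U y ≤ Ce * (max (-⟪y, e0⟫) 0) ^ be p := fun y =>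
    (va_le hp h hf hU y).trans (hV y)
  have hx : ∀ x, ⟪x - x0, e0⟫ = ⟪x, e0⟫ := by
    intro x
    rw [inner_sub_left, hf.orth, sub_zero]
  refine frt hp hf.unit hce hCe hCe' (R := ⟪x0, ν⟫) hf.x0nu hU.nn hU.cont.upperSemicontinuous ?_ ?_ ?_
  · intro x _ P X hJ
    exact hU.sub.sb x (mem_univ x) P X hJ
  · intro x _
    rw [hx]
    exact hle x
  · intro x hxb hneg
    rw [hx] at hneg ⊢
    refine st hp hc h hf hU hCe hCe' hle ?_ hneg
    have h1 : ⟪x, ν⟫ = ⟪x0, ν⟫ + ⟪x - x0, ν⟫ := by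
      rw [inner_sub_left]
      ring
    have h2 : |⟪x - x0, ν⟫| ≤ ‖x - x0‖ * ‖ν‖ := abs_real_inner_le_norm _ _
    rw [h.hν, mul_one] at h2
    rw [mem_ball, dist_eq_norm] at hxb
    have h3 := (abs_le.1 h2).1
    linarith

end Pool.Agent.TWC
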