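import Pool.Agent.TWC.CST
import Pool.Agent.TWC.PAL
import Pool.Agent.TWC.PWJ

/-!
# TWC ZP: propagation of zeros of small subsolutions

`m = mm p = p/(p-2) > 1`, `(m-1)(p-2) = 2`, `(m-1)(p-1) = m + 1`.
Moving frame `y(τ) = y1 - cτ e`, `0 ≤ τ ≤ T ≤ 1`. `u` is a subsolution with
`κ' ∈ [0, ka p]`, `u = 0` on `closedBall y1 ρ`, `u ≤ A2` on the swept balls,
`A2 ≤ c5 ρ^m T^(-ka p)`. Claim: `u = 0` on `closedBall (y1 - cT e) (ρ/4)`.

Barrier: `B x τ = A g(τ) s^m`, `s = max (|x - y(τ)| - ρ/4) 0`, `g(τ) = (2T - τ)^(-a) e^(κ' τ)`, `a = ka p`.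
For `s > 0`, `z = x - y(τ)`: `P = A g m s^(m-1) z/|z|`, and (`t2_rad`)
`pA p P X = |P|^(p-2) A g m ((p-1)(m-1) s^(m-2) + (n-1) s^(m-1)/|z|)`
`= (A g m)^(p-1) s^m ((p-1)(m-1) + (n-1) s/|z|)` (`(m-1)(p-2) + m - 2 = m`), and `s/|z| ≤ 1`, so
`pA ≤ (A g)^(p-1) m^(p-1) (n + 2p) m s^m` (crude bound `(p-1)(m-1) + n - 1 ≤ (n+2p) m`).
`∂_τ B = <c e, P> + A s^m g'`, `g' = a (2T-τ)^(-a-1) e^(κ'τ) + κ' g`; `a(p-1) = a + 1`, so
`g^(p-1) = (2T-τ)^(-a-1) e^(κ'(p-1)τ)`. Hence `∂_τ B ≥ pA + <c e,P> + κ' B` as soon as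
`a ≥ A^(p-2) m^p (n+2p) e^(κ'(p-2)τ)`; as `κ'(p-2) ≤ 1`, `τ ≤ 1` it is enough that
`A^(p-2) ≤ a/(3 m^p (n+2p))`: fix `A = A(n,p)` this way.
`cs` with `K = {(x,τ) : 0 ≤ τ ≤ T, |x-y(τ)| ≤ ρ}`, `O = univ`. Violation `B x τ < u x`:
`τ ≠ 0` (`u = 0` on `closedBall y1 ρ`, `B ≥ 0`); `|x - y(τ)| < ρ`, since for `|x-y(τ)| = ρ`
`B ≥ A (3ρ/4)^m (2T)^(-a) ≥ A2 ≥ u` when `c5 = A (3/4)^m 2^(-a)`. So the point is interior to the slice and
to the past (`y` continuous). If `s > 0` use the second alternative; if `s = 0` then `B x τ = 0` and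
`DtU (B x) τ 0`: `|x - y(τ-h)| - ρ/4 ≤ |c| |e| h`, so `B x (τ-h) ≤ C h^m = o(h)`.
Conclusion at `τ = T`: `B = 0` on `closedBall (y1 - cT e) (ρ/4)`.
-/

open Set Metric Filter Topology
open scoped RealInnerProductSpace

noncomputable section

namespace Pool.Agent.TWC

variable {p : ℝ}

/-- The time factor of the barrier. -/
def zpg (a κ' T τ : ℝ) : ℝ := (2 * T - τ) ^ (-a) * Real.exp (κ' * τ)

/-- The barrier. -/
def zpB {n : ℕ} (A m a κ' T ρ c : ℝ) (e y1 : E n) (x : E n) (τ : ℝ) : ℝ :=
  A * zpg a κ' T τ * (max (‖x - (y1 - (c * τ) • e)‖ - ρ / 4) 0) ^ m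

theorem zpg_deriv {a κ' T τ : ℝ} (h : 0 < 2 * T - τ) :
    HasDerivAt (zpg a κ' T)
      (a * (2 * T - τ) ^ (-a - 1) * Real.exp (κ' * τ) + κ' * zpg a κ' T τ) τ := by
  have h1 : HasDerivAt (fun t : ℝ => 2 * T - t) (-1) τ := by
    simpa using (hasDerivAt_id τ).const_sub (2 * T)
  have h2 := h1.rpow_const (p := -a) (Or.inl h.ne')
  have h3 : HasDerivAt (fun t : ℝ => Real.exp (κ' * t)) (Real.exp (κ' * τ) * κ') τ := by
    have := ((hasDerivAt_id τ).const_mul κ').exp
    simpa using this
  refine (h2.fun_mul h3).congr_deriv ?_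
  unfold zpg
  ring

theorem zp_norm_deriv {n : ℕ} {c τ : ℝ} {e y1 x : E n} (h : x - (y1 - (c * τ) • e) ≠ 0) :
    HasDerivAt (fun t : ℝ => ‖x - (y1 - (c * t) • e)‖)
      (⟪x - (y1 - (c * τ) • e), c • e⟫ / ‖x - (y1 - (c * τ) • e)‖) τ := by
  have h1 : HasDerivAt (fun t : ℝ => x - (y1 - (c * t) • e)) (c • e) τ := by
    have h2 : HasDerivAt (fun t : ℝ => (c * t) • e) (c • e) τ := by
      have := ((hasDerivAt_id τ).const_mul c).smul_const e
      simpa using this
    have h3 := (h2.const_sub y1).const_sub x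
    simpa using h3
  have h2 := h1.norm_sq
  have hn : 0 < ‖x - (y1 - (c * τ) • e)‖ := norm_pos_iff.2 h
  have h3 := h2.sqrt (by positivity)
  have e1 : (fun t : ℝ => √(‖x - (y1 - (c * t) • e)‖ ^ 2)) = fun t => ‖x - (y1 - (c * t) • e)‖ := by
    funext t
    exact Real.sqrt_sq (norm_nonneg _)
  rw [e1, Real.sqrt_sq (norm_nonneg _)] at h3
  refine h3.congr_deriv ?_
  field_simp

/-- The operator on the profile `C (|x - y| - ρ/4)^m`. -/
theorem zp_op {n : ℕ} (hp : 2 < p) {C ρ : ℝ} (hC : 0 < C) (hρ : 0 < ρ) {x y : E n}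
    (hs : 0 < ‖x - y‖ - ρ / 4) :
    ∃ X : Bil n,
      T2 (fun x' => C * (max (‖x' - y‖ - ρ / 4) 0) ^ mm p) x
        ((C * mm p * (‖x - y‖ - ρ / 4) ^ (mm p - 1) / ‖x - y‖) • (x - y)) X ∧
      pA p ((C * mm p * (‖x - y‖ - ρ / 4) ^ (mm p - 1) / ‖x - y‖) • (x - y)) X
        ≤ (C * mm p) ^ (p - 1) * (n + p + mm p) * (‖x - y‖ - ρ / 4) ^ mm p := by
  have hp2 : 0 < p - 2 := by linarith
  have hm0 : 0 < mm p := by unfold mm; exact div_pos (by linarith) hp2
  have hm1 : 1 < mm p := by unfold mm; rw [lt_div_iff₀ hp2]; linarith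
  have hn0 : (0 : ℝ) ≤ n := Nat.cast_nonneg n
  have hR : 0 < ‖x - y‖ := by linarith
  have hxy : x ≠ y := by
    intro h
    rw [h, sub_self, norm_zero] at hR
    exact lt_irrefl _ hR
  set R := ‖x - y‖ with hRdef
  have hf : ContDiffAt ℝ 2 (fun t : ℝ => t - ρ / 4) ‖x - y‖ := by fun_prop
  have h1 := t2_rad hxy hf
  have d1 : ∀ t : ℝ, deriv (fun t : ℝ => t - ρ / 4) t = 1 := by
    intro t
    simp
  have d2 : deriv (deriv (fun t : ℝ => t - ρ / 4)) ‖x - y‖ = 0 := by
    have : deriv (fun t : ℝ => t - ρ / 4) = fun _ => (1 : ℝ) := funext d1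
    rw [this]
    simp
  rw [d2, d1, ← hRdef] at h1
  have h2 := t2_pospow (C := C) (β := mm p) h1 hs
  set s := R - ρ / 4 with hsdef
  set F1 := C * mm p * s ^ (mm p - 1) with hF1
  set F2 := C * mm p * (mm p - 1) * s ^ (mm p - 2) with hF2
  have hF1pos : 0 < F1 := by positivity
  have e1 : F1 • ((1 / R) • (x - y)) = (F1 / R) • (x - y) := by
    rw [smul_smul]
    congr 1
    ring
  set P : E n := (1 / R) • (x - y) with hP
  set X : Bil n := (1 / R) • ip + (0 / R ^ 2 - 1 / R ^ 3) • rk (x - y) with hX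
  refine ⟨F1 • X + F2 • rk P, ?_, ?_⟩
  · rw [← e1]
    exact h2
  · rw [← e1, pA_chain hp hF1pos]
    have hP1 : ‖P‖ = 1 := by
      rw [hP, norm_smul, Real.norm_eq_abs, abs_of_pos (by positivity), ← hRdef]
      field_simp
    have hq : pA p P X ≤ (n + p - 2) * ‖P‖ ^ (p - 2) * (1 / R) := by
      refine pA_le_of_quad hp fun v => ?_
      have : X v v = (1 / R) * ‖v‖ ^ 2 - 1 / R ^ 3 * ⟪x - y, v⟫ ^ 2 := by
        rw [hX]
        simp only [add_apply, smul_apply, smul_eq_mul, rk_apply, ip_apply,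
          real_inner_self_eq_norm_sq]
        ring
      rw [this]
      have : 0 ≤ 1 / R ^ 3 * ⟪x - y, v⟫ ^ 2 := by positivity
      linarith
    rw [hP1, Real.one_rpow, mul_one] at hq
    rw [hP1, Real.one_rpow, mul_one]
    have hF2' : F2 = F1 * ((mm p - 1) / s) := by
      have : s ^ (mm p - 1) = s ^ (mm p - 2) * s := by
        rw [← Real.rpow_add_one hs.ne']
        ring_nf
      rw [hF1, hF2, this]
      field_simp
    have hpw : F1 ^ (p - 2) * F1 = (C * mm p) ^ (p - 1) * (s ^ mm p * s) := by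
      have h3 : F1 ^ (p - 2) * F1 = F1 ^ (p - 1) := by
        rw [← Real.rpow_add_one hF1pos.ne']
        ring_nf
      rw [h3, hF1, Real.mul_rpow (by positivity) (by positivity), ← Real.rpow_mul hs.le,
        ← Real.rpow_add_one hs.ne']
      congr 2
      unfold mm
      field_simp
      ring
    have hsR : s / R ≤ 1 := by
      rw [div_le_one hR, hsdef]
      linarith
    have hmp : (p - 1) * (mm p - 1) = mm p + 1 := by
      unfold mm
      field_simp
      ring
    calc F1 ^ (p - 2) * (F1 * pA p P X + (p - 1) * F2)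
        ≤ F1 ^ (p - 2) * (F1 * ((n + p - 2) * (1 / R)) + (p - 1) * F2) := by
          refine mul_le_mul_of_nonneg_left ?_ (by positivity)
          have := mul_le_mul_of_nonneg_left hq hF1pos.le
          linarith
      _ = (F1 ^ (p - 2) * F1) * ((n + p - 2) * (1 / R) + (p - 1) * ((mm p - 1) / s)) := by
          rw [hF2']
          ring
      _ = (C * mm p) ^ (p - 1) * s ^ mm p * ((n + p - 2) * (s / R) + (p - 1) * (mm p - 1)) := by
          rw [hpw]
          field_simp
      _ ≤ (C * mm p) ^ (p - 1) * s ^ mm p * ((n + p - 2) * 1 + (mm p + 1)) := by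
          refine mul_le_mul_of_nonneg_left ?_ (by positivity)
          rw [hmp]
          have := mul_le_mul_of_nonneg_left hsR (show 0 ≤ n + p - 2 by linarith)
          linarith
      _ ≤ (C * mm p) ^ (p - 1) * (n + p + mm p) * s ^ mm p := by
          have h4 : (n + p - 2) * 1 + (mm p + 1) ≤ n + p + mm p := by linarith
          have h5 := mul_le_mul_of_nonneg_left h4
            (show 0 ≤ (C * mm p) ^ (p - 1) * s ^ mm p by positivity)
          linarith

theorem zp (hp : 2 < p) (n : ℕ) :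
    ∃ c5 : ℝ, 0 < c5 ∧ ∀ (c : ℝ) (e : E n) (κ' : ℝ), 0 ≤ κ' → κ' ≤ ka p → ∀ u : E n → ℝ,
      Sub p (c • e) κ' u → ∀ (y1 : E n) (ρ T A2 : ℝ), 0 < ρ → 0 < T → T ≤ 1 →
      A2 ≤ c5 * ρ ^ mm p * T ^ (-ka p) → (∀ x, ‖x - y1‖ ≤ ρ → u x = 0) →
      (∀ τ, 0 ≤ τ → τ ≤ T → ∀ x, ‖x - (y1 - (c * τ) • e)‖ ≤ ρ → u x ≤ A2) →
      ∀ x, ‖x - (y1 - (c * T) • e)‖ ≤ ρ / 4 → u x = 0 := by
  have hp2 : 0 < p - 2 := by linarith
  have hm0 : 0 < mm p := by unfold mm; exact div_pos (by linarith) hp2
  have hm1 : 1 < mm p := by unfold mm; rw [lt_div_iff₀ hp2]; linarith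
  have ha0 : 0 < ka p := by unfold ka; positivity
  have hn0 : (0 : ℝ) ≤ n := Nat.cast_nonneg n
  set m := mm p with hmdef
  set a := ka p with hadef
  have hap : a * (p - 2) = 1 := by rw [hadef]; unfold ka; field_simp
  set Γ : ℝ := n + p + m with hΓ
  have hΓ0 : 0 < Γ := by rw [hΓ]; linarith
  -- the constant A
  obtain ⟨A, hA, hAp⟩ : ∃ A : ℝ, 0 < A ∧ 3 * (A ^ (p - 2) * m ^ (p - 1) * Γ) ≤ a := by
    refine ⟨(a / (3 * (m ^ (p - 1) * Γ))) ^ (1 / (p - 2)), by positivity, ?_⟩
    rw [← Real.rpow_mul (by positivity), one_div_mul_cancel hp2.ne', Real.rpow_one]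
    have : 0 < m ^ (p - 1) := by positivity
    refine le_of_eq ?_
    field_simp
  refine ⟨A * 2 ^ (-a) * (3 / 4) ^ m, by positivity, ?_⟩
  intro c e κ' hκ0 hκ1 u hu y1 ρ T A2 hρ hT hT1 hA2 hu0 huA x hx
  set K : Set (E n × ℝ) := {z | (0 ≤ z.2 ∧ z.2 ≤ T) ∧ ‖z.1 - (y1 - (c * z.2) • e)‖ ≤ ρ} with hK
  have hKcl : IsClosed K := by
    have c1 : Continuous fun z : E n × ℝ => ‖z.1 - (y1 - (c * z.2) • e)‖ := by fun_prop
    exact ((isClosed_le continuous_const continuous_snd).inter
      (isClosed_le continuous_snd continuous_const)).inter (isClosed_le c1 continuous_const)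
  have hKc : IsCompact K := by
    refine ((isCompact_closedBall y1 (ρ + |c| * T * ‖e‖)).prod
      (isCompact_Icc (a := (0 : ℝ)) (b := T))).of_isClosed_subset hKcl ?_
    rintro ⟨x, t⟩ ⟨⟨h1, h2⟩, h3⟩
    refine ⟨?_, h1, h2⟩
    simp only at h1 h2 h3 ⊢
    rw [mem_closedBall, dist_eq_norm]
    have e1 : x - y1 = (x - (y1 - (c * t) • e)) - (c * t) • e := by abel
    rw [e1]
    refine (norm_sub_le _ _).trans (add_le_add h3 ?_)
    rw [norm_smul, Real.norm_eq_abs, abs_mul, abs_of_nonneg h1]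
    gcongr
  have hexp1 : ∀ τ, 0 ≤ τ → 1 ≤ Real.exp (κ' * τ) := fun τ h => Real.one_le_exp (mul_nonneg hκ0 h)
  have hgpos : ∀ τ, τ ≤ T → 0 < zpg a κ' T τ := by
    intro τ h
    unfold zpg
    have : 0 < 2 * T - τ := by linarith
    positivity
  have hBc : ContinuousOn (fun z : E n × ℝ => zpB A m a κ' T ρ c e y1 z.1 z.2) K := by
    unfold zpB zpg
    have c1 : ContinuousOn (fun z : E n × ℝ => (2 * T - z.2) ^ (-a)) K := by
      refine ContinuousOn.rpow_const (by fun_prop) ?_
      rintro ⟨x, t⟩ ⟨⟨h1, h2⟩, h3⟩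
      left
      simp only at h2 ⊢
      linarith
    have c2 : ContinuousOn (fun z : E n × ℝ => (max (‖z.1 - (y1 - (c * z.2) • e)‖ - ρ / 4) 0) ^ m)
        K := by
      refine ContinuousOn.rpow_const (by fun_prop) ?_
      intro z _
      exact Or.inr hm0.le
    have c3 : ContinuousOn (fun z : E n × ℝ => Real.exp (κ' * z.2)) K := by fun_prop
    exact (continuousOn_const.mul (c1.mul c3)).mul c2
  have hBnn : ∀ x τ, τ ≤ T → 0 ≤ zpB A m a κ' T ρ c e y1 x τ := by
    intro x τ h
    unfold zpB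
    have := hgpos τ h
    positivity
  have hcmp := cs hκ0 hu.usc hu.sb hKc hBc.lowerSemicontinuousOn
    (B := zpB A m a κ' T ρ c e y1) ?_
  · have h1 := hcmp x T ⟨⟨hT.le, le_refl T⟩, hx.trans (by linarith)⟩
    unfold zpB at h1
    rw [max_eq_right (by linarith), Real.zero_rpow hm0.ne', mul_zero] at h1
    exact le_antisymm h1 (hu.nn x)
  · rintro x τ ⟨⟨hτ0, hτT⟩, hxρ⟩ hviol
    simp only at hτ0 hτT hxρ
    have hτpos : 0 < τ := by
      rcases hτ0.lt_or_eq with h | h
      · exact h
      · rw [← h, mul_zero, zero_smul, sub_zero] at hxρ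
        rw [hu0 x hxρ] at hviol
        exact absurd hviol (not_lt.2 (hBnn x τ hτT))
    have hxlt : ‖x - (y1 - (c * τ) • e)‖ < ρ := by
      rcases hxρ.lt_or_eq with h | h
      · exact h
      · exfalso
        have h1 := huA τ hτ0 hτT x hxρ
        have h2 : A * 2 ^ (-a) * (3 / 4) ^ m * ρ ^ m * T ^ (-a)
            ≤ zpB A m a κ' T ρ c e y1 x τ := by
          unfold zpB zpg
          rw [h, max_eq_left (by linarith)]
          have e1 : ρ - ρ / 4 = 3 / 4 * ρ := by ring
          rw [e1, Real.mul_rpow (by norm_num) hρ.le]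
          have h3 : (2 * T) ^ (-a) ≤ (2 * T - τ) ^ (-a) :=
            Real.rpow_le_rpow_of_nonpos (by linarith) (by linarith) (by linarith)
          rw [Real.mul_rpow (by norm_num) hT.le] at h3
          have h4 : (2 : ℝ) ^ (-a) * T ^ (-a) * 1 ≤ (2 * T - τ) ^ (-a) * Real.exp (κ' * τ) :=
            mul_le_mul h3 (hexp1 τ hτ0) (by norm_num) (by
              have : 0 < 2 * T - τ := by linarith
              positivity)
          have h5 := mul_le_mul_of_nonneg_left h4
            (show 0 ≤ A * ((3 / 4 : ℝ) ^ m * ρ ^ m) by positivity)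
          linarith
        have := h1.trans (hA2.trans h2)
        exact absurd hviol (not_lt.2 this)
    have h2T : 0 < 2 * T - τ := by linarith
    refine ⟨?_, ?_⟩
    · have c1 : Continuous fun s : ℝ => ‖x - (y1 - (c * (τ - s)) • e)‖ := by fun_prop
      have c2 := c1.tendsto 0
      rw [sub_zero] at c2
      obtain ⟨r, hr, h⟩ := Metric.eventually_nhds_iff.1 (c2.eventually (gt_mem_nhds hxlt))
      refine ⟨min r τ, lt_min hr hτpos, fun s hs0 hs => ⟨⟨?_, ?_⟩, ?_⟩⟩
      · have := hs.trans_le (min_le_right _ _)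
        simp only
        linarith
      · simp only
        linarith
      · have h3 : dist s 0 < r := by
          rw [Real.dist_eq, sub_zero, abs_of_nonneg hs0]
          exact hs.trans_le (min_le_left _ _)
        exact (h h3).le
    · by_cases hs : 0 < ‖x - (y1 - (c * τ) • e)‖ - ρ / 4
      · right
        refine ⟨mem_univ x, ⟨ρ - ‖x - (y1 - (c * τ) • e)‖, by linarith, fun y hy =>
          ⟨⟨hτ0, hτT⟩, ?_⟩⟩, ?_⟩
        · simp only
          have e1 : y - (y1 - (c * τ) • e) = (y - x) + (x - (y1 - (c * τ) • e)) := by abel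
          rw [e1]
          refine (norm_add_le _ _).trans ?_
          linarith
        · have hC : 0 < A * zpg a κ' T τ := mul_pos hA (hgpos τ hτT)
          obtain ⟨X, hX1, hX2⟩ := zp_op hp hC hρ hs
          have hR : 0 < ‖x - (y1 - (c * τ) • e)‖ := by linarith
          set s := ‖x - (y1 - (c * τ) • e)‖ - ρ / 4 with hsdef
          set g := zpg a κ' T τ with hgdef
          set z := x - (y1 - (c * τ) • e) with hzdef
          set gp := a * (2 * T - τ) ^ (-a - 1) * Real.exp (κ' * τ) + κ' * g with hgp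
          refine ⟨A * gp * s ^ m + A * g * (m * s ^ (m - 1) * (⟪z, c • e⟫ / ‖z‖)), _, X, ?_,
            hX1.1, ?_⟩
          · refine dtU_of_hasDerivAt ?_
            have hz : z ≠ 0 := norm_pos_iff.1 hR
            have d1 := zpg_deriv (a := a) (κ' := κ') h2T
            have d2 := zp_norm_deriv hz
            have d3 := pospow_hasDeriv (C := 1) (β := m) hs
            have d4 := HasDerivAt.comp τ (h₂ := fun t : ℝ => 1 * (max t 0) ^ m)
              (h := fun t : ℝ => ‖x - (y1 - (c * t) • e)‖ - ρ / 4) d3 (d2.sub_const (ρ / 4))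
            have d5 := (d1.const_mul A).fun_mul d4
            refine (d5.congr_deriv ?_).congr_of_eventuallyEq ?_
            · simp only [Function.comp, one_mul]
              rw [← hsdef, max_eq_left hs.le]
            · refine Filter.Eventually.of_forall fun t => ?_
              simp only [zpB, Function.comp, one_mul]
          · have hin : ⟪c • e, (A * g * m * s ^ (m - 1) / ‖z‖) • z⟫
                = A * g * (m * s ^ (m - 1) * (⟪z, c • e⟫ / ‖z‖)) := by
              rw [inner_smul_right, real_inner_comm z (c • e)]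
              ring
            rw [hin]
            have hBx : zpB A m a κ' T ρ c e y1 x τ = A * g * s ^ m := by
              unfold zpB
              rw [← hzdef, ← hsdef, max_eq_left hs.le]
            rw [hBx]
            have hmain : (A * g * m) ^ (p - 1) * Γ ≤ A * (a * (2 * T - τ) ^ (-a - 1)
                * Real.exp (κ' * τ)) := by
              have hE : 0 < Real.exp (κ' * τ) := Real.exp_pos _
              have e1 : (A * g * m) ^ (p - 1) = A * A ^ (p - 2) * m ^ (p - 1)
                  * ((2 * T - τ) ^ (-a - 1) * (Real.exp (κ' * τ) * Real.exp (κ' * (p - 2) * τ))) := by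
                have hg : zpg a κ' T τ = (2 * T - τ) ^ (-a) * Real.exp (κ' * τ) := rfl
                rw [Real.mul_rpow (by positivity) hm0.le, Real.mul_rpow hA.le (hgpos τ hτT).le, hg,
                  Real.mul_rpow (by positivity) hE.le, ← Real.rpow_mul h2T.le, ← Real.exp_mul,
                  ← Real.exp_add]
                have e2 : -a * (p - 1) = -a - 1 := by linarith
                have e3 : κ' * τ * (p - 1) = κ' * τ + κ' * (p - 2) * τ := by ring
                have e4 : A ^ (p - 1) = A * A ^ (p - 2) := by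
                  rw [mul_comm, ← Real.rpow_add_one hA.ne']
                  ring_nf
                rw [e2, e3, e4]
                ring
              have h3 : Real.exp (κ' * (p - 2) * τ) ≤ 3 := by
                have h4 : κ' * (p - 2) * τ ≤ 1 := by
                  have h5 : κ' * (p - 2) ≤ 1 := by
                    rw [← hap]
                    exact mul_le_mul_of_nonneg_right hκ1 hp2.le
                  have h6 : 0 ≤ κ' * (p - 2) := by positivity
                  calc κ' * (p - 2) * τ ≤ 1 * 1 := mul_le_mul h5 (hτT.trans hT1) hτ0 (by norm_num)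
                    _ = 1 := by norm_num
                refine (Real.exp_le_exp.2 h4).trans ?_
                have := Real.exp_one_lt_d9
                linarith
              rw [e1]
              have h4 : A ^ (p - 2) * m ^ (p - 1) * Γ * Real.exp (κ' * (p - 2) * τ) ≤ a := by
                refine le_trans ?_ hAp
                have := mul_le_mul_of_nonneg_left h3
                  (show 0 ≤ A ^ (p - 2) * m ^ (p - 1) * Γ by positivity)
                linarith
              have h5 := mul_le_mul_of_nonneg_left h4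
                (show 0 ≤ A * ((2 * T - τ) ^ (-a - 1) * Real.exp (κ' * τ)) by positivity)
              linarith
            have hX3 : pA p ((A * g * m * s ^ (m - 1) / ‖z‖) • z) X
                ≤ (A * g * m) ^ (p - 1) * Γ * s ^ m := hX2
            have h4 := mul_le_mul_of_nonneg_right hmain (show 0 ≤ s ^ m by positivity)
            have h5 : A * gp * s ^ m = A * (a * (2 * T - τ) ^ (-a - 1) * Real.exp (κ' * τ)) * s ^ m
                + κ' * (A * g * s ^ m) := by
              rw [hgp]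
              ring
            linarith
      · left
        push Not at hs
        refine ⟨0, le_refl 0, ?_⟩
        refine dtU_zero hm1 one_pos
          (L := A * (T ^ (-a) * Real.exp (κ' * τ)) * (|c| * ‖e‖) ^ m) ?_ ?_
        · unfold zpB
          rw [max_eq_right hs, Real.zero_rpow hm0.ne', mul_zero]
        · intro h hh0 hh1
          unfold zpB
          have h1 : ‖x - (y1 - (c * (τ - h)) • e)‖ - ρ / 4 ≤ |c| * ‖e‖ * h := by
            have e1 : x - (y1 - (c * (τ - h)) • e) = (x - (y1 - (c * τ) • e)) - (c * h) • e := by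
              module
            rw [e1]
            have h2 := norm_sub_le (x - (y1 - (c * τ) • e)) ((c * h) • e)
            rw [norm_smul, Real.norm_eq_abs, abs_mul, abs_of_pos hh0] at h2
            nlinarith
          have h2 : (max (‖x - (y1 - (c * (τ - h)) • e)‖ - ρ / 4) 0) ^ m
              ≤ (|c| * ‖e‖) ^ m * h ^ m := by
            rw [← Real.mul_rpow (by positivity) hh0.le]
            exact Real.rpow_le_rpow (le_max_right _ _) (max_le h1 (by positivity)) hm0.le
          have h3 : zpg a κ' T (τ - h) ≤ T ^ (-a) * Real.exp (κ' * τ) := by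
            unfold zpg
            refine mul_le_mul ?_ ?_ (Real.exp_pos _).le (by positivity)
            · exact Real.rpow_le_rpow_of_nonpos hT (by linarith) (by linarith)
            · refine Real.exp_le_exp.2 ?_
              exact mul_le_mul_of_nonneg_left (by linarith) hκ0
          have h4 : 0 < zpg a κ' T (τ - h) := hgpos _ (by linarith)
          calc A * zpg a κ' T (τ - h) * (max (‖x - (y1 - (c * (τ - h)) • e)‖ - ρ / 4) 0) ^ m
              ≤ A * (T ^ (-a) * Real.exp (κ' * τ)) * ((|c| * ‖e‖) ^ m * h ^ m) := by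
                refine mul_le_mul (mul_le_mul_of_nonneg_left h3 hA.le) h2 (by positivity)
                  (by positivity)
            _ = A * (T ^ (-a) * Real.exp (κ' * τ)) * (|c| * ‖e‖) ^ m * h ^ m := by ring

end Pool.Agent.TWC
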