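import Pool.Agent.TWC.TBU
import Pool.Agent.TWC.TZA
import Pool.Agent.TWC.TCC
import Pool.Agent.TWC.ZP

/-!
# TWC TZB: the tangent cone is the half space

`T = TT (Po φ) P0`, `cn h : Cn e ν T`. Suppose `T ≠ Hs ν`. `fr0`: `x0, e0, ρ`. `gro`, `bu_exists`, `bu`: `F, U`, locally
uniform limit along `F` of `u_k = bl p φ P0 (rr k)`. `tza`: `U = 0` on `ball x0 r2`.
Let `a = <e,e0> ∈ (0,1]`, `t = min c (r2/4)`, `T' = t/c ∈ (0,1]`, `ρ' = t a/2 ≤ t/2`, `y1 = x0 + t e`. `zp hp n` with `c`, `e`,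
`κ' = ka p * rr k` (`≤ ka p`), `u = u_k` (`bl_sub`), `y1`, `ρ'`, `T'`, `A2 = c5 ρ'^m T'^(-ka p) > 0`:
* `u_k = 0` on `closedBall y1 ρ'`: `<x,e0> ≥ <y1,e0> - ρ' = t a - t a/2 > 0`, so `x ∉ T` (`hf.sub`), and `Po u_k ⊆ T`
  (`bl_po_sub`), `u_k ≥ 0`.
* for `0 ≤ τ ≤ T'` and `|x - (y1 - cτ e)| ≤ ρ'`: `|x - x0| ≤ ρ' + t < r2`, `U x = 0`, so `u_k x ≤ A2` for `F`-many `k`
  (uniformly: `hlim` with radius `|x0| + r2`, `ε = A2`).
Conclusion: `u_k = 0` on `closedBall (y1 - c T' e) (ρ'/4) = closedBall x0 (ρ'/4)` for `F`-many `k`. But `x0 ∈ closure T`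
(limit of `x0 - s e0`, `s → 0+`, in `ball (x0 - ρ e0) ρ ⊆ T`), so there is `t' ∈ T` with `|t' - x0| ≤ ρ'/4`, and by
`tt_down` `P0 + rr k t' ∈ Po φ` for all large `k` (`rr k → 0`), i.e. `u_k t' > 0` (`bl_po`). As `F ≤ atTop`, `F` is
nontrivial: contradiction.
-/

open Set Metric Filter Topology
open scoped RealInnerProductSpace

noncomputable section

namespace Pool.Agent.TWC

variable {n : ℕ} {p c : ℝ} {e : E n} {r0 : ℝ} {Ω : Set (E n)} {φ : E n → ℝ} {P0 ν : E n}

theorem tan_cone (h : Ctx p c e r0 Ω φ P0 ν) : TT (Po φ) P0 = Hs ν := by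
  by_contra hne
  have hp := h.hp
  have hc := h.hc
  have hp2 : 0 < p - 2 := by linarith
  have hm0 : 0 < mm p := by unfold mm; exact div_pos (by linarith) hp2
  have ha0 : 0 < ka p := by unfold ka; positivity
  have hcn := cn h
  obtain ⟨x0, e0, ρ, hf⟩ := fr0 hcn hne
  obtain ⟨C, r1, hC, hr1, hg⟩ := gro h hf
  obtain ⟨F, U, hFn, hF, hUc, hlim⟩ := bu_exists h hC hr1 hg
  have hU := bu h hF hUc hlim
  obtain ⟨r2, hr2, hU0⟩ := tza hp hc hcn hf hU
  obtain ⟨c5, hc5, hzp⟩ := zp hp n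
  set a : ℝ := ⟪e, e0⟫ with hadef
  have ha : 0 < a := hf.epos
  have ha1 : a ≤ 1 := by
    have := real_inner_le_norm e e0
    rw [hcn.he, hf.unit, one_mul] at this
    exact this
  obtain ⟨t, ht, htc, htr⟩ : ∃ t : ℝ, 0 < t ∧ t ≤ c ∧ t ≤ r2 / 4 :=
    ⟨min c (r2 / 4), lt_min hc (by linarith), min_le_left _ _, min_le_right _ _⟩
  have hT0 : 0 < t / c := by positivity
  have hT1 : t / c ≤ 1 := by rw [div_le_one hc]; exact htc
  have hcT : c * (t / c) = t := by field_simp
  set ρ' : ℝ := t * a / 2 with hρ'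
  have hρ'0 : 0 < ρ' := by positivity
  have hρ't : ρ' ≤ t / 2 := by
    rw [hρ']
    nlinarith
  set A2 : ℝ := c5 * ρ' ^ mm p * (t / c) ^ (-ka p) with hA2
  have hA20 : 0 < A2 := by positivity
  -- x0 is in the closure of the cone
  have hx0cl : x0 ∈ closure (TT (Po φ) P0) := by
    rw [Metric.mem_closure_iff]
    intro ε hε
    refine ⟨x0 - (min (ε / 2) ρ) • e0, ?_, ?_⟩
    · apply hf.inball
      rw [mem_ball, dist_eq_norm]
      have e1 : x0 - (min (ε / 2) ρ) • e0 - (x0 - ρ • e0) = (ρ - min (ε / 2) ρ) • e0 := by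
        rw [sub_smul]
        abel
      rw [e1, norm_smul, hf.unit, mul_one, Real.norm_eq_abs, abs_of_nonneg]
      · have : 0 < min (ε / 2) ρ := lt_min (by linarith) hf.rho
        linarith
      · have := min_le_right (ε / 2) ρ
        linarith
    · rw [dist_eq_norm]
      have e1 : x0 - (x0 - (min (ε / 2) ρ) • e0) = (min (ε / 2) ρ) • e0 := by abel
      have h0 : 0 < min (ε / 2) ρ := lt_min (by linarith) hf.rho
      rw [e1, norm_smul, hf.unit, mul_one, Real.norm_eq_abs, abs_of_pos h0]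
      have := min_le_left (ε / 2) ρ
      linarith
  obtain ⟨t', ht'T, ht'd⟩ := Metric.mem_closure_iff.1 hx0cl (ρ' / 4) (by linarith)
  obtain ⟨s, hs, hsS⟩ := ht'T
  -- eventually positivity at t'
  have hev1 : ∀ᶠ k in F, P0 + rr k • t' ∈ Po φ := by
    have h1 : ∀ᶠ k in atTop, rr k < s := rr_tendsto.eventually (gt_mem_nhds hs)
    refine (h1.mono fun k hk => ?_).filter_mono hF
    exact tt_down h.tw.qs.isOpen h.tw.qs.convex h.cl (rr_pos k) hk.le hsS
  have hev2 := hlim (‖x0‖ + r2) A2 hA20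
  haveI := hFn
  obtain ⟨k, hk1, hk2⟩ := (hev1.and hev2).exists
  have hrk := rr_pos k
  have hκ0 : 0 ≤ ka p * rr k := by positivity
  have hκ1 : ka p * rr k ≤ ka p := by
    have := mul_le_mul_of_nonneg_left (rr_le_one k) ha0.le
    linarith
  have hsub : Sub p (c • e) (ka p * rr k) (bl p φ P0 (rr k)) := bl_sub hp h.tw.sub hrk
  have hzero := hzp c e (ka p * rr k) hκ0 hκ1 (bl p φ P0 (rr k)) hsub (x0 + t • e) ρ' (t / c) A2
    hρ'0 hT0 hT1 (le_refl _) (by
      intro x hx
      have h1 : 0 < ⟪x, e0⟫ := by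
        have e1 : x = (x - (x0 + t • e)) + (x0 + t • e) := by abel
        have h2 : ⟪x, e0⟫ = ⟪x - (x0 + t • e), e0⟫ + t * a := by
          conv_lhs => rw [e1]
          rw [inner_add_left, inner_add_left x0, hf.orth, real_inner_smul_left]
          ring
        have h3 := abs_real_inner_le_norm (x - (x0 + t • e)) e0
        rw [hf.unit, mul_one] at h3
        have h4 := (abs_le.1 h3).1
        have h5 : 0 < t * a := by positivity
        rw [h2]
        have h6 : ρ' = t * a / 2 := hρ'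
        linarith
      have h2 : x ∉ TT (Po φ) P0 := fun hx' => by
        have := hf.sub x hx'
        linarith
      have h3 : x ∉ Po (bl p φ P0 (rr k)) := fun hx' => h2 (bl_po_sub hrk hx')
      have h4 : ¬ 0 < bl p φ P0 (rr k) x := h3
      exact le_antisymm (not_lt.1 h4) (hsub.nn x)) (by
      intro τ hτ0 hτT x hx
      have hcτ : c * τ ≤ t := by
        have := mul_le_mul_of_nonneg_left hτT hc.le
        rwa [hcT] at this
      have hcτ0 : 0 ≤ c * τ := by positivity
      have hd : ‖x - x0‖ ≤ ρ' + t := by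
        have e1 : x - x0 = (x - (x0 + t • e - (c * τ) • e)) + (t - c * τ) • e := by
          rw [sub_smul]
          abel
        rw [e1]
        refine (norm_add_le _ _).trans ?_
        rw [norm_smul, hcn.he, mul_one, Real.norm_eq_abs, abs_of_nonneg (by linarith)]
        linarith
      have hx2 : ‖x - x0‖ < r2 := by linarith
      have hUx : U x = 0 := hU0 x (by rw [mem_ball, dist_eq_norm]; exact hx2)
      have hxn : ‖x‖ ≤ ‖x0‖ + r2 := by
        have : x = (x - x0) + x0 := by abel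
        rw [this]
        refine (norm_add_le _ _).trans ?_
        linarith
      have h1 := hk2 x hxn
      rw [hUx, sub_zero] at h1
      exact (le_abs_self _).trans h1)
  have e2 : x0 + t • e - (c * (t / c)) • e = x0 := by
    rw [hcT]
    abel
  rw [e2] at hzero
  have h1 := hzero t' (by
    rw [dist_comm, dist_eq_norm] at ht'd
    exact ht'd.le)
  have h2 : t' ∈ Po (bl p φ P0 (rr k)) := (bl_po hrk t').2 hk1
  have h3 : 0 < bl p φ P0 (rr k) t' := h2
  rw [h1] at h3
  exact lt_irrefl _ h3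

end Pool.Agent.TWC
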