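import Pool.Agent.TWC.WVB
import Pool.Agent.TWC.PAL
import Pool.Agent.TWC.JTA

/-!
# TWC WVC: continuous weak solutions are viscosity solutions

`wv_sp`. Let `x0 ∈ Ω`, `LJ φ x0 P X`, `a = κ = ka p`, `b = c e`, and suppose
`g0 := pA P X + <b,P> + κ φ x0 > 0`. We may assume `X` symmetric (replace by the symmetric part: same quadratic
form, same `pA`). For small `ε > 0`, `ϕ y = φ x0 + <P,y-x0> + 1/2 X (y-x0)(y-x0) - 2ε|y-x0|^2` (a polynomial);
there are `r > 0`, `γ > 0` with `ball x0 (2r) ⊆ Ω` and on `closedBall x0 r`: `φ y ≥ ϕ y + ε|y-x0|^2` and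
`pA p ∇ϕ D²ϕ + <b,∇ϕ> + κ ϕ ≥ g0/2`, hence `pA + <b,∇ϕ> + κ (ϕ + s) ≥ g0/4` for `|s| ≤ γ` (also `γ ≤ ε r²/8`).
Let `ρ(τ) = -γ/2 + (g0/8) τ`, `0 ≤ τ ≤ τ1`, with `τ1` such that `ρ(τ1) = γ/2`. Put, for `t = e^τ ∈ (1, e^{τ1})`,
`Φ(x,t) = t^(-a) (ϕ(y) + ρ(log t))`, `y = x - (c log t) e`,
`D = {(x,t) : 0 < log t < τ1... , |y - x0| < r}`; take `D = {1 < t < T', |y-x0| < r}`, `T' = e^{τ1}`.
Classical subsolution: `∂_t Φ = t^(-a-1) (-a (ϕ + ρ) - c <e,∇ϕ> + ρ')`, `div A(∇Φ) = t^(-a(p-1)) pA p ∇ϕ D²ϕ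
= t^(-a-1) pA` (`ac1_div`, `pA_scale` or homogeneity of `A`), so the claim is
`ρ' ≤ pA + <c e,∇ϕ> + a (ϕ + ρ)`, true since `ρ' = g0/8 ≤ g0/4`. Regularity: `A p ∘ (t^(-a) ∇ϕ(y))` is `C¹` by `ac1`.
`v = su p c e φ`, bounded on `D` (contained in a compact subset of `Th`). `{v < Φ} ∩ D`: means
`φ y < ϕ y + ρ(log t)`; as `φ y ≥ ϕ y + ε|y-x0|²` we need `ρ > 0` and `ε|y-x0|² < ρ ≤ γ/2 ≤ ε r²/16`: so
`|y - x0| ≤ r/2`, and `ρ(log t) ≥ 0` means `log t ≥ 4γ/g0`: together with `t < b - τ`, `b = T'`, this is contained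
in a compact subset of `D`. `wvb` (restrict `sg_wg`, `sg_eq`, `sg_mem` to `D ⊆ Th c e Ω`): `Φ ≤ v` on `D`. At
`y = x0` and `t → T'`: `ϕ x0 + γ/2 ≤ φ x0`, but `ϕ x0 = φ x0`: contradiction.

`wv_sb`: `-φ` is a weak solution with gradient `-G`; apply `wv_sp` and `uj_neg`-type duality
(`pA p (-P) (-X) = -pA p P X`).
-/

open Set Metric Filter Topology MeasureTheory
open scoped RealInnerProductSpace ContDiff

noncomputable section

namespace Pool.Agent.TWC

variable {n : ℕ} {p c : ℝ} {e : E n} {Ω : Set (E n)} {φ : E n → ℝ} {G : E n → E n}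

/-- the linear map from functionals to vectors -/
private def wvcT (n : ℕ) : (E n →L[ℝ] ℝ) →L[ℝ] E n :=
  LinearMap.toContinuousLinearMap
    { toFun := fun f : E n →L[ℝ] ℝ => (InnerProductSpace.toDual ℝ (E n)).symm f
      map_add' := fun a b => by simp
      map_smul' := fun c a => by simp }

private theorem wvcT_apply (f : E n →L[ℝ] ℝ) :
    wvcT n f = (InnerProductSpace.toDual ℝ (E n)).symm f := rfl

/-- quadratic polynomials -/
private def wvcQ (m : ℝ) (P x0 : E n) (B : Bil n) (y : E n) : ℝ :=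
  m + ⟪P, y - x0⟫ + 1 / 2 * B (y - x0) (y - x0)

/-- their gradients -/
private def wvcg (P x0 : E n) (B : Bil n) (y : E n) : E n := P + wvcT n (B (y - x0))

private theorem wvcQ_smooth (m : ℝ) (P x0 : E n) (B : Bil n) : ContDiff ℝ ∞ (wvcQ m P x0 B) := by
  have h0 : ContDiff ℝ ∞ (fun y : E n => y - x0) := contDiff_id.sub contDiff_const
  have h1 : ContDiff ℝ ∞ (fun y : E n => ⟪P, y - x0⟫) := contDiff_const.inner ℝ h0
  have h2 : ContDiff ℝ ∞ (fun y : E n => B (y - x0)) := B.contDiff.comp h0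
  have h3 : ContDiff ℝ ∞ (fun y : E n => B (y - x0) (y - x0)) := h2.clm_apply h0
  exact (contDiff_const.add h1).add (contDiff_const.mul h3)

private theorem wvcg_smooth (P x0 : E n) (B : Bil n) : ContDiff ℝ ∞ (wvcg P x0 B) := by
  have h0 : ContDiff ℝ ∞ (fun y : E n => y - x0) := contDiff_id.sub contDiff_const
  have h2 : ContDiff ℝ ∞ (fun y : E n => B (y - x0)) := B.contDiff.comp h0
  exact contDiff_const.add ((wvcT n).contDiff.comp h2)

private theorem wvcQ_fd (m : ℝ) (P x0 : E n) {B : Bil n} (hB : ∀ v w, B v w = B w v) (y : E n) :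
    HasFDerivAt (wvcQ m P x0 B) (innerSL ℝ P + B (y - x0)) y := by
  have h0 : HasFDerivAt (fun y : E n => y - x0) (ContinuousLinearMap.id ℝ (E n)) y :=
    (hasFDerivAt_id y).sub_const x0
  have h1 : HasFDerivAt (fun y : E n => ⟪P, y - x0⟫) (innerSL ℝ P) y :=
    HasFDerivAt.comp (g := fun y : E n => ⟪P, y⟫) (g' := innerSL ℝ P) y
      (innerSL ℝ P : E n →L[ℝ] ℝ).hasFDerivAt h0
  have h2 : HasFDerivAt (fun y : E n => B (y - x0)) B y :=
    HasFDerivAt.comp (g := fun y : E n => B y) (g' := B) y B.hasFDerivAt h0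
  have h3 := h2.clm_apply h0
  have h4 := (h1.const_add m).add (h3.const_mul (1 / 2))
  refine h4.congr_fderiv ?_
  ext v
  simp only [_root_.add_apply, _root_.smul_apply,
    ContinuousLinearMap.comp_apply, ContinuousLinearMap.flip_apply, smul_eq_mul,
    ContinuousLinearMap.id_apply, innerSL_apply_apply]
  rw [hB v (y - x0)]
  ring

private theorem wvcQ_fderiv (m : ℝ) (P x0 : E n) {B : Bil n} (hB : ∀ v w, B v w = B w v) :
    fderiv ℝ (wvcQ m P x0 B) = fun y => innerSL ℝ P + B (y - x0) := by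
  funext y
  exact (wvcQ_fd m P x0 hB y).fderiv

private theorem wvcQ_grad (m : ℝ) (P x0 : E n) {B : Bil n} (hB : ∀ v w, B v w = B w v) (y : E n) :
    gradient (wvcQ m P x0 B) y = wvcg P x0 B y := by
  unfold gradient wvcg
  rw [wvcQ_fderiv m P x0 hB, wvcT_apply, map_add]
  congr 1
  have : (innerSL ℝ P : E n →L[ℝ] ℝ) = InnerProductSpace.toDual ℝ (E n) P := by
    ext v
    simp
  rw [this, LinearIsometryEquiv.symm_apply_apply]

private theorem wvcQ_fd2 (m : ℝ) (P x0 : E n) {B : Bil n} (hB : ∀ v w, B v w = B w v) (y : E n) :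
    fderiv ℝ (fderiv ℝ (wvcQ m P x0 B)) y = B := by
  rw [wvcQ_fderiv m P x0 hB]
  have h0 : HasFDerivAt (fun y : E n => y - x0) (ContinuousLinearMap.id ℝ (E n)) y :=
    (hasFDerivAt_id y).sub_const x0
  have h2 : HasFDerivAt (fun y : E n => B (y - x0)) B y :=
    HasFDerivAt.comp (g := fun y : E n => B y) (g' := B) y B.hasFDerivAt h0
  exact (h2.const_add (innerSL ℝ P)).fderiv

variable {m γ k : ℝ} {P x0 : E n} {B : Bil n}

/-- the barrier -/
private def wvcF (p c : ℝ) (e : E n) (m : ℝ) (P x0 : E n) (B : Bil n) (γ k : ℝ) (z : PP.X n) : ℝ :=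
  z.2 ^ (-ka p) * (wvcQ m P x0 B (z.1 - (c * Real.log z.2) • e) + (-γ / 2 + k * Real.log z.2))

private theorem wvcF_slice (t : ℝ) :
    (fun x => wvcF p c e m P x0 B γ k (x, t)) =
      wvcQ (t ^ (-ka p) * (m + (-γ / 2 + k * Real.log t))) (t ^ (-ka p) • P)
        (x0 + (c * Real.log t) • e) (t ^ (-ka p) • B) := by
  funext x
  have h1 : x - (c * Real.log t) • e - x0 = x - (x0 + (c * Real.log t) • e) := by abel
  have h2 : ∀ v : E n, (t ^ (-ka p) • B) v v = t ^ (-ka p) * B v v := fun v => rfl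
  unfold wvcF wvcQ
  simp only [h1, h2, real_inner_smul_left]
  ring

private theorem wvcB_smul (hB : ∀ v w, B v w = B w v) (s : ℝ) (v w : E n) :
    (s • B) v w = (s • B) w v := by
  have h2 : ∀ v w : E n, (s • B) v w = s * B v w := fun v w => rfl
  rw [h2, h2, hB]

private theorem wvcg_inner (y v : E n) : ⟪wvcg P x0 B y, v⟫ = ⟪P, v⟫ + B (y - x0) v := by
  unfold wvcg
  rw [inner_add_left, wvcT_apply, InnerProductSpace.toDual_symm_apply]

private theorem wvcF_dx (hB : ∀ v w, B v w = B w v) (z : PP.X n) :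
    PP.dx (wvcF p c e m P x0 B γ k) z =
      z.2 ^ (-ka p) • wvcg P x0 B (z.1 - (c * Real.log z.2) • e) := by
  unfold PP.dx
  rw [wvcF_slice, wvcQ_grad _ _ _ (wvcB_smul hB _)]
  unfold wvcg
  rw [smul_add]
  congr 1
  rw [← map_smul]
  congr 1
  have h1 : z.1 - (x0 + (c * Real.log z.2) • e) = z.1 - (c * Real.log z.2) • e - x0 := by abel
  rw [h1]
  rfl

private theorem wvcF_dv (hp : 2 < p) (hB : ∀ v w, B v w = B w v) (z : PP.X n) (hz : 0 < z.2) :
    PP.dv (fun z => PP.A p (PP.dx (wvcF p c e m P x0 B γ k) z)) z =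
      z.2 ^ (-ka p - 1) * pA p (wvcg P x0 B (z.1 - (c * Real.log z.2) • e)) B := by
  have h1 := ac1_div (n := n) (p := p) (f := fun x => wvcF p c e m P x0 B γ k (x, z.2)) (x := z.1) hp
    (by
      rw [wvcF_slice]
      exact (contDiff_infty.1 (wvcQ_smooth _ _ _ _) 2).contDiffAt)
  have h2 : PP.dv (fun z => PP.A p (PP.dx (wvcF p c e m P x0 B γ k) z)) z =
      ∑ i, (fderiv ℝ (fun y => PP.A p (gradient (fun x => wvcF p c e m P x0 B γ k (x, z.2)) y)) z.1
        (EuclideanSpace.single i 1)) i := rfl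
  rw [h2, h1]
  have h3 : gradient (fun x => wvcF p c e m P x0 B γ k (x, z.2)) z.1 =
      z.2 ^ (-ka p) • wvcg P x0 B (z.1 - (c * Real.log z.2) • e) := wvcF_dx hB z
  have h4 : fderiv ℝ (fderiv ℝ (fun x => wvcF p c e m P x0 B γ k (x, z.2))) z.1 =
      z.2 ^ (-ka p) • B := by
    rw [wvcF_slice, wvcQ_fd2 _ _ _ (wvcB_smul hB _)]
  rw [h3, h4, pA_form_smul, pA_scale hp (Real.rpow_pos_of_pos hz _), ← Real.rpow_mul hz.le,
    ← mul_assoc, ← Real.rpow_add hz]
  congr 2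
  have : p - 2 ≠ 0 := by linarith
  unfold ka
  field_simp
  ring

private theorem wvcF_dt (hB : ∀ v w, B v w = B w v) (z : PP.X n) (hz : 0 < z.2) :
    PP.dt (wvcF p c e m P x0 B γ k) z =
      z.2 ^ (-ka p - 1) * (-ka p * (wvcQ m P x0 B (z.1 - (c * Real.log z.2) • e) +
        (-γ / 2 + k * Real.log z.2)) - c * ⟪wvcg P x0 B (z.1 - (c * Real.log z.2) • e), e⟫ + k) := by
  have h1 : HasDerivAt (fun t : ℝ => t ^ (-ka p)) (-ka p * z.2 ^ (-ka p - 1)) z.2 :=
    Real.hasDerivAt_rpow_const (Or.inl hz.ne')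
  have h2 : HasDerivAt (fun t : ℝ => z.1 - (c * Real.log t) • e) (-((c * z.2⁻¹) • e)) z.2 :=
    (((Real.hasDerivAt_log hz.ne').const_mul c).smul_const e).const_sub z.1
  have h3 : HasDerivAt (fun t : ℝ => wvcQ m P x0 B (z.1 - (c * Real.log t) • e))
      ((innerSL ℝ P + B (z.1 - (c * Real.log z.2) • e - x0)) (-((c * z.2⁻¹) • e))) z.2 :=
    HasFDerivAt.comp_hasDerivAt (f := fun t : ℝ => z.1 - (c * Real.log t) • e) z.2
      (wvcQ_fd m P x0 hB _) h2
  have h4 : HasDerivAt (fun t : ℝ => -γ / 2 + k * Real.log t) (k * z.2⁻¹) z.2 :=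
    ((Real.hasDerivAt_log hz.ne').const_mul k).const_add (-γ / 2)
  have h5 := h1.mul (h3.add h4)
  have h6 : (innerSL ℝ P + B (z.1 - (c * Real.log z.2) • e - x0)) (-((c * z.2⁻¹) • e)) =
      -(c * z.2⁻¹ * ⟪wvcg P x0 B (z.1 - (c * Real.log z.2) • e), e⟫) := by
    rw [wvcg_inner, map_neg, map_smul]
    simp only [_root_.add_apply, innerSL_apply_apply, smul_eq_mul]
  have h7 : z.2 ^ (-ka p) * z.2⁻¹ = z.2 ^ (-ka p - 1) := by
    rw [Real.rpow_sub_one hz.ne', div_eq_mul_inv]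
  unfold PP.dt
  have h8 : (fun t => wvcF p c e m P x0 B γ k (z.1, t)) =
      (fun t : ℝ => t ^ (-ka p)) * ((fun t : ℝ => wvcQ m P x0 B (z.1 - (c * Real.log t) • e)) +
        fun t : ℝ => -γ / 2 + k * Real.log t) := by
    funext t
    rfl
  rw [h8, h5.deriv, h6, ← h7]
  simp only [Pi.add_apply]
  ring

private theorem wvc_shift : ContDiffOn ℝ ∞
    (fun z : PP.X n => z.1 - (c * Real.log z.2) • e) {z | 0 < z.2} := by
  have h1 : ContDiffOn ℝ ∞ (fun z : PP.X n => Real.log z.2) {z | 0 < z.2} :=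
    contDiff_snd.contDiffOn.log fun _ hz => ne_of_gt hz
  exact contDiff_fst.contDiffOn.sub ((contDiffOn_const.mul h1).smul contDiffOn_const)

private theorem wvc_pow : ContDiffOn ℝ ∞
    (fun z : PP.X n => z.2 ^ (-ka p)) {z | 0 < z.2} :=
  contDiff_snd.contDiffOn.rpow_const_of_ne fun _ hz => ne_of_gt hz

private theorem wvcF_C1 : ContDiffOn ℝ 1 (wvcF p c e m P x0 B γ k) {z | 0 < z.2} := by
  have h1 : ContDiffOn ℝ ∞ (fun z : PP.X n => Real.log z.2) {z | 0 < z.2} :=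
    contDiff_snd.contDiffOn.log fun _ hz => ne_of_gt hz
  have h2 : ContDiffOn ℝ ∞ (fun z : PP.X n => wvcQ m P x0 B (z.1 - (c * Real.log z.2) • e))
      {z | 0 < z.2} := (wvcQ_smooth m P x0 B).comp_contDiffOn wvc_shift
  have h3 : ContDiffOn ℝ ∞ (wvcF p c e m P x0 B γ k) {z | 0 < z.2} :=
    wvc_pow.mul (h2.add (contDiffOn_const.add (contDiffOn_const.mul h1)))
  exact h3.of_le (by exact_mod_cast le_top)

private theorem wvcF_V1 (hp : 2 < p) (hB : ∀ v w, B v w = B w v) :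
    ContDiffOn ℝ 1 (fun z => PP.A p (PP.dx (wvcF p c e m P x0 B γ k) z)) {z | 0 < z.2} := by
  have h2 : ContDiffOn ℝ ∞ (fun z : PP.X n => z.2 ^ (-ka p) •
      wvcg P x0 B (z.1 - (c * Real.log z.2) • e)) {z | 0 < z.2} :=
    wvc_pow.smul ((wvcg_smooth P x0 B).comp_contDiffOn wvc_shift)
  have h3 : PP.dx (wvcF p c e m P x0 B γ k) = (fun z : PP.X n => z.2 ^ (-ka p) •
      wvcg P x0 B (z.1 - (c * Real.log z.2) • e)) := by
    funext z
    exact wvcF_dx hB z
  rw [h3]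
  exact (ac1 hp).comp_contDiffOn (h2.of_le (by exact_mod_cast le_top))

private theorem wvc_core (hp : 2 < p) (hΩ : IsOpen Ω) (h : WkSol p (c • e) (ka p) Ω φ G)
    (hB : ∀ v w, B v w = B w v) {ε r g0 : ℝ} (hε : 0 < ε) (hr : 0 < r) (hg0 : 0 < g0)
    (hball : closedBall x0 r ⊆ Ω)
    (hlow : ∀ y ∈ closedBall x0 r, wvcQ (φ x0) P x0 B y + ε * ‖y - x0‖ ^ 2 ≤ φ y)
    (hF : ∀ y ∈ closedBall x0 r, g0 / 2 ≤ pA p (wvcg P x0 B y) B + ⟪c • e, wvcg P x0 B y⟫ +
      ka p * wvcQ (φ x0) P x0 B y) : False := by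
  have ha : 0 < ka p := by
    unfold ka
    have : 0 < p - 2 := by linarith
    positivity
  set a := ka p with haa
  obtain ⟨γ, hγ, hγ1, hγ2⟩ : ∃ γ : ℝ, 0 < γ ∧ a * γ ≤ g0 / 2 ∧ γ ≤ ε * r ^ 2 / 2 := by
    refine ⟨min (g0 / (2 * a)) (ε * r ^ 2 / 2), lt_min (by positivity) (by positivity), ?_,
      min_le_right _ _⟩
    calc a * min (g0 / (2 * a)) (ε * r ^ 2 / 2) ≤ a * (g0 / (2 * a)) :=
          mul_le_mul_of_nonneg_left (min_le_left _ _) ha.le
      _ = g0 / 2 := by field_simp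
  set T : ℝ := Real.exp (8 * γ / g0) with hT
  set U : Set (PP.X n) := {z | 0 < z.2} with hU
  have hUo : IsOpen U := isOpen_lt continuous_const continuous_snd
  set D : Set (PP.X n) := (U ∩ (fun z : PP.X n => z.1 - (c * Real.log z.2) • e) ⁻¹' ball x0 r) ∩
    ({z | 1 < z.2} ∩ {z | z.2 < T}) with hD
  have hDo : IsOpen D :=
    (wvc_shift.continuousOn.isOpen_inter_preimage hUo isOpen_ball).inter
      ((isOpen_lt continuous_const continuous_snd).inter (isOpen_lt continuous_snd continuous_const))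
  have hDU : D ⊆ U := fun z hz => hz.1.1
  have hDy : ∀ z ∈ D, z.1 - (c * Real.log z.2) • e ∈ closedBall x0 r := fun z hz =>
    ball_subset_closedBall hz.1.2
  have hDTh : D ⊆ Th c e Ω := fun z hz => ⟨hz.1.1, hball (hDy z hz)⟩
  have hlog1 : ∀ z ∈ D, 0 < Real.log z.2 := fun z hz => Real.log_pos hz.2.1
  have hlog2 : ∀ z ∈ D, Real.log z.2 < 8 * γ / g0 := by
    intro z hz
    rw [Real.log_lt_iff_lt_exp (hDU hz)]
    exact hz.2.2
  have hρ2 : ∀ z ∈ D, -γ / 2 + g0 / 8 * Real.log z.2 < γ / 2 := by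
    intro z hz
    have h1 := hlog2 z hz
    rw [lt_div_iff₀ hg0] at h1
    linarith
  have hρ1 : ∀ z ∈ D, -γ / 2 < -γ / 2 + g0 / 8 * Real.log z.2 := by
    intro z hz
    have h1 := mul_pos (by positivity : (0:ℝ) < g0 / 8) (hlog1 z hz)
    linarith
  set F := wvcF p c e (φ x0) P x0 B γ (g0 / 8) with hFd
  have key := wvb (n := n) (p := p) hp hDo (Φ := F) (v := su p c e φ) (G := sg p c e G) (b := T)
    (wvcF_C1.mono hDU) ((wvcF_V1 hp hB).mono hDU) ?_ ((su_cont hΩ h.cont).mono hDTh) ?_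
    (fun K hK hKD => sg_mem hp hΩ h hK (hKD.trans hDTh)) ?_ ?_ ?_
  · -- contradiction
    set t : ℝ := Real.exp (6 * γ / g0) with ht
    have htp : 0 < t := Real.exp_pos _
    have hlt : Real.log t = 6 * γ / g0 := Real.log_exp _
    have hz : ((x0 + (c * Real.log t) • e, t) : PP.X n) ∈ D := by
      refine ⟨⟨htp, ?_⟩, ?_, ?_⟩
      · simp only [mem_preimage, add_sub_cancel_right]
        exact mem_ball_self hr
      · change 1 < t
        rw [ht, Real.one_lt_exp_iff]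
        positivity
      · change t < T
        rw [ht, hT, Real.exp_lt_exp]
        apply div_lt_div_of_pos_right _ hg0
        linarith
    have h1 := key _ hz hz.2.2
    unfold F wvcF su at h1
    simp only [add_sub_cancel_right] at h1
    have h2 := le_of_mul_le_mul_left h1 (Real.rpow_pos_of_pos htp _)
    have h3 : wvcQ (φ x0) P x0 B x0 = φ x0 := by
      unfold wvcQ
      simp
    rw [h3, hlt] at h2
    have h4 : g0 / 8 * (6 * γ / g0) = 3 / 4 * γ := by
      field_simp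
      ring
    rw [h4] at h2
    linarith
  · -- subsolution
    intro z hz
    rw [wvcF_dt hB z (hDU hz), wvcF_dv hp hB z (hDU hz)]
    refine mul_le_mul_of_nonneg_left ?_ (Real.rpow_nonneg (hDU hz).le _)
    have h1 := hF _ (hDy z hz)
    rw [real_inner_smul_left, real_inner_comm] at h1
    have h2 := hρ1 z hz
    have h3 := mul_lt_mul_of_pos_left h2 ha
    rw [← haa]
    have h4 : a * (-γ / 2) = - (a * γ) / 2 := by ring
    rw [h4] at h3
    linarith
  · -- bounded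
    obtain ⟨M, hM⟩ := (isCompact_closedBall x0 r).exists_bound_of_continuousOn (h.cont.mono hball)
    refine ⟨M, fun z hz => ?_⟩
    unfold su
    rw [abs_mul, abs_of_pos (Real.rpow_pos_of_pos (hDU hz) _)]
    have h1 := hM _ (hDy z hz)
    rw [Real.norm_eq_abs] at h1
    have h2 : z.2 ^ (-ka p) ≤ 1 := Real.rpow_le_one_of_one_le_of_nonpos hz.2.1.le (by linarith)
    calc z.2 ^ (-ka p) * |φ (z.1 - (c * Real.log z.2) • e)| ≤
          1 * |φ (z.1 - (c * Real.log z.2) • e)| := mul_le_mul_of_nonneg_right h2 (abs_nonneg _)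
      _ ≤ M := by rw [one_mul]; exact h1
  · intro ζ hζ
    exact sg_wg hp hΩ h ζ ⟨hζ.smooth, hζ.cpt, hζ.supp.trans hDTh⟩
  · intro ζ hζ
    exact sg_eq hp hΩ h ζ ⟨hζ.smooth, hζ.cpt, hζ.supp.trans hDTh⟩
  · -- the compact sets
    intro τ hτ
    set C : Set (E n × ℝ) := closedBall x0 (r / 2) ×ˢ Icc (Real.exp (4 * γ / g0)) (T - τ) with hC
    have hCc : IsCompact C := (isCompact_closedBall x0 (r / 2)).prod isCompact_Icc
    have hC0 : ∀ z ∈ C, 0 < z.2 := fun z hz => (Real.exp_pos _).trans_le hz.2.1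
    have hfc : ContinuousOn (fun z : E n × ℝ => ((z.1 + (c * Real.log z.2) • e, z.2) : PP.X n)) C := by
      have h1 : ContinuousOn (fun z : E n × ℝ => Real.log z.2) C :=
        continuous_snd.continuousOn.log fun z hz => ne_of_gt (hC0 z hz)
      exact (continuous_fst.continuousOn.add
        ((continuousOn_const.mul h1).smul continuousOn_const)).prodMk continuous_snd.continuousOn
    refine ⟨_, hCc.image_of_continuousOn hfc, ?_, ?_⟩
    · rintro z ⟨w, hw, rfl⟩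
      have hw0 := hC0 w hw
      refine ⟨⟨hw0, ?_⟩, ?_, ?_⟩
      · simp only [mem_preimage, add_sub_cancel_right]
        exact closedBall_subset_ball (by linarith) hw.1
      · refine lt_of_lt_of_le ?_ hw.2.1
        rw [Real.one_lt_exp_iff]
        positivity
      · exact lt_of_le_of_lt hw.2.2 (by linarith)
    · intro z hz h1 h2
      have hz0 := hDU hz
      unfold F wvcF su at h1
      have h3 := lt_of_mul_lt_mul_left h1 (Real.rpow_nonneg hz0.le _)
      have h4 := hlow _ (hDy z hz)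
      have h5 := hρ2 z hz
      set y := z.1 - (c * Real.log z.2) • e with hy
      have h6 : ε * ‖y - x0‖ ^ 2 < -γ / 2 + g0 / 8 * Real.log z.2 := by linarith
      have h7 : 0 ≤ ε * ‖y - x0‖ ^ 2 := by positivity
      have h8 : 4 * γ / g0 < Real.log z.2 := by
        rw [div_lt_iff₀ hg0]
        linarith
      have h9 : ‖y - x0‖ ^ 2 < (r / 2) ^ 2 := by
        have : ε * ‖y - x0‖ ^ 2 < ε * (r / 2) ^ 2 := by
          have : ε * (r / 2) ^ 2 = ε * r ^ 2 / 2 / 2 := by ring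
          rw [this]
          linarith
        exact lt_of_mul_lt_mul_left this hε.le
      have h10 : ‖y - x0‖ < r / 2 := lt_of_pow_lt_pow_left₀ 2 (by positivity) h9
      refine ⟨(y, z.2), ⟨?_, ?_, h2.le⟩, ?_⟩
      · rw [mem_closedBall, dist_eq_norm]
        exact h10.le
      · exact ((Real.lt_log_iff_exp_lt hz0).1 h8).le
      · simp [hy]

private theorem wvc_sym_tr (X : Bil n) : tr ((1 / 2 : ℝ) • (X + X.flip)) = tr X := by
  unfold tr
  refine Finset.sum_congr rfl fun i _ => ?_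
  simp only [_root_.smul_apply, _root_.add_apply, ContinuousLinearMap.flip_apply, smul_eq_mul]
  ring

private theorem wvc_sym_apply (X : Bil n) (v w : E n) :
    ((1 / 2 : ℝ) • (X + X.flip)) v w = 1 / 2 * (X v w + X w v) := by
  simp only [_root_.smul_apply, _root_.add_apply, ContinuousLinearMap.flip_apply, smul_eq_mul]

private theorem wvc_sym_pA (X : Bil n) (s q : ℝ) (hq : q = pA p P (ip : Bil n)) :
    pA p P ((1 / 2 : ℝ) • (X + X.flip) + (-s) • (ip : Bil n)) = pA p P X - s * q := by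
  have h2 : pA p P ((1 / 2 : ℝ) • (X + X.flip)) = pA p P X := by
    unfold pA
    rw [wvc_sym_tr, wvc_sym_apply]
    ring
  rw [pA_form_add, h2, pA_form_smul, hq]
  ring

private theorem wvc_opcont (hp : 2 < p) (b : E n) (m : ℝ) (P x0 : E n) (B : Bil n) :
    Continuous fun y => pA p (wvcg P x0 B y) B + ⟪b, wvcg P x0 B y⟫ + ka p * wvcQ m P x0 B y := by
  have h1 : Continuous (wvcg P x0 B) := (wvcg_smooth P x0 B).continuous
  have h2 : Continuous (wvcQ m P x0 B) := (wvcQ_smooth m P x0 B).continuous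
  have h3 : Continuous fun y => pA p (wvcg P x0 B y) B :=
    Continuous.comp (g := fun z : E n × Bil n => pA p z.1 z.2) (f := fun y => (wvcg P x0 B y, B))
      (pA_cont hp) (h1.prodMk continuous_const)
  exact (h3.add (continuous_const.inner h1)).add (continuous_const.mul h2)

private theorem wvcg_self (P x0 : E n) (B : Bil n) : wvcg P x0 B x0 = P := by
  unfold wvcg
  simp

private theorem wvcQ_self (m : ℝ) (P x0 : E n) (B : Bil n) : wvcQ m P x0 B x0 = m := by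
  unfold wvcQ
  simp

/-- everything with `B` abstract -/
private theorem wvc_main (hp : 2 < p) (hΩ : IsOpen Ω) (h : WkSol p (c • e) (ka p) Ω φ G)
    (hB : ∀ v w, B v w = B w v) (hx0 : x0 ∈ Ω) {ε g0 : ℝ} (hε : 0 < ε) (hg0 : 0 < g0)
    {X : Bil n} (hL : LJ φ x0 P X) (hBX : ∀ v, B v v = X v v - 4 * ε * ‖v‖ ^ 2)
    (hat : g0 / 2 < pA p P B + ⟪c • e, P⟫ + ka p * φ x0) : False := by
  obtain ⟨r1, hr1, H1⟩ := hL ε hε
  have hat' : g0 / 2 < pA p (wvcg P x0 B x0) B + ⟪c • e, wvcg P x0 B x0⟫ +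
      ka p * wvcQ (φ x0) P x0 B x0 := by
    rw [wvcg_self, wvcQ_self]
    exact hat
  have hev : ∀ᶠ y in 𝓝 x0, g0 / 2 < pA p (wvcg P x0 B y) B + ⟪c • e, wvcg P x0 B y⟫ +
      ka p * wvcQ (φ x0) P x0 B y :=
    (wvc_opcont hp (c • e) (φ x0) P x0 B).continuousAt.eventually (eventually_gt_nhds hat')
  obtain ⟨r2, hr2, H2⟩ := Metric.eventually_nhds_iff.1 hev
  obtain ⟨r3, hr3, H3⟩ := Metric.isOpen_iff.1 hΩ x0 hx0
  have hmin : 0 < min r1 (min r2 r3) := lt_min hr1 (lt_min hr2 hr3)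
  obtain ⟨r, hr, hrm⟩ := exists_between hmin
  have hrr1 : r < r1 := lt_of_lt_of_le hrm (min_le_left _ _)
  have hrr2 : r < r2 := lt_of_lt_of_le hrm ((min_le_right _ _).trans (min_le_left _ _))
  have hrr3 : r < r3 := lt_of_lt_of_le hrm ((min_le_right _ _).trans (min_le_right _ _))
  refine wvc_core (P := P) (x0 := x0) (B := B) (ε := ε) (r := r) (g0 := g0) hp hΩ h hB hε
    hr hg0 ?_ ?_ ?_
  · exact (closedBall_subset_ball hrr3).trans H3
  · intro y hy
    rw [mem_closedBall, dist_eq_norm] at hy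
    have h1 := H1 y (hy.trans_lt hrr1)
    unfold wvcQ
    rw [hBX]
    linarith
  · intro y hy
    rw [mem_closedBall] at hy
    exact (H2 (hy.trans_lt hrr2)).le

theorem wv_sp (hp : 2 < p) (hΩ : IsOpen Ω) (h : WkSol p (c • e) (ka p) Ω φ G) :
    Sp p (c • e) (ka p) Ω φ := by
  intro x0 hx0 P X hL
  by_contra hcon
  push Not at hcon
  obtain ⟨g0, hg0⟩ : ∃ g0, g0 = pA p P X + ⟪c • e, P⟫ + ka p * φ x0 := ⟨_, rfl⟩
  obtain ⟨q, hq⟩ : ∃ q, q = pA p P (ip : Bil n) := ⟨_, rfl⟩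
  rw [← hg0] at hcon
  obtain ⟨ε, hε, hεq⟩ : ∃ ε : ℝ, 0 < ε ∧ 4 * ε * q < g0 / 2 := by
    refine ⟨g0 / (8 * (|q| + 1)), by positivity, ?_⟩
    have h1 : 4 * (g0 / (8 * (|q| + 1))) * q = g0 / 2 * (q / (|q| + 1)) := by
      field_simp
      ring
    rw [h1]
    have h2 : q / (|q| + 1) < 1 := by
      rw [div_lt_one (by positivity)]
      have := le_abs_self q
      linarith
    have h3 : 0 < g0 / 2 := by linarith
    nlinarith
  have hip : ∀ v w : E n, ((-(4 * ε)) • (ip : Bil n)) v w = -(4 * ε) * ⟪v, w⟫ := fun v w => rfl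
  have hBa : ∀ v w, ((1 / 2 : ℝ) • (X + X.flip) + (-(4 * ε)) • (ip : Bil n)) v w =
      1 / 2 * (X v w + X w v) - 4 * ε * ⟪v, w⟫ := by
    intro v w
    rw [_root_.add_apply, _root_.add_apply, wvc_sym_apply, hip]
    ring
  have hpB := wvc_sym_pA (p := p) (P := P) X (4 * ε) q hq
  generalize (1 / 2 : ℝ) • (X + X.flip) + (-(4 * ε)) • (ip : Bil n) = B at hBa hpB
  refine wvc_main hp hΩ h (B := B) (x0 := x0) (P := P) (X := X) (ε := ε) (g0 := g0) ?_ hx0 hε hcon hL
    ?_ ?_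
  · intro v w
    rw [hBa, hBa, real_inner_comm]
    ring
  · intro v
    rw [hBa, real_inner_self_eq_norm_sq]
    ring
  · rw [hpB]
    linarith

theorem wv_sb (hp : 2 < p) (hΩ : IsOpen Ω) (h : WkSol p (c • e) (ka p) Ω φ G) :
    Sb p (c • e) (ka p) Ω φ := by
  have h' : WkSol p (c • e) (ka p) Ω (fun x => -φ x) (fun x => -G x) := by
    refine ⟨h.cont.neg, fun K hK hKΩ => (h.memG K hK hKΩ).neg, ?_, ?_⟩
    · intro ζ hζ
      have h1 := h.wg ζ hζ
      simp only [neg_smul, smul_neg, integral_neg]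
      rw [h1]
    · intro ζ hζ
      have h1 := h.eq ζ hζ
      have h2 : (fun x => ⟪‖-G x‖ ^ (p - 2) • -G x, gradient ζ x⟫ + -φ x * ⟪c • e, gradient ζ x⟫ -
          ka p * (-φ x * ζ x)) = fun x => -(⟪‖G x‖ ^ (p - 2) • G x, gradient ζ x⟫ +
          φ x * ⟪c • e, gradient ζ x⟫ - ka p * (φ x * ζ x)) := by
        funext x
        rw [norm_neg, smul_neg, inner_neg_left]
        ring
      rw [h2, integral_neg, h1, neg_zero]
  intro x hx P X hU
  have h1 := wv_sp hp hΩ h' x hx (-P) (-X) (lj_neg.2 hU)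
  rw [pA_neg, pA_form_neg, inner_neg_right] at h1
  linarith

end Pool.Agent.TWC
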