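import Pool.Agent.TWC.CYL
import Pool.Agent.TWC.WVC
import Pool.Agent.TWC.STAB
import Pool.Agent.TWC.JTA
import Pool.Agent.TWC.PAL

/-!
# TWC VIS: travelling waves in the sense of the problem are waves in viscosity form

`φ~ = φ` on `cyl D`, `0` elsewhere (`ext`), `Φ~ x = Φ (zq x)` on `cyl D`, `0` elsewhere. `Ω = cyl D`,
`e = axis N`.
* `φ~` is continuous: on `Ω` (open), at frontier points (`φ` continuous on the closure, `= 0` there), and on
  the exterior. Nonnegative.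
* `Sb`, `Sp` on `Ω`: `wv_sb`, `wv_sp` (`WkSol` for `φ` on `Ω`; `φ~ = φ` on the open set `Ω`: jets are local;
  `WkSol` for `φ~`: test functions are supported in `Ω`). `Sub` on the whole space: at `x ∉ Ω`, `φ~ x = 0` and
  `uj_zero` gives `P = 0`, so the inequality is `0 ≤ 0` (`pA_zero`).
* `Wave`: `off`, `lim` (both sides `0` off `Ω`), `right`.
* `Prof`: `Φ~` is the locally uniform limit of the shifts `x ↦ φ~ (x - k e)`, `k → ∞` (`left`): uniformly on
  sets where the height is bounded above; hence continuous, and `Sb`, `Sp` by `stab_sb`, `stab_sp` (shifts: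
  `uj_shift`; constant `κs`). Invariant, nonnegative, zero off `Ω`, nontrivial.
-/

open Set Metric Filter Topology MeasureTheory
open scoped RealInnerProductSpace ContDiff

noncomputable section

namespace Pool.Agent.TWC

variable {N : ℕ} {D : Set (E N)} {r0 p c : ℝ} {Φ : E N → ℝ} {φ : E (N + 1) → ℝ}

/-- Finite travelling waves of speed `c`: continuous up to the wall, zero on the wall, weak solutions of
`Δ_p φ + c ∂_ξ φ + φ/(p-2) = 0`, tending uniformly to the nontrivial profile `Φ` as `ξ → -∞`, and zero for large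
`ξ`. -/
structure IsWave (p c : ℝ) (D : Set (E N)) (Φ : E N → ℝ) (φ : E (N + 1) → ℝ) : Prop where
  cont : ContinuousOn φ (closure (cyl D))
  nonneg : ∀ x ∈ cyl D, 0 ≤ φ x
  wall : ∀ x ∈ frontier (cyl D), φ x = 0
  weak : ∃ G, WkSol p (c • axis N) (ka p) (cyl D) φ G
  left : ∀ η > 0, ∃ R, ∀ x ∈ cyl D, x (Fin.last N) ≤ -R → |φ x - Φ (zq x)| ≤ η
  right : ∃ R, ∀ x ∈ cyl D, R ≤ x (Fin.last N) → φ x = 0
  nontriv : ∃ z ∈ D, Φ z ≠ 0

/-- Extension by zero. -/
def ext0 {n : ℕ} (Ω : Set (E n)) (f : E n → ℝ) (x : E n) : ℝ :=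
  open Classical in if x ∈ Ω then f x else 0

private theorem VIS_in {n : ℕ} {Ω : Set (E n)} {f : E n → ℝ} {x : E n} (h : x ∈ Ω) :
    ext0 Ω f x = f x := by
  unfold ext0
  rw [if_pos h]

private theorem VIS_out {n : ℕ} {Ω : Set (E n)} {f : E n → ℝ} {x : E n} (h : x ∉ Ω) :
    ext0 Ω f x = 0 := by
  unfold ext0
  rw [if_neg h]

private theorem VIS_cont {n : ℕ} {Ω : Set (E n)} {f : E n → ℝ}
    (hf : ContinuousOn f (closure Ω)) (h0 : ∀ x ∈ frontier Ω, f x = 0) :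
    Continuous (ext0 Ω f) := by
  classical
  have h := continuous_if (p := fun x => x ∈ Ω) (f := f) (g := fun _ => (0 : ℝ)) h0 hf
    continuousOn_const
  refine h.congr fun x => ?_
  by_cases hx : x ∈ Ω
  · rw [VIS_in hx, if_pos hx]
  · rw [VIS_out hx, if_neg hx]

private theorem VIS_uj {n : ℕ} {Ω : Set (E n)} (hΩ : IsOpen Ω) {f : E n → ℝ} {x P : E n}
    {X : Bil n} (hx : x ∈ Ω) (h : UJ (ext0 Ω f) x P X) : UJ f x P X := by
  obtain ⟨r, hr, hb⟩ := Metric.isOpen_iff.1 hΩ x hx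
  refine uj_local h ⟨r, hr, fun y hy => ?_⟩ (VIS_in hx).symm
  have hy' : y ∈ Ω := hb (by rw [mem_ball_iff_norm]; exact hy)
  exact (VIS_in hy').symm.le

private theorem VIS_lj {n : ℕ} {Ω : Set (E n)} (hΩ : IsOpen Ω) {f : E n → ℝ} {x P : E n}
    {X : Bil n} (hx : x ∈ Ω) (h : LJ (ext0 Ω f) x P X) : LJ f x P X := by
  obtain ⟨r, hr, hb⟩ := Metric.isOpen_iff.1 hΩ x hx
  refine uj_neg.1 (uj_local (uj_neg.2 h) ⟨r, hr, fun y hy => ?_⟩ ?_)
  · have hy' : y ∈ Ω := hb (by rw [mem_ball_iff_norm]; exact hy)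
    show - f y ≤ - ext0 Ω f y
    rw [VIS_in hy']
  · show - f x = - ext0 Ω f x
    rw [VIS_in hx]

theorem vis_wave (hp : 2 < p) (hN : 0 < N) (hD : Dom r0 D) (h : IsWave p c D Φ φ) :
    Wave p c (axis N) (cyl D) (ext0 (cyl D) fun x => Φ (zq x)) (ext0 (cyl D) φ) := by
  have hT := cyl_tube hN hD
  have hΩ : IsOpen (cyl D) := hT.isOpen
  obtain ⟨G, hG⟩ := h.weak
  have hnn : ∀ x, 0 ≤ ext0 (cyl D) φ x := by
    intro x
    by_cases hx : x ∈ cyl D
    · rw [VIS_in hx]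
      exact h.nonneg x hx
    · rw [VIS_out hx]
  have hcont : Continuous (ext0 (cyl D) φ) := VIS_cont h.cont h.wall
  refine ⟨fun x hx => VIS_out hx, ⟨hnn, hcont.upperSemicontinuous, ?_⟩, ⟨hnn, hcont, ?_⟩, ?_, ?_⟩
  · intro x _ P X hU
    by_cases hx : x ∈ cyl D
    · have h2 := wv_sb hp hΩ hG x hx P X (VIS_uj hΩ hx hU)
      rw [VIS_in hx]
      exact h2
    · have hx0 : ext0 (cyl D) φ x = 0 := VIS_out hx
      obtain ⟨hP, _⟩ := uj_zero hnn hx0 hU
      rw [hP, pA_zero hp, inner_zero_right, hx0, mul_zero, add_zero, add_zero]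
  · intro x hx P X hL
    have h2 := wv_sp hp hΩ hG x hx P X (VIS_lj hΩ hx hL)
    rw [VIS_in hx]
    exact h2
  · intro η hη
    obtain ⟨R, hR⟩ := h.left η hη
    refine ⟨R, fun x hx => ?_⟩
    by_cases hxD : x ∈ cyl D
    · rw [VIS_in hxD, VIS_in hxD]
      exact hR x hxD (by rw [← inner_axis]; exact hx)
    · rw [VIS_out hxD, VIS_out hxD, sub_zero, abs_zero]
      exact hη.le
  · obtain ⟨R, hR⟩ := h.right
    refine ⟨R, fun x hx => ?_⟩
    by_cases hxD : x ∈ cyl D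
    · rw [VIS_in hxD]
      exact hR x hxD (by rw [← inner_axis]; exact hx)
    · exact VIS_out hxD

private theorem VIS_lim {n : ℕ} {e : E n} (he : ‖e‖ = 1) {F ψ : E n → ℝ}
    (hinv : ∀ x, ∀ t : ℝ, F (x + t • e) = F x)
    (hlim : ∀ η > 0, ∃ R, ∀ x, ⟪x, e⟫ ≤ -R → |ψ x - F x| ≤ η) (x : E n) {ε : ℝ} (hε : 0 < ε) :
    ∀ᶠ k : ℕ in atTop, ∀ y ∈ ball x 1, |ψ (y - (k : ℝ) • e) - F y| ≤ ε := by
  obtain ⟨R, hR⟩ := hlim ε hε
  have h1 : ∀ᶠ k : ℕ in atTop, ⟪x, e⟫ + 1 + R ≤ (k : ℝ) :=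
    tendsto_natCast_atTop_atTop.eventually_ge_atTop _
  filter_upwards [h1] with k hk y hy
  have h2 : ⟪y, e⟫ ≤ ⟪x, e⟫ + 1 := by
    have h3 : ⟪y - x, e⟫ ≤ ‖y - x‖ * ‖e‖ := real_inner_le_norm _ _
    rw [inner_sub_left, he, mul_one] at h3
    have h4 : ‖y - x‖ < 1 := mem_ball_iff_norm.1 hy
    linarith
  have h5 : ⟪y - (k : ℝ) • e, e⟫ = ⟪y, e⟫ - k := by
    rw [inner_sub_left, real_inner_smul_left, real_inner_self_eq_norm_sq, he]
    ring
  have h6 := hR (y - (k : ℝ) • e) (by rw [h5]; linarith)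
  have h7 : F (y - (k : ℝ) • e) = F y := by
    have := hinv y (-(k : ℝ))
    rw [neg_smul, ← sub_eq_add_neg] at this
    exact this
  rw [h7] at h6
  exact h6

private theorem VIS_gen {n : ℕ} {p c : ℝ} {e : E n} {Ω : Set (E n)} {F ψ : E n → ℝ} (hp : 2 < p)
    (he : ‖e‖ = 1) (hΩ : IsOpen Ω) (hΩi : ∀ x ∈ Ω, ∀ t : ℝ, x + t • e ∈ Ω)
    (hoff : ∀ x ∉ Ω, F x = 0) (hinv : ∀ x, ∀ t : ℝ, F (x + t • e) = F x) (hnt : ∃ x, F x ≠ 0)
    (hW : Wave p c e Ω F ψ) : Prof p c e Ω F := by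
  have hcψ : Continuous ψ := hW.sup.cont
  have hcu : ∀ k : ℕ, Continuous fun y : E n => ψ (y - (k : ℝ) • e) := fun k =>
    hcψ.comp (continuous_id.sub continuous_const)
  have hlim : ∀ x : E n, ∀ ε > 0, ∀ᶠ k : ℕ in atTop, ∀ y ∈ ball x 1,
      |ψ (y - (k : ℝ) • e) - F y| ≤ ε := fun x ε hε => VIS_lim he hinv hW.lim x hε
  have hcF : Continuous F := by
    have hL : TendstoLocallyUniformly (fun (k : ℕ) (y : E n) => ψ (y - (k : ℝ) • e)) F atTop := by
      rw [Metric.tendstoLocallyUniformly_iff]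
      intro ε hε x
      refine ⟨ball x 1, ball_mem_nhds x one_pos, ?_⟩
      filter_upwards [hlim x (ε / 2) (half_pos hε)] with k hk y hy
      rw [dist_comm, Real.dist_eq]
      have := hk y hy
      linarith
    exact hL.continuous (Frequently.of_forall hcu)
  have hnn : ∀ x, 0 ≤ F x := by
    intro x
    refine le_of_forall_pos_le_add fun ε hε => ?_
    obtain ⟨k, hk⟩ := (hlim x ε hε).exists
    have h1 := (abs_le.1 (hk x (mem_ball_self one_pos))).2
    have h2 := hW.sub.nn (x - (k : ℝ) • e)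
    linarith
  refine ⟨hcF, hnn, hoff, hinv, ?_, ⟨hnn, hcF.upperSemicontinuous, ?_⟩, ⟨hnn, hcF, ?_⟩⟩
  · obtain ⟨x, hx⟩ := hnt
    exact ⟨x, lt_of_le_of_ne (hnn x) (Ne.symm hx)⟩
  · refine stab_sb hp (l := (atTop : Filter ℕ)) (u := fun k y => ψ (y - (k : ℝ) • e))
      (κs := fun _ => ka p) tendsto_const_nhds (fun k => (hcu k).upperSemicontinuous) ?_ ?_
    · intro x _
      refine ⟨1, one_pos, Eventually.of_forall fun k y _ P X hU => ?_⟩
      have h1 := (uj_shift ((k : ℝ) • e)).1 hU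
      exact hW.sub.sb _ (mem_univ _) P X h1
    · intro x _
      exact ⟨1, one_pos, fun ε hε => hlim x ε hε⟩
  · refine stab_sp hp (l := (atTop : Filter ℕ)) (v := fun k y => ψ (y - (k : ℝ) • e))
      (κs := fun _ => ka p) tendsto_const_nhds (fun k => (hcu k).lowerSemicontinuous) ?_ ?_
    · intro x hx
      obtain ⟨r, hr, hb⟩ := Metric.isOpen_iff.1 hΩ x hx
      refine ⟨r, hr, Eventually.of_forall fun k y hy P X hL => ?_⟩
      have h1 : UJ (fun z => -ψ z) (y - (k : ℝ) • e) (-P) (-X) :=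
        (uj_shift (u := fun z => -ψ z) ((k : ℝ) • e)).1 (uj_neg.2 hL)
      have h2 : LJ ψ (y - (k : ℝ) • e) P X := uj_neg.1 h1
      have h3 : y - (k : ℝ) • e ∈ Ω := by
        have := hΩi y (hb hy) (-(k : ℝ))
        rw [neg_smul, ← sub_eq_add_neg] at this
        exact this
      exact hW.sup.sp _ h3 P X h2
    · intro x _
      exact ⟨1, one_pos, fun ε hε => hlim x ε hε⟩

theorem vis_prof (hp : 2 < p) (hN : 0 < N) (hD : Dom r0 D) (h : IsWave p c D Φ φ) :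
    Prof p c (axis N) (cyl D) (ext0 (cyl D) fun x => Φ (zq x)) := by
  have hT := cyl_tube hN hD
  refine VIS_gen hp hT.unit hT.isOpen hT.inv (fun x hx => VIS_out hx) ?_ ?_
    (vis_wave hp hN hD h)
  · intro x t
    by_cases hx : x ∈ cyl D
    · rw [VIS_in hx, VIS_in (hT.inv x hx t), zq_add]
    · have hx' : x + t • axis N ∉ cyl D := by
        intro h1
        apply hx
        have h2 := hT.inv _ h1 (-t)
        rw [neg_smul, add_neg_cancel_right] at h2
        exact h2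
      rw [VIS_out hx, VIS_out hx']
  · obtain ⟨z, hz, hne⟩ := h.nontriv
    have hq : zq (WithLp.toLp 2 (Fin.snoc (α := fun _ => ℝ) (fun i => z i) 0) : E (N + 1)) = z := by
      ext i
      show Fin.snoc (α := fun _ => ℝ) (fun i => z i) 0 i.castSucc = z i
      rw [Fin.snoc_castSucc]
    refine ⟨WithLp.toLp 2 (Fin.snoc (α := fun _ => ℝ) (fun i => z i) 0), ?_⟩
    have hm : (WithLp.toLp 2 (Fin.snoc (α := fun _ => ℝ) (fun i => z i) 0) : E (N + 1)) ∈ cyl D := by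
      show zq _ ∈ D
      rw [hq]
      exact hz
    rw [VIS_in hm, hq]
    exact hne

end Pool.Agent.TWC
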