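import Pool.Agent.TWC.GAPS
import Pool.Agent.TWC.CLF
import Pool.Agent.TWC.C1
import Pool.Agent.TWC.YF

/-!
# TWC VPT: on the fast set `W ≤ ψ(· + δ e)`

`lam > 1/(c(p-2))`, `F = FS e W lam L0`, `V = Po W \ F` (open: `{0 < W, W x < exp(-lam L0) W (x - L0 e)}`), and far
to the left (`<x,e> ≤ -R`, `x ∈ Ω`) `exp(-lam L0) W (x - L0 e) < W x`; `W < ψ` on `Nn W`.

(gap) Let `Q = {x ∈ Po W : W x = exp(-lam L0) W (x - L0 e)} ⊆ F`; heights `≥ -R` on `Q`, so `closure Q` is compact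
(`fs_compact`). Each `x ∈ closure Q ⊆ closure F` has `Gap`: by `clf`, `x ∈ Wl` (`gap_wall`) or `x ∈ F`; in the
second case `W x = exp(-lam L0) W (x - L0 e) < W (x - L0 e)` by continuity, so `x ∈ Nn W`, `W x < ψ x`, `gap_int`. By
compactness there are `η ∈ (0,1)`, `s0 > 0`: `W y ≤ (1-η) ψ (y - σ e)` for all `y ∈ Q`, `|σ| ≤ s0`.
(step) Let `a = c (p-2) lam - 1 > 0`. For `0 < δ ≤ δ0` let `s = δ/a`, where `δ0` is such that `s ≤ L0`,
`exp(-lam s) ≥ 1 - η`, `2 s + c (p-2) lam s ≤ s0`. `M, σ` from `yf` with `M0 = exp(-lam s)`, `σ0 = s`: `M0 ≤ M ≤ 1`,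
`|σ| ≤ s + c(p-2) lam s ≤ s0`, `σ → s - c(p-2) lam s = -δ`. Apply `c1` with `u = W`, `O₁ = univ`, `O₂ = Ω`, `η = 0`,
`K = closure V × [0,T]` (compact: heights of `V` are `≥ -R`, `fs_compact`). Let `(x,τ) ∈ K` be a violation:
`M ψ (x - σ e) < W x`. Then `W x > 0`, `x ∈ Po W ⊆ Ω`, `x - σ e ∈ Ω`. If `x ∉ V`: `x ∈ F ∩ closure V`, so `x ∈ Q` and
`W x ≤ (1-η) ψ (x - σ e) ≤ M ψ (x - σ e)`, a contradiction. So `x ∈ V` (open). `τ = 0` is impossible: by
`log_conc` on the segment from `x` to `x - L0 e` (in `Po W`, `po_down`) with parameter `s/L0`: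
`W (x - s e) ≥ W x^(1-s/L0) W (x - L0 e)^(s/L0) ≥ exp(lam s) W x`, so `W x ≤ exp(-lam s) W (x - s e) ≤ M0 ψ (x - σ0 e)`.
So `(x,τ)` has a full past neighbourhood in `K`. Hence `W x ≤ M τ ψ (x - σ τ e)` for `x ∈ V`, all `τ ≥ 0`; `τ → ∞`:
`W x ≤ ψ (x + δ e)`. If `x ∉ F` and `x ∉ V` then `W x = 0`.
-/

open Set Metric Filter Topology
open scoped RealInnerProductSpace

noncomputable section

namespace Pool.Agent.TWC

variable {n : ℕ} {p c : ℝ} {e : E n} {r0 : ℝ} {Ω : Set (E n)} {Φ W ψ : E n → ℝ}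

private theorem VPT_unif {Q : Set (E n)} (hQ : IsCompact Q) (hψ0 : ∀ x, 0 ≤ ψ x)
    (hg : ∀ x ∈ Q, Gap e Ω W ψ x) :
    ∃ η s0 : ℝ, 0 < η ∧ η < 1 ∧ 0 < s0 ∧
      ∀ y ∈ Ω ∩ Q, ∀ σ : ℝ, |σ| ≤ s0 → W y ≤ (1 - η) * ψ (y - σ • e) := by
  refine hQ.induction_on (p := fun S => ∃ η s0 : ℝ, 0 < η ∧ η < 1 ∧ 0 < s0 ∧
      ∀ y ∈ Ω ∩ S, ∀ σ : ℝ, |σ| ≤ s0 → W y ≤ (1 - η) * ψ (y - σ • e)) ?_ ?_ ?_ ?_
  · exact ⟨1 / 2, 1, by norm_num, by norm_num, by norm_num, fun y hy => absurd hy.2 (by simp)⟩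
  · rintro S T hST ⟨η, s0, h1, h2, h3, h4⟩
    exact ⟨η, s0, h1, h2, h3, fun y hy => h4 y ⟨hy.1, hST hy.2⟩⟩
  · rintro S T ⟨η, s0, h1, h2, h3, h4⟩ ⟨η', s0', h1', h2', h3', h4'⟩
    refine ⟨min η η', min s0 s0', lt_min h1 h1', (min_le_left _ _).trans_lt h2,
      lt_min h3 h3', ?_⟩
    rintro y ⟨hyΩ, hy | hy⟩ σ hσ
    · refine (h4 y ⟨hyΩ, hy⟩ σ (hσ.trans (min_le_left _ _))).trans ?_
      exact mul_le_mul_of_nonneg_right (by linarith [min_le_left η η']) (hψ0 _)
    · refine (h4' y ⟨hyΩ, hy⟩ σ (hσ.trans (min_le_right _ _))).trans ?_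
      exact mul_le_mul_of_nonneg_right (by linarith [min_le_right η η']) (hψ0 _)
  · intro x hx
    obtain ⟨r, η, s0, hr, h1, h2, h3, h4⟩ := hg x hx
    exact ⟨ball x r, mem_nhdsWithin_of_mem_nhds (ball_mem_nhds x hr), η, s0, h1, h2, h3, h4⟩

private theorem VPT_pow {A B a b : ℝ} (hA : 0 < A) (hB : 0 < B) (hb : 0 ≤ b)
    (h : Real.exp a * A ≤ B) : Real.exp (a * b) * A ≤ A ^ (1 - b) * B ^ b := by
  have h1 : (Real.exp a * A) ^ b ≤ B ^ b :=
    Real.rpow_le_rpow (by positivity) h hb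
  rw [Real.mul_rpow (Real.exp_pos _).le hA.le, ← Real.exp_mul] at h1
  have h2 : A ^ (1 - b) * A ^ b = A := by
    rw [← Real.rpow_add hA, sub_add_cancel, Real.rpow_one]
  have h3 : 0 < A ^ (1 - b) := Real.rpow_pos_of_pos hA _
  have _ := hB
  calc Real.exp (a * b) * A = A ^ (1 - b) * (Real.exp (a * b) * A ^ b) := by
        nth_rewrite 1 [← h2]
        ring
    _ ≤ _ := mul_le_mul_of_nonneg_left h1 h3.le

theorem vpt (hp : 2 < p) (hc : 0 < c) (hΩ : Tube e r0 Ω) (hne : (Ωᶜ).Nonempty)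
    (hΦ : Prof p c e Ω Φ) (hW : WP p c e Ω Φ W) (hψ : Above p c e Ω W ψ)
    (hlt : ∀ x ∈ Nn W, W x < ψ x) {lam L0 R : ℝ} (hlam : 1 < c * (p - 2) * lam) (hL0 : 0 < L0)
    (hfar : ∀ x ∈ Ω, ⟪x, e⟫ ≤ -R → Real.exp (-(lam * L0)) * W (x - L0 • e) < W x) :
    ∃ δ0 > 0, ∀ δ : ℝ, 0 < δ → δ ≤ δ0 → ∀ x ∉ FS e W lam L0, W x ≤ ψ (x + δ • e) := by
  have hp2 : 0 < p - 2 := by linarith
  have hcp : 0 < c * (p - 2) := by positivity
  have hlam0 : 0 < lam := by
    by_contra h
    push Not at h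
    nlinarith
  have hψ0 := hψ.sup.nn
  have hW0 := hW.sub.nn
  have hexp1 : Real.exp (-(lam * L0)) < 1 := by
    rw [Real.exp_lt_one_iff]
    have : 0 < lam * L0 := by positivity
    linarith
  have hκ : 0 ≤ ka p := by
    unfold ka
    positivity
  have hsub := po_sub hW
  have hsh : Continuous fun x : E n => Real.exp (-(lam * L0)) * W (x - L0 • e) :=
    continuous_const.mul (hW.cont.comp (by fun_prop))
  set Q : Set (E n) := {x | 0 < W x ∧ W x = Real.exp (-(lam * L0)) * W (x - L0 • e)} with hQdef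
  set V : Set (E n) := {x | 0 < W x ∧ W x < Real.exp (-(lam * L0)) * W (x - L0 • e)} with hVdef
  have hVo : IsOpen V :=
    (isOpen_lt continuous_const hW.cont).inter (isOpen_lt hW.cont hsh)
  have hQP : Q ⊆ Po W := fun x hx => hx.1
  have hVP : V ⊆ Po W := fun x hx => hx.1
  have hQR : ∀ x ∈ Q, -R ≤ ⟪x, e⟫ := by
    intro x hx
    by_contra h
    push Not at h
    have h1 := hfar x (hsub hx.1) h.le
    rw [← hx.2] at h1
    exact lt_irrefl _ h1
  have hVR : ∀ x ∈ V, -R ≤ ⟪x, e⟫ := by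
    intro x hx
    by_contra h
    push Not at h
    exact absurd (hx.2.trans (hfar x (hsub hx.1) h.le)) (lt_irrefl _)
  have hQc : IsCompact (closure Q) := fs_compact hΩ hW lam L0 R hQP hQR
  have hVc : IsCompact (closure V) := fs_compact hΩ hW lam L0 R hVP hVR
  have hQF : Q ⊆ FS e W lam L0 := fun x hx => ⟨hx.1, hx.2.ge⟩
  have hQe : ∀ x ∈ closure Q, W x = Real.exp (-(lam * L0)) * W (x - L0 • e) := by
    have hcl : IsClosed {x : E n | W x = Real.exp (-(lam * L0)) * W (x - L0 • e)} :=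
      isClosed_eq hW.cont hsh
    exact fun x hx => closure_minimal (fun y hy => hy.2) hcl hx
  have hVe : ∀ x ∈ closure V, W x ≤ Real.exp (-(lam * L0)) * W (x - L0 • e) := by
    have hcl : IsClosed {x : E n | W x ≤ Real.exp (-(lam * L0)) * W (x - L0 • e)} :=
      isClosed_le hW.cont hsh
    exact fun x hx => closure_minimal (fun y hy => hy.2.le) hcl hx
  have hgap : ∀ x ∈ closure Q, Gap e Ω W ψ x := by
    intro x hx
    rcases clf hp hc hΩ hne hW hL0 (closure_mono hQF hx) with h | h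
    · have h1 := hQe x hx
      have h2 : 0 < W x := h.1
      have h3 : W x < W (x - L0 • e) := by
        have h4 : 0 < W (x - L0 • e) := by
          by_contra h5
          push Not at h5
          have := mul_nonpos_of_nonneg_of_nonpos (Real.exp_pos (-(lam * L0))).le h5
          linarith
        nlinarith
      exact gap_int hW hψ h2 (hlt x ⟨h2, _, h3⟩)
    · exact gap_wall hp hc hΩ hne hΦ hW hψ hlt h
  obtain ⟨η, s0, hη, hη1, hs0, hunif⟩ := VPT_unif hQc hψ0 hgap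
  set a : ℝ := c * (p - 2) * lam - 1 with ha
  have ha0 : 0 < a := by linarith
  set s1 : ℝ := min L0 (min (η / lam) (s0 / (1 + c * (p - 2) * lam))) with hs1
  have hden : 0 < 1 + c * (p - 2) * lam := by positivity
  have hs1p : 0 < s1 := lt_min hL0 (lt_min (by positivity) (by positivity))
  refine ⟨a * s1, by positivity, fun δ hδ hδ0 => ?_⟩
  obtain ⟨s, hs⟩ : ∃ s : ℝ, s = δ / a := ⟨_, rfl⟩
  have hsp : 0 < s := by rw [hs]; positivity
  have hss : s ≤ s1 := by
    rw [hs, div_le_iff₀ ha0]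
    linarith
  have hsL : s ≤ L0 := hss.trans (min_le_left _ _)
  have hsη : lam * s ≤ η := by
    have := (hss.trans (min_le_right _ _)).trans (min_le_left _ _)
    rw [le_div_iff₀ hlam0] at this
    linarith
  have hss0 : s + c * (p - 2) * (lam * s) ≤ s0 := by
    have := (hss.trans (min_le_right _ _)).trans (min_le_right _ _)
    rw [le_div_iff₀ hden] at this
    calc s + c * (p - 2) * (lam * s) = s * (1 + c * (p - 2) * lam) := by ring
      _ ≤ s0 := this
  have hlams : 0 < lam * s := by positivity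
  have hM01 : Real.exp (-(lam * s)) ≤ 1 := by
    rw [Real.exp_le_one_iff]
    linarith
  have hM0η : 1 - η ≤ Real.exp (-(lam * s)) := by
    have := Real.add_one_le_exp (-(lam * s))
    linarith
  obtain ⟨M, σ, hM0, hσ0, hMpos, hMc, hσc, hM', hσ', hMlim, hσlim, hMb, hσb⟩ :=
    yf hp c s (M0 := Real.exp (-(lam * s))) (Real.exp_pos _)
  rw [Real.log_exp] at hσlim hσb
  have hσabs : ∀ τ, 0 ≤ τ → |σ τ| ≤ s0 := by
    intro τ hτ
    have h1 := hσb τ hτ
    have h2 : |c * (p - 2) * -(lam * s)| = c * (p - 2) * (lam * s) := by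
      rw [mul_neg, abs_neg, abs_of_nonneg (by positivity)]
    rw [h2] at h1
    have h3 : |σ τ| ≤ |σ τ - s| + |s| := by
      have := abs_add_le (σ τ - s) s
      rwa [sub_add_cancel] at this
    rw [abs_of_pos hsp] at h3
    linarith
  have hMge : ∀ τ, 0 ≤ τ → 1 - η ≤ M τ := by
    intro τ hτ
    have h1 := (hMb τ hτ).1
    rw [min_eq_left hM01] at h1
    linarith
  have hmain : ∀ x ∈ V, ∀ τ, 0 ≤ τ → W x ≤ M τ * ψ (x - σ τ • e) := by
    intro x hx τ hτ
    have h := c1 (lam := ka p + 1) hp hκ (by linarith) (u := W) (ψ := ψ)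
      hW.cont.upperSemicontinuous isOpen_univ hΩ.isOpen hW.sub.sb hψ.sup (M := M) (σ := σ)
      hMpos hMc hσc hM' hσ' (K := closure V ×ˢ Icc 0 τ) (hVc.prod isCompact_Icc)
      (fun z hz => hz.2.1) (η := 0) le_rfl ?_ x τ ⟨subset_closure hx, hτ, le_rfl⟩
    · rwa [zero_mul, add_zero] at h
    · rintro y t ⟨hy1, hy2⟩ hviol
      have hy1 : y ∈ closure V := hy1
      have hy2 : t ∈ Icc 0 τ := hy2
      rw [add_zero] at hviol
      have hWy : 0 < W y := (mul_nonneg (hMpos t hy2.1).le (hψ0 _)).trans_lt hviol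
      have hyΩ : y ∈ Ω := hsub hWy
      have hyΩ' : y - σ t • e ∈ Ω := by
        have := hΩ.inv y hyΩ (-(σ t))
        rwa [neg_smul, ← sub_eq_add_neg] at this
      have hyV : y ∈ V := by
        refine ⟨hWy, lt_of_le_of_ne (hVe y hy1) fun heq => ?_⟩
        have h1 := hunif y ⟨hyΩ, subset_closure ⟨hWy, heq⟩⟩ (σ t) (hσabs t hy2.1)
        have h2 := mul_le_mul_of_nonneg_right (hMge t hy2.1) (hψ0 (y - σ t • e))
        linarith
      refine ⟨mem_univ _, hyΩ', ?_⟩
      have ht0 : 0 < t := by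
        refine lt_of_le_of_ne hy2.1 fun h0 => ?_
        rw [← h0, hM0, hσ0] at hviol
        have hWL : 0 < W (y - L0 • e) := by
          by_contra h5
          push Not at h5
          have := mul_nonpos_of_nonneg_of_nonpos (Real.exp_pos (-(lam * L0))).le h5
          linarith [hyV.2]
        have h1 := log_conc hp hW.qs (x := y) (y := y - L0 • e) hWy hWL (s := s / L0)
          (by positivity) ((div_le_one hL0).2 hsL)
        have e1 : (1 - s / L0) • y + (s / L0) • (y - L0 • e) = y - s • e := by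
          rw [sub_smul, one_smul, smul_sub, smul_smul, div_mul_cancel₀ _ hL0.ne']
          abel
        rw [e1] at h1
        have h2 : Real.exp (lam * L0) * W y ≤ W (y - L0 • e) := by
          have h3 := hyV.2.le
          have h4 := mul_le_mul_of_nonneg_left h3 (Real.exp_pos (lam * L0)).le
          rw [← mul_assoc, ← Real.exp_add, add_neg_cancel, Real.exp_zero, one_mul] at h4
          exact h4
        have h3 := VPT_pow hWy hWL (b := s / L0) (by positivity) h2
        have e2 : lam * L0 * (s / L0) = lam * s := by field_simp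
        rw [e2] at h3
        have h4 := h3.trans h1
        have h5 := mul_le_mul_of_nonneg_left h4 (Real.exp_pos (-(lam * s))).le
        rw [← mul_assoc, ← Real.exp_add, neg_add_cancel, Real.exp_zero, one_mul] at h5
        have h6 := mul_le_mul_of_nonneg_left (hψ.le (y - s • e)) (Real.exp_pos (-(lam * s))).le
        linarith
      obtain ⟨r1, hr1, hr1b⟩ := Metric.isOpen_iff.1 hVo y hyV
      refine ⟨min r1 t, lt_min hr1 ht0, fun z t' hz ht1 ht2 => ⟨?_, ?_, ?_⟩⟩
      · refine subset_closure (hr1b ?_)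
        rw [mem_ball, dist_eq_norm]
        exact hz.trans_le (min_le_left _ _)
      · show 0 ≤ t'
        linarith [min_le_right r1 t]
      · exact ht2.trans hy2.2
  intro x hx
  by_cases hWx : 0 < W x
  · have hxV : x ∈ V := by
      refine ⟨hWx, ?_⟩
      by_contra h
      push Not at h
      exact hx ⟨hWx, h⟩
    have hlim : Tendsto (fun τ => M τ * ψ (x - σ τ • e)) atTop (𝓝 (1 * ψ (x + δ • e))) := by
      refine hMlim.mul ((hψ.sup.cont.tendsto _).comp ?_)
      have e3 : s + c * (p - 2) * -(lam * s) = -δ := by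
        have : a * s = δ := by rw [hs]; field_simp
        rw [ha] at this
        linarith
      rw [e3] at hσlim
      have h1 : Tendsto (fun τ => x - σ τ • e) atTop (𝓝 (x - (-δ) • e)) :=
        tendsto_const_nhds.sub (hσlim.smul_const e)
      rwa [neg_smul, sub_neg_eq_add] at h1
    rw [one_mul] at hlim
    exact ge_of_tendsto hlim ((eventually_ge_atTop 0).mono fun τ hτ => hmain x hxV τ hτ)
  · push Not at hWx
    exact hWx.trans (hψ0 _)

end Pool.Agent.TWC
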