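import Pool.Agent.TWC.Defs2
import Pool.Agent.TWC.PER
import Pool.Agent.TWC.LB
import Pool.Agent.TWC.PHI
import Pool.Agent.TWC.JTA

/-!
# TWC WA: the maximal subsolution `W = WW p c e Φ` belongs to the family `FF`

* `0 ∈ FF` (`uj_zero`, `pA_zero`). All `w ∈ FF` satisfy `0 ≤ w ≤ Φ ≤ C` (`phi_bdd`), vanish off `Ω`.
* Bound at the plate: let `M ≥ C`, `M^(p-2) ≥ C0` (`lb` constants for `b = c e`, `κ = ka p`, `r = 1`). For
  `-1/K1 ≤ <x,e> ≤ 0` put `b0 = x - <x,e> e` (height `0`), `ν = -e`: `w x ≤ C1 M (-<x,e>)` for all `w ∈ FF`.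
* `ww_mem`: `V x = sSup {w x | w ∈ FF}`, `W = uenv V`. `Sub`: `per` with `O = univ`, `uenv_usc`; `W ≥ V ≥ 0`.
  `W ≤ Φ`: `V ≤ Φ`, `Φ` continuous (`uenv_le_of` with `a = Φ x + ε`). `W x = 0` for `<x,e> ≥ 0`: near `x`,
  `V y ≤ C1 M max (-<y,e>) 0 ≤ ε`.
* `ww_max`: `w x ≤ V x ≤ W x` (`le_uenv`).
* `ff_shift`: for `w ∈ FF`, `t ≥ 0`: `x ↦ w (x + t e) ∈ FF` (`uj_shift`; `Φ (x + t e) = Φ x`; height
  `<x + t e, e> = <x,e> + t`). Hence `ww_mono` by `ww_mem`, `ww_max`.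
-/

open Set Metric Filter Topology
open scoped RealInnerProductSpace

noncomputable section

namespace Pool.Agent.TWC

variable {n : ℕ} {p c : ℝ} {e : E n} {r0 : ℝ} {Ω : Set (E n)} {Φ : E n → ℝ}

private theorem WA_bdd {C : ℝ} (hC : ∀ x, Φ x ≤ C) (x : E n) :
    BddAbove {a | ∃ w ∈ FF p c e Φ, w x = a} := by
  refine ⟨C, ?_⟩
  rintro a ⟨w, hw, rfl⟩
  exact (hw.2.1 x).trans (hC x)

private theorem WA_le {w : E n → ℝ} (hw : w ∈ FF p c e Φ) {C : ℝ} (hC : ∀ x, Φ x ≤ C) (x : E n) :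
    w x ≤ sSup {a | ∃ w ∈ FF p c e Φ, w x = a} :=
  le_csSup (WA_bdd hC x) ⟨w, hw, rfl⟩

private theorem WA_zero (hp : 2 < p) (hΦ : Prof p c e Ω Φ) :
    (fun _ => (0 : ℝ)) ∈ FF p c e Φ := by
  refine ⟨⟨fun _ => le_rfl, upperSemicontinuous_const, ?_⟩, hΦ.nn, fun _ _ => rfl⟩
  intro x _ P X h
  obtain ⟨h1, _⟩ := uj_zero (fun _ => le_rfl) rfl h
  have h2 : pA p (0 : E n) X = 0 := by
    have : p - 2 ≠ 0 := by linarith
    simp [pA, Real.zero_rpow this]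
  rw [h1, h2, inner_zero_right]
  simp

/-- The bound near the plate. -/
private theorem WA_plate (hp : 2 < p) (hΩ : Tube e r0 Ω) {C : ℝ} (hC0 : 0 < C)
    (hC : ∀ x, Φ x ≤ C) : ∃ A δ : ℝ, 0 < A ∧ 0 < δ ∧ ∀ w ∈ FF p c e Φ, ∀ y : E n, ∀ s : ℝ,
      0 ≤ s → s ≤ δ → -s ≤ ⟪y, e⟫ → w y ≤ A * s := by
  have hκ : 0 ≤ ka p := by
    unfold ka
    exact div_nonneg zero_le_one (by linarith)
  obtain ⟨C0, C1, K1, hC0', hC1, hK1, H⟩ := lb hp (c • e) hκ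
  have hee : ⟪e, e⟫ = 1 := by
    rw [real_inner_self_eq_norm_sq, hΩ.unit, one_pow]
  set M := max C (C0 ^ (1 / (p - 2))) with hM
  have hMpos : 0 < M := lt_of_lt_of_le hC0 (le_max_left _ _)
  refine ⟨C1 * M, 1 / K1, by positivity, by positivity, ?_⟩
  intro w hw y s hs hsK hy
  by_cases hy0 : 0 ≤ ⟪y, e⟫
  · rw [hw.2.2 y hy0]; positivity
  push Not at hy0
  have h1 := H (ka p) hκ le_rfl w hw.1 (y - ⟪y, e⟫ • e) (-e) 1 M (by rw [norm_neg, hΩ.unit])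
    one_pos le_rfl hMpos ?_ ?_ ?_ y ?_ ?_
  · have h2 : ⟪y - (y - ⟪y, e⟫ • e), -e⟫ = -⟪y, e⟫ := by
      rw [sub_sub_cancel, inner_neg_right, real_inner_smul_left, hee, mul_one]
    rw [h2, div_one] at h1
    refine h1.trans (mul_le_mul_of_nonneg_left (by linarith) (by positivity))
  · rw [mul_one, div_one]
    have h3 : C0 = (C0 ^ (1 / (p - 2))) ^ (p - 2) := by
      rw [← Real.rpow_mul hC0'.le, one_div, inv_mul_cancel₀ (by linarith), Real.rpow_one]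
    calc C0 = (C0 ^ (1 / (p - 2))) ^ (p - 2) := h3
      _ ≤ M ^ (p - 2) := Real.rpow_le_rpow (by positivity) (le_max_right _ _) (by linarith)
  · intro x _
    exact (hw.2.1 x).trans ((hC x).trans (le_max_left _ _))
  · intro x _ hx
    apply hw.2.2
    have h2 : ⟪x - (y - ⟪y, e⟫ • e), -e⟫ = -⟪x, e⟫ := by
      rw [inner_neg_right, inner_sub_left, inner_sub_left, real_inner_smul_left, hee]
      ring
    rw [h2] at hx
    linarith
  · rw [mem_closedBall, dist_eq_norm, sub_sub_cancel, norm_smul, hΩ.unit, mul_one,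
      Real.norm_eq_abs, abs_of_neg hy0]
    linarith
  · have h2 : ⟪y - (y - ⟪y, e⟫ • e), -e⟫ = -⟪y, e⟫ := by
      rw [sub_sub_cancel, inner_neg_right, real_inner_smul_left, hee, mul_one]
    rw [h2]; linarith

theorem ww_mem (hp : 2 < p) (hΩ : Tube e r0 Ω) (hΦ : Prof p c e Ω Φ) :
    WW p c e Φ ∈ FF p c e Φ := by
  obtain ⟨C, hC0, hC⟩ := phi_bdd hΩ hΦ
  have hz := WA_zero hp hΦ
  set V : E n → ℝ := fun x => sSup {a | ∃ w ∈ FF p c e Φ, w x = a} with hV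
  have hVΦ : ∀ x, V x ≤ Φ x := by
    intro x
    refine csSup_le ⟨0, _, hz, rfl⟩ ?_
    rintro a ⟨w, hw, rfl⟩
    exact hw.2.1 x
  have hV0 : ∀ x, 0 ≤ V x := fun x => WA_le hz hC x
  have hVC : ∃ C, ∀ x, V x ≤ C := ⟨C, fun x => (hVΦ x).trans (hC x)⟩
  have hW : WW p c e Φ = uenv V := rfl
  have hW0 : ∀ x, 0 ≤ uenv V x := fun x => (hV0 x).trans (le_uenv hVC x)
  rw [hW]
  refine ⟨⟨hW0, uenv_usc hV0 hVC, ?_⟩, ?_, ?_⟩
  · exact per hp (F := FF p c e Φ) ⟨_, hz⟩ (fun w hw x => (hw.2.1 x).trans (hC x))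
      (fun w hw => hw.1.nn) (fun w hw => hw.1.usc) isOpen_univ (fun w hw => hw.1.sb)
  · intro x
    refine le_of_forall_pos_le_add fun ε hε => ?_
    refine uenv_le_of hV0 ?_
    have h1 := Metric.continuous_iff.1 hΦ.cont x ε hε
    obtain ⟨r, hr, H⟩ := h1
    refine ⟨r, hr, fun y hy => ?_⟩
    have h2 := H y (by rw [dist_eq_norm]; exact hy)
    rw [Real.dist_eq] at h2
    have h3 := (abs_lt.1 h2).2
    linarith [hVΦ y]
  · intro x hx
    obtain ⟨A, δ, hA, hδ, H⟩ := WA_plate (c := c) (Φ := Φ) hp hΩ hC0 hC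
    refine le_antisymm ?_ (hW0 x)
    refine le_of_forall_pos_le_add fun ε hε => ?_
    rw [zero_add]
    refine uenv_le_of hV0 ?_
    set s := min δ (ε / A) with hs
    have hs0 : 0 < s := lt_min hδ (by positivity)
    refine ⟨s, hs0, fun y hy => ?_⟩
    refine csSup_le ⟨0, _, hz, rfl⟩ ?_
    rintro a ⟨w, hw, rfl⟩
    have h1 : -s ≤ ⟪y, e⟫ := by
      have h2 : |⟪y - x, e⟫| ≤ ‖y - x‖ * ‖e‖ := abs_real_inner_le_norm _ _
      rw [hΩ.unit, mul_one, inner_sub_left] at h2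
      have h3 := (abs_le.1 h2).1
      linarith
    have h2 := H w hw y s hs0.le (min_le_left _ _) h1
    have h3 : A * s ≤ ε := by
      have : s ≤ ε / A := min_le_right _ _
      rw [le_div_iff₀ hA] at this
      linarith
    exact h2.trans h3

theorem ww_max (hΩ : Tube e r0 Ω) (hΦ : Prof p c e Ω Φ) {w : E n → ℝ} (hw : w ∈ FF p c e Φ) :
    ∀ x, w x ≤ WW p c e Φ x := by
  obtain ⟨C, hC0, hC⟩ := phi_bdd hΩ hΦ
  intro x
  refine (WA_le hw hC x).trans ?_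
  refine le_uenv (f := fun x => sSup {a | ∃ w ∈ FF p c e Φ, w x = a}) ⟨C, fun y => ?_⟩ x
  refine Real.sSup_le ?_ hC0.le
  rintro a ⟨w, hw, rfl⟩
  exact (hw.2.1 y).trans (hC y)

private theorem WA_shift (hΩ : Tube e r0 Ω) (hΦ : Prof p c e Ω Φ) {w : E n → ℝ}
    (hw : w ∈ FF p c e Φ) {t : ℝ} (ht : 0 ≤ t) : (fun x => w (x + t • e)) ∈ FF p c e Φ := by
  have hee : ⟪e, e⟫ = 1 := by
    rw [real_inner_self_eq_norm_sq, hΩ.unit, one_pow]
  refine ⟨⟨fun x => hw.1.nn _, ?_, ?_⟩, ?_, ?_⟩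
  · exact hw.1.usc.comp (continuous_id.add continuous_const)
  · intro x _ P X h
    have h1 : UJ (fun y => w (y - -(t • e))) x P X := by simpa [sub_neg_eq_add] using h
    have h2 := (uj_shift (-(t • e))).1 h1
    rw [sub_neg_eq_add] at h2
    exact hw.1.sb _ (mem_univ _) P X h2
  · intro x
    have := hw.2.1 (x + t • e)
    rwa [hΦ.inv] at this
  · intro x hx
    apply hw.2.2
    rw [inner_add_left, real_inner_smul_left, hee]
    linarith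

theorem ww_mono (hp : 2 < p) (hΩ : Tube e r0 Ω) (hΦ : Prof p c e Ω Φ) :
    ∀ x, ∀ t : ℝ, 0 ≤ t → WW p c e Φ (x + t • e) ≤ WW p c e Φ x := by
  intro x t ht
  exact ww_max hΩ hΦ (WA_shift hΩ hΦ (ww_mem hp hΩ hΦ) ht) x

end Pool.Agent.TWC
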