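import Pool.Agent.TWC.WA
import Pool.Agent.TWC.PHIQ
import Pool.Agent.TWC.SL

/-!
# TWC WB: `W` is q-concave on the closure of its support

`K = closure (Po W)`, `0 < t < 1`, `w = env p K W t`.
* `K ⊆ closure Ω ∩ {<x,e> ≤ 0}`.
* `Hcpt K W t` (pairs themselves are bounded): `<y,e>, <z,e> ≤ 0`, `t <y,e> + (1-t)<z,e> = <x,e> ≥ -R` give
  `<y,e> ≥ -R/t`, `<z,e> ≥ -R/(1-t)`, and the cross section is bounded.
* `hS`: `sl` (here `c > 0`; `W` monotone, `W = 0` for heights `≥ 0`).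
* `env_sub`: `w` is a subsolution. `w ≤ Φ`: `phi_q` and `W ≤ Φ` (for `x` without pairs `w x = 0 ≤ Φ x`; use
  `env_attained` or the definition of the supremum). `w x = 0` if `<x,e> ≥ 0`: a pair has both heights
  `= 0`, so `W y = W z = 0`. So `w ∈ FF`, `w ≤ W` (`ww_max`), and `env_ge` gives the claim after taking
  powers `q`.
-/

open Set Metric Filter Topology
open scoped RealInnerProductSpace

noncomputable section

namespace Pool.Agent.TWC

variable {n : ℕ} {p c : ℝ} {e : E n} {r0 : ℝ} {Ω : Set (E n)} {Φ : E n → ℝ}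

private theorem WB_qm (hp : 2 < p) : 0 < qq p ∧ 0 < mm p ∧ qq p * mm p = 1 := by
  unfold qq mm
  have h1 : 0 < p - 2 := by linarith
  have h2 : 0 < p := by linarith
  refine ⟨by positivity, by positivity, ?_⟩
  field_simp

private theorem WB_sub (hp : 2 < p) (hΩ : Tube e r0 Ω) (hΦ : Prof p c e Ω Φ) {x : E n}
    (hx : x ∈ closure (Po (WW p c e Φ))) : x ∈ closure Ω ∧ ⟪x, e⟫ ≤ 0 := by
  obtain ⟨h1, h2, h3⟩ := ww_mem hp hΩ hΦ
  have h4 : Po (WW p c e Φ) ⊆ Ω := by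
    intro y hy
    by_contra hn
    have := h2 y
    rw [hΦ.off y hn] at this
    exact absurd (show 0 < WW p c e Φ y from hy) (not_lt.2 this)
  have h5 : Po (WW p c e Φ) ⊆ {y : E n | ⟪y, e⟫ ≤ 0} := by
    intro y hy
    by_contra hn
    have h6 : 0 ≤ ⟪y, e⟫ := (not_le.1 hn).le
    have := h3 y h6
    exact absurd (show 0 < WW p c e Φ y from hy) (by rw [this]; exact lt_irrefl _)
  have h6 : IsClosed {y : E n | ⟪y, e⟫ ≤ 0} := isClosed_le (by fun_prop) continuous_const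
  exact ⟨closure_mono h4 hx, closure_minimal h5 h6 hx⟩

private theorem WB_bdd (hΩ : Tube e r0 Ω) : ∃ R, ∀ x ∈ closure Ω, ‖x‖ ≤ R + |⟪x, e⟫| := by
  obtain ⟨R, hR⟩ := hΩ.bdd
  refine ⟨R, fun x hx => ?_⟩
  have hc : IsClosed {x : E n | ‖x - ⟪x, e⟫ • e‖ ≤ R} :=
    isClosed_le (by fun_prop) continuous_const
  have h1 : ‖x - ⟪x, e⟫ • e‖ ≤ R := closure_minimal (fun y hy => hR y hy) hc hx
  have h2 : ‖x‖ ≤ ‖x - ⟪x, e⟫ • e‖ + ‖⟪x, e⟫ • e‖ := by
    have e1 : x = (x - ⟪x, e⟫ • e) + ⟪x, e⟫ • e := by abel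
    nth_rewrite 1 [e1]
    exact norm_add_le _ _
  rw [norm_smul, hΩ.unit, mul_one, Real.norm_eq_abs] at h2
  linarith

private theorem WB_inner {y z x : E n} {t : ℝ} (h : t • y + (1 - t) • z = x) :
    ⟪x, e⟫ = t * ⟪y, e⟫ + (1 - t) * ⟪z, e⟫ := by
  rw [← h, inner_add_left, real_inner_smul_left, real_inner_smul_left]

private theorem WB_cpt (hp : 2 < p) (hΩ : Tube e r0 Ω) (hΦ : Prof p c e Ω Φ) {t : ℝ} (ht : 0 < t)
    (ht1 : t < 1) : Hcpt (closure (Po (WW p c e Φ))) (WW p c e Φ) t := by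
  intro R
  obtain ⟨B, hB⟩ := WB_bdd hΩ
  have ht2 : 0 < 1 - t := by linarith
  refine ⟨B + |R| / t + |R| / (1 - t), fun x hx y hy z hz hxyz => ?_⟩
  have hy' := WB_sub hp hΩ hΦ hy
  have hz' := WB_sub hp hΩ hΦ hz
  have h1 := WB_inner (e := e) hxyz
  have h2 : -|R| ≤ ⟪x, e⟫ := by
    have h3 := abs_real_inner_le_norm x e
    rw [hΩ.unit, mul_one] at h3
    have h4 := neg_abs_le ⟪x, e⟫
    have h5 := le_abs_self R
    linarith
  have hRt : 0 ≤ |R| / t := by positivity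
  have hRt' : 0 ≤ |R| / (1 - t) := by positivity
  have h3 : |⟪y, e⟫| ≤ |R| / t := by
    rw [abs_of_nonpos hy'.2, le_div_iff₀ ht]
    nlinarith [hz'.2]
  have h4 : |⟪z, e⟫| ≤ |R| / (1 - t) := by
    rw [abs_of_nonpos hz'.2, le_div_iff₀ ht2]
    nlinarith [hy'.2]
  refine ⟨y, hy, z, hz, hxyz, ?_, ?_, le_rfl, le_rfl⟩
  · have := hB y hy'.1
    linarith
  · have := hB z hz'.1
    linarith

theorem ww_q (hp : 2 < p) (hc : 0 < c) (hΩ : Tube e r0 Ω) (hne : (Ωᶜ).Nonempty)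
    (hΦ : Prof p c e Ω Φ) {y z : E n} (hy : y ∈ closure (Po (WW p c e Φ)))
    (hz : z ∈ closure (Po (WW p c e Φ))) {t : ℝ} (ht : 0 < t) (ht1 : t < 1) :
    t * WW p c e Φ y ^ qq p + (1 - t) * WW p c e Φ z ^ qq p ≤
      WW p c e Φ (t • y + (1 - t) • z) ^ qq p := by
  obtain ⟨hq, hm, hqm⟩ := WB_qm hp
  have ht2 : 0 < 1 - t := by linarith
  have hmem := ww_mem hp hΩ hΦ
  obtain ⟨hs, hle, hr⟩ := hmem
  obtain ⟨C, hC, hΦC⟩ := phi_bdd hΩ hΦ
  have hbd : ∃ C, ∀ x, WW p c e Φ x ≤ C := ⟨C, fun x => (hle x).trans (hΦC x)⟩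
  have hoff : ∀ x ∉ closure (Po (WW p c e Φ)), WW p c e Φ x = 0 := by
    intro x hx
    refine le_antisymm ?_ (hs.nn x)
    by_contra hcon
    exact hx (subset_closure (not_le.1 hcon))
  have hS : ∀ z ∈ closure (Po (WW p c e Φ)), WW p c e Φ z = 0 → ∀ A > 0, ∀ r > 0,
      ∃ x, ‖x - z‖ < r ∧ A * ‖x - z‖ ^ mm p < WW p c e Φ x := by
    intro z hz _ A hA r hr'
    exact sl hp hc hΩ.unit hs (ww_mono hp hΩ hΦ) ⟨0, hr⟩ hz hA hr'
  have hκ : 0 ≤ ka p := by
    unfold ka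
    have : 0 < p - 2 := by linarith
    positivity
  have hcpt := WB_cpt hp hΩ hΦ ht ht1
  have hsub := env_sub hp hκ isClosed_closure hs hbd hoff ht ht1 hcpt hS
  have hwF : env p (closure (Po (WW p c e Φ))) (WW p c e Φ) t ∈ FF p c e Φ := by
    refine ⟨hsub, fun x => ?_, fun x hx => ?_⟩
    · unfold env
      refine csSup_le ⟨0, Or.inl rfl⟩ ?_
      rintro a (rfl | ⟨y', hy', z', hz', hyz, rfl⟩)
      · exact hΦ.nn x
      · have h1 := phi_q hp hc.le hΩ hne hΦ (WB_sub hp hΩ hΦ hy').1 (WB_sub hp hΩ hΦ hz').1 ht ht1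
        rw [hyz] at h1
        have h2 : WW p c e Φ y' ^ qq p ≤ Φ y' ^ qq p :=
          Real.rpow_le_rpow (hs.nn _) (hle _) hq.le
        have h3 : WW p c e Φ z' ^ qq p ≤ Φ z' ^ qq p :=
          Real.rpow_le_rpow (hs.nn _) (hle _) hq.le
        have h4 : 0 ≤ WW p c e Φ y' ^ qq p := Real.rpow_nonneg (hs.nn _) _
        have h5 : 0 ≤ WW p c e Φ z' ^ qq p := Real.rpow_nonneg (hs.nn _) _
        have h6 : t * WW p c e Φ y' ^ qq p + (1 - t) * WW p c e Φ z' ^ qq p ≤ Φ x ^ qq p := by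
          have a1 := mul_le_mul_of_nonneg_left h2 ht.le
          have a2 := mul_le_mul_of_nonneg_left h3 ht2.le
          linarith
        calc (t * WW p c e Φ y' ^ qq p + (1 - t) * WW p c e Φ z' ^ qq p) ^ mm p
            ≤ (Φ x ^ qq p) ^ mm p := Real.rpow_le_rpow (by positivity) h6 hm.le
          _ = Φ x := by rw [← Real.rpow_mul (hΦ.nn x), hqm, Real.rpow_one]
    · refine le_antisymm ?_ (env_nonneg hp hs.nn hbd ht ht1 x)
      unfold env
      refine csSup_le ⟨0, Or.inl rfl⟩ ?_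
      rintro a (rfl | ⟨y', hy', z', hz', hyz, rfl⟩)
      · exact le_rfl
      · have h1 := (WB_sub hp hΩ hΦ hy').2
        have h2 := (WB_sub hp hΩ hΦ hz').2
        have h3 := WB_inner (e := e) hyz
        have h4 : 0 ≤ ⟪y', e⟫ := by
          by_contra hcon
          push Not at hcon
          have a1 := mul_neg_of_pos_of_neg ht hcon
          have a2 := mul_nonpos_of_nonneg_of_nonpos ht2.le h2
          linarith
        have h5 : 0 ≤ ⟪z', e⟫ := by
          by_contra hcon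
          push Not at hcon
          have a1 := mul_neg_of_pos_of_neg ht2 hcon
          have a2 := mul_nonpos_of_nonneg_of_nonpos ht.le h1
          linarith
        rw [hr y' h4, hr z' h5, Real.zero_rpow hq.ne', mul_zero, mul_zero, add_zero,
          Real.zero_rpow hm.ne']
  have h1 := ww_max hΩ hΦ hwF (t • y + (1 - t) • z)
  have h2 := env_ge (p := p) hp hs.nn hbd ht ht1 hy hz
  have h3 := h2.trans h1
  have h4 : 0 ≤ WW p c e Φ y ^ qq p := Real.rpow_nonneg (hs.nn _) _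
  have h5 : 0 ≤ WW p c e Φ z ^ qq p := Real.rpow_nonneg (hs.nn _) _
  have h6 : 0 ≤ t * WW p c e Φ y ^ qq p + (1 - t) * WW p c e Φ z ^ qq p := by positivity
  have h7 := Real.rpow_le_rpow (Real.rpow_nonneg h6 _) h3 hq.le
  rwa [← Real.rpow_mul h6, mul_comm (mm p), hqm, Real.rpow_one] at h7

end Pool.Agent.TWC
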