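import Pool.Agent.TWC.WB

/-!
# TWC WC: the support of `W` is open and convex, `W` is continuous

Assume that some continuous `φ ∈ FF` is positive somewhere. Let `W = WW`, `K = closure (Po W)`.
* `Po W` is convex and `W^q` is concave on it (`ww_q`; value `≥` a positive combination).
* `Po W = interior K`. (⊇) `x ∈ interior K`: take `y ∈ Po W`, `y ≠ x` (or `x` itself), and `z ∈ K` with
  `x = t y + (1-t) z`, `0 < t < 1` (go slightly beyond `x`): `W(x)^q ≥ t W(y)^q > 0`. (⊆) let `x ∈ K`,
  `x ∉ interior K`; `K` is convex with nonempty interior (`{φ > 0}` is open, nonempty, contained in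
  `Po W`), so there is a supporting functional: a unit vector `ν` with `<y-x,ν> ≥ 0` on `K`
  (separate `x` from the open convex set `interior K`, then closure: `K = closure (interior K)`,
  `Convex.closure_interior_eq_closure_of_nonempty_interior`). `lb` with `b0 = x`, `r = 1`,
  `M ≥ sup Φ`, `M^(p-2) ≥ C0`: at `x` itself `<x-x,ν> = 0`: `W x ≤ 0`. (`W = 0` where `<y-x,ν> ≤ 0`: such
  `y ∈ Po W` would be in `K`, so `<y-x,ν> = 0`; hmm: apply this to the open set: for `y` in
  `interior K` one has `<y-x,ν> > 0`; a point `y ∈ Po W` with `<y-x,ν> = 0` is possible a priori. So argue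
  with `ν`-shifted points: for `ε > 0` use `b0 = x - ε ν`: every `y ∈ K` has `<y-b0,ν> ≥ ε > 0`, so
  `W = 0` on `{<y-b0,ν> ≤ 0}` and `lb` gives `W x ≤ C1 M ε`; let `ε → 0`.)
* `lin`: for `x ∈ Po W` let `b0` be a nearest point of the closed set `(Po W)ᶜ`, `s = |x-b0| =
  infDist`, `ν = (x-b0)/s`. `Po W` open convex, `b0 ∉ Po W`: separating unit vector `μ` with
  `<y-b0,μ> > 0` on `Po W ⊇ ball x s`, hence `μ = ν`. If `s ≤ 1/K1`: `lb` (`b0`, `ν`, `r = 1`):
  `W x ≤ C1 M s`; otherwise `W x ≤ M ≤ M K1 s`. For `x ∉ Po W` it is `0`.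
* continuity: on `Po W` (open) the concave function `W^q` is continuous, so is `W = (W^q)^m`. At
  `x ∉ Po W`: `0 ≤ W y ≤ C infDist y (Po W)ᶜ ≤ C |y-x|`.
-/

open Set Metric Filter Topology
open scoped RealInnerProductSpace

noncomputable section

namespace Pool.Agent.TWC

variable {n : ℕ} {p c : ℝ} {e : E n} {r0 : ℝ} {Ω : Set (E n)} {Φ : E n → ℝ}

/-- Separation of a point from an open convex set by a unit vector. -/
private theorem wc_sep {S : Set (E n)} (hS : Convex ℝ S) (hO : IsOpen S) (hne : S.Nonempty)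
    {b : E n} (hb : b ∉ S) : ∃ ν : E n, ‖ν‖ = 1 ∧ ∀ a ∈ S, 0 < ⟪a - b, ν⟫ := by
  obtain ⟨f, hf⟩ := geometric_hahn_banach_open_point hS hO hb
  set v : E n := (InnerProductSpace.toDual ℝ (E n)).symm f with hv
  have hfv : ∀ x, f x = ⟪v, x⟫ := fun x => (InnerProductSpace.toDual_symm_apply).symm
  have hv0 : v ≠ 0 := by
    intro h
    obtain ⟨a, ha⟩ := hne
    have := hf a ha
    rw [hfv, hfv, h, inner_zero_left, inner_zero_left] at this
    exact lt_irrefl _ this
  have hvn : 0 < ‖v‖ := norm_pos_iff.2 hv0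
  refine ⟨(-‖v‖⁻¹) • v, ?_, fun a ha => ?_⟩
  · rw [norm_smul, norm_neg, norm_inv, norm_norm]
    exact inv_mul_cancel₀ hvn.ne'
  · have h1 := hf a ha
    rw [hfv, hfv] at h1
    rw [real_inner_smul_right, inner_sub_left, real_inner_comm, real_inner_comm v b]
    have h2 : 0 < ‖v‖⁻¹ := inv_pos.2 hvn
    have h3 : -‖v‖⁻¹ * (⟪v, a⟫ - ⟪v, b⟫) = ‖v‖⁻¹ * (⟪v, b⟫ - ⟪v, a⟫) := by ring
    rw [h3]
    exact mul_pos h2 (by linarith)

theorem ww_open (hp : 2 < p) (hc : 0 < c) (hΩ : Tube e r0 Ω) (hne : (Ωᶜ).Nonempty)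
    (hΦ : Prof p c e Ω Φ) (hφ : ∃ φ ∈ FF p c e Φ, Continuous φ ∧ ∃ x, 0 < φ x) :
    IsOpen (Po (WW p c e Φ)) ∧ Convex ℝ (Po (WW p c e Φ)) ∧
      ConcaveOn ℝ (Po (WW p c e Φ)) (fun x => WW p c e Φ x ^ qq p) ∧
      (∃ C, ∀ x, WW p c e Φ x ≤ C * infDist x (Po (WW p c e Φ))ᶜ) ∧ Continuous (WW p c e Φ) := by
  have hq0 : 0 < qq p := by
    unfold qq
    exact div_pos (by linarith) (by linarith)
  obtain ⟨M0, hM0, hΦM⟩ := phi_bdd hΩ hΦ
  obtain ⟨hsub, hle, hri⟩ := ww_mem hp hΩ hΦ
  have hQ := fun (y z : E n) (hy) (hz) (t : ℝ) (ht) (ht1) =>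
    ww_q (y := y) (z := z) hp hc hΩ hne hΦ hy hz (t := t) ht ht1
  have hmax := fun w (hw : w ∈ FF p c e Φ) => ww_max hΩ hΦ hw
  generalize WW p c e Φ = W at *
  have hWM : ∀ x, W x ≤ M0 := fun x => (hle x).trans (hΦM x)
  have hnn : ∀ x, 0 ≤ W x := hsub.nn
  have hz0 : ∀ x, x ∉ Po W → W x = 0 := by
    intro x hx
    have : ¬ 0 < W x := hx
    exact le_antisymm (not_lt.1 this) (hnn x)
  obtain ⟨φ, hφF, hφc, x1, hx1⟩ := hφ
  have hφW : Po φ ⊆ Po W := fun x hx => lt_of_lt_of_le hx (hmax φ hφF x)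
  have hφo : IsOpen (Po φ) := isOpen_lt continuous_const hφc
  have hSne : (Po W).Nonempty := ⟨x1, hφW hx1⟩
  have hKint : (interior (closure (Po W))).Nonempty :=
    ⟨x1, mem_interior.2 ⟨Po φ, hφW.trans subset_closure, hφo, hx1⟩⟩
  -- positivity of powers
  have hpw : ∀ x, 0 < W x ^ qq p → 0 < W x := by
    intro x hx
    rcases (hnn x).lt_or_eq with h | h
    · exact h
    · rw [← h, Real.zero_rpow hq0.ne'] at hx
      exact absurd hx (lt_irrefl _)
  -- convexity
  have hconv : Convex ℝ (Po W) := by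
    rw [convex_iff_forall_pos]
    intro y hy z hz a b ha hb hab
    have hb' : b = 1 - a := by linarith
    have h1 := hQ y z (subset_closure hy) (subset_closure hz) a ha (by linarith)
    rw [← hb'] at h1
    have h2 : 0 < W y ^ qq p := Real.rpow_pos_of_pos hy _
    have h3 : 0 < W z ^ qq p := Real.rpow_pos_of_pos hz _
    refine hpw _ (lt_of_lt_of_le ?_ h1)
    positivity
  have hconc : ConcaveOn ℝ (Po W) (fun x => W x ^ qq p) := by
    refine ⟨hconv, fun y hy z hz a b ha hb hab => ?_⟩
    rcases ha.lt_or_eq with ha | ha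
    · rcases hb.lt_or_eq with hb | hb
      · have hb' : b = 1 - a := by linarith
        have h1 := hQ y z (subset_closure hy) (subset_closure hz) a ha (by linarith)
        rw [← hb'] at h1
        simpa only [smul_eq_mul] using h1
      · have ha1 : a = 1 := by linarith
        rw [← hb, ha1]
        simp
    · have hb1 : b = 1 := by linarith
      rw [← ha, hb1]
      simp
  -- linear bound with a supporting half space
  obtain ⟨C0, C1, K1, hC0, hC1, hK1, hlb⟩ := lb (n := n) hp (c • e) (κ := ka p) (by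
    unfold ka
    exact div_nonneg zero_le_one (by linarith))
  have hka : 0 ≤ ka p := by
    unfold ka
    exact div_nonneg zero_le_one (by linarith)
  have hp2 : 0 < p - 2 := by linarith
  set M : ℝ := max M0 (C0 ^ (1 / (p - 2))) with hM
  have hMM0 : M0 ≤ M := le_max_left _ _
  have hMpos : 0 < M := lt_of_lt_of_le hM0 hMM0
  have hMC : C0 * 1 ≤ (M / 1) ^ (p - 2) := by
    rw [mul_one, div_one]
    have h1 : (C0 ^ (1 / (p - 2))) ^ (p - 2) = C0 := by
      rw [← Real.rpow_mul hC0.le]
      have : 1 / (p - 2) * (p - 2) = 1 := by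
        field_simp
      rw [this, Real.rpow_one]
    calc C0 = (C0 ^ (1 / (p - 2))) ^ (p - 2) := h1.symm
      _ ≤ M ^ (p - 2) := Real.rpow_le_rpow (by positivity) (le_max_right _ _) hp2.le
  have key : ∀ (b0 ν : E n), ‖ν‖ = 1 → (∀ y ∈ Po W, 0 < ⟪y - b0, ν⟫) →
      ∀ x, ‖x - b0‖ ≤ 1 / K1 → 0 ≤ ⟪x - b0, ν⟫ → W x ≤ C1 * M * ⟪x - b0, ν⟫ := by
    intro b0 ν hν hy x hx hx0
    have := hlb (ka p) hka le_rfl W hsub b0 ν 1 M hν one_pos le_rfl hMpos hMC
      (fun y _ => (hWM y).trans hMM0) (fun y _ hy0 => hz0 y fun hyS => by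
        have := hy y hyS
        linarith) x (by rwa [mem_closedBall, dist_eq_norm]) hx0
    rwa [div_one] at this
  -- the support is open
  have hK : Convex ℝ (closure (Po W)) := hconv.closure
  have hKcl : closure (interior (closure (Po W))) = closure (Po W) := by
    have h := hK.closure_interior_eq_closure_of_nonempty_interior hKint
    rwa [closure_closure] at h
  have hsup : interior (closure (Po W)) ⊆ Po W := by
    intro x hx
    obtain ⟨y, hy⟩ := hSne
    by_cases hxy : x = y
    · rw [hxy]; exact hy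
    have hxy' : 0 < ‖x - y‖ := norm_pos_iff.2 (sub_ne_zero.2 hxy)
    obtain ⟨ρ, hρ, hb⟩ := Metric.mem_nhds_iff.1 (mem_interior_iff_mem_nhds.1 hx)
    set η : ℝ := ρ / (2 * ‖x - y‖) with hη
    have hη0 : 0 < η := by positivity
    have hz : x + η • (x - y) ∈ closure (Po W) := by
      apply hb
      rw [mem_ball, dist_eq_norm, add_sub_cancel_left, norm_smul, Real.norm_eq_abs,
        abs_of_pos hη0, hη]
      have : ρ / (2 * ‖x - y‖) * ‖x - y‖ = ρ / 2 := by field_simp
      rw [this]
      linarith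
    have ht0 : 0 < η / (1 + η) := by positivity
    have ht1 : η / (1 + η) < 1 := by
      rw [div_lt_one (by positivity)]
      linarith
    have h1 := hQ y (x + η • (x - y)) (subset_closure hy) hz (η / (1 + η)) ht0 ht1
    have h2 : (η / (1 + η)) • y + (1 - η / (1 + η)) • (x + η • (x - y)) = x := by
      have e1 : 1 - η / (1 + η) = 1 / (1 + η) := by
        field_simp
        ring
      have e2 : (1 + η) • ((η / (1 + η)) • y + (1 / (1 + η)) • (x + η • (x - y))) = (1 + η) • x := by
        rw [smul_add, smul_smul, smul_smul, mul_div_cancel₀ _ (by positivity : (1 + η) ≠ 0),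
          mul_one_div_cancel (by positivity : (1 + η) ≠ 0), one_smul, smul_sub, add_smul, one_smul]
        abel
      rw [e1]
      exact smul_right_injective _ (by positivity : (1 + η) ≠ 0) e2
    rw [h2] at h1
    refine hpw _ (lt_of_lt_of_le ?_ h1)
    have h3 : 0 < W y ^ qq p := Real.rpow_pos_of_pos hy _
    have h4 : 0 ≤ W (x + η • (x - y)) ^ qq p := Real.rpow_nonneg (hnn _) _
    have h5 : 0 < 1 - η / (1 + η) := by linarith
    have h6 : 0 < η / (1 + η) * W y ^ qq p := mul_pos ht0 h3
    have h7 : 0 ≤ (1 - η / (1 + η)) * W (x + η • (x - y)) ^ qq p := mul_nonneg h5.le h4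
    linarith
  have hsub2 : Po W ⊆ interior (closure (Po W)) := by
    intro x hx
    by_contra hxi
    obtain ⟨ν, hν, hνp⟩ := wc_sep hK.interior isOpen_interior hKint hxi
    have hν0 : ∀ y ∈ closure (Po W), 0 ≤ ⟪y - x, ν⟫ := by
      intro y hy
      rw [← hKcl] at hy
      have hcl : IsClosed {y : E n | 0 ≤ ⟪y - x, ν⟫} :=
        isClosed_le continuous_const ((continuous_id.sub continuous_const).inner continuous_const)
      exact closure_minimal (fun a ha => (hνp a ha).le) hcl hy
    have hK1pos : 0 < K1 := by linarith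
    -- the bound for all small shifts
    have hb : ∀ ε : ℝ, 0 < ε → ε ≤ 1 / K1 → W x ≤ C1 * M * ε := by
      intro ε hε hε1
      have hνν : ⟪ν, ν⟫ = (1 : ℝ) := by rw [real_inner_self_eq_norm_sq, hν]; norm_num
      have e1 : ∀ y : E n, ⟪y - (x - ε • ν), ν⟫ = ⟪y - x, ν⟫ + ε := by
        intro y
        have : y - (x - ε • ν) = (y - x) + ε • ν := by abel
        rw [this, inner_add_left, real_inner_smul_left, hνν, mul_one]
      have e2 : x - (x - ε • ν) = ε • ν := by abel
      have h1 := key (x - ε • ν) ν hν (fun y hy => by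
        rw [e1]
        have := hν0 y (subset_closure hy)
        linarith) x (by
        rw [e2, norm_smul, hν, mul_one, Real.norm_eq_abs, abs_of_pos hε]
        exact hε1) (by
        rw [e1, sub_self, inner_zero_left, zero_add]
        exact hε.le)
      rwa [e1, sub_self, inner_zero_left, zero_add] at h1
    have hWx : 0 < W x := hx
    have hCM : 0 < C1 * M := mul_pos hC1 hMpos
    set ε : ℝ := min (1 / K1) (W x / (2 * (C1 * M))) with hε
    have hε0 : 0 < ε := lt_min (by positivity) (by positivity)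
    have h1 := hb ε hε0 (min_le_left _ _)
    have h2 : ε ≤ W x / (2 * (C1 * M)) := min_le_right _ _
    have h3 : C1 * M * ε ≤ C1 * M * (W x / (2 * (C1 * M))) := by gcongr
    have h4 : C1 * M * (W x / (2 * (C1 * M))) = W x / 2 := by field_simp
    linarith
  have hopen : IsOpen (Po W) := by
    have : Po W = interior (closure (Po W)) := subset_antisymm hsub2 hsup
    rw [this]
    exact isOpen_interior
  -- the linear bound
  have hcl : IsClosed (Po W)ᶜ := hopen.isClosed_compl
  have hcne : ((Po W)ᶜ).Nonempty := by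
    refine ⟨0, fun h0 => ?_⟩
    have h1 : 0 < W 0 := h0
    rw [hri 0 (by rw [inner_zero_left])] at h1
    exact lt_irrefl _ h1
  have hlin : ∀ x, W x ≤ (C1 * M + M * K1) * infDist x (Po W)ᶜ := by
    intro x
    have hCM : 0 < C1 * M := mul_pos hC1 hMpos
    have hMK : 0 < M * K1 := mul_pos hMpos (by linarith)
    have hd0 : 0 ≤ infDist x (Po W)ᶜ := infDist_nonneg
    by_cases hx : x ∈ Po W
    · obtain ⟨b0, hb0, hd⟩ := hcl.exists_infDist_eq_dist hcne x
      obtain ⟨μ, hμ, hμp⟩ := wc_sep hconv hopen hSne hb0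
      rw [dist_eq_norm] at hd
      by_cases hs : ‖x - b0‖ ≤ 1 / K1
      · have h1 := key b0 μ hμ hμp x hs (hμp x hx).le
        have h2 : ⟪x - b0, μ⟫ ≤ ‖x - b0‖ := by
          have := real_inner_le_norm (x - b0) μ
          rwa [hμ, mul_one] at this
        calc W x ≤ C1 * M * ⟪x - b0, μ⟫ := h1
          _ ≤ C1 * M * ‖x - b0‖ := by gcongr
          _ = C1 * M * infDist x (Po W)ᶜ := by rw [hd]
          _ ≤ (C1 * M + M * K1) * infDist x (Po W)ᶜ := by
              apply mul_le_mul_of_nonneg_right _ hd0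
              linarith
      · push Not at hs
        rw [← hd] at hs
        have h1 : 1 ≤ K1 * infDist x (Po W)ᶜ := by
          rw [div_lt_iff₀ (by linarith)] at hs
          linarith
        calc W x ≤ M := (hWM x).trans hMM0
          _ = M * 1 := by ring
          _ ≤ M * (K1 * infDist x (Po W)ᶜ) := by gcongr
          _ = M * K1 * infDist x (Po W)ᶜ := by ring
          _ ≤ (C1 * M + M * K1) * infDist x (Po W)ᶜ := by
              apply mul_le_mul_of_nonneg_right _ hd0
              linarith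
    · rw [hz0 x hx]
      positivity
  refine ⟨hopen, hconv, hconc, ⟨_, hlin⟩, ?_⟩
  -- continuity
  rw [continuous_iff_continuousAt]
  intro x
  by_cases hx : x ∈ Po W
  · have h1 : ContinuousOn (fun x => W x ^ qq p) (Po W) := hconc.continuousOn hopen
    have h2 : ContinuousAt (fun x => W x ^ qq p) x := h1.continuousAt (hopen.mem_nhds hx)
    have h3 : ContinuousAt (fun x => (W x ^ qq p) ^ (1 / qq p)) x :=
      h2.rpow_const (Or.inr (by positivity))
    refine h3.congr (Eventually.of_forall fun y => ?_)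
    show (W y ^ qq p) ^ (1 / qq p) = W y
    rw [← Real.rpow_mul (hnn y), mul_one_div_cancel hq0.ne', Real.rpow_one]
  · have hWx := hz0 x hx
    rw [Metric.continuousAt_iff']
    intro ε hε
    set C := C1 * M + M * K1 with hC
    have hCpos : 0 < C := by
      have h1 : 0 < C1 * M := mul_pos hC1 hMpos
      have h2 : 0 < M * K1 := mul_pos hMpos (by linarith)
      linarith
    have hev : ∀ᶠ y in 𝓝 x, dist y x < ε / C := Metric.ball_mem_nhds x (by positivity)
    filter_upwards [hev] with y hy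
    rw [hWx, Real.dist_eq, sub_zero, abs_of_nonneg (hnn y)]
    have h1 : infDist y (Po W)ᶜ ≤ dist y x := infDist_le_dist_of_mem hx
    calc W y ≤ C * infDist y (Po W)ᶜ := hlin y
      _ ≤ C * dist y x := by gcongr
      _ < C * (ε / C) := by gcongr
      _ = ε := by field_simp

end Pool.Agent.TWC
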