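import Pool.Agent.TWC.Defs2

/-!
# TWC: weak solutions
-/

open Set Metric Filter Topology MeasureTheory
open scoped RealInnerProductSpace ContDiff

noncomputable section

namespace Pool.Agent.TWC

variable {n : ℕ}

/-- Test functions in `Ω`. -/
structure Ts (Ω : Set (E n)) (ζ : E n → ℝ) : Prop where
  smooth : ContDiff ℝ ∞ ζ
  cpt : HasCompactSupport ζ
  supp : tsupport ζ ⊆ Ω

/-- Continuous weak solutions of `Δ_p φ + b . ∇φ + κ φ = 0` in `Ω`, `G` is the weak gradient. -/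
structure WkSol (p : ℝ) (b : E n) (κ : ℝ) (Ω : Set (E n)) (φ : E n → ℝ) (G : E n → E n) : Prop where
  cont : ContinuousOn φ Ω
  memG : ∀ K, IsCompact K → K ⊆ Ω → MemLp G (ENNReal.ofReal p) (volume.restrict K)
  wg : ∀ ζ, Ts Ω ζ → ∫ x, φ x • gradient ζ x = - ∫ x, ζ x • G x
  eq : ∀ ζ, Ts Ω ζ → ∫ x, (⟪‖G x‖ ^ (p - 2) • G x, gradient ζ x⟫ + φ x * ⟪b, gradient ζ x⟫ -
    κ * (φ x * ζ x)) = 0

end Pool.Agent.TWC
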