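import Pool.Agent.TWC.WDef
import Pool.Agent.PP.Defs
import Pool.Agent.PP.DER

/-!
# TWC WVA: from the elliptic weak form to a p-parabolic function

`Θ = {(x,t) : t > 0, x - (c log t) e ∈ Ω}` (open), `u(x,t) = t^(-a) φ(x - (c log t) e)`, `𝒢` the same with
`G`, `a = ka p = 1/(p-2)`. Then `𝒢` is the weak spatial gradient of `u` and `∂_t u = div A(𝒢)` weakly in `Θ`.

Proof. For a test function `Ψ` in `Θ` and `t > 0` put `Ψ~(y,t) = Ψ(y + (c log t) e, t)`; for fixed `t > 0`
`ζ_t = Ψ~(·,t)` is a test function in `Ω` (`tsupport` compact, contained in the slice). By Fubini and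
translation invariance of the Lebesgue measure in `x` (for each fixed `t`):
`∫ F(x - (c log t) e, t) H(x,t) dx dt = ∫_t ∫_y F(y,t) H(y + (c log t) e, t) dy dt`.
(WG) `∫ u dx Ψ = ∫_{t>0} t^(-a) ∫_y φ ∇ζ_t = -∫ t^(-a) ∫_y ζ_t G = -∫ Ψ 𝒢`.
(WEq) `∫ <A(𝒢), dx Ψ> = ∫ t^(-a(p-1)) ∫_y <|G|^(p-2) G, ∇ζ_t>`, `a(p-1) = a+1`.
`∫ u ∂_t Ψ`: `∂_t Ψ~ = (∂_t Ψ)~ + (c/t) <e, ∇Ψ~>`, so
`∫ u ∂_tΨ = ∫_y φ(y) ∫_{t>0} t^(-a) (∂_t Ψ~ - (c/t)<e,∇Ψ~>) dt dy`, and for fixed `y`,
`∫_{t>0} t^(-a) ∂_t Ψ~(y,t) dt = a ∫ t^(-a-1) Ψ~ dt` (`Ψ~(y,·)` has compact support in `(0,∞)`; integration by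
parts). Hence `∫ <A(𝒢),dx Ψ> - ∫ u ∂_tΨ = ∫_{t>0} t^(-a-1) ∫_y (<|G|^(p-2)G,∇ζ_t> - a φ ζ_t + c φ <e,∇ζ_t>) dy dt
= 0` by `eq` with `b = c e`, `κ = a`. (Fubini is used for functions supported in a compact subset of `Θ`,
where `φ` is bounded and `G` is in `L^p`, so everything is integrable; measurability of `𝒢`: the map
`(x,t) ↦ (x - (c log t) e, t)` preserves null sets on `t > 0`, it preserves the measure.)
`mem`: for a compact `K ⊆ Θ` the image under the shear is compact in `Ω × (0,∞)`, `t` is bounded above and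
below, and `∫_K |𝒢|^p ≤ C ∫_t ∫_{K'} |G|^p < ∞`.
-/

open Set Metric Filter Topology MeasureTheory
open scoped RealInnerProductSpace ContDiff

noncomputable section

namespace Pool.Agent.TWC

variable {n : ℕ}

/-- The space time domain. -/
def Th (c : ℝ) (e : E n) (Ω : Set (E n)) : Set (PP.X n) :=
  {z | 0 < z.2 ∧ z.1 - (c * Real.log z.2) • e ∈ Ω}

/-- The p-parabolic function attached to `φ`. -/
def su (p c : ℝ) (e : E n) (φ : E n → ℝ) (z : PP.X n) : ℝ :=
  z.2 ^ (-ka p) * φ (z.1 - (c * Real.log z.2) • e)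

/-- Its gradient. -/
def sg (p c : ℝ) (e : E n) (G : E n → E n) (z : PP.X n) : E n :=
  z.2 ^ (-ka p) • G (z.1 - (c * Real.log z.2) • e)

variable {p c : ℝ} {e : E n} {Ω : Set (E n)} {φ : E n → ℝ} {G : E n → E n}

/-- The shift. -/
private def wvaG (c : ℝ) (e : E n) (t : ℝ) : E n := (c * Real.log t) • e

private theorem wva_meas (c : ℝ) (e : E n) : Measurable (wvaG c e) := by
  unfold wvaG
  fun_prop

/-- The inverse shear. -/
private def wvaT (c : ℝ) (e : E n) : PP.X n ≃ᵐ PP.X n where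
  toFun z := (z.1 + wvaG c e z.2, z.2)
  invFun z := (z.1 - wvaG c e z.2, z.2)
  left_inv z := by simp
  right_inv z := by simp
  measurable_toFun :=
    (measurable_fst.add ((wva_meas c e).comp measurable_snd)).prodMk measurable_snd
  measurable_invFun :=
    (measurable_fst.sub ((wva_meas c e).comp measurable_snd)).prodMk measurable_snd

private theorem wva_T (c : ℝ) (e : E n) (z : PP.X n) :
    wvaT c e z = (z.1 + (c * Real.log z.2) • e, z.2) := rfl

private theorem wva_mp (c : ℝ) (e : E n) (ν : Measure ℝ) [SFinite ν] :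
    MeasurePreserving (wvaT c e) ((volume : Measure (E n)).prod ν)
      ((volume : Measure (E n)).prod ν) := by
  have h1 : MeasurePreserving (fun p : ℝ × E n => (p.1, p.2 + wvaG c e p.1))
      (ν.prod (volume : Measure (E n))) (ν.prod (volume : Measure (E n))) := by
    refine MeasurePreserving.skew_product (g := fun t x => x + wvaG c e t)
      (MeasurePreserving.id ν) ?_ ?_
    · exact measurable_snd.add ((wva_meas c e).comp measurable_fst)
    · exact ae_of_all _ fun t => map_add_right_eq_self _ _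
  have h2 := Measure.measurePreserving_swap (μ := (volume : Measure (E n))) (ν := ν)
  have h3 := Measure.measurePreserving_swap (μ := ν) (ν := (volume : Measure (E n)))
  exact h3.comp (h1.comp h2)

private theorem wva_int {F : Type} [NormedAddCommGroup F] [NormedSpace ℝ F] (c : ℝ) (e : E n)
    (f : PP.X n → F) : ∫ z, f (wvaT c e z) = ∫ z, f z :=
  (wva_mp c e volume).integral_comp' f

private theorem wva_contS (c : ℝ) (e : E n) :
    ContinuousOn (fun z : PP.X n => z.1 - (c * Real.log z.2) • e) {z | 0 < z.2} := by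
  have h1 : ContinuousOn (fun z : PP.X n => Real.log z.2) {z | 0 < z.2} :=
    ContinuousOn.log continuous_snd.continuousOn fun z hz => ne_of_gt hz
  exact continuous_fst.continuousOn.sub ((continuousOn_const.mul h1).smul continuousOn_const)

private theorem wva_contT (c : ℝ) (e : E n) :
    ContinuousOn (wvaT c e) {z : PP.X n | 0 < z.2} := by
  have h1 : ContinuousOn (fun z : PP.X n => Real.log z.2) {z | 0 < z.2} :=
    ContinuousOn.log continuous_snd.continuousOn fun z hz => ne_of_gt hz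
  have h2 : ContinuousOn (fun z : PP.X n => (z.1 + (c * Real.log z.2) • e, z.2)) {z | 0 < z.2} :=
    (continuous_fst.continuousOn.add ((continuousOn_const.mul h1).smul continuousOn_const)).prodMk
      continuous_snd.continuousOn
  exact h2

private theorem wva_openU : IsOpen {z : PP.X n | 0 < z.2} := isOpen_lt continuous_const continuous_snd

/-- The compact sets. -/
private theorem wva_K {K : Set (PP.X n)} (hK : IsCompact K) (hKT : K ⊆ Th c e Ω) :
    ∃ (K1 : Set (E n)) (K2 : Set ℝ), IsCompact K1 ∧ K1 ⊆ Ω ∧ IsCompact K2 ∧ K2 ⊆ Ioi 0 ∧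
      ∀ z, wvaT c e z ∈ K → z ∈ K1 ×ˢ K2 := by
  have hpos : K ⊆ {z : PP.X n | 0 < z.2} := fun z hz => (hKT hz).1
  refine ⟨(fun z : PP.X n => z.1 - (c * Real.log z.2) • e) '' K, Prod.snd '' K,
    hK.image_of_continuousOn ((wva_contS c e).mono hpos), ?_, hK.image continuous_snd, ?_, ?_⟩
  · rintro y ⟨z, hz, rfl⟩
    exact (hKT hz).2
  · rintro t ⟨z, hz, rfl⟩
    exact (hKT hz).1
  · intro z hz
    refine ⟨⟨wvaT c e z, hz, ?_⟩, ⟨wvaT c e z, hz, rfl⟩⟩
    rw [wva_T]
    simp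

/-- Functions continuous on an open set and vanishing outside a compact subset. -/
private theorem wva_cc {F : Type} [NormedAddCommGroup F] {U K : Set (PP.X n)} (hU : IsOpen U)
    (hK : IsCompact K) (hKU : K ⊆ U) {f : PP.X n → F} (hf : ContinuousOn f U)
    (h0 : ∀ z, z ∉ K → f z = 0) : Continuous f ∧ HasCompactSupport f := by
  refine ⟨?_, HasCompactSupport.intro hK h0⟩
  rw [continuous_iff_continuousAt]
  intro z
  by_cases hz : z ∈ K
  · exact hf.continuousAt (hU.mem_nhds (hKU hz))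
  · have h1 : f =ᶠ[𝓝 z] fun _ => 0 := by
      filter_upwards [hK.isClosed.isOpen_compl.mem_nhds hz] with w hw
      exact h0 w hw
    exact (continuousAt_const).congr h1.symm

private theorem wva_rough {F2 F3 : Type} [NormedAddCommGroup F2] [NormedAddCommGroup F3]
    (B : E n → F2 → F3) (hB : Continuous fun q : E n × F2 => B q.1 q.2)
    (hn : ∀ x y, ‖B x y‖ ≤ ‖x‖ * ‖y‖) {G0 : E n → E n} {K1 : Set (E n)} {K2 : Set ℝ}
    (hK1 : IsCompact K1) (hK2 : IsCompact K2) (hG : IntegrableOn G0 K1) {h : PP.X n → F2}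
    (hh : Continuous h) (h0 : ∀ z, z ∉ K1 ×ˢ K2 → h z = 0) :
    Integrable (fun z : PP.X n => B (G0 z.1) (h z)) := by
  have hcs : HasCompactSupport h := HasCompactSupport.intro (hK1.prod hK2) h0
  obtain ⟨M, hM⟩ := hcs.exists_bound_of_continuous hh
  have hB0 : ∀ x : E n, B x 0 = 0 := by
    intro x
    have := hn x 0
    rw [norm_zero, mul_zero] at this
    exact norm_le_zero_iff.1 this
  have hG' : Integrable (K1.indicator G0) := (integrable_indicator_iff hK1.measurableSet).2 hG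
  have heq : (fun z : PP.X n => B (G0 z.1) (h z)) =
      fun z : PP.X n => B (K1.indicator G0 z.1) (h z) := by
    funext z
    by_cases hz : z ∈ K1 ×ˢ K2
    · rw [indicator_of_mem hz.1]
    · rw [h0 z hz, hB0, hB0]
  rw [heq]
  have hmeas : AEStronglyMeasurable (fun z : PP.X n => B (K1.indicator G0 z.1) (h z)) volume := by
    have h1 : AEStronglyMeasurable (fun z : PP.X n => K1.indicator G0 z.1) volume :=
      hG'.aestronglyMeasurable.comp_fst
    exact hB.comp_aestronglyMeasurable (h1.prodMk hh.aestronglyMeasurable)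
  have hk : Integrable (K2.indicator fun _ : ℝ => |M|) :=
    (integrable_indicator_iff hK2.measurableSet).2
      (integrableOn_const (hK2.measure_lt_top.ne) (by simp))
  have hbd : Integrable (fun z : PP.X n => ‖K1.indicator G0 z.1‖ *
      K2.indicator (fun _ : ℝ => |M|) z.2) := hG'.norm.mul_prod hk
  refine hbd.mono' hmeas (ae_of_all _ fun z => ?_)
  by_cases hz : z ∈ K1 ×ˢ K2
  · rw [indicator_of_mem hz.2]
    exact (hn _ _).trans (mul_le_mul_of_nonneg_left ((hM z).trans (le_abs_self M)) (norm_nonneg _))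
  · rw [h0 z hz, hB0, norm_zero]
    refine mul_nonneg (norm_nonneg _) (indicator_nonneg (fun _ _ => abs_nonneg M) _)

theorem th_open (hΩ : IsOpen Ω) : IsOpen (Th c e Ω) :=
  (wva_contS c e).isOpen_inter_preimage wva_openU hΩ

theorem su_cont (hΩ : IsOpen Ω) (hφ : ContinuousOn φ Ω) : ContinuousOn (su p c e φ) (Th c e Ω) := by
  have h1 : ContinuousOn (fun z : PP.X n => z.2 ^ (-ka p)) (Th c e Ω) :=
    ContinuousOn.rpow_const continuous_snd.continuousOn fun z hz => Or.inl (ne_of_gt hz.1)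
  have h2 : ContinuousOn (fun z : PP.X n => φ (z.1 - (c * Real.log z.2) • e)) (Th c e Ω) :=
    hφ.comp ((wva_contS c e).mono fun z hz => hz.1) fun z hz => hz.2
  exact h1.mul h2

theorem sg_mem (hp : 2 < p) (hΩ : IsOpen Ω) (h : WkSol p (c • e) (ka p) Ω φ G) {K : Set (PP.X n)}
    (hK : IsCompact K) (hKT : K ⊆ Th c e Ω) :
    MemLp (sg p c e G) (ENNReal.ofReal p) (volume.restrict K) := by
  obtain ⟨K1, K2, hK1, hK1Ω, hK2, hK2p, hmem⟩ := wva_K hK hKT
  have hG1 : MemLp (K1.indicator G) (ENNReal.ofReal p) volume :=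
    (memLp_indicator_iff_restrict hK1.measurableSet).2 (h.memG K1 hK1 hK1Ω)
  have hfin : IsFiniteMeasure ((volume : Measure ℝ).restrict K2) :=
    ⟨by rw [Measure.restrict_apply_univ]; exact hK2.measure_lt_top⟩
  have hG2 : MemLp (fun z : PP.X n => K1.indicator G z.1) (ENNReal.ofReal p)
      ((volume : Measure (E n)).prod ((volume : Measure ℝ).restrict K2)) := hG1.comp_fst _
  have hG3 := hG2.comp_measurePreserving
    (MeasurePreserving.symm (wvaT c e) (wva_mp c e ((volume : Measure ℝ).restrict K2)))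
  have hle : (volume : Measure (PP.X n)).restrict K ≤
      (volume : Measure (E n)).prod ((volume : Measure ℝ).restrict K2) := by
    have h1 : (volume : Measure (E n)).prod ((volume : Measure ℝ).restrict K2) =
        (volume : Measure (PP.X n)).restrict (univ ×ˢ K2) := by
      have := Measure.prod_restrict (μ := (volume : Measure (E n))) (ν := (volume : Measure ℝ))
        univ K2
      rw [Measure.restrict_univ] at this
      exact this
    rw [h1]
    refine Measure.restrict_mono ?_ le_rfl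
    intro z hz
    refine ⟨mem_univ _, ?_⟩
    have := hmem ((wvaT c e).symm z) (by rw [MeasurableEquiv.apply_symm_apply]; exact hz)
    exact this.2
  have hG4 := hG3.mono_measure hle
  have hcont : ContinuousOn (fun t : ℝ => t ^ (-ka p)) K2 :=
    ContinuousOn.rpow_const continuousOn_id fun t ht => Or.inl (ne_of_gt (hK2p ht))
  obtain ⟨M, hM⟩ := hK2.exists_bound_of_continuousOn hcont
  have heq : ∀ z ∈ K, sg p c e G z =
      z.2 ^ (-ka p) • (((fun z : PP.X n => K1.indicator G z.1) ∘ (wvaT c e).symm) z) := by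
    intro z hz
    have h1 := hmem ((wvaT c e).symm z) (by rw [MeasurableEquiv.apply_symm_apply]; exact hz)
    simp only [Function.comp_apply]
    rw [indicator_of_mem h1.1]
    rfl
  have heq' : (fun z : PP.X n =>
      z.2 ^ (-ka p) • (((fun z : PP.X n => K1.indicator G z.1) ∘ (wvaT c e).symm) z))
      =ᵐ[volume.restrict K] sg p c e G := by
    filter_upwards [ae_restrict_mem hK.measurableSet] with z hz
    exact (heq z hz).symm
  refine MemLp.ae_eq heq' ?_
  refine MemLp.of_le_mul (c := M) hG4 ?_ ?_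
  · have h2 : AEStronglyMeasurable (fun z : PP.X n => z.2 ^ (-ka p)) (volume.restrict K) :=
      (measurable_snd.pow_const _).aestronglyMeasurable
    exact h2.smul hG4.aestronglyMeasurable
  · filter_upwards [ae_restrict_mem hK.measurableSet] with z hz
    rw [norm_smul]
    refine mul_le_mul_of_nonneg_right (hM z.2 ?_) (norm_nonneg _)
    have := hmem ((wvaT c e).symm z) (by rw [MeasurableEquiv.apply_symm_apply]; exact hz)
    exact this.2

private theorem wva_suT (z : PP.X n) : su p c e φ (wvaT c e z) = z.2 ^ (-ka p) * φ z.1 := by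
  unfold su
  rw [wva_T]
  simp

private theorem wva_sgT (z : PP.X n) : sg p c e G (wvaT c e z) = z.2 ^ (-ka p) • G z.1 := by
  unfold sg
  rw [wva_T]
  simp

/-- the slices of a test function are test functions -/
private theorem wva_slice {Φ : PP.X n → ℝ} (hΦ : PP.Tst (Th c e Ω) Φ) {t : ℝ} (ht : 0 < t) :
    Ts Ω (fun y => Φ (wvaT c e (y, t))) := by
  obtain ⟨K1, K2, hK1, hK1Ω, hK2, hK2p, hmem⟩ := wva_K hΦ.cpt hΦ.supp
  have hz : ∀ y, y ∉ K1 → Φ (wvaT c e (y, t)) = 0 := by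
    intro y hy
    refine image_eq_zero_of_notMem_tsupport fun h1 => hy (hmem (y, t) h1).1
  refine ⟨?_, HasCompactSupport.intro hK1 hz, ?_⟩
  · have h1 : ContDiff ℝ ∞ (fun y : E n => (y + (c * Real.log t) • e, t)) := by fun_prop
    exact hΦ.smooth.comp h1
  · refine (closure_minimal ?_ hK1.isClosed).trans hK1Ω
    intro y hy
    by_contra h2
    exact hy (hz y h2)

private theorem wva_grad {Φ : PP.X n → ℝ} (y : E n) (t : ℝ) :
    gradient (fun y => Φ (wvaT c e (y, t))) y = PP.dx Φ (wvaT c e (y, t)) := by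
  have h1 : fderiv ℝ (fun y => Φ (wvaT c e (y, t))) y =
      fderiv ℝ (fun x => Φ (x, t)) (y + (c * Real.log t) • e) :=
    fderiv_comp_add_right (f := fun x => Φ (x, t)) ((c * Real.log t) • e)
  unfold PP.dx gradient
  rw [h1]
  rfl

private theorem wva_out {Φ : PP.X n → ℝ} (hΦ : PP.Tst (Th c e Ω) Φ) {z : PP.X n}
    (hz : ¬ 0 < z.2) : wvaT c e z ∉ tsupport Φ := fun h1 => hz (hΦ.supp h1).1

/-- products with functions composed with the shear -/
private theorem wva_prod {F : Type} [NormedAddCommGroup F] [NormedSpace ℝ F] {Φ : PP.X n → ℝ}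
    (hΩ : IsOpen Ω) (hΦ : PP.Tst (Th c e Ω) Φ) {f : PP.X n → F} (hf : Continuous f)
    (hf0 : ∀ z, z ∉ tsupport Φ → f z = 0) {k : PP.X n → ℝ}
    (hk : ContinuousOn k (Ω ×ˢ Ioi 0)) :
    Continuous (fun z => k z • f (wvaT c e z)) ∧
      HasCompactSupport (fun z => k z • f (wvaT c e z)) := by
  obtain ⟨K1, K2, hK1, hK1Ω, hK2, hK2p, hmem⟩ := wva_K hΦ.cpt hΦ.supp
  refine wva_cc (hΩ.prod isOpen_Ioi) (hK1.prod hK2) (prod_mono hK1Ω hK2p)
    (hk.smul (hf.comp_continuousOn ((wva_contT c e).mono fun z hz => hz.2))) ?_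
  intro z hz
  rw [hf0 _ fun h1 => hz (hmem z h1), smul_zero]

private theorem wva_pow (a : ℝ) : ContinuousOn (fun z : PP.X n => z.2 ^ a) (Ω ×ˢ Ioi 0) :=
  ContinuousOn.rpow_const continuous_snd.continuousOn fun z hz => Or.inl (ne_of_gt hz.2)

private theorem wva_phi (hφ : ContinuousOn φ Ω) :
    ContinuousOn (fun z : PP.X n => φ z.1) (Ω ×ˢ Ioi 0) :=
  hφ.comp continuous_fst.continuousOn fun z hz => hz.1

private theorem wva_loc (hp : 2 < p) {b : E n} {κ : ℝ} (h : WkSol p b κ Ω φ G) {K1 : Set (E n)}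
    (hK1 : IsCompact K1) (hK1Ω : K1 ⊆ Ω) :
    IntegrableOn G K1 ∧ IntegrableOn (fun y => ‖G y‖ ^ (p - 2) • G y) K1 := by
  have hm := h.memG K1 hK1 hK1Ω
  have hfin : IsFiniteMeasure ((volume : Measure (E n)).restrict K1) :=
    ⟨by rw [Measure.restrict_apply_univ]; exact hK1.measure_lt_top⟩
  refine ⟨hm.integrable (by rw [← ENNReal.ofReal_one]; exact ENNReal.ofReal_le_ofReal (by linarith)),
    ?_⟩
  have h1 : Integrable (fun y => ‖G y‖ ^ p) (volume.restrict K1) := by
    have := hm.integrable_norm_rpow (by simp; linarith) ENNReal.ofReal_ne_top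
    rwa [ENNReal.toReal_ofReal (by linarith)] at this
  have h2 : Integrable (fun y => 1 + ‖G y‖ ^ p) (volume.restrict K1) :=
    (integrable_const 1).add h1
  have h3 : AEStronglyMeasurable (fun y => ‖G y‖ ^ (p - 2) • G y) (volume.restrict K1) := by
    have h4 : AEMeasurable (fun y => ‖G y‖ ^ (p - 2)) (volume.restrict K1) :=
      (hm.aestronglyMeasurable.norm.aemeasurable).pow_const _
    exact h4.aestronglyMeasurable.smul hm.aestronglyMeasurable
  refine h2.mono' h3 (ae_of_all _ fun y => ?_)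
  have h0 := norm_nonneg (G y)
  rw [norm_smul, Real.norm_eq_abs, abs_of_nonneg (Real.rpow_nonneg h0 _)]
  rcases le_or_gt ‖G y‖ 1 with h5 | h5
  · have h6 : ‖G y‖ ^ (p - 2) ≤ 1 := Real.rpow_le_one h0 h5 (by linarith)
    have h7 : 0 ≤ ‖G y‖ ^ p := Real.rpow_nonneg h0 _
    have h8 : 0 ≤ ‖G y‖ ^ (p - 2) := Real.rpow_nonneg h0 _
    nlinarith
  · have h6 : ‖G y‖ ^ (p - 2) * ‖G y‖ = ‖G y‖ ^ (p - 1) := by
      rw [← Real.rpow_add_one (by linarith)]
      congr 1
      ring
    rw [h6]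
    have h7 : ‖G y‖ ^ (p - 1) ≤ ‖G y‖ ^ p := Real.rpow_le_rpow_of_exponent_le h5.le (by linarith)
    linarith

theorem sg_wg (hp : 2 < p) (hΩ : IsOpen Ω) (h : WkSol p (c • e) (ka p) Ω φ G) :
    PP.WG (Th c e Ω) (su p c e φ) (sg p c e G) := by
  intro Φ hΦ
  obtain ⟨K1, K2, hK1, hK1Ω, hK2, hK2p, hmem⟩ := wva_K hΦ.cpt hΦ.supp
  obtain ⟨cdx, -, -, -⟩ := PP.der_tst_int hΦ
  have hloc : IntegrableOn G K1 := (wva_loc hp h hK1 hK1Ω).1
  rw [← wva_int c e (fun z => su p c e φ z • PP.dx Φ z),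
    ← wva_int c e (fun z => Φ z • sg p c e G z)]
  have e1 : (fun z => su p c e φ (wvaT c e z) • PP.dx Φ (wvaT c e z)) =
      fun z : PP.X n => (z.2 ^ (-ka p) * φ z.1) • PP.dx Φ (wvaT c e z) := by
    funext z
    rw [wva_suT]
  have e2 : (fun z => Φ (wvaT c e z) • sg p c e G (wvaT c e z)) =
      fun z : PP.X n => (z.2 ^ (-ka p) • Φ (wvaT c e z)) • G z.1 := by
    funext z
    rw [wva_sgT, smul_smul, smul_eq_mul, mul_comm]
  rw [e1, e2]
  have i1 : Integrable (fun z : PP.X n => (z.2 ^ (-ka p) * φ z.1) • PP.dx Φ (wvaT c e z)) := by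
    obtain ⟨h1, h2⟩ := wva_prod hΩ hΦ cdx (fun z hz => PP.dx_zero_of_notMem z hz)
      ((wva_pow (-ka p)).mul (wva_phi h.cont))
    exact h1.integrable_of_hasCompactSupport h2
  have i2 : Integrable (fun z : PP.X n => (z.2 ^ (-ka p) • Φ (wvaT c e z)) • G z.1) := by
    obtain ⟨h1, h2⟩ := wva_prod hΩ hΦ hΦ.smooth.continuous
      (fun z hz => image_eq_zero_of_notMem_tsupport hz) (wva_pow (-ka p))
    refine wva_rough (fun x r => r • x) (by fun_prop) ?_ hK1 hK2 hloc h1 ?_
    · intro x r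
      rw [norm_smul, mul_comm]
    · intro z hz
      rw [image_eq_zero_of_notMem_tsupport fun h1 => hz (hmem z h1), smul_zero]
  have f1 : ∫ z : PP.X n, (z.2 ^ (-ka p) * φ z.1) • PP.dx Φ (wvaT c e z) =
      ∫ t : ℝ, ∫ y : E n, (t ^ (-ka p) * φ y) • PP.dx Φ (wvaT c e (y, t)) :=
    integral_prod_symm _ i1
  have f2 : ∫ z : PP.X n, (z.2 ^ (-ka p) • Φ (wvaT c e z)) • G z.1 =
      ∫ t : ℝ, ∫ y : E n, (t ^ (-ka p) • Φ (wvaT c e (y, t))) • G y :=
    integral_prod_symm _ i2
  rw [f1, f2, ← integral_neg]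
  congr 1
  funext t
  by_cases ht : 0 < t
  · have h1 := h.wg _ (wva_slice hΦ ht)
    have h2 : ∫ y : E n, (t ^ (-ka p) * φ y) • PP.dx Φ (wvaT c e (y, t)) =
        t ^ (-ka p) • ∫ y : E n, φ y • gradient (fun y => Φ (wvaT c e (y, t))) y := by
      rw [← integral_smul]
      congr 1
      funext y
      rw [wva_grad, mul_smul]
    have h3 : ∫ y : E n, (t ^ (-ka p) • Φ (wvaT c e (y, t))) • G y =
        t ^ (-ka p) • ∫ y : E n, Φ (wvaT c e (y, t)) • G y := by
      rw [← integral_smul]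
      congr 1
      funext y
      rw [smul_assoc]
    rw [h2, h3, h1, smul_neg]
  · have h1 : ∀ y, PP.dx Φ (wvaT c e (y, t)) = 0 := fun y =>
      PP.dx_zero_of_notMem _ (wva_out hΦ ht)
    have h2 : ∀ y, Φ (wvaT c e (y, t)) = 0 := fun y =>
      image_eq_zero_of_notMem_tsupport (wva_out hΦ ht)
    simp only [h1, h2, smul_zero, zero_smul, integral_zero, neg_zero]

/-- the time derivative of the transformed test function -/
private def wvaD (c : ℝ) (e : E n) (Φ : PP.X n → ℝ) (z : PP.X n) : ℝ :=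
  PP.dt Φ (wvaT c e z) + c * z.2⁻¹ * ⟪PP.dx Φ (wvaT c e z), e⟫

private theorem wva_deriv {Φ : PP.X n → ℝ} (hΦ : ContDiff ℝ ∞ Φ) (y : E n) {t : ℝ} (ht : 0 < t) :
    HasDerivAt (fun s => Φ (wvaT c e (y, s))) (wvaD c e Φ (y, t)) t := by
  have h1 : HasDerivAt (fun s : ℝ => y + (c * Real.log s) • e) ((c * t⁻¹) • e) t := by
    have := (((Real.hasDerivAt_log ht.ne').const_mul c).smul_const e).const_add y
    simpa using this
  have h2 : HasDerivAt (fun s : ℝ => (y + (c * Real.log s) • e, s)) ((c * t⁻¹) • e, (1:ℝ)) t :=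
    h1.prodMk (hasDerivAt_id t)
  have h3 : HasFDerivAt Φ (fderiv ℝ Φ (wvaT c e (y, t))) (wvaT c e (y, t)) :=
    (hΦ.differentiable (by simp)).differentiableAt.hasFDerivAt
  have h4 := HasFDerivAt.comp_hasDerivAt
    (f := fun s : ℝ => ((y + (c * Real.log s) • e, s) : PP.X n)) t h3 h2
  have h5 : fderiv ℝ Φ (wvaT c e (y, t)) ((c * t⁻¹) • e, (1:ℝ)) = wvaD c e Φ (y, t) := by
    have h6 : (((c * t⁻¹) • e, (1:ℝ)) : PP.X n) = (c * t⁻¹) • ((e, 0) : PP.X n) + ((0, 1) : PP.X n) := by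
      ext <;> simp
    rw [h6, map_add, map_smul]
    unfold wvaD
    rw [PP.dx_eq hΦ, PP.dt_eq hΦ, smul_eq_mul]
    ring
  rw [h5] at h4
  exact h4

private theorem wva_parts {Φ : PP.X n → ℝ} (hΩ : IsOpen Ω) (hΦ : PP.Tst (Th c e Ω) Φ) (a : ℝ)
    (y : E n) :
    ∫ t : ℝ, (t ^ (-a) * wvaD c e Φ (y, t) - a * (t ^ (-a - 1) * Φ (wvaT c e (y, t)))) = 0 := by
  obtain ⟨K1, K2, hK1, hK1Ω, hK2, hK2p, hmem⟩ := wva_K hΦ.cpt hΦ.supp
  have hout : ∀ t, t ∉ K2 → wvaT c e (y, t) ∉ tsupport Φ := fun t ht h1 => ht (hmem (y, t) h1).2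
  have hΦ0 : ∀ t, t ∉ K2 → Φ (wvaT c e (y, t)) = 0 := fun t ht =>
    image_eq_zero_of_notMem_tsupport (hout t ht)
  have hD0 : ∀ t, t ∉ K2 → wvaD c e Φ (y, t) = 0 := by
    intro t ht
    unfold wvaD
    rw [PP.dt_zero_of_notMem _ (hout t ht), PP.dx_zero_of_notMem _ (hout t ht), inner_zero_left,
      mul_zero, add_zero]
  have hder : ∀ t : ℝ, HasDerivAt (fun s => s ^ (-a) * Φ (wvaT c e (y, s)))
      (t ^ (-a) * wvaD c e Φ (y, t) - a * (t ^ (-a - 1) * Φ (wvaT c e (y, t)))) t := by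
    intro t
    by_cases ht : t ∈ K2
    · have htp : 0 < t := hK2p ht
      have h1 := (Real.hasDerivAt_rpow_const (p := -a) (Or.inl htp.ne')).mul
        (wva_deriv (c := c) (e := e) hΦ.smooth y htp)
      refine h1.congr_deriv ?_
      ring
    · have h1 : (fun s => s ^ (-a) * Φ (wvaT c e (y, s))) =ᶠ[𝓝 t] fun _ => 0 := by
        filter_upwards [hK2.isClosed.isOpen_compl.mem_nhds ht] with s hs
        rw [hΦ0 s hs, mul_zero]
      rw [hD0 t ht, hΦ0 t ht]
      simpa using (hasDerivAt_const t (0:ℝ)).congr_of_eventuallyEq h1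
  have hcT : ∀ {F : Type} [NormedAddCommGroup F] (f : PP.X n → F), Continuous f →
      ContinuousOn (fun t : ℝ => f (wvaT c e (y, t))) (Ioi 0) := by
    intro F _ f hf
    refine hf.comp_continuousOn ((wva_contT c e).comp ?_ fun t ht => ht)
    fun_prop
  obtain ⟨cdx, -, cdt, -⟩ := PP.der_tst_int hΦ
  have hpw : ∀ b : ℝ, ContinuousOn (fun t : ℝ => t ^ b) (Ioi 0) := fun b =>
    ContinuousOn.rpow_const continuousOn_id fun t ht => Or.inl (ne_of_gt ht)
  have hcc : ∀ f : ℝ → ℝ, ContinuousOn f (Ioi 0) → (∀ t, t ∉ K2 → f t = 0) → Integrable f := by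
    intro f hf h0
    have hcont : Continuous f := by
      rw [continuous_iff_continuousAt]
      intro t
      by_cases ht : t ∈ K2
      · exact hf.continuousAt (isOpen_Ioi.mem_nhds (hK2p ht))
      · have h1 : f =ᶠ[𝓝 t] fun _ => 0 := by
          filter_upwards [hK2.isClosed.isOpen_compl.mem_nhds ht] with s hs
          exact h0 s hs
        exact (continuousAt_const).congr h1.symm
    exact hcont.integrable_of_hasCompactSupport (HasCompactSupport.intro hK2 h0)
  refine integral_eq_zero_of_hasDerivAt_of_integrable hder ?_ ?_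
  · refine hcc _ ?_ ?_
    · have h1 : ContinuousOn (fun t : ℝ => wvaD c e Φ (y, t)) (Ioi 0) := by
        unfold wvaD
        refine (hcT _ cdt).add ((continuousOn_const.mul ?_).mul ?_)
        · exact continuousOn_inv₀.mono fun t ht => ne_of_gt ht
        · exact (hcT _ cdx).inner continuousOn_const
      exact ((hpw _).mul h1).sub (continuousOn_const.mul ((hpw _).mul (hcT _ hΦ.smooth.continuous)))
    · intro t ht
      rw [hD0 t ht, hΦ0 t ht]
      ring
  · refine hcc _ ((hpw _).mul (hcT _ hΦ.smooth.continuous)) ?_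
    intro t ht
    rw [hΦ0 t ht, mul_zero]

private theorem wva_three {f g k : PP.X n → ℝ} (hf : Integrable f) (hg : Integrable g)
    (hk : Integrable k) : Integrable (fun z => f z + g z - k z) ∧
      ∫ z, (f z + g z - k z) = (∫ z, f z) + (∫ z, g z) - ∫ z, k z := by
  refine ⟨(hf.add hg).sub hk, ?_⟩
  rw [integral_sub (f := fun z => f z + g z) (hf.add hg) hk, integral_add hf hg]

theorem sg_eq (hp : 2 < p) (hΩ : IsOpen Ω) (h : WkSol p (c • e) (ka p) Ω φ G) :
    PP.WEq p (Th c e Ω) (su p c e φ) (sg p c e G) := by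
  intro Φ hΦ
  obtain ⟨K1, K2, hK1, hK1Ω, hK2, hK2p, hmem⟩ := wva_K hΦ.cpt hΦ.supp
  obtain ⟨cdx, -, cdt, -⟩ := PP.der_tst_int hΦ
  have hloc := (wva_loc hp h hK1 hK1Ω).2
  have hap : ka p * (p - 2) = 1 := by
    unfold ka
    have : p - 2 ≠ 0 := by linarith
    field_simp
  rw [← wva_int c e (fun z => inner ℝ (PP.A p (sg p c e G z)) (PP.dx Φ z)),
    ← wva_int c e (fun z => su p c e φ z * PP.dt Φ z)]
  have hout : ∀ z : PP.X n, ¬ 0 < z.2 → PP.dx Φ (wvaT c e z) = 0 ∧ PP.dt Φ (wvaT c e z) = 0 ∧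
      Φ (wvaT c e z) = 0 := fun z hz =>
    ⟨PP.dx_zero_of_notMem _ (wva_out hΦ hz), PP.dt_zero_of_notMem _ (wva_out hΦ hz),
      image_eq_zero_of_notMem_tsupport (wva_out hΦ hz)⟩
  have e1 : (fun z => inner ℝ (PP.A p (sg p c e G (wvaT c e z))) (PP.dx Φ (wvaT c e z))) =
      fun z : PP.X n => ⟪‖G z.1‖ ^ (p - 2) • G z.1, z.2 ^ (-ka p - 1) • PP.dx Φ (wvaT c e z)⟫ := by
    funext z
    by_cases hz : 0 < z.2
    · rw [wva_sgT]
      unfold PP.A
      have h1 : 0 < z.2 ^ (-ka p) := Real.rpow_pos_of_pos hz _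
      have h2 : ‖z.2 ^ (-ka p) • G z.1‖ ^ (p - 2) = (z.2 ^ (-ka p)) ^ (p - 2) * ‖G z.1‖ ^ (p - 2) := by
        rw [norm_smul, Real.norm_eq_abs, abs_of_pos h1, Real.mul_rpow h1.le (norm_nonneg _)]
      have h3 : (z.2 ^ (-ka p)) ^ (p - 2) * z.2 ^ (-ka p) = z.2 ^ (-ka p - 1) := by
        rw [← Real.rpow_mul hz.le, ← Real.rpow_add hz]
        congr 1
        linarith
      rw [h2, smul_smul, inner_smul_left, inner_smul_left, inner_smul_right, ← h3]
      simp only [conj_trivial]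
      ring
    · rw [(hout z hz).1, smul_zero, inner_zero_right, inner_zero_right]
  have e2 : (fun z => su p c e φ (wvaT c e z) * PP.dt Φ (wvaT c e z)) =
      fun z : PP.X n => (z.2 ^ (-ka p) * φ z.1) • PP.dt Φ (wvaT c e z) := by
    funext z
    rw [wva_suT, smul_eq_mul]
  rw [e1, e2]
  -- integrability
  have i1 : Integrable (fun z : PP.X n =>
      ⟪‖G z.1‖ ^ (p - 2) • G z.1, z.2 ^ (-ka p - 1) • PP.dx Φ (wvaT c e z)⟫) := by
    obtain ⟨h1, h2⟩ := wva_prod hΩ hΦ cdx (fun z hz => PP.dx_zero_of_notMem z hz)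
      (wva_pow (-ka p - 1))
    refine wva_rough (G0 := fun y => ‖G y‖ ^ (p - 2) • G y) (fun x v => ⟪x, v⟫) (by fun_prop)
      (fun x v => norm_inner_le_norm x v) hK1 hK2 hloc h1 ?_
    intro z hz
    rw [PP.dx_zero_of_notMem _ fun h1 => hz (hmem z h1), smul_zero]
  have i2 : Integrable (fun z : PP.X n => (z.2 ^ (-ka p) * φ z.1) • PP.dt Φ (wvaT c e z)) := by
    obtain ⟨h1, h2⟩ := wva_prod hΩ hΦ cdt (fun z hz => PP.dt_zero_of_notMem z hz)
      ((wva_pow (-ka p)).mul (wva_phi h.cont))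
    exact h1.integrable_of_hasCompactSupport h2
  have i3 : Integrable (fun z : PP.X n => (c * (z.2 ^ (-ka p - 1) * φ z.1)) •
      ⟪PP.dx Φ (wvaT c e z), e⟫) := by
    obtain ⟨h1, h2⟩ := wva_prod (f := fun z => ⟪PP.dx Φ z, e⟫) hΩ hΦ (cdx.inner continuous_const)
      (fun z hz => by rw [PP.dx_zero_of_notMem z hz, inner_zero_left])
      (continuousOn_const.mul ((wva_pow (-ka p - 1)).mul (wva_phi h.cont)))
    exact h1.integrable_of_hasCompactSupport h2
  have i4 : Integrable (fun z : PP.X n => (ka p * (z.2 ^ (-ka p - 1) * φ z.1)) •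
      Φ (wvaT c e z)) := by
    obtain ⟨h1, h2⟩ := wva_prod hΩ hΦ hΦ.smooth.continuous
      (fun z hz => image_eq_zero_of_notMem_tsupport hz)
      (continuousOn_const.mul ((wva_pow (-ka p - 1)).mul (wva_phi h.cont)))
    exact h1.integrable_of_hasCompactSupport h2
  -- integration by parts in time
  have hparts : ∫ z : PP.X n, ((z.2 ^ (-ka p) * φ z.1) • PP.dt Φ (wvaT c e z) +
      (c * (z.2 ^ (-ka p - 1) * φ z.1)) • ⟪PP.dx Φ (wvaT c e z), e⟫ -
      (ka p * (z.2 ^ (-ka p - 1) * φ z.1)) • Φ (wvaT c e z)) = 0 := by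
    rw [Measure.volume_eq_prod, integral_prod _ (wva_three i2 i3 i4).1]
    rw [← integral_zero (E n) ℝ]
    congr 1
    funext y
    have h1 : (fun t : ℝ => (((y, t) : PP.X n).2 ^ (-ka p) * φ ((y, t) : PP.X n).1) •
        PP.dt Φ (wvaT c e (y, t)) + (c * (((y, t) : PP.X n).2 ^ (-ka p - 1) *
        φ ((y, t) : PP.X n).1)) • ⟪PP.dx Φ (wvaT c e (y, t)), e⟫ -
        (ka p * (((y, t) : PP.X n).2 ^ (-ka p - 1) * φ ((y, t) : PP.X n).1)) •
        Φ (wvaT c e (y, t))) = fun t : ℝ => φ y * (t ^ (-ka p) * wvaD c e Φ (y, t) -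
          ka p * (t ^ (-ka p - 1) * Φ (wvaT c e (y, t)))) := by
      funext t
      by_cases ht : 0 < t
      · unfold wvaD
        have h2 : t ^ (-ka p - 1) = t ^ (-ka p) * t⁻¹ := by
          rw [Real.rpow_sub_one ht.ne', div_eq_mul_inv]
        simp only [smul_eq_mul]
        rw [h2]
        ring
      · obtain ⟨h2, h3, h4⟩ := hout (y, t) ht
        unfold wvaD
        simp only [h2, h3, h4, smul_zero, inner_zero_left, mul_zero, add_zero, sub_zero]
    rw [h1, integral_const_mul, wva_parts hΩ hΦ, mul_zero]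
  -- the slices
  have hsl : ∫ z : PP.X n, (⟪‖G z.1‖ ^ (p - 2) • G z.1, z.2 ^ (-ka p - 1) •
      PP.dx Φ (wvaT c e z)⟫ + (c * (z.2 ^ (-ka p - 1) * φ z.1)) • ⟪PP.dx Φ (wvaT c e z), e⟫ -
      (ka p * (z.2 ^ (-ka p - 1) * φ z.1)) • Φ (wvaT c e z)) = 0 := by
    rw [Measure.volume_eq_prod, integral_prod_symm _ (wva_three i1 i3 i4).1]
    rw [← integral_zero ℝ ℝ]
    congr 1
    funext t
    by_cases ht : 0 < t
    · have h1 := h.eq _ (wva_slice hΦ ht)
      have h2 : (fun y : E n => (⟪‖G ((y, t) : PP.X n).1‖ ^ (p - 2) • G ((y, t) : PP.X n).1,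
          ((y, t) : PP.X n).2 ^ (-ka p - 1) • PP.dx Φ (wvaT c e (y, t))⟫ +
          (c * (((y, t) : PP.X n).2 ^ (-ka p - 1) * φ ((y, t) : PP.X n).1)) •
            ⟪PP.dx Φ (wvaT c e (y, t)), e⟫ -
          (ka p * (((y, t) : PP.X n).2 ^ (-ka p - 1) * φ ((y, t) : PP.X n).1)) •
            Φ (wvaT c e (y, t)))) = fun y : E n => t ^ (-ka p - 1) *
          (⟪‖G y‖ ^ (p - 2) • G y, gradient (fun y => Φ (wvaT c e (y, t))) y⟫ +
            φ y * ⟪c • e, gradient (fun y => Φ (wvaT c e (y, t))) y⟫ -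
            ka p * (φ y * Φ (wvaT c e (y, t)))) := by
        funext y
        have hce : ∀ v : E n, ⟪c • e, v⟫ = c * ⟪v, e⟫ := fun v => by
          rw [inner_smul_left, real_inner_comm]
          simp
        rw [wva_grad, inner_smul_right, hce]
        simp only [smul_eq_mul]
        ring
      rw [h2, integral_const_mul, h1, mul_zero]
    · have h1 : ∀ y : E n, PP.dx Φ (wvaT c e (y, t)) = 0 := fun y => (hout (y, t) ht).1
      have h2 : ∀ y : E n, Φ (wvaT c e (y, t)) = 0 := fun y => (hout (y, t) ht).2.2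
      simp only [h1, h2, smul_zero, inner_zero_right, inner_zero_left, add_zero, sub_zero,
        integral_zero]
  rw [(wva_three i2 i3 i4).2] at hparts
  rw [(wva_three i1 i3 i4).2] at hsl
  linarith

end Pool.Agent.TWC
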