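import Pool.Agent.TWC.AC1
import Pool.Agent.TWC.WVA
import Pool.Agent.PP.CMPL
import Pool.Agent.PP.CLS
import Pool.Agent.PP.SCL
import Pool.Agent.PP.LPS

/-!
# TWC WVB: comparison of a classical subsolution with a weak solution

Copy of the private lemma `bar2_compare` of `Pool.Agent.PP.BAR2` (classical subsolution `Φ` against a weak
supersolution `v` in an open space time set, using `PP.cmpl` and `PP.cls`); take `ε = 0`. Here it is stated
with everywhere (not a.e.) inequalities: `v` continuous, bounded on the open set `D`; `v` is a weak solution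
(`WG`, `WEq`, local `L^p` gradient on a larger set, restricted to `D ⊆ Th`). The conclusion `Φ ≤ v` a.e. on
`D ∩ {t < b}` is upgraded to every point by continuity (a nonempty open set has positive measure).
-/

noncomputable section

section

open Set Metric Filter Topology MeasureTheory
open scoped ContDiff

namespace PP

variable {n : ℕ}
variable {p : ℝ}

/-- comparison of a classical subsolution with a weak supersolution -/
private theorem wvb_compare (hp : 1 < p) {Ω : Set (X n)} (hΩ : IsOpen Ω) {Φ : X n → ℝ}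
    {V : X n → E n} (hΦ : ContDiffOn ℝ 1 Φ Ω) (hV : ContDiffOn ℝ 1 V Ω)
    (hsub : ∀ z ∈ Ω, dt Φ z ≤ dv V z) (hfl : ∀ z ∈ Ω, V z = A p (dx Φ z)) {v : X n → ℝ}
    {G : X n → E n} (hv : SupOn p Ω v G) {b ε : ℝ}
    (hc : ∀ τ > 0, ∃ D, IsCompact D ∧ D ⊆ Ω ∧
      ∀ᵐ z ∂(volume.restrict Ω), 0 < Φ z - ε - v z → z.2 < b - τ → z ∈ D) :
    ∀ᵐ z ∂(volume.restrict Ω), z.2 < b → Φ z - ε - v z ≤ 0 := by
  have hfin : ∀ D : Set (X n), IsCompact D → IsFiniteMeasure ((volume : Measure (X n)).restrict D) :=
    fun D hD => ⟨by rw [Measure.restrict_apply_univ]; exact hD.measure_lt_top⟩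
  have cΦ := hΦ.continuousOn
  have cdx := cls_dx_cont hΩ hΦ
  have mem_cont : ∀ {F : Type} [NormedAddCommGroup F] [NormedSpace ℝ F] (q : ENNReal) (g : X n → F),
      AEStronglyMeasurable g (volume.restrict Ω) → ContinuousOn g Ω → ∀ D, IsCompact D → D ⊆ Ω →
      MemLp g q (volume.restrict D) := by
    intro F _ _ q g hgm hg D hD hDΩ
    have := hfin D hD
    obtain ⟨M, hM⟩ := hD.exists_bound_of_continuousOn (hg.mono hDΩ)
    refine MemLp.of_bound (hgm.mono_set hDΩ) M ?_
    rw [ae_restrict_iff' hD.measurableSet]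
    exact Eventually.of_forall hM
  have mΦ : AEStronglyMeasurable Φ (volume.restrict Ω) :=
    cΦ.aestronglyMeasurable hΩ.measurableSet
  have mdx : AEStronglyMeasurable (dx Φ) (volume.restrict Ω) :=
    cdx.aestronglyMeasurable hΩ.measurableSet
  refine cmpl hp hΩ (Gd := fun z => dx Φ z - G z) (Γ := fun z => A p (dx Φ z) - A p (G z))
    ?_ ?_ ?_ ?_ ?_ ?_ ?_ hc
  · exact (mΦ.sub aestronglyMeasurable_const).sub hv.meas
  · intro D hD hDΩ
    obtain ⟨M, hM⟩ := hD.exists_bound_of_continuousOn (cΦ.mono hDΩ)
    obtain ⟨M', hM'⟩ := hv.bdd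
    refine ⟨M + |ε| + M', ?_⟩
    filter_upwards [ae_restrict_of_ae_restrict_of_subset hDΩ hM',
      (ae_restrict_iff' hD.measurableSet).2 (Eventually.of_forall hM)] with z hz1 hz2
    rw [Real.norm_eq_abs] at hz2
    calc |Φ z - ε - v z| ≤ |Φ z - ε| + |v z| := abs_sub _ _
      _ ≤ |Φ z| + |ε| + |v z| := by
          have := abs_sub (Φ z) ε
          linarith
      _ ≤ M + |ε| + M' := by linarith
  · intro D hD hDΩ
    exact (mem_cont _ _ mdx cdx D hD hDΩ).sub (hv.memG D hD hDΩ)
  · -- the weak gradient
    intro φ hφ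
    have cφ := hφ.smooth.continuous
    have cdφ : Continuous (dx φ) := (contDiff_dx hφ.smooth).continuous
    have hK := hφ.cpt
    have hz0 : ∀ z, z ∉ tsupport φ → dx φ z = 0 := fun z hz => dx_zero_of_notMem z hz
    obtain ⟨M', hM'⟩ := hv.bdd
    have i2 : Integrable (fun z => v z • dx φ z) volume :=
      memLp_one_iff_integrable.1 (loc_bdd hv.meas hM' cdφ hK hφ.supp hz0 1)
    have i3 : Integrable (fun z => ε • dx φ z) volume :=
      ((der_tst_int hφ).1.integrable_of_hasCompactSupport (der_tst_int hφ).2.1).smul ε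
    have i1 : Integrable (fun z => Φ z • dx φ z) volume := by
      have hsub : tsupport (fun z => Φ z • dx φ z) ⊆ tsupport φ := by
        refine (tsupport_smul_subset_right Φ (dx φ)).trans ?_
        exact closure_minimal (fun z hz => by
          by_contra h
          exact hz (dx_zero_of_notMem z h)) (isClosed_tsupport φ)
      have hcc : Continuous (fun z => Φ z • dx φ z) := by
        refine continuous_of_tsupport fun z hz => ?_
        have hz' : z ∈ Ω := hφ.supp (hsub hz)
        exact ((cΦ z hz').continuousAt (hΩ.mem_nhds hz')).smul cdφ.continuousAt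
      exact hcc.integrable_of_hasCompactSupport
        (hφ.cpt.of_isClosed_subset (isClosed_tsupport _) hsub)
    have j1 : Integrable (fun z => φ z • dx Φ z) volume :=
      loc_int_smul (cdx.locallyIntegrableOn hΩ.measurableSet) hφ
    have j2 : Integrable (fun z => φ z • G z) volume := by
      obtain ⟨N, hN⟩ := hφ.cpt.exists_bound_of_continuous cφ
      have := hfin _ hK
      have h1 : IntegrableOn G (tsupport φ) volume :=
        (hv.memG _ hK hφ.supp).integrable (by
          rw [← ENNReal.ofReal_one]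
          exact ENNReal.ofReal_le_ofReal hp.le)
      have h2 : IntegrableOn (fun z => φ z • G z) (tsupport φ) volume :=
        Integrable.bdd_smul h1 N cφ.aestronglyMeasurable (Eventually.of_forall fun z => hN z)
      refine (integrableOn_iff_integrable_of_support_subset ?_).1 h2
      intro z hz
      apply subset_tsupport
      intro h0
      apply hz
      simp only [h0, zero_smul]
    have e1 := cls_wg hΩ hΦ φ hφ
    have e2 := hv.wg φ hφ
    have e3 : ∫ z, ε • dx φ z = 0 := by
      rw [integral_smul, scl_int_dx hφ, smul_zero]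
    have e4 : ∫ z, (Φ z - ε - v z) • dx φ z =
        (∫ z, Φ z • dx φ z) - (∫ z, ε • dx φ z) - ∫ z, v z • dx φ z := by
      have h13 : Integrable (fun z => Φ z • dx φ z - ε • dx φ z) volume := i1.sub i3
      rw [← integral_sub i1 i3, ← integral_sub h13 i2]
      refine integral_congr_ae (Eventually.of_forall fun z => ?_)
      simp only [sub_smul]
    have e5 : ∫ z, φ z • (dx Φ z - G z) = (∫ z, φ z • dx Φ z) - ∫ z, φ z • G z := by
      rw [← integral_sub j1 j2]
      refine integral_congr_ae (Eventually.of_forall fun z => ?_)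
      simp only [smul_sub]
    rw [e4, e5, e1, e2, e3]
    abel
  · intro D hD hDΩ
    exact (memLp_flux hp (mem_cont _ _ mdx cdx D hD hDΩ)).sub (memLp_flux hp (hv.memG D hD hDΩ))
  · -- the differential inequality
    intro φ hφ h0
    have h1 := cls hΩ hΦ hV hsub φ hφ h0
    have h2 := hv.ineq φ hφ h0
    have cφ := hφ.smooth.continuous
    have cdφ : Continuous (dx φ) := (contDiff_dx hφ.smooth).continuous
    obtain ⟨c1, s1, c2, s2⟩ := der_tst_int hφ
    have hK := hφ.cpt
    have hz0 : ∀ z, z ∉ tsupport φ → dt φ z = 0 := fun z hz => dt_zero_of_notMem z hz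
    obtain ⟨M', hM'⟩ := hv.bdd
    have i2 : Integrable (fun z => v z * dt φ z) volume := by
      have := memLp_one_iff_integrable.1 (loc_bdd hv.meas hM' c2 hK hφ.supp hz0 1)
      simpa only [smul_eq_mul] using this
    have i3 : Integrable (fun z => ε * dt φ z) volume :=
      (c2.integrable_of_hasCompactSupport s2).const_mul ε
    have i1 : Integrable (fun z => Φ z * dt φ z) volume := by
      have hsub : tsupport (fun z => Φ z * dt φ z) ⊆ tsupport φ := by
        refine (tsupport_mul_subset_right).trans ?_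
        exact closure_minimal (fun z hz => by
          by_contra h
          exact hz (dt_zero_of_notMem z h)) (isClosed_tsupport φ)
      have hcc : Continuous (fun z => Φ z * dt φ z) := by
        refine continuous_of_tsupport fun z hz => ?_
        have hz' : z ∈ Ω := hφ.supp (hsub hz)
        exact ((cΦ z hz').continuousAt (hΩ.mem_nhds hz')).mul c2.continuousAt
      exact hcc.integrable_of_hasCompactSupport
        (hφ.cpt.of_isClosed_subset (isClosed_tsupport _) hsub)
    have inn : ∀ H : X n → E n, MemLp H (ENNReal.ofReal (cj p)) (volume.restrict (tsupport φ)) →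
        Integrable (fun z => inner ℝ (H z) (dx φ z)) volume := by
      intro H hH
      have h3 := (holder_inner hp hH (μ := volume.restrict (tsupport φ))
        ((c1.memLp_of_hasCompactSupport s1).restrict (tsupport φ))).1
      refine (integrableOn_iff_integrable_of_support_subset ?_).1 h3
      intro z hz
      by_contra hzs
      apply hz
      simp only [dx_zero_of_notMem z hzs, inner_zero_right]
    have k1 := inn _ (memLp_flux hp (mem_cont _ _ mdx cdx _ hK hφ.supp))
    have k2 := inn _ (memLp_flux hp (hv.memG _ hK hφ.supp))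
    have e3 : ∫ z, ε * dt φ z = 0 := by
      rw [integral_const_mul, scl_int_dt hφ, mul_zero]
    have e4 : ∫ z, (Φ z - ε - v z) * dt φ z =
        (∫ z, Φ z * dt φ z) - (∫ z, ε * dt φ z) - ∫ z, v z * dt φ z := by
      have h13 : Integrable (fun z => Φ z * dt φ z - ε * dt φ z) volume := i1.sub i3
      rw [← integral_sub i1 i3, ← integral_sub h13 i2]
      refine integral_congr_ae (Eventually.of_forall fun z => ?_)
      simp only [sub_mul]
    have e5 : ∫ z, inner ℝ (A p (dx Φ z) - A p (G z)) (dx φ z) =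
        (∫ z, inner ℝ (A p (dx Φ z)) (dx φ z)) - ∫ z, inner ℝ (A p (G z)) (dx φ z) := by
      rw [← integral_sub k1 k2]
      refine integral_congr_ae (Eventually.of_forall fun z => ?_)
      simp only [inner_sub_left]
    have e6 : ∫ z, inner ℝ (V z) (dx φ z) = ∫ z, inner ℝ (A p (dx Φ z)) (dx φ z) := by
      refine integral_congr_ae (Eventually.of_forall fun z => ?_)
      simp only
      by_cases hz : z ∈ tsupport φ
      · rw [hfl z (hφ.supp hz)]
      · rw [dx_zero_of_notMem z hz, inner_zero_right, inner_zero_right]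
    change (-∫ z, (Φ z - ε - v z) * dt φ z) +
      ∫ z, inner ℝ (A p (dx Φ z) - A p (G z)) (dx φ z) ≤ ∫ z, (fun _ => (0 : ℝ)) z * φ z
    rw [e4, e5, e3]
    rw [e6] at h1
    linarith
  · exact Eventually.of_forall fun z => A_mono hp _ _

end PP

end

open Set Metric Filter Topology MeasureTheory
open scoped RealInnerProductSpace ContDiff

namespace Pool.Agent.TWC

variable {n : ℕ} {p : ℝ}

theorem wvb (hp : 2 < p) {D : Set (PP.X n)} (hD : IsOpen D) {Φ : PP.X n → ℝ}
    (hΦ : ContDiffOn ℝ 1 Φ D) (hV : ContDiffOn ℝ 1 (fun z => PP.A p (PP.dx Φ z)) D)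
    (hsub : ∀ z ∈ D, PP.dt Φ z ≤ PP.dv (fun z => PP.A p (PP.dx Φ z)) z) {v : PP.X n → ℝ}
    {G : PP.X n → E n} (hv : ContinuousOn v D) (hvb : ∃ M, ∀ z ∈ D, |v z| ≤ M)
    (hG : ∀ K, IsCompact K → K ⊆ D → MemLp G (ENNReal.ofReal p) (volume.restrict K))
    (hwg : PP.WG D v G) (heq : PP.WEq p D v G) {b : ℝ}
    (hc : ∀ τ > 0, ∃ K, IsCompact K ∧ K ⊆ D ∧ ∀ z ∈ D, v z < Φ z → z.2 < b - τ → z ∈ K) :
    ∀ z ∈ D, z.2 < b → Φ z ≤ v z := by
  have hp1 : 1 < p := by linarith
  have hsup : PP.SupOn p D v G := by
    refine ⟨hv.aestronglyMeasurable hD.measurableSet, ?_, hG, hwg, ?_⟩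
    · obtain ⟨M, hM⟩ := hvb
      refine ⟨M, ?_⟩
      filter_upwards [ae_restrict_mem hD.measurableSet] with z hz
      exact hM z hz
    · intro φ hφ _
      have := heq φ hφ
      linarith
  have h := PP.wvb_compare hp1 hD hΦ hV hsub (fun _ _ => rfl) hsup (b := b) (ε := 0) (by
    intro τ hτ
    obtain ⟨K, hK, hKD, hKc⟩ := hc τ hτ
    refine ⟨K, hK, hKD, ?_⟩
    filter_upwards [ae_restrict_mem hD.measurableSet] with z hz h1 h2
    exact hKc z hz (by linarith) h2)
  rw [ae_restrict_iff' hD.measurableSet] at h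
  -- the bad set is open and of measure zero
  set B : Set (PP.X n) := {z | z ∈ D ∧ 0 < Φ z - v z} ∩ {z | z.2 < b} with hB
  have hBo : IsOpen B := by
    refine IsOpen.inter ?_ (isOpen_lt continuous_snd continuous_const)
    exact (hΦ.continuousOn.sub hv).isOpen_inter_preimage hD isOpen_Ioi
  have hB0 : volume B = 0 := by
    refine measure_mono_null ?_ (ae_iff.1 h)
    rintro z ⟨⟨hz1, hz2⟩, hz3⟩ hcon
    have h3 := hcon hz1 hz3
    linarith
  have hBe : B = ∅ := hBo.eq_empty_of_measure_zero hB0
  intro z hz hzb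
  by_contra hcon
  push Not at hcon
  have : z ∈ B := ⟨⟨hz, sub_pos.2 hcon⟩, hzb⟩
  rw [hBe] at this
  exact this

end Pool.Agent.TWC
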